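import Mathlib

section

/-! Holonomy of a path in a Banach algebra: the solution of `φ' = φ a`, `φ 0 = 1`. -/

open Set
open scoped Topology

noncomputable section

namespace Pool.Agent.MP_efb2da_gt

variable {A : Type} [NormedRing A] [NormedAlgebra ℂ A] [CompleteSpace A]

/-- `φ` solves `φ' = φ a` on `[0,1]` -/
def IsSol (a φ : ℝ → A) : Prop :=
  ∀ r ∈ Icc (0:ℝ) 1, HasDerivWithinAt φ (φ r * a r) (Icc 0 1) r

open Classical in
/-- the solution with `φ 0 = 1` -/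
def Hol (a : ℝ → A) : ℝ → A :=
  if h : ∃ φ, IsSol a φ ∧ φ 0 = 1 then h.choose else fun _ => 1

/-- a function on a compact space as a continuous map -/
def cmk {K E : Type} [TopologicalSpace K] [TopologicalSpace E] [Zero E] (f : K → E) : C(K, E) :=
  ContinuousMap.mkD f 0

end Pool.Agent.MP_efb2da_gt

end
end

section

open Set
open scoped Topology

noncomputable section

set_option linter.unusedSectionVars false

namespace Pool.Agent.MP_efb2da_gt

variable {A : Type} [NormedRing A] [NormedAlgebra ℂ A] [CompleteSpace A] [NormOneClass A]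

/-- extension of a continuous map on `[0,1]` to the line -/
def Hol1ext (φ : C(Icc (0:ℝ) 1, A)) : ℝ → A := fun r => φ (projIcc 0 1 zero_le_one r)

omit [NormedAlgebra ℂ A] [CompleteSpace A] [NormOneClass A] in
theorem Hol1ext_cont (φ : C(Icc (0:ℝ) 1, A)) : Continuous (Hol1ext φ) :=
  φ.continuous.comp continuous_projIcc

omit [NormedAlgebra ℂ A] [CompleteSpace A] [NormOneClass A] in
theorem Hol1ext_norm (φ : C(Icc (0:ℝ) 1, A)) (r : ℝ) : ‖Hol1ext φ r‖ ≤ ‖φ‖ :=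
  φ.norm_coe_le_norm _

omit [NormedAlgebra ℂ A] [CompleteSpace A] [NormOneClass A] in
theorem Hol1ext_of_mem (φ : C(Icc (0:ℝ) 1, A)) {r : ℝ} (hr : r ∈ Icc (0:ℝ) 1) :
    Hol1ext φ r = φ ⟨r, hr⟩ := by
  simp only [Hol1ext, projIcc_of_mem zero_le_one hr]

/-- the primitive, as a linear map -/
def Hol1Jl : C(Icc (0:ℝ) 1, A) →ₗ[ℂ] C(Icc (0:ℝ) 1, A) where
  toFun ψ := ⟨fun r => ∫ t in (0:ℝ)..r, Hol1ext ψ t,
    (intervalIntegral.continuous_primitive
      (fun a b => (Hol1ext_cont ψ).intervalIntegrable a b) 0).comp continuous_subtype_val⟩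
  map_add' ψ χ := by
    ext r
    simp only [ContinuousMap.coe_mk, ContinuousMap.add_apply]
    rw [← intervalIntegral.integral_add ((Hol1ext_cont ψ).intervalIntegrable _ _)
      ((Hol1ext_cont χ).intervalIntegrable _ _)]
    rfl
  map_smul' c ψ := by
    ext r
    simp only [ContinuousMap.coe_mk, ContinuousMap.smul_apply, RingHom.id_apply]
    rw [← intervalIntegral.integral_smul]
    rfl

omit [CompleteSpace A] [NormOneClass A] in
theorem Hol1Jl_apply (ψ : C(Icc (0:ℝ) 1, A)) (r : Icc (0:ℝ) 1) :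
    Hol1Jl ψ r = ∫ t in (0:ℝ)..r, Hol1ext ψ t := rfl

omit [CompleteSpace A] [NormOneClass A] in
theorem Hol1Jl_norm (ψ : C(Icc (0:ℝ) 1, A)) : ‖Hol1Jl ψ‖ ≤ ‖ψ‖ := by
  rw [ContinuousMap.norm_le _ (norm_nonneg _)]
  intro r
  rw [Hol1Jl_apply]
  have := intervalIntegral.norm_integral_le_of_norm_le_const (a := 0) (b := (r:ℝ)) (C := ‖ψ‖)
    (f := Hol1ext ψ) (fun t _ => Hol1ext_norm ψ t)
  refine this.trans ?_
  have h1 : |(r:ℝ) - 0| ≤ 1 := by
    rw [sub_zero, abs_of_nonneg r.2.1]; exact r.2.2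
  exact mul_le_of_le_one_right (norm_nonneg _) h1

/-- abstract Volterra equation in a Banach algebra -/
theorem Hol1_gen {E : Type} [NormedRing E] [NormedAlgebra ℂ E] [CompleteSpace E]
    (J : E → E) (hadd : ∀ x y, J (x + y) = J x + J y) (hsmul : ∀ (c : ℂ) x, J (c • x) = c • J x)
    (hJ : ∀ ψ, ‖J ψ‖ ≤ ‖ψ‖)
    (hV : ∀ (a φ : E) (n : ℕ), ‖(fun ψ => J (ψ * a))^[n] φ‖ ≤ ‖a‖ ^ n / n.factorial * ‖φ‖) :
    ∃ S : E → E, Differentiable ℂ S ∧ ∀ a, S a = 1 + J (S a * a) ∧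
      Filter.Tendsto (fun N => ∑ n ∈ Finset.range N, (fun ψ => J (ψ * a))^[n] 1) Filter.atTop
        (𝓝 (S a)) := by
  let Jl : E →ₗ[ℂ] E := ⟨⟨J, hadd⟩, hsmul⟩
  let Jc : E →L[ℂ] E := Jl.mkContinuous 1 fun ψ => by rw [one_mul]; exact hJ ψ
  let V : E →L[ℂ] (E →L[ℂ] E) :=
    (ContinuousLinearMap.compL ℂ E E E Jc).comp (ContinuousLinearMap.mul ℂ E).flip
  have hVa : ∀ a φ, V a φ = J (φ * a) := fun _ _ => rfl
  have hpow : ∀ (a : E) (n : ℕ) (φ : E), ((V a) ^ n) φ = (fun ψ => J (ψ * a))^[n] φ := by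
    intro a n
    induction n with
    | zero => intro φ; rfl
    | succ n ih =>
      intro φ
      rw [pow_succ', Function.iterate_succ_apply', ← ih]
      exact hVa a _
  have hn : ∀ (a : E) (n : ℕ), ‖(V a) ^ n‖ ≤ ‖a‖ ^ n / n.factorial := fun a n =>
    ContinuousLinearMap.opNorm_le_bound _ (by positivity) fun φ => by
      rw [hpow]; exact hV a φ n
  have hs : ∀ a : E, Summable fun n => (V a) ^ n := fun a =>
    Summable.of_norm_bounded (Real.summable_pow_div_factorial ‖a‖) (hn a)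
  let u : E → (E →L[ℂ] E)ˣ := fun a =>
    ⟨1 - V a, ∑' n, (V a) ^ n, (hs a).one_sub_mul_tsum_pow, (hs a).tsum_pow_mul_one_sub⟩
  have hinv : ∀ a, Ring.inverse (1 - V a) = ∑' n, (V a) ^ n := fun a => Ring.inverse_unit (u a)
  refine ⟨fun a => Ring.inverse (1 - V a) 1, fun a => ?_, fun a => ⟨?_, ?_⟩⟩
  · have h1 : DifferentiableAt ℂ (fun b : E => 1 - V b) a :=
      V.differentiableAt.const_sub 1
    have h0 : DifferentiableAt ℂ (Ring.inverse : (E →L[ℂ] E) → (E →L[ℂ] E)) (1 - V a) :=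
      differentiableAt_inverse (𝕜 := ℂ) (R := E →L[ℂ] E) (u a).isUnit
    have h2 : DifferentiableAt ℂ (fun b : E => Ring.inverse (1 - V b)) a :=
      DifferentiableAt.comp (g := (Ring.inverse : (E →L[ℂ] E) → (E →L[ℂ] E)))
        (f := fun b : E => 1 - V b) a h0 h1
    exact h2.clm_apply (differentiableAt_const _)
  · have h : ((1 - V a) * ∑' n, (V a) ^ n) 1 = (1 : E →L[ℂ] E) 1 := by
      rw [(hs a).one_sub_mul_tsum_pow]
    have h' : (∑' n, (V a) ^ n) 1 - V a ((∑' n, (V a) ^ n) 1) = 1 := h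
    simp only [hinv]
    rw [← hVa, ← sub_eq_iff_eq_add]
    exact h'
  · have := ((ContinuousLinearMap.apply ℂ E (1 : E)).hasSum (hs a).hasSum).tendsto_sum_nat
    simp only [ContinuousLinearMap.apply_apply, hpow] at this
    simpa only [hinv] using this

omit [CompleteSpace A] [NormOneClass A] in
theorem Hol1V_pow_le (a φ : C(Icc (0:ℝ) 1, A)) (n : ℕ) : ∀ r : Icc (0:ℝ) 1,
    ‖(fun ψ => Hol1Jl (ψ * a))^[n] φ r‖ ≤ ‖φ‖ * ‖a‖ ^ n / n.factorial * (r:ℝ) ^ n := by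
  induction n with
  | zero => intro r; simpa using φ.norm_coe_le_norm r
  | succ n ih =>
    intro r
    rw [Function.iterate_succ_apply', Hol1Jl_apply]
    have hb : ∀ t ∈ Icc (0:ℝ) r, ‖Hol1ext ((fun ψ => Hol1Jl (ψ * a))^[n] φ * a) t‖ ≤
        ‖φ‖ * ‖a‖ ^ (n + 1) / n.factorial * t ^ n := by
      intro t ht
      have ht' : t ∈ Icc (0:ℝ) 1 := ⟨ht.1, ht.2.trans r.2.2⟩
      rw [Hol1ext_of_mem _ ht', ContinuousMap.mul_apply]
      refine (norm_mul_le _ _).trans ?_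
      have h1 := ih ⟨t, ht'⟩
      have h2 := a.norm_coe_le_norm ⟨t, ht'⟩
      have h3 : 0 ≤ ‖φ‖ * ‖a‖ ^ n / n.factorial * t ^ n := by
        have := ht.1; positivity
      calc _ ≤ (‖φ‖ * ‖a‖ ^ n / n.factorial * t ^ n) * ‖a‖ :=
            mul_le_mul h1 h2 (norm_nonneg _) h3
        _ = _ := by ring
    have hi := intervalIntegral.norm_integral_le_of_norm_le (μ := MeasureTheory.volume)
      (f := Hol1ext ((fun ψ => Hol1Jl (ψ * a))^[n] φ * a))
      (g := fun t => ‖φ‖ * ‖a‖ ^ (n + 1) / n.factorial * t ^ n) r.2.1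
      (Filter.Eventually.of_forall fun t ht => hb t ⟨ht.1.le, ht.2⟩)
      ((by fun_prop : Continuous fun t : ℝ =>
        ‖φ‖ * ‖a‖ ^ (n + 1) / n.factorial * t ^ n).intervalIntegrable _ _)
    refine hi.trans (le_of_eq ?_)
    rw [intervalIntegral.integral_const_mul, integral_pow, Nat.factorial_succ]
    have : (n.factorial : ℝ) ≠ 0 := by positivity
    push_cast
    field_simp
    ring

omit [CompleteSpace A] [NormOneClass A] in
theorem Hol1V_pow_norm (a φ : C(Icc (0:ℝ) 1, A)) (n : ℕ) :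
    ‖(fun ψ => Hol1Jl (ψ * a))^[n] φ‖ ≤ ‖a‖ ^ n / n.factorial * ‖φ‖ := by
  rw [ContinuousMap.norm_le _ (by positivity)]
  intro r
  refine (Hol1V_pow_le a φ n r).trans ?_
  have h1 : (r:ℝ) ^ n ≤ 1 := pow_le_one₀ r.2.1 r.2.2
  have h2 : 0 ≤ ‖φ‖ * ‖a‖ ^ n / n.factorial := by positivity
  calc _ ≤ ‖φ‖ * ‖a‖ ^ n / n.factorial * 1 := mul_le_mul_of_nonneg_left h1 h2
    _ = _ := by ring

omit [NormOneClass A] in
theorem Hol1S_exists : ∃ S : C(Icc (0:ℝ) 1, A) → C(Icc (0:ℝ) 1, A), Differentiable ℂ S ∧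
    ∀ a, S a = 1 + Hol1Jl (S a * a) ∧
      Filter.Tendsto (fun N => ∑ n ∈ Finset.range N, (fun ψ => Hol1Jl (ψ * a))^[n] 1)
        Filter.atTop (𝓝 (S a)) :=
  Hol1_gen (E := C(Icc (0:ℝ) 1, A)) (fun ψ => Hol1Jl ψ) (fun x y => Hol1Jl.map_add x y)
    (fun c x => Hol1Jl.map_smul c x) Hol1Jl_norm Hol1V_pow_norm

/-- the solution operator -/
def Hol1S : C(Icc (0:ℝ) 1, A) → C(Icc (0:ℝ) 1, A) := Hol1S_exists.choose

omit [NormOneClass A] in
theorem Hol1S_fix (a : C(Icc (0:ℝ) 1, A)) : Hol1S a = 1 + Hol1Jl (Hol1S a * a) :=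
  (Hol1S_exists.choose_spec.2 a).1

omit [NormOneClass A] in
theorem Hol1S_diff : Differentiable ℂ (Hol1S (A := A)) := Hol1S_exists.choose_spec.1

omit [NormOneClass A] in
theorem Hol1S_lim (a : C(Icc (0:ℝ) 1, A)) :
    Filter.Tendsto (fun N => ∑ n ∈ Finset.range N, (fun ψ => Hol1Jl (ψ * a))^[n] 1)
      Filter.atTop (𝓝 (Hol1S a)) := (Hol1S_exists.choose_spec.2 a).2

omit [NormOneClass A] in
theorem Hol1J_mem (B : Subalgebra ℝ A) (hB : IsClosed (B : Set A)) (ψ : C(Icc (0:ℝ) 1, A))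
    (h : ∀ r, ψ r ∈ B) (r : Icc (0:ℝ) 1) : Hol1Jl ψ r ∈ B := by
  rw [Hol1Jl_apply]
  let M : Submodule ℝ A := Subalgebra.toSubmodule B
  have : CompleteSpace M := IsClosed.completeSpace_coe (s := (B : Set A)) (hs := hB)
  let g : ℝ → M := fun t => ⟨Hol1ext ψ t, h _⟩
  have hg : Continuous g := (Hol1ext_cont ψ).subtype_mk _
  have := M.subtypeL.intervalIntegral_comp_comm (μ := MeasureTheory.volume)
    (hg.intervalIntegrable 0 (r:ℝ))
  have h2 : (∫ t in (0:ℝ)..r, Hol1ext ψ t) = ((∫ t in (0:ℝ)..r, g t : M) : A) := this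
  rw [h2]
  exact (∫ t in (0:ℝ)..r, g t : M).2

omit [NormOneClass A] in
theorem Hol1S_mem (B : Subalgebra ℝ A) (hB : IsClosed (B : Set A)) (a : C(Icc (0:ℝ) 1, A))
    (h : ∀ r, a r ∈ B) (r : Icc (0:ℝ) 1) : Hol1S a r ∈ B := by
  have hp : ∀ n : ℕ, ∀ r, (fun ψ => Hol1Jl (ψ * a))^[n] 1 r ∈ B := by
    intro n
    induction n with
    | zero => intro r; exact B.one_mem
    | succ n ih =>
      intro r
      rw [Function.iterate_succ_apply']
      exact Hol1J_mem B hB _ (fun s => B.mul_mem (ih s) (h s)) r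
  have hs := ((continuous_eval_const r).tendsto (Hol1S a)).comp (Hol1S_lim a)
  refine hB.mem_of_tendsto hs (Filter.Eventually.of_forall fun n => ?_)
  simp only [Function.comp, ContinuousMap.coe_sum, Finset.sum_apply]
  exact B.sum_mem fun i _ => hp i r

omit [NormOneClass A] in
theorem Hol1S_isSol (a : C(Icc (0:ℝ) 1, A)) : IsSol (Hol1ext a) (Hol1ext (Hol1S a)) := by
  intro r hr
  have hg := Hol1ext_cont (Hol1S a * a)
  have h1 : HasDerivAt (fun u => 1 + ∫ t in (0:ℝ)..u, Hol1ext (Hol1S a * a) t)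
      (Hol1ext (Hol1S a * a) r) r :=
    (intervalIntegral.integral_hasDerivAt_right (hg.intervalIntegrable _ _)
      (hg.stronglyMeasurableAtFilter _ _) hg.continuousAt).const_add 1
  have key : ∀ u ∈ Icc (0:ℝ) 1,
      Hol1ext (Hol1S a) u = 1 + ∫ t in (0:ℝ)..u, Hol1ext (Hol1S a * a) t := by
    intro u hu
    rw [Hol1ext_of_mem _ hu]
    conv_lhs => rw [Hol1S_fix a]
    rfl
  exact h1.hasDerivWithinAt.congr key (key r hr)

omit [NormOneClass A] in
theorem Hol1S_zero (a : C(Icc (0:ℝ) 1, A)) : Hol1S a ⟨0, left_mem_Icc.2 zero_le_one⟩ = 1 := by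
  rw [Hol1S_fix a, ContinuousMap.add_apply, Hol1Jl_apply]
  simp

/-- The solution operator on `C([0,1], A)`; it is holomorphic, and preserves closed subalgebras. -/
theorem exists_holC : ∃ S : C(Icc (0:ℝ) 1, A) → C(Icc (0:ℝ) 1, A), Differentiable ℂ S ∧
    (∀ a : C(Icc (0:ℝ) 1, A),
      IsSol (fun r => a (projIcc 0 1 zero_le_one r)) (fun r => S a (projIcc 0 1 zero_le_one r)) ∧
      S a ⟨0, left_mem_Icc.2 zero_le_one⟩ = 1) ∧
    ∀ (B : Subalgebra ℝ A), IsClosed (B : Set A) → ∀ a : C(Icc (0:ℝ) 1, A), (∀ r, a r ∈ B) →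
      ∀ r, S a r ∈ B :=
  ⟨Hol1S, Hol1S_diff, fun a => ⟨Hol1S_isSol a, Hol1S_zero a⟩, Hol1S_mem⟩

theorem IsSol.unique {a φ χ : ℝ → A} (ha : ContinuousOn a (Icc 0 1))
    (h1 : ContinuousOn φ (Icc 0 1)) (h2 : ContinuousOn χ (Icc 0 1))
    (d1 : ∀ r ∈ Ico (0:ℝ) 1, HasDerivWithinAt φ (φ r * a r) (Ici r) r)
    (d2 : ∀ r ∈ Ico (0:ℝ) 1, HasDerivWithinAt χ (χ r * a r) (Ici r) r) (h0 : φ 0 = χ 0) :
    ∀ r ∈ Icc (0:ℝ) 1, φ r = χ r := by
  obtain ⟨K, hK⟩ := isCompact_Icc.exists_bound_of_continuousOn ha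
  have hK0 : 0 ≤ K := (norm_nonneg _).trans (hK 0 (left_mem_Icc.2 zero_le_one))
  refine ODE_solution_unique_of_mem_Icc_right (v := fun t x => x * a t) (s := fun _ => univ)
    (K := ⟨K, hK0⟩) ?_ h1 d1 (fun _ _ => mem_univ _) h2 d2 (fun _ _ => mem_univ _) h0
  intro t ht
  refine LipschitzWith.lipschitzOnWith (LipschitzWith.of_dist_le_mul fun x y => ?_)
  rw [dist_eq_norm, dist_eq_norm, ← sub_mul]
  refine (norm_mul_le _ _).trans ?_
  rw [mul_comm]
  exact mul_le_mul_of_nonneg_right (hK t (Ico_subset_Icc_self ht)) (norm_nonneg _)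

theorem Hol_zero (a : ℝ → A) : Hol a 0 = 1 := by
  unfold Hol
  split_ifs with h
  · exact h.choose_spec.2
  · rfl

omit [NormOneClass A] [CompleteSpace A] in
theorem Hol1_congr {a b φ : ℝ → A} (h : ∀ r ∈ Icc (0:ℝ) 1, a r = b r) (hφ : IsSol a φ) :
    IsSol b φ := fun r hr => h r hr ▸ hφ r hr

omit [NormOneClass A] in
theorem Hol1_exists {a : ℝ → A} (ha : ContinuousOn a (Icc 0 1)) :
    IsSol a (Hol1ext (Hol1S (cmk fun y : Icc (0:ℝ) 1 => a y))) := by
  refine Hol1_congr (fun r hr => ?_) (Hol1S_isSol _)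
  rw [Hol1ext_of_mem _ hr]
  exact ContinuousMap.mkD_apply_of_continuous
    (ha.comp_continuous continuous_subtype_val fun y => y.2)

theorem Hol_isSol {a : ℝ → A} (ha : ContinuousOn a (Icc 0 1)) : IsSol a (Hol a) := by
  have h : ∃ φ, IsSol a φ ∧ φ 0 = 1 := ⟨_, Hol1_exists ha, by
    rw [Hol1ext_of_mem _ (left_mem_Icc.2 zero_le_one)]; exact Hol1S_zero _⟩
  unfold Hol
  rw [dif_pos h]
  exact h.choose_spec.1

omit [NormOneClass A] [CompleteSpace A] in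
theorem Hol1_cont {a φ : ℝ → A} (h : IsSol a φ) : ContinuousOn φ (Icc 0 1) :=
  fun r hr => (h r hr).continuousWithinAt

omit [NormOneClass A] [CompleteSpace A] in
theorem Hol1_right {a φ : ℝ → A} (h : IsSol a φ) :
    ∀ r ∈ Ico (0:ℝ) 1, HasDerivWithinAt φ (φ r * a r) (Ici r) r := fun r hr =>
  (h r (Ico_subset_Icc_self hr)).mono_of_mem_nhdsWithin
    (Filter.mem_of_superset (Icc_mem_nhdsGE hr.2) (Icc_subset_Icc_left hr.1))

theorem Hol_continuousOn {a : ℝ → A} (ha : ContinuousOn a (Icc 0 1)) :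
    ContinuousOn (Hol a) (Icc 0 1) := Hol1_cont (Hol_isSol ha)

theorem IsSol.eq_Hol {a φ : ℝ → A} (ha : ContinuousOn a (Icc 0 1)) (h : IsSol a φ) :
    ∀ r ∈ Icc (0:ℝ) 1, φ r = φ 0 * Hol a r := by
  have h2 : IsSol a (fun r => φ 0 * Hol a r) := fun r hr => by
    have := (Hol_isSol ha r hr).const_mul (φ 0)
    rwa [← mul_assoc] at this
  exact IsSol.unique ha (Hol1_cont h) (Hol1_cont h2) (Hol1_right h) (Hol1_right h2)
    (by simp [Hol_zero])

theorem Hol_congr {a b : ℝ → A} (ha : ContinuousOn a (Icc 0 1)) (h : ∀ r ∈ Icc (0:ℝ) 1, a r = b r) :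
    ∀ r ∈ Icc (0:ℝ) 1, Hol a r = Hol b r := by
  intro r hr
  have hb : ContinuousOn b (Icc 0 1) := ha.congr fun r hr => (h r hr).symm
  have := IsSol.eq_Hol hb (Hol1_congr h (Hol_isSol ha)) r hr
  rwa [Hol_zero, one_mul] at this

theorem Hol1_eq {a : ℝ → A} (ha : ContinuousOn a (Icc 0 1)) {r : ℝ} (hr : r ∈ Icc (0:ℝ) 1) :
    Hol a r = Hol1S (cmk fun y : Icc (0:ℝ) 1 => a y) ⟨r, hr⟩ := by
  have := IsSol.eq_Hol ha (Hol1_exists ha) r hr
  rw [Hol1ext_of_mem _ hr, Hol1ext_of_mem _ (left_mem_Icc.2 zero_le_one), Hol1S_zero,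
    one_mul] at this
  exact this.symm

theorem Hol_mem {a : ℝ → A} (ha : ContinuousOn a (Icc 0 1)) (B : Subalgebra ℝ A)
    (hB : IsClosed (B : Set A)) (h : ∀ r ∈ Icc (0:ℝ) 1, a r ∈ B) :
    ∀ r ∈ Icc (0:ℝ) 1, Hol a r ∈ B := by
  intro r hr
  rw [Hol1_eq ha hr]
  refine Hol1S_mem B hB _ (fun y => ?_) _
  have : cmk (fun y : Icc (0:ℝ) 1 => a y) y = a y := ContinuousMap.mkD_apply_of_continuous
    (ha.comp_continuous continuous_subtype_val fun y => y.2)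
  rw [this]
  exact h y y.2

theorem Hol1_continuousOn_cmk {P K E : Type} [TopologicalSpace P] [TopologicalSpace K]
    [NormedAddCommGroup E] {S : Set P} {F : P → K → E}
    (hc : ContinuousOn (fun x : P × K => F x.1 x.2) (S ×ˢ univ)) :
    ContinuousOn (fun p => cmk (F p)) S :=
  ContinuousMap.continuousOn_mkD_of_uncurry F 0 hc

/-- holomorphy of a `C(K,E)`-valued function from pointwise holomorphy -/
theorem differentiableOn_cmk {K E : Type} [TopologicalSpace K] [CompactSpace K]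
    [NormedAddCommGroup E] [NormedSpace ℂ E] [CompleteSpace E] {U : Set ℂ} (hU : IsOpen U)
    {F : ℂ → K → E} (hc : ContinuousOn (fun x : ℂ × K => F x.1 x.2) (U ×ˢ univ))
    (hd : ∀ y, DifferentiableOn ℂ (fun τ => F τ y) U) :
    DifferentiableOn ℂ (fun τ => cmk (F τ)) U := by
  intro c hcU
  have hΦ := Hol1_continuousOn_cmk hc
  have hev : ∀ τ ∈ U, ∀ y, cmk (F τ) y = F τ y := fun τ hτ y =>
    ContinuousMap.mkD_apply_of_continuous
      (hc.comp_continuous (Continuous.prodMk_right τ) fun _ => ⟨hτ, trivial⟩)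
  obtain ⟨R, hR, hRU⟩ := Metric.nhds_basis_closedBall.mem_iff.1 (hU.mem_nhds hcU)
  have hsph : ContinuousOn (fun τ => cmk (F τ)) (Metric.sphere c R) :=
    hΦ.mono (Metric.sphere_subset_closedBall.trans hRU)
  have hci : CircleIntegrable (fun τ => cmk (F τ)) c (⟨R, hR.le⟩ : NNReal) :=
    hsph.circleIntegrable hR.le
  have hps := hasFPowerSeriesOn_cauchy_integral hci (by exact_mod_cast hR)
  have hda := hps.hasFPowerSeriesAt.differentiableAt
  refine (hda.congr_of_eventuallyEq ?_).differentiableWithinAt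
  filter_upwards [Metric.ball_mem_nhds c hR] with w hw
  ext y
  have hwne : ∀ z ∈ Metric.sphere c R, z - w ≠ 0 := by
    intro z hz h0
    rw [sub_eq_zero] at h0
    rw [h0, Metric.mem_sphere] at hz
    exact (Metric.mem_ball.1 hw).ne hz
  have hci2 : CircleIntegrable (fun z => (z - w)⁻¹ • cmk (F z)) c R :=
    ContinuousOn.circleIntegrable hR.le
      (((continuousOn_id.sub continuousOn_const).inv₀ hwne).smul hsph)
  have h1 := ((hd y).mono hRU).circleIntegral_sub_inv_smul hw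
  have h2 : (∮ z in C(c, R), (z - w)⁻¹ • cmk (F z)) y = ∮ z in C(c, R), (z - w)⁻¹ • F z y := by
    have := (ContinuousMap.evalCLM ℂ y).intervalIntegral_comp_comm hci2.out
    unfold circleIntegral
    refine Eq.trans this.symm ?_
    refine intervalIntegral.integral_congr fun θ _ => ?_
    have hm : circleMap c R θ ∈ U := hRU (circleMap_mem_closedBall c hR.le θ)
    change deriv (circleMap c R) θ • (circleMap c R θ - w)⁻¹ • cmk (F (circleMap c R θ)) y = _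
    rw [hev _ hm]
  rw [hev w (hRU (Metric.ball_subset_closedBall hw)), ContinuousMap.smul_apply]
  change F w y = _ • (∮ z in C(c, R), (z - w)⁻¹ • cmk (F z)) y
  rw [h2, h1, inv_smul_smul₀ Complex.two_pi_I_ne_zero]

theorem continuousOn_cmk {P K E : Type} [TopologicalSpace P] [TopologicalSpace K] [CompactSpace K]
    [NormedAddCommGroup E] {S : Set P} {F : P → K → E}
    (hc : ContinuousOn (fun x : P × K => F x.1 x.2) (S ×ˢ univ)) :
    ContinuousOn (fun p => cmk (F p)) S := Hol1_continuousOn_cmk hc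

theorem cmk_apply {K E : Type} [TopologicalSpace K] [TopologicalSpace E] [Zero E] {f : K → E}
    (hf : Continuous f) (y : K) : cmk f y = f y := ContinuousMap.mkD_apply_of_continuous hf

omit [NormedAlgebra ℂ A] [CompleteSpace A] [NormOneClass A] in
theorem Hol1_restrict {P : Type} [TopologicalSpace P] {S : Set P} {F : P → ℝ → A}
    (hc : ContinuousOn (fun x : P × ℝ => F x.1 x.2) (S ×ˢ Icc 0 1)) :
    ContinuousOn (fun x : P × Icc (0:ℝ) 1 => F x.1 x.2) (S ×ˢ univ) :=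
  hc.comp (f := fun x : P × Icc (0:ℝ) 1 => (x.1, (x.2 : ℝ))) (by fun_prop)
    fun x hx => ⟨hx.1, x.2.2⟩

omit [NormedAlgebra ℂ A] [CompleteSpace A] [NormOneClass A] in
theorem Hol1_slice {P : Type} [TopologicalSpace P] {S : Set P} {F : P → ℝ → A}
    (hc : ContinuousOn (fun x : P × ℝ => F x.1 x.2) (S ×ˢ Icc 0 1)) {p : P} (hp : p ∈ S) :
    ContinuousOn (F p) (Icc 0 1) :=
  hc.comp (f := fun r : ℝ => (p, r)) (by fun_prop) fun _ hr => ⟨hp, hr⟩

theorem continuousOn_Hol {P : Type} [TopologicalSpace P] {S : Set P} {F : P → ℝ → A}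
    (hc : ContinuousOn (fun x : P × ℝ => F x.1 x.2) (S ×ˢ Icc 0 1)) {r : ℝ} (hr : r ∈ Icc (0:ℝ) 1) :
    ContinuousOn (fun p => Hol (F p) r) S := by
  have h1 := continuousOn_cmk (F := fun p (y : Icc (0:ℝ) 1) => F p y) (Hol1_restrict hc)
  have h2 := ((ContinuousMap.evalCLM ℂ (⟨r, hr⟩ : Icc (0:ℝ) 1)).continuous.comp
    (Hol1S_diff (A := A)).continuous).comp_continuousOn h1
  exact h2.congr fun p hp => Hol1_eq (Hol1_slice hc hp) hr

theorem differentiableOn_Hol {U : Set ℂ} (hU : IsOpen U) {F : ℂ → ℝ → A}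
    (hc : ContinuousOn (fun x : ℂ × ℝ => F x.1 x.2) (U ×ˢ Icc 0 1))
    (hd : ∀ r ∈ Icc (0:ℝ) 1, DifferentiableOn ℂ (fun τ => F τ r) U) {r : ℝ}
    (hr : r ∈ Icc (0:ℝ) 1) : DifferentiableOn ℂ (fun τ => Hol (F τ) r) U := by
  have h1 := differentiableOn_cmk hU (F := fun p (y : Icc (0:ℝ) 1) => F p y) (Hol1_restrict hc)
    (fun y => hd y y.2)
  have h2 := ((ContinuousMap.evalCLM ℂ (⟨r, hr⟩ : Icc (0:ℝ) 1)).differentiable.comp
    (Hol1S_diff (A := A))).comp_differentiableOn h1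
  exact h2.congr fun p hp => Hol1_eq (Hol1_slice hc hp) hr

end Pool.Agent.MP_efb2da_gt

end
end

section

open Set
open scoped Topology

noncomputable section

namespace Pool.Agent.MP_efb2da_gt

variable {A : Type} [NormedRing A] [NormedAlgebra ℂ A] [CompleteSpace A] [NormOneClass A]

theorem Hol2_right {φ : ℝ → A} {v : A} {r : ℝ} (hr : r ∈ Ico (0:ℝ) 1)
    (h : HasDerivWithinAt φ v (Icc 0 1) r) : HasDerivWithinAt φ v (Ici r) r :=
  h.mono_of_mem_nhdsWithin (Icc_mem_nhdsGE_of_mem hr)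

theorem Hol2_deriv {a : ℝ → A} (ha : ContinuousOn a (Icc 0 1)) {r : ℝ} (hr : r ∈ Ico (0:ℝ) 1) :
    HasDerivWithinAt (Hol a) (Hol a r * a r) (Ici r) r :=
  Hol2_right hr (Hol_isSol ha r (Ico_subset_Icc_self hr))

theorem Hol2_K_nonneg {a : ℝ → A} {K : ℝ} (hK : ∀ r ∈ Icc (0:ℝ) 1, ‖a r‖ ≤ K) : 0 ≤ K :=
  (norm_nonneg _).trans (hK 0 (left_mem_Icc.2 zero_le_one))

theorem norm_Hol_le {a : ℝ → A} (ha : ContinuousOn a (Icc 0 1)) {K : ℝ}
    (hK : ∀ r ∈ Icc (0:ℝ) 1, ‖a r‖ ≤ K) : ∀ r ∈ Icc (0:ℝ) 1, ‖Hol a r‖ ≤ Real.exp K := by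
  intro r hr
  have h0 := Hol2_K_nonneg hK
  have h := norm_le_gronwallBound_of_norm_deriv_right_le (δ := 1) (K := K) (ε := 0)
    (f' := fun r => Hol a r * a r) (Hol_continuousOn ha) (fun x hx => Hol2_deriv ha hx)
    (by rw [Hol_zero, norm_one]) (fun x hx => by
      calc ‖Hol a x * a x‖ ≤ ‖Hol a x‖ * ‖a x‖ := norm_mul_le _ _
        _ ≤ ‖Hol a x‖ * K :=
          mul_le_mul_of_nonneg_left (hK x (Ico_subset_Icc_self hx)) (norm_nonneg _)
        _ = K * ‖Hol a x‖ + 0 := by ring) r hr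
  rw [gronwallBound_ε0, one_mul, sub_zero] at h
  refine h.trans (Real.exp_le_exp.2 ?_)
  nlinarith [hr.1, hr.2]

theorem norm_Hol_sub_one_le {a : ℝ → A} (ha : ContinuousOn a (Icc 0 1)) {K : ℝ}
    (hK : ∀ r ∈ Icc (0:ℝ) 1, ‖a r‖ ≤ K) : ∀ r ∈ Icc (0:ℝ) 1, ‖Hol a r - 1‖ ≤ K * Real.exp K := by
  intro r hr
  have h0 := Hol2_K_nonneg hK
  have h := norm_le_gronwallBound_of_norm_deriv_right_le (δ := 0) (K := 0) (ε := K * Real.exp K)
    (f := fun r => Hol a r - 1)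
    (f' := fun r => Hol a r * a r) ((Hol_continuousOn ha).sub continuousOn_const)
    (fun x hx => (Hol2_deriv ha hx).sub_const 1)
    (by simp [Hol_zero]) (fun x hx => by
      have hx' := Ico_subset_Icc_self hx
      calc ‖Hol a x * a x‖ ≤ ‖Hol a x‖ * ‖a x‖ := norm_mul_le _ _
        _ ≤ Real.exp K * K :=
          mul_le_mul (norm_Hol_le ha hK x hx') (hK x hx') (norm_nonneg _) (Real.exp_pos _).le
        _ = 0 * ‖Hol a x - 1‖ + K * Real.exp K := by ring) r hr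
  rw [gronwallBound_K0] at h
  refine h.trans ?_
  have : 0 ≤ K * Real.exp K := by positivity
  show 0 + K * Real.exp K * (r - 0) ≤ K * Real.exp K
  nlinarith [hr.1, hr.2]

theorem Hol2_gronwall_le {K η r : ℝ} (hK : 0 ≤ K) (hη : 0 ≤ η) (hr : r ∈ Icc (0:ℝ) 1) :
    gronwallBound 0 K (K * η) (r - 0) + η ≤ η * Real.exp K := by
  have h1 : 1 ≤ Real.exp K := Real.one_le_exp hK
  by_cases h : K = 0
  · subst h
    simp [gronwallBound_K0]
  · rw [gronwallBound_of_K_ne_0 h]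
    have h2 : Real.exp (K * (r - 0)) ≤ Real.exp K :=
      Real.exp_le_exp.2 (by nlinarith [hr.1, hr.2])
    have h3 : K * η / K = η := by field_simp
    show 0 * Real.exp (K * (r - 0)) + K * η / K * (Real.exp (K * (r - 0)) - 1) + η ≤ _
    rw [h3]
    nlinarith

theorem norm_Hol_sub_le {a b : ℝ → A} (ha : ContinuousOn a (Icc 0 1))
    (hb : ContinuousOn b (Icc 0 1)) {K : ℝ} (hK : ∀ r ∈ Icc (0:ℝ) 1, ‖a r‖ ≤ K)
    (hK' : ∀ r ∈ Icc (0:ℝ) 1, ‖b r‖ ≤ K) : ∀ r ∈ Icc (0:ℝ) 1,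
      ‖Hol a r - Hol b r‖ ≤ Real.exp (2 * K) * ∫ s in (0:ℝ)..1, ‖a s - b s‖ := by
  intro r hr
  have h0 := Hol2_K_nonneg hK
  set f : ℝ → A := fun s => Hol b s * (a s - b s) with hf
  have hfc : ContinuousOn f (Icc 0 1) := (Hol_continuousOn hb).mul (ha.sub hb)
  set g : ℝ → A := fun s => f (projIcc 0 1 zero_le_one s) with hg
  have hgc : Continuous g :=
    hfc.comp_continuous (continuous_subtype_val.comp continuous_projIcc)
      (fun s => (projIcc 0 1 zero_le_one s).2)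
  have hgf : ∀ s ∈ Icc (0:ℝ) 1, g s = f s := fun s hs => by
    simp only [hg, projIcc_of_mem _ hs]
  set J : ℝ → A := fun u => ∫ s in (0:ℝ)..u, g s with hJ
  have hJd : ∀ u, HasDerivAt J (g u) u := fun u => (hgc.integral_hasStrictDerivAt 0 u).hasDerivAt
  have hJc : Continuous J := continuous_iff_continuousAt.2 fun u => (hJd u).continuousAt
  set η : ℝ := Real.exp K * ∫ s in (0:ℝ)..1, ‖a s - b s‖ with hη
  have hab : IntervalIntegrable (fun s => ‖a s - b s‖) MeasureTheory.volume 0 1 :=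
    ((ha.sub hb).norm).intervalIntegrable_of_Icc zero_le_one
  have hη0 : 0 ≤ η := mul_nonneg (Real.exp_pos _).le
    (intervalIntegral.integral_nonneg zero_le_one fun _ _ => norm_nonneg _)
  have hJle : ∀ u ∈ Icc (0:ℝ) 1, ‖J u‖ ≤ η := by
    intro u hu
    calc ‖J u‖ ≤ ∫ s in (0:ℝ)..u, ‖g s‖ := intervalIntegral.norm_integral_le_integral_norm hu.1
      _ ≤ ∫ s in (0:ℝ)..1, ‖g s‖ := by
        refine intervalIntegral.integral_mono_interval le_rfl hu.1 hu.2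
          (Filter.Eventually.of_forall fun _ => norm_nonneg _) (hgc.norm.intervalIntegrable _ _)
      _ ≤ ∫ s in (0:ℝ)..1, Real.exp K * ‖a s - b s‖ := by
        refine intervalIntegral.integral_mono_on zero_le_one (hgc.norm.intervalIntegrable _ _)
          (hab.const_mul _) fun s hs => ?_
        rw [hgf s hs]
        exact (norm_mul_le _ _).trans
          (mul_le_mul_of_nonneg_right (norm_Hol_le hb hK' s hs) (norm_nonneg _))
      _ = η := by rw [intervalIntegral.integral_const_mul]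
  have h := norm_le_gronwallBound_of_norm_deriv_right_le (δ := 0) (K := K) (ε := K * η)
    (f := fun r => Hol a r - Hol b r - J r)
    (f' := fun r => (Hol a r - Hol b r) * a r)
    (((Hol_continuousOn ha).sub (Hol_continuousOn hb)).sub hJc.continuousOn)
    (fun x hx => by
      have h1 := ((Hol2_deriv ha hx).sub (Hol2_deriv hb hx)).sub (hJd x).hasDerivWithinAt
      refine h1.congr_deriv ?_
      rw [hgf x (Ico_subset_Icc_self hx)]
      simp only [hf]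
      noncomm_ring)
    (by simp [Hol_zero, hJ]) (fun x hx => by
      have hx' := Ico_subset_Icc_self hx
      have h1 : ‖Hol a x - Hol b x‖ ≤ ‖Hol a x - Hol b x - J x‖ + η := by
        calc ‖Hol a x - Hol b x‖ = ‖(Hol a x - Hol b x - J x) + J x‖ := by
              rw [sub_add_cancel]
          _ ≤ _ := (norm_add_le _ _).trans (by linarith [hJle x hx'])
      calc ‖(Hol a x - Hol b x) * a x‖ ≤ ‖Hol a x - Hol b x‖ * ‖a x‖ := norm_mul_le _ _
        _ ≤ (‖Hol a x - Hol b x - J x‖ + η) * K :=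
          mul_le_mul h1 (hK x hx') (norm_nonneg _) (by positivity)
        _ = K * ‖Hol a x - Hol b x - J x‖ + K * η := by ring) r hr
  have h2 := Hol2_gronwall_le h0 hη0 hr
  calc ‖Hol a r - Hol b r‖ = ‖(Hol a r - Hol b r - J r) + J r‖ := by rw [sub_add_cancel]
    _ ≤ ‖Hol a r - Hol b r - J r‖ + ‖J r‖ := norm_add_le _ _
    _ ≤ η * Real.exp K := by linarith [hJle r hr]
    _ = _ := by rw [hη, two_mul, Real.exp_add]; ring

theorem norm_Hol_second {a : ℝ → A} (ha : ContinuousOn a (Icc 0 1)) {K : ℝ}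
    (hK : ∀ r ∈ Icc (0:ℝ) 1, ‖a r‖ ≤ K) :
    ‖Hol a 1 - 1 - ∫ s in (0:ℝ)..1, a s‖ ≤ K ^ 2 * Real.exp K := by
  have h0 := Hol2_K_nonneg hK
  have hi : IntervalIntegrable (fun s => Hol a s * a s) MeasureTheory.volume 0 1 :=
    ((Hol_continuousOn ha).mul ha).intervalIntegrable_of_Icc zero_le_one
  have hia : IntervalIntegrable a MeasureTheory.volume 0 1 :=
    ha.intervalIntegrable_of_Icc zero_le_one
  have h1 : ∫ s in (0:ℝ)..1, Hol a s * a s = Hol a 1 - Hol a 0 :=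
    intervalIntegral.integral_eq_sub_of_hasDeriv_right_of_le zero_le_one (Hol_continuousOn ha)
      (fun x hx => (Hol2_deriv ha (Ioo_subset_Ico_self hx)).mono Ioi_subset_Ici_self) hi
  rw [Hol_zero] at h1
  rw [← h1, ← intervalIntegral.integral_sub hi hia]
  have h2 := intervalIntegral.norm_integral_le_of_norm_le_const (a := (0:ℝ)) (b := 1)
    (C := K ^ 2 * Real.exp K) (f := fun s => Hol a s * a s - a s) (fun x hx => by
      rw [uIoc_of_le zero_le_one] at hx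
      have hx' := Ioc_subset_Icc_self hx
      calc ‖Hol a x * a x - a x‖ = ‖(Hol a x - 1) * a x‖ := by rw [sub_mul, one_mul]
        _ ≤ ‖Hol a x - 1‖ * ‖a x‖ := norm_mul_le _ _
        _ ≤ (K * Real.exp K) * K :=
          mul_le_mul (norm_Hol_sub_one_le ha hK x hx') (hK x hx') (norm_nonneg _) (by positivity)
        _ = K ^ 2 * Real.exp K := by ring)
  simpa using h2

/-- multiplicative real linear maps commute with `Hol` -/
theorem Hol_map {B : Type} [NormedRing B] [NormedAlgebra ℂ B] [CompleteSpace B] [NormOneClass B]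
    (σ : A →L[ℝ] B) (h1 : σ 1 = 1) (hm : ∀ x y, σ (x * y) = σ x * σ y) {a : ℝ → A}
    (ha : ContinuousOn a (Icc 0 1)) : ∀ r ∈ Icc (0:ℝ) 1, σ (Hol a r) = Hol (fun s => σ (a s)) r := by
  intro r hr
  have hs : IsSol (fun s => σ (a s)) (fun s => σ (Hol a s)) := by
    intro s hs
    have h := σ.hasFDerivAt.comp_hasDerivWithinAt s (Hol_isSol ha s hs)
    rw [hm] at h
    exact h
  have h := IsSol.eq_Hol (a := fun s => σ (a s)) (σ.continuous.comp_continuousOn ha) hs r hr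
  simpa [Hol_zero, h1] using h

/-- reversal symmetry -/
theorem Hol_rev (σ : A →L[ℝ] A) (h1 : σ 1 = 1) (hm : ∀ x y, σ (x * y) = σ x * σ y) {a : ℝ → A}
    (ha : ContinuousOn a (Icc 0 1)) (hs : ∀ r ∈ Icc (0:ℝ) 1, σ (a r) = -a (1 - r)) :
    ∀ r ∈ Icc (0:ℝ) 1, Hol a 1 * σ (Hol a r) = Hol a (1 - r) := by
  intro r hr
  have hmap : MapsTo (fun s : ℝ => 1 - s) (Icc 0 1) (Icc 0 1) := fun s hs =>
    ⟨by linarith [hs.2], by linarith [hs.1]⟩
  have hsol : IsSol (fun s => σ (a s)) (fun s => Hol a (1 - s)) := by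
    intro s hs'
    have hd : HasDerivWithinAt (fun s : ℝ => 1 - s) (-1) (Icc 0 1) s :=
      ((hasDerivAt_id s).const_sub 1).hasDerivWithinAt
    have h := (Hol_isSol ha (1 - s) (hmap hs')).scomp s hd hmap
    refine h.congr_deriv ?_
    simp [hs s hs']
  have h := IsSol.eq_Hol (a := fun s => σ (a s)) (σ.continuous.comp_continuousOn ha) hsol r hr
  rw [Hol_map σ h1 hm ha r hr]
  simpa using h.symm

theorem Hol2_const_eq (y : A) : Hol (fun _ => y) 1 = NormedSpace.exp y := by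
  have hsol : IsSol (fun _ => y) (fun r : ℝ => NormedSpace.exp (r • y)) := fun r _ =>
    (hasDerivAt_exp_smul_const y r).hasDerivWithinAt
  have h := IsSol.eq_Hol continuousOn_const hsol 1 (right_mem_Icc.2 zero_le_one)
  simpa using h.symm

/-- constant coefficients: `Hol (l x) 1` is the exponential; derivative in `l` -/
theorem hasDerivAt_Hol_const (x : A) (l : ℂ) :
    HasDerivAt (fun l : ℂ => Hol (fun _ => l • x) 1) (Hol (fun _ => l • x) 1 * x) l := by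
  simp only [Hol2_const_eq]
  exact hasDerivAt_exp_smul_const x l

theorem Hol_const_zero : Hol (fun _ => (0 : A)) 1 = 1 := by
  rw [Hol2_const_eq, NormedSpace.exp_zero]

theorem continuous_Hol_const : Continuous fun x : A => Hol (fun _ => x) 1 := by
  have h := continuousOn_Hol (S := (univ : Set A)) (F := fun (x : A) (_ : ℝ) => x)
    continuous_fst.continuousOn (right_mem_Icc.2 zero_le_one)
  exact continuousOn_univ.1 h

/-- closed form when `x² = μ²` -/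
theorem Hol_const_sq {x : A} {μ : ℂ} (hx : x * x = (μ ^ 2) • (1 : A)) (l : ℂ) :
    μ • Hol (fun _ => l • x) 1 =
      (μ * Complex.cosh (l * μ)) • (1 : A) + Complex.sinh (l * μ) • x := by
  have hsol : IsSol (fun _ => l • x) (fun r : ℝ =>
      (μ * Complex.cosh ((r : ℂ) * (l * μ))) • (1 : A) + Complex.sinh ((r : ℂ) * (l * μ)) • x) := by
    intro r _
    have e1 : HasDerivAt (fun z : ℂ => z * (l * μ)) (l * μ) (r : ℂ) := by
      simpa using (hasDerivAt_id (r : ℂ)).mul_const (l * μ)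
    have e2 : HasDerivAt (fun z : ℂ =>
        (μ * Complex.cosh (z * (l * μ))) • (1 : A) + Complex.sinh (z * (l * μ)) • x)
        ((μ * (Complex.sinh ((r : ℂ) * (l * μ)) * (l * μ))) • (1 : A) +
          (Complex.cosh ((r : ℂ) * (l * μ)) * (l * μ)) • x) (r : ℂ) :=
      ((e1.ccosh.const_mul μ).smul_const (1 : A)).add (e1.csinh.smul_const x)
    have e3 := e2.scomp r Complex.ofRealCLM.hasDerivAt
    refine (e3.congr_deriv ?_).hasDerivWithinAt
    simp only [Complex.ofRealCLM_apply, Complex.ofReal_one, one_smul, add_mul, smul_mul_assoc,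
      mul_smul_comm, hx, one_mul, smul_smul]
    module
  have h := IsSol.eq_Hol continuousOn_const hsol 1 (right_mem_Icc.2 zero_le_one)
  simpa using h.symm

end Pool.Agent.MP_efb2da_gt

end
end

section

open Set
open scoped Topology

noncomputable section

namespace Pool.Agent.MP_efb2da_gt

variable {A : Type} [NormedRing A] [NormedAlgebra ℂ A] [CompleteSpace A] [NormOneClass A]

theorem const_of_deriv_zero {E : Type} [NormedAddCommGroup E] [NormedSpace ℂ E] {O S : Set ℂ}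
    (hO : IsOpen O) {F : ℂ → E} (hF : ∀ z ∈ O, HasDerivAt F 0 z) (hS : IsPreconnected S)
    (hSO : S ⊆ O) {z w : ℂ} (hz : z ∈ S) (hw : w ∈ S) : F z = F w := by
  have hC : IsOpen (connectedComponentIn O z) := hO.connectedComponentIn
  have hsub : S ⊆ connectedComponentIn O z := hS.subset_connectedComponentIn hz hSO
  have hCO : connectedComponentIn O z ⊆ O := connectedComponentIn_subset O z
  obtain ⟨c, hc⟩ := hC.exists_is_const_of_deriv_eq_zero isPreconnected_connectedComponentIn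
    (f := F) (fun x hx => (hF x (hCO hx)).differentiableAt.differentiableWithinAt)
    (fun x hx => (hF x (hCO hx)).deriv)
  rw [hc z (hsub hz), hc w (hsub hw)]

omit [CompleteSpace A] [NormOneClass A] in
theorem ode_uniq {a φ χ : ℝ → A} {b : ℝ} (ha : ContinuousOn a (Icc 0 b))
    (h1 : ContinuousOn φ (Icc 0 b)) (h2 : ContinuousOn χ (Icc 0 b))
    (d1 : ∀ r ∈ Ico (0:ℝ) b, HasDerivWithinAt φ (φ r * a r) (Ici r) r)
    (d2 : ∀ r ∈ Ico (0:ℝ) b, HasDerivWithinAt χ (χ r * a r) (Ici r) r) (h0 : φ 0 = χ 0) :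
    ∀ r ∈ Icc (0:ℝ) b, φ r = χ r := by
  obtain ⟨K, hK⟩ := isCompact_Icc.exists_bound_of_continuousOn ha
  have hv : ∀ t ∈ Ico (0:ℝ) b, LipschitzOnWith (Real.toNNReal K) (fun x : A => x * a t) univ := by
    intro t ht
    refine LipschitzOnWith.of_dist_le' fun x _ y _ => ?_
    rw [dist_eq_norm, dist_eq_norm, ← sub_mul, mul_comm K]
    exact (norm_mul_le _ _).trans
      (mul_le_mul_of_nonneg_left (hK t (Ico_subset_Icc_self ht)) (norm_nonneg _))
  intro r hr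
  exact ODE_solution_unique_of_mem_Icc_right (v := fun t x => x * a t) (s := fun _ => univ) hv
    h1 d1 (fun _ _ => mem_univ _) h2 d2 (fun _ _ => mem_univ _) h0 hr

omit [CompleteSpace A] [NormOneClass A] in
theorem ode_chain {ξ Φ : ℂ → A} {γ : ℝ → ℂ} {g : ℂ} {r : ℝ}
    (hΦ : HasDerivAt Φ (Φ (γ r) * ξ (γ r)) (γ r)) (hγ : HasDerivAt γ g r) :
    HasDerivAt (fun r => Φ (γ r)) (Φ (γ r) * (g • ξ (γ r))) r := by
  have := hΦ.scomp r hγ
  rw [mul_smul_comm]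
  exact this

theorem ode_seg_deriv (u v : ℂ) (r : ℝ) :
    HasDerivAt (fun r : ℝ => u + (r : ℂ) * (v - u)) (v - u) r := by
  have h : HasDerivAt (fun r : ℝ => (r : ℂ)) 1 r := Complex.ofRealCLM.hasDerivAt
  simpa using (h.mul_const (v - u)).const_add u

theorem ode_seg_mem {U : Set ℂ} (hc : Convex ℝ U) {u v : ℂ} (hu : u ∈ U) (hv : v ∈ U) {r : ℝ}
    (hr : r ∈ Icc (0:ℝ) 1) : u + (r : ℂ) * (v - u) ∈ U := by
  have := hc.add_smul_sub_mem hu hv hr
  simpa using this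

omit [CompleteSpace A] [NormOneClass A] in
theorem ode_uniq_convex {U : Set ℂ} (hc : Convex ℝ U) {ξ Φ Ψ : ℂ → A} (hξ : ContinuousOn ξ U)
    (hΦ : ∀ z ∈ U, HasDerivAt Φ (Φ z * ξ z) z) (hΨ : ∀ z ∈ U, HasDerivAt Ψ (Ψ z * ξ z) z)
    {u v : ℂ} (hu : u ∈ U) (hv : v ∈ U) (he : Φ u = Ψ u) : Φ v = Ψ v := by
  have hγc : Continuous fun r : ℝ => u + (r : ℂ) * (v - u) := by fun_prop
  have hm : ∀ r ∈ Icc (0:ℝ) 1, u + (r : ℂ) * (v - u) ∈ U := fun r hr => ode_seg_mem hc hu hv hr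
  have dΦ : ∀ r ∈ Icc (0:ℝ) 1, HasDerivAt (fun r : ℝ => Φ (u + (r : ℂ) * (v - u)))
      (Φ (u + (r : ℂ) * (v - u)) * ((v - u) • ξ (u + (r : ℂ) * (v - u)))) r := fun r hr =>
    ode_chain (γ := fun r : ℝ => u + (r : ℂ) * (v - u)) (hΦ _ (hm r hr)) (ode_seg_deriv u v r)
  have dΨ : ∀ r ∈ Icc (0:ℝ) 1, HasDerivAt (fun r : ℝ => Ψ (u + (r : ℂ) * (v - u)))
      (Ψ (u + (r : ℂ) * (v - u)) * ((v - u) • ξ (u + (r : ℂ) * (v - u)))) r := fun r hr =>
    ode_chain (γ := fun r : ℝ => u + (r : ℂ) * (v - u)) (hΨ _ (hm r hr)) (ode_seg_deriv u v r)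
  have key := ode_uniq (a := fun r : ℝ => (v - u) • ξ (u + (r : ℂ) * (v - u))) (b := 1)
    (φ := fun r : ℝ => Φ (u + (r : ℂ) * (v - u))) (χ := fun r : ℝ => Ψ (u + (r : ℂ) * (v - u)))
    ((hξ.comp hγc.continuousOn hm).const_smul (v - u))
    (fun r hr => (dΦ r hr).continuousAt.continuousWithinAt)
    (fun r hr => (dΨ r hr).continuousAt.continuousWithinAt)
    (fun r hr => (dΦ r (Ico_subset_Icc_self hr)).hasDerivWithinAt)
    (fun r hr => (dΨ r (Ico_subset_Icc_self hr)).hasDerivWithinAt)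
    (by simpa using he) 1 (right_mem_Icc.2 zero_le_one)
  simpa using key

/-- two solutions that agree at a point of a preconnected set agree on it -/
theorem frame_unique {O S : Set ℂ} (hO : IsOpen O) {ξ Φ Ψ : ℂ → A} (hξ : ContinuousOn ξ O)
    (hΦ : ∀ z ∈ O, HasDerivAt Φ (Φ z * ξ z) z) (hΨ : ∀ z ∈ O, HasDerivAt Ψ (Ψ z * ξ z) z)
    (hS : IsPreconnected S) (hSO : S ⊆ O) {w : ℂ} (hw : w ∈ S) (he : Φ w = Ψ w) :
    ∀ z ∈ S, Φ z = Ψ z := by
  have loc : ∀ z ∈ O, ∃ ε > 0, Metric.ball z ε ⊆ O ∧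
      ∀ u ∈ Metric.ball z ε, ∀ v ∈ Metric.ball z ε, Φ u = Ψ u → Φ v = Ψ v := by
    intro z hz
    obtain ⟨ε, hε, hb⟩ := Metric.isOpen_iff.1 hO z hz
    exact ⟨ε, hε, hb, fun u hu v hv h => ode_uniq_convex (convex_ball z ε) (hξ.mono hb)
      (fun x hx => hΦ x (hb hx)) (fun x hx => hΨ x (hb hx)) hu hv h⟩
  have o1 : IsOpen {z | z ∈ O ∧ Φ z = Ψ z} := by
    refine Metric.isOpen_iff.2 fun z hz => ?_
    obtain ⟨ε, hε, hb, h⟩ := loc z hz.1
    exact ⟨ε, hε, fun v hv => ⟨hb hv, h z (Metric.mem_ball_self hε) v hv hz.2⟩⟩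
  have o2 : IsOpen {z | z ∈ O ∧ Φ z ≠ Ψ z} := by
    refine Metric.isOpen_iff.2 fun z hz => ?_
    obtain ⟨ε, hε, hb, h⟩ := loc z hz.1
    exact ⟨ε, hε, fun v hv => ⟨hb hv, fun hv' => hz.2 (h v hv z (Metric.mem_ball_self hε) hv')⟩⟩
  have := hS.subset_left_of_subset_union o1 o2
    (Set.disjoint_left.2 fun z h1 h2 => h2.2 h1.2)
    (fun z hz => by
      by_cases h : Φ z = Ψ z
      · exact Or.inl ⟨hSO hz, h⟩
      · exact Or.inr ⟨hSO hz, h⟩) ⟨w, hw, hSO hw, he⟩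
  exact fun z hz => (this hz).2

theorem frame_path {O : Set ℂ} {ξ Φ : ℂ → A} (hΦ : ∀ z ∈ O, HasDerivAt Φ (Φ z * ξ z) z)
    {γ γ' : ℝ → ℂ} {b : ℝ} (hb : b ∈ Icc (0:ℝ) 1) (hγ : ∀ r, HasDerivAt γ (γ' r) r)
    (hO : ∀ r ∈ Icc (0:ℝ) b, γ r ∈ O) {a : ℝ → A} (ha : ContinuousOn a (Icc 0 1))
    (he : ∀ r ∈ Icc (0:ℝ) b, a r = γ' r • ξ (γ r)) :
    ∀ r ∈ Icc (0:ℝ) b, Φ (γ r) = Φ (γ 0) * Hol a r := by
  have hsub : Icc (0:ℝ) b ⊆ Icc 0 1 := Icc_subset_Icc_right hb.2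
  have dΦ : ∀ r ∈ Icc (0:ℝ) b, HasDerivAt (fun r => Φ (γ r)) (Φ (γ r) * a r) r := fun r hr => by
    rw [he r hr]
    exact ode_chain (hΦ _ (hO r hr)) (hγ r)
  refine ode_uniq (a := a) (φ := fun r => Φ (γ r)) (χ := fun r => Φ (γ 0) * Hol a r)
    (ha.mono hsub) (fun r hr => (dΦ r hr).continuousAt.continuousWithinAt)
    (continuousOn_const.mul ((Hol_continuousOn ha).mono hsub))
    (fun r hr => (dΦ r (Ico_subset_Icc_self hr)).hasDerivWithinAt) (fun r hr => ?_)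
    (by simp [Hol_zero])
  have hr1 : r ∈ Ico (0:ℝ) 1 := ⟨hr.1, hr.2.trans_le hb.2⟩
  have h := (Hol_isSol ha r (Ico_subset_Icc_self hr1)).mono_of_mem_nhdsWithin
    (Icc_mem_nhdsGE_of_mem hr1)
  have := h.const_mul (Φ (γ 0))
  rwa [← mul_assoc] at this

theorem ode_hol_scale {a c : ℝ → A} (ha : ContinuousOn a (Icc 0 1))
    (hc : ContinuousOn c (Icc 0 1)) {s : ℝ} (hs : s ∈ Icc (0:ℝ) 1)
    (he : ∀ r ∈ Icc (0:ℝ) 1, c r = s • a (s * r)) : Hol c 1 = Hol a s := by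
  have hm : MapsTo (fun r : ℝ => s * r) (Icc 0 1) (Icc 0 1) := fun r hr =>
    ⟨mul_nonneg hs.1 hr.1, mul_le_one₀ hs.2 hr.1 hr.2⟩
  have hsol : IsSol c (fun r => Hol a (s * r)) := by
    intro r hr
    have h1 : HasDerivWithinAt (fun r : ℝ => s * r) s (Icc 0 1) r := by
      simpa using ((hasDerivAt_id r).const_mul s).hasDerivWithinAt
    have h2 := (Hol_isSol ha (s * r) (hm hr)).scomp r h1 hm
    rw [he r hr, mul_smul_comm]
    exact h2
  have := hsol.eq_Hol hc 1 (right_mem_Icc.2 zero_le_one)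
  simpa [Hol_zero] using this.symm

theorem exists_frame_convex {U : Set ℂ} (hU : IsOpen U) (hc : Convex ℝ U) {ξ : ℂ → A}
    (hξ : DifferentiableOn ℂ ξ U) {z₀ : ℂ} (h₀ : z₀ ∈ U) (Φ₀ : A) :
    ∃ Φ : ℂ → A, Φ z₀ = Φ₀ ∧ ∀ z ∈ U, HasDerivAt Φ (Φ z * ξ z) z := by
  set F : ℂ → ℝ → A := fun z r => (z - z₀) • ξ (z₀ + (r : ℂ) * (z - z₀)) with hF
  have hFc : ContinuousOn (fun x : ℂ × ℝ => F x.1 x.2) (U ×ˢ Icc 0 1) := by
    have h1 : Continuous fun x : ℂ × ℝ => z₀ + (x.2 : ℂ) * (x.1 - z₀) := by fun_prop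
    have h2 : Continuous fun x : ℂ × ℝ => x.1 - z₀ := by fun_prop
    exact h2.continuousOn.smul (hξ.continuousOn.comp h1.continuousOn
      fun x hx => ode_seg_mem hc h₀ hx.1 hx.2)
  have hFz : ∀ z ∈ U, ContinuousOn (F z) (Icc 0 1) := fun z hz => by
    have h1 : Continuous fun r : ℝ => ((z, r) : ℂ × ℝ) := by fun_prop
    exact hFc.comp h1.continuousOn fun r hr => ⟨hz, hr⟩
  have hFd : ∀ r ∈ Icc (0:ℝ) 1, DifferentiableOn ℂ (fun τ => F τ r) U := fun r hr => by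
    have h1 : Differentiable ℂ fun z : ℂ => z₀ + (r : ℂ) * (z - z₀) := by fun_prop
    have h2 : Differentiable ℂ fun z : ℂ => z - z₀ := by fun_prop
    exact h2.differentiableOn.smul (hξ.comp h1.differentiableOn
      fun x hx => ode_seg_mem hc h₀ hx hr)
  have one : (1:ℝ) ∈ Icc (0:ℝ) 1 := right_mem_Icc.2 zero_le_one
  set Φ : ℂ → A := fun z => Φ₀ * Hol (F z) 1 with hΦ
  have hΦd : DifferentiableOn ℂ Φ U := (differentiableOn_Hol hU hFc hFd one).const_mul Φ₀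
  have hscale : ∀ z ∈ U, ∀ s ∈ Icc (0:ℝ) 1,
      Φ (z₀ + (s : ℂ) * (z - z₀)) = Φ₀ * Hol (F z) s := by
    intro z hz s hs
    have := ode_hol_scale (hFz z hz) (hFz _ (ode_seg_mem hc h₀ hz hs)) hs (fun r _ => by
      simp only [hF]
      rw [← Complex.coe_smul, smul_smul]
      congr 1
      · ring
      · congr 1
        push_cast
        ring)
    simp only [hΦ]
    rw [this]
  have hne : ∀ z ∈ U, z ≠ z₀ → deriv Φ z = Φ z * ξ z := by
    intro z hz hzz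
    have hd : HasDerivAt Φ (deriv Φ z) (z₀ + ((1:ℝ) : ℂ) * (z - z₀)) := by
      have : z₀ + ((1:ℝ) : ℂ) * (z - z₀) = z := by simp
      rw [this]
      exact (hΦd.differentiableAt (hU.mem_nhds hz)).hasDerivAt
    have d1 : HasDerivWithinAt (fun s : ℝ => Φ (z₀ + (s : ℂ) * (z - z₀)))
        ((z - z₀) • deriv Φ z) (Icc 0 1) 1 :=
      (HasDerivAt.scomp (h := fun s : ℝ => z₀ + (s : ℂ) * (z - z₀)) (1:ℝ) hd
        (ode_seg_deriv z₀ z 1)).hasDerivWithinAt
    have d2 : HasDerivWithinAt (fun s : ℝ => Φ (z₀ + (s : ℂ) * (z - z₀)))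
        (Φ₀ * (Hol (F z) 1 * F z 1)) (Icc 0 1) 1 :=
      ((Hol_isSol (hFz z hz) 1 one).const_mul Φ₀).congr (fun s hs => hscale z hz s hs)
        (hscale z hz 1 one)
    have hu : UniqueDiffWithinAt ℝ (Icc (0:ℝ) 1) 1 := uniqueDiffOn_Icc zero_lt_one 1 one
    have e := hu.eq_deriv _ d1 d2
    have e2 : Φ₀ * (Hol (F z) 1 * F z 1) = (z - z₀) • (Φ z * ξ z) := by
      simp only [hΦ, hF]
      simp [mul_assoc]
    rw [e2] at e
    exact smul_right_injective A (sub_ne_zero.2 hzz) e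
  have hall : ∀ z ∈ U, deriv Φ z = Φ z * ξ z := by
    intro z hz
    by_cases hzz : z = z₀
    · subst hzz
      have c1 : ContinuousAt (deriv Φ) z :=
        ((hΦd.deriv hU).continuousOn.continuousAt (hU.mem_nhds hz))
      have c2 : ContinuousAt (fun z => Φ z * ξ z) z :=
        (hΦd.continuousOn.mul hξ.continuousOn).continuousAt (hU.mem_nhds hz)
      have ev : deriv Φ =ᶠ[𝓝[≠] z] fun z => Φ z * ξ z := by
        filter_upwards [self_mem_nhdsWithin, mem_nhdsWithin_of_mem_nhds (hU.mem_nhds hz)]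
          with x hx hxU
        exact hne x hxU hx
      exact tendsto_nhds_unique_of_eventuallyEq (c1.tendsto.mono_left nhdsWithin_le_nhds)
        (c2.tendsto.mono_left nhdsWithin_le_nhds) ev
    · exact hne z hz hzz
  refine ⟨Φ, ?_, fun z hz => ?_⟩
  · have := hscale z₀ h₀ 0 (left_mem_Icc.2 zero_le_one)
    simpa [Hol_zero] using this
  · rw [← hall z hz]
    exact (hΦd.differentiableAt (hU.mem_nhds hz)).hasDerivAt

end Pool.Agent.MP_efb2da_gt

end
end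

section

open Set Complex
open scoped Topology

noncomputable section

namespace Pool.Agent.MP_efb2da_gt

variable {A : Type} [NormedRing A] [NormedAlgebra ℂ A] [CompleteSpace A] [NormOneClass A]

/-- holonomy along the segment from `p` to `q` -/
def odeUpSeg (ξ : ℂ → A) (p q : ℂ) : A :=
  Hol (fun r : ℝ => (q - p) • ξ (p + (r : ℂ) * (q - p))) 1

theorem odeUp_mem_segment (p q : ℂ) {r : ℝ} (hr : r ∈ Icc (0:ℝ) 1) :
    p + (r : ℂ) * (q - p) ∈ segment ℝ p q := by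
  rw [segment_eq_image']
  exact ⟨r, hr, by simp⟩

theorem odeUp_seg {U : Set ℂ} (hc : Convex ℝ U) {ξ Φ : ℂ → A} (hξ : ContinuousOn ξ U)
    (hΦ : ∀ z ∈ U, HasDerivAt Φ (Φ z * ξ z) z) {p q : ℂ} (hp : p ∈ U) (hq : q ∈ U) :
    Φ q = Φ p * odeUpSeg ξ p q := by
  have hs : ∀ r ∈ Icc (0:ℝ) 1, p + (r : ℂ) * (q - p) ∈ U := fun r hr =>
    hc.segment_subset hp hq (odeUp_mem_segment p q hr)
  have hγ : ∀ r : ℝ, HasDerivAt (fun r : ℝ => p + (r : ℂ) * (q - p)) (q - p) r := by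
    intro r
    have h1 : HasDerivAt (fun r : ℝ => (r : ℂ)) 1 r := Complex.ofRealCLM.hasDerivAt
    simpa using (h1.mul_const (q - p)).const_add p
  have hcγ : Continuous fun r : ℝ => p + (r : ℂ) * (q - p) := by fun_prop
  have ha : ContinuousOn (fun r : ℝ => (q - p) • ξ (p + (r : ℂ) * (q - p))) (Icc 0 1) :=
    (hξ.comp hcγ.continuousOn hs).const_smul (q - p)
  have h := frame_path hΦ (γ := fun r : ℝ => p + (r : ℂ) * (q - p)) (γ' := fun _ => q - p)
    (b := 1) (right_mem_Icc.2 zero_le_one) hγ hs ha (fun _ _ => rfl) 1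
    (right_mem_Icc.2 zero_le_one)
  simpa [odeUpSeg] using h

theorem odeUp_tube {O : Set ℂ} (hO : IsOpen O) {p q : ℂ} (h : segment ℝ p q ⊆ O) :
    ∃ (δ : ℝ) (U : Set ℂ), 0 < δ ∧ IsOpen U ∧ Convex ℝ U ∧ U ⊆ O ∧ Metric.ball p δ ⊆ U ∧
      Metric.ball q δ ⊆ U := by
  have hK : IsCompact (segment ℝ p q) := by
    rw [segment_eq_image']
    exact isCompact_Icc.image (by fun_prop)
  obtain ⟨δ, hδ, hs⟩ := hK.exists_thickening_subset_open hO h
  exact ⟨δ, Metric.thickening δ (segment ℝ p q), hδ, Metric.isOpen_thickening,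
    (convex_segment p q).thickening δ, hs,
    Metric.ball_subset_thickening (left_mem_segment ℝ p q) δ,
    Metric.ball_subset_thickening (right_mem_segment ℝ p q) δ⟩

theorem odeUp_dist (c : ℝ) (z w : ℂ) :
    dist ((z.re : ℂ) + c * I) ((w.re : ℂ) + c * I) ≤ dist z w := by
  rw [dist_add_right, dist_eq_norm, dist_eq_norm, ← Complex.ofReal_sub, Complex.norm_real,
    ← Complex.sub_re, Real.norm_eq_abs]
  exact Complex.abs_re_le_norm _

theorem odeUp_horiz {a b c x y : ℝ} (hx : x ∈ Ioo a b) (hy : y ∈ Ioo a b) {z : ℂ}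
    (hz : z ∈ segment ℝ ((x : ℂ) + c * I) ((y : ℂ) + c * I)) :
    z.re ∈ Ioo a b ∧ (z.re : ℂ) + c * I = z := by
  obtain ⟨s, t, hs, ht, hst, rfl⟩ := hz
  have h1 : (s • ((x : ℂ) + c * I) + t • ((y : ℂ) + c * I)).re = s * x + t * y := by simp
  refine ⟨?_, ?_⟩
  · rw [h1]
    exact (convex_Ioo a b) hx hy hs ht hst
  · apply Complex.ext
    · simp
    · have : s * c + t * c = c := by rw [← add_mul, hst, one_mul]
      simp [this]

theorem odeUp_vert {c : ℝ} {ζ z : ℂ} (hz : z ∈ segment ℝ ((ζ.re : ℂ) + c * I) ζ) :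
    z.re = ζ.re ∧ z.im ∈ uIcc ζ.im c := by
  obtain ⟨s, t, hs, ht, hst, rfl⟩ := hz
  refine ⟨?_, ?_⟩
  · have : s * ζ.re + t * ζ.re = ζ.re := by rw [← add_mul, hst, one_mul]
    simp [this]
  · have h1 : (s • ((ζ.re : ℂ) + c * I) + t • ζ).im = s * c + t * ζ.im := by simp
    rw [h1]
    exact (convex_uIcc ζ.im c) right_mem_uIcc left_mem_uIcc hs ht hst

/-- solution on a vertically star-shaped neighbourhood -/
theorem exists_frame_vert {O : Set ℂ} (hO : IsOpen O) {ξ : ℂ → A} (hξ : DifferentiableOn ℂ ξ O)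
    {a b c : ℝ} (hab : a < b) (hI : ∀ x ∈ Ioo a b, ((x:ℂ) + c * I) ∈ O) :
    ∃ (Ω : Set ℂ) (Φ : ℂ → A), IsOpen Ω ∧ IsPreconnected Ω ∧ Ω ⊆ O ∧
      (∀ ζ : ℂ, ζ.re ∈ Ioo a b → (∀ y ∈ uIcc ζ.im c, ((ζ.re:ℂ) + y * I) ∈ O) → ζ ∈ Ω) ∧
      Φ (((a + b) / 2 : ℝ) + c * I) = 1 ∧ ∀ z ∈ Ω, HasDerivAt Φ (Φ z * ξ z) z := by
  have hm : (a + b) / 2 ∈ Ioo a b := ⟨by linarith, by linarith⟩
  set m : ℂ := (((a + b) / 2 : ℝ) : ℂ) + c * I with hmdef
  set Ω : Set ℂ := {ζ | ζ.re ∈ Ioo a b ∧ segment ℝ ((ζ.re : ℂ) + c * I) ζ ⊆ O} with hΩ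
  set Φ : ℂ → A := fun ζ => odeUpSeg ξ m ((ζ.re : ℂ) + c * I) *
    odeUpSeg ξ ((ζ.re : ℂ) + c * I) ζ with hΦ
  have hline : ∀ x ∈ Ioo a b, segment ℝ m ((x : ℂ) + c * I) ⊆ Ω := by
    intro x hx z hz
    obtain ⟨h1, h2⟩ := odeUp_horiz hm hx hz
    refine ⟨h1, ?_⟩
    rw [h2, segment_same, singleton_subset_iff, ← h2]
    exact hI _ h1
  have hΩO : Ω ⊆ O := fun ζ hζ => hζ.2 (right_mem_segment ℝ _ _)
  have key : ∀ ζ₀ ∈ Ω, ∃ G : ℂ → A, HasDerivAt G (G ζ₀ * ξ ζ₀) ζ₀ ∧ Φ =ᶠ[𝓝 ζ₀] G ∧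
      (ζ₀ = m → G ζ₀ = 1) := by
    intro ζ₀ hζ₀
    obtain ⟨δ₁, U₁, hδ₁, hU₁, hc₁, hs₁, hb₁, hb₁'⟩ :=
      odeUp_tube hO ((hline _ hζ₀.1).trans hΩO)
    obtain ⟨δ₂, U₂, hδ₂, hU₂, hc₂, hs₂, hb₂, hb₂'⟩ := odeUp_tube hO hζ₀.2
    have hm₁ : m ∈ U₁ := hb₁ (Metric.mem_ball_self hδ₁)
    obtain ⟨G₁, hG₁, hd₁⟩ := exists_frame_convex hU₁ hc₁ (hξ.mono hs₁) hm₁ (1 : A)
    obtain ⟨G₂, hG₂, hd₂⟩ := exists_frame_convex hU₂ hc₂ (hξ.mono hs₂)
      (hb₂ (Metric.mem_ball_self hδ₂)) (G₁ ((ζ₀.re : ℂ) + c * I))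
    have heq : ∀ z ∈ U₁ ∩ U₂, G₁ z = G₂ z :=
      frame_unique (hU₁.inter hU₂) (hξ.continuousOn.mono (inter_subset_left.trans hs₁))
        (fun z hz => hd₁ z hz.1) (fun z hz => hd₂ z hz.2) (hc₁.inter hc₂).isPreconnected
        subset_rfl ⟨hb₁' (Metric.mem_ball_self hδ₁), hb₂ (Metric.mem_ball_self hδ₂)⟩ hG₂.symm
    refine ⟨G₂, hd₂ _ (hb₂' (Metric.mem_ball_self hδ₂)), ?_, ?_⟩
    · filter_upwards [Metric.ball_mem_nhds ζ₀ hδ₁, Metric.ball_mem_nhds ζ₀ hδ₂] with ζ h1 h2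
      have p1 : (ζ.re : ℂ) + c * I ∈ U₁ := hb₁' ((odeUp_dist c ζ ζ₀).trans_lt h1)
      have p2 : (ζ.re : ℂ) + c * I ∈ U₂ := hb₂ ((odeUp_dist c ζ ζ₀).trans_lt h2)
      have e1 := odeUp_seg hc₁ (hξ.continuousOn.mono hs₁) hd₁ hm₁ p1
      have e2 := odeUp_seg hc₂ (hξ.continuousOn.mono hs₂) hd₂ p2 (hb₂' h2)
      rw [hG₁, one_mul] at e1
      rw [e2, ← heq _ ⟨p1, p2⟩, e1]
    · intro h
      rw [← heq _ ⟨h ▸ hm₁, hb₂' (Metric.mem_ball_self hδ₂)⟩, h, hG₁]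
  have hmΩ : m ∈ Ω := hline _ hm (left_mem_segment ℝ _ _)
  refine ⟨Ω, Φ, ?_, ?_, hΩO, ?_, ?_, ?_⟩
  · rw [isOpen_iff_mem_nhds]
    intro ζ₀ hζ₀
    obtain ⟨δ₂, U₂, hδ₂, -, hc₂, hs₂, hb₂, hb₂'⟩ := odeUp_tube hO hζ₀.2
    have h0 : {ζ : ℂ | ζ.re ∈ Ioo a b} ∈ 𝓝 ζ₀ :=
      (isOpen_Ioo.preimage Complex.continuous_re).mem_nhds hζ₀.1
    filter_upwards [h0, Metric.ball_mem_nhds ζ₀ hδ₂] with ζ h1 h2
    exact ⟨h1, (hc₂.segment_subset (hb₂ ((odeUp_dist c ζ ζ₀).trans_lt h2)) (hb₂' h2)).trans hs₂⟩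
  · refine isPreconnected_of_forall m fun y hy => ?_
    refine ⟨segment ℝ m ((y.re : ℂ) + c * I) ∪ segment ℝ ((y.re : ℂ) + c * I) y,
      union_subset (hline _ hy.1) ?_, Or.inl (left_mem_segment ℝ _ _),
      Or.inr (right_mem_segment ℝ _ _), ?_⟩
    · intro z hz
      have h1 := (odeUp_vert hz).1
      refine ⟨h1 ▸ hy.1, ?_⟩
      rw [h1]
      exact ((convex_segment _ _).segment_subset (left_mem_segment ℝ _ _) hz).trans hy.2
    · exact IsPreconnected.union _ (right_mem_segment ℝ _ _) (left_mem_segment ℝ _ _)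
        (convex_segment _ _).isPreconnected (convex_segment _ _).isPreconnected
  · intro ζ h1 h2
    refine ⟨h1, fun z hz => ?_⟩
    obtain ⟨e1, e2⟩ := odeUp_vert hz
    have := h2 _ e2
    rwa [← e1, Complex.re_add_im] at this
  · obtain ⟨G, -, h2, h3⟩ := key m hmΩ
    rw [h2.eq_of_nhds, h3 rfl]
  · intro z hz
    obtain ⟨G, h1, h2, -⟩ := key z hz
    rw [h2.eq_of_nhds]
    exact h1.congr_of_eventuallyEq h2

theorem odeUp_rot (ζ : ℂ) : -I * exp ζ = exp (ζ - (Real.pi / 2 : ℝ) * I) := by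
  have h : ζ - (Real.pi / 2 : ℝ) * I = ζ + -(Real.pi : ℂ) / 2 * I := by push_cast; ring
  rw [h, Complex.exp_add, Complex.exp_neg_pi_div_two_mul_I, mul_comm]

/-- solution on a neighbourhood of a region of the closed upper half plane that retracts to the
imaginary axis along circular arcs -/
theorem exists_frame_upper {O : Set ℂ} (hO : IsOpen O) {ξ : ℂ → A} (hξ : DifferentiableOn ℂ ξ O)
    {a b : ℝ} (ha : 0 < a) (hab : a < b) (hI : ∀ x ∈ Ioo a b, ((x:ℂ) * I) ∈ O) :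
    ∃ (Ω : Set ℂ) (Φ : ℂ → A) (z₁ : ℂ), IsOpen Ω ∧ IsPreconnected Ω ∧ Ω ⊆ O ∧
      (∀ z : ℂ, 0 ≤ z.im → a < ‖z‖ → ‖z‖ < b →
        (∀ θ ∈ uIcc (arg z) (Real.pi / 2), ((‖z‖:ℂ) * exp (θ * I)) ∈ O) → z ∈ Ω) ∧
      z₁ ∈ Ω ∧ Φ z₁ = 1 ∧ ∀ z ∈ Ω, HasDerivAt Φ (Φ z * ξ z) z := by
  have hpi := Real.pi_pos
  set O₁ : Set ℂ := exp ⁻¹' O ∩ {ζ | ζ.im ∈ Ioo (-(Real.pi / 2)) (3 * Real.pi / 2)} with hO₁def
  have hO₁ : IsOpen O₁ :=
    (hO.preimage Complex.continuous_exp).inter (isOpen_Ioo.preimage Complex.continuous_im)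
  have hξ₁ : DifferentiableOn ℂ (fun ζ => exp ζ • ξ (exp ζ)) O₁ :=
    Complex.differentiable_exp.differentiableOn.smul
      (hξ.comp Complex.differentiable_exp.differentiableOn fun _ h => h.1)
  have hlog : Real.log a < Real.log b := Real.log_lt_log ha hab
  have hI₁ : ∀ x ∈ Ioo (Real.log a) (Real.log b), ((x:ℂ) + (Real.pi / 2 : ℝ) * I) ∈ O₁ := by
    intro x hx
    refine ⟨?_, ?_⟩
    · have h1 : exp ((x:ℂ) + (Real.pi / 2 : ℝ) * I) = ((Real.exp x : ℝ) : ℂ) * I := by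
        rw [Complex.exp_add]
        push_cast
        rw [Complex.exp_pi_div_two_mul_I]
      rw [mem_preimage, h1]
      exact hI _ ⟨(Real.log_lt_iff_lt_exp ha).1 hx.1, (Real.lt_log_iff_exp_lt (ha.trans hab)).1 hx.2⟩
    · have h1 : ((x:ℂ) + (Real.pi / 2 : ℝ) * I).im = Real.pi / 2 := by
        simp only [add_im, ofReal_im, mul_im, ofReal_re, I_im, I_re]; ring
      show _ ∈ Ioo _ _
      rw [h1]
      exact ⟨by linarith, by linarith⟩
  obtain ⟨Ω₁, Φ₁, h1, h2, h3, h4, h5, h6⟩ := exists_frame_vert hO₁ hξ₁ hlog hI₁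
  set L : ℂ → ℂ := fun z => log (-I * z) + (Real.pi / 2 : ℝ) * I with hL
  have him : ∀ ζ : ℂ, (ζ - (Real.pi / 2 : ℝ) * I).im = ζ.im - Real.pi / 2 := by
    intro ζ
    simp only [sub_im, mul_im, ofReal_re, ofReal_im, I_im, I_re]; ring
  have hlogexp : ∀ ζ ∈ O₁, log (-I * exp ζ) = ζ - (Real.pi / 2 : ℝ) * I := by
    intro ζ hζ
    have := hζ.2
    rw [odeUp_rot, Complex.log_exp]
    · rw [him]; linarith [this.1]
    · rw [him]; linarith [this.2]
  have hLexp : ∀ ζ ∈ O₁, L (exp ζ) = ζ := by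
    intro ζ hζ
    simp only [hL]
    rw [hlogexp ζ hζ, sub_add_cancel]
  have hm : (Real.log a + Real.log b) / 2 ∈ Ioo (Real.log a) (Real.log b) :=
    ⟨by linarith, by linarith⟩
  have hmΩ : ((((Real.log a + Real.log b) / 2 : ℝ) : ℂ) + (Real.pi / 2 : ℝ) * I) ∈ Ω₁ := by
    have e1 : ((((Real.log a + Real.log b) / 2 : ℝ) : ℂ) + (Real.pi / 2 : ℝ) * I).re =
        (Real.log a + Real.log b) / 2 := by
      simp only [add_re, ofReal_re, mul_re, ofReal_im, I_re, I_im]; ring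
    have e2 : ((((Real.log a + Real.log b) / 2 : ℝ) : ℂ) + (Real.pi / 2 : ℝ) * I).im =
        Real.pi / 2 := by
      simp only [add_im, ofReal_im, mul_im, ofReal_re, I_im, I_re]; ring
    refine h4 _ (by rw [e1]; exact hm) fun y hy => ?_
    rw [e2, uIcc_self, mem_singleton_iff] at hy
    rw [e1, hy]
    exact hI₁ _ hm
  refine ⟨exp '' Ω₁, fun z => Φ₁ (L z), exp _, Complex.isOpenMap_exp _ h1,
    h2.image _ Complex.continuous_exp.continuousOn, ?_, ?_, mem_image_of_mem _ hmΩ, ?_, ?_⟩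
  · rintro _ ⟨ζ, hζ, rfl⟩
    exact (h3 hζ).1
  · intro z hz hza hzb hθ
    have hz0 : z ≠ 0 := norm_pos_iff.1 (ha.trans hza)
    refine ⟨log z, h4 _ ?_ ?_, Complex.exp_log hz0⟩
    · rw [Complex.log_re]
      exact ⟨Real.log_lt_log ha hza, Real.log_lt_log (ha.trans hza) hzb⟩
    · intro y hy
      rw [Complex.log_im] at hy
      rw [Complex.log_re]
      refine ⟨?_, ?_⟩
      · rw [mem_preimage, Complex.exp_add, ← Complex.ofReal_exp, Real.exp_log (ha.trans hza)]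
        exact hθ y hy
      · have e : ((Real.log ‖z‖ : ℂ) + y * I).im = y := by
          simp only [add_im, ofReal_im, mul_im, ofReal_re, I_im, I_re]; ring
        show _ ∈ Ioo _ _
        rw [e]
        have a0 : 0 ≤ arg z := Complex.arg_nonneg_iff.2 hz
        have a1 : arg z ≤ Real.pi := Complex.arg_le_pi z
        rcases mem_uIcc.1 hy with h | h
        · exact ⟨by linarith [h.1], by linarith [h.2]⟩
        · exact ⟨by linarith [h.1], by linarith [h.2]⟩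
  · show Φ₁ (L _) = 1
    rw [hLexp _ (h3 hmΩ), h5]
  · rintro _ ⟨ζ, hζ, rfl⟩
    have hζ₁ := h3 hζ
    have hsl : -I * exp ζ ∈ slitPlane := by
      rw [Complex.mem_slitPlane_iff_arg]
      refine ⟨?_, mul_ne_zero (neg_ne_zero.2 I_ne_zero) (Complex.exp_ne_zero _)⟩
      rw [← Complex.log_im, hlogexp ζ hζ₁, him]
      linarith [hζ₁.2.2]
    have hdL : HasDerivAt L (exp ζ)⁻¹ (exp ζ) := by
      have h := (((hasDerivAt_id (exp ζ)).const_mul (-I)).clog hsl).add_const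
        ((Real.pi / 2 : ℝ) * I)
      have e : -I * 1 / (-I * id (exp ζ)) = (exp ζ)⁻¹ := by
        have := Complex.exp_ne_zero ζ
        simp only [id]
        field_simp
      rw [e] at h
      exact h
    have hd := h6 ζ hζ
    rw [← hLexp ζ hζ₁] at hd
    have h := HasDerivAt.scomp (exp ζ) hd hdL
    rw [hLexp ζ hζ₁, mul_smul_comm, smul_smul, inv_mul_cancel₀ (Complex.exp_ne_zero ζ),
      one_smul] at h
    show HasDerivAt (fun z => Φ₁ (L z)) (Φ₁ (L (exp ζ)) * ξ (exp ζ)) (exp ζ)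
    rw [hLexp ζ hζ₁]
    exact h

end Pool.Agent.MP_efb2da_gt

end
end
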