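import Pool.Agent.MP_efb2da_gt.Defs

section

/-! Conformal parametrisations of mean curvature 2, rigid motions, local charts. -/

open scoped Manifold ContDiff RealInnerProductSpace ComplexConjugate Topology
open Set

noncomputable section

namespace Pool.Agent.MP_efb2da_gt

def cr (a b : E3) : E3 := !₂[a 1 * b 2 - a 2 * b 1, a 2 * b 0 - a 0 * b 2, a 0 * b 1 - a 1 * b 0]

def dx (X : ℂ → E3) (z : ℂ) : E3 := fderiv ℝ X z 1
def dy (X : ℂ → E3) (z : ℂ) : E3 := fderiv ℝ X z Complex.I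

/-- conformal immersion with `ΔX = 4 X_x × X_y` at the point `z` -/
structure CMCAt (X : ℂ → E3) (z : ℂ) : Prop where
  smooth : ContDiffAt ℝ ∞ X z
  orth : ⟪dx X z, dy X z⟫ = 0
  conf : ‖dx X z‖ = ‖dy X z‖
  ne : dx X z ≠ 0
  lap : dx (dx X) z + dy (dy X) z = (4:ℝ) • cr (dx X z) (dy X z)

/-- horizontal part -/
def hz (v : E3) : ℂ := ⟨v 0, v 1⟩
def mk3 (w : ℂ) (h : ℝ) : E3 := !₂[w.re, w.im, h]
/-- rotation about the vertical axis (for `‖o‖ = 1`) -/
def Rot (o : ℂ) (v : E3) : E3 := mk3 (o * hz v) (v 2)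
/-- reflection in the plane `x₁ = 0` -/
def Refl (v : E3) : E3 := mk3 (conj (hz v)) (v 2)
def toE2 (w : ℂ) : E2 := !₂[w.re, w.im]

/-- admissible positions of the three cap punctures -/
def AdmP (p : Fin 3 → ℝ) : Prop :=
  (1/4 ≤ p 0 ∧ p 0 ≤ 2/3) ∧ (-11/10 ≤ p 1 ∧ p 1 ≤ -9/10) ∧ (-2/3 ≤ p 2 ∧ p 2 ≤ -1/4)

/-- a local conformal parametrisation of `(T, f)` around `p`, by an open set of the plane or
(for `p ∈ bd`) of the closed right half plane -/
def LocChart {T : Type} [TopologicalSpace T] (f : T → E3) (bd : Set T) (p : T) : Prop :=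
  ∃ (V : Set ℂ) (w₀ : ℂ) (S : Set ℂ) (ψ : ℂ → T) (X : ℂ → E3), IsOpen V ∧ w₀ ∈ V ∧ ψ w₀ = p ∧
    ((S = univ ∧ p ∉ bd) ∨ (S = {w | 0 ≤ w.re} ∧ w₀.re = 0 ∧ p ∈ bd)) ∧
    ContinuousOn ψ (V ∩ S) ∧ InjOn ψ (V ∩ S) ∧
    (∀ V', IsOpen V' → V' ⊆ V → IsOpen (ψ '' (V' ∩ S))) ∧
    (∀ w ∈ V, CMCAt X w) ∧ ∀ w ∈ V ∩ S, f (ψ w) = X w

@[simp] lemma hz_mk3 (w : ℂ) (h : ℝ) : hz (mk3 w h) = w := by
  apply Complex.ext <;> simp [hz, mk3]
@[simp] lemma mk3_two (w : ℂ) (h : ℝ) : mk3 w h 2 = h := by simp [mk3]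
lemma mk3_hz (v : E3) : mk3 (hz v) (v 2) = v := by
  ext i; fin_cases i <;> simp [hz, mk3]
lemma E3_ext {u v : E3} (h1 : hz u = hz v) (h2 : u 2 = v 2) : u = v := by
  rw [← mk3_hz u, ← mk3_hz v, h1, h2]
@[simp] lemma hz_Rot (o : ℂ) (v : E3) : hz (Rot o v) = o * hz v := by simp [Rot]
@[simp] lemma Rot_two (o : ℂ) (v : E3) : Rot o v 2 = v 2 := by simp [Rot]
@[simp] lemma hz_Refl (v : E3) : hz (Refl v) = conj (hz v) := by simp [Refl]
@[simp] lemma Refl_two (v : E3) : Refl v 2 = v 2 := by simp [Refl]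
@[simp] lemma Rot_one (v : E3) : Rot 1 v = v := E3_ext (by simp) (by simp)
lemma Rot_mul (a b : ℂ) (v : E3) : Rot (a * b) v = Rot a (Rot b v) :=
  E3_ext (by simp [mul_assoc]) (by simp)
@[simp] lemma Refl_Refl (v : E3) : Refl (Refl v) = v := E3_ext (by simp) (by simp)
lemma Refl_Rot (a : ℂ) (v : E3) : Refl (Rot a v) = Rot (conj a) (Refl v) :=
  E3_ext (by simp) (by simp)
lemma incl_toE2 (w : ℂ) : incl (toE2 w) = mk3 w 0 := by
  ext i; fin_cases i <;> simp [incl, toE2, mk3]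

end Pool.Agent.MP_efb2da_gt

end
end

section

/-! The finite dimensional limit problem. Traceless real matrices are triples of coefficients
of `σ₃, σ₁, J`. Parameters `y = (ψ₁, ψ₂, ψ₁', ψ₄, ψₑ, p₂, p₁', p₂')`. -/

open Set Real

noncomputable section

namespace Pool.Agent.MP_efb2da_gt

abbrev Y8 := Fin 8 → ℝ

def nilv (κ ψ : ℝ) : Fin 3 → ℝ := ![κ / 2 * sin ψ, -(κ / 2 * cos ψ), κ / 2]
/-- polarisation of the determinant -/
def bil (u v : Fin 3 → ℝ) : ℝ := 2 * (u 2 * v 2 - u 0 * v 0 - u 1 * v 1)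
def DD (c ψ : ℝ) : ℝ := √(sin ψ ^ 2 - 16 * c)
def rf (c ψ : ℝ) : ℝ := (sin ψ + DD c ψ) / 4
def rho (y : Y8) : ℝ := sin (y 0) / 2
def cc (y : Y8) : ℝ := rho y * sin (y 3) / 2 - rho y ^ 2
def rhoE (y : Y8) : ℝ := rf (cc y) (y 4)
def ell1 (y : Y8) : ℝ := ∫ ψ in y 0..π / 2, 1 / DD 0 ψ
def ell (y : Y8) : ℝ := ∫ ψ in y 4..y 3, 1 / DD (cc y) ψ
def yp (y : Y8) : Fin 3 → ℝ := ![y 5, y 6, y 7]
/-- positions of the finite punctures `3, 1, 2, 1', 2'` -/
def pos (p : Fin 3 → ℝ) : Fin 5 → ℝ := ![0, 1, p 0, p 1, p 2]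
def av (y : Y8) : Fin 5 → Fin 3 → ℝ :=
  ![nilv (-rhoE y) (y 4), nilv (-rho y) (y 0), nilv (rho y) (y 1), nilv (-rho y) (y 2),
    -(nilv (-rhoE y) (y 4) + nilv (-rho y) (y 0) + nilv (rho y) (y 1) + nilv (-rho y) (y 2) +
      nilv (rho y) (y 3))]
def resv (y : Y8) (j : Fin 5) : ℝ :=
  ∑ i ∈ Finset.univ.erase j, bil (av y j) (av y i) / (pos (yp y) j - pos (yp y) i)
/-- the limit equations -/
def E0 (y : Y8) : Fin 8 → ℝ :=
  ![∫ ψ in y 4..y 3, rf (cc y) ψ * sin ψ / DD (cc y) ψ,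
    rho y ^ 2 - rho y * sin (y 1) / 2, rho y ^ 2 - rho y * sin (y 2) / 2, rhoE y - rho y,
    bil (av y 4) (av y 4) / 2, resv y 2, resv y 3, resv y 4]
def pstar (ψ : ℝ) : ℝ :=
  √((1 - 2 * cos ψ ^ 2 - sin ψ * sin (arccos (2 * cos ψ))) /
    (1 + 2 * cos ψ ^ 2 - sin ψ * sin (arccos (2 * cos ψ))))
def ystar (ψ : ℝ) : Y8 :=
  ![ψ, π - ψ, ψ, arccos (2 * cos ψ), -π - arccos (2 * cos ψ), pstar ψ, -1, -pstar ψ]
def Yadm (y : Y8) : Prop := 0 < y 0 ∧ y 0 < π / 2 ∧ cc y < 0 ∧ y 4 < y 3 ∧ AdmP (yp y)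

end Pool.Agent.MP_efb2da_gt

end
end

section

open Set Real
open scoped Topology

noncomputable section

namespace Pool.Agent.MP_efb2da_gt

theorem Lim1_facts {ψ : ℝ} (h1 : π / 3 < ψ) (h2 : ψ < π / 2) :
    0 < cos ψ ∧ cos ψ < 1 / 2 ∧ 0 < sin ψ ∧ cos (arccos (2 * cos ψ)) = 2 * cos ψ ∧
      0 < sin (arccos (2 * cos ψ)) ∧ sin (arccos (2 * cos ψ)) ^ 2 = 1 - 4 * cos ψ ^ 2 ∧
      sin (arccos (2 * cos ψ)) < sin ψ := by
  have hp := pi_pos
  have k1 : 0 < cos ψ := cos_pos_of_mem_Ioo ⟨by linarith, h2⟩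
  have k2 : cos ψ < 1 / 2 := by
    rw [← cos_pi_div_three]
    exact cos_lt_cos_of_nonneg_of_le_pi (by linarith) (by linarith) h1
  have k3 : 0 < sin ψ := sin_pos_of_pos_of_lt_pi (by linarith) (by linarith)
  have k4 : cos (arccos (2 * cos ψ)) = 2 * cos ψ := cos_arccos (by linarith) (by linarith)
  have k5 : 0 < sin (arccos (2 * cos ψ)) := by
    rw [sin_arccos]
    exact sqrt_pos.2 (by nlinarith)
  have k6 : sin (arccos (2 * cos ψ)) ^ 2 = 1 - 4 * cos ψ ^ 2 := by
    rw [sin_sq, k4]; ring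
  have k7 := sin_sq_add_cos_sq ψ
  exact ⟨k1, k2, k3, k4, k5, k6, lt_of_pow_lt_pow_left₀ 2 k3.le (by nlinarith)⟩

theorem Lim1_rs {h r s : ℝ} (h0 : 0 < h) (h1 : h < 1 / 2) (hr : 0 < r) (hs : 0 < s)
    (e1 : r ^ 2 + h ^ 2 = 1) (e2 : s ^ 2 = 1 - 4 * h ^ 2) :
    r * s ≤ 1 - 5 * h ^ 2 / 2 ∧ 1 - 17 * h ^ 2 / 4 ≤ r * s := by
  have u0 : 0 < h ^ 2 := by positivity
  have u1 : h ^ 2 < 1 / 4 := by nlinarith
  have e : (r * s) ^ 2 = (1 - h ^ 2) * (1 - 4 * h ^ 2) := by
    rw [mul_pow, e2]; congr 1; linarith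
  have hrs : 0 < r * s := mul_pos hr hs
  generalize r * s = t at *
  generalize h ^ 2 = u at *
  constructor
  · refine le_of_pow_le_pow_left₀ two_ne_zero (by linarith) ?_
    rw [e]; nlinarith [sq_nonneg u]
  · by_cases c : 1 - 17 * u / 4 ≤ 0
    · linarith
    · refine le_of_pow_le_pow_left₀ two_ne_zero hrs.le ?_
      rw [e]
      have c2 : 0 ≤ 4 - 17 * u := by linarith
      nlinarith [mul_nonneg u0.le c2]

theorem Lim1_den {ψ : ℝ} (h1 : π / 3 < ψ) (h2 : ψ < π / 2) :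
    0 < 1 + 2 * cos ψ ^ 2 - sin ψ * sin (arccos (2 * cos ψ)) ∧
      0 < 1 - 2 * cos ψ ^ 2 - sin ψ * sin (arccos (2 * cos ψ)) := by
  obtain ⟨k1, k2, k3, k4, k5, k6, k7⟩ := Lim1_facts h1 h2
  obtain ⟨b1, b2⟩ := Lim1_rs k1 k2 k3 k5 (sin_sq_add_cos_sq ψ) k6
  have u0 : 0 < cos ψ ^ 2 := by positivity
  constructor <;> linarith

theorem Lim1_pstar_sq {ψ : ℝ} (h1 : π / 3 < ψ) (h2 : ψ < π / 2) :
    pstar ψ ^ 2 * (1 + 2 * cos ψ ^ 2 - sin ψ * sin (arccos (2 * cos ψ))) =
      1 - 2 * cos ψ ^ 2 - sin ψ * sin (arccos (2 * cos ψ)) := by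
  obtain ⟨d1, d2⟩ := Lim1_den h1 h2
  rw [pstar, sq_sqrt (div_pos d2 d1).le, div_mul_cancel₀ _ d1.ne']

theorem pstar_bounds {ψ : ℝ} (h1 : π / 3 < ψ) (h2 : ψ < π / 2) : 1/3 ≤ pstar ψ ∧ pstar ψ ≤ 3/5 := by
  obtain ⟨k1, k2, k3, k4, k5, k6, k7⟩ := Lim1_facts h1 h2
  obtain ⟨b1, b2⟩ := Lim1_rs k1 k2 k3 k5 (sin_sq_add_cos_sq ψ) k6
  obtain ⟨d1, d2⟩ := Lim1_den h1 h2
  unfold pstar
  constructor
  · refine le_sqrt_of_sq_le ?_
    rw [le_div_iff₀ d1]; linarith
  · refine sqrt_le_iff.2 ⟨by norm_num, ?_⟩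
    rw [div_le_iff₀ d1]; linarith

theorem Lim1_cont_rho : Continuous rho := by unfold rho; fun_prop

theorem Lim1_cont_cc : Continuous cc := by unfold cc rho; fun_prop

theorem Lim1_cc {ψ : ℝ} : cc (ystar ψ) =
    sin ψ / 2 * sin (arccos (2 * cos ψ)) / 2 - (sin ψ / 2) ^ 2 := rfl

theorem yadm_near {ψ : ℝ} (h1 : π / 3 < ψ) (h2 : ψ < π / 2) : ∀ᶠ y in 𝓝 (ystar ψ), Yadm y := by
  have hp := pi_pos
  obtain ⟨k1, k2, k3, k4, k5, k6, k7⟩ := Lim1_facts h1 h2
  obtain ⟨p1, p2⟩ := pstar_bounds h1 h2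
  have e : ∀ i : Fin 8, ContinuousAt (fun z : Y8 => z i) (ystar ψ) :=
    fun i => (continuous_apply i).continuousAt
  have lo : ∀ (i : Fin 8) (c : ℝ), c < ystar ψ i → ∀ᶠ y in 𝓝 (ystar ψ), c < y i :=
    fun i c hc => continuousAt_const.eventually_lt (e i) hc
  have hi : ∀ (i : Fin 8) (c : ℝ), ystar ψ i < c → ∀ᶠ y in 𝓝 (ystar ψ), y i < c :=
    fun i c hc => (e i).eventually_lt continuousAt_const hc
  have a0 := lo 0 0 (show 0 < ψ by linarith)
  have a1 := hi 0 (π / 2) h2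
  have a2 : ∀ᶠ y in 𝓝 (ystar ψ), cc y < 0 :=
    Lim1_cont_cc.continuousAt.eventually_lt continuousAt_const (by
      show cc (ystar ψ) < 0
      rw [Lim1_cc]; nlinarith)
  have a3 : ∀ᶠ y in 𝓝 (ystar ψ), y 4 < y 3 := (e 4).eventually_lt (e 3) (by
    show -π - arccos (2 * cos ψ) < arccos (2 * cos ψ)
    have := arccos_nonneg (2 * cos ψ)
    linarith)
  have a4 := lo 5 (1 / 4) (show 1 / 4 < pstar ψ by linarith)
  have a5 := hi 5 (2 / 3) (show pstar ψ < 2 / 3 by linarith)
  have a6 := lo 6 (-11 / 10) (show (-11 / 10 : ℝ) < -1 by norm_num)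
  have a7 := hi 6 (-9 / 10) (show (-1 : ℝ) < -9 / 10 by norm_num)
  have a8 := lo 7 (-2 / 3) (show -2 / 3 < -pstar ψ by linarith)
  have a9 := hi 7 (-1 / 4) (show -pstar ψ < -1 / 4 by linarith)
  filter_upwards [a0, a1, a2, a3, a4, a5, a6, a7, a8, a9] with y b0 b1 b2 b3 b4 b5 b6 b7 b8 b9
  exact ⟨b0, b1, b2, b3, ⟨b4.le, b5.le⟩, ⟨b6.le, b7.le⟩, b8.le, b9.le⟩

theorem Lim1_sin4 (a : ℝ) : sin (-π - a) = sin a := by
  rw [show -π - a = -(a + π) by ring, sin_neg, sin_add_pi, neg_neg]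

theorem Lim1_cos4 (a : ℝ) : cos (-π - a) = -cos a := by
  rw [show -π - a = -(a + π) by ring, cos_neg, cos_add_pi]

theorem rhoE_ystar {ψ : ℝ} (h1 : π / 3 < ψ) (h2 : ψ < π / 2) : rhoE (ystar ψ) = sin ψ / 2 := by
  obtain ⟨k1, k2, k3, k4, k5, k6, k7⟩ := Lim1_facts h1 h2
  have d4 : ystar ψ 4 = -π - arccos (2 * cos ψ) := rfl
  rw [rhoE, rf, DD, d4, Lim1_sin4, Lim1_cc]
  generalize sin (arccos (2 * cos ψ)) = s at *
  rw [show s ^ 2 - 16 * (sin ψ / 2 * s / 2 - (sin ψ / 2) ^ 2) = (2 * sin ψ - s) ^ 2 by ring,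
    sqrt_sq (by linarith)]
  ring

theorem Lim1_av0 {ψ : ℝ} (h1 : π / 3 < ψ) (h2 : ψ < π / 2) :
    av (ystar ψ) 0 = nilv (-(sin ψ / 2)) (-π - arccos (2 * cos ψ)) := by
  rw [← rhoE_ystar h1 h2]; rfl

theorem Lim1_av1 (ψ : ℝ) : av (ystar ψ) 1 = nilv (-(sin ψ / 2)) ψ := rfl
theorem Lim1_av2 (ψ : ℝ) : av (ystar ψ) 2 = nilv (sin ψ / 2) (π - ψ) := rfl
theorem Lim1_av3 (ψ : ℝ) : av (ystar ψ) 3 = nilv (-(sin ψ / 2)) ψ := rfl

theorem av_ystar {ψ : ℝ} (h1 : π / 3 < ψ) (h2 : ψ < π / 2) :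
    av (ystar ψ) 4 = nilv (sin ψ / 2) (π - ψ) := by
  obtain ⟨k1, k2, k3, k4, k5, k6, k7⟩ := Lim1_facts h1 h2
  have e : av (ystar ψ) 4 = -(nilv (-rhoE (ystar ψ)) (-π - arccos (2 * cos ψ)) +
      nilv (-(sin ψ / 2)) ψ + nilv (sin ψ / 2) (π - ψ) + nilv (-(sin ψ / 2)) ψ +
      nilv (sin ψ / 2) (arccos (2 * cos ψ))) := rfl
  rw [e, rhoE_ystar h1 h2]
  generalize arccos (2 * cos ψ) = a at *
  funext i
  fin_cases i
  · show -((-(sin ψ / 2)) / 2 * sin (-π - a) + (-(sin ψ / 2)) / 2 * sin ψ +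
      (sin ψ / 2) / 2 * sin (π - ψ) + (-(sin ψ / 2)) / 2 * sin ψ + (sin ψ / 2) / 2 * sin a) =
      (sin ψ / 2) / 2 * sin (π - ψ)
    rw [Lim1_sin4, sin_pi_sub]; ring
  · show -(-((-(sin ψ / 2)) / 2 * cos (-π - a)) + -((-(sin ψ / 2)) / 2 * cos ψ) +
      -((sin ψ / 2) / 2 * cos (π - ψ)) + -((-(sin ψ / 2)) / 2 * cos ψ) +
      -((sin ψ / 2) / 2 * cos a)) = -((sin ψ / 2) / 2 * cos (π - ψ))
    rw [Lim1_cos4, cos_pi_sub, k4]; ring
  · show -((-(sin ψ / 2)) / 2 + (-(sin ψ / 2)) / 2 + (sin ψ / 2) / 2 + (-(sin ψ / 2)) / 2 +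
      (sin ψ / 2) / 2) = (sin ψ / 2) / 2
    ring

theorem Lim1_bil (κ κ' α β : ℝ) : bil (nilv κ α) (nilv κ' β) =
    κ * κ' / 2 * (1 - sin α * sin β - cos α * cos β) := by
  show 2 * (κ / 2 * (κ' / 2) - κ / 2 * sin α * (κ' / 2 * sin β) -
    -(κ / 2 * cos α) * -(κ' / 2 * cos β)) = _
  ring

theorem Lim1_bil_self (κ α : ℝ) : bil (nilv κ α) (nilv κ α) = 0 := by
  rw [Lim1_bil]
  have := sin_sq_add_cos_sq α
  rw [show 1 - sin α * sin α - cos α * cos α = 0 by linarith, mul_zero]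

theorem Lim1_resv (y : Y8) (j : Fin 5) : resv y j =
    ∑ i, bil (av y j) (av y i) / (pos (yp y) j - pos (yp y) i) := by
  rw [resv, ← Finset.sum_erase_add _ _ (Finset.mem_univ j), sub_self, div_zero, add_zero]

theorem E0_ystar {ψ : ℝ} (h1 : π / 3 < ψ) (h2 : ψ < π / 2) (i : Fin 8) (hi : i ≠ 0) :
    E0 (ystar ψ) i = 0 := by
  obtain ⟨k1, k2, k3, k4, k5, k6, k7⟩ := Lim1_facts h1 h2
  obtain ⟨p1, p2⟩ := pstar_bounds h1 h2
  have hq := Lim1_pstar_sq h1 h2
  have hsc := sin_sq_add_cos_sq ψ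
  have q0 : pos (yp (ystar ψ)) 0 = 0 := rfl
  have q1 : pos (yp (ystar ψ)) 1 = 1 := rfl
  have q2 : pos (yp (ystar ψ)) 2 = pstar ψ := rfl
  have q3 : pos (yp (ystar ψ)) 3 = -1 := rfl
  have q4 : pos (yp (ystar ψ)) 4 = -pstar ψ := rfl
  have n0 : pstar ψ ≠ 0 := by linarith
  have n1 : pstar ψ - 1 ≠ 0 := by linarith
  have n2 : pstar ψ + 1 ≠ 0 := by linarith
  have n3 : -1 - pstar ψ ≠ 0 := by linarith
  have n4 : -1 + pstar ψ ≠ 0 := by linarith
  have n5 : -pstar ψ - 1 ≠ 0 := by linarith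
  have n6 : -pstar ψ + 1 ≠ 0 := by linarith
  have b12 : bil (nilv (-(sin ψ / 2)) ψ) (nilv (sin ψ / 2) (π - ψ)) =
      -((sin ψ / 2) ^ 2 * cos ψ ^ 2) := by
    rw [Lim1_bil, sin_pi_sub, cos_pi_sub]
    linear_combination (sin ψ / 2) ^ 2 / 2 * hsc
  have b21 : bil (nilv (sin ψ / 2) (π - ψ)) (nilv (-(sin ψ / 2)) ψ) =
      -((sin ψ / 2) ^ 2 * cos ψ ^ 2) := by
    rw [Lim1_bil, sin_pi_sub, cos_pi_sub]
    linear_combination (sin ψ / 2) ^ 2 / 2 * hsc
  have b10 : bil (nilv (-(sin ψ / 2)) ψ) (nilv (-(sin ψ / 2)) (-π - arccos (2 * cos ψ))) =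
      (sin ψ / 2) ^ 2 * (1 + 2 * cos ψ ^ 2 - sin ψ * sin (arccos (2 * cos ψ))) / 2 := by
    rw [Lim1_bil, Lim1_sin4, Lim1_cos4, k4]; ring
  have b20 : bil (nilv (sin ψ / 2) (π - ψ)) (nilv (-(sin ψ / 2)) (-π - arccos (2 * cos ψ))) =
      -((sin ψ / 2) ^ 2 * (1 - 2 * cos ψ ^ 2 - sin ψ * sin (arccos (2 * cos ψ))) / 2) := by
    rw [Lim1_bil, Lim1_sin4, Lim1_cos4, k4, sin_pi_sub, cos_pi_sub]; ring
  fin_cases i
  · exact absurd rfl hi
  · show (sin ψ / 2) ^ 2 - sin ψ / 2 * sin (π - ψ) / 2 = 0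
    rw [sin_pi_sub]; ring
  · show (sin ψ / 2) ^ 2 - sin ψ / 2 * sin ψ / 2 = 0
    ring
  · show rhoE (ystar ψ) - sin ψ / 2 = 0
    rw [rhoE_ystar h1 h2, sub_self]
  · show bil (av (ystar ψ) 4) (av (ystar ψ) 4) / 2 = 0
    rw [av_ystar h1 h2, Lim1_bil_self, zero_div]
  · show resv (ystar ψ) 2 = 0
    rw [Lim1_resv, Fin.sum_univ_five, Lim1_av0 h1 h2, Lim1_av1, Lim1_av2, Lim1_av3,
      av_ystar h1 h2, q0, q1, q2, q3, q4, b21, b20, Lim1_bil_self]
    simp only [sub_zero, sub_neg_eq_add, zero_div, add_zero]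
    generalize pstar ψ = p at *
    generalize sin ψ * sin (arccos (2 * cos ψ)) = t at *
    generalize (sin ψ / 2) ^ 2 = w at *
    field_simp
    linear_combination (-w) * hq
  · show resv (ystar ψ) 3 = 0
    rw [Lim1_resv, Fin.sum_univ_five, Lim1_av0 h1 h2, Lim1_av1, Lim1_av2, Lim1_av3,
      av_ystar h1 h2, q0, q1, q2, q3, q4, b12, b10, Lim1_bil_self]
    simp only [sub_zero, sub_neg_eq_add, zero_div, add_zero]
    generalize pstar ψ = p at *
    generalize sin ψ * sin (arccos (2 * cos ψ)) = t at *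
    generalize (sin ψ / 2) ^ 2 = w at *
    field_simp
    linear_combination w * hq
  · show resv (ystar ψ) 4 = 0
    rw [Lim1_resv, Fin.sum_univ_five, Lim1_av0 h1 h2, Lim1_av1, Lim1_av2, Lim1_av3,
      av_ystar h1 h2, q0, q1, q2, q3, q4, b21, b20, Lim1_bil_self]
    simp only [sub_zero, sub_neg_eq_add, zero_div, add_zero]
    generalize pstar ψ = p at *
    generalize sin ψ * sin (arccos (2 * cos ψ)) = t at *
    generalize (sin ψ / 2) ^ 2 = w at *
    field_simp
    linear_combination w * hq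

theorem continuousOn_ystar : ContinuousOn ystar (Ioo (π / 3) (π / 2)) := by
  have ha : Continuous fun ψ : ℝ => arccos (2 * cos ψ) := continuous_arccos.comp (by fun_prop)
  have hs : Continuous fun ψ : ℝ => sin (arccos (2 * cos ψ)) := continuous_sin.comp ha
  have hp : ContinuousOn pstar (Ioo (π / 3) (π / 2)) := by
    refine ContinuousOn.sqrt (ContinuousOn.div ?_ ?_ fun ψ h => (Lim1_den h.1 h.2).1.ne')
    · exact (Continuous.sub (by fun_prop) (continuous_sin.mul hs)).continuousOn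
    · exact (Continuous.sub (by fun_prop) (continuous_sin.mul hs)).continuousOn
  refine continuousOn_pi.2 fun i => ?_
  fin_cases i
  · exact continuousOn_id
  · exact continuousOn_const.sub continuousOn_id
  · exact continuousOn_id
  · exact ha.continuousOn
  · exact continuousOn_const.sub ha.continuousOn
  · exact hp
  · exact continuousOn_const
  · exact hp.neg

theorem Lim1_rf_cont : Continuous fun p : ℝ × ℝ => rf p.1 p.2 := by unfold rf DD; fun_prop

theorem Lim1_DD_pos {c : ℝ} (hc : c < 0) (t : ℝ) : 0 < DD c t :=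
  sqrt_pos.2 (by nlinarith [sq_nonneg (sin t)])

theorem Lim1_DD0_pos {t : ℝ} (h0 : 0 < t) (h1 : t < π) : 0 < DD 0 t := by
  have := sin_pos_of_pos_of_lt_pi h0 h1
  exact sqrt_pos.2 (by nlinarith)

theorem Lim1_f0_cont {t : ℝ} (h0 : 0 < t) (h1 : t < π) :
    ContinuousAt (fun ψ => 1 / DD 0 ψ) t := by
  have h : Continuous fun ψ => DD 0 ψ := by unfold DD; fun_prop
  exact continuousAt_const.div h.continuousAt (Lim1_DD0_pos h0 h1).ne'

theorem Lim1_f0_int {t : ℝ} (h0 : 0 < t) (h1 : t < π / 2) :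
    IntervalIntegrable (fun ψ => 1 / DD 0 ψ) MeasureTheory.volume t (π / 2) := by
  have hp := pi_pos
  refine ContinuousOn.intervalIntegrable fun x hx => ?_
  rw [uIcc_of_le h1.le] at hx
  exact (Lim1_f0_cont (by linarith [hx.1]) (by linarith [hx.2])).continuousWithinAt

theorem continuousOn_ell1 : ContinuousOn ell1 {y | Yadm y} := by
  intro y hy
  have hp := pi_pos
  have h0 : 0 < y 0 := hy.1
  have h1 : y 0 < π / 2 := hy.2.1
  have hm : Measurable fun ψ => 1 / DD 0 ψ := by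
    have h : Continuous fun ψ => DD 0 ψ := by unfold DD; fun_prop
    exact measurable_const.div h.measurable
  have h := (intervalIntegral.integral_hasDerivAt_left (Lim1_f0_int h0 h1)
    hm.stronglyMeasurable.stronglyMeasurableAtFilter
    (Lim1_f0_cont h0 (by linarith))).continuousAt
  have e : ContinuousAt (fun z : Y8 => z 0) y := (continuous_apply 0).continuousAt
  exact (ContinuousAt.comp (f := fun z : Y8 => z 0) h e).continuousWithinAt

theorem Lim1_param0 {X : Type} [TopologicalSpace X] [FirstCountableTopology X]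
    [LocallyCompactSpace X] {G : ℝ × ℝ → ℝ} (hG : Continuous G) {a b c : X → ℝ}
    (ha : Continuous a) (hb : Continuous b) (hc : Continuous c) (h0 : ∀ x, c x < 0) :
    Continuous fun x => ∫ ψ in a x..b x, G (c x, ψ) / DD (c x) ψ := by
  have hq : Continuous fun p : X × ℝ => (c p.1, p.2) := by fun_prop
  have h1 : Continuous fun p : X × ℝ => G (c p.1, p.2) := hG.comp hq
  have h2 : Continuous fun p : X × ℝ => DD (c p.1) p.2 := by unfold DD; fun_prop
  have hf : Continuous (Function.uncurry fun (x : X) (t : ℝ) => G (c x, t) / DD (c x) t) :=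
    Continuous.div h1 h2 fun p => (Lim1_DD_pos (h0 p.1) p.2).ne'
  have g1 := intervalIntegral.continuous_parametric_intervalIntegral_of_continuous
    (μ := MeasureTheory.volume) (a₀ := 0) hf hb
  have g2 := intervalIntegral.continuous_parametric_intervalIntegral_of_continuous
    (μ := MeasureTheory.volume) (a₀ := 0) hf ha
  refine (g1.sub g2).congr fun x => ?_
  have h3 : Continuous fun t : ℝ => G (c x, t) := hG.comp (by fun_prop)
  have h4 : Continuous fun t : ℝ => DD (c x) t := by unfold DD; fun_prop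
  have hx : Continuous fun t : ℝ => G (c x, t) / DD (c x) t :=
    h3.div h4 fun t => (Lim1_DD_pos (h0 x) t).ne'
  exact intervalIntegral.integral_interval_sub_left (hx.intervalIntegrable _ _)
    (hx.intervalIntegrable _ _)

theorem Lim1_param {G : ℝ × ℝ → ℝ} (hG : Continuous G) :
    ContinuousOn (fun y : Y8 => ∫ ψ in y 4..y 3, G (cc y, ψ) / DD (cc y) ψ) {y | Yadm y} := by
  have ho : IsOpen {y : Y8 | cc y < 0} := isOpen_lt Lim1_cont_cc continuous_const
  refine ContinuousOn.mono (s := {y : Y8 | cc y < 0}) ?_ fun y hy => hy.2.2.1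
  have := ho.locallyCompactSpace
  have e : ∀ i : Fin 8, Continuous fun x : {y : Y8 | cc y < 0} => x.1 i :=
    fun i => (continuous_apply i).comp continuous_subtype_val
  have hc : Continuous fun x : {y : Y8 | cc y < 0} => cc x.1 :=
    Lim1_cont_cc.comp continuous_subtype_val
  have h := Lim1_param0 hG (e 4) (e 3) hc fun x => x.2
  exact continuousOn_iff_continuous_domRestrict.2 h

theorem continuousOn_ell : ContinuousOn ell {y | Yadm y} :=
  Lim1_param (G := fun _ => 1) continuous_const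

theorem continuousOn_rhoE : Continuous rhoE := by unfold rhoE rf DD cc rho; fun_prop

theorem Lim1_cont_nilv {κ x : Y8 → ℝ} (hκ : Continuous κ) (hx : Continuous x) :
    Continuous fun z => nilv (κ z) (x z) := by
  refine continuous_pi fun k => ?_
  fin_cases k
  · exact (hκ.div_const 2).mul (continuous_sin.comp hx)
  · exact ((hκ.div_const 2).mul (continuous_cos.comp hx)).neg
  · exact hκ.div_const 2

theorem Lim1_cont_av (j : Fin 5) : Continuous fun z => av z j := by
  have a0 := Lim1_cont_nilv continuousOn_rhoE.neg (continuous_apply 4)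
  have a1 := Lim1_cont_nilv Lim1_cont_rho.neg (continuous_apply 0)
  have a2 := Lim1_cont_nilv Lim1_cont_rho (continuous_apply 1)
  have a3 := Lim1_cont_nilv Lim1_cont_rho.neg (continuous_apply 2)
  have a4 := Lim1_cont_nilv Lim1_cont_rho (continuous_apply 3)
  fin_cases j
  · exact a0
  · exact a1
  · exact a2
  · exact a3
  · exact ((((a0.add a1).add a2).add a3).add a4).neg

theorem Lim1_cont_bil (i j : Fin 5) : Continuous fun z => bil (av z i) (av z j) := by
  have h1 := continuous_pi_iff.1 (Lim1_cont_av i)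
  have h2 := continuous_pi_iff.1 (Lim1_cont_av j)
  exact continuous_const.mul
    ((((h1 2).mul (h2 2)).sub ((h1 0).mul (h2 0))).sub ((h1 1).mul (h2 1)))

theorem Lim1_pos_ne {p : Fin 3 → ℝ} (h : AdmP p) {i j : Fin 5} (hij : i ≠ j) :
    pos p j - pos p i ≠ 0 := by
  obtain ⟨⟨h1, h2⟩, ⟨h3, h4⟩, h5, h6⟩ := h
  intro e
  fin_cases i <;> fin_cases j <;> simp [pos] at hij e <;> linarith

theorem Lim1_cont_pos (j : Fin 5) : Continuous fun z => pos (yp z) j := by
  fin_cases j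
  · exact continuous_const
  · exact continuous_const
  · exact continuous_apply 5
  · exact continuous_apply 6
  · exact continuous_apply 7

theorem Lim1_cont_resv (j : Fin 5) : ContinuousOn (fun z => resv z j) {y | Yadm y} := by
  refine continuousOn_finsetSum _ fun i hi => ?_
  exact (Lim1_cont_bil j i).continuousOn.div
    ((Lim1_cont_pos j).sub (Lim1_cont_pos i)).continuousOn
    fun y h => Lim1_pos_ne h.2.2.2.2 (Finset.ne_of_mem_erase hi)

theorem continuousOn_E0 : ContinuousOn E0 {y | Yadm y} := by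
  have hr := Lim1_cont_rho
  refine continuousOn_pi.2 fun i => ?_
  fin_cases i
  · exact Lim1_param (G := fun p => rf p.1 p.2 * sin p.2)
      (Lim1_rf_cont.mul (continuous_sin.comp continuous_snd))
  · exact ((hr.pow 2).sub ((hr.mul (continuous_sin.comp (continuous_apply 1))).div_const
      2)).continuousOn
  · exact ((hr.pow 2).sub ((hr.mul (continuous_sin.comp (continuous_apply 2))).div_const
      2)).continuousOn
  · exact (continuousOn_rhoE.sub hr).continuousOn
  · exact ((Lim1_cont_bil 4 4).div_const 2).continuousOn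
  · exact Lim1_cont_resv 2
  · exact Lim1_cont_resv 3
  · exact Lim1_cont_resv 4

theorem ell1_pos {y : Y8} (h : Yadm y) : 0 < ell1 y := by
  have hp := pi_pos
  have h0 : 0 < y 0 := h.1
  have h1 : y 0 < π / 2 := h.2.1
  refine intervalIntegral.intervalIntegral_pos_of_pos_on (Lim1_f0_int h0 h1) (fun x hx => ?_) h1
  exact one_div_pos.2 (Lim1_DD0_pos (by linarith [hx.1]) (by linarith [hx.2]))

theorem ell_pos {y : Y8} (h : Yadm y) : 0 < ell y := by
  have hc : cc y < 0 := h.2.2.1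
  have hD : Continuous fun ψ => DD (cc y) ψ := by unfold DD; fun_prop
  have hf : Continuous fun ψ => 1 / DD (cc y) ψ :=
    continuous_const.div hD fun ψ => (Lim1_DD_pos hc ψ).ne'
  exact intervalIntegral.intervalIntegral_pos_of_pos_on (hf.intervalIntegrable _ _)
    (fun x _ => one_div_pos.2 (Lim1_DD_pos hc x)) h.2.2.2.1

end Pool.Agent.MP_efb2da_gt

end
end

section

open scoped ContDiff ComplexConjugate Topology
open Set Complex

noncomputable section

namespace Pool.Agent.MP_efb2da_gt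

theorem polar_norm_exp (s : ℝ) : ‖exp (2 * Real.pi * I * s)‖ = 1 := by
  have : (2 * Real.pi * I * s : ℂ) = ((2 * Real.pi * s : ℝ) : ℂ) * I := by push_cast; ring
  rw [this, norm_exp_ofReal_mul_I]

theorem polar_norm_exp_neg (s : ℝ) : ‖exp (-(2 * Real.pi * I * s))‖ = 1 := by
  rw [exp_neg, norm_inv, polar_norm_exp, inv_one]

theorem polar_im_pos {e a b : ℂ} (he : ‖e‖ = 1) (ha : ‖a‖ ≤ 1/20) (hb : ‖b‖ ≤ 1/5) :
    0 < (conj ((1/2) * e + a) * (Real.pi * I * e + b)).im := by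
  have hce : conj e * e = 1 := by
    rw [mul_comm, mul_conj, normSq_eq_norm_sq, he]; simp
  have hexp : conj ((1/2) * e + a) * (Real.pi * I * e + b) =
      ((Real.pi / 2 : ℝ) : ℂ) * I + ((1/2) * (conj e * b) + Real.pi * (I * (conj a * e)) +
        conj a * b) := by
    have h2 : conj ((1/2 : ℂ)) = 1/2 := by
      rw [map_div₀, map_one, conj_ofNat]
    rw [map_add, map_mul, h2]
    push_cast
    linear_combination (Real.pi * I / 2 : ℂ) * hce
  have hpi := Real.pi_gt_three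
  have hn : ‖(1/2 : ℂ) * (conj e * b) + Real.pi * (I * (conj a * e)) + conj a * b‖ ≤
      1/10 + Real.pi / 20 + 1/100 := by
    have h1 : ‖(1/2 : ℂ) * (conj e * b)‖ ≤ 1/10 := by
      rw [norm_mul, norm_mul, norm_conj, he]
      have : ‖(1/2 : ℂ)‖ = 1/2 := by simp
      rw [this]; linarith
    have h2 : ‖(Real.pi : ℂ) * (I * (conj a * e))‖ ≤ Real.pi / 20 := by
      rw [norm_mul, norm_mul, norm_mul, norm_conj, he, norm_I, norm_real,
        Real.norm_of_nonneg Real.pi_pos.le]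
      nlinarith [Real.pi_pos]
    have h3 : ‖conj a * b‖ ≤ 1/100 := by
      rw [norm_mul, norm_conj]
      nlinarith [norm_nonneg a, norm_nonneg b]
    calc _ ≤ ‖(1/2 : ℂ) * (conj e * b) + Real.pi * (I * (conj a * e))‖ + ‖conj a * b‖ :=
          norm_add_le _ _
      _ ≤ ‖(1/2 : ℂ) * (conj e * b)‖ + ‖(Real.pi : ℂ) * (I * (conj a * e))‖ + ‖conj a * b‖ := by
          gcongr; exact norm_add_le _ _
      _ ≤ _ := by linarith
  rw [hexp, add_im]
  have h4 := (abs_le.mp ((abs_im_le_norm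
    ((1/2 : ℂ) * (conj e * b) + Real.pi * (I * (conj a * e)) + conj a * b)).trans hn)).1
  have h5 : (((Real.pi / 2 : ℝ) : ℂ) * I).im = Real.pi / 2 := by simp
  rw [h5]
  linarith

/-- polar form of a curve that is `C¹` close to the circle of radius `1/2` -/
theorem exists_polar {Γ : ℝ → ℂ} (hΓ : ContDiff ℝ ∞ Γ) (hp : Function.Periodic Γ 1)
    (h0 : ∀ s : ℝ, ‖Γ s - (1/2) * exp (2 * Real.pi * I * s)‖ ≤ 1/20)
    (h1 : ∀ s : ℝ, ‖deriv Γ s - Real.pi * I * exp (2 * Real.pi * I * s)‖ ≤ 1/5) :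
    ∃ θ : ℝ → ℝ, (∀ s, Γ s = ‖Γ s‖ * exp (I * θ s)) ∧ (∀ s, θ (s + 1) = θ s + 2 * Real.pi) ∧
      (∀ s, Γ s ≠ 0) ∧ (∀ s, 0 < (conj (Γ s) * deriv Γ s).im) ∧
      ∀ s, HasDerivAt θ ((conj (Γ s) * deriv Γ s).im / ‖Γ s‖ ^ 2) s := by
  set w : ℝ → ℂ := fun s => Γ s * exp (-(2 * Real.pi * I * s)) with hw
  have hee : ∀ s : ℝ, exp (2 * Real.pi * I * s) * exp (-(2 * Real.pi * I * s)) = 1 := by
    intro s; rw [← exp_add]; simp
  have hwre : ∀ s, 0 < (w s).re := by
    intro s
    have h2 : w s = ((1/2 : ℝ) : ℂ) +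
        (Γ s - (1/2) * exp (2 * Real.pi * I * s)) * exp (-(2 * Real.pi * I * s)) := by
      simp only [hw]
      push_cast
      linear_combination (1/2 : ℂ) * hee s
    have h3 : ‖(Γ s - (1/2) * exp (2 * Real.pi * I * s)) * exp (-(2 * Real.pi * I * s))‖ ≤
        1/20 := by
      rw [norm_mul, polar_norm_exp_neg, mul_one]; exact h0 s
    have h4 := (abs_le.mp ((abs_re_le_norm _).trans h3)).1
    rw [h2, add_re, ofReal_re]
    linarith
  have hwslit : ∀ s, w s ∈ slitPlane := fun s => Or.inl (hwre s)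
  have hwne : ∀ s, w s ≠ 0 := fun s => slitPlane_ne_zero (hwslit s)
  have hne : ∀ s, Γ s ≠ 0 := by
    intro s h
    apply hwne s
    simp only [hw, h, zero_mul]
  have hnorm : ∀ s, ‖w s‖ = ‖Γ s‖ := by
    intro s
    simp only [hw]
    rw [norm_mul, polar_norm_exp_neg, mul_one]
  refine ⟨fun s => 2 * Real.pi * s + (log (w s)).im, ?_, ?_, hne, ?_, ?_⟩
  · intro s
    have h2 : (‖w s‖ : ℂ) * exp (arg (w s) * I) = w s := norm_mul_exp_arg_mul_I (w s)
    have h3 : Γ s = w s * exp (2 * Real.pi * I * s) := by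
      simp only [hw]
      linear_combination (-Γ s) * hee s
    have h4 : exp (I * ((2 * Real.pi * s + (log (w s)).im : ℝ) : ℂ)) =
        exp (arg (w s) * I) * exp (2 * Real.pi * I * s) := by
      rw [← exp_add, log_im]
      congr 1
      push_cast
      ring
    show Γ s = ‖Γ s‖ * exp (I * ((2 * Real.pi * s + (log (w s)).im : ℝ) : ℂ))
    rw [h4, ← hnorm s, ← mul_assoc, h2]
    exact h3
  · intro s
    have h2 : w (s + 1) = w s := by
      simp only [hw]
      rw [hp s]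
      congr 1
      have : (-(2 * Real.pi * I * ((s + 1 : ℝ) : ℂ))) =
          -(2 * Real.pi * I * s) - 2 * Real.pi * I := by
        push_cast; ring
      rw [this, exp_sub, exp_two_pi_mul_I, div_one]
    show 2 * Real.pi * (s + 1) + (log (w (s + 1))).im =
      2 * Real.pi * s + (log (w s)).im + 2 * Real.pi
    rw [h2]; ring
  · intro s
    have := polar_im_pos (polar_norm_exp s) (h0 s) (h1 s)
    simpa only [add_sub_cancel] using this
  · intro s
    have hd : HasDerivAt Γ (deriv Γ s) s :=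
      ((hΓ.differentiable (by simp)) s).hasDerivAt
    have hlin : HasDerivAt (fun t : ℝ => -(2 * Real.pi * I * (t : ℂ)))
        (-(2 * Real.pi * I * 1)) s :=
      ((ofRealCLM.hasDerivAt (x := s)).const_mul (2 * Real.pi * I : ℂ)).neg
    have hexp := hlin.cexp
    have hdw : HasDerivAt w (deriv Γ s * exp (-(2 * Real.pi * I * s)) +
        Γ s * (exp (-(2 * Real.pi * I * s)) * (-(2 * Real.pi * I * 1)))) s := hd.mul hexp
    have hlog := hdw.clog_real (hwslit s)
    have him : HasDerivAt (fun t => (log (w t)).im)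
        ((deriv Γ s * exp (-(2 * Real.pi * I * s)) +
          Γ s * (exp (-(2 * Real.pi * I * s)) * (-(2 * Real.pi * I * 1)))) / w s).im s :=
      imCLM.hasFDerivAt.comp_hasDerivAt s hlog
    have hl : HasDerivAt (fun t : ℝ => 2 * Real.pi * t) (2 * Real.pi * 1) s :=
      (hasDerivAt_id s).const_mul _
    have hsum := hl.add him
    have hval : (deriv Γ s * exp (-(2 * Real.pi * I * s)) +
          Γ s * (exp (-(2 * Real.pi * I * s)) * (-(2 * Real.pi * I * 1)))) / w s =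
        conj (Γ s) * deriv Γ s / ((‖Γ s‖ ^ 2 : ℝ) : ℂ) - ((2 * Real.pi : ℝ) : ℂ) * I := by
      have hG := hne s
      have hcG : conj (Γ s) ≠ 0 := by simpa using hG
      have hE : exp (-(2 * Real.pi * I * (s : ℂ))) ≠ 0 := exp_ne_zero _
      have hsq : ((‖Γ s‖ ^ 2 : ℝ) : ℂ) = Γ s * conj (Γ s) := by
        rw [mul_conj, normSq_eq_norm_sq]
      rw [hsq]
      simp only [hw]
      push_cast
      field_simp
      ring
    rw [hval] at hsum
    have hfin : 2 * Real.pi * 1 + (conj (Γ s) * deriv Γ s / ((‖Γ s‖ ^ 2 : ℝ) : ℂ) -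
        ((2 * Real.pi : ℝ) : ℂ) * I).im = (conj (Γ s) * deriv Γ s).im / ‖Γ s‖ ^ 2 := by
      rw [sub_im, div_ofReal_im, mul_I_im, ofReal_re]
      ring
    rw [hfin] at hsum
    exact hsum

end Pool.Agent.MP_efb2da_gt

end
end

section

open scoped ContDiff ComplexConjugate Topology
open Set Complex

noncomputable section

namespace Pool.Agent.MP_efb2da_gt

open MeasureTheory in
/-- area below a radial graph, in polar coordinates -/
lemma Area_vol {r : ℝ → ℝ} (hr : Continuous r) (hpos : ∀ t, 0 < r t)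
    (hm : MeasurableSet {z : ℂ | ‖z‖ < r (arg z)}) :
    (volume {z : ℂ | ‖z‖ < r (arg z)}).toReal =
      ∫ t in (-Real.pi)..Real.pi, r t ^ 2 / 2 := by
  have hpi := Real.pi_pos
  have e1 : volume {z : ℂ | ‖z‖ < r (arg z)} =
      ∫⁻ z, ({z : ℂ | ‖z‖ < r (arg z)}).indicator (fun _ => (1 : ENNReal)) z := by
    rw [lintegral_indicator_const hm, one_mul]
  have hmeas : MeasurableSet {p : ℝ × ℝ | p.1 < r p.2} :=
    (isOpen_lt continuous_fst (hr.comp continuous_snd)).measurableSet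
  have e2 : (∫⁻ p in polarCoord.target, ENNReal.ofReal p.1 •
      ({z : ℂ | ‖z‖ < r (arg z)}).indicator (fun _ => (1 : ENNReal)) (Complex.polarCoord.symm p)) =
      ∫⁻ p in Ioi (0:ℝ) ×ˢ Ioo (-Real.pi) Real.pi,
        ({p : ℝ × ℝ | p.1 < r p.2}).indicator (fun p => ENNReal.ofReal p.1) p := by
    change (∫⁻ p in Ioi (0:ℝ) ×ˢ Ioo (-Real.pi) Real.pi, _) = _
    refine setLIntegral_congr_fun (measurableSet_Ioi.prod measurableSet_Ioo) fun p hp => ?_
    obtain ⟨hp1, hp2⟩ := hp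
    have hp1' : 0 < p.1 := hp1
    have ha : arg (Complex.polarCoord.symm p) = p.2 := by
      rw [Complex.polarCoord_symm_apply, Complex.ofReal_cos, Complex.ofReal_sin]
      exact arg_mul_cos_add_sin_mul_I hp1' ⟨hp2.1, hp2.2.le⟩
    have hn : ‖Complex.polarCoord.symm p‖ = p.1 := by
      rw [norm_polarCoord_symm, abs_of_pos hp1']
    by_cases h : p.1 < r p.2
    · have h' : Complex.polarCoord.symm p ∈ {z : ℂ | ‖z‖ < r (arg z)} := by
        simpa only [mem_ofPred_eq, ha, hn] using h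
      have h'' : p ∈ {p : ℝ × ℝ | p.1 < r p.2} := h
      simp only [indicator_of_mem h', indicator_of_mem h'', smul_eq_mul, mul_one]
    · have h' : Complex.polarCoord.symm p ∉ {z : ℂ | ‖z‖ < r (arg z)} := by
        simpa only [mem_ofPred_eq, ha, hn] using h
      have h'' : p ∉ {p : ℝ × ℝ | p.1 < r p.2} := h
      simp only [indicator_of_notMem h', indicator_of_notMem h'', smul_zero]
  have hf : Measurable (({p : ℝ × ℝ | p.1 < r p.2}).indicator (fun p => ENNReal.ofReal p.1)) :=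
    (ENNReal.measurable_ofReal.comp measurable_fst).indicator hmeas
  have e3 : ∀ t, (∫⁻ x in Ioi (0:ℝ),
      ({p : ℝ × ℝ | p.1 < r p.2}).indicator (fun p => ENNReal.ofReal p.1) (x, t)) =
      ENNReal.ofReal (r t ^ 2 / 2) := by
    intro t
    have : (fun x : ℝ => ({p : ℝ × ℝ | p.1 < r p.2}).indicator (fun p => ENNReal.ofReal p.1) (x, t))
        = (Iio (r t)).indicator (fun x => ENNReal.ofReal x) := by
      funext x
      by_cases h : x < r t
      · have h1 : (x, t) ∈ {p : ℝ × ℝ | p.1 < r p.2} := h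
        have h2 : x ∈ Iio (r t) := h
        simp only [indicator_of_mem h1, indicator_of_mem h2]
      · have h1 : (x, t) ∉ {p : ℝ × ℝ | p.1 < r p.2} := h
        have h2 : x ∉ Iio (r t) := h
        simp only [indicator_of_notMem h1, indicator_of_notMem h2]
    rw [this, lintegral_indicator measurableSet_Iio, Measure.restrict_restrict measurableSet_Iio,
      inter_comm, Ioi_inter_Iio, ← ofReal_integral_eq_lintegral_ofReal]
    · congr 1
      rw [← integral_Ioc_eq_integral_Ioo, ← intervalIntegral.integral_of_le (hpos t).le,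
        integral_id]
      ring
    · exact (continuous_id.continuousOn.integrableOn_Icc).mono_set Ioo_subset_Icc_self
    · filter_upwards [ae_restrict_mem measurableSet_Ioo] with x hx using hx.1.le
  have hc : Continuous fun t => r t ^ 2 / 2 := by fun_prop
  rw [e1, ← Complex.lintegral_comp_polarCoord_symm, e2, Measure.volume_eq_prod,
    ← Measure.prod_restrict, lintegral_prod_symm' _ hf]
  simp only [e3]
  rw [← ofReal_integral_eq_lintegral_ofReal, ENNReal.toReal_ofReal,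
    intervalIntegral.integral_of_le (by linarith), integral_Ioc_eq_integral_Ioo]
  · exact integral_nonneg fun t => by positivity
  · exact (hc.continuousOn.integrableOn_Icc).mono_set Ioo_subset_Icc_self
  · exact Filter.Eventually.of_forall fun t => by positivity

/-- a continuous periodic function of the argument is continuous off the origin -/
lemma Area_contAt {r : ℝ → ℝ} (hr : Continuous r) (hp : Function.Periodic r (2 * Real.pi))
    {z : ℂ} (hz : z ≠ 0) : ContinuousAt (fun z : ℂ => r (arg z)) z := by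
  have hR : Continuous (hp.lift : Real.Angle → ℝ) := by
    have hq : Topology.IsQuotientMap ((↑) : ℝ → Real.Angle) :=
      QuotientAddGroup.isQuotientMap_mk _
    exact hq.continuous_iff.2 hr
  exact hR.continuousAt.comp (continuousAt_arg_coe_angle hz)

lemma Area_bounds {r : ℝ → ℝ} (hr : Continuous r) (hpos : ∀ t, 0 < r t) :
    ∃ m M : ℝ, 0 < m ∧ ∀ z : ℂ, m ≤ r (arg z) ∧ r (arg z) ≤ M := by
  have hne : (Icc (-Real.pi) Real.pi).Nonempty := nonempty_Icc.2 (by linarith [Real.pi_pos])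
  obtain ⟨a, -, ha⟩ := isCompact_Icc.exists_isMinOn hne hr.continuousOn
  obtain ⟨b, -, hb⟩ := isCompact_Icc.exists_isMaxOn hne hr.continuousOn
  refine ⟨r a, r b, hpos a, fun z => ?_⟩
  have hz : arg z ∈ Icc (-Real.pi) Real.pi := ⟨(neg_pi_lt_arg z).le, arg_le_pi z⟩
  exact ⟨ha hz, hb hz⟩

lemma Area_open_in {r : ℝ → ℝ} (hr : Continuous r) (hp : Function.Periodic r (2 * Real.pi))
    (hpos : ∀ t, 0 < r t) : IsOpen {z : ℂ | ‖z‖ < r (arg z)} := by
  obtain ⟨m, M, hm, hb⟩ := Area_bounds hr hpos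
  refine isOpen_iff_mem_nhds.2 fun z hz => ?_
  by_cases h0 : z = 0
  · subst h0
    filter_upwards [Metric.ball_mem_nhds (0:ℂ) hm] with w hw
    rw [mem_ball_zero_iff] at hw
    exact hw.trans_le (hb w).1
  · exact continuous_norm.continuousAt.eventually_lt (Area_contAt hr hp h0) hz

lemma Area_open_out {r : ℝ → ℝ} (hr : Continuous r) (hp : Function.Periodic r (2 * Real.pi))
    (hpos : ∀ t, 0 < r t) : IsOpen {z : ℂ | r (arg z) < ‖z‖} := by
  refine isOpen_iff_mem_nhds.2 fun z hz => ?_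
  have h0 : z ≠ 0 := by
    rintro rfl
    have := hpos (arg 0)
    simp only [mem_ofPred_eq, norm_zero] at hz
    linarith
  exact (Area_contAt hr hp h0).eventually_lt continuous_norm.continuousAt hz

/-- the bounded components of the complement of a radial graph -/
lemma Area_inside {r : ℝ → ℝ} (hr : Continuous r) (hp : Function.Periodic r (2 * Real.pi))
    (hpos : ∀ t, 0 < r t) (S : E2 ≃ₗᵢ[ℝ] ℂ) :
    inside (S ⁻¹' {z : ℂ | ‖z‖ = r (arg z)}) = S ⁻¹' {z : ℂ | ‖z‖ < r (arg z)} := by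
  obtain ⟨m, M, hm, hb⟩ := Area_bounds hr hpos
  have hin := (Area_open_in hr hp hpos).preimage S.continuous
  have hout := (Area_open_out hr hp hpos).preimage S.continuous
  ext x
  simp only [inside, mem_ofPred_eq, mem_preimage]
  constructor
  · rintro ⟨hx, hbd⟩
    rcases lt_or_gt_of_ne hx with h | h
    · exact h
    · exfalso
      have hx0 : 0 < ‖S x‖ := (hpos _).trans h
      have hray : (fun t : ℝ => t • x) '' Ici 1 ⊆
          connectedComponentIn (S ⁻¹' {z : ℂ | ‖z‖ = r (arg z)})ᶜ x := by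
        refine (isPreconnected_Ici.image _ (by fun_prop)).subset_connectedComponentIn
          ⟨1, mem_Ici.2 le_rfl, one_smul _ _⟩ ?_
        rintro _ ⟨t, ht, rfl⟩
        have ht1 : (1:ℝ) ≤ t := ht
        have ht0 : (0:ℝ) < t := by linarith
        simp only [mem_compl_iff, mem_preimage, mem_ofPred_eq, map_smul]
        rw [norm_smul, Complex.real_smul, arg_real_mul _ ht0, Real.norm_eq_abs, abs_of_pos ht0]
        nlinarith
      obtain ⟨R, hR⟩ := (hbd.subset hray).exists_norm_le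
      have hx1 : ‖S x‖ = ‖x‖ := S.norm_map x
      have hxp : 0 < ‖x‖ := hx1 ▸ hx0
      have hR0 : 0 ≤ R := (norm_nonneg _).trans (hR _ ⟨1, mem_Ici.2 le_rfl, rfl⟩)
      have ht : (1:ℝ) ≤ R / ‖x‖ + 1 := by have := div_nonneg hR0 hxp.le; linarith
      have := hR _ ⟨R / ‖x‖ + 1, mem_Ici.2 ht, rfl⟩
      simp only [norm_smul, Real.norm_eq_abs, abs_of_pos (show (0:ℝ) < R / ‖x‖ + 1 by linarith)]
        at this
      rw [add_mul, div_mul_cancel₀ _ hxp.ne'] at this
      linarith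
  · intro h
    refine ⟨h.ne, ?_⟩
    have hsub : connectedComponentIn (S ⁻¹' {z : ℂ | ‖z‖ = r (arg z)})ᶜ x ⊆
        S ⁻¹' {z : ℂ | ‖z‖ < r (arg z)} := by
      refine isPreconnected_connectedComponentIn.subset_left_of_subset_union hin hout ?_ ?_ ?_
      · refine Set.disjoint_left.2 fun y h1 h2 => ?_
        simp only [mem_preimage, mem_ofPred_eq] at h1 h2
        linarith
      · intro y hy
        have := connectedComponentIn_subset _ _ hy
        simp only [mem_compl_iff, mem_preimage, mem_ofPred_eq] at this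
        rcases lt_or_gt_of_ne this with h1 | h1
        · exact Or.inl h1
        · exact Or.inr h1
      · exact ⟨x, mem_connectedComponentIn (by simpa using h.ne), h⟩
    refine (Metric.isBounded_ball (x := (0:E2)) (r := M)).subset fun y hy => ?_
    have := hsub hy
    simp only [mem_preimage, mem_ofPred_eq, S.norm_map] at this
    rw [mem_ball_zero_iff]
    exact this.trans_le (hb _).2

theorem polar_area {Γ : ℝ → ℂ} (hΓ : ContDiff ℝ ∞ Γ) (hp : Function.Periodic Γ 1) {θ : ℝ → ℝ}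
    (h1 : ∀ s, Γ s = ‖Γ s‖ * exp (I * θ s)) (h2 : ∀ s, θ (s + 1) = θ s + 2 * Real.pi)
    (h3 : ∀ s, Γ s ≠ 0) (h4 : ∀ s, 0 < (conj (Γ s) * deriv Γ s).im)
    (h5 : ∀ s, HasDerivAt θ ((conj (Γ s) * deriv Γ s).im / ‖Γ s‖ ^ 2) s) :
    InjOn Γ (Ico 0 1) ∧
      area (inside (range fun s => toE2 (Γ s))) =
        (1/2) * ∫ s in (0:ℝ)..1, (conj (Γ s) * deriv Γ s).im := by
  have hpi := Real.pi_pos
  have hn : ∀ s, 0 < ‖Γ s‖ := fun s => norm_pos_iff.2 (h3 s)
  have hmono : StrictMono θ :=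
    strictMono_of_hasDerivAt_pos h5 fun s => div_pos (h4 s) (pow_pos (hn s) 2)
  have hθc : Continuous θ := continuous_iff_continuousAt.2 fun s => (h5 s).continuousAt
  have hper : Function.Periodic (fun s => θ s - 2 * Real.pi * s) 1 := by
    intro s; simp only [h2]; ring
  have hint : ∀ (s : ℝ) (n : ℤ), θ (s + n) = θ s + n * (2 * Real.pi) := by
    intro s n
    have := hper.int_mul n s
    simp only [mul_one] at this
    linarith
  have hsurj : Function.Surjective θ := by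
    intro y
    obtain ⟨n, hn1⟩ := exists_int_gt ((y - θ 0) / (2 * Real.pi))
    obtain ⟨k, hk1⟩ := exists_int_lt ((y - θ 0) / (2 * Real.pi))
    rw [div_lt_iff₀ (by positivity)] at hn1
    rw [lt_div_iff₀ (by positivity)] at hk1
    refine mem_range_of_exists_le_of_exists_ge hθc ⟨0 + k, ?_⟩ ⟨0 + n, ?_⟩
    · rw [hint]; linarith
    · rw [hint]; linarith
  let e : ℝ ≃o ℝ := hmono.orderIsoOfSurjective θ hsurj
  have he1 : ∀ s, e.symm (θ s) = s := fun s => e.symm_apply_apply s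
  have he2 : ∀ t, θ (e.symm t) = t := fun t => e.apply_symm_apply t
  have hec : Continuous e.symm := e.symm.continuous
  let r : ℝ → ℝ := fun t => ‖Γ (e.symm t)‖
  have hrc : Continuous r := (hΓ.continuous.comp hec).norm
  have hrpos : ∀ t, 0 < r t := fun t => hn _
  have hrθ : ∀ s, r (θ s) = ‖Γ s‖ := fun s => by simp only [r, he1]
  have hrp : Function.Periodic r (2 * Real.pi) := by
    intro t
    have : t + 2 * Real.pi = θ (e.symm t + 1) := by rw [h2, he2]
    rw [this, hrθ, hp]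
  refine ⟨?_, ?_⟩
  · intro s hs t ht hst
    have h := h1 s
    rw [hst] at h
    have h' : (‖Γ t‖ : ℂ) * exp (I * θ s) = ‖Γ t‖ * exp (I * θ t) := h.symm.trans (h1 t)
    have h'' := mul_left_cancel₀ (by exact_mod_cast (hn t).ne') h'
    obtain ⟨n, hn'⟩ := exp_eq_exp_iff_exists_int.1 h''
    have him := congrArg Complex.im hn'
    simp at him
    have hs' : s = t + n := hmono.injective (by rw [hint]; linarith)
    have hn1 : (n:ℝ) < 1 := by linarith [hs.2, ht.1]
    have hn2 : (-1:ℝ) < n := by linarith [hs.1, ht.2]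
    have hn3 : n < 1 := by exact_mod_cast hn1
    have hn4 : -1 < n := by exact_mod_cast hn2
    have hn0 : n = 0 := by omega
    simpa [hn0] using hs'
  · let S : E2 ≃ₗᵢ[ℝ] ℂ := Complex.orthonormalBasisOneI.repr.symm
    have hS : ∀ w : ℂ, S (toE2 w) = w := by
      intro w
      simp only [S, Complex.orthonormalBasisOneI_repr_symm_apply, toE2]
      apply Complex.ext <;> simp
    have hrange : (range fun s => toE2 (Γ s)) = S ⁻¹' {z : ℂ | ‖z‖ = r (arg z)} := by
      ext x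
      simp only [mem_range, mem_preimage, mem_ofPred_eq]
      constructor
      · rintro ⟨s, rfl⟩
        rw [hS]
        have ha : arg (Γ s) = toIocMod Real.two_pi_pos (-Real.pi) (θ s) := by
          conv_lhs => rw [h1 s]
          rw [arg_real_mul _ (hn s), mul_comm I, arg_exp_mul_I]
        rw [ha, toIocMod, hrp.sub_zsmul_eq, hrθ]
      · intro hx
        refine ⟨e.symm (arg (S x)), S.injective ?_⟩
        rw [hS, h1, he2]
        change (r (arg (S x)) : ℂ) * _ = _
        rw [← hx, mul_comm I, norm_mul_exp_arg_mul_I]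
    have hopen := Area_open_in hrc hrp hrpos
    rw [hrange, Area_inside hrc hrp hrpos S, area,
      Complex.orthonormalBasisOneI.measurePreserving_repr_symm.measure_preimage
        hopen.measurableSet.nullMeasurableSet,
      Area_vol hrc hrpos hopen.measurableSet]
    have hp2 : Function.Periodic (fun t => r t ^ 2 / 2) (2 * Real.pi) := by
      intro t; simp only [hrp t]
    have hc : Continuous fun t => r t ^ 2 / 2 := by fun_prop
    have hd : Continuous (deriv Γ) := hΓ.continuous_deriv (by simp)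
    have hΓc := hΓ.continuous
    have hc' : Continuous fun s => (conj (Γ s) * deriv Γ s).im / ‖Γ s‖ ^ 2 := by
      refine Continuous.div ?_ (by fun_prop) fun s => (pow_pos (hn s) 2).ne'
      fun_prop
    have e1 := hp2.intervalIntegral_add_eq (-Real.pi) (θ 0)
    have e2 := intervalIntegral.integral_comp_mul_deriv (a := 0) (b := 1) (fun s _ => h5 s)
      hc'.continuousOn hc
    have e3 : θ 1 = θ 0 + 2 * Real.pi := by simpa using h2 0
    rw [show -Real.pi + 2 * Real.pi = Real.pi by ring] at e1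
    rw [e1, ← e3, ← e2, ← intervalIntegral.integral_const_mul]
    refine intervalIntegral.integral_congr fun s _ => ?_
    simp only [Function.comp, hrθ]
    have := (hn s).ne'
    field_simp

end Pool.Agent.MP_efb2da_gt

end
end

section

open scoped ContDiff ComplexConjugate Topology
open Set Complex

noncomputable section

namespace Pool.Agent.MP_efb2da_gt

lemma circ_sign {f : ℝ → ℝ} (hf : Continuous f) (h0 : ∀ s, f s ≠ 0) :
    (∀ s, 0 < f s) ∨ (∀ s, f s < 0) := by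
  by_contra h
  push Not at h
  obtain ⟨⟨a, ha⟩, ⟨b, hb⟩⟩ := h
  obtain ⟨x, hx⟩ := intermediate_value_univ a b hf (show (0:ℝ) ∈ Icc (f a) (f b) from ⟨ha, hb⟩)
  exact h0 x hx

lemma circ_conj_deriv {Γ : ℝ → ℂ} {d : ℂ} {s : ℝ} (h : HasDerivAt Γ d s) :
    HasDerivAt (fun t => conj (Γ t)) (conj d) s := by
  have := (Complex.conjCLE : ℂ →L[ℝ] ℂ).hasFDerivAt.comp_hasDerivAt s h
  simpa [Function.comp_def] using this

lemma circ_int_pos {ν : ℝ → ℝ} (hν : Continuous ν) (hpos : ∀ s, 0 < ν s) :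
    0 < ∫ s in (0:ℝ)..1, ν s :=
  intervalIntegral.intervalIntegral_pos_of_pos_on (hν.intervalIntegrable _ _)
    (fun x _ => hpos x) zero_lt_one

/-- if the curve is a circle, the flux identity forces radius `1/2` and this differential equation -/
theorem circle_ode {Γ : ℝ → ℂ} {ν : ℝ → ℝ} (hΓ : ContDiff ℝ ∞ Γ) (hp : Function.Periodic Γ 1)
    (hν : Differentiable ℝ ν) (hpos : ∀ s, 0 < ν s) (hn : ∀ s, ‖deriv Γ s‖ = ν s)
    (hflux : ∫ s in (0:ℝ)..1, ν s = 2 * ∫ s in (0:ℝ)..1, (conj (Γ s) * deriv Γ s).im)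
    {c : ℂ} {R : ℝ} (hc : ∀ s, ‖Γ s - c‖ = R) (s : ℝ) :
    deriv (deriv Γ) s = ((deriv ν s / ν s : ℝ) + 2 * I * ν s) * deriv Γ s := by
  have hdiff : Differentiable ℝ Γ := hΓ.differentiable (by simp)
  have hd : ∀ t, HasDerivAt Γ (deriv Γ t) t := fun t => (hdiff t).hasDerivAt
  have hc1 : Continuous (deriv Γ) := hΓ.continuous_deriv (by simp)
  have hc0 : Continuous Γ := hΓ.continuous
  have hu : ∀ t, HasDerivAt (fun t => Γ t - c) (deriv Γ t) t := fun t => (hd t).sub_const c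
  have huu : ∀ t, conj (Γ t - c) * (Γ t - c) = ((R ^ 2 : ℝ) : ℂ) := by
    intro t
    rw [Complex.conj_mul', hc t]; push_cast; ring
  have hre : ∀ t, (conj (Γ t - c) * deriv Γ t).re = 0 := by
    intro t
    have h1 := (circ_conj_deriv (hu t)).mul (hu t)
    have h2 : HasDerivAt (fun t => conj (Γ t - c) * (Γ t - c)) 0 t := by
      have : (fun t => conj (Γ t - c) * (Γ t - c)) = fun _ => ((R ^ 2 : ℝ) : ℂ) := funext huu
      rw [this]; exact hasDerivAt_const _ _
    have h3 := h1.unique h2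
    have h4 := congrArg Complex.re h3
    simp only [Complex.add_re, Complex.mul_re, Complex.conj_re, Complex.conj_im,
      Complex.zero_re] at h4 ⊢
    linarith
  have hR0 : 0 ≤ R := hc 0 ▸ norm_nonneg _
  have hR : 0 < R := by
    rcases hR0.eq_or_lt with h | h
    · exfalso
      have : Γ = fun _ => c := by
        funext t
        have := hc t
        rw [← h, norm_eq_zero, sub_eq_zero] at this
        exact this
      have h5 := hn 0
      rw [this] at h5
      simp at h5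
      exact (hpos 0).ne h5
    · exact h
  have habs : ∀ t, |(conj (Γ t - c) * deriv Γ t).im| = R * ν t := by
    intro t
    rw [Complex.abs_im_eq_norm.2 (hre t), norm_mul, Complex.norm_conj, hc, hn]
  have hwc : Continuous fun t => (conj (Γ t - c) * deriv Γ t).im := by
    refine Complex.continuous_im.comp ?_
    exact (Complex.continuous_conj.comp (hc0.sub continuous_const)).mul hc1
  have hw0 : ∀ t, (conj (Γ t - c) * deriv Γ t).im ≠ 0 := by
    intro t h
    have := habs t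
    rw [h, abs_zero] at this
    exact (mul_pos hR (hpos t)).ne this
  have hzero : ∫ t in (0:ℝ)..1, (conj c * deriv Γ t).im = 0 := by
    have h1 : ∀ t ∈ uIcc (0:ℝ) 1, HasDerivAt (fun t => (conj c * Γ t).im)
        ((conj c * deriv Γ t).im) t := by
      intro t _
      have := Complex.imCLM.hasFDerivAt.comp_hasDerivAt t ((hd t).const_mul (conj c))
      simpa [Function.comp_def] using this
    rw [intervalIntegral.integral_eq_sub_of_hasDerivAt h1
      ((Complex.continuous_im.comp (continuous_const.mul hc1)).intervalIntegrable _ _)]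
    have := hp 0
    rw [zero_add] at this
    rw [this, sub_self]
  have hsplit : ∫ t in (0:ℝ)..1, (conj (Γ t) * deriv Γ t).im =
      ∫ t in (0:ℝ)..1, (conj (Γ t - c) * deriv Γ t).im := by
    have : ∀ t, (conj (Γ t) * deriv Γ t).im =
        (conj (Γ t - c) * deriv Γ t).im + (conj c * deriv Γ t).im := by
      intro t
      rw [← Complex.add_im]; congr 1; rw [map_sub]; ring
    simp_rw [this]
    have hcc : Continuous fun t => (conj c * deriv Γ t).im :=
      Complex.continuous_im.comp (continuous_const.mul hc1)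
    rw [intervalIntegral.integral_add (hwc.intervalIntegrable _ _)
      (hcc.intervalIntegrable _ _), hzero, add_zero]
  have hI := circ_int_pos hν.continuous hpos
  rw [hsplit] at hflux
  have hw : (∀ t, (conj (Γ t - c) * deriv Γ t).im = R * ν t) ∧ R = 1 / 2 := by
    rcases circ_sign hwc hw0 with h | h
    · have h1 : ∀ t, (conj (Γ t - c) * deriv Γ t).im = R * ν t := fun t => by
        rw [← habs t, abs_of_pos (h t)]
      refine ⟨h1, ?_⟩
      simp_rw [h1] at hflux
      rw [intervalIntegral.integral_const_mul] at hflux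
      have : (∫ s in (0:ℝ)..1, ν s) * (1 - 2 * R) = 0 := by linarith
      rcases mul_eq_zero.1 this with h2 | h2
      · exact absurd h2 hI.ne'
      · linarith
    · exfalso
      have h1 : ∀ t, (conj (Γ t - c) * deriv Γ t).im = -R * ν t := fun t => by
        have := habs t
        rw [abs_of_neg (h t)] at this
        linarith
      simp_rw [h1] at hflux
      rw [intervalIntegral.integral_const_mul] at hflux
      nlinarith
  obtain ⟨hw1, hRe⟩ := hw
  have hG : ∀ t, deriv Γ t = 2 * I * (ν t : ℂ) * (Γ t - c) := by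
    intro t
    have h1 : conj (Γ t - c) * deriv Γ t = I * ((R * ν t : ℝ) : ℂ) := by
      apply Complex.ext
      · rw [hre t]; simp
      · rw [hw1 t]; simp
    have h2 := huu t
    rw [hRe] at h1 h2
    push_cast at h1 h2
    linear_combination (4 * (Γ t - c)) * h1 - (4 * deriv Γ t) * h2
  have hνd : HasDerivAt (fun t => (ν t : ℂ)) ((deriv ν s : ℝ) : ℂ) s :=
    (hν s).hasDerivAt.ofReal_comp
  have h2 : HasDerivAt (deriv Γ)
      (2 * I * ((deriv ν s : ℝ) : ℂ) * (Γ s - c) + 2 * I * (ν s : ℂ) * deriv Γ s) s := by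
    have := (hνd.const_mul (2 * I)).mul (hu s)
    have h3 : deriv Γ = fun t => 2 * I * (ν t : ℂ) * (Γ t - c) := funext hG
    conv => arg 1; rw [h3]
    exact this
  rw [h2.deriv]
  have hne : (ν s : ℂ) ≠ 0 := by exact_mod_cast (hpos s).ne'
  have h4 : ((deriv ν s / ν s : ℝ) : ℂ) * deriv Γ s =
      2 * I * ((deriv ν s : ℝ) : ℂ) * (Γ s - c) := by
    rw [hG s]; push_cast; field_simp
  rw [add_mul, h4]

lemma circ_toE2_eq (w : ℂ) : toE2 w = Complex.orthonormalBasisOneI.repr w := by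
  ext i; fin_cases i <;> simp [toE2]

/-- the plane curve part of the final statement -/
theorem curve_final {Γ : ℝ → ℂ} {ν : ℝ → ℝ} (hΓ : ContDiff ℝ ∞ Γ) (hp : Function.Periodic Γ 1)
    (h0 : ∀ s : ℝ, ‖Γ s - (1/2) * exp (2 * Real.pi * I * s)‖ ≤ 1/20)
    (h1 : ∀ s : ℝ, ‖deriv Γ s - Real.pi * I * exp (2 * Real.pi * I * s)‖ ≤ 1/5)
    (hν : Differentiable ℝ ν) (hn : ∀ s, ‖deriv Γ s‖ = |ν s|)
    (hflux : ∫ s in (0:ℝ)..1, ν s = 2 * ∫ s in (0:ℝ)..1, (conj (Γ s) * deriv Γ s).im)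
    (hnc : ¬ ∀ s, deriv (deriv Γ) s = ((deriv ν s / ν s : ℝ) + 2 * I * ν s) * deriv Γ s) :
    let γ : ℝ → E2 := fun s => toE2 (Γ s)
    ContDiff ℝ ∞ γ ∧ Function.Periodic γ 1 ∧ InjOn γ (Ico 0 1) ∧ InjOn Γ (Ico 0 1) ∧
      (∀ s, deriv γ s ≠ 0) ∧ (∀ (c : E2) (R : ℝ), range γ ≠ Metric.sphere c R) ∧
      0 < area (inside (range γ)) ∧ |(2:ℝ)| = len γ / (2 * area (inside (range γ))) := by
  intro γ
  obtain ⟨θ, p1, p2, p3, p4, p5⟩ := exists_polar hΓ hp h0 h1
  obtain ⟨hinj, harea⟩ := polar_area hΓ hp p1 p2 p3 p4 p5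
  set L : ℂ ≃ₗᵢ[ℝ] E2 := Complex.orthonormalBasisOneI.repr with hL
  have hγ : γ = fun s => L (Γ s) := funext fun s => circ_toE2_eq _
  have hdiff : Differentiable ℝ Γ := hΓ.differentiable (by simp)
  have hc1 : Continuous (deriv Γ) := hΓ.continuous_deriv (by simp)
  have hc0 : Continuous Γ := hΓ.continuous
  have hdγ : ∀ s, deriv γ s = L (deriv Γ s) := by
    intro s
    have := (L.toContinuousLinearEquiv : ℂ →L[ℝ] E2).hasFDerivAt.comp_hasDerivAt s
      (hdiff s).hasDerivAt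
    rw [hγ]
    exact this.deriv
  have hne : ∀ s, deriv Γ s ≠ 0 := by
    intro s h
    have := p4 s
    rw [h] at this
    simp at this
  have hν0 : ∀ s, ν s ≠ 0 := by
    intro s h
    have := hn s
    rw [h, abs_zero, norm_eq_zero] at this
    exact hne s this
  have hwc : Continuous fun t => (conj (Γ t) * deriv Γ t).im :=
    Complex.continuous_im.comp ((Complex.continuous_conj.comp hc0).mul hc1)
  have hI := circ_int_pos hwc p4
  have hpos : ∀ s, 0 < ν s := by
    rcases circ_sign hν.continuous hν0 with h | h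
    · exact h
    · exfalso
      have := circ_int_pos (ν := fun s => -ν s) hν.continuous.neg (fun s => neg_pos.2 (h s))
      rw [intervalIntegral.integral_neg] at this
      linarith
  have hn' : ∀ s, ‖deriv Γ s‖ = ν s := fun s => by rw [hn s, abs_of_pos (hpos s)]
  have harea' : area (inside (range γ)) =
      (1/2) * ∫ s in (0:ℝ)..1, (conj (Γ s) * deriv Γ s).im := harea
  refine ⟨?_, ?_, ?_, hinj, ?_, ?_, ?_, ?_⟩
  · rw [hγ]
    exact (L.toContinuousLinearEquiv : ℂ →L[ℝ] E2).contDiff.comp hΓ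
  · intro s
    show toE2 (Γ (s + 1)) = toE2 (Γ s)
    rw [hp s]
  · intro a ha b hb hab
    rw [hγ] at hab
    exact hinj ha hb (L.injective hab)
  · intro s h
    rw [hdγ] at h
    exact hne s (by simpa using h)
  · intro c R h
    apply hnc
    refine circle_ode hΓ hp hν hpos hn' hflux (c := L.symm c) (R := R) ?_
    intro s
    have : γ s ∈ Metric.sphere c R := h ▸ mem_range_self s
    rw [mem_sphere_iff_norm, hγ] at this
    rw [← this, ← L.norm_map, map_sub, L.apply_symm_apply]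
  · rw [harea']; linarith
  · have hlen : len γ = ∫ s in (0:ℝ)..1, ν s := by
      unfold len
      congr 1
      funext s
      rw [hdγ, L.norm_map, hn']
    rw [hlen, harea', hflux, abs_two]
    field_simp

end Pool.Agent.MP_efb2da_gt

end
end
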