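import Pool.Agent.Mg.Fefb2da.G83e7e7
import Pool.Agent.Mg.Fefb2da.G534027
import Pool.Agent.Mg.Fefb2da.G01ee6c

section

/-! Two by two matrices over the Wiener algebra (loops) and over `ℂ`. -/

open Set
open scoped Topology ComplexConjugate Matrix

noncomputable section

namespace Pool.Agent.MP_efb2da_gt

abbrev MW := Matrix (Fin 2) (Fin 2) W
abbrev MC := Matrix (Fin 2) (Fin 2) ℂ

instance : NormedRing MW := Matrix.linftyOpNormedRing
instance : NormedAlgebra ℂ MW := Matrix.linftyOpNormedAlgebra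
instance : NormedRing MC := Matrix.linftyOpNormedRing
instance : NormedAlgebra ℂ MC := Matrix.linftyOpNormedAlgebra
instance : UniformSpace MW := (inferInstance : NormedRing MW).toMetricSpace.toUniformSpace
instance : UniformSpace MC := (inferInstance : NormedRing MC).toMetricSpace.toUniformSpace
instance : TopologicalSpace MW := (inferInstance : UniformSpace MW).toTopologicalSpace
instance : TopologicalSpace MC := (inferInstance : UniformSpace MC).toTopologicalSpace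
instance : NormOneClass MW := Matrix.linfty_opNormOneClass
instance : NormOneClass MC := Matrix.linfty_opNormOneClass
instance : CompleteSpace MW := inferInstanceAs (CompleteSpace (Fin 2 → Fin 2 → W))
instance : CompleteSpace MC := inferInstanceAs (CompleteSpace (Fin 2 → Fin 2 → ℂ))

instance : ContinuousSMul W MW := inferInstanceAs (ContinuousSMul W (Fin 2 → Fin 2 → W))
instance : ContinuousStar MC := ⟨continuous_id.matrix_conjTranspose⟩

example : (Matrix.module : Module ℝ MW) = Module.complexToReal MW := rfl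
example : (Matrix.module : Module ℝ MC) = Module.complexToReal MC := rfl
example : (inferInstance : NormedSpace ℝ MW).toModule = Matrix.module := rfl
example : (Pi.topologicalSpace : TopologicalSpace (Fin 2 → Fin 2 → W)) =
  (inferInstance : NormedRing MW).toMetricSpace.toUniformSpace.toTopologicalSpace := rfl

/-- entrywise application of a continuous linear map -/
def mapL {R E F : Type} [Semiring R] [TopologicalSpace E] [TopologicalSpace F] [AddCommMonoid E]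
    [AddCommMonoid F] [Module R E] [Module R F] (φ : E →L[R] F) :
    Matrix (Fin 2) (Fin 2) E →L[R] Matrix (Fin 2) (Fin 2) F where
  toFun M := M.map φ
  map_add' M N := by ext i j; simp
  map_smul' c M := by ext i j; simp
  cont := continuous_id.matrix_map φ.continuous

@[simp] lemma mapL_apply {R E F : Type} [Semiring R] [TopologicalSpace E] [TopologicalSpace F]
    [AddCommMonoid E] [AddCommMonoid F] [Module R E] [Module R F] (φ : E →L[R] F)
    (M : Matrix (Fin 2) (Fin 2) E) (i j : Fin 2) : mapL φ M i j = φ (M i j) := rfl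

/-- an entry as a continuous linear map -/
def ent {E : Type} [TopologicalSpace E] [AddCommMonoid E] [Module ℂ E] (i j : Fin 2) :
    Matrix (Fin 2) (Fin 2) E →L[ℂ] E where
  toFun M := M i j
  map_add' _ _ := rfl
  map_smul' _ _ := rfl
  cont := continuous_id.matrix_elem i j

/-- the linear map rearranging entries with signs -/
def perm {E : Type} [TopologicalSpace E] [AddCommGroup E] [IsTopologicalAddGroup E] [Module ℂ E]
    (a b c d : Fin 2 × Fin 2) (neg : Bool) :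
    Matrix (Fin 2) (Fin 2) E →L[ℂ] Matrix (Fin 2) (Fin 2) E where
  toFun M := !![M a.1 a.2, if neg then -M b.1 b.2 else M b.1 b.2;
    if neg then -M c.1 c.2 else M c.1 c.2, M d.1 d.2]
  map_add' M N := by
    ext i j; fin_cases i <;> fin_cases j <;> cases neg <;> simp [add_comm]
  map_smul' c M := by
    ext i j; fin_cases i <;> fin_cases j <;> cases neg <;> simp
  cont := by
    refine continuous_matrix fun i j => ?_
    fin_cases i <;> fin_cases j <;> cases neg <;> simp <;> fun_prop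

def entW (i j : Fin 2) : MW →L[ℂ] W := ent i j
def entC (i j : Fin 2) : MC →L[ℂ] ℂ := ent i j
/-- adjugate -/
def adj : MW →L[ℂ] MW := perm (1,1) (0,1) (1,0) (0,0) true
def adjC : MC →L[ℂ] MC := perm (1,1) (0,1) (1,0) (0,0) true
/-- conjugation by `σ₁` -/
def sw : MW →L[ℂ] MW := perm (1,1) (1,0) (0,1) (0,0) false
def trp : MW →L[ℂ] MW := perm (0,0) (1,0) (0,1) (1,1) false

def trpC : MC →L[ℂ] MC := perm (0,0) (1,0) (0,1) (1,1) false
/-- entrywise conjugation -/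
def cjC : MC →L[ℝ] MC := mapL (Complex.conjCLE : ℂ →L[ℝ] ℂ)
/-- conjugate transpose -/
def ct : MC →L[ℝ] MC := (trpC.restrictScalars ℝ).comp cjC
def trW : MW →L[ℂ] W := entW 0 0 + entW 1 1
def trC : MC →L[ℂ] ℂ := entC 0 0 + entC 1 1

/-- constant loops -/
def cst : MC →L[ℂ] MW := mapL (algebraMapCLM ℂ W)
def cf (n : ℤ) : MW →L[ℂ] MC := mapL (W.coef n)
def J0 : MW →L[ℂ] MC := mapL W.j0
def J1 : MW →L[ℂ] MC := mapL W.j1
def J2 : MW →L[ℂ] MC := mapL W.j2
def Ev (θ : ℝ) : MW →L[ℂ] MC := mapL (W.ev θ)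
/-- `L♭(λ) = L(1/λ)ᵀ` -/
def flat : MW →L[ℂ] MW := trp.comp (mapL W.rev)
/-- conjugation of the coefficients -/
def sharp : MW →L[ℝ] MW := mapL W.cj
/-- `L*(λ) = L(1/λ̄)ᴴ` -/
def st : MW →L[ℝ] MW := (flat.restrictScalars ℝ).comp sharp
def prj (S : Set ℤ) : MW →L[ℂ] MW := mapL (W.proj S)
/-- `M λⁿ` -/
def mono (n : ℤ) (M : MC) : MW := W.mon n • cst M

def MGE (a : ℤ) (M : MW) : Prop := ∀ i j, W.GE a (M i j)
def MLE (a : ℤ) (M : MW) : Prop := ∀ i j, W.LE a (M i j)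

def s1 : MC := !![0, 1; 1, 0]
def s3 : MC := !![1, 0; 0, -1]
def sJ : MC := !![0, -1; 1, 0]
/-- the traceless matrix with coefficients `v` of `σ₃, σ₁, J` -/
def mat (v : Fin 3 → ℝ) : MC := (v 0 : ℂ) • s3 + (v 1 : ℂ) • s1 + (v 2 : ℂ) • sJ
/-- the vector of a Hermitian traceless matrix `x σ₁ + y σ₂ + z σ₃` -/
def vec (M : MC) : E3 := mk3 (conj (M 0 1)) (M 0 0).re

/-- block Toeplitz operator -/
def toep (P : MW) : MW →L[ℂ] MW :=
  (prj (Ici 0)).comp ((ContinuousLinearMap.mul ℂ MW P).comp (prj (Ici 0))) + prj (Iio 0)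
def Xi0 (Φ' Φ : MW) : MW := Ring.inverse (toep (Φ' * Φ)) 1
/-- inverse of the positive factor; `Φ'` stands for `Φ*` -/
def Binv (Φ' Φ : MW) : MW := Xi0 Φ' Φ * cst (Ring.inverse (J0 (Φ * Xi0 Φ' Φ)))
def Bi (Φ : MW) : MW := Binv (st Φ) Φ
/-- positive factor of the Iwasawa decomposition -/
def Bm (Φ : MW) : MW := adj (Bi Φ)
/-- based unitary factor of the Iwasawa decomposition -/
def Uf (Φ : MW) : MW := Φ * Bi Φ
/-- Sym formula -/
def symM (Φ : MW) : MC := J1 (Uf Φ)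

end Pool.Agent.MP_efb2da_gt

end
end

section

open Set
open scoped Topology ComplexConjugate Matrix

noncomputable section

namespace Pool.Agent.MP_efb2da_gt

@[simp] lemma entW_apply (i j : Fin 2) (M : MW) : entW i j M = M i j := rfl
@[simp] lemma entC_apply (i j : Fin 2) (M : MC) : entC i j M = M i j := rfl
lemma adj_apply (M : MW) : adj M = !![M 1 1, -M 0 1; -M 1 0, M 0 0] := rfl
lemma adjC_apply (M : MC) : adjC M = !![M 1 1, -M 0 1; -M 1 0, M 0 0] := rfl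
lemma sw_apply (M : MW) : sw M = !![M 1 1, M 1 0; M 0 1, M 0 0] := rfl
@[simp] lemma cst_apply (M : MC) (i j : Fin 2) : cst M i j = algebraMap ℂ W (M i j) := rfl
@[simp] lemma cf_apply (n : ℤ) (M : MW) (i j : Fin 2) : cf n M i j = W.coef n (M i j) := rfl
@[simp] lemma J0_apply (M : MW) (i j : Fin 2) : J0 M i j = W.j0 (M i j) := rfl
@[simp] lemma J1_apply (M : MW) (i j : Fin 2) : J1 M i j = W.j1 (M i j) := rfl
@[simp] lemma J2_apply (M : MW) (i j : Fin 2) : J2 M i j = W.j2 (M i j) := rfl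
@[simp] lemma Ev_apply (θ : ℝ) (M : MW) (i j : Fin 2) : Ev θ M i j = W.ev θ (M i j) := rfl
@[simp] lemma sharp_apply (M : MW) (i j : Fin 2) : sharp M i j = W.cj (M i j) := rfl
@[simp] lemma prj_apply (S : Set ℤ) (M : MW) (i j : Fin 2) : prj S M i j = W.proj S (M i j) := rfl
@[simp] lemma cjC_apply (M : MC) (i j : Fin 2) : cjC M i j = conj (M i j) := rfl
@[simp] lemma flat_apply (M : MW) (i j : Fin 2) : flat M i j = W.rev (M j i) := by
  fin_cases i <;> fin_cases j <;> rfl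
@[simp] lemma trpC_apply (M : MC) (i j : Fin 2) : trpC M i j = M j i := by
  fin_cases i <;> fin_cases j <;> rfl
@[simp] lemma ct_apply (M : MC) (i j : Fin 2) : ct M i j = conj (M j i) := by
  fin_cases i <;> fin_cases j <;> rfl
lemma st_eq (M : MW) : st M = flat (sharp M) := rfl
@[simp] lemma st_apply (M : MW) (i j : Fin 2) : st M i j = W.rev (W.cj (M j i)) := by
  rw [st_eq, flat_apply, sharp_apply]
lemma trW_apply (M : MW) : trW M = M 0 0 + M 1 1 := rfl
lemma trC_apply (M : MC) : trC M = M 0 0 + M 1 1 := rfl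
@[simp] lemma mono_apply (n : ℤ) (M : MC) (i j : Fin 2) : mono n M i j = M i j • W.mon n := by
  change W.mon n * algebraMap ℂ W (M i j) = _
  rw [mul_comm, ← Algebra.smul_def]

lemma adj_eq (M : MW) : adj M = M.adjugate := by
  rw [adj_apply, Matrix.adjugate_fin_two]
lemma adjC_eq (M : MC) : adjC M = M.adjugate := by
  rw [adjC_apply, Matrix.adjugate_fin_two]
lemma mul_adj (M : MW) : M * adj M = M.det • (1 : MW) := by
  rw [adj_eq, Matrix.mul_adjugate]
lemma adj_mul_self (M : MW) : adj M * M = M.det • (1 : MW) := by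
  rw [adj_eq, Matrix.adjugate_mul]
lemma mul_adj_of_det {M : MW} (h : M.det = 1) : M * adj M = 1 := by
  rw [mul_adj, h, one_smul]
lemma adj_mul_of_det {M : MW} (h : M.det = 1) : adj M * M = 1 := by
  rw [adj_mul_self, h, one_smul]
lemma mul_adjC_of_det {M : MC} (h : M.det = 1) : M * adjC M = 1 := by
  rw [adjC_eq, Matrix.mul_adjugate, h, one_smul]
lemma adjC_mul_of_det {M : MC} (h : M.det = 1) : adjC M * M = 1 := by
  rw [adjC_eq, Matrix.adjugate_mul, h, one_smul]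
lemma adj_mul (M N : MW) : adj (M * N) = adj N * adj M := by
  rw [adj_eq, adj_eq, adj_eq, Matrix.adjugate_mul_distrib]
lemma adjC_mul (M N : MC) : adjC (M * N) = adjC N * adjC M := by
  rw [adjC_eq, adjC_eq, adjC_eq, Matrix.adjugate_mul_distrib]
@[simp] lemma adj_adj (M : MW) : adj (adj M) = M := by
  ext i j; fin_cases i <;> fin_cases j <;> simp [adj_apply]
@[simp] lemma adj_one : adj 1 = 1 := by
  rw [adj_eq, Matrix.adjugate_one]
@[simp] lemma adjC_one : adjC 1 = 1 := by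
  rw [adjC_eq, Matrix.adjugate_one]
@[simp] lemma det_adj (M : MW) : (adj M).det = M.det := by
  simp [adj_apply, Matrix.det_fin_two]; ring
lemma add_adj (M : MW) : M + adj M = trW M • (1 : MW) := by
  ext i j; fin_cases i <;> fin_cases j <;> simp [adj_apply, trW_apply, add_comm]
lemma adj_of_tr {M : MW} (h : trW M = 0) : adj M = -M := by
  have := add_adj M
  rw [h, zero_smul] at this
  exact eq_neg_of_add_eq_zero_right this
lemma mul_self_of_tr {M : MW} (h : trW M = 0) : M * M = (-M.det) • (1 : MW) := by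
  have := mul_adj M
  rw [adj_of_tr h, mul_neg] at this
  rw [neg_smul, ← this, neg_neg]
lemma eq_adj_of_mul {M N : MW} (hM : M.det = 1) (h : M * N = 1) : N = adj M := by
  calc N = (adj M * M) * N := by rw [adj_mul_of_det hM, one_mul]
    _ = adj M := by rw [mul_assoc, h, mul_one]
lemma trW_mul_comm (M N : MW) : trW (M * N) = trW (N * M) := by
  simp only [trW_apply, Matrix.mul_apply, Fin.sum_univ_two]; ring
lemma trC_mul_comm (M N : MC) : trC (M * N) = trC (N * M) := by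
  simp only [trC_apply, Matrix.mul_apply, Fin.sum_univ_two]; ring
lemma trW_conj (G M : MW) : trW (G * M * adj G) = G.det * trW M := by
  simp [trW_apply, adj_apply, Matrix.mul_apply, Fin.sum_univ_two, Matrix.det_fin_two]; ring
lemma trW_conj' (G M : MW) : trW (adj G * M * G) = G.det * trW M := by
  simp only [trW_apply, Matrix.mul_apply, Fin.sum_univ_two, Matrix.det_fin_two]
  simp [adj_apply]; ring
lemma trW_adj (M : MW) : trW (adj M) = trW M := by
  simp [trW_apply, adj_apply, add_comm]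
lemma det_add (M N : MW) : (M + N).det = M.det + N.det + trW (adj M * N) := by
  simp only [trW_apply, Matrix.mul_apply, Fin.sum_univ_two, Matrix.det_fin_two]
  simp [adj_apply]; ring
lemma det_addC (M N : MC) : (M + N).det = M.det + N.det + trC (adjC M * N) := by
  simp only [trC_apply, Matrix.mul_apply, Fin.sum_univ_two, Matrix.det_fin_two]
  simp [adjC_apply]; ring

lemma sw_eq (M : MW) : sw M = cst s1 * M * cst s1 := by
  ext i j; fin_cases i <;> fin_cases j <;> 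
    simp [sw_apply, s1, Matrix.mul_apply, Fin.sum_univ_two]
lemma sw_mul (M N : MW) : sw (M * N) = sw M * sw N := by
  ext i j; fin_cases i <;> fin_cases j <;> 
    simp [sw_apply, Matrix.mul_apply, Fin.sum_univ_two, add_comm]
@[simp] lemma sw_one : sw 1 = 1 := by
  ext i j; fin_cases i <;> fin_cases j <;> simp [sw_apply]
@[simp] lemma sw_sw (M : MW) : sw (sw M) = M := by
  ext i j; fin_cases i <;> fin_cases j <;> simp [sw_apply]
lemma sw_adj (M : MW) : sw (adj M) = adj (sw M) := by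
  ext i j; fin_cases i <;> fin_cases j <;> simp [sw_apply, adj_apply]
lemma det_sw (M : MW) : (sw M).det = M.det := by
  simp [sw_apply, Matrix.det_fin_two]; ring
lemma trW_sw (M : MW) : trW (sw M) = trW M := by
  simp [sw_apply, trW_apply, add_comm]

lemma cst_mul (M N : MC) : cst (M * N) = cst M * cst N := by
  ext i j; simp [Matrix.mul_apply, Fin.sum_univ_two]
@[simp] lemma cst_one : cst 1 = 1 := by
  ext i j; fin_cases i <;> fin_cases j <;> simp
lemma adj_cst (M : MC) : adj (cst M) = cst (adjC M) := by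
  ext i j; fin_cases i <;> fin_cases j <;> simp [adj_apply, adjC_apply]
lemma det_cst (M : MC) : (cst M).det = algebraMap ℂ W M.det := by
  simp [Matrix.det_fin_two]
lemma mono_zero (M : MC) : mono 0 M = cst M := by
  rw [mono, W.mon_zero, one_smul]
lemma mono_mul (n m : ℤ) (M N : MC) : mono n M * mono m N = mono (n + m) (M * N) := by
  rw [mono, mono, mono, Matrix.smul_mul, Matrix.mul_smul, smul_smul, W.mon_mul_mon, cst_mul]
lemma mono_add (n : ℤ) (M N : MC) : mono n (M + N) = mono n M + mono n N := by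
  rw [mono, mono, mono, map_add, smul_add]
lemma mono_smul (n : ℤ) (c : ℂ) (M : MC) : mono n (c • M) = c • mono n M := by
  ext i j; simp [mul_smul]
lemma mono_neg (n : ℤ) (M : MC) : mono n (-M) = -mono n M := by
  rw [mono, mono, map_neg, smul_neg]
/-- `mono n` as a continuous linear map -/
def MatApi_monoL (n : ℤ) : MC →L[ℂ] MW where
  toFun := mono n
  map_add' := mono_add n
  map_smul' := mono_smul n
  cont := cst.continuous.const_smul (W.mon n)

lemma MatApi_norm_le {E F : Type} [NormedAddCommGroup E] [NormedAddCommGroup F]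
    {A : Matrix (Fin 2) (Fin 2) E} {B : Matrix (Fin 2) (Fin 2) F} {C : ℝ} (hC : 0 ≤ C)
    (h : ∀ i j, ‖A i j‖ ≤ C * ‖B i j‖) :
    (((Finset.univ : Finset (Fin 2)).sup fun i => ∑ j, ‖A i j‖₊ : NNReal) : ℝ) ≤
      C * (((Finset.univ : Finset (Fin 2)).sup fun i => ∑ j, ‖B i j‖₊ : NNReal) : ℝ) := by
  lift C to NNReal using hC
  rw [← NNReal.coe_mul, NNReal.coe_le_coe]
  refine Finset.sup_le fun i _ => ?_
  calc ∑ j, ‖A i j‖₊ ≤ ∑ j, C * ‖B i j‖₊ :=
        Finset.sum_le_sum fun j _ => by rw [← NNReal.coe_le_coe]; simpa using h i j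
    _ = C * ∑ j, ‖B i j‖₊ := by rw [Finset.mul_sum]
    _ ≤ _ := by
        gcongr
        exact Finset.le_sup (f := fun i => ∑ j, ‖B i j‖₊) (Finset.mem_univ i)

lemma MatApi_norm_le_W {A : MW} {B : MC} {C : ℝ} (hC : 0 ≤ C)
    (h : ∀ i j, ‖A i j‖ ≤ C * ‖B i j‖) : ‖A‖ ≤ C * ‖B‖ := by
  have := MatApi_norm_le hC h
  rwa [← Matrix.linfty_opNorm_def, ← Matrix.linfty_opNorm_def] at this

lemma MatApi_norm_sharp_le (M : MW) : ‖sharp M‖ ≤ ‖M‖ := by
  have := MatApi_norm_le (A := sharp M) (B := M) (C := 1) zero_le_one fun i j => by simp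
  rwa [← Matrix.linfty_opNorm_def, ← Matrix.linfty_opNorm_def, one_mul] at this

lemma continuous_mono (n : ℤ) : Continuous (mono n) :=
  (MatApi_monoL n).continuous
lemma differentiable_mono (n : ℤ) : Differentiable ℂ (mono n) :=
  (MatApi_monoL n).differentiable
lemma norm_mono_le (n : ℤ) (M : MC) : ‖mono n M‖ ≤ wt n * ‖M‖ := by
  refine MatApi_norm_le_W (wt_pos n).le fun i j => ?_
  rw [mono_apply, norm_smul, W.norm_mon, mul_comm]
lemma cf_mono (n m : ℤ) (M : MC) : cf n (mono m M) = if n = m then M else 0 := by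
  ext i j
  rw [cf_apply, mono_apply, map_smul, W.coef_mon]
  split_ifs <;> simp
lemma cf_cst (n : ℤ) (M : MC) : cf n (cst M) = if n = 0 then M else 0 := by
  rw [← mono_zero, cf_mono]
lemma MW_ext {M N : MW} (h : ∀ n, cf n M = cf n N) : M = N := by
  ext i j
  exact W.ext_coef fun n => congrFun (congrFun (h n) i) j

lemma flat_mul (M N : MW) : flat (M * N) = flat N * flat M := by
  ext i j; simp [Matrix.mul_apply, Fin.sum_univ_two, mul_comm]
@[simp] lemma flat_one : flat 1 = 1 := by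
  ext i j; fin_cases i <;> fin_cases j <;> simp
@[simp] lemma flat_flat (M : MW) : flat (flat M) = M := by
  ext i j; simp
lemma flat_adj (M : MW) : flat (adj M) = adj (flat M) := by
  ext i j; fin_cases i <;> fin_cases j <;> simp [adj_apply]
lemma flat_cst (M : MC) : flat (cst M) = cst (trpC M) := by
  ext i j; simp
lemma flat_mono (n : ℤ) (M : MC) : flat (mono n M) = mono (-n) (trpC M) := by
  ext i j; simp
lemma det_flat (M : MW) : (flat M).det = W.rev M.det := by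
  simp [Matrix.det_fin_two]; ring
lemma trW_flat (M : MW) : trW (flat M) = W.rev (trW M) := by
  simp [trW_apply]
lemma cf_flat (n : ℤ) (M : MW) : cf n (flat M) = trpC (cf (-n) M) := by
  ext i j; simp
lemma sharp_mul (M N : MW) : sharp (M * N) = sharp M * sharp N := by
  ext i j; simp [Matrix.mul_apply, Fin.sum_univ_two]
@[simp] lemma sharp_one : sharp 1 = 1 := by
  ext i j; fin_cases i <;> fin_cases j <;> simp
@[simp] lemma sharp_sharp (M : MW) : sharp (sharp M) = M := by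
  ext i j; simp
lemma sharp_smul (c : ℂ) (M : MW) : sharp (c • M) = conj c • sharp M := by
  ext i j; simp
lemma sharp_smulW (c : W) (M : MW) : sharp (c • M) = W.cj c • sharp M := by
  ext i j; simp
lemma sharp_adj (M : MW) : sharp (adj M) = adj (sharp M) := by
  ext i j; fin_cases i <;> fin_cases j <;> simp [adj_apply]
lemma sharp_sw (M : MW) : sharp (sw M) = sw (sharp M) := by
  ext i j; fin_cases i <;> fin_cases j <;> simp [sw_apply]
lemma sharp_flat (M : MW) : sharp (flat M) = flat (sharp M) := by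
  ext i j; simp [W.cj_rev]
lemma sharp_cst (M : MC) : sharp (cst M) = cst (cjC M) := by
  ext i j; simp
lemma sharp_mono (n : ℤ) (M : MC) : sharp (mono n M) = mono n (cjC M) := by
  ext i j; simp
lemma sharp_prj (S : Set ℤ) (M : MW) : sharp (prj S M) = prj S (sharp M) := by
  ext i j
  refine W.ext_coef fun n => ?_
  rw [sharp_apply, prj_apply, prj_apply, sharp_apply, W.coef_cj, W.coef_proj, W.coef_proj, W.coef_cj]
  split_ifs <;> simp
lemma det_sharp (M : MW) : (sharp M).det = W.cj M.det := by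
  simp [Matrix.det_fin_two]
lemma trW_sharp (M : MW) : trW (sharp M) = W.cj (trW M) := by
  simp [trW_apply]
lemma cf_sharp (n : ℤ) (M : MW) : cf n (sharp M) = cjC (cf n M) := by
  ext i j; simp
@[simp] lemma norm_sharp (M : MW) : ‖sharp M‖ = ‖M‖ := by
  refine le_antisymm (MatApi_norm_sharp_le M) ?_
  simpa using MatApi_norm_sharp_le (sharp M)
lemma st_mul (M N : MW) : st (M * N) = st N * st M := by
  rw [st_eq, st_eq, st_eq, sharp_mul, flat_mul]
@[simp] lemma st_one : st 1 = 1 := by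
  rw [st_eq, sharp_one, flat_one]
@[simp] lemma st_st (M : MW) : st (st M) = M := by
  rw [st_eq, st_eq, sharp_flat, sharp_sharp, flat_flat]
lemma st_cst (M : MC) : st (cst M) = cst (ct M) := by
  ext i j; simp
lemma st_mono (n : ℤ) (M : MC) : st (mono n M) = mono (-n) (ct M) := by
  ext i j; simp
lemma st_smul (c : ℂ) (M : MW) : st (c • M) = conj c • st M := by
  rw [st_eq, st_eq, sharp_smul, map_smul]
lemma st_sharp (M : MW) : st (sharp M) = sharp (st M) := by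
  rw [st_eq, st_eq, sharp_flat]
lemma det_st (M : MW) : (st M).det = W.rev (W.cj M.det) := by
  rw [st_eq, det_flat, det_sharp]
lemma ct_eq (M : MC) : ct M = Mᴴ := by
  ext i j; simp
lemma ct_mul (M N : MC) : ct (M * N) = ct N * ct M := by
  rw [ct_eq, ct_eq, ct_eq, Matrix.conjTranspose_mul]
lemma ct_smul (c : ℂ) (M : MC) : ct (c • M) = conj c • ct M := by
  ext i j; simp
@[simp] lemma ct_ct (M : MC) : ct (ct M) = M := by
  ext i j; simp
lemma cjC_mul (M N : MC) : cjC (M * N) = cjC M * cjC N := by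
  ext i j; simp [Matrix.mul_apply, Fin.sum_univ_two]

end Pool.Agent.MP_efb2da_gt

end
end

section

open Set
open scoped Topology ComplexConjugate Matrix

noncomputable section

namespace Pool.Agent.MP_efb2da_gt

lemma matApi2_mulW (M N : MW) (i j : Fin 2) : (M * N) i j = M i 0 * N 0 j + M i 1 * N 1 j := by
  rw [Matrix.mul_apply, Fin.sum_univ_two]
lemma matApi2_mulC (M N : MC) (i j : Fin 2) : (M * N) i j = M i 0 * N 0 j + M i 1 * N 1 j := by
  rw [Matrix.mul_apply, Fin.sum_univ_two]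

lemma J0_mul (M N : MW) : J0 (M * N) = J0 M * J0 N := by
  ext i j; simp [matApi2_mulW, matApi2_mulC, W.j0_mul]
lemma J1_mul (M N : MW) : J1 (M * N) = J1 M * J0 N + J0 M * J1 N := by
  ext i j; simp only [J1_apply, J0_apply, matApi2_mulW, matApi2_mulC, Matrix.add_apply, map_add,
    W.j1_mul]; ring
lemma J2_mul (M N : MW) : J2 (M * N) = J2 M * J0 N + (2:ℂ) • (J1 M * J1 N) + J0 M * J2 N := by
  ext i j; simp only [J2_apply, J1_apply, J0_apply, matApi2_mulW, matApi2_mulC, Matrix.add_apply,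
    Matrix.smul_apply, smul_eq_mul, map_add, W.j2_mul]; ring
@[simp] lemma J0_one : J0 1 = 1 := by
  ext i j; fin_cases i <;> fin_cases j <;> simp
@[simp] lemma J1_one : J1 1 = 0 := by
  ext i j; fin_cases i <;> fin_cases j <;> simp
@[simp] lemma J2_one : J2 1 = 0 := by
  ext i j; fin_cases i <;> fin_cases j <;> simp
@[simp] lemma J0_cst (M : MC) : J0 (cst M) = M := by ext i j; simp
@[simp] lemma J1_cst (M : MC) : J1 (cst M) = 0 := by ext i j; simp
@[simp] lemma J2_cst (M : MC) : J2 (cst M) = 0 := by ext i j; simp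
@[simp] lemma J0_mono (n : ℤ) (M : MC) : J0 (mono n M) = M := by ext i j; simp
@[simp] lemma J1_mono (n : ℤ) (M : MC) : J1 (mono n M) = (n : ℂ) • M := by
  ext i j; simp [mul_comm]
@[simp] lemma J2_mono (n : ℤ) (M : MC) : J2 (mono n M) = ((n : ℂ) ^ 2) • M := by
  ext i j; simp [mul_comm]
lemma J0_adj (M : MW) : J0 (adj M) = adjC (J0 M) := by
  ext i j; fin_cases i <;> fin_cases j <;> simp [adj_apply, adjC_apply]
lemma J1_adj (M : MW) : J1 (adj M) = adjC (J1 M) := by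
  ext i j; fin_cases i <;> fin_cases j <;> simp [adj_apply, adjC_apply]
lemma J2_adj (M : MW) : J2 (adj M) = adjC (J2 M) := by
  ext i j; fin_cases i <;> fin_cases j <;> simp [adj_apply, adjC_apply]
lemma J0_flat (M : MW) : J0 (flat M) = trpC (J0 M) := by ext i j; simp
lemma J1_flat (M : MW) : J1 (flat M) = -trpC (J1 M) := by ext i j; simp
lemma J2_flat (M : MW) : J2 (flat M) = trpC (J2 M) := by ext i j; simp
lemma J0_sharp (M : MW) : J0 (sharp M) = cjC (J0 M) := by ext i j; simp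
lemma J1_sharp (M : MW) : J1 (sharp M) = cjC (J1 M) := by ext i j; simp
lemma J2_sharp (M : MW) : J2 (sharp M) = cjC (J2 M) := by ext i j; simp
lemma J0_st (M : MW) : J0 (st M) = ct (J0 M) := by ext i j; simp
lemma J1_st (M : MW) : J1 (st M) = -ct (J1 M) := by ext i j; simp
lemma det_J0 (M : MW) : (J0 M).det = W.j0 M.det := by
  simp [Matrix.det_fin_two, W.j0_mul]
lemma Ev_mul (θ : ℝ) (M N : MW) : Ev θ (M * N) = Ev θ M * Ev θ N := by
  ext i j; simp [matApi2_mulW, matApi2_mulC, W.ev_mul]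
@[simp] lemma Ev_one (θ : ℝ) : Ev θ 1 = 1 := by
  ext i j; fin_cases i <;> fin_cases j <;> simp
lemma det_Ev (θ : ℝ) (M : MW) : (Ev θ M).det = W.ev θ M.det := by
  simp [Matrix.det_fin_two, W.ev_mul]

lemma isClosed_MGE (a : ℤ) : IsClosed {M | MGE a M} := by
  have : {M | MGE a M} = ⋂ i, ⋂ j, entW i j ⁻¹' {x | W.GE a x} := by
    ext M; simp [MGE]
  rw [this]
  exact isClosed_iInter fun i => isClosed_iInter fun j =>
    (W.isClosed_GE a).preimage (entW i j).continuous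
lemma MGE_iff {a : ℤ} {M : MW} : MGE a M ↔ ∀ n, n < a → cf n M = 0 :=
  ⟨fun h n hn => by ext i j; exact h i j n hn, fun h i j n hn => by
    have := congrFun (congrFun (h n hn) i) j
    exact this⟩
lemma MLE_iff {a : ℤ} {M : MW} : MLE a M ↔ ∀ n, a < n → cf n M = 0 :=
  ⟨fun h n hn => by ext i j; exact h i j n hn, fun h i j n hn => by
    have := congrFun (congrFun (h n hn) i) j
    exact this⟩
lemma MGE.zero (a : ℤ) : MGE a 0 := fun _ _ => W.GE.zero a
lemma MGE.add {a : ℤ} {M N : MW} (hM : MGE a M) (hN : MGE a N) : MGE a (M + N) :=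
  fun i j => (hM i j).add (hN i j)
lemma MGE.neg {a : ℤ} {M : MW} (hM : MGE a M) : MGE a (-M) := fun i j => (hM i j).neg
lemma MGE.sub {a : ℤ} {M N : MW} (hM : MGE a M) (hN : MGE a N) : MGE a (M - N) :=
  fun i j => (hM i j).sub (hN i j)
lemma MGE.smul {a : ℤ} {M : MW} (c : ℂ) (hM : MGE a M) : MGE a (c • M) :=
  fun i j => (hM i j).smul c
lemma MGE.smulW {a b : ℤ} {c : W} {M : MW} (hc : W.GE a c) (hM : MGE b M) : MGE (a + b) (c • M) :=
  fun i j => hc.mul (hM i j)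
lemma MGE.sum {ι : Type} {a : ℤ} {s : Finset ι} {M : ι → MW} (h : ∀ i ∈ s, MGE a (M i)) :
    MGE a (∑ i ∈ s, M i) :=
  Finset.sum_induction M (MGE a) (fun _ _ => MGE.add) (MGE.zero a) h
lemma MGE.weaken {a b : ℤ} {M : MW} (hM : MGE a M) (h : b ≤ a) : MGE b M :=
  fun i j => (hM i j).mono h
lemma MGE.mul {a b : ℤ} {M N : MW} (hM : MGE a M) (hN : MGE b N) : MGE (a + b) (M * N) :=
  fun i j => by
    rw [matApi2_mulW]; exact ((hM _ _).mul (hN _ _)).add ((hM _ _).mul (hN _ _))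
lemma MGE.conj {a : ℤ} {B M C : MW} (hB : MGE 0 B) (hM : MGE a M) (hC : MGE 0 C) :
    MGE a (B * M * C) := by
  simpa using (hB.mul hM).mul hC
lemma MGE.cf_mul {a b : ℤ} {M N : MW} (hM : MGE a M) (hN : MGE b N) :
    cf (a + b) (M * N) = cf a M * cf b N := by
  ext i j
  simp only [cf_apply, matApi2_mulW, matApi2_mulC, map_add, (hM _ _).coef_mul (hN _ _)]
lemma MGE.cf_mul_succ {a b : ℤ} {M N : MW} (hM : MGE a M) (hN : MGE b N) :
    cf (a + b + 1) (M * N) = cf a M * cf (b + 1) N + cf (a + 1) M * cf b N := by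
  ext i j
  simp only [cf_apply, matApi2_mulW, matApi2_mulC, map_add, Matrix.add_apply,
    (hM _ _).coef_mul_succ (hN _ _)]
  ring
lemma MGE.cf_conj {a : ℤ} {B M C : MW} (hB : MGE 0 B) (hM : MGE a M) (hC : MGE 0 C) :
    cf a (B * M * C) = cf 0 B * cf a M * cf 0 C := by
  have h1 := (hB.mul hM).cf_mul hC
  rw [hB.cf_mul hM] at h1
  simpa using h1
lemma MGE.adj {a : ℤ} {M : MW} (hM : MGE a M) : MGE a (adj M) := by
  intro i j
  fin_cases i <;> fin_cases j
  exacts [hM 1 1, (hM 0 1).neg, (hM 1 0).neg, hM 0 0]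
lemma MGE.sw {a : ℤ} {M : MW} (hM : MGE a M) : MGE a (sw M) := by
  intro i j
  fin_cases i <;> fin_cases j
  exacts [hM 1 1, hM 1 0, hM 0 1, hM 0 0]
lemma MGE.sharp {a : ℤ} {M : MW} (hM : MGE a M) : MGE a (sharp M) := fun i j => (hM i j).cj
lemma MGE.det {a : ℤ} {M : MW} (hM : MGE a M) : W.GE (a + a) M.det := by
  rw [Matrix.det_fin_two]
  exact ((hM _ _).mul (hM _ _)).sub ((hM _ _).mul (hM _ _))
lemma MGE.coef_det {a : ℤ} {M : MW} (hM : MGE a M) : W.coef (a + a) M.det = (cf a M).det := by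
  simp only [Matrix.det_fin_two, map_sub, cf_apply, (hM _ _).coef_mul (hM _ _)]
lemma MGE_cst (M : MC) : MGE 0 (cst M) := fun _ _ => W.GE_algebraMap _
lemma MGE_one : MGE 0 1 := by rw [← cst_one]; exact MGE_cst 1
lemma MGE_mono (n : ℤ) (M : MC) : MGE n (mono n M) := fun i j => by
  rw [mono_apply]; exact (W.GE_mon n).smul _
lemma matApi2_GE_cj {a : ℤ} {x : W} : W.GE a (W.cj x) ↔ W.GE a x :=
  ⟨fun h => by simpa using h.cj, fun h => h.cj⟩
lemma matApi2_LE_cj {a : ℤ} {x : W} : W.LE a (W.cj x) ↔ W.LE a x :=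
  ⟨fun h => by simpa using h.cj, fun h => h.cj⟩
lemma MGE_st {a : ℤ} {M : MW} : MGE a (st M) ↔ MLE (-a) M := by
  simp only [MGE, MLE, st_apply, W.GE_rev, matApi2_LE_cj]
  exact forall_comm
lemma MLE_st {a : ℤ} {M : MW} : MLE a (st M) ↔ MGE (-a) M := by
  simp only [MGE, MLE, st_apply, W.LE_rev, matApi2_GE_cj]
  exact forall_comm
lemma MLE.mul {a b : ℤ} {M N : MW} (hM : MLE a M) (hN : MLE b N) : MLE (a + b) (M * N) :=
  fun i j => by
    rw [matApi2_mulW]; exact ((hM _ _).mul (hN _ _)).add ((hM _ _).mul (hN _ _))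
lemma MLE.cf_mul {a b : ℤ} {M N : MW} (hM : MLE a M) (hN : MLE b N) :
    cf (a + b) (M * N) = cf a M * cf b N := by
  ext i j
  simp only [cf_apply, matApi2_mulW, matApi2_mulC, map_add, (hM _ _).coef_mul (hN _ _)]
lemma eq_cst {M : MW} (h1 : MGE 0 M) (h2 : MLE 0 M) : M = cst (cf 0 M) := by
  refine Matrix.ext fun i j => ?_
  exact W.eq_const (h1 i j) (h2 i j)
lemma eq_two_mono {a : ℤ} {M : MW} (h1 : MGE a M) (h2 : MLE (a + 1) M) :
    M = mono a (cf a M) + mono (a + 1) (cf (a + 1) M) := by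
  refine Matrix.ext fun i j => ?_
  rw [Matrix.add_apply, mono_apply, mono_apply]
  exact W.eq_two (h1 i j) (h2 i j)
lemma cf_adj (n : ℤ) (M : MW) : cf n (adj M) = adjC (cf n M) := by
  ext i j; fin_cases i <;> fin_cases j <;> simp [adj_apply, adjC_apply]
/-- the closed real subalgebra of positive loops -/
lemma exists_posAlg : ∃ B : Subalgebra ℝ MW, IsClosed (B : Set MW) ∧ ∀ M, M ∈ B ↔ MGE 0 M := by
  refine ⟨{ carrier := {M | MGE 0 M}
            mul_mem' := fun h1 h2 => by simpa using MGE.mul h1 h2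
            one_mem' := MGE_one
            add_mem' := MGE.add
            zero_mem' := MGE.zero 0
            algebraMap_mem' := fun r => ?_ }, isClosed_MGE 0, fun M => Iff.rfl⟩
  rw [Algebra.algebraMap_eq_smul_one]
  exact MGE_one.smul (r : ℂ)

lemma matApi2_normW (M : MW) : ‖M‖ = max (‖M 0 0‖ + ‖M 0 1‖) (‖M 1 0‖ + ‖M 1 1‖) := by
  have := Matrix.linfty_opNorm_def M
  refine this.trans ?_
  simp [Finset.univ_fin2]
lemma matApi2_normC (M : MC) : ‖M‖ = max (‖M 0 0‖ + ‖M 0 1‖) (‖M 1 0‖ + ‖M 1 1‖) := by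
  have := Matrix.linfty_opNorm_def M
  refine this.trans ?_
  simp [Finset.univ_fin2]

lemma matApi2_max {a b c d a' b' c' d' C : ℝ} (hC : 0 ≤ C) (h1 : a ≤ C * a') (h2 : b ≤ C * b')
    (h3 : c ≤ C * c') (h4 : d ≤ C * d') :
    max (a + b) (c + d) ≤ C * max (a' + b') (c' + d') := by
  have e1 := mul_le_mul_of_nonneg_left (le_max_left (a' + b') (c' + d')) hC
  have e2 := mul_le_mul_of_nonneg_left (le_max_right (a' + b') (c' + d')) hC
  exact max_le (by linarith) (by linarith)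

lemma matApi2_max_one {a b c d a' b' c' d' : ℝ} (h1 : a ≤ a') (h2 : b ≤ b')
    (h3 : c ≤ c') (h4 : d ≤ d') : max (a + b) (c + d) ≤ max (a' + b') (c' + d') :=
  max_le_max (add_le_add h1 h2) (add_le_add h3 h4)

lemma norm_entry_le (M : MW) (i j : Fin 2) : ‖M i j‖ ≤ ‖M‖ := by
  rw [matApi2_normW]
  fin_cases i <;> fin_cases j <;> simp
lemma norm_entryC_le (M : MC) (i j : Fin 2) : ‖M i j‖ ≤ ‖M‖ := by
  rw [matApi2_normC]
  fin_cases i <;> fin_cases j <;> simp
lemma norm_le_of_entries {M : MW} {C : ℝ} (h : ∀ i j, ‖M i j‖ ≤ C) : ‖M‖ ≤ 2 * C := by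
  rw [matApi2_normW]
  exact max_le (by linarith [h 0 0, h 0 1]) (by linarith [h 1 0, h 1 1])
lemma norm_le_of_entriesC {M : MC} {C : ℝ} (h : ∀ i j, ‖M i j‖ ≤ C) : ‖M‖ ≤ 2 * C := by
  rw [matApi2_normC]
  exact max_le (by linarith [h 0 0, h 0 1]) (by linarith [h 1 0, h 1 1])
lemma norm_adj_le (M : MW) : ‖adj M‖ ≤ 2 * ‖M‖ := by
  refine norm_le_of_entries fun i j => ?_
  fin_cases i <;> fin_cases j <;> simp [adj_apply, norm_entry_le]
lemma norm_adjC_le (M : MC) : ‖adjC M‖ ≤ 2 * ‖M‖ := by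
  refine norm_le_of_entriesC fun i j => ?_
  fin_cases i <;> fin_cases j <;> simp [adjC_apply, norm_entryC_le]
lemma norm_sw (M : MW) : ‖sw M‖ = ‖M‖ := by
  rw [matApi2_normW, matApi2_normW M, max_comm]
  simp [sw_apply, add_comm]
lemma norm_flat_le (M : MW) : ‖flat M‖ ≤ 2 * ‖M‖ :=
  norm_le_of_entries fun i j => by simp [norm_entry_le]
lemma norm_cf_le (n : ℤ) (M : MW) : ‖cf n M‖ ≤ ‖M‖ := by
  rw [matApi2_normC, matApi2_normW]
  exact matApi2_max_one (W.norm_coef_le' _ _) (W.norm_coef_le' _ _) (W.norm_coef_le' _ _)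
    (W.norm_coef_le' _ _)
lemma norm_cst (M : MC) : ‖cst M‖ = ‖M‖ := by
  rw [matApi2_normC, matApi2_normW]
  simp only [cst_apply, norm_algebraMap']
lemma norm_prj_le (S : Set ℤ) (M : MW) : ‖prj S M‖ ≤ ‖M‖ := by
  rw [matApi2_normW, matApi2_normW M]
  exact matApi2_max_one (W.norm_proj_le _ _) (W.norm_proj_le _ _) (W.norm_proj_le _ _)
    (W.norm_proj_le _ _)
lemma norm_J0_le (M : MW) : ‖J0 M‖ ≤ ‖M‖ := by
  rw [matApi2_normC, matApi2_normW]
  exact matApi2_max_one (W.norm_j0_le _) (W.norm_j0_le _) (W.norm_j0_le _) (W.norm_j0_le _)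
lemma norm_J1_le (M : MW) : ‖J1 M‖ ≤ ‖M‖ := by
  rw [matApi2_normC, matApi2_normW]
  exact matApi2_max_one (W.norm_j1_le _) (W.norm_j1_le _) (W.norm_j1_le _) (W.norm_j1_le _)
lemma norm_J2_le (M : MW) : ‖J2 M‖ ≤ 2 * ‖M‖ := by
  rw [matApi2_normC, matApi2_normW]
  exact matApi2_max (by norm_num) (W.norm_j2_le _) (W.norm_j2_le _) (W.norm_j2_le _)
    (W.norm_j2_le _)
lemma norm_trC_le (M : MC) : ‖trC M‖ ≤ 2 * ‖M‖ := by
  rw [trC_apply]
  linarith [norm_add_le (M 0 0) (M 1 1), norm_entryC_le M 0 0, norm_entryC_le M 1 1]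
lemma norm_smulW_le (c : W) (M : MW) : ‖c • M‖ ≤ ‖c‖ * ‖M‖ := by
  rw [matApi2_normW, matApi2_normW M]
  exact matApi2_max (norm_nonneg _) (norm_mul_le _ _) (norm_mul_le _ _) (norm_mul_le _ _)
    (norm_mul_le _ _)
lemma contDiff_detW {n : WithTop ℕ∞} : ContDiff ℂ n fun M : MW => M.det := by
  simp only [Matrix.det_fin_two]
  exact ((entW 0 0).contDiff.mul (entW 1 1).contDiff).sub
    ((entW 0 1).contDiff.mul (entW 1 0).contDiff)
lemma contDiff_detC {n : WithTop ℕ∞} : ContDiff ℂ n fun M : MC => M.det := by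
  simp only [Matrix.det_fin_two]
  exact ((entC 0 0).contDiff.mul (entC 1 1).contDiff).sub
    ((entC 0 1).contDiff.mul (entC 1 0).contDiff)
lemma contDiff_vec {n : WithTop ℕ∞} : ContDiff ℝ n vec := by
  rw [contDiff_euclidean]
  have h : ∀ i j, ContDiff ℝ n fun M : MC => M i j := fun i j =>
    ((entC i j).restrictScalars ℝ).contDiff
  intro i
  fin_cases i
  · exact Complex.reCLM.contDiff.comp (h 0 1)
  · exact (Complex.imCLM.contDiff.comp (h 0 1)).neg
  · exact Complex.reCLM.contDiff.comp (h 0 0)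
lemma vec_add (M N : MC) : vec (M + N) = vec M + vec N := by
  ext i; fin_cases i <;> simp [vec, mk3]
lemma vec_sub (M N : MC) : vec (M - N) = vec M - vec N := by
  ext i; fin_cases i <;> simp [vec, mk3]
lemma vec_smul (c : ℝ) (M : MC) : vec ((c : ℂ) • M) = c • vec M := by
  ext i; fin_cases i <;> simp [vec, mk3]
lemma vec_cjC (M : MC) : vec (cjC M) = Refl (vec M) :=
  E3_ext (by simp [vec]) (by simp [vec])

end Pool.Agent.MP_efb2da_gt

end
end

section

open Set Complex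
open scoped Topology ComplexConjugate Matrix ContDiff

noncomputable section

namespace Pool.Agent.MP_efb2da_gt

lemma iw1_ext {M N : MW} (h : ∀ i j n, W.coef n (M i j) = W.coef n (N i j)) : M = N :=
  Matrix.ext fun i j => W.ext_coef (h i j)

lemma iw1_add (X : MW) : prj (Ici 0) X + prj (Iio 0) X = X := iw1_ext fun i j n => by
  rw [Matrix.add_apply, map_add, prj_apply, prj_apply, W.coef_proj, W.coef_proj]
  by_cases h : 0 ≤ n
  · simp [h]
  · simp [h, not_le.1 h]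

lemma iw1_pp (S : Set ℤ) (X : MW) : prj S (prj S X) = prj S X := iw1_ext fun i j n => by
  simp only [prj_apply, W.coef_proj]
  split_ifs <;> rfl

lemma iw1_pm (X : MW) : prj (Ici 0) (prj (Iio 0) X) = 0 := iw1_ext fun i j n => by
  simp only [prj_apply, W.coef_proj, Matrix.zero_apply, map_zero]
  by_cases h : 0 ≤ n
  · simp [h]
  · simp [h]

lemma iw1_mp (X : MW) : prj (Iio 0) (prj (Ici 0) X) = 0 := iw1_ext fun i j n => by
  simp only [prj_apply, W.coef_proj, Matrix.zero_apply, map_zero]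
  by_cases h : 0 ≤ n
  · simp [h]
  · simp [h]

lemma iw1_toep (P X : MW) :
    toep P X = prj (Ici 0) (P * prj (Ici 0) X) + prj (Iio 0) X := rfl

lemma iw1_p_toep (P X : MW) : prj (Ici 0) (toep P X) = prj (Ici 0) (P * prj (Ici 0) X) := by
  rw [iw1_toep, map_add, iw1_pp, iw1_pm, add_zero]

lemma iw1_m_toep (P X : MW) : prj (Iio 0) (toep P X) = prj (Iio 0) X := by
  rw [iw1_toep, map_add, iw1_pp, iw1_mp, zero_add]

lemma iw1_sq_zero {Y : MW} (h : cf 0 (st Y * Y) = 0) : Y = 0 := by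
  refine iw1_ext fun i j n => ?_
  have h1 := congrArg (fun M : MC => (M j j).re) h
  simp only [cf_apply, matApi2_mulW, st_apply, map_add, add_re, Matrix.zero_apply,
    zero_re] at h1
  have a0 := W.sq_coef_le n (Y 0 j)
  have a1 := W.sq_coef_le n (Y 1 j)
  have b0 := sq_nonneg ‖W.coef n (Y 0 j)‖
  have b1 := sq_nonneg ‖W.coef n (Y 1 j)‖
  have c0 : ‖W.coef n (Y 0 j)‖ ^ 2 = 0 := by linarith
  have c1 : ‖W.coef n (Y 1 j)‖ ^ 2 = 0 := by linarith
  rw [Matrix.zero_apply, map_zero]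
  fin_cases i
  · simpa using c0
  · simpa using c1

lemma iw1_inj {Ψ : MW} (h : Ψ.det = 1) {X : MW} (hX : toep (st Ψ * Ψ) X = 0) : X = 0 := by
  have hm : prj (Iio 0) X = 0 := by rw [← iw1_m_toep (st Ψ * Ψ), hX, map_zero]
  have hp : prj (Ici 0) X = X := by
    have := iw1_add X
    rwa [hm, add_zero] at this
  have hP : prj (Ici 0) (st Ψ * Ψ * X) = 0 := by
    have := iw1_p_toep (st Ψ * Ψ) X
    rw [hX, map_zero, hp] at this
    exact this.symm
  have g : MGE 0 X := fun i j n hn => by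
    have := congrArg (fun M : MW => W.coef n (M i j)) hm
    simpa [W.coef_proj, hn] using this
  have l : MLE (-1) (st Ψ * Ψ * X) := fun i j n hn => by
    have := congrArg (fun M : MW => W.coef n (M i j)) hP
    have hn' : 0 ≤ n := by omega
    simpa only [prj_apply, W.coef_proj, mem_Ici, hn', if_true, Matrix.zero_apply, map_zero]
      using this
  have l0 : MLE 0 (st X) := MLE_st.2 (by simpa using g)
  have l1 := MLE_iff.1 (l0.mul l) 0 (by norm_num)
  have e : st X * (st Ψ * Ψ * X) = st (Ψ * X) * (Ψ * X) := by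
    rw [st_mul]; simp only [mul_assoc]
  rw [e] at l1
  have y := iw1_sq_zero l1
  calc X = adj Ψ * (Ψ * X) := by rw [← mul_assoc, adj_mul_of_det h, one_mul]
    _ = 0 := by rw [y, mul_zero]

lemma iw1_single (i j : Fin 2) : Continuous fun w : W => (Matrix.single i j w : MW) := by
  refine continuous_matrix fun a b => ?_
  simp only [Matrix.single_apply]
  split_ifs
  · exact continuous_id
  · exact continuous_const

lemma iw1_compact (P : MW) :
    IsCompactOperator fun X : MW => prj (Ici 0) (P * prj (Iio 0) X) := by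
  have H : ∀ i j k : Fin 2, IsCompactOperator fun X : MW =>
      (Matrix.single i j (W.proj (Ici 0) (P i k * W.proj (Iio 0) (X k j))) : MW) := fun i j k =>
    ((W.isCompactOperator_hankel (P i k)).comp_clm (entW k j)).continuous_comp (iw1_single i j)
  have := ((((H 0 0 0).add (H 0 0 1)).add ((H 0 1 0).add (H 0 1 1))).add
    ((H 1 0 0).add (H 1 0 1))).add ((H 1 1 0).add (H 1 1 1))
  refine (congrArg (fun f : MW → MW => IsCompactOperator f) ?_).mpr this
  funext X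
  refine Matrix.ext fun a b => ?_
  rw [prj_apply, matApi2_mulW, map_add]
  fin_cases a <;> fin_cases b <;> simp

theorem isUnit_toep {Φ : MW} (h : Φ.det = 1) : IsUnit (toep (st Φ * Φ)) := by
  set Ψ : MW := st (adj Φ) with hΨ
  have hd : Ψ.det = 1 := by rw [hΨ, det_st, det_adj, h, W.cj_one, W.rev_one]
  have hPQ : st Φ * Φ * (st Ψ * Ψ) = 1 := by
    rw [hΨ, st_st, mul_assoc, ← mul_assoc Φ, mul_adj_of_det h, one_mul, ← st_mul,
      adj_mul_of_det h, st_one]
  set P := st Φ * Φ with hP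
  set Q := st Ψ * Ψ with hQ
  let K : MW →L[ℂ] MW := ((prj (Ici 0)).comp ((ContinuousLinearMap.mul ℂ MW P).comp
    (prj (Iio 0)))).comp ((ContinuousLinearMap.mul ℂ MW Q).comp (prj (Ici 0)))
  have hK : IsCompactOperator K :=
    (iw1_compact P).comp_clm ((ContinuousLinearMap.mul ℂ MW Q).comp (prj (Ici 0)))
  have key : ∀ X, toep P (toep Q X) = X - K X := by
    intro X
    change _ = X - prj (Ici 0) (P * prj (Iio 0) (Q * prj (Ici 0) X))
    rw [iw1_toep P, iw1_p_toep, iw1_m_toep, eq_sub_iff_add_eq, add_right_comm, ← map_add,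
      ← mul_add, iw1_add, ← mul_assoc, hPQ, one_mul, iw1_pp, iw1_add]
  have hinj : Function.Injective (toep P) :=
    (injective_iff_map_eq_zero _).2 fun X hX => iw1_inj h hX
  rcases hK.hasEigenvalue_or_mem_resolventSet (μ := 1) one_ne_zero with he | hr
  · obtain ⟨X, hX, hX0⟩ := he.exists_hasEigenvector
    have h1 : K X = X := by simpa using Module.End.mem_eigenspace_iff.1 hX
    have h2 : toep P (toep Q X) = 0 := by rw [key, h1, sub_self]
    exact absurd (iw1_inj hd (iw1_inj h h2)) hX0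
  · have hu : IsUnit (algebraMap ℂ (MW →L[ℂ] MW) 1 - K) := hr
    rw [map_one] at hu
    refine ContinuousLinearMap.isUnit_iff_bijective.2 ⟨hinj, fun Y => ?_⟩
    obtain ⟨X, hX⟩ := (ContinuousLinearMap.isUnit_iff_bijective.1 hu).2 Y
    exact ⟨toep Q X, by rw [key]; exact hX⟩

end Pool.Agent.MP_efb2da_gt

end
end

section

open Set Complex
open scoped Topology ComplexConjugate Matrix ContDiff

noncomputable section

namespace Pool.Agent.MP_efb2da_gt

open Classical in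
lemma Iw2_cf_prj (S : Set ℤ) (n : ℤ) (M : MW) :
    cf n (prj S M) = if n ∈ S then cf n M else 0 := by
  ext i j
  rw [cf_apply, prj_apply, W.coef_proj]
  split_ifs <;> simp

lemma Iw2_cf_one (n : ℤ) : cf n 1 = if n = 0 then 1 else 0 := by
  rw [← cst_one, cf_cst]

lemma Iw2_ct_one : ct 1 = 1 := by rw [ct_eq, Matrix.conjTranspose_one]

lemma Iw2_cjC_one : cjC 1 = 1 := by
  ext i j
  rw [cjC_apply, Matrix.one_apply]
  split_ifs <;> simp

lemma Iw2_toep_apply (P X : MW) :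
    toep P X = prj (Ici 0) (P * prj (Ici 0) X) + prj (Iio 0) X := rfl

lemma Iw2_toep_Xi0 {Φ : MW} (h : Φ.det = 1) : toep (st Φ * Φ) (Xi0 (st Φ) Φ) = 1 := by
  have := Ring.mul_inverse_cancel _ (isUnit_toep h)
  exact congrArg (fun f : MW →L[ℂ] MW => f 1) this

lemma Iw2_X_pos {Φ : MW} (h : Φ.det = 1) : MGE 0 (Xi0 (st Φ) Φ) := by
  rw [MGE_iff]
  intro n hn
  have := congrArg (cf n) (Iw2_toep_Xi0 h)
  rw [Iw2_toep_apply, map_add, Iw2_cf_prj, Iw2_cf_prj, Iw2_cf_one, if_neg (by simpa using hn),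
    if_pos (by simpa using hn), if_neg hn.ne, zero_add] at this
  exact this

lemma Iw2_prj_of_MGE {X : MW} (hX : MGE 0 X) : prj (Ici 0) X = X := by
  refine MW_ext fun n => ?_
  rw [Iw2_cf_prj]
  split_ifs with hn
  · rfl
  · exact (MGE_iff.1 hX n (by simpa using hn)).symm

lemma Iw2_cf_PX {Φ : MW} (h : Φ.det = 1) {n : ℤ} (hn : 0 ≤ n) :
    cf n (st Φ * Φ * Xi0 (st Φ) Φ) = if n = 0 then 1 else 0 := by
  have := congrArg (cf n) (Iw2_toep_Xi0 h)
  rw [Iw2_toep_apply, map_add, Iw2_cf_prj, Iw2_cf_prj, Iw2_cf_one, if_pos (by simpa using hn),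
    if_neg (by simpa using hn), add_zero, Iw2_prj_of_MGE (Iw2_X_pos h)] at this
  exact this

lemma Iw2_PX_neg {Φ : MW} (h : Φ.det = 1) : MLE 0 (st Φ * Φ * Xi0 (st Φ) Φ) := by
  rw [MLE_iff]
  intro n hn
  rw [Iw2_cf_PX h hn.le, if_neg hn.ne']

lemma Iw2_LE_det {M : MW} (hM : MLE 0 M) :
    W.LE 0 M.det ∧ W.coef 0 M.det = (cf 0 M).det := by
  have h1 := (hM 0 0).mul (hM 1 1)
  have h2 := (hM 0 1).mul (hM 1 0)
  have h3 := (hM 0 0).coef_mul (hM 1 1)
  have h4 := (hM 0 1).coef_mul (hM 1 0)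
  rw [add_zero] at h1 h2 h3 h4
  rw [Matrix.det_fin_two, Matrix.det_fin_two]
  refine ⟨?_, ?_⟩
  · rw [sub_eq_add_neg]; exact h1.add h2.neg
  · rw [map_sub, h3, h4]; rfl

lemma Iw2_det_X {Φ : MW} (h : Φ.det = 1) : (Xi0 (st Φ) Φ).det = 1 := by
  have e : (st Φ * Φ * Xi0 (st Φ) Φ).det = (Xi0 (st Φ) Φ).det := by
    rw [Matrix.det_mul, Matrix.det_mul, det_st, h]; simp
  obtain ⟨h1, h2⟩ := Iw2_LE_det (Iw2_PX_neg h)
  have h3 := (Iw2_X_pos h).det
  rw [add_zero] at h3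
  rw [e] at h1 h2
  rw [Iw2_cf_PX h le_rfl, if_pos rfl, Matrix.det_one] at h2
  rw [W.eq_const h3 h1, h2, map_one]

lemma Iw2_det_F0 {Φ : MW} (h : Φ.det = 1) : (J0 (Φ * Xi0 (st Φ) Φ)).det = 1 := by
  rw [det_J0, Matrix.det_mul, h, Iw2_det_X h, one_mul, W.j0_one]

lemma Iw2_isUnitC {M : MC} (h : M.det = 1) : IsUnit M :=
  ⟨⟨M, adjC M, mul_adjC_of_det h, adjC_mul_of_det h⟩, rfl⟩

lemma Iw2_inverseC {M : MC} (h : M.det = 1) : Ring.inverse M = adjC M := by
  have := Ring.inverse_mul_cancel M (Iw2_isUnitC h)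
  calc Ring.inverse M = Ring.inverse M * (M * adjC M) := by rw [mul_adjC_of_det h, mul_one]
    _ = adjC M := by rw [← mul_assoc, this, one_mul]

lemma Iw2_det_adjC {M : MC} (h : M.det = 1) : (adjC M).det = 1 := by
  have := congrArg Matrix.det (mul_adjC_of_det h)
  rwa [Matrix.det_mul, h, one_mul, Matrix.det_one] at this

lemma Iw2_Bi_eq {Φ : MW} (h : Φ.det = 1) :
    Bi Φ = Xi0 (st Φ) Φ * cst (adjC (J0 (Φ * Xi0 (st Φ) Φ))) := by
  rw [← Iw2_inverseC (Iw2_det_F0 h)]; rfl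

lemma Iw2_Uf_eq {Φ : MW} (h : Φ.det = 1) :
    Uf Φ = Φ * Xi0 (st Φ) Φ * cst (adjC (J0 (Φ * Xi0 (st Φ) Φ))) := by
  rw [Uf, Iw2_Bi_eq h, mul_assoc]

lemma Iw2_FF {Φ : MW} (h : Φ.det = 1) :
    st (Φ * Xi0 (st Φ) Φ) * (Φ * Xi0 (st Φ) Φ) =
      cst (ct (J0 (Φ * Xi0 (st Φ) Φ)) * J0 (Φ * Xi0 (st Φ) Φ)) := by
  set X := Xi0 (st Φ) Φ with hX
  have h1 : MLE 0 (st (Φ * X) * (Φ * X)) := by
    have e : st (Φ * X) * (Φ * X) = st X * (st Φ * Φ * X) := by
      rw [st_mul]; simp only [mul_assoc]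
    have := (MLE_st.2 (by simpa using Iw2_X_pos h) : MLE 0 (st X)).mul (Iw2_PX_neg h)
    rw [add_zero] at this
    rw [e]; exact this
  have h2 : MGE 0 (st (Φ * X) * (Φ * X)) := by
    have e : st (st (Φ * X) * (Φ * X)) = st (Φ * X) * (Φ * X) := by
      rw [st_mul (st (Φ * X)), st_st]
    rw [← e]
    exact MGE_st.2 (by simpa using h1)
  have h3 := eq_cst h2 h1
  have h4 := congrArg J0 h3
  rw [J0_mul, J0_st, J0_cst] at h4
  rw [h4]; exact h3

theorem isUnit_J0 {Φ : MW} (h : Φ.det = 1) : IsUnit (J0 (Φ * Xi0 (st Φ) Φ)) :=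
  Iw2_isUnitC (Iw2_det_F0 h)

theorem Uf_unitary {Φ : MW} (h : Φ.det = 1) : st (Uf Φ) * Uf Φ = 1 := by
  have hF := Iw2_FF h
  have hd := Iw2_det_F0 h
  rw [Iw2_Uf_eq h]
  set F := Φ * Xi0 (st Φ) Φ
  set F0 := J0 F
  have e : st (F * cst (adjC F0)) * (F * cst (adjC F0)) =
      cst (ct (adjC F0)) * (st F * F) * cst (adjC F0) := by
    rw [st_mul, st_cst]; simp only [mul_assoc]
  rw [e, hF, ← cst_mul, ← cst_mul, ← mul_assoc, ← ct_mul, mul_adjC_of_det hd, Iw2_ct_one, one_mul,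
    mul_adjC_of_det hd, cst_one]

theorem J0_Uf {Φ : MW} (h : Φ.det = 1) : J0 (Uf Φ) = 1 := by
  rw [Iw2_Uf_eq h, J0_mul, J0_cst, mul_adjC_of_det (Iw2_det_F0 h)]

theorem Bi_pos {Φ : MW} (h : Φ.det = 1) : MGE 0 (Bi Φ) := by
  have := (Iw2_X_pos h).mul (MGE_cst (adjC (J0 (Φ * Xi0 (st Φ) Φ))))
  rw [add_zero] at this
  rw [Iw2_Bi_eq h]; exact this

theorem det_Bi {Φ : MW} (h : Φ.det = 1) : (Bi Φ).det = 1 := by
  rw [Iw2_Bi_eq h, Matrix.det_mul, Iw2_det_X h, det_cst, Iw2_det_adjC (Iw2_det_F0 h), map_one,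
    one_mul]

theorem det_Uf {Φ : MW} (h : Φ.det = 1) : (Uf Φ).det = 1 := by
  rw [Uf, Matrix.det_mul, h, det_Bi h, one_mul]

theorem Bm_pos {Φ : MW} (h : Φ.det = 1) : MGE 0 (Bm Φ) := (Bi_pos h).adj

theorem det_Bm {Φ : MW} (h : Φ.det = 1) : (Bm Φ).det = 1 := by
  rw [Bm, det_adj, det_Bi h]

theorem Bm_mul_Bi {Φ : MW} (h : Φ.det = 1) : Bm Φ * Bi Φ = 1 := adj_mul_of_det (det_Bi h)
theorem Bi_mul_Bm {Φ : MW} (h : Φ.det = 1) : Bi Φ * Bm Φ = 1 := mul_adj_of_det (det_Bi h)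
theorem adj_Bm (Φ : MW) : adj (Bm Φ) = Bi Φ := adj_adj _

theorem Uf_mul_Bm {Φ : MW} (h : Φ.det = 1) : Uf Φ * Bm Φ = Φ := by
  rw [Uf, mul_assoc, Bi_mul_Bm h, mul_one]

lemma Iw2_st_eq_adj {U : MW} (hU : st U * U = 1) (hdU : U.det = 1) : st U = adj U := by
  calc st U = st U * (U * adj U) := by rw [mul_adj_of_det hdU, mul_one]
    _ = adj U := by rw [← mul_assoc, hU, one_mul]

theorem st_Uf {Φ : MW} (h : Φ.det = 1) : st (Uf Φ) = adj (Uf Φ) :=
  Iw2_st_eq_adj (Uf_unitary h) (det_Uf h)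

theorem iw_unique {U B : MW} (hU : st U * U = 1) (hdU : U.det = 1) (h0 : J0 U = 1) (hB : MGE 0 B)
    (hdB : B.det = 1) : Uf (U * B) = U ∧ Bm (U * B) = B := by
  have h : (U * B).det = 1 := by rw [Matrix.det_mul, hdU, hdB, one_mul]
  have e1 : adj U * Uf (U * B) = B * Bi (U * B) := by
    rw [Uf, ← mul_assoc, ← mul_assoc, adj_mul_of_det hdU, one_mul]
  have hV : MGE 0 (adj U * Uf (U * B)) := by
    have := hB.mul (Bi_pos h)
    rw [add_zero] at this
    rw [e1]; exact this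
  have e2 : st (adj U * Uf (U * B)) = adj (adj U * Uf (U * B)) := by
    rw [st_mul, adj_mul, adj_adj, st_Uf h, ← Iw2_st_eq_adj hU hdU, st_st]
  have hV' : MLE 0 (adj U * Uf (U * B)) := by
    have : MGE 0 (st (adj U * Uf (U * B))) := by rw [e2]; exact hV.adj
    simpa using MGE_st.1 this
  have h3 := eq_cst hV hV'
  have h4 := congrArg J0 h3
  rw [J0_mul, J0_adj, h0, J0_Uf h, J0_cst, adjC_one, one_mul] at h4
  rw [← h4, cst_one] at h3
  refine ⟨?_, ?_⟩
  · calc Uf (U * B) = U * adj U * Uf (U * B) := by rw [mul_adj_of_det hdU, one_mul]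
      _ = U := by rw [mul_assoc, h3, mul_one]
  · rw [e1] at h3
    rw [Bm, eq_adj_of_mul hdB h3, adj_adj]

theorem iw_gauge {Φ M g : MW} (h : Φ.det = 1) (hM : st M * M = 1) (hdM : M.det = 1) (hg : MGE 0 g)
    (hdg : g.det = 1) : Uf (M * Φ * g) = M * Uf Φ * cst (adjC (J0 M)) ∧
      Bm (M * Φ * g) = cst (J0 M) * Bm Φ * g := by
  have d0 : (J0 M).det = 1 := by rw [det_J0, hdM, W.j0_one]
  have c0 : ct (adjC (J0 M)) = J0 M := by
    rw [← J0_adj, ← Iw2_st_eq_adj hM hdM, J0_st, ct_ct]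
  have e : M * Φ * g = (M * Uf Φ * cst (adjC (J0 M))) * (cst (J0 M) * Bm Φ * g) := by
    calc M * Φ * g = M * (Uf Φ * (cst (adjC (J0 M) * J0 M)) * Bm Φ) * g := by
          rw [adjC_mul_of_det d0, cst_one, mul_one, Uf_mul_Bm h]
      _ = _ := by rw [cst_mul]; simp only [mul_assoc]
  rw [e]
  refine iw_unique ?_ ?_ ?_ (MGE.conj (MGE_cst _) (Bm_pos h) hg) ?_
  · calc st (M * Uf Φ * cst (adjC (J0 M))) * (M * Uf Φ * cst (adjC (J0 M)))
        = cst (J0 M) * (st (Uf Φ) * (st M * M) * Uf Φ) * cst (adjC (J0 M)) := by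
          rw [st_mul, st_mul, st_cst, c0]; simp only [mul_assoc]
      _ = 1 := by
          rw [hM, mul_one, Uf_unitary h, mul_one, ← cst_mul, mul_adjC_of_det d0, cst_one]
  · rw [Matrix.det_mul, Matrix.det_mul, hdM, det_Uf h, det_cst, Iw2_det_adjC d0, map_one]; simp
  · rw [J0_mul, J0_mul, J0_Uf h, J0_cst, mul_one, mul_adjC_of_det d0]
  · rw [Matrix.det_mul, Matrix.det_mul, det_cst, d0, det_Bm h, hdg, map_one]; simp

lemma Iw2_sharp {Φ : MW} (h : Φ.det = 1) :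
    Uf (sharp Φ) = sharp (Uf Φ) ∧ Bm (sharp Φ) = sharp (Bm Φ) := by
  have e : sharp Φ = sharp (Uf Φ) * sharp (Bm Φ) := by rw [← sharp_mul, Uf_mul_Bm h]
  rw [e]
  refine iw_unique ?_ ?_ ?_ (Bm_pos h).sharp ?_
  · rw [st_sharp, ← sharp_mul, Uf_unitary h, sharp_one]
  · rw [det_sharp, det_Uf h, W.cj_one]
  · rw [J0_sharp, J0_Uf h, Iw2_cjC_one]
  · rw [det_sharp, det_Bm h, W.cj_one]

theorem Uf_sharp {Φ : MW} (h : Φ.det = 1) : Uf (sharp Φ) = sharp (Uf Φ) := (Iw2_sharp h).1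
theorem Bm_sharp {Φ : MW} (h : Φ.det = 1) : Bm (sharp Φ) = sharp (Bm Φ) := (Iw2_sharp h).2
theorem Bi_sharp {Φ : MW} (h : Φ.det = 1) : Bi (sharp Φ) = sharp (Bi Φ) := by
  rw [← adj_Bm, Bm_sharp h, ← sharp_adj, adj_Bm]

lemma Iw2_s1_sq : s1 * s1 = 1 := by
  ext i j; fin_cases i <;> fin_cases j <;> simp [s1, Matrix.mul_apply, Fin.sum_univ_two]

lemma Iw2_st_sw (M : MW) : st (sw M) = sw (st M) := by
  ext i j; fin_cases i <;> fin_cases j <;> simp [sw_apply]

theorem Uf_sw {Φ : MW} (h : Φ.det = 1) : Uf (sw Φ) = sw (Uf Φ) := by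
  have e : sw Φ = sw (Uf Φ) * sw (Bm Φ) := by rw [← sw_mul, Uf_mul_Bm h]
  rw [e]
  refine (iw_unique ?_ ?_ ?_ (Bm_pos h).sw ?_).1
  · rw [Iw2_st_sw, ← sw_mul, Uf_unitary h, sw_one]
  · rw [det_sw, det_Uf h]
  · rw [sw_eq, J0_mul, J0_mul, J0_cst, J0_Uf h, mul_one, Iw2_s1_sq]
  · rw [det_sw, det_Bm h]

lemma Iw2_one : Uf 1 = 1 ∧ Bm 1 = 1 := by
  have := iw_unique (U := 1) (B := 1) (by simp) Matrix.det_one J0_one MGE_one Matrix.det_one
  rwa [one_mul] at this

theorem Uf_one : Uf 1 = 1 := Iw2_one.1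
theorem Bm_one : Bm 1 = 1 := Iw2_one.2
theorem Bi_one : Bi 1 = 1 := by rw [← adj_Bm, Bm_one, adj_one]

theorem symM_herm {Φ : MW} (h : Φ.det = 1) : ct (symM Φ) = symM Φ := by
  have := congrArg J1 (Uf_unitary h)
  rw [J1_mul, J1_st, J0_st, J0_Uf h, Iw2_ct_one, mul_one, one_mul, J1_one, neg_add_eq_zero] at this
  exact this

theorem symM_tr {Φ : MW} (h : Φ.det = 1) : trC (symM Φ) = 0 := by
  have := congrArg J1 (mul_adj_of_det (det_Uf h))
  rw [J1_mul, J0_adj, J1_adj, J0_Uf h, adjC_one, mul_one, one_mul, J1_one] at this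
  have h2 := congrFun (congrFun this 0) 0
  rw [Matrix.add_apply, adjC_apply] at h2
  rw [trC_apply]
  exact h2

theorem symM_sharp {Φ : MW} (h : Φ.det = 1) : symM (sharp Φ) = cjC (symM Φ) := by
  rw [symM, Uf_sharp h, J1_sharp, symM]

theorem symM_sw {Φ : MW} (h : Φ.det = 1) : symM (sw Φ) = s1 * symM Φ * s1 := by
  rw [symM, Uf_sw h, sw_eq, J1_mul, J1_mul, J1_cst, J0_cst, zero_mul, mul_zero, zero_add, add_zero,
    symM]

theorem symM_gauge {Φ g : MW} (h : Φ.det = 1) (hg : MGE 0 g) (hdg : g.det = 1) :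
    symM (Φ * g) = symM Φ := by
  have := (iw_gauge (M := 1) h (by simp) Matrix.det_one hg hdg).1
  rw [one_mul, one_mul, J0_one, adjC_one, cst_one, mul_one] at this
  rw [symM, this, symM]

lemma Iw2_contDiff_toep : ContDiff ℂ ∞ toep :=
  (contDiff_const.clm_comp
    ((ContinuousLinearMap.mul ℂ MW).contDiff.clm_comp contDiff_const)).add contDiff_const

lemma Iw2_inv_contDiffAt {R : Type} [NormedRing R] [NormedAlgebra ℂ R] [CompleteSpace R] {a : R}
    (ha : IsUnit a) : ContDiffAt ℂ ∞ Ring.inverse a := by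
  obtain ⟨u, rfl⟩ := ha
  exact contDiffAt_ringInverse ℂ u

lemma Iw2_xi0_contDiffAt {Φ : MW} (h : Φ.det = 1) :
    ContDiffAt ℂ ∞ (fun x : MW × MW => Xi0 x.1 x.2) (st Φ, Φ) := by
  have h1 : ContDiffAt ℂ ∞ (fun x : MW × MW => toep (x.1 * x.2)) (st Φ, Φ) :=
    Iw2_contDiff_toep.contDiffAt.comp _ (contDiffAt_fst.mul contDiffAt_snd)
  have h2 : ContDiffAt ℂ ∞ (fun x : MW × MW => Ring.inverse (toep (x.1 * x.2))) (st Φ, Φ) :=
    ContDiffAt.comp (g := Ring.inverse) (st Φ, Φ)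
      (Iw2_inv_contDiffAt (R := MW →L[ℂ] MW) (isUnit_toep h)) h1
  exact h2.clm_apply contDiffAt_const

theorem binv_contDiffAt {Φ : MW} (h : Φ.det = 1) :
    ContDiffAt ℂ ∞ (fun x : MW × MW => Binv x.1 x.2) (st Φ, Φ) := by
  have h1 := Iw2_xi0_contDiffAt h
  have h2 : ContDiffAt ℂ ∞ (fun x : MW × MW => J0 (x.2 * Xi0 x.1 x.2)) (st Φ, Φ) :=
    J0.contDiff.contDiffAt.comp _ (contDiffAt_snd.mul h1)
  have h3 : ContDiffAt ℂ ∞ (fun x : MW × MW => Ring.inverse (J0 (x.2 * Xi0 x.1 x.2))) (st Φ, Φ) :=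
    ContDiffAt.comp (g := Ring.inverse) (st Φ, Φ) (Iw2_inv_contDiffAt (isUnit_J0 h)) h2
  exact h1.mul (cst.contDiff.contDiffAt.comp _ h3)

theorem binv_near {Φ : MW} (h : Φ.det = 1) : ∀ᶠ x in 𝓝 (st Φ, Φ),
    DifferentiableAt ℂ (fun x : MW × MW => Binv x.1 x.2) x := by
  have h1 : ContDiffAt ℂ 1 (fun x : MW × MW => Binv x.1 x.2) (st Φ, Φ) :=
    (binv_contDiffAt h).of_le (by exact_mod_cast le_top)
  exact (h1.eventually (by simp)).mono fun y hy => hy.differentiableAt (by simp)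

theorem contDiffAt_Bi {Φ : MW} (h : Φ.det = 1) : ContDiffAt ℝ ∞ Bi Φ := by
  have h1 : ContDiffAt ℝ ∞ (fun x : MW × MW => Binv x.1 x.2) (st Φ, Φ) :=
    (binv_contDiffAt h).restrict_scalars ℝ
  have h2 : ContDiffAt ℝ ∞ (fun y : MW => (st y, y)) Φ :=
    st.contDiff.contDiffAt.prodMk contDiffAt_id
  have h3 := ContDiffAt.comp (g := fun x : MW × MW => Binv x.1 x.2) (f := fun y : MW => (st y, y))
    Φ h1 h2
  exact h3

theorem contDiffAt_Bm {Φ : MW} (h : Φ.det = 1) : ContDiffAt ℝ ∞ Bm Φ :=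
  (adj.restrictScalars ℝ).contDiff.contDiffAt.comp Φ (contDiffAt_Bi h)

theorem contDiffAt_Uf {Φ : MW} (h : Φ.det = 1) : ContDiffAt ℝ ∞ Uf Φ :=
  contDiffAt_id.mul (contDiffAt_Bi h)

theorem contDiffAt_symM {Φ : MW} (h : Φ.det = 1) : ContDiffAt ℝ ∞ symM Φ :=
  (J1.restrictScalars ℝ).contDiff.contDiffAt.comp Φ (contDiffAt_Uf h)

end Pool.Agent.MP_efb2da_gt

end
end

section

open Set Complex
open scoped Topology ComplexConjugate Matrix ContDiff

noncomputable section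

namespace Pool.Agent.MP_efb2da_gt

lemma HolMat_alg (P x : MW) :
    (P * x) 0 0 * P 1 1 + P 0 0 * (P * x) 1 1 - ((P * x) 0 1 * P 1 0 + P 0 1 * (P * x) 1 0) =
      P.det * trW x := by
  simp only [Matrix.mul_apply, Fin.sum_univ_two, Matrix.det_fin_two, trW_apply]
  ring

lemma HolMat_det_real {φ : ℝ → MW} {x : MW} {r : ℝ} {s : Set ℝ}
    (h : HasDerivWithinAt φ (φ r * x) s r) :
    HasDerivWithinAt (fun z => (φ z).det) ((φ r).det * trW x) s r := by
  have e : ∀ i j, HasDerivWithinAt (fun z => φ z i j) ((φ r * x) i j) s r := fun i j =>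
    ((entW i j).restrictScalars ℝ).hasFDerivAt.comp_hasDerivWithinAt r h
  have := ((e 0 0).mul (e 1 1)).sub ((e 0 1).mul (e 1 0))
  rw [← HolMat_alg]
  simp only [Matrix.det_fin_two]
  exact this

theorem det_Hol {a : ℝ → MW} (ha : ContinuousOn a (Icc 0 1)) (ht : ∀ r ∈ Icc (0:ℝ) 1, trW (a r) = 0) :
    ∀ r ∈ Icc (0:ℝ) 1, (Hol a r).det = 1 := by
  have hd : ∀ r ∈ Icc (0:ℝ) 1, HasDerivWithinAt (fun z => (Hol a z).det) 0 (Icc 0 1) r := by
    intro r hr
    have := HolMat_det_real (Hol_isSol ha r hr)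
    rwa [ht r hr, mul_zero] at this
  intro r hr
  have := constant_of_has_deriv_right_zero (f := fun z => (Hol a z).det) (a := 0) (b := 1)
    (fun r hr => (hd r hr).continuousWithinAt)
    (fun r hr => (hd r (Ico_subset_Icc_self hr)).mono_of_mem_nhdsWithin
      (Icc_mem_nhdsGE_of_mem hr)) r hr
  rw [this, Hol_zero, Matrix.det_one]

theorem Hol_MGE {a : ℝ → MW} (ha : ContinuousOn a (Icc 0 1)) (ht : ∀ r ∈ Icc (0:ℝ) 1, MGE 0 (a r)) :
    ∀ r ∈ Icc (0:ℝ) 1, MGE 0 (Hol a r) := by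
  obtain ⟨B, hB, hm⟩ := exists_posAlg
  intro r hr
  exact (hm _).1 (Hol_mem ha B hB (fun s hs => (hm _).2 (ht s hs)) r hr)

theorem sharp_Hol {a : ℝ → MW} (ha : ContinuousOn a (Icc 0 1))
    (ht : ∀ r ∈ Icc (0:ℝ) 1, sharp (a r) = a r) : ∀ r ∈ Icc (0:ℝ) 1, sharp (Hol a r) = Hol a r := by
  intro r hr
  rw [Hol_map sharp sharp_one sharp_mul ha r hr]
  exact (Hol_congr ha (fun s hs => (ht s hs).symm) r hr).symm

theorem sharp_Hol_rev {a : ℝ → MW} (ha : ContinuousOn a (Icc 0 1))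
    (ht : ∀ r ∈ Icc (0:ℝ) 1, trW (a r) = 0) (hs : ∀ r ∈ Icc (0:ℝ) 1, sharp (a r) = -a (1 - r)) :
    sharp (Hol a 1) = adj (Hol a 1) ∧ sharp (Hol a (1/2)) = adj (Hol a 1) * Hol a (1/2) := by
  have h1 : (1:ℝ) ∈ Icc (0:ℝ) 1 := right_mem_Icc.2 zero_le_one
  have h2 : (1/2:ℝ) ∈ Icc (0:ℝ) 1 := ⟨by norm_num, by norm_num⟩
  have hd := det_Hol ha ht 1 h1
  have e1 := Hol_rev sharp sharp_one sharp_mul ha hs 1 h1
  have e2 := Hol_rev sharp sharp_one sharp_mul ha hs (1/2) h2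
  rw [sub_self, Hol_zero] at e1
  rw [show (1:ℝ) - 1/2 = 1/2 by norm_num] at e2
  refine ⟨eq_adj_of_mul hd e1, ?_⟩
  calc sharp (Hol a (1/2)) = adj (Hol a 1) * (Hol a 1 * sharp (Hol a (1/2))) := by
        rw [← mul_assoc, adj_mul_of_det hd, one_mul]
    _ = adj (Hol a 1) * Hol a (1/2) := by rw [e2]

theorem sw_Hol_rev {a : ℝ → MW} (ha : ContinuousOn a (Icc 0 1))
    (ht : ∀ r ∈ Icc (0:ℝ) 1, trW (a r) = 0) (hs : ∀ r ∈ Icc (0:ℝ) 1, sw (a r) = -a (1 - r)) :
    sw (Hol a 1) = adj (Hol a 1) := by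
  have h1 : (1:ℝ) ∈ Icc (0:ℝ) 1 := right_mem_Icc.2 zero_le_one
  have hd := det_Hol ha ht 1 h1
  have e1 := Hol_rev (sw.restrictScalars ℝ) sw_one sw_mul ha hs 1 h1
  rw [sub_self, Hol_zero] at e1
  exact eq_adj_of_mul hd e1

theorem hasDerivAt_det {Φ : ℂ → MW} {x : MW} {z : ℂ} (h : HasDerivAt Φ (Φ z * x) z) :
    HasDerivAt (fun z => (Φ z).det) ((Φ z).det * trW x) z := by
  have e : ∀ i j, HasDerivAt (fun w => Φ w i j) ((Φ z * x) i j) z := fun i j =>
    (entW i j).hasFDerivAt.comp_hasDerivAt z h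
  have := ((e 0 0).mul (e 1 1)).sub ((e 0 1).mul (e 1 0))
  rw [← HolMat_alg]
  simp only [Matrix.det_fin_two]
  exact this

theorem frame_det {O : Set ℂ} (hO : IsOpen O) (hc : IsPreconnected O) {Φ ξ : ℂ → MW}
    (h : ∀ z ∈ O, HasDerivAt Φ (Φ z * ξ z) z) (ht : ∀ z ∈ O, trW (ξ z) = 0) {w : ℂ} (hw : w ∈ O)
    (h1 : (Φ w).det = 1) : ∀ z ∈ O, (Φ z).det = 1 := by
  intro z hz
  rw [← h1]
  refine const_of_deriv_zero (F := fun z => (Φ z).det) hO (fun u hu => ?_) hc Subset.rfl hz hw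
  have := hasDerivAt_det (h u hu)
  rwa [ht u hu, mul_zero] at this

/-- the conjugate frame -/
theorem hasDerivAt_sharp_conj {Φ : ℂ → MW} {D : MW} {z : ℂ} (h : HasDerivAt Φ D (conj z)) :
    HasDerivAt (fun w => sharp (Φ (conj w))) (sharp D) z := by
  rw [hasDerivAt_iff_isLittleO] at h ⊢
  have hc : Filter.Tendsto (fun w : ℂ => conj w) (𝓝 z) (𝓝 (conj z)) :=
    continuous_conj.tendsto z
  have h2 := h.comp_tendsto hc
  refine Asymptotics.IsLittleO.of_norm_norm ?_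
  refine h2.norm_norm.congr (fun w => ?_) (fun w => ?_)
  · simp only [Function.comp]
    rw [← norm_sharp, map_sub, map_sub, sharp_smul, map_sub, conj_conj, conj_conj]
  · simp only [Function.comp]
    rw [← map_sub, Complex.norm_conj]

/-- two solutions differ by a constant left factor on a preconnected set -/
theorem frame_ratio {O S : Set ℂ} (hO : IsOpen O) {ξ Φ Ψ : ℂ → MW} (hξ : ContinuousOn ξ O)
    (hΦ : ∀ z ∈ O, HasDerivAt Φ (Φ z * ξ z) z) (hΨ : ∀ z ∈ O, HasDerivAt Ψ (Ψ z * ξ z) z)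
    (hS : IsPreconnected S) (hSO : S ⊆ O) {w : ℂ} (hw : w ∈ S) {L : MW} (he : Φ w = L * Ψ w) :
    ∀ z ∈ S, Φ z = L * Ψ z :=
  frame_unique (Ψ := fun z => L * Ψ z) hO hξ hΦ
    (fun z hz => by rw [mul_assoc]; exact (hΨ z hz).const_mul L) hS hSO hw he

end Pool.Agent.MP_efb2da_gt

end
end

section

open Set Complex
open scoped Topology ComplexConjugate Matrix ContDiff

noncomputable section

namespace Pool.Agent.MP_efb2da_gt

def nilM (κ : ℂ) (ψ : ℝ) : MC :=
  (κ / 2) • (sJ + (Real.sin ψ : ℂ) • s3 - (Real.cos ψ : ℂ) • s1)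

/-- Delaunay residue in the unitary frame -/
def zeta (e : ℝ) (a : MC) : MW :=
  cst ((e / 2 : ℂ) • s3) + mono (-1) a + mono 1 (trpC a) - cst (a + trpC a)

theorem mat_nilv (κ ψ : ℝ) : mat (nilv κ ψ) = nilM κ ψ := by
  ext i j
  fin_cases i <;> fin_cases j <;> simp [mat, nilv, nilM, s1, s3, sJ] <;> ring

theorem det_mat (v : Fin 3 → ℝ) : (mat v).det = (bil v v / 2 : ℝ) := by
  simp [mat, bil, s1, s3, sJ, Matrix.det_fin_two]
  ring

theorem tr_adj_mat (u v : Fin 3 → ℝ) : trC (adjC (mat u) * mat v) = (bil u v : ℝ) := by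
  simp [trC_apply, adjC_apply, mat, bil, s1, s3, sJ]
  ring

theorem mat_add (u v : Fin 3 → ℝ) : mat (u + v) = mat u + mat v := by
  simp only [mat, Pi.add_apply, ofReal_add, add_smul]
  abel

theorem mat_neg (u : Fin 3 → ℝ) : mat (-u) = -mat u := by
  simp only [mat, Pi.neg_apply, ofReal_neg, neg_smul]
  abel

theorem det_nilM (κ : ℂ) (ψ : ℝ) : (nilM κ ψ).det = 0 := by
  have h : (Complex.sin ψ) ^ 2 + (Complex.cos ψ) ^ 2 = 1 := Complex.sin_sq_add_cos_sq _
  simp [nilM, s1, s3, sJ, Matrix.det_fin_two]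
  linear_combination (-(κ / 2) ^ 2) * h

theorem cf_zeta (e : ℝ) (a : MC) : cf (-1) (zeta e a) = a := by
  simp [zeta, cf_mono, cf_cst]

theorem zeta_ge (e : ℝ) (a : MC) : MGE (-1) (zeta e a) :=
  ((((MGE_cst _).weaken (by norm_num)).add (MGE_mono (-1) a)).add
    ((MGE_mono 1 _).weaken (by norm_num))).sub ((MGE_cst _).weaken (by norm_num))

theorem Lax_cf_zero (e : ℝ) (a : MC) : cf 0 (zeta e a) = (e / 2 : ℂ) • s3 - (a + trpC a) := by
  simp only [zeta, map_add, map_sub, cf_mono, cf_cst]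
  simp

theorem coef_det_zeta {e : ℝ} (he : e = 1 ∨ e = -1) (ρ ψ : ℝ) :
    W.coef (-1) (zeta e (nilM (e * ρ : ℝ) ψ)).det = (ρ ^ 2 - ρ * Real.sin ψ / 2 : ℝ) := by
  have h : (Complex.sin ψ) ^ 2 + (Complex.cos ψ) ^ 2 = 1 := Complex.sin_sq_add_cos_sq _
  have hg := zeta_ge e (nilM (e * ρ : ℝ) ψ)
  have h1 := W.GE.coef_mul_succ (hg 0 0) (hg 1 1)
  have h2 := W.GE.coef_mul_succ (hg 0 1) (hg 1 0)
  have e1 : (-1 + -1 + 1 : ℤ) = -1 := by norm_num
  have e2 : (-1 + 1 : ℤ) = 0 := by norm_num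
  rw [e1, e2] at h1 h2
  rw [Matrix.det_fin_two, map_sub, h1, h2]
  simp only [← cf_apply, cf_zeta, Lax_cf_zero]
  rcases he with rfl | rfl
  · simp [nilM, s1, s3, sJ]
    linear_combination (ρ : ℂ) ^ 2 * h
  · simp [nilM, s1, s3, sJ]
    linear_combination (ρ : ℂ) ^ 2 * h

/-- `M ↦ M λⁿ` as a continuous linear map -/
def LaxMono (n : ℤ) : MC →L[ℂ] MW := (ContinuousLinearMap.mul ℂ MW (mono n 1)).comp cst

theorem LaxMono_apply (n : ℤ) (M : MC) : LaxMono n M = mono n M := by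
  change mono n 1 * cst M = _
  rw [← mono_zero, mono_mul, add_zero, one_mul]

/-- linear part of the residue -/
def LaxZ : MC →L[ℂ] MW :=
  LaxMono (-1) + (LaxMono 1).comp trpC - cst.comp (ContinuousLinearMap.id ℂ MC + trpC)

/-- unitary part of the residue -/
def LaxAl : MC →L[ℂ] MW := LaxMono (-1) - cst - ((LaxMono 1).comp trpC - cst.comp trpC)

theorem LaxZ_apply (a : MC) : LaxZ a = mono (-1) a + mono 1 (trpC a) - cst (a + trpC a) := by
  simp [LaxZ, LaxMono_apply]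

theorem LaxAl_apply (a : MC) :
    LaxAl a = mono (-1) a - cst a - (mono 1 (trpC a) - cst (trpC a)) := by
  simp [LaxAl, LaxMono_apply]

theorem Lax_zeta_eq (e : ℝ) (a : MC) : zeta e a = cst ((e / 2 : ℂ) • s3) + LaxZ a := by
  rw [zeta, LaxZ_apply]
  abel

theorem Lax_trp_mul (M N : MC) : trpC (M * N) = trpC N * trpC M := by
  ext i j
  simp [Matrix.mul_apply, Fin.sum_univ_two, mul_comm]

theorem Lax_trp_trp (M : MC) : trpC (trpC M) = M := by
  ext i j
  simp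

theorem Lax_trp_s3 : trpC s3 = s3 := by
  ext i j
  fin_cases i <;> fin_cases j <;> simp [s3]

/-- right hand side of the Lax equation for the residue -/
def LaxR (e : ℝ) (a : MC) : MC :=
  ((e / 2 : ℂ) • s3) * a - a * ((e / 2 : ℂ) • s3) + (a * trpC a - trpC a * a) +
    (a * trpC a - trpC a * a)

theorem Lax_comm (e : ℝ) (a : MC) :
    zeta e a * LaxAl a - LaxAl a * zeta e a = LaxZ (LaxR e a) := by
  have h1 : W.mon (-1) * W.mon 1 = 1 := by rw [W.mon_mul_mon]; rfl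
  have h2 : W.mon 1 * W.mon (-1) = 1 := by rw [W.mon_mul_mon]; rfl
  have h3 : trpC ((e / 2 : ℂ) • s3) = (e / 2 : ℂ) • s3 := by rw [map_smul, Lax_trp_s3]
  rw [zeta, LaxZ_apply, LaxAl_apply, LaxR]
  generalize (e / 2 : ℂ) • s3 = S at h3 ⊢
  simp only [mono, map_add, map_sub, Lax_trp_mul, Lax_trp_trp, h3, cst_mul]
  generalize cst S = S'
  generalize cst a = P
  generalize cst (trpC a) = Q
  simp only [mul_add, add_mul, mul_sub, sub_mul, smul_mul_assoc, mul_smul_comm, smul_smul, h1, h2,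
    one_smul, smul_add, smul_sub]
  module

theorem Lax_ct_nilM (κ ψ : ℝ) : ct (nilM κ ψ) = trpC (nilM κ ψ) := by
  ext i j
  fin_cases i <;> fin_cases j <;>
    simp [nilM, s1, s3, sJ, -Complex.ofReal_sin, -Complex.ofReal_cos, map_ofNat]

theorem Lax_ct_trp_nilM (κ ψ : ℝ) : ct (trpC (nilM κ ψ)) = nilM κ ψ := by
  rw [← Lax_ct_nilM, ct_ct]

theorem Lax_st_al (κ ψ : ℝ) : st (LaxAl (nilM κ ψ)) = -LaxAl (nilM κ ψ) := by
  rw [LaxAl_apply]
  simp only [map_sub, st_mono, st_cst, Lax_ct_nilM, Lax_ct_trp_nilM, neg_neg]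
  abel

theorem Lax_J0_al (a : MC) : J0 (LaxAl a) = 0 := by
  rw [LaxAl_apply]
  simp only [map_sub, J0_mono, J0_cst, sub_self]

theorem Lax_J1_al (a : MC) : J1 (LaxAl a) = -(a + trpC a) := by
  rw [LaxAl_apply]
  simp only [map_sub, J1_mono, J1_cst, sub_zero]
  simp only [Int.reduceNeg, Int.cast_neg, Int.cast_one, neg_smul, one_smul]
  abel

theorem Lax_tr_mono (n : ℤ) {a : MC} (h : a 0 0 + a 1 1 = 0) : trW (mono n a) = 0 := by
  rw [trW_apply, mono_apply, mono_apply, ← add_smul, h, zero_smul]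

theorem Lax_tr_cst {a : MC} (h : a 0 0 + a 1 1 = 0) : trW (cst a) = 0 := by
  rw [← mono_zero]
  exact Lax_tr_mono 0 h

theorem Lax_tr_nilM (κ : ℂ) (ψ : ℝ) : nilM κ ψ 0 0 + nilM κ ψ 1 1 = 0 := by
  simp [nilM, s1, s3, sJ]

theorem Lax_tr_al (κ : ℂ) (ψ : ℝ) : trW (LaxAl (nilM κ ψ)) = 0 := by
  have h := Lax_tr_nilM κ ψ
  have h' : trpC (nilM κ ψ) 0 0 + trpC (nilM κ ψ) 1 1 = 0 := by simpa using h
  rw [LaxAl_apply]
  simp only [map_sub, Lax_tr_mono _ h, Lax_tr_mono _ h', Lax_tr_cst h, Lax_tr_cst h', sub_self]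

theorem Lax_tr_zeta (e : ℝ) (κ : ℂ) (ψ : ℝ) : trW (zeta e (nilM κ ψ)) = 0 := by
  have h := Lax_tr_nilM κ ψ
  have h' : trpC (nilM κ ψ) 0 0 + trpC (nilM κ ψ) 1 1 = 0 := by simpa using h
  have h3 : ((e / 2 : ℂ) • s3) 0 0 + ((e / 2 : ℂ) • s3) 1 1 = 0 := by simp [s3]
  rw [zeta]
  simp only [map_sub, map_add, Lax_tr_mono _ h, Lax_tr_mono _ h', Lax_tr_cst h, Lax_tr_cst h',
    Lax_tr_cst h3, add_zero, sub_self]

theorem Lax_be_ge (e : ℝ) (a : MC) : MGE 0 (LaxAl a - zeta e a) := by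
  have h : LaxAl a - zeta e a = cst (trpC a) + cst (trpC a) - cst ((e / 2 : ℂ) • s3) -
      mono 1 (trpC a) - mono 1 (trpC a) := by
    rw [LaxAl_apply, zeta, map_add]
    abel
  rw [h]
  exact ((((MGE_cst _).add (MGE_cst _)).sub (MGE_cst _)).sub
    ((MGE_mono 1 _).weaken (by norm_num))).sub ((MGE_mono 1 _).weaken (by norm_num))

theorem Lax_sum_nilM (κ : ℂ) (ψ : ℝ) : nilM κ ψ + trpC (nilM κ ψ) =
    (κ * Real.sin ψ) • s3 - (κ * Real.cos ψ) • s1 := by
  ext i j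
  fin_cases i <;> fin_cases j <;> simp [nilM, s1, s3, sJ] <;> ring

/-- derivative of the nilpotent residue along the Delaunay flow -/
theorem Lax_deriv_nilM {e m : ℝ} {κ ψ : ℝ → ℝ} {r : ℝ}
    (hκ : HasDerivAt κ (e * κ r * Real.cos (ψ r) * m) r)
    (hψ : HasDerivAt ψ ((4 * κ r - e * Real.sin (ψ r)) * m) r) :
    HasDerivAt (fun r => nilM (κ r) (ψ r)) ((m : ℂ) • LaxR e (nilM (κ r) (ψ r))) r := by
  have h : (Complex.sin (ψ r)) ^ 2 + (Complex.cos (ψ r)) ^ 2 = 1 := Complex.sin_sq_add_cos_sq _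
  have h1 : HasDerivAt (fun r => ((κ r : ℝ) : ℂ) / 2) _ r := hκ.ofReal_comp.div_const 2
  have h2 : HasDerivAt (fun r => ((Real.sin (ψ r) : ℝ) : ℂ) • s3) _ r :=
    hψ.sin.ofReal_comp.smul_const s3
  have h3 : HasDerivAt (fun r => ((Real.cos (ψ r) : ℝ) : ℂ) • s1) _ r :=
    hψ.cos.ofReal_comp.smul_const s1
  have h4 := h1.fun_smul ((h2.const_add sJ).fun_sub h3)
  refine HasDerivAt.congr_deriv h4 ?_
  ext i j
  simp only [LaxR, Matrix.add_apply, Matrix.sub_apply, Matrix.smul_apply, Matrix.mul_apply,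
    Fin.sum_univ_two, trpC_apply, nilM]
  fin_cases i <;> fin_cases j <;> simp [s1, s3, sJ]
  · ring
  · linear_combination (-(e * κ r * m) / 2 : ℂ) * h
  · linear_combination (-(e * κ r * m) / 2 : ℂ) * h
  · ring

theorem Lax_isOpen (c : ℝ) : IsOpen {ψ : ℝ | 0 < Real.sin ψ ^ 2 - 16 * c} :=
  isOpen_lt continuous_const (by fun_prop)

theorem Lax_DD_cont (c : ℝ) : Continuous (DD c) := by
  unfold DD
  fun_prop

theorem Lax_rf_cont (c : ℝ) : Continuous (rf c) := by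
  have := Lax_DD_cont c
  unfold rf
  fun_prop

theorem Lax_DD_pos {c ψ : ℝ} (h : 0 < Real.sin ψ ^ 2 - 16 * c) : 0 < DD c ψ := Real.sqrt_pos.2 h

theorem Lax_deriv_rf {c ψ : ℝ} (h : 0 < Real.sin ψ ^ 2 - 16 * c) :
    HasDerivAt (rf c) (rf c ψ * Real.cos ψ / DD c ψ) ψ := by
  have h0 := Lax_DD_pos h
  have h1 : HasDerivAt (fun ψ => Real.sin ψ ^ 2 - 16 * c) (2 * Real.sin ψ * Real.cos ψ) ψ := by
    have := ((Real.hasDerivAt_sin ψ).fun_pow 2).sub_const (16 * c)
    simpa using this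
  have h2 : HasDerivAt (DD c) (2 * Real.sin ψ * Real.cos ψ / (2 * DD c ψ)) ψ := h1.sqrt h.ne'
  have h3 := ((Real.hasDerivAt_sin ψ).fun_add h2).div_const 4
  refine HasDerivAt.congr_deriv h3 ?_
  unfold rf
  field_simp
  ring

/-- derivative of a primitive of a function continuous on the admissible set -/
theorem Lax_deriv_int {c ψ₀ ψ₁ ψ : ℝ} {f : ℝ → ℝ}
    (hf : ContinuousOn f {ψ : ℝ | 0 < Real.sin ψ ^ 2 - 16 * c})
    (hD : ∀ ψ ∈ uIcc ψ₀ ψ₁, 0 < Real.sin ψ ^ 2 - 16 * c) (hψ : ψ ∈ uIcc ψ₀ ψ₁) :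
    HasDerivAt (fun u => ∫ x in ψ₀..u, f x) (f ψ) ψ := by
  refine intervalIntegral.integral_hasDerivAt_right ?_ ?_ ?_
  · refine (hf.mono fun x hx => hD x ?_).intervalIntegrable
    exact uIcc_subset_uIcc_left hψ hx
  · exact hf.stronglyMeasurableAtFilter (Lax_isOpen c) ψ (hD ψ hψ)
  · exact hf.continuousAt ((Lax_isOpen c).mem_nhds (hD ψ hψ))

theorem Lax_const {E : Type} [NormedAddCommGroup E] [NormedSpace ℝ E] {f : ℝ → E}
    (h : ∀ r ∈ Icc (0:ℝ) 1, HasDerivWithinAt f 0 (Icc 0 1) r) : ∀ r ∈ Icc (0:ℝ) 1, f r = f 0 :=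
  constant_of_has_deriv_right_zero (fun r hr => (h r hr).continuousWithinAt) fun r hr =>
    (h r (Ico_subset_Icc_self hr)).mono_of_mem_nhdsWithin (Icc_mem_nhdsGE_of_mem hr)

/-- abstract form of the Lax argument -/
theorem Lax_core {Φ₀ A : MW} (hd : Φ₀.det = 1) {ze al : ℝ → MW} {m l : ℝ → ℝ}
    (hm : ContinuousOn m (Icc 0 1)) (hal : ContinuousOn al (Icc 0 1))
    (hze : ∀ r ∈ Icc (0:ℝ) 1, HasDerivAt ze ((m r : ℂ) • (ze r * al r - al r * ze r)) r)
    (hl : ∀ r ∈ Icc (0:ℝ) 1, HasDerivAt l (m r) r) (hl0 : l 0 = 0)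
    (hA : Bm Φ₀ * A * Bi Φ₀ = ze 0)
    (hst : ∀ r, st (al r) = -al r) (hJ : ∀ r, J0 (al r) = 0) (ht : ∀ r, trW (al r) = 0)
    (ht' : ∀ r, trW (ze r) = 0) (hge : ∀ r, MGE 0 (al r - ze r)) {g : ℝ → MC}
    (hg : ∀ r ∈ Icc (0:ℝ) 1, HasDerivAt g ((m r : ℂ) • J1 (al r)) r) :
    (Φ₀ * Hol (fun _ => ((l 1 : ℝ) : ℂ) • A) 1).det = 1 ∧
      Bm (Φ₀ * Hol (fun _ => ((l 1 : ℝ) : ℂ) • A) 1) * A *
        Bi (Φ₀ * Hol (fun _ => ((l 1 : ℝ) : ℂ) • A) 1) = ze 1 ∧
      symM (Φ₀ * Hol (fun _ => ((l 1 : ℝ) : ℂ) • A) 1) = symM Φ₀ + (g 1 - g 0) := by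
  have h0 : (0:ℝ) ∈ Icc (0:ℝ) 1 := left_mem_Icc.2 zero_le_one
  have h1 : (1:ℝ) ∈ Icc (0:ℝ) 1 := right_mem_Icc.2 zero_le_one
  have hmC : ContinuousOn (fun r => (m r : ℂ)) (Icc 0 1) :=
    Complex.continuous_ofReal.comp_continuousOn hm
  have hzc : ContinuousOn ze (Icc 0 1) := fun r hr => (hze r hr).continuousAt.continuousWithinAt
  obtain ⟨a, ha⟩ : ∃ a : ℝ → MW, a = fun r => (m r : ℂ) • al r := ⟨_, rfl⟩
  obtain ⟨b, hb⟩ : ∃ b : ℝ → MW, b = fun r => (m r : ℂ) • (al r - ze r) := ⟨_, rfl⟩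
  have hac : ContinuousOn a (Icc 0 1) := ha ▸ hmC.smul hal
  have hbc : ContinuousOn b (Icc 0 1) := hb ▸ hmC.smul (hal.sub hzc)
  obtain ⟨U, hU⟩ : ∃ U : ℝ → MW, U = fun r => Uf Φ₀ * Hol a r := ⟨_, rfl⟩
  obtain ⟨C, hC⟩ : ∃ C : ℝ → MW, C = fun r => Bi Φ₀ * Hol b r := ⟨_, rfl⟩
  have hUs : IsSol a U := by
    intro r hr
    have := (Hol_isSol hac r hr).const_mul (Uf Φ₀)
    rw [← mul_assoc] at this
    rw [hU]
    exact this
  have hCs : IsSol b C := by
    intro r hr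
    have := (Hol_isSol hbc r hr).const_mul (Bi Φ₀)
    rw [← mul_assoc] at this
    rw [hC]
    exact this
  have hU0 : U 0 = Uf Φ₀ := by rw [hU]; simp [Hol_zero]
  have hC0 : C 0 = Bi Φ₀ := by rw [hC]; simp [Hol_zero]
  -- the positive factor conjugates the residue to a constant
  have hCz : ∀ r ∈ Icc (0:ℝ) 1, C r * ze r = A * C r := by
    have hs : IsSol b (fun r => C r * ze r) := by
      intro r hr
      refine ((hCs r hr).fun_mul (hze r hr).hasDerivWithinAt).congr_deriv ?_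
      simp only [hb, mul_smul_comm, smul_mul_assoc, ← smul_add]
      congr 1
      noncomm_ring
    intro r hr
    rw [IsSol.eq_Hol hbc hs r hr, hC0, ← hA, ← mul_assoc, ← mul_assoc, Bi_mul_Bm hd, one_mul, hC,
      mul_assoc]
  obtain ⟨Ψ, hΨ⟩ : ∃ Ψ : ℝ → MW, Ψ = fun r => Φ₀ * Hol (fun _ => ((l r : ℝ) : ℂ) • A) 1 :=
    ⟨_, rfl⟩
  have hΨd : ∀ r ∈ Icc (0:ℝ) 1, HasDerivAt Ψ ((m r : ℂ) • (Ψ r * A)) r := by
    intro r hr
    have e1 := (hasDerivAt_Hol_const A (l r : ℂ)).scomp r (hl r hr).ofReal_comp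
    have e2 := e1.const_mul Φ₀
    rw [hΨ]
    refine HasDerivAt.congr_deriv e2 ?_
    simp only [mul_smul_comm, mul_assoc]
  have hΨ0 : Ψ 0 = Φ₀ := by rw [hΨ]; simp [hl0, Hol_const_zero]
  have hΨC : ∀ r ∈ Icc (0:ℝ) 1, Ψ r * C r = U r := by
    have hs : IsSol a (fun r => Ψ r * C r) := by
      intro r hr
      refine ((hΨd r hr).hasDerivWithinAt.fun_mul (hCs r hr)).congr_deriv ?_
      simp only [ha, hb, mul_smul_comm, smul_mul_assoc, ← smul_add]
      congr 1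
      rw [mul_assoc, ← hCz r hr]
      noncomm_ring
    intro r hr
    rw [IsSol.eq_Hol hac hs r hr, hΨ0, hC0, hU]
    rfl
  have hdU : (U 1).det = 1 := by
    rw [hU]
    simp only [Matrix.det_mul, det_Uf hd, one_mul]
    exact det_Hol hac (fun r _ => by rw [ha]; simp [ht r]) 1 h1
  have hdC : (C 1).det = 1 := by
    rw [hC]
    simp only [Matrix.det_mul, det_Bi hd, one_mul]
    exact det_Hol hbc (fun r _ => by rw [hb]; simp [ht r, ht' r]) 1 h1
  have hCge : MGE 0 (C 1) := by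
    rw [hC]
    have := (Bi_pos hd).mul (Hol_MGE hbc (fun r _ => by rw [hb]; exact (hge r).smul _) 1 h1)
    simpa using this
  -- the unitary factor
  have hun : st (U 1) * U 1 = 1 := by
    have hc := Lax_const (f := fun r => U r * st (U r)) (fun r hr => by
      have e1 := st.hasFDerivAt.comp_hasDerivWithinAt r (hUs r hr)
      refine ((hUs r hr).fun_mul e1).congr_deriv ?_
      simp only [ha, st_mul, st_smul, hst, Complex.conj_ofReal, mul_smul_comm, smul_mul_assoc,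
        Function.comp, ← smul_add]
      rw [show U r * al r * st (U r) + U r * (-al r * st (U r)) = 0 by noncomm_ring, smul_zero])
      1 h1
    simp only [hU0] at hc
    rw [mul_eq_one_comm.1 (Uf_unitary hd)] at hc
    exact mul_eq_one_comm.1 hc
  have hJ0 : ∀ r ∈ Icc (0:ℝ) 1, J0 (U r) = 1 := by
    intro r hr
    have hc := Lax_const (f := fun r => J0 (U r)) (fun r hr => by
      have e1 := (J0.restrictScalars ℝ).hasFDerivAt.comp_hasDerivWithinAt r (hUs r hr)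
      refine HasDerivWithinAt.congr_deriv e1 ?_
      simp [ha, J0_mul, hJ]) r hr
    simpa [hU0, J0_Uf hd] using hc
  have hJ1 : J1 (U 1) - g 1 = J1 (U 0) - g 0 :=
    Lax_const (f := fun r => J1 (U r) - g r) (fun r hr => by
      have e1 := (J1.restrictScalars ℝ).hasFDerivAt.comp_hasDerivWithinAt r (hUs r hr)
      refine HasDerivWithinAt.congr_deriv (e1.fun_sub (hg r hr).hasDerivWithinAt) ?_
      simp [ha, J1_mul, hJ, hJ0 r hr]) 1 h1
  have hΨ1 : Ψ 1 = U 1 * adj (C 1) := by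
    rw [← hΨC 1 h1, mul_assoc, mul_adj_of_det hdC, mul_one]
  have hiw := iw_unique hun hdU (hJ0 1 h1) hCge.adj (by rw [det_adj, hdC])
  have hΨe : Φ₀ * Hol (fun _ => ((l 1 : ℝ) : ℂ) • A) 1 = U 1 * adj (C 1) := by rw [← hΨ1, hΨ]
  rw [hΨe]
  refine ⟨by rw [Matrix.det_mul, hdU, det_adj, hdC, one_mul], ?_, ?_⟩
  · rw [← adj_Bm, hiw.2, adj_adj, mul_assoc, ← hCz 1 h1, ← mul_assoc, adj_mul_of_det hdC, one_mul]
  · rw [symM, hiw.1, symM, ← hU0]
    exact (eq_add_of_sub_eq hJ1).trans (by abel)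

/-- Iwasawa decomposition along a Delaunay end -/
theorem lax {Φ₀ A : MW} {e ρ₀ ψ₀ ψ₁ c : ℝ} (hd : Φ₀.det = 1) (he : e = 1 ∨ e = -1)
    (hA : Bm Φ₀ * A * Bi Φ₀ = zeta e (nilM (e * ρ₀ : ℝ) ψ₀))
    (hc : c = ρ₀ * Real.sin ψ₀ / 2 - ρ₀ ^ 2) (hD : ∀ ψ ∈ uIcc ψ₀ ψ₁, 0 < Real.sin ψ ^ 2 - 16 * c)
    (h4 : Real.sin ψ₀ < 4 * ρ₀) :
    let Φ₁ := Φ₀ * Hol (fun _ => ((e * ∫ ψ in ψ₀..ψ₁, 1 / DD c ψ : ℝ) : ℂ) • A) 1
    Φ₁.det = 1 ∧ Bm Φ₁ * A * Bi Φ₁ = zeta e (nilM (e * rf c ψ₁ : ℝ) ψ₁) ∧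
      symM Φ₁ = symM Φ₀ + ((rf c ψ₁ - ρ₀ : ℝ) : ℂ) • s1 -
        ((∫ ψ in ψ₀..ψ₁, rf c ψ * Real.sin ψ / DD c ψ : ℝ) : ℂ) • s3 := by
  intro Φ₁
  have hee : e * e = 1 := by rcases he with rfl | rfl <;> norm_num
  have hrf0 : rf c ψ₀ = ρ₀ := by
    have : DD c ψ₀ = 4 * ρ₀ - Real.sin ψ₀ := by
      unfold DD
      rw [show Real.sin ψ₀ ^ 2 - 16 * c = (4 * ρ₀ - Real.sin ψ₀) ^ 2 by rw [hc]; ring]
      exact Real.sqrt_sq (by linarith)
    unfold rf
    rw [this]
    ring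
  obtain ⟨p, hp⟩ : ∃ p : ℝ → ℝ, p = fun r => ψ₀ + r * (ψ₁ - ψ₀) := ⟨_, rfl⟩
  have hp0 : p 0 = ψ₀ := by simp [hp]
  have hp1 : p 1 = ψ₁ := by simp [hp]
  have hpc : Continuous p := by rw [hp]; fun_prop
  have hpd : ∀ r, HasDerivAt p (ψ₁ - ψ₀) r := by
    intro r
    rw [hp]
    simpa using ((hasDerivAt_id r).mul_const (ψ₁ - ψ₀)).const_add ψ₀
  have hpm : ∀ r ∈ Icc (0:ℝ) 1, p r ∈ uIcc ψ₀ ψ₁ := by
    intro r hr
    rw [hp, mem_uIcc]
    rcases le_total ψ₀ ψ₁ with h | h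
    · left
      constructor <;> nlinarith [hr.1, hr.2]
    · right
      constructor <;> nlinarith [hr.1, hr.2]
  have hDp : ∀ r ∈ Icc (0:ℝ) 1, 0 < DD c (p r) := fun r hr => Lax_DD_pos (hD _ (hpm r hr))
  obtain ⟨m, hm⟩ : ∃ m : ℝ → ℝ, m = fun r => e * (1 / DD c (p r) * (ψ₁ - ψ₀)) := ⟨_, rfl⟩
  have hmc : ContinuousOn m (Icc 0 1) := by
    rw [hm]
    exact continuousOn_const.mul ((continuousOn_const.div
      ((Lax_DD_cont c).comp hpc).continuousOn fun r hr => (hDp r hr).ne').mul continuousOn_const)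
  have hρ : ∀ r ∈ Icc (0:ℝ) 1, HasDerivAt (fun r => rf c (p r))
      (rf c (p r) * Real.cos (p r) / DD c (p r) * (ψ₁ - ψ₀)) r :=
    fun r hr => (Lax_deriv_rf (hD _ (hpm r hr))).comp r (hpd r)
  have ha : ∀ r ∈ Icc (0:ℝ) 1, HasDerivAt (fun r => nilM (e * rf c (p r) : ℝ) (p r))
      ((m r : ℂ) • LaxR e (nilM (e * rf c (p r) : ℝ) (p r))) r := by
    intro r hr
    have h0 := (hDp r hr).ne'
    refine Lax_deriv_nilM (κ := fun r => e * rf c (p r)) ?_ ?_
    · refine ((hρ r hr).const_mul e).congr_deriv ?_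
      rw [hm]
      field_simp
      linear_combination (-e * rf c (p r) * Real.cos (p r) * (ψ₁ - ψ₀)) * hee
    · refine (hpd r).congr_deriv ?_
      rw [hm]
      unfold rf
      field_simp
      linear_combination (-(DD c (p r)) * (ψ₁ - ψ₀)) * hee
  have hf1 : ContinuousOn (fun ψ => 1 / DD c ψ) {ψ : ℝ | 0 < Real.sin ψ ^ 2 - 16 * c} :=
    continuousOn_const.div (Lax_DD_cont c).continuousOn fun ψ h => (Lax_DD_pos h).ne'
  have hf2 : ContinuousOn (fun ψ => rf c ψ * Real.sin ψ / DD c ψ)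
      {ψ : ℝ | 0 < Real.sin ψ ^ 2 - 16 * c} :=
    ((Lax_rf_cont c).mul Real.continuous_sin).continuousOn.div (Lax_DD_cont c).continuousOn
      fun ψ h => (Lax_DD_pos h).ne'
  have key := Lax_core (A := A) hd (ze := fun r => zeta e (nilM (e * rf c (p r) : ℝ) (p r)))
    (al := fun r => LaxAl (nilM (e * rf c (p r) : ℝ) (p r))) (m := m)
    (l := fun r => e * ∫ ψ in ψ₀..p r, 1 / DD c ψ) hmc
    (LaxAl.continuous.comp_continuousOn fun r hr => (ha r hr).continuousAt.continuousWithinAt)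
    (fun r hr => by
      have e1 := (LaxZ.restrictScalars ℝ).hasFDerivAt.comp_hasDerivAt r (ha r hr)
      have e2 := e1.const_add (cst ((e / 2 : ℂ) • s3))
      simp only [Lax_zeta_eq]
      refine HasDerivAt.congr_deriv e2 ?_
      simp only [← Lax_zeta_eq, Lax_comm]
      simp)
    (fun r hr => by
      rw [hm]
      exact ((Lax_deriv_int hf1 hD (hpm r hr)).comp r (hpd r)).const_mul e)
    (by simp [hp0]) (by simpa [hp0, hrf0] using hA)
    (fun r => Lax_st_al _ _) (fun r => Lax_J0_al _) (fun r => Lax_tr_al _ _)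
    (fun r => Lax_tr_zeta _ _ _) (fun r => Lax_be_ge _ _)
    (g := fun r => ((rf c (p r) : ℝ) : ℂ) • s1 -
      ((∫ ψ in ψ₀..p r, rf c ψ * Real.sin ψ / DD c ψ : ℝ) : ℂ) • s3)
    (fun r hr => by
      have e1 := (hρ r hr).ofReal_comp.smul_const s1
      have e2 := ((Lax_deriv_int hf2 hD (hpm r hr)).comp r (hpd r)).ofReal_comp.smul_const s3
      refine HasDerivAt.congr_deriv (e1.fun_sub e2) ?_
      have hee' : (e : ℂ) * e = 1 := by exact_mod_cast hee
      rw [Lax_J1_al, Lax_sum_nilM, neg_sub, smul_sub, smul_smul, smul_smul, hm]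
      congr 2
      · push_cast
        linear_combination (-(rf c (p r) : ℂ) * Complex.cos (p r) / DD c (p r) * (ψ₁ - ψ₀)) * hee'
      · push_cast
        linear_combination (-(rf c (p r) : ℂ) * Complex.sin (p r) / DD c (p r) * (ψ₁ - ψ₀)) * hee')
  simp only [hp0, hp1, hrf0, intervalIntegral.integral_same] at key
  refine ⟨key.1, key.2.1, key.2.2.trans ?_⟩
  simp only [ofReal_zero, zero_smul, sub_zero, ofReal_sub, sub_smul]
  abel

end Pool.Agent.MP_efb2da_gt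

end
end
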