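import Pool.Agent.Mg.Fefb2da.G55380f
import Pool.Agent.Mg.Fefb2da.Gc5bfff

section

open Set Complex
open scoped Topology ComplexConjugate Matrix ContDiff

noncomputable section

namespace Pool.Agent.MP_efb2da_gt

variable {g : Geo} {d : Dat}

lemma continuous_clampD : Continuous clampD := by
  refine Continuous.subtype_mk ?_ _
  refine Continuous.smul ((continuous_const.max continuous_norm).inv₀ fun z => ?_) continuous_id
  exact (lt_of_lt_of_le one_pos (le_max_left _ _)).ne'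
lemma clampD_of_le {z : ℂ} (h : ‖z‖ ≤ 1) : (clampD z : ℂ) = z := by
  simp [clampD, max_eq_left h]
lemma Pot1_clampD_conj (z : ℂ) : (clampD (conj z) : ℂ) = conj (clampD z : ℂ) := by
  simp [clampD]
lemma continuous_mv : Continuous fun x : CD × ℂ => mv x.1 x.2 :=
  continuous_fst.eval (continuous_clampD.comp (continuous_const.mul continuous_snd))
lemma norm_mv_le (m : CD) (z : ℂ) : ‖mv m z‖ ≤ ‖m‖ := m.norm_coe_le_norm _
lemma differentiable_mv (z : ℂ) : Differentiable ℂ fun m : CD => mv m z :=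
  (ContinuousMap.evalCLM ℂ (clampD (8 * z)) : CD →L[ℂ] MW).differentiable
lemma mv_smul (c : ℂ) (m : CD) (z : ℂ) : mv (c • m) z = c • mv m z := rfl
lemma Pot1_cont_mv (m : CD) : Continuous (mv m) :=
  continuous_mv.comp (continuous_const.prodMk continuous_id)
lemma Pot1_cont_mv' (z : ℂ) : Continuous fun m : CD => mv m z := (differentiable_mv z).continuous

lemma isClosed_StrM : IsClosed {m : CD | StrM m} := by
  have h1 : IsClosed {m : CD | ∀ z, sharp (mv m (conj z)) = mv m z} := by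
    rw [ofPred_forall]
    exact isClosed_iInter fun z =>
      isClosed_eq (sharp.continuous.comp (Pot1_cont_mv' _)) (Pot1_cont_mv' _)
  have h2 : IsClosed {m : CD | ∀ z, trW (mv m z) = 0} := by
    rw [ofPred_forall]
    exact isClosed_iInter fun z =>
      isClosed_eq (trW.continuous.comp (Pot1_cont_mv' _)) continuous_const
  have h3 : IsClosed {m : CD | ∀ z, MGE (-1) (mv m z)} := by
    rw [ofPred_forall]
    exact isClosed_iInter fun z => (isClosed_MGE (-1)).preimage (Pot1_cont_mv' z)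
  have h4 : IsClosed {m : CD | DifferentiableOn ℂ (mv m) (Metric.ball 0 (1/8))} := by
    refine IsSeqClosed.isClosed fun x m hx hm => ?_
    have hu : TendstoUniformlyOn (fun n => mv (x n)) (mv m) Filter.atTop (Metric.ball 0 (1/8)) := by
      rw [Metric.tendstoUniformlyOn_iff]
      intro ε hε
      filter_upwards [Metric.tendsto_nhds.1 hm ε hε] with n hn z _
      rw [dist_comm]
      exact lt_of_le_of_lt (ContinuousMap.dist_apply_le_dist _) hn
    exact hu.tendstoLocallyUniformlyOn.differentiableOn (Filter.Eventually.of_forall hx)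
      Metric.isOpen_ball
  have : {m : CD | StrM m} = {m : CD | ∀ z, sharp (mv m (conj z)) = mv m z} ∩
      ({m : CD | ∀ z, trW (mv m z) = 0} ∩ ({m : CD | ∀ z, MGE (-1) (mv m z)} ∩
        {m : CD | DifferentiableOn ℂ (mv m) (Metric.ball 0 (1/8))})) := by
    ext m
    exact ⟨fun h => ⟨h.real, h.tr, h.ge, h.hol⟩, fun h => ⟨h.1, h.2.1, h.2.2.1, h.2.2.2⟩⟩
  rw [this]
  exact h1.inter (h2.inter (h3.inter h4))

lemma StrM.zero : StrM 0 := by
  have : mv 0 = fun _ => 0 := rfl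
  refine ⟨fun z => ?_, fun z => ?_, fun z => ?_, ?_⟩ <;> rw [this]
  · exact map_zero _
  · exact map_zero _
  · exact MGE.zero _
  · exact differentiableOn_const _
lemma StrM.smul {m : CD} (h : StrM m) (c : ℝ) : StrM ((c : ℂ) • m) := by
  refine ⟨fun z => ?_, fun z => ?_, fun z => ?_, ?_⟩
  · rw [mv_smul, mv_smul, sharp_smul, conj_ofReal, h.real]
  · rw [mv_smul, map_smul, h.tr, smul_zero]
  · rw [mv_smul]; exact (h.ge z).smul _
  · exact h.hol.const_smul (c : ℂ)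
lemma isOpen_Dom (g : Geo) : IsOpen (Dom g) := by
  refine (isOpen_lt continuous_const continuous_norm).inter
    ((isOpen_lt (continuous_const.mul continuous_norm) continuous_const).inter
    ((isOpen_lt continuous_const (continuous_id.sub continuous_const).norm).inter ?_))
  have : IsOpen (⋂ j, {z : ℂ | z ≠ pp g j}) := isOpen_iInter_of_finite fun j => isOpen_ne
  convert this using 1
  ext z; simp only [mem_iInter, mem_ofPred_eq]; rfl
lemma conj_mem_Dom {z : ℂ} (h : z ∈ Dom g) : conj z ∈ Dom g := by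
  obtain ⟨h1, h2, h3, h4⟩ := h
  refine ⟨by rwa [norm_conj], by rwa [norm_conj], ?_, fun j hj => h4 j ?_⟩
  · have : conj z - 1 = conj (z - 1) := by simp
    rwa [this, norm_conj]
  · rw [← conj_conj z, hj, conj_ofReal]
lemma pos_cj5 (p : Fin 3 → ℝ) (j : Fin 3) : pos p (cj5 j) = p j := by
  fin_cases j <;> rfl
lemma Pot1_pos0 (p : Fin 3 → ℝ) : pos p 0 = 0 := rfl
lemma Pot1_pos1 (p : Fin 3 → ℝ) : pos p 1 = 1 := rfl
lemma ne_pos_of_mem_Dom (hg : AdmG g) {z : ℂ} (h : z ∈ Dom g) (j : Fin 5) : z ≠ pos (pp g) j := by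
  obtain ⟨h1, h2, h3, h4⟩ := h
  obtain ⟨-, ⟨he, -⟩, ⟨hq, -⟩, -⟩ := hg
  fin_cases j
  · intro hz
    have : z = 0 := by simpa [pos] using hz
    rw [this, norm_zero] at h1; linarith
  · intro hz
    have : z = 1 := by simpa [pos] using hz
    rw [this, sub_self, norm_zero] at h3; nlinarith [sq_nonneg (ee g)]
  · exact h4 0
  · exact h4 1
  · exact h4 2
/-- separation of the punctures -/
lemma pos_sep {p : Fin 3 → ℝ} (h : AdmP p) {i j : Fin 5} (hij : i ≠ j) :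
    7/30 ≤ |pos p i - pos p j| := by
  obtain ⟨⟨a1, a2⟩, ⟨b1, b2⟩, ⟨c1, c2⟩⟩ := h
  fin_cases i <;> fin_cases j <;> simp only [pos] <;>
    first
    | exact absurd rfl hij
    | (rw [le_abs]; left; simp; linarith)
    | (rw [le_abs]; right; simp; linarith)
lemma abs_pos_le {p : Fin 3 → ℝ} (h : AdmP p) (j : Fin 5) : |pos p j| ≤ 11/10 := by
  obtain ⟨⟨a1, a2⟩, ⟨b1, b2⟩, ⟨c1, c2⟩⟩ := h
  rw [abs_le]
  fin_cases j
  · change -(11/10) ≤ (0:ℝ) ∧ (0:ℝ) ≤ 11/10
    norm_num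
  · change -(11/10) ≤ (1:ℝ) ∧ (1:ℝ) ≤ 11/10
    norm_num
  · change -(11/10) ≤ p 0 ∧ p 0 ≤ 11/10
    constructor <;> linarith
  · change -(11/10) ≤ p 1 ∧ p 1 ≤ 11/10
    constructor <;> linarith
  · change -(11/10) ≤ p 2 ∧ p 2 ≤ 11/10
    constructor <;> linarith

/-- a point within `1/8` of one puncture is at distance at least `13/120` of the others -/
lemma Pot1_far {p : Fin 3 → ℝ} (h : AdmP p) {i j : Fin 5} (hij : i ≠ j) {z : ℂ}
    (hz : ‖z - pos p j‖ ≤ 1/8) : 13/120 ≤ ‖z - pos p i‖ := by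
  have h1 := pos_sep h hij
  have h2 : ‖((pos p i : ℝ) : ℂ) - (pos p j : ℝ)‖ = |pos p i - pos p j| := by
    rw [← ofReal_sub, norm_real, Real.norm_eq_abs]
  have h3 : ‖((pos p i : ℝ) : ℂ) - (pos p j : ℝ)‖ ≤ ‖z - pos p j‖ + ‖z - pos p i‖ := by
    have : ((pos p i : ℝ) : ℂ) - (pos p j : ℝ) = (z - pos p j) - (z - pos p i) := by ring
    rw [this]; exact norm_sub_le _ _
  linarith
lemma Pot1_ne {p : Fin 3 → ℝ} (h : AdmP p) {i j : Fin 5} (hij : i ≠ j) {z : ℂ}
    (hz : ‖z - pos p j‖ ≤ 1/8) : z ≠ pos p i := by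
  intro e
  have := Pot1_far h hij hz
  rw [e, sub_self, norm_zero] at this; linarith
lemma Pot1_near {p : Fin 3 → ℝ} (h : AdmP p) {j : Fin 5} {z : ℂ}
    (hz : ‖z - pos p j‖ ≤ 1/8) : ‖z‖ ≤ 2 := by
  have h1 := abs_pos_le h j
  have h3 : ‖z‖ ≤ ‖z - pos p j‖ + ‖((pos p j : ℝ) : ℂ)‖ := by
    conv_lhs => rw [show z = (z - pos p j) + (pos p j : ℝ) by ring]
    exact norm_add_le _ _
  rw [norm_real, Real.norm_eq_abs] at h3
  linarith
lemma Pot1_e (hg : AdmG g) : 8 * ee g ^ 2 < 13/120 := by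
  obtain ⟨-, ⟨he, he'⟩, -, -⟩ := hg
  nlinarith
lemma Pot1_q (hg : AdmG g) : 8 * qq g < 13/120 := by
  obtain ⟨-, -, ⟨hq, hq'⟩, -⟩ := hg
  linarith
lemma Pot1_q' (hg : AdmG g) {z : ℂ} (hz : ‖z‖ ≤ 2) : 8 * qq g * ‖z‖ < 1 := by
  obtain ⟨-, -, ⟨hq, hq'⟩, -⟩ := hg
  nlinarith [norm_nonneg z]

lemma Xi_eq_reg (j : Fin 5) (z : ℂ) :
    Xi g d z = (z - pos (pp g) j)⁻¹ • AA d j + reg g d j z := by
  unfold Xi reg rat
  rw [← Finset.add_sum_erase _ _ (Finset.mem_univ j)]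
  abel

lemma Pot1_dsmul {f : ℂ → ℂ} {F : ℂ → MW} {z : ℂ} (hf : DifferentiableAt ℂ f z)
    (hF : DifferentiableAt ℂ F z) : DifferentiableAt ℂ (fun w => f w • F w) z := hf.smul hF
lemma Pot1_csmul {f : ℂ → ℂ} {F : ℂ → MW} {z : ℂ} (hf : ContinuousAt f z)
    (hF : ContinuousAt F z) : ContinuousAt (fun w => f w • F w) z := hf.smul hF

lemma Pot1_mv_diff {m : CD} (h : StrM m) {f : ℂ → ℂ} {z : ℂ} (hf : DifferentiableAt ℂ f z)
    (hz : ‖f z‖ < 1/8) : DifferentiableAt ℂ (fun w => mv m (f w)) z :=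
  (h.hol.differentiableAt (Metric.isOpen_ball.mem_nhds (mem_ball_zero_iff.2 hz))).comp z hf

lemma Pot1_rat_diff {s : Finset (Fin 5)} {z : ℂ} (h : ∀ j ∈ s, z ≠ pos (pp g) j) :
    DifferentiableAt ℂ (rat g d s) z := by
  unfold rat
  refine DifferentiableAt.fun_sum fun j hj => ?_
  have h1 : DifferentiableAt ℂ (fun w : ℂ => w - pos (pp g) j) z := differentiableAt_id.sub_const _
  exact Pot1_dsmul (h1.inv (sub_ne_zero.2 (h j hj))) (differentiableAt_const _)

lemma Pot1_div_lt {a : ℝ} (ha : 0 ≤ a) {u : ℂ} (h : 8 * a < ‖u‖) : ‖(a : ℂ) / u‖ < 1/8 := by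
  have hu : 0 < ‖u‖ := by linarith
  rw [norm_div, norm_real, Real.norm_of_nonneg ha, div_lt_iff₀ hu]
  linarith

lemma Pot1_h1_diff (hd : Str d) {z : ℂ} (h : 8 * ee g ^ 2 < ‖z - 1‖) :
    DifferentiableAt ℂ (h1 g d) z := by
  have h0 : z - 1 ≠ 0 := by
    intro e; rw [e, norm_zero] at h; nlinarith [sq_nonneg (ee g)]
  have hz : ‖(ee g : ℂ) ^ 2 / (z - 1)‖ < 1/8 := by
    rw [← ofReal_pow]; exact Pot1_div_lt (sq_nonneg _) h
  unfold h1
  refine DifferentiableAt.neg (Pot1_dsmul ?_ ?_)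
  · exact (differentiableAt_const _).div ((differentiableAt_id.sub_const _).pow 2) (pow_ne_zero _ h0)
  · exact sw.differentiableAt.comp z (Pot1_mv_diff (hd.m 1)
      ((differentiableAt_const _).div (differentiableAt_id.sub_const _) h0) hz)

lemma Pot1_hinf_diff (hg : AdmG g) (hd : Str d) {z : ℂ} (h : 8 * qq g < ‖z‖) :
    DifferentiableAt ℂ (hinf g d) z := by
  have hq := hg.2.2.1.1
  have h0 : z ≠ 0 := by
    intro e; rw [e, norm_zero] at h; linarith
  have hz : ‖(qq g : ℂ) / z‖ < 1/8 := Pot1_div_lt hq.le h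
  unfold hinf
  refine Pot1_dsmul ?_ ?_
  · exact (differentiableAt_const _).div (differentiableAt_id.pow 2) (pow_ne_zero _ h0)
  · exact ((Pot1_mv_diff (hd.m 2) ((differentiableAt_const _).div differentiableAt_id h0)
      hz).const_mul _).mul_const _

lemma Pot1_q_mul (hg : AdmG g) (z : ℂ) : ‖(qq g : ℂ) * z‖ = qq g * ‖z‖ := by
  rw [norm_mul, norm_real, Real.norm_of_nonneg hg.2.2.1.1.le]

lemma Pot1_h0_diff (hg : AdmG g) (hd : Str d) {z : ℂ} (h : 8 * qq g * ‖z‖ < 1) :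
    DifferentiableAt ℂ (h0 g d) z := by
  have hz : ‖(qq g : ℂ) * z‖ < 1/8 := by rw [Pot1_q_mul hg]; linarith
  unfold h0
  refine Pot1_dsmul (differentiableAt_const _) ?_
  exact ((Pot1_mv_diff (hd.m 0) (differentiableAt_id.const_mul _) hz).const_mul _).mul_const _

lemma Xi_differentiableOn (hg : AdmG g) (hd : Str d) : DifferentiableOn ℂ (Xi g d) (Dom g) := by
  intro z hz
  refine DifferentiableAt.differentiableWithinAt ?_
  exact (((Pot1_rat_diff fun j _ => ne_pos_of_mem_Dom hg hz j).add (Pot1_h1_diff hd hz.2.2.1)).add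
    (Pot1_hinf_diff hg hd hz.1)).add (Pot1_h0_diff hg hd hz.2.1)

lemma Pot1_cj5_ne0 (j : Fin 3) : (0 : Fin 5) ≠ cj5 j := by fin_cases j <;> decide
lemma Pot1_cj5_ne1 (j : Fin 3) : (1 : Fin 5) ≠ cj5 j := by fin_cases j <;> decide
lemma Pot1_cj5_inj {i j : Fin 3} (h : i ≠ j) : cj5 i ≠ cj5 j := by
  revert i j; decide

lemma Pot1_ball (hg : AdmG g) (j : Fin 3) {z : ℂ} (h : ‖z - pp g j‖ < 1/8) :
    8 * qq g < ‖z‖ ∧ 8 * qq g * ‖z‖ < 1 ∧ 8 * ee g ^ 2 < ‖z - 1‖ := by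
  have hp := hg.2.2.2
  have h' : ‖z - pos (pp g) (cj5 j)‖ ≤ 1/8 := by rw [pos_cj5]; exact h.le
  have a0 := Pot1_far hp (Pot1_cj5_ne0 j) h'
  have a1 := Pot1_far hp (Pot1_cj5_ne1 j) h'
  rw [Pot1_pos0, ofReal_zero, sub_zero] at a0
  rw [Pot1_pos1, ofReal_one] at a1
  exact ⟨(Pot1_q hg).trans_le a0, Pot1_q' hg (Pot1_near hp h'), (Pot1_e hg).trans_le a1⟩

lemma reg_differentiableOn (hg : AdmG g) (hd : Str d) (j : Fin 3) :
    DifferentiableOn ℂ (reg g d (cj5 j)) (Metric.ball (pp g j : ℂ) (1/8)) := by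
  intro z hz
  rw [mem_ball_iff_norm] at hz
  obtain ⟨b1, b2, b3⟩ := Pot1_ball hg j hz
  have h' : ‖z - pos (pp g) (cj5 j)‖ ≤ 1/8 := by rw [pos_cj5]; exact hz.le
  refine DifferentiableAt.differentiableWithinAt ?_
  exact (((Pot1_rat_diff fun i hi => Pot1_ne hg.2.2.2 (Finset.ne_of_mem_erase hi) h').add
    (Pot1_h1_diff hd b3)).add (Pot1_hinf_diff hg hd b1)).add (Pot1_h0_diff hg hd b2)

lemma ball_subset_Dom (hg : AdmG g) (j : Fin 3) {z : ℂ} (h : ‖z - pp g j‖ < 1/8)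
    (h' : z ≠ pp g j) : z ∈ Dom g := by
  obtain ⟨b1, b2, b3⟩ := Pot1_ball hg j h
  refine ⟨b1, b2, b3, fun i => ?_⟩
  by_cases hij : i = j
  · rw [hij]; exact h'
  · have h'' : ‖z - pos (pp g) (cj5 j)‖ ≤ 1/8 := by rw [pos_cj5]; exact h.le
    have := Pot1_ne hg.2.2.2 (Pot1_cj5_inj hij) h''
    rwa [pos_cj5] at this

lemma Pot1_neck (hg : AdmG g) {u : ℂ} (h' : ‖u‖ ≤ 1/8) :
    ‖1 + u - pos (pp g) 1‖ ≤ 1/8 ∧ 8 * qq g < ‖1 + u‖ ∧ 8 * qq g * ‖1 + u‖ < 1 := by
  have hp := hg.2.2.2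
  have h1 : ‖1 + u - pos (pp g) 1‖ ≤ 1/8 := by
    rw [Pot1_pos1, ofReal_one, add_sub_cancel_left]; exact h'
  have a0 := Pot1_far hp (zero_ne_one) h1
  rw [Pot1_pos0, ofReal_zero, sub_zero] at a0
  exact ⟨h1, (Pot1_q hg).trans_le a0, Pot1_q' hg (Pot1_near hp h1)⟩

lemma neck_subset_Dom (hg : AdmG g) {u : ℂ} (h : 8 * ee g ^ 2 < ‖u‖) (h' : ‖u‖ < 1/8) :
    1 + u ∈ Dom g := by
  obtain ⟨b1, b2, b3⟩ := Pot1_neck hg h'.le
  refine ⟨b2, b3, by rwa [add_sub_cancel_left], fun i => ?_⟩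
  have := Pot1_ne hg.2.2.2 (Pot1_cj5_ne1 i).symm b1
  rwa [pos_cj5] at this

lemma Th_differentiableOn (hg : AdmG g) (hd : Str d) :
    DifferentiableOn ℂ (Th g d) {u | 8 * ee g ^ 2 < ‖u‖ ∧ ‖u‖ < 1/8} := by
  intro u hu
  obtain ⟨h, h'⟩ := hu
  have h0 : u ≠ 0 := by
    intro e; rw [e, norm_zero] at h; nlinarith [sq_pos_of_pos hg.2.1.1]
  have hz : ‖(ee g : ℂ) ^ 2 / u‖ < 1/8 := by
    rw [← ofReal_pow]; exact Pot1_div_lt (sq_nonneg _) h
  have hdiv : DifferentiableAt ℂ (fun w : ℂ => (ee g : ℂ) ^ 2 / w) u :=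
    (differentiableAt_const _).div differentiableAt_id h0
  refine DifferentiableAt.differentiableWithinAt ?_
  unfold Th
  exact ((differentiableAt_const _).add
    (differentiableAt_id.smul (Pot1_mv_diff (hd.m 1) differentiableAt_id h'))).sub
    (hdiv.smul (sw.differentiableAt.comp u (Pot1_mv_diff (hd.m 1) hdiv hz)))

lemma Pot1_rat_tr (hd : Str d) (s : Finset (Fin 5)) (z : ℂ) : trW (rat g d s z) = 0 := by
  unfold rat
  rw [map_sum]
  exact Finset.sum_eq_zero fun j _ => by rw [map_smul, hd.trA, smul_zero]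
lemma Pot1_h1_tr (hd : Str d) (z : ℂ) : trW (h1 g d z) = 0 := by
  unfold h1
  rw [map_neg, map_smul, trW_sw, (hd.m 1).tr, smul_zero, neg_zero]
lemma Pot1_hinf_tr (hd : Str d) (z : ℂ) : trW (hinf g d z) = 0 := by
  unfold hinf
  rw [map_smul, trW_conj, (hd.m 2).tr, mul_zero, smul_zero]
lemma Pot1_h0_tr (hd : Str d) (z : ℂ) : trW (h0 g d z) = 0 := by
  unfold h0
  rw [map_smul, trW_conj', (hd.m 0).tr, mul_zero, smul_zero]
lemma Pot1_rat_ge (hd : Str d) (s : Finset (Fin 5)) (z : ℂ) : MGE (-1) (rat g d s z) :=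
  MGE.sum fun j _ => (hd.geA j).smul _
lemma Pot1_h1_ge (hd : Str d) (z : ℂ) : MGE (-1) (h1 g d z) :=
  (((hd.m 1).ge _).sw.smul _).neg
lemma Pot1_hinf_ge (hd : Str d) (z : ℂ) : MGE (-1) (hinf g d z) :=
  (hd.geG.conj ((hd.m 2).ge _) hd.geG.adj).smul _
lemma Pot1_h0_ge (hd : Str d) (z : ℂ) : MGE (-1) (h0 g d z) :=
  (hd.geG.adj.conj ((hd.m 0).ge _) hd.geG).smul _
lemma Pot1_mv_real {m : CD} (h : StrM m) {w w' : ℂ} (e : w' = conj w) :
    sharp (mv m w') = mv m w := by rw [e, h.real]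
lemma Pot1_rat_real (hd : Str d) (s : Finset (Fin 5)) (z : ℂ) :
    sharp (rat g d s (conj z)) = rat g d s z := by
  unfold rat
  rw [map_sum]
  refine Finset.sum_congr rfl fun j _ => ?_
  rw [sharp_smul, hd.realA]; simp
lemma Pot1_h1_real (hd : Str d) (z : ℂ) : sharp (h1 g d (conj z)) = h1 g d z := by
  unfold h1
  rw [map_neg, sharp_smul, sharp_sw,
    Pot1_mv_real (hd.m 1) (w := (ee g : ℂ) ^ 2 / (z - 1)) (by simp)]
  simp
lemma Pot1_hinf_real (hd : Str d) (z : ℂ) : sharp (hinf g d (conj z)) = hinf g d z := by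
  unfold hinf
  rw [sharp_smul, sharp_mul, sharp_mul, sharp_adj, hd.realG,
    Pot1_mv_real (hd.m 2) (w := (qq g : ℂ) / z) (by simp)]
  simp
lemma Pot1_h0_real (hd : Str d) (z : ℂ) : sharp (h0 g d (conj z)) = h0 g d z := by
  unfold h0
  rw [sharp_smul, sharp_mul, sharp_mul, sharp_adj, hd.realG,
    Pot1_mv_real (hd.m 0) (w := (qq g : ℂ) * z) (by simp)]
  simp

lemma Xi_tr (hd : Str d) (z : ℂ) : trW (Xi g d z) = 0 := by
  unfold Xi
  simp only [map_add, Pot1_rat_tr hd, Pot1_h1_tr hd, Pot1_hinf_tr hd, Pot1_h0_tr hd, add_zero]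
lemma Xi_ge (hd : Str d) (z : ℂ) : MGE (-1) (Xi g d z) :=
  (((Pot1_rat_ge hd _ z).add (Pot1_h1_ge hd z)).add (Pot1_hinf_ge hd z)).add (Pot1_h0_ge hd z)
lemma Xi_real (hd : Str d) (z : ℂ) : sharp (Xi g d (conj z)) = Xi g d z := by
  unfold Xi
  simp only [map_add, Pot1_rat_real hd, Pot1_h1_real hd, Pot1_hinf_real hd, Pot1_h0_real hd]
lemma reg_tr (hd : Str d) (j : Fin 5) (z : ℂ) : trW (reg g d j z) = 0 := by
  unfold reg
  simp only [map_add, Pot1_rat_tr hd, Pot1_h1_tr hd, Pot1_hinf_tr hd, Pot1_h0_tr hd, add_zero]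
lemma reg_ge (hd : Str d) (j : Fin 5) (z : ℂ) : MGE (-1) (reg g d j z) :=
  (((Pot1_rat_ge hd _ z).add (Pot1_h1_ge hd z)).add (Pot1_hinf_ge hd z)).add (Pot1_h0_ge hd z)
lemma reg_real (hd : Str d) (j : Fin 5) (z : ℂ) : sharp (reg g d j (conj z)) = reg g d j z := by
  unfold reg
  simp only [map_add, Pot1_rat_real hd, Pot1_h1_real hd, Pot1_hinf_real hd, Pot1_h0_real hd]
lemma Th_tr (hd : Str d) (u : ℂ) : trW (Th g d u) = 0 := by
  unfold Th
  rw [map_sub, map_add, map_smul, map_smul, trW_sw, hd.trA, (hd.m 1).tr, (hd.m 1).tr]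
  simp
lemma Th_ge (hd : Str d) (u : ℂ) : MGE (-1) (Th g d u) :=
  ((hd.geA 1).add (((hd.m 1).ge _).smul _)).sub (((hd.m 1).ge _).sw.smul _)
lemma Th_real (hd : Str d) (u : ℂ) : sharp (Th g d (conj u)) = Th g d u := by
  unfold Th
  rw [map_sub, map_add, sharp_smul, sharp_smul, sharp_sw, hd.realA, (hd.m 1).real,
    Pot1_mv_real (hd.m 1) (w := (ee g : ℂ) ^ 2 / u) (by simp)]
  simp
lemma Th_sw (hg : AdmG g) (hd : Str d) {u : ℂ} (hu : u ≠ 0) :
    sw (Th g d ((ee g : ℂ) ^ 2 / u)) = -Th g d u := by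
  have he : (ee g : ℂ) ≠ 0 := ofReal_ne_zero.2 hg.2.1.1.ne'
  have e : (ee g : ℂ) ^ 2 / ((ee g : ℂ) ^ 2 / u) = u := by field_simp
  unfold Th
  rw [e, map_sub, map_add, map_smul, map_smul, sw_sw, hd.odd]
  abel

lemma Pot1_rat_cont {s : Finset (Fin 5)} {z : ℂ} (h : ∀ j ∈ s, z ≠ pos (pp g) j) :
    ContinuousAt (rat g d s) z := (Pot1_rat_diff h).continuousAt
lemma Pot1_h1_cont {z : ℂ} (h0 : z - 1 ≠ 0) : ContinuousAt (h1 g d) z := by
  unfold h1
  refine ContinuousAt.neg (Pot1_csmul ?_ ?_)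
  · exact continuousAt_const.div ((continuousAt_id.sub continuousAt_const).pow 2) (pow_ne_zero _ h0)
  · exact (sw.continuous.comp (Pot1_cont_mv _)).continuousAt.comp
      (continuousAt_const.div (continuousAt_id.sub continuousAt_const) h0)
lemma Pot1_hinf_cont {z : ℂ} (h0 : z ≠ 0) : ContinuousAt (hinf g d) z := by
  unfold hinf
  refine Pot1_csmul ?_ ?_
  · exact continuousAt_const.div (continuousAt_id.pow 2) (pow_ne_zero _ h0)
  · exact (continuousAt_const.mul ((Pot1_cont_mv _).continuousAt.comp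
      (continuousAt_const.div continuousAt_id h0))).mul continuousAt_const
lemma Pot1_h0_cont : Continuous (h0 g d) := by
  unfold h0
  exact ((continuous_const.mul ((Pot1_cont_mv _).comp
    (continuous_const.mul continuous_id))).mul continuous_const).const_smul (qq g : ℂ)

lemma Pot1_one_sub {a : ℝ} (ha : |a| ≤ 11/10) {w : ℂ} (hw : ‖w‖ ≤ 1/8) : 1 - (a : ℂ) * w ≠ 0 := by
  intro e
  have h1 : (a : ℂ) * w = 1 := by linear_combination -e
  have h2 := congrArg norm h1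
  rw [norm_mul, norm_real, Real.norm_eq_abs, norm_one] at h2
  nlinarith [abs_nonneg a, norm_nonneg w]
lemma Pot1_one_sub' {w : ℂ} (hw : ‖w‖ ≤ 1/8) : 7/8 ≤ ‖1 - w‖ := by
  have := norm_sub_norm_le (1 : ℂ) w
  rw [norm_one] at this; linarith
lemma Pot1_one_sub'' {w : ℂ} (hw : ‖w‖ ≤ 1/8) : 1 - w ≠ 0 := by
  intro e
  have := Pot1_one_sub' hw
  rw [e, norm_zero] at this; linarith

lemma Pot1_zero_near {z : ℂ} (hz : ‖z‖ ≤ 1/8) : ‖z - pos (pp g) 0‖ ≤ 1/8 := by
  rw [Pot1_pos0, ofReal_zero, sub_zero]; exact hz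

lemma Pot1_Mf_cont (hg : AdmG g) (i : Fin 3) {z : ℂ} (hz : ‖z‖ ≤ 1/8) :
    ContinuousAt (Mf g d i) z := by
  have hp := hg.2.2.2
  have h1' : 1 - z ≠ 0 := Pot1_one_sub'' hz
  fin_cases i
  · change ContinuousAt (M0 g d) z
    exact ((Pot1_rat_cont fun j hj => Pot1_ne hp (Finset.ne_of_mem_erase hj)
      (Pot1_zero_near hz)).add (Pot1_h1_cont (by rw [← neg_sub]; exact neg_ne_zero.2 h1'))).add
      Pot1_h0_cont.continuousAt
  · change ContinuousAt (M1 g d) z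
    obtain ⟨b1, b2, b3⟩ := Pot1_neck hg hz
    have h0 : 1 + z ≠ 0 := by
      intro e; rw [e, norm_zero] at b2; linarith [hg.2.2.1.1]
    have hc : ContinuousAt (fun u : ℂ => 1 + u) z := continuousAt_const.add continuousAt_id
    exact (((Pot1_rat_cont fun j hj => Pot1_ne hp (Finset.ne_of_mem_erase hj) b1).comp hc).add
      ((Pot1_hinf_cont h0).comp hc)).add (Pot1_h0_cont.continuousAt.comp hc)
  · change ContinuousAt (M2 g d) z
    unfold M2
    refine ContinuousAt.add (ContinuousAt.sub ?_ (Pot1_csmul ?_ ?_)) ?_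
    · refine tendsto_finsetSum _ fun j _ => ?_
      exact (continuousAt_const.div (continuousAt_const.sub (continuousAt_const.mul continuousAt_id))
        (Pot1_one_sub (abs_pos_le hp j) hz)).smul continuousAt_const
    · exact continuousAt_const.div ((continuousAt_const.sub continuousAt_id).pow 2)
        (pow_ne_zero _ h1')
    · exact (sw.continuous.comp (Pot1_cont_mv _)).continuousAt.comp
        ((continuousAt_const.mul continuousAt_id).div (continuousAt_const.sub continuousAt_id) h1')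
    · exact (((continuous_const.mul ((Pot1_cont_mv _).comp
        (continuous_const.mul continuous_id))).mul continuous_const).const_smul
        (qq g : ℂ)).continuousAt

lemma Pot1_disc (z : Disc) : ‖(z : ℂ) / 8‖ ≤ 1/8 := by
  have := mem_closedBall_zero_iff.1 z.2
  rw [norm_div]
  simp only [norm_ofNat]
  linarith

lemma continuous_Mf (hg : AdmG g) (i : Fin 3) : Continuous fun z : Disc => Mf g d i (z / 8) := by
  refine continuous_iff_continuousAt.2 fun z => ?_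
  exact ContinuousAt.comp (f := fun z : Disc => (z : ℂ) / 8) (Pot1_Mf_cont hg i (Pot1_disc z))
    (continuous_subtype_val.div_const _).continuousAt
lemma Pot1_mv_MM (hg : AdmG g) (i : Fin 3) (z : ℂ) :
    mv (MM g d i) z = Mf g d i ((clampD (8 * z) : ℂ) / 8) := by
  unfold mv MM cmk
  rw [ContinuousMap.mkD_of_continuous (continuous_Mf hg i)]
  rfl
lemma mv_MM (hg : AdmG g) (i : Fin 3) {z : ℂ} (hz : ‖z‖ ≤ 1/8) : mv (MM g d i) z = Mf g d i z := by
  have h : ‖8 * z‖ ≤ 1 := by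
    rw [norm_mul]; simp only [norm_ofNat]; linarith
  rw [Pot1_mv_MM hg, clampD_of_le h]
  congr 1; ring

lemma Pot1_Mf_real (hd : Str d) (i : Fin 3) (z : ℂ) : sharp (Mf g d i (conj z)) = Mf g d i z := by
  fin_cases i
  · change sharp (M0 g d (conj z)) = M0 g d z
    unfold M0
    simp only [map_add, Pot1_rat_real hd, Pot1_h1_real hd, Pot1_h0_real hd]
  · change sharp (M1 g d (conj z)) = M1 g d z
    unfold M1
    have e : 1 + conj z = conj (1 + z) := by simp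
    simp only [e, map_add sharp, Pot1_rat_real hd, Pot1_hinf_real hd, Pot1_h0_real hd]
  · change sharp (M2 g d (conj z)) = M2 g d z
    unfold M2
    rw [map_add, map_sub, map_sum, sharp_smul, sharp_smul, sharp_sw, sharp_mul, sharp_mul,
      sharp_adj, hd.realG, Pot1_mv_real (hd.m 2) (w := (qq g : ℂ) * z) (by simp),
      Pot1_mv_real (hd.m 1) (w := (ee g : ℂ) ^ 2 * z / (1 - z)) (by simp)]
    have : ∀ j, sharp (((pos (pp g) j : ℂ) / (1 - pos (pp g) j * conj z)) • AA d j) =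
        ((pos (pp g) j : ℂ) / (1 - pos (pp g) j * z)) • AA d j := fun j => by
      rw [sharp_smul, hd.realA]; simp
    simp only [this]
    simp
lemma Pot1_Mf_tr (hd : Str d) (i : Fin 3) (z : ℂ) : trW (Mf g d i z) = 0 := by
  fin_cases i
  · change trW (M0 g d z) = 0
    unfold M0
    simp only [map_add, Pot1_rat_tr hd, Pot1_h1_tr hd, Pot1_h0_tr hd, add_zero]
  · change trW (M1 g d z) = 0
    unfold M1
    simp only [map_add, Pot1_rat_tr hd, Pot1_hinf_tr hd, Pot1_h0_tr hd, add_zero]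
  · change trW (M2 g d z) = 0
    unfold M2
    rw [map_add, map_sub, map_sum, map_smul, map_smul, trW_sw, trW_conj, (hd.m 1).tr, (hd.m 2).tr]
    simp [hd.trA]
lemma Pot1_Mf_ge (hd : Str d) (i : Fin 3) (z : ℂ) : MGE (-1) (Mf g d i z) := by
  fin_cases i
  · exact ((Pot1_rat_ge hd _ z).add (Pot1_h1_ge hd z)).add (Pot1_h0_ge hd z)
  · exact ((Pot1_rat_ge hd _ _).add (Pot1_hinf_ge hd _)).add (Pot1_h0_ge hd _)
  · exact ((MGE.sum fun j _ => (hd.geA j).smul _).sub (((hd.m 1).ge _).sw.smul _)).add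
      ((hd.geG.conj ((hd.m 2).ge _) hd.geG.adj).smul _)
lemma Pot1_Mf_diff (hg : AdmG g) (hd : Str d) (i : Fin 3) {z : ℂ} (hz : ‖z‖ ≤ 1/8) :
    DifferentiableAt ℂ (Mf g d i) z := by
  have hp := hg.2.2.2
  have h1' : 1 - z ≠ 0 := Pot1_one_sub'' hz
  have h7 := Pot1_one_sub' hz
  have hz2 : ‖z‖ ≤ 2 := by linarith
  fin_cases i
  · change DifferentiableAt ℂ (M0 g d) z
    refine ((Pot1_rat_diff fun j hj => Pot1_ne hp (Finset.ne_of_mem_erase hj)
      (Pot1_zero_near hz)).add (Pot1_h1_diff hd ?_)).add (Pot1_h0_diff hg hd (Pot1_q' hg hz2))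
    rw [norm_sub_rev]; linarith [Pot1_e hg]
  · change DifferentiableAt ℂ (M1 g d) z
    obtain ⟨b1, b2, b3⟩ := Pot1_neck hg hz
    have hc : DifferentiableAt ℂ (fun u : ℂ => 1 + u) z := differentiableAt_id.const_add _
    exact (((Pot1_rat_diff fun j hj => Pot1_ne hp (Finset.ne_of_mem_erase hj) b1).comp z hc).add
      ((Pot1_hinf_diff hg hd b2).comp z hc)).add ((Pot1_h0_diff hg hd b3).comp z hc)
  · change DifferentiableAt ℂ (M2 g d) z
    have hq : ‖(qq g : ℂ) * z‖ < 1/8 := by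
      rw [Pot1_q_mul hg]; linarith [Pot1_q' hg hz2]
    have he : ‖(ee g : ℂ) ^ 2 * z / (1 - z)‖ < 1/8 := by
      have h8 : 0 < ‖1 - z‖ := by linarith
      rw [norm_div, norm_mul, norm_pow, norm_real, Real.norm_eq_abs, sq_abs, div_lt_iff₀ h8]
      nlinarith [Pot1_e hg, sq_nonneg (ee g), norm_nonneg z]
    unfold M2
    refine DifferentiableAt.add (DifferentiableAt.sub ?_ (Pot1_dsmul ?_ ?_)) ?_
    · refine DifferentiableAt.fun_sum fun j _ => ?_
      have h1 : DifferentiableAt ℂ (fun w : ℂ => 1 - (pos (pp g) j : ℂ) * w) z := by fun_prop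
      exact Pot1_dsmul ((differentiableAt_const _).div h1 (Pot1_one_sub (abs_pos_le hp j) hz))
        (differentiableAt_const _)
    · exact (differentiableAt_const _).div ((differentiableAt_id.const_sub _).pow 2)
        (pow_ne_zero _ h1')
    · exact sw.differentiableAt.comp z (Pot1_mv_diff (hd.m 1)
        ((differentiableAt_id.const_mul _).div (differentiableAt_id.const_sub _) h1') he)
    · exact Pot1_dsmul (differentiableAt_const _)
        (((Pot1_mv_diff (hd.m 2) (differentiableAt_id.const_mul _) hq).const_mul _).mul_const _)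

lemma StrM_MM (hg : AdmG g) (hd : Str d) (i : Fin 3) : StrM (MM g d i) := by
  refine ⟨fun z => ?_, fun z => ?_, fun z => ?_, ?_⟩
  · have e : (clampD (8 * conj z) : ℂ) / 8 = conj ((clampD (8 * z) : ℂ) / 8) := by
      have : 8 * conj z = conj (8 * z) := by rw [map_mul, map_ofNat]
      rw [this, Pot1_clampD_conj, map_div₀, map_ofNat]
    rw [Pot1_mv_MM hg, Pot1_mv_MM hg, e, Pot1_Mf_real hd]
  · rw [Pot1_mv_MM hg, Pot1_Mf_tr hd]
  · rw [Pot1_mv_MM hg]; exact Pot1_Mf_ge hd i _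
  · refine DifferentiableOn.congr (f := Mf g d i) (fun z hz => ?_) (fun z hz => ?_)
    · exact (Pot1_Mf_diff hg hd i (mem_ball_zero_iff.1 hz).le).differentiableWithinAt
    · exact mv_MM hg i (mem_ball_zero_iff.1 hz).le

lemma Pot1_fix (hg : AdmG g) (hf : Fix g d) (i : Fin 3) {z : ℂ} (hz : ‖z‖ ≤ 1/8) :
    mv (mm d i) z = Mf g d i z := by
  rw [hf.m i, mv_MM hg i hz]

lemma Th_eq (hg : AdmG g) (hf : Fix g d) {u : ℂ} (hu : u ≠ 0) (h : ‖u‖ ≤ 1/8) :
    Th g d u = u • Xi g d (1 + u) := by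
  have e1 : mv (mm d 1) u = M1 g d u := Pot1_fix hg hf 1 h
  have e2 : u * ((ee g : ℂ) ^ 2 / u ^ 2) = (ee g : ℂ) ^ 2 / u := by field_simp
  have e3 : u • h1 g d (1 + u) =
      -(((ee g : ℂ) ^ 2 / u) • sw (mv (mm d 1) ((ee g : ℂ) ^ 2 / u))) := by
    unfold h1
    rw [add_sub_cancel_left, smul_neg, smul_smul, e2]
  rw [Xi_eq_reg 1, Th, e1, M1, reg, Pot1_pos1, ofReal_one, add_sub_cancel_left]
  simp only [smul_add, e3, smul_smul, mul_inv_cancel₀ hu, one_smul]
  abel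

lemma Xi_per (hg : AdmG g) (hf : Fix g d) {z : ℂ} (h1 : 8 ≤ ‖z‖) (h2 : 8 * qq g * ‖z‖ ≤ 1) :
    (qq g : ℂ) • Xi g d (qq g * z) = GG d * Xi g d z * adj (GG d) := by
  have hp := hg.2.2.2
  have hq : (qq g : ℂ) ≠ 0 := ofReal_ne_zero.2 hg.2.2.1.1.ne'
  have hz0 : 0 < ‖z‖ := by linarith
  have hz : z ≠ 0 := norm_pos_iff.1 hz0
  have hw : ‖z⁻¹‖ ≤ 1/8 := by
    rw [norm_inv, one_div]; exact inv_anti₀ (by norm_num) h1
  have hqz : ‖(qq g : ℂ) * z‖ ≤ 1/8 := by rw [Pot1_q_mul hg]; linarith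
  have e0 : mv (mm d 0) (qq g * z) = M0 g d (qq g * z) := Pot1_fix hg hf 0 hqz
  have e2 : mv (mm d 2) z⁻¹ = M2 g d z⁻¹ := Pot1_fix hg hf 2 hw
  have hG := mul_adj_of_det hf.detG
  have hne : ∀ j, z - pos (pp g) j ≠ 0 := fun j e => by
    have := abs_pos_le hp j
    rw [sub_eq_zero] at e
    rw [e, norm_real, Real.norm_eq_abs] at h1
    linarith
  have hz1 : z - 1 ≠ 0 := by simpa [Pot1_pos1] using hne 1
  have L : (qq g : ℂ) • Xi g d (qq g * z) = z⁻¹ • AA d 0 + (qq g : ℂ) • mv (mm d 0) (qq g * z) +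
      (z⁻¹ ^ 2) • (GG d * mv (mm d 2) z⁻¹ * adj (GG d)) := by
    have a1 : (qq g : ℂ) * (qq g * z)⁻¹ = z⁻¹ := by field_simp
    have a2 : (qq g : ℂ) * (qq g / (qq g * z) ^ 2) = z⁻¹ ^ 2 := by field_simp
    have a3 : (qq g : ℂ) / (qq g * z) = z⁻¹ := by field_simp
    have a4 : (qq g : ℂ) • hinf g d (qq g * z) =
        (z⁻¹ ^ 2) • (GG d * mv (mm d 2) z⁻¹ * adj (GG d)) := by
      unfold hinf
      rw [smul_smul, a2, a3]
    rw [Xi_eq_reg 0, e0, M0, reg, Pot1_pos0, ofReal_zero, sub_zero]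
    simp only [smul_add, a4, smul_smul, a1]
    abel
  have R0 : GG d * h0 g d z * adj (GG d) = (qq g : ℂ) • mv (mm d 0) (qq g * z) := by
    unfold h0
    rw [mul_smul_comm, smul_mul_assoc]
    congr 1
    calc GG d * (adj (GG d) * mv (mm d 0) (qq g * z) * GG d) * adj (GG d)
        = (GG d * adj (GG d)) * mv (mm d 0) (qq g * z) * (GG d * adj (GG d)) := by
          simp only [mul_assoc]
      _ = _ := by rw [hG, one_mul, mul_one]
  have R1 : z⁻¹ • (∑ j, AA d j) + (z⁻¹ ^ 2) • M2 g d z⁻¹ =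
      rat g d Finset.univ z + Pool.Agent.MP_efb2da_gt.h1 g d z + hinf g d z := by
    have b1 : ∀ j, z⁻¹ + z⁻¹ ^ 2 * ((pos (pp g) j : ℂ) / (1 - pos (pp g) j * z⁻¹)) =
        (z - pos (pp g) j)⁻¹ := fun j => by
      have := hne j
      field_simp
      ring
    have b2 : z⁻¹ ^ 2 * ((ee g : ℂ) ^ 2 / (1 - z⁻¹) ^ 2) = (ee g : ℂ) ^ 2 / (z - 1) ^ 2 := by
      field_simp
    have b3 : (ee g : ℂ) ^ 2 * z⁻¹ / (1 - z⁻¹) = (ee g : ℂ) ^ 2 / (z - 1) := by
      field_simp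
    have b4 : z⁻¹ ^ 2 * (qq g : ℂ) = qq g / z ^ 2 := by field_simp
    have b5 : (qq g : ℂ) * z⁻¹ = qq g / z := by field_simp
    have b6 : z⁻¹ • (∑ j, AA d j) + (z⁻¹ ^ 2) •
        ∑ j, ((pos (pp g) j : ℂ) / (1 - pos (pp g) j * z⁻¹)) • AA d j = rat g d Finset.univ z := by
      unfold rat
      rw [Finset.smul_sum, Finset.smul_sum, ← Finset.sum_add_distrib]
      refine Finset.sum_congr rfl fun j _ => ?_
      rw [smul_smul, ← add_smul, b1]
    unfold M2 Pool.Agent.MP_efb2da_gt.h1 hinf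
    rw [smul_add, smul_sub, smul_smul, smul_smul, b2, b3, b4, b5, ← b6]
    abel
  rw [L, Xi, ← R1, mul_add, add_mul, R0, hf.A0, e2, mul_add, add_mul, mul_smul_comm,
    smul_mul_assoc, mul_smul_comm, smul_mul_assoc]
  abel

end Pool.Agent.MP_efb2da_gt

end
end

section

open Set Complex
open scoped Topology ComplexConjugate Matrix ContDiff

noncomputable section

namespace Pool.Agent.MP_efb2da_gt

variable {g : Geo} {d : Dat}

lemma Pot2_norm_exp (r : ℝ) : ‖exp (2 * Real.pi * I * r)‖ = 1 := by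
  have : (2 * Real.pi * I * r : ℂ) = ((2 * Real.pi * r : ℝ) : ℂ) * I := by push_cast; ring
  rw [this, norm_exp_ofReal_mul_I]

lemma Pot2_rad_pos (i : Fin 3) : 0 < rad i := by
  fin_cases i <;> simp [rad]

lemma Pot2_sep (c R p r : ℝ) (hR : 0 < R) (h : 1/16 ≤ |p - c| - R ∨ 1/16 ≤ R - |p - c|) :
    1/16 ≤ ‖(c : ℂ) + R * exp (2 * Real.pi * I * r) - p‖ := by
  have e : (c : ℂ) + R * exp (2 * Real.pi * I * r) - p =
      R * exp (2 * Real.pi * I * r) - ((p - c : ℝ) : ℂ) := by push_cast; ring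
  have n1 : ‖(R : ℂ) * exp (2 * Real.pi * I * r)‖ = R := by
    rw [norm_mul, Pot2_norm_exp, mul_one, Complex.norm_real, Real.norm_of_nonneg hR.le]
  have n2 : ‖((p - c : ℝ) : ℂ)‖ = |p - c| := by rw [Complex.norm_real, Real.norm_eq_abs]
  have k := abs_norm_sub_norm_le ((R : ℂ) * exp (2 * Real.pi * I * r)) ((p - c : ℝ) : ℂ)
  rw [n1, n2] at k
  rw [e]
  have k1 := le_abs_self (R - |p - c|)
  have k2 := neg_abs_le (R - |p - c|)
  rcases h with h | h <;> linarith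

lemma circle_sep (hg : AdmG g) (i : Fin 3) (r : ℝ) (j : Fin 5) :
    1/16 ≤ ‖(cen i : ℂ) + rad i * exp (2 * Real.pi * I * r) - pos (pp g) j‖ := by
  obtain ⟨-, -, -, ⟨a1, a2⟩, ⟨b1, b2⟩, ⟨c1, c2⟩⟩ := hg
  refine Pot2_sep _ _ _ r (Pot2_rad_pos i) ?_
  have key : ∀ c R p : ℝ, (p + 1/16 ≤ c - R ∨ (c - R + 1/16 ≤ p ∧ p + 1/16 ≤ c + R)) →
      1/16 ≤ |p - c| - R ∨ 1/16 ≤ R - |p - c| := by
    intro c R p h
    rcases h with h | ⟨h, h'⟩
    · left
      have := neg_abs_le (p - c)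
      linarith
    · right
      have : |p - c| ≤ R - 1/16 := abs_le.2 ⟨by linarith, by linarith⟩
      linarith
  apply key
  fin_cases i <;> fin_cases j <;> simp [cen, rad, pos] <;>
    first
    | (left; linarith)
    | (right; constructor <;> linarith)
    | norm_num

lemma circle_mem_Dom (hg : AdmG g) (i : Fin 3) (r : ℝ) :
    ((cen i : ℂ) + rad i * exp (2 * Real.pi * I * r)) ∈ Dom g := by
  have h0 := circle_sep hg i r 0
  have h1 := circle_sep hg i r 1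
  have hj := fun j => circle_sep hg i r (cj5 j)
  obtain ⟨-, ⟨e1, e2⟩, ⟨q1, q2⟩, -⟩ := hg
  have p0 : pos (pp g) 0 = 0 := rfl
  have p1 : pos (pp g) 1 = 1 := rfl
  rw [p0, ofReal_zero, sub_zero] at h0
  rw [p1, ofReal_one] at h1
  have hn : ‖(cen i : ℂ) + rad i * exp (2 * Real.pi * I * r)‖ ≤ 2 := by
    refine (norm_add_le _ _).trans ?_
    rw [norm_mul, Pot2_norm_exp, mul_one, Complex.norm_real, Complex.norm_real, Real.norm_eq_abs,
      Real.norm_eq_abs]
    fin_cases i <;> simp [cen, rad] <;> norm_num [abs_of_pos, abs_of_neg]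
  refine ⟨by linarith, by nlinarith, by nlinarith, fun j h => ?_⟩
  have := hj j
  rw [pos_cj5, h, sub_self, norm_zero] at this
  norm_num at this

lemma cen_add_rad (i : Fin 3) : cen i + rad i = 17/16 := by
  fin_cases i <;> simp [cen, rad] <;> norm_num

lemma La1_pos (hg : AdmG g) : 0 < La1 g := by
  obtain ⟨-, ⟨e1, e2⟩, -, -⟩ := hg
  refine Real.log_pos ?_
  rw [lt_div_iff₀ (by positivity)]
  linarith

lemma La_pos (hg : AdmG g) : 0 < La g := by
  obtain ⟨-, -, ⟨e1, e2⟩, -⟩ := hg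
  refine Real.log_pos ?_
  rw [lt_div_iff₀ (by positivity)]
  linarith

/-! ### joint continuity -/

lemma Pot2_c_pos (j : Fin 5) : Continuous fun p : Fin 3 → ℝ => pos p j := by
  fin_cases j
  · exact continuous_const
  · exact continuous_const
  · exact continuous_apply 0
  · exact continuous_apply 1
  · exact continuous_apply 2

lemma Pot2_c_posG (j : Fin 5) : Continuous fun g : Geo => ((pos (pp g) j : ℝ) : ℂ) :=
  continuous_ofReal.comp ((Pot2_c_pos j).comp continuous_snd.snd.snd)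
lemma Pot2_c_tt : Continuous fun g : Geo => tt g := continuous_fst
lemma Pot2_c_ee : Continuous fun g : Geo => ee g := continuous_snd.fst
lemma Pot2_c_qq : Continuous fun g : Geo => qq g := continuous_snd.snd.fst
lemma Pot2_c_AA (j : Fin 5) : Continuous fun d : Dat => AA d j :=
  (continuous_apply j).comp continuous_fst
lemma Pot2_c_GG : Continuous fun d : Dat => GG d := continuous_snd.fst
lemma Pot2_c_mm (i : Fin 3) : Continuous fun d : Dat => mm d i :=
  (continuous_apply i).comp continuous_snd.snd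

section gen
variable {X : Type} [TopologicalSpace X] {S : Set X} {γ : X → Geo} {δ : X → Dat} {z : X → ℂ}

lemma Pot2_smul {f : X → ℂ} {F : X → MW} (hf : ContinuousOn f S) (hF : ContinuousOn F S) :
    ContinuousOn (fun x => f x • F x) S := hf.smul hF
lemma Pot2_mul {F G : X → MW} (hF : ContinuousOn F S) (hG : ContinuousOn G S) :
    ContinuousOn (fun x => F x * G x) S := hF.mul hG
lemma Pot2_add {F G : X → MW} (hF : ContinuousOn F S) (hG : ContinuousOn G S) :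
    ContinuousOn (fun x => F x + G x) S := hF.add hG
lemma Pot2_sub {F G : X → MW} (hF : ContinuousOn F S) (hG : ContinuousOn G S) :
    ContinuousOn (fun x => F x - G x) S := hF.sub hG
lemma Pot2_neg {F : X → MW} (hF : ContinuousOn F S) : ContinuousOn (fun x => -F x) S := hF.neg
lemma Pot2_adj {F : X → MW} (hF : ContinuousOn F S) : ContinuousOn (fun x => adj (F x)) S :=
  adj.continuous.comp_continuousOn hF
lemma Pot2_sw {F : X → MW} (hF : ContinuousOn F S) : ContinuousOn (fun x => sw (F x)) S :=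
  sw.continuous.comp_continuousOn hF

lemma Pot2_mv (hδ : ContinuousOn δ S) (hz : ContinuousOn z S) (i : Fin 3) :
    ContinuousOn (fun x => mv (mm (δ x) i) (z x)) S :=
  continuous_mv.comp_continuousOn (((Pot2_c_mm i).comp_continuousOn hδ).prodMk hz)

lemma Pot2_ee (hγ : ContinuousOn γ S) : ContinuousOn (fun x => ((ee (γ x) : ℝ) : ℂ)) S :=
  (continuous_ofReal.comp Pot2_c_ee).comp_continuousOn hγ
lemma Pot2_qq (hγ : ContinuousOn γ S) : ContinuousOn (fun x => ((qq (γ x) : ℝ) : ℂ)) S :=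
  (continuous_ofReal.comp Pot2_c_qq).comp_continuousOn hγ
lemma Pot2_tt (hγ : ContinuousOn γ S) : ContinuousOn (fun x => ((tt (γ x) : ℝ) : ℂ)) S :=
  (continuous_ofReal.comp Pot2_c_tt).comp_continuousOn hγ
lemma Pot2_pos (hγ : ContinuousOn γ S) (j : Fin 5) :
    ContinuousOn (fun x => ((pos (pp (γ x)) j : ℝ) : ℂ)) S :=
  (Pot2_c_posG j).comp_continuousOn hγ
lemma Pot2_AA (hδ : ContinuousOn δ S) (j : Fin 5) : ContinuousOn (fun x => AA (δ x) j) S :=
  (Pot2_c_AA j).comp_continuousOn hδ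
lemma Pot2_GG (hδ : ContinuousOn δ S) : ContinuousOn (fun x => GG (δ x)) S :=
  Pot2_c_GG.comp_continuousOn hδ

lemma Pot2_rat (hγ : ContinuousOn γ S) (hδ : ContinuousOn δ S) (hz : ContinuousOn z S)
    (s : Finset (Fin 5)) (h : ∀ x ∈ S, ∀ j ∈ s, z x ≠ pos (pp (γ x)) j) :
    ContinuousOn (fun x => rat (γ x) (δ x) s (z x)) S := by
  unfold rat
  refine continuousOn_finset_sum _ fun j hj => ?_
  exact ((hz.sub (Pot2_pos hγ j)).inv₀ fun x hx => sub_ne_zero.2 (h x hx j hj)).smul (Pot2_AA hδ j)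

lemma Pot2_h1 (hγ : ContinuousOn γ S) (hδ : ContinuousOn δ S) (hz : ContinuousOn z S)
    (h : ∀ x ∈ S, z x ≠ 1) : ContinuousOn (fun x => h1 (γ x) (δ x) (z x)) S := by
  unfold h1
  have a1 : ContinuousOn (fun x => z x - 1) S := hz.sub continuousOn_const
  have a2 := (Pot2_ee hγ).pow 2
  refine Pot2_neg (Pot2_smul ?_ ?_)
  · exact a2.div (a1.pow 2) fun x hx => pow_ne_zero 2 (sub_ne_zero.2 (h x hx))
  · exact sw.continuous.comp_continuousOn
      (Pot2_mv hδ (a2.div a1 fun x hx => sub_ne_zero.2 (h x hx)) 1)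

lemma Pot2_hinf (hγ : ContinuousOn γ S) (hδ : ContinuousOn δ S) (hz : ContinuousOn z S)
    (h : ∀ x ∈ S, z x ≠ 0) : ContinuousOn (fun x => hinf (γ x) (δ x) (z x)) S := by
  unfold hinf
  refine Pot2_smul ?_ ?_
  · exact (Pot2_qq hγ).div (hz.pow 2) fun x hx => pow_ne_zero 2 (h x hx)
  · exact ((Pot2_GG hδ).mul (Pot2_mv hδ ((Pot2_qq hγ).div hz h) 2)).mul
      (adj.continuous.comp_continuousOn (Pot2_GG hδ))

lemma Pot2_h0 (hγ : ContinuousOn γ S) (hδ : ContinuousOn δ S) (hz : ContinuousOn z S) :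
    ContinuousOn (fun x => h0 (γ x) (δ x) (z x)) S := by
  unfold h0
  refine Pot2_smul (Pot2_qq hγ) ?_
  exact ((adj.continuous.comp_continuousOn (Pot2_GG hδ)).mul
    (Pot2_mv hδ ((Pot2_qq hγ).mul hz) 0)).mul (Pot2_GG hδ)

lemma Pot2_Xi (hγ : ContinuousOn γ S) (hδ : ContinuousOn δ S) (hz : ContinuousOn z S)
    (h : ∀ x ∈ S, ∀ j, z x ≠ pos (pp (γ x)) j) :
    ContinuousOn (fun x => Xi (γ x) (δ x) (z x)) S := by
  unfold Xi
  refine (((Pot2_rat hγ hδ hz _ fun x hx j _ => h x hx j).add (Pot2_h1 hγ hδ hz ?_)).add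
    (Pot2_hinf hγ hδ hz ?_)).add (Pot2_h0 hγ hδ hz)
  · intro x hx
    have := h x hx 1
    rwa [show pos (pp (γ x)) 1 = 1 from rfl, ofReal_one] at this
  · intro x hx
    have := h x hx 0
    rwa [show pos (pp (γ x)) 0 = 0 from rfl, ofReal_zero] at this

lemma Pot2_Th (hγ : ContinuousOn γ S) (hδ : ContinuousOn δ S) (hz : ContinuousOn z S)
    (h : ∀ x ∈ S, z x ≠ 0) : ContinuousOn (fun x => Th (γ x) (δ x) (z x)) S := by
  unfold Th
  have a2 := ((Pot2_ee hγ).pow 2).div hz h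
  exact ((Pot2_AA hδ 1).add (hz.smul (Pot2_mv hδ hz 1))).sub
    (a2.smul (sw.continuous.comp_continuousOn (Pot2_mv hδ a2 1)))

lemma Pot2_La1 (hγ : ContinuousOn γ S) (h : ∀ x ∈ S, AdmG (γ x)) :
    ContinuousOn (fun x => La1 (γ x)) S := by
  unfold La1
  have a := Pot2_c_ee.comp_continuousOn hγ
  have b : ∀ x ∈ S, 16 * ee (γ x) ≠ 0 := fun x hx => by
    have := (h x hx).2.1.1
    positivity
  refine ContinuousOn.log (continuousOn_const.div (continuousOn_const.mul a) b) fun x hx => ?_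
  exact one_div_ne_zero (b x hx)

lemma Pot2_La (hγ : ContinuousOn γ S) (h : ∀ x ∈ S, AdmG (γ x)) :
    ContinuousOn (fun x => La (γ x)) S := by
  unfold La
  have a := Pot2_c_qq.comp_continuousOn hγ
  have b : ∀ x ∈ S, 17 * qq (γ x) ≠ 0 := fun x hx => by
    have := (h x hx).2.2.1.1
    positivity
  refine ContinuousOn.log (continuousOn_const.div (continuousOn_const.mul a) b) fun x hx => ?_
  exact one_div_ne_zero (b x hx)

variable {ρ : X → ℝ}

lemma Pot2_aH (hγ : ContinuousOn γ S) (hδ : ContinuousOn δ S) (hρ : ContinuousOn ρ S)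
    (h : ∀ x ∈ S, AdmG (γ x)) : ContinuousOn (fun x => aH (γ x) (δ x) (ρ x)) S := by
  unfold aH
  refine Pot2_smul ?_ (Pot2_Th hγ hδ ?_ fun x hx => ?_)
  · exact continuous_ofReal.comp_continuousOn
      ((Pot2_c_tt.comp_continuousOn hγ).mul (Pot2_La1 hγ h))
  · exact continuous_ofReal.comp_continuousOn
      ((Pot2_c_ee.comp_continuousOn hγ).mul (hρ.mul (Pot2_La1 hγ h)).rexp)
  · have := (h x hx).2.1.1
    exact ofReal_ne_zero.2 (by positivity)

lemma Pot2_cexp (hρ : ContinuousOn ρ S) :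
    ContinuousOn (fun x => exp (2 * Real.pi * I * ρ x)) S :=
  (continuousOn_const.mul (continuous_ofReal.comp_continuousOn hρ)).cexp

lemma Pot2_a1 (hγ : ContinuousOn γ S) (hδ : ContinuousOn δ S) (hρ : ContinuousOn ρ S)
    (h : ∀ x ∈ S, AdmG (γ x)) : ContinuousOn (fun x => a1 (γ x) (δ x) (ρ x)) S := by
  unfold a1
  refine Pot2_smul ?_ (Pot2_Th hγ hδ ?_ fun x hx => ?_)
  · exact continuousOn_const.mul (Pot2_tt hγ)
  · exact (Pot2_ee hγ).mul (Pot2_cexp hρ)
  · exact mul_ne_zero (ofReal_ne_zero.2 (h x hx).2.1.1.ne') (exp_ne_zero _)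

lemma Pot2_aC (hγ : ContinuousOn γ S) (hδ : ContinuousOn δ S) (hρ : ContinuousOn ρ S)
    (h : ∀ x ∈ S, AdmG (γ x)) (i : Fin 3) :
    ContinuousOn (fun x => aC (γ x) (δ x) (cen i) (rad i) (ρ x)) S := by
  unfold aC
  refine Pot2_smul ?_ (Pot2_Xi hγ hδ ?_ fun x hx j hj => ?_)
  · exact (Pot2_tt hγ).mul (continuousOn_const.mul (Pot2_cexp hρ))
  · exact continuousOn_const.add (continuousOn_const.mul (Pot2_cexp hρ))
  · have := circle_sep (h x hx) i (ρ x) j
    rw [hj, sub_self, norm_zero] at this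
    norm_num at this

lemma Pot2_pos_le (hg : AdmG g) (j : Fin 5) : pos (pp g) j ≤ 1 := by
  obtain ⟨-, -, -, ⟨a1, a2⟩, ⟨b1, b2⟩, ⟨c1, c2⟩⟩ := hg
  fin_cases j <;> simp [pos] <;> linarith

lemma Pot2_aL (hγ : ContinuousOn γ S) (hδ : ContinuousOn δ S) (hρ : ContinuousOn ρ S)
    (h : ∀ x ∈ S, AdmG (γ x)) (h' : ∀ x ∈ S, 0 ≤ ρ x) :
    ContinuousOn (fun x => aL (γ x) (δ x) (ρ x)) S := by
  unfold aL
  have a : ContinuousOn (fun x => 17/16 * Real.exp (ρ x * La (γ x))) S :=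
    continuousOn_const.mul (hρ.mul (Pot2_La hγ h)).rexp
  refine Pot2_smul ?_ (Pot2_Xi hγ hδ ?_ fun x hx j hj => ?_)
  · exact continuous_ofReal.comp_continuousOn
      (((Pot2_c_tt.comp_continuousOn hγ).mul (Pot2_La hγ h)).mul a)
  · exact continuous_ofReal.comp_continuousOn a
  · have k1 := ofReal_injective hj
    have k2 := Pot2_pos_le (h x hx) j
    have k3 := Real.one_le_exp (mul_nonneg (h' x hx) (La_pos (h x hx)).le)
    linarith

lemma Pot2_ne_of_sep {a b : ℝ} {u : ℂ} (h : 7/30 ≤ |a - b|) (hu : ‖u‖ ≤ 1/8) :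
    (a : ℂ) + u ≠ b := by
  intro e
  have : u = ((b - a : ℝ) : ℂ) := by push_cast; linear_combination e
  rw [this, Complex.norm_real, Real.norm_eq_abs, abs_sub_comm] at hu
  linarith

lemma Pot2_Mf (hγ : ContinuousOn γ S) (hδ : ContinuousOn δ S) (hz : ContinuousOn z S)
    (h : ∀ x ∈ S, AdmG (γ x)) (h' : ∀ x ∈ S, ‖z x‖ ≤ 1/8) (i : Fin 3) :
    ContinuousOn (fun x => Mf (γ x) (δ x) i (z x)) S := by
  have n1 : ∀ x ∈ S, z x ≠ 1 := fun x hx e => by
    have := h' x hx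
    rw [e, norm_one] at this
    norm_num at this
  fin_cases i
  · change ContinuousOn (fun x => M0 (γ x) (δ x) (z x)) S
    unfold M0
    refine ((Pot2_rat hγ hδ hz _ fun x hx j hj => ?_).add (Pot2_h1 hγ hδ hz n1)).add
      (Pot2_h0 hγ hδ hz)
    have := Pot2_ne_of_sep (pos_sep (h x hx).2.2.2 (Finset.ne_of_mem_erase hj).symm) (h' x hx)
    rwa [show pos (pp (γ x)) 0 = 0 from rfl, ofReal_zero, zero_add] at this
  · change ContinuousOn (fun x => M1 (γ x) (δ x) (z x)) S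
    unfold M1
    have a : ContinuousOn (fun x => 1 + z x) S := continuousOn_const.add hz
    have b : ∀ x ∈ S, ∀ j : Fin 5, j ≠ 1 → 1 + z x ≠ pos (pp (γ x)) j := fun x hx j hj => by
      have := Pot2_ne_of_sep (pos_sep (h x hx).2.2.2 hj.symm) (h' x hx)
      rwa [show pos (pp (γ x)) 1 = 1 from rfl, ofReal_one] at this
    refine ((Pot2_rat hγ hδ a _ fun x hx j hj => b x hx j (Finset.ne_of_mem_erase hj)).add
      (Pot2_hinf hγ hδ a fun x hx => ?_)).add (Pot2_h0 hγ hδ a)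
    have := b x hx 0 (by decide)
    rwa [show pos (pp (γ x)) 0 = 0 from rfl, ofReal_zero] at this
  · change ContinuousOn (fun x => M2 (γ x) (δ x) (z x)) S
    unfold M2
    have a1 : ContinuousOn (fun x => 1 - z x) S := continuousOn_const.sub hz
    have a2 := (Pot2_ee hγ).pow 2
    have n2 : ∀ x ∈ S, 1 - z x ≠ 0 := fun x hx => sub_ne_zero.2 (n1 x hx).symm
    refine Pot2_add (Pot2_sub ?_ (Pot2_smul ?_ ?_))
      (Pot2_smul (Pot2_qq hγ) ?_)
    · refine continuousOn_finset_sum _ fun j _ => Pot2_smul ?_ (Pot2_AA hδ j)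
      refine (Pot2_pos hγ j).div (continuousOn_const.sub ((Pot2_pos hγ j).mul hz)) fun x hx e => ?_
      have k1 : ‖((pos (pp (γ x)) j : ℝ) : ℂ) * z x‖ = 1 := by
        rw [← sub_eq_zero.1 e, norm_one]
      rw [norm_mul, Complex.norm_real, Real.norm_eq_abs] at k1
      have k2 := abs_pos_le (h x hx).2.2.2 j
      have k3 := h' x hx
      have k4 := abs_nonneg (pos (pp (γ x)) j)
      have k5 := norm_nonneg (z x)
      nlinarith
    · exact a2.div (a1.pow 2) fun x hx => pow_ne_zero 2 (n2 x hx)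
    · exact sw.continuous.comp_continuousOn (Pot2_mv hδ ((a2.mul hz).div a1 n2) 1)
    · exact ((Pot2_GG hδ).mul (Pot2_mv hδ ((Pot2_qq hγ).mul hz) 2)).mul
        (adj.continuous.comp_continuousOn (Pot2_GG hδ))

end gen

lemma jc_Xi : ContinuousOn (fun x : (Geo × Dat) × ℂ => Xi x.1.1 x.1.2 x.2)
    {x | ∀ j, x.2 ≠ pos (pp x.1.1) j} :=
  Pot2_Xi continuous_fst.fst.continuousOn continuous_fst.snd.continuousOn
    continuous_snd.continuousOn fun _ hx => hx
lemma jc_Th : ContinuousOn (fun x : (Geo × Dat) × ℂ => Th x.1.1 x.1.2 x.2) {x | x.2 ≠ 0} :=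
  Pot2_Th continuous_fst.fst.continuousOn continuous_fst.snd.continuousOn
    continuous_snd.continuousOn fun _ hx => hx
lemma jc_aH : ContinuousOn (fun x : (Geo × Dat) × ℝ => aH x.1.1 x.1.2 x.2) {x | AdmG x.1.1} :=
  Pot2_aH continuous_fst.fst.continuousOn continuous_fst.snd.continuousOn
    continuous_snd.continuousOn fun _ hx => hx
lemma jc_a1 : ContinuousOn (fun x : (Geo × Dat) × ℝ => a1 x.1.1 x.1.2 x.2) {x | AdmG x.1.1} :=
  Pot2_a1 continuous_fst.fst.continuousOn continuous_fst.snd.continuousOn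
    continuous_snd.continuousOn fun _ hx => hx
lemma jc_aC (i : Fin 3) : ContinuousOn
    (fun x : (Geo × Dat) × ℝ => aC x.1.1 x.1.2 (cen i) (rad i) x.2) {x | AdmG x.1.1} :=
  Pot2_aC continuous_fst.fst.continuousOn continuous_fst.snd.continuousOn
    continuous_snd.continuousOn (fun _ hx => hx) i
lemma jc_aL : ContinuousOn (fun x : (Geo × Dat) × ℝ => aL x.1.1 x.1.2 x.2)
    {x | AdmG x.1.1 ∧ 0 ≤ x.2} :=
  Pot2_aL continuous_fst.fst.continuousOn continuous_fst.snd.continuousOn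
    continuous_snd.continuousOn (fun _ hx => hx.1) (fun _ hx => hx.2)
lemma continuous_aH (hg : AdmG g) : Continuous (aH g d) :=
  continuousOn_univ.1 (Pot2_aH (γ := fun _ => g) (δ := fun _ => d) (ρ := fun r => r)
    continuousOn_const continuousOn_const continuousOn_id fun _ _ => hg)
lemma continuous_a1 (hg : AdmG g) : Continuous (a1 g d) :=
  continuousOn_univ.1 (Pot2_a1 (γ := fun _ => g) (δ := fun _ => d) (ρ := fun r => r)
    continuousOn_const continuousOn_const continuousOn_id fun _ _ => hg)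
lemma continuous_aC (hg : AdmG g) (i : Fin 3) : Continuous (aC g d (cen i) (rad i)) :=
  continuousOn_univ.1 (Pot2_aC (γ := fun _ => g) (δ := fun _ => d) (ρ := fun r => r)
    continuousOn_const continuousOn_const continuousOn_id (fun _ _ => hg) i)
lemma continuousOn_aL (hg : AdmG g) : ContinuousOn (aL g d) (Icc 0 1) :=
  Pot2_aL (γ := fun _ => g) (δ := fun _ => d) (ρ := fun r => r)
    continuousOn_const continuousOn_const continuousOn_id (fun _ _ => hg) fun _ hx => hx.1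

lemma Pot2_one_mem : (1:ℝ) ∈ Icc (0:ℝ) 1 := right_mem_Icc.2 zero_le_one
lemma Pot2_half_mem : (1/2:ℝ) ∈ Icc (0:ℝ) 1 := ⟨by norm_num, by norm_num⟩

lemma Pot2_disc (z : Disc) : ‖(z : ℂ) / 8‖ ≤ 1/8 := by
  have := mem_closedBall_zero_iff.1 z.2
  rw [norm_div]
  have e : ‖(8 : ℂ)‖ = 8 := by simp
  rw [e]
  linarith

lemma co_HH : ContinuousOn (fun x : Geo × Dat => HH x.1 x.2) {x | AdmG x.1} :=
  continuousOn_Hol (F := fun (x : Geo × Dat) r => aH x.1 x.2 r)
    (jc_aH.mono fun _ hx => hx.1) Pot2_one_mem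
lemma co_R1 : ContinuousOn (fun x : Geo × Dat => R1 x.1 x.2) {x | AdmG x.1} :=
  continuousOn_Hol (F := fun (x : Geo × Dat) r => a1 x.1 x.2 r)
    (jc_a1.mono fun _ hx => hx.1) Pot2_one_mem
lemma Pot2_co_TT (i : Fin 3) {r : ℝ} (hr : r ∈ Icc (0:ℝ) 1) :
    ContinuousOn (fun x : Geo × Dat => TT x.1 x.2 i r) {x | AdmG x.1} :=
  continuousOn_Hol (F := fun (x : Geo × Dat) r => aC x.1 x.2 (cen i) (rad i) r)
    ((jc_aC i).mono fun _ hx => hx.1) hr
lemma co_RR (i : Fin 3) : ContinuousOn (fun x : Geo × Dat => RR x.1 x.2 i) {x | AdmG x.1} :=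
  (co_HH.mul (Pot2_co_TT i Pot2_one_mem)).mul (adj.continuous.comp_continuousOn co_HH)
lemma co_Php : ContinuousOn (fun x : Geo × Dat => Php x.1 x.2) {x | AdmG x.1} :=
  co_HH.mul (Pot2_co_TT 0 Pot2_half_mem)
lemma co_Phm : ContinuousOn (fun x : Geo × Dat => Phm x.1 x.2) {x | AdmG x.1} :=
  (adj.continuous.comp_continuousOn (co_RR 0)).mul co_Php
lemma co_Phi : ContinuousOn (fun x : Geo × Dat => Phi x.1 x.2) {x | AdmG x.1} :=
  co_HH.mul (continuousOn_Hol (F := fun (x : Geo × Dat) r => aL x.1 x.2 r)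
    (jc_aL.mono fun _ hx => ⟨hx.1, hx.2.1⟩) Pot2_one_mem)
lemma co_MM (i : Fin 3) : ContinuousOn (fun x : Geo × Dat => MM x.1 x.2 i) {x | AdmG x.1} :=
  continuousOn_cmk (F := fun (x : Geo × Dat) (z : Disc) => Mf x.1 x.2 i (z / 8))
    (Pot2_Mf continuous_fst.fst.continuousOn continuous_fst.snd.continuousOn
      ((continuous_subtype_val.comp continuous_snd).div_const 8).continuousOn
      (fun _ hx => hx.1) (fun x _ => Pot2_disc x.2) i)
lemma co_Th : ContinuousOn (fun x : Geo × Dat => Th x.1 x.2 (ee x.1)) {x | AdmG x.1} :=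
  Pot2_Th continuous_fst.continuousOn continuous_snd.continuousOn
    (Pot2_ee continuous_fst.continuousOn) fun _ hx => ofReal_ne_zero.2 hx.2.1.1.ne'
lemma co_Xi : ContinuousOn (fun x : Geo × Dat => Xi x.1 x.2 ((1 / √(qq x.1) : ℝ) : ℂ))
    {x | AdmG x.1} := by
  refine Pot2_Xi continuous_fst.continuousOn continuous_snd.continuousOn ?_ fun x hx j hj => ?_
  · refine continuous_ofReal.comp_continuousOn (continuousOn_const.div ?_ fun x hx => ?_)
    · exact (Real.continuous_sqrt.comp (Pot2_c_qq.comp continuous_fst)).continuousOn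
    · exact (Real.sqrt_pos.2 hx.2.2.1.1).ne'
  · have k1 := ofReal_injective hj
    have k2 := Pot2_pos_le hx j
    have k3 : 0 < √(qq x.1) := Real.sqrt_pos.2 hx.2.2.1.1
    have k4 : √(qq x.1) < 1 := by
      rw [Real.sqrt_lt' one_pos]
      linarith [hx.2.2.1.2]
    rw [← k1, div_le_one k3] at k2
    linarith
lemma co_reg (j : Fin 3) : ContinuousOn (fun x : Geo × Dat => reg x.1 x.2 (cj5 j) (pp x.1 j))
    {x | AdmG x.1} := by
  have hγ : ContinuousOn (fun x : Geo × Dat => x.1) {x | AdmG x.1} := continuous_fst.continuousOn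
  have hδ : ContinuousOn (fun x : Geo × Dat => x.2) {x | AdmG x.1} := continuous_snd.continuousOn
  have hz : ContinuousOn (fun x : Geo × Dat => ((pp x.1 j : ℝ) : ℂ)) {x | AdmG x.1} :=
    (continuous_ofReal.comp ((continuous_apply j).comp continuous_fst.snd.snd.snd)).continuousOn
  have b : ∀ x ∈ {x : Geo × Dat | AdmG x.1}, ∀ i : Fin 5, i ≠ cj5 j →
      ((pp x.1 j : ℝ) : ℂ) ≠ pos (pp x.1) i := fun x hx i hi e => by
    have := pos_sep hx.2.2.2 hi
    rw [pos_cj5, ← ofReal_injective e, sub_self, abs_zero] at this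
    norm_num at this
  unfold reg
  refine (((Pot2_rat hγ hδ hz _ fun x hx i hi => b x hx i (Finset.ne_of_mem_erase hi)).add
    (Pot2_h1 hγ hδ hz fun x hx => ?_)).add (Pot2_hinf hγ hδ hz fun x hx => ?_)).add
    (Pot2_h0 hγ hδ hz)
  · have := b x hx 1 (by fin_cases j <;> decide)
    rwa [show pos (pp x.1) 1 = 1 from rfl, ofReal_one] at this
  · have := b x hx 0 (by fin_cases j <;> decide)
    rwa [show pos (pp x.1) 0 = 0 from rfl, ofReal_zero] at this

/-! ### holomorphy in the data -/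

section dif
variable {U : Set ℂ} {c : ℂ → Dat}

lemma Pot2_dsmul (a : ℂ) {F : ℂ → MW} (hF : DifferentiableOn ℂ F U) :
    DifferentiableOn ℂ (fun τ => a • F τ) U := hF.const_smul a
lemma Pot2_dmul {F G : ℂ → MW} (hF : DifferentiableOn ℂ F U) (hG : DifferentiableOn ℂ G U) :
    DifferentiableOn ℂ (fun τ => F τ * G τ) U := hF.mul hG
lemma Pot2_dadd {F G : ℂ → MW} (hF : DifferentiableOn ℂ F U) (hG : DifferentiableOn ℂ G U) :
    DifferentiableOn ℂ (fun τ => F τ + G τ) U := hF.add hG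
lemma Pot2_dsub {F G : ℂ → MW} (hF : DifferentiableOn ℂ F U) (hG : DifferentiableOn ℂ G U) :
    DifferentiableOn ℂ (fun τ => F τ - G τ) U := hF.sub hG
lemma Pot2_dneg {F : ℂ → MW} (hF : DifferentiableOn ℂ F U) :
    DifferentiableOn ℂ (fun τ => -F τ) U := hF.neg
lemma Pot2_d_AA (hc : DifferentiableOn ℂ c U) (j : Fin 5) :
    DifferentiableOn ℂ (fun τ => AA (c τ) j) U :=
  differentiableOn_pi.1 hc.fst j
lemma Pot2_d_GG (hc : DifferentiableOn ℂ c U) : DifferentiableOn ℂ (fun τ => GG (c τ)) U :=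
  hc.snd.fst
lemma Pot2_d_mm (hc : DifferentiableOn ℂ c U) (i : Fin 3) :
    DifferentiableOn ℂ (fun τ => mm (c τ) i) U :=
  differentiableOn_pi.1 hc.snd.snd i
lemma Pot2_d_mv (hc : DifferentiableOn ℂ c U) (i : Fin 3) (z : ℂ) :
    DifferentiableOn ℂ (fun τ => mv (mm (c τ) i) z) U :=
  (differentiable_mv z).comp_differentiableOn (Pot2_d_mm hc i)
lemma Pot2_d_adj {f : ℂ → MW} (hf : DifferentiableOn ℂ f U) :
    DifferentiableOn ℂ (fun τ => adj (f τ)) U :=
  adj.differentiable.comp_differentiableOn hf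
lemma Pot2_d_sw {f : ℂ → MW} (hf : DifferentiableOn ℂ f U) :
    DifferentiableOn ℂ (fun τ => sw (f τ)) U :=
  sw.differentiable.comp_differentiableOn hf
lemma Pot2_d_rat (hc : DifferentiableOn ℂ c U) (s : Finset (Fin 5)) (z : ℂ) :
    DifferentiableOn ℂ (fun τ => rat g (c τ) s z) U := by
  unfold rat
  exact DifferentiableOn.fun_sum fun j _ => Pot2_dsmul _ (Pot2_d_AA hc j)
lemma Pot2_d_h1 (hc : DifferentiableOn ℂ c U) (z : ℂ) :
    DifferentiableOn ℂ (fun τ => h1 g (c τ) z) U := by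
  unfold h1
  exact Pot2_dneg (Pot2_dsmul _ (Pot2_d_sw (Pot2_d_mv hc 1 _)))
lemma Pot2_d_hinf (hc : DifferentiableOn ℂ c U) (z : ℂ) :
    DifferentiableOn ℂ (fun τ => hinf g (c τ) z) U := by
  unfold hinf
  exact Pot2_dsmul _ (Pot2_dmul (Pot2_dmul (Pot2_d_GG hc) (Pot2_d_mv hc 2 _))
    (Pot2_d_adj (Pot2_d_GG hc)))
lemma Pot2_d_h0 (hc : DifferentiableOn ℂ c U) (z : ℂ) :
    DifferentiableOn ℂ (fun τ => h0 g (c τ) z) U := by
  unfold h0
  exact Pot2_dsmul _ (Pot2_dmul (Pot2_dmul (Pot2_d_adj (Pot2_d_GG hc)) (Pot2_d_mv hc 0 _))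
    (Pot2_d_GG hc))
lemma Pot2_d_Xi (hc : DifferentiableOn ℂ c U) (z : ℂ) :
    DifferentiableOn ℂ (fun τ => Xi g (c τ) z) U := by
  unfold Xi
  exact Pot2_dadd (Pot2_dadd (Pot2_dadd (Pot2_d_rat hc _ z) (Pot2_d_h1 hc z)) (Pot2_d_hinf hc z))
    (Pot2_d_h0 hc z)
lemma Pot2_d_Th (hc : DifferentiableOn ℂ c U) (z : ℂ) :
    DifferentiableOn ℂ (fun τ => Th g (c τ) z) U := by
  unfold Th
  exact Pot2_dsub (Pot2_dadd (Pot2_d_AA hc 1) (Pot2_dsmul _ (Pot2_d_mv hc 1 _)))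
    (Pot2_dsmul _ (Pot2_d_sw (Pot2_d_mv hc 1 _)))
lemma Pot2_d_Mf (hc : DifferentiableOn ℂ c U) (i : Fin 3) (z : ℂ) :
    DifferentiableOn ℂ (fun τ => Mf g (c τ) i z) U := by
  fin_cases i
  · change DifferentiableOn ℂ (fun τ => M0 g (c τ) z) U
    unfold M0
    exact Pot2_dadd (Pot2_dadd (Pot2_d_rat hc _ z) (Pot2_d_h1 hc z)) (Pot2_d_h0 hc z)
  · change DifferentiableOn ℂ (fun τ => M1 g (c τ) z) U
    unfold M1
    exact Pot2_dadd (Pot2_dadd (Pot2_d_rat hc _ _) (Pot2_d_hinf hc _)) (Pot2_d_h0 hc _)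
  · change DifferentiableOn ℂ (fun τ => M2 g (c τ) z) U
    unfold M2
    refine Pot2_dadd (Pot2_dsub ?_ (Pot2_dsmul _ (Pot2_d_sw (Pot2_d_mv hc 1 _))))
      (Pot2_dsmul _ (Pot2_dmul (Pot2_dmul (Pot2_d_GG hc) (Pot2_d_mv hc 2 _))
        (Pot2_d_adj (Pot2_d_GG hc))))
    exact DifferentiableOn.fun_sum fun j _ => Pot2_dsmul _ (Pot2_d_AA hc j)

lemma Pot2_cc {K : Type} [TopologicalSpace K] (hc : DifferentiableOn ℂ c U) (T : Set K) :
    ContinuousOn (fun x : ℂ × K => c x.1) (U ×ˢ T) :=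
  hc.continuousOn.comp continuous_fst.continuousOn fun _ hx => hx.1

end dif

section
variable {U : Set ℂ} {c : ℂ → Dat} (hg : AdmG g) (hU : IsOpen U) (hc : DifferentiableOn ℂ c U)
include hg hU hc
lemma ho_HH : DifferentiableOn ℂ (fun τ => HH g (c τ)) U :=
  differentiableOn_Hol hU (F := fun τ r => aH g (c τ) r)
    (Pot2_aH continuousOn_const (Pot2_cc hc _) continuous_snd.continuousOn fun _ _ => hg)
    (fun _ _ => Pot2_dsmul _ (Pot2_d_Th hc _)) Pot2_one_mem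
lemma ho_R1 : DifferentiableOn ℂ (fun τ => R1 g (c τ)) U :=
  differentiableOn_Hol hU (F := fun τ r => a1 g (c τ) r)
    (Pot2_a1 continuousOn_const (Pot2_cc hc _) continuous_snd.continuousOn fun _ _ => hg)
    (fun _ _ => Pot2_dsmul _ (Pot2_d_Th hc _)) Pot2_one_mem
lemma Pot2_ho_TT (i : Fin 3) {r : ℝ} (hr : r ∈ Icc (0:ℝ) 1) :
    DifferentiableOn ℂ (fun τ => TT g (c τ) i r) U :=
  differentiableOn_Hol hU (F := fun τ r => aC g (c τ) (cen i) (rad i) r)
    (Pot2_aC continuousOn_const (Pot2_cc hc _) continuous_snd.continuousOn (fun _ _ => hg) i)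
    (fun _ _ => Pot2_dsmul _ (Pot2_d_Xi hc _)) hr
lemma ho_RR (i : Fin 3) : DifferentiableOn ℂ (fun τ => RR g (c τ) i) U :=
  ((ho_HH hg hU hc).mul (Pot2_ho_TT hg hU hc i Pot2_one_mem)).mul (Pot2_d_adj (ho_HH hg hU hc))
lemma ho_Php : DifferentiableOn ℂ (fun τ => Php g (c τ)) U :=
  (ho_HH hg hU hc).mul (Pot2_ho_TT hg hU hc 0 Pot2_half_mem)
lemma ho_Phm : DifferentiableOn ℂ (fun τ => Phm g (c τ)) U :=
  (Pot2_d_adj (ho_RR hg hU hc 0)).mul (ho_Php hg hU hc)
lemma ho_Phi : DifferentiableOn ℂ (fun τ => Phi g (c τ)) U :=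
  (ho_HH hg hU hc).mul (differentiableOn_Hol hU (F := fun τ r => aL g (c τ) r)
    (Pot2_aL continuousOn_const (Pot2_cc hc _) continuous_snd.continuousOn (fun _ _ => hg)
      fun _ hx => hx.2.1)
    (fun _ _ => Pot2_dsmul _ (Pot2_d_Xi hc _)) Pot2_one_mem)
lemma ho_MM (i : Fin 3) : DifferentiableOn ℂ (fun τ => MM g (c τ) i) U :=
  differentiableOn_cmk hU (F := fun τ (z : Disc) => Mf g (c τ) i (z / 8))
    (Pot2_Mf continuousOn_const (Pot2_cc hc _)
      ((continuous_subtype_val.comp continuous_snd).div_const 8).continuousOn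
      (fun _ _ => hg) (fun x _ => Pot2_disc x.2) i)
    fun _ => Pot2_d_Mf hc i _
end

end Pool.Agent.MP_efb2da_gt

end
end
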