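import Pool.Agent.Mg.Fefb2da.G534027

section

open scoped Manifold ContDiff RealInnerProductSpace ComplexConjugate Topology
open Set

noncomputable section

namespace Pool.Agent.MP_efb2da_gt

lemma continuous_hz : Continuous hz := by
  have h : hz = fun v : E3 => ((v 0 : ℝ) : ℂ) + ((v 1 : ℝ) : ℂ) * Complex.I := by
    funext v; apply Complex.ext <;> simp [hz]
  rw [h]; fun_prop

lemma Cmc_continuous_mk3 : Continuous fun x : ℂ × ℝ => mk3 x.1 x.2 := by
  unfold mk3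
  refine (PiLp.continuous_toLp 2 _).comp ?_
  refine continuous_pi fun i => ?_
  fin_cases i
  · exact Complex.continuous_re.comp continuous_fst
  · exact Complex.continuous_im.comp continuous_fst
  · simpa using continuous_snd

lemma continuous_Rot : Continuous fun x : ℂ × E3 => Rot x.1 x.2 := by
  have h1 : Continuous fun x : ℂ × E3 => (x.1 * hz x.2, x.2 2) :=
    (continuous_fst.mul (continuous_hz.comp continuous_snd)).prodMk (by fun_prop)
  exact Cmc_continuous_mk3.comp h1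

lemma continuous_Refl : Continuous Refl := by
  have h1 : Continuous fun v : E3 => (conj (hz v), v 2) :=
    (Complex.continuous_conj.comp continuous_hz).prodMk (by fun_prop)
  exact Cmc_continuous_mk3.comp h1

/-- directional derivative -/
def CmcD (v : ℂ) (X : ℂ → E3) (z : ℂ) : E3 := fderiv ℝ X z v

lemma Cmc_dx (X : ℂ → E3) : dx X = CmcD 1 X := rfl
lemma Cmc_dy (X : ℂ → E3) : dy X = CmcD Complex.I X := rfl

lemma CmcD_congr {X X' : ℂ → E3} {z : ℂ} (he : X' =ᶠ[𝓝 z] X) (v : ℂ) :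
    CmcD v X' =ᶠ[𝓝 z] CmcD v X := by
  filter_upwards [he.fderiv (𝕜 := ℝ)] with w hw
  simp only [CmcD, hw]

lemma CmcD_neg (v : ℂ) (X : ℂ → E3) : CmcD (-v) X = fun z => -CmcD v X z := by
  funext z; simp [CmcD]

lemma CmcD_neg_neg (u v : ℂ) (X : ℂ → E3) (z : ℂ) :
    CmcD (-u) (CmcD (-v) X) z = CmcD u (CmcD v X) z := by
  rw [CmcD_neg v X]
  simp only [CmcD]
  rw [fderiv_fun_neg]
  simp
  rfl

lemma CmcD_diff {X : ℂ → E3} {z : ℂ} (h : ContDiffAt ℝ ∞ X z) (v : ℂ) :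
    DifferentiableAt ℝ (CmcD v X) z := by
  have h2 : ContDiffAt ℝ 2 X z := h.of_le (by
    have : ((2 : ℕ∞) : WithTop ℕ∞) ≤ ((⊤ : ℕ∞) : WithTop ℕ∞) := WithTop.coe_le_coe.mpr le_top
    exact this)
  have h1 : ContDiffAt ℝ 1 (fderiv ℝ X) z := h2.fderiv_right (by norm_num)
  have h3 : DifferentiableAt ℝ (fderiv ℝ X) z := h1.differentiableAt (by norm_num)
  exact h3.clm_apply (differentiableAt_const v)

lemma CmcD_comp_at (L : E3 →L[ℝ] E3) (A : ℂ →L[ℝ] ℂ) (c : ℂ) (b : E3) {X : ℂ → E3} {z : ℂ}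
    (h : DifferentiableAt ℝ X (A z + c)) (v : ℂ) :
    CmcD v (fun w => L (X (A w + c)) + b) z = L (CmcD (A v) X (A z + c)) := by
  have ha : HasFDerivAt (fun w => A w + c) A z := A.hasFDerivAt.add_const c
  have h1 : HasFDerivAt (fun w => X (A w + c)) ((fderiv ℝ X (A z + c)).comp A) z :=
    HasFDerivAt.comp z (g := X) h.hasFDerivAt ha
  have h2 : HasFDerivAt (fun w => L (X (A w + c)) + b)
      (L.comp ((fderiv ℝ X (A z + c)).comp A)) z :=
    (HasFDerivAt.comp z (g := L) L.hasFDerivAt h1).add_const b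
  simp only [CmcD, h2.fderiv]
  simp

lemma CmcD_comp_ev (L : E3 →L[ℝ] E3) (A : ℂ →L[ℝ] ℂ) (c : ℂ) (b : E3) {X : ℂ → E3} {z : ℂ}
    (h : ContDiffAt ℝ ∞ X (A z + c)) (v : ℂ) :
    CmcD v (fun w => L (X (A w + c)) + b) =ᶠ[𝓝 z]
      fun w => L (CmcD (A v) X (A w + c)) + 0 := by
  have h1 : ContDiffAt ℝ 1 X (A z + c) := h.of_le (by exact_mod_cast le_top)
  have h2 : ∀ᶠ y in 𝓝 (A z + c), ContDiffAt ℝ 1 X y := h1.eventually (by simp)
  have ha : ContinuousAt (fun w => A w + c) z := by fun_prop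
  filter_upwards [ha.eventually h2] with w hw
  rw [add_zero]
  exact CmcD_comp_at L A c b (hw.differentiableAt (by norm_num)) v

lemma CmcD_comp2 (L : E3 →L[ℝ] E3) (A : ℂ →L[ℝ] ℂ) (c : ℂ) (b : E3) {X : ℂ → E3} {z : ℂ}
    (h : ContDiffAt ℝ ∞ X (A z + c)) (u v : ℂ) :
    CmcD u (CmcD v (fun w => L (X (A w + c)) + b)) z
      = L (CmcD (A u) (CmcD (A v) X) (A z + c)) := by
  rw [(CmcD_congr (CmcD_comp_ev L A c b h v) u).eq_of_nhds]
  exact CmcD_comp_at L A c 0 (CmcD_diff h (A v)) u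

lemma Cmc_smooth_comp (L : E3 →L[ℝ] E3) (A : ℂ →L[ℝ] ℂ) (c : ℂ) (b : E3) {X : ℂ → E3} {z : ℂ}
    (h : ContDiffAt ℝ ∞ X (A z + c)) : ContDiffAt ℝ ∞ (fun w => L (X (A w + c)) + b) z := by
  have ha : ContDiffAt ℝ ∞ (fun w => A w + c) z := A.contDiff.contDiffAt.add contDiffAt_const
  have h1 : ContDiffAt ℝ ∞ (fun w => X (A w + c)) z := ContDiffAt.comp z (g := X) h ha
  exact (ContDiffAt.comp z (g := L) L.contDiff.contDiffAt h1).add contDiffAt_const

lemma CMCAt.congr {X X' : ℂ → E3} {z : ℂ} (h : CMCAt X z) (he : X' =ᶠ[𝓝 z] X) : CMCAt X' z := by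
  have hx : dx X' =ᶠ[𝓝 z] dx X := CmcD_congr he 1
  have hy : dy X' =ᶠ[𝓝 z] dy X := CmcD_congr he Complex.I
  have hxx : dx (dx X') z = dx (dx X) z := (CmcD_congr hx 1).eq_of_nhds
  have hyy : dy (dy X') z = dy (dy X) z := (CmcD_congr hy Complex.I).eq_of_nhds
  refine ⟨h.smooth.congr_of_eventuallyEq he, ?_, ?_, ?_, ?_⟩
  · rw [hx.eq_of_nhds, hy.eq_of_nhds]; exact h.orth
  · rw [hx.eq_of_nhds, hy.eq_of_nhds]; exact h.conf
  · rw [hx.eq_of_nhds]; exact h.ne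
  · rw [hxx, hyy, hx.eq_of_nhds, hy.eq_of_nhds]; exact h.lap

/-- orientation preserving case -/
lemma Cmc_pos (L : E3 →L[ℝ] E3) (c : ℂ) (b : E3) {X : ℂ → E3} {z : ℂ}
    (hi : ∀ u v, ⟪L u, L v⟫ = ⟪u, v⟫) (hcr : ∀ u v, cr (L u) (L v) = L (cr u v))
    (h : CMCAt X (z + c)) : CMCAt (fun w => L (X (w + c)) + b) z := by
  have hs : ContDiffAt ℝ ∞ X (ContinuousLinearMap.id ℝ ℂ z + c) := h.smooth
  have hd : DifferentiableAt ℝ X (ContinuousLinearMap.id ℝ ℂ z + c) :=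
    hs.differentiableAt (by simp)
  have hn : ∀ u, ‖L u‖ = ‖u‖ := fun u => by
    rw [norm_eq_sqrt_real_inner, norm_eq_sqrt_real_inner, hi]
  have hx : dx (fun w => L (X (w + c)) + b) z = L (dx X (z + c)) :=
    CmcD_comp_at L (ContinuousLinearMap.id ℝ ℂ) c b hd 1
  have hy : dy (fun w => L (X (w + c)) + b) z = L (dy X (z + c)) :=
    CmcD_comp_at L (ContinuousLinearMap.id ℝ ℂ) c b hd Complex.I
  have hxx : dx (dx (fun w => L (X (w + c)) + b)) z = L (dx (dx X) (z + c)) :=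
    CmcD_comp2 L (ContinuousLinearMap.id ℝ ℂ) c b hs 1 1
  have hyy : dy (dy (fun w => L (X (w + c)) + b)) z = L (dy (dy X) (z + c)) :=
    CmcD_comp2 L (ContinuousLinearMap.id ℝ ℂ) c b hs Complex.I Complex.I
  refine ⟨Cmc_smooth_comp L (ContinuousLinearMap.id ℝ ℂ) c b hs, ?_, ?_, ?_, ?_⟩
  · rw [hx, hy, hi]; exact h.orth
  · rw [hx, hy, hn, hn]; exact h.conf
  · rw [hx, ← norm_ne_zero_iff, hn, norm_ne_zero_iff]; exact h.ne
  · rw [hxx, hyy, hx, hy, ← map_add, h.lap, hcr, map_smul]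

/-- rotation as a continuous linear map -/
def CmcRot (o : ℂ) : E3 →L[ℝ] E3 :=
  LinearMap.toContinuousLinearMap
    { toFun := Rot o
      map_add' := fun u v => by
        ext i; fin_cases i <;> simp [Rot, mk3, hz] <;> ring
      map_smul' := fun t v => by
        ext i; fin_cases i <;> simp [Rot, mk3, hz] <;> ring }

/-- reflection as a continuous linear map -/
def CmcRefl : E3 →L[ℝ] E3 :=
  LinearMap.toContinuousLinearMap
    { toFun := Refl
      map_add' := fun u v => by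
        ext i; fin_cases i <;> simp [Refl, mk3, hz] <;> ring
      map_smul' := fun t v => by
        ext i; fin_cases i <;> simp [Refl, mk3, hz] }

lemma CmcRot_apply (o : ℂ) (v : E3) : CmcRot o v = Rot o v := rfl
lemma CmcRefl_apply (v : E3) : CmcRefl v = Refl v := rfl

lemma Cmc_inner (u v : E3) : ⟪u, v⟫ = u 0 * v 0 + u 1 * v 1 + u 2 * v 2 := by
  simp [PiLp.inner_apply, Fin.sum_univ_three]; ring

lemma CMCAt.rot {X : ℂ → E3} {z o : ℂ} (h : CMCAt X z) (ho : ‖o‖ = 1) :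
    CMCAt (fun w => Rot o (X w)) z := by
  have h1 : o.re ^ 2 + o.im ^ 2 = 1 := by
    have := Complex.sq_norm o
    rw [ho, Complex.normSq_apply] at this
    nlinarith
  have h2 := Cmc_pos (CmcRot o) 0 0 (X := X) (z := z) (fun u v => ?_) (fun u v => ?_)
    (by simpa using h)
  · simpa [CmcRot_apply] using h2
  · rw [Cmc_inner, Cmc_inner]
    simp [CmcRot_apply, Rot, mk3, hz]
    linear_combination (u 0 * v 0 + u 1 * v 1) * h1
  · ext i
    fin_cases i <;> simp [CmcRot_apply, Rot, mk3, hz, cr]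
    · ring
    · ring
    · linear_combination (u 0 * v 1 - u 1 * v 0) * h1

lemma CMCAt.refl_conj {X : ℂ → E3} {z : ℂ} (h : CMCAt X (conj z)) :
    CMCAt (fun w => Refl (X (conj w))) z := by
  set A : ℂ →L[ℝ] ℂ := (Complex.conjCLE : ℂ →L[ℝ] ℂ) with hA
  have hAw : ∀ w, A w = conj w := fun w => rfl
  have hA1 : A 1 = 1 := by simp [hAw]
  have hAI : A Complex.I = -Complex.I := by simp [hAw]
  have hz0 : A z + 0 = conj z := by simp [hAw]
  have hF : (fun w => Refl (X (conj w))) = fun w => CmcRefl (X (A w + 0)) + 0 := by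
    funext w; simp [hAw, CmcRefl_apply]
  have hs : ContDiffAt ℝ ∞ X (A z + 0) := by rw [hz0]; exact h.smooth
  have hd : DifferentiableAt ℝ X (A z + 0) := hs.differentiableAt (by simp)
  have hi : ∀ u v, ⟪CmcRefl u, CmcRefl v⟫ = ⟪u, v⟫ := fun u v => by
    rw [Cmc_inner, Cmc_inner]
    simp [CmcRefl_apply, Refl, mk3, hz]
  have hcr : ∀ u v, cr (CmcRefl u) (-CmcRefl v) = CmcRefl (cr u v) := fun u v => by
    ext i
    fin_cases i <;> simp [CmcRefl_apply, Refl, mk3, hz, cr] <;> ring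
  have hn : ∀ u, ‖CmcRefl u‖ = ‖u‖ := fun u => by
    rw [norm_eq_sqrt_real_inner, norm_eq_sqrt_real_inner, hi]
  rw [hF]
  have hx : dx (fun w => CmcRefl (X (A w + 0)) + 0) z = CmcRefl (dx X (conj z)) := by
    rw [Cmc_dx, CmcD_comp_at CmcRefl A 0 0 hd 1, hA1, hz0, Cmc_dx]
  have hy : dy (fun w => CmcRefl (X (A w + 0)) + 0) z = -CmcRefl (dy X (conj z)) := by
    rw [Cmc_dy, CmcD_comp_at CmcRefl A 0 0 hd Complex.I, hAI, hz0, Cmc_dy, CmcD_neg, map_neg]
  have hxx : dx (dx (fun w => CmcRefl (X (A w + 0)) + 0)) z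
      = CmcRefl (dx (dx X) (conj z)) := by
    rw [Cmc_dx, Cmc_dx, CmcD_comp2 CmcRefl A 0 0 hs 1 1, hA1, hz0, Cmc_dx, Cmc_dx]
  have hyy : dy (dy (fun w => CmcRefl (X (A w + 0)) + 0)) z
      = CmcRefl (dy (dy X) (conj z)) := by
    rw [Cmc_dy, Cmc_dy, CmcD_comp2 CmcRefl A 0 0 hs Complex.I Complex.I, hAI, hz0, Cmc_dy, Cmc_dy,
      CmcD_neg_neg]
  refine ⟨Cmc_smooth_comp CmcRefl A 0 0 hs, ?_, ?_, ?_, ?_⟩
  · rw [hx, hy, inner_neg_right, hi, h.orth, neg_zero]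
  · rw [hx, hy, norm_neg, hn, hn]; exact h.conf
  · rw [hx, ← norm_ne_zero_iff, hn, norm_ne_zero_iff]; exact h.ne
  · rw [hxx, hyy, hx, hy, ← map_add, h.lap, hcr, map_smul]

lemma CMCAt.sub_const {X : ℂ → E3} {z : ℂ} (h : CMCAt X z) (c : E3) :
    CMCAt (fun w => X w - c) z := by
  have h2 := Cmc_pos (ContinuousLinearMap.id ℝ E3) 0 (-c) (X := X) (z := z) (fun u v => rfl)
    (fun u v => rfl) (by simpa using h)
  simpa [sub_eq_add_neg] using h2

lemma CMCAt.translate {X : ℂ → E3} {z c : ℂ} (h : CMCAt X (z + c)) :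
    CMCAt (fun w => X (w + c)) z := by
  have h2 := Cmc_pos (ContinuousLinearMap.id ℝ E3) c 0 (X := X) (z := z) (fun u v => rfl)
    (fun u v => rfl) h
  simpa using h2

/-- transport of local charts along an open, locally injective map -/
lemma LocChart.map {T M : Type} [TopologicalSpace T] [TopologicalSpace M] {F : T → E3}
    {f : M → E3} {bT : Set T} {bM : Set M} {π : T → M} (hc : Continuous π) (ho : IsOpenMap π)
    (hi : ∀ x, ∃ U ∈ 𝓝 x, InjOn π U) (hf : ∀ x, f (π x) = F x) (hb : ∀ x, π x ∈ bM ↔ x ∈ bT)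
    {x : T} (h : LocChart F bT x) : LocChart f bM (π x) := by
  obtain ⟨V, w₀, S, ψ, X, hV, hw₀, hψ, hS, hcont, hinj, hop, hcmc, hX⟩ := h
  obtain ⟨U, hU, hUi⟩ := hi x
  have hw₀S : w₀ ∈ S := by
    rcases hS with ⟨rfl, -⟩ | ⟨rfl, h0, -⟩
    · trivial
    · exact h0.ge
  have hcw : ContinuousWithinAt ψ (V ∩ S) w₀ := hcont w₀ ⟨hw₀, hw₀S⟩
  have hU' : ψ ⁻¹' U ∈ 𝓝[V ∩ S] w₀ := hcw (by rw [hψ]; exact hU)
  obtain ⟨W, hW, hw₀W, hWs⟩ := mem_nhdsWithin.mp hU'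
  have hsub : (W ∩ V) ∩ S ⊆ V ∩ S := fun w hw => ⟨hw.1.2, hw.2⟩
  have hmem : ∀ w ∈ (W ∩ V) ∩ S, ψ w ∈ U := fun w hw => hWs ⟨hw.1.1, hw.1.2, hw.2⟩
  refine ⟨W ∩ V, w₀, S, fun w => π (ψ w), X, hW.inter hV, ⟨hw₀W, hw₀⟩, by simp only [hψ], ?_,
    hc.comp_continuousOn (hcont.mono hsub), ?_, ?_, fun w hw => hcmc w hw.2, ?_⟩
  · rcases hS with ⟨h1, h2⟩ | ⟨h1, h0, h2⟩
    · exact Or.inl ⟨h1, fun h3 => h2 ((hb x).mp h3)⟩
    · exact Or.inr ⟨h1, h0, (hb x).mpr h2⟩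
  · intro a ha b hb' hab
    exact hinj (hsub ha) (hsub hb') (hUi (hmem a ha) (hmem b hb') hab)
  · intro V' hV' hsubV
    have h1 := ho _ (hop V' hV' (fun w hw => (hsubV hw).2))
    rwa [image_image] at h1
  · intro w hw
    rw [hf, hX w (hsub hw)]

end Pool.Agent.MP_efb2da_gt

end
end

section

open scoped Manifold ContDiff RealInnerProductSpace ComplexConjugate Topology
open Set

noncomputable section

namespace Pool.Agent.MP_efb2da_gt

/-- the point of `ℂ` with the coordinates of `x` -/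
def toC (x : E2) : ℂ := ⟨x 0, x 1⟩

/-- an atlas indexed by the points, in which `f` is read as a conformal CMC map -/
structure Atlas {M : Type} [TopologicalSpace M] (f : M → E3) (bd : Set M) where
  c : M → OpenPartialHomeomorph M (EuclideanHalfSpace 2)
  X : M → ℂ → E3
  V : M → Set ℂ
  mem : ∀ p, p ∈ (c p).source
  opn : ∀ p, IsOpen (V p)
  tgt : ∀ p, ∀ y ∈ (c p).target, toC y.val ∈ V p
  cmc : ∀ p, ∀ w ∈ V p, CMCAt (X p) w
  eq : ∀ p, ∀ x ∈ (c p).source, f x = X p (toC (c p x).val)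
  bd_iff : ∀ p, p ∈ bd ↔ (c p p).val 0 = 0

/-- the closed right half plane -/
def GlueA_H : Set ℂ := {w | 0 ≤ w.re}

/-- normal form of a local chart: the domain is always a piece of the closed half plane -/
lemma GlueA_norm {M : Type} [TopologicalSpace M] {f : M → E3} {bd : Set M} {p : M}
    (h : LocChart f bd p) :
    ∃ (V : Set ℂ) (w₀ : ℂ) (ψ : ℂ → M) (X : ℂ → E3), IsOpen V ∧ w₀ ∈ V ∧ 0 ≤ w₀.re ∧ ψ w₀ = p ∧
      (p ∈ bd ↔ w₀.re = 0) ∧ ContinuousOn ψ (V ∩ GlueA_H) ∧ InjOn ψ (V ∩ GlueA_H) ∧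
      (∀ V', IsOpen V' → V' ⊆ V → IsOpen (ψ '' (V' ∩ GlueA_H))) ∧
      (∀ w ∈ V, CMCAt X w) ∧ ∀ w ∈ V ∩ GlueA_H, f (ψ w) = X w := by
  obtain ⟨V, w₀, S, ψ, X, hV, hw₀, hψ, hS, hcont, hinj, hop, hcmc, hX⟩ := h
  rcases hS with ⟨rfl, hp⟩ | ⟨rfl, h0, hp⟩
  · have hc : Continuous fun w : ℂ => w + (w₀ - 1) := by fun_prop
    refine ⟨((fun w => w + (w₀ - 1)) ⁻¹' V) ∩ {w | 0 < w.re}, 1, fun w => ψ (w + (w₀ - 1)),
      fun w => X (w + (w₀ - 1)), (hV.preimage hc).inter (isOpen_lt continuous_const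
        Complex.continuous_re), ⟨by simpa using hw₀, by simp⟩, by simp, by simpa using hψ,
      by simpa using hp, ?_, ?_, ?_, ?_, ?_⟩
    · exact hcont.comp hc.continuousOn (fun w hw => ⟨hw.1.1, trivial⟩)
    · intro a ha b hb hab
      exact add_right_cancel (hinj ⟨ha.1.1, trivial⟩ ⟨hb.1.1, trivial⟩ hab)
    · intro V' hV' hsub
      have h1 : IsOpen ((fun w : ℂ => w + (w₀ - 1)) '' V') :=
        (isOpenMap_add_right (w₀ - 1)) V' hV'
      have h2 := hop _ h1 (by rintro _ ⟨w, hw, rfl⟩; exact (hsub hw).1)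
      have h3 : V' ∩ GlueA_H = V' := inter_eq_left.mpr fun w hw =>
        show 0 ≤ w.re from le_of_lt (show 0 < w.re from (hsub hw).2)
      rw [inter_univ, image_image] at h2
      rw [h3]
      exact h2
    · intro w hw
      exact (hcmc _ hw.1).translate
    · intro w hw
      exact hX _ ⟨hw.1.1, trivial⟩
  · exact ⟨V, w₀, ψ, X, hV, hw₀, h0.ge, hψ, ⟨fun _ => h0, fun _ => hp⟩, hcont, hinj, hop, hcmc, hX⟩

lemma GlueA_continuous_toC : Continuous toC := by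
  have h : toC = fun v : E2 => ((v 0 : ℝ) : ℂ) + ((v 1 : ℝ) : ℂ) * Complex.I := by
    funext v; apply Complex.ext <;> simp [toC]
  rw [h]; fun_prop

/-- the retraction of the plane on the model half plane -/
def GlueA_g (w : ℂ) : EuclideanHalfSpace 2 := ⟨!₂[max w.re 0, w.im], by simp⟩

lemma GlueA_continuous_g : Continuous GlueA_g := by
  refine Continuous.subtype_mk ?_ _
  refine (PiLp.continuous_toLp 2 _).comp ?_
  refine continuous_pi fun i => ?_
  fin_cases i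
  · exact Complex.continuous_re.max continuous_const
  · exact Complex.continuous_im

lemma GlueA_g_toC (y : EuclideanHalfSpace 2) : GlueA_g (toC y.val) = y := by
  apply Subtype.ext
  have hy : 0 ≤ y.val 0 := y.property
  ext i
  fin_cases i
  · simp [GlueA_g, toC, hy]
  · simp [GlueA_g, toC]

lemma GlueA_toC_g {w : ℂ} (hw : 0 ≤ w.re) : toC (GlueA_g w).val = w := by
  apply Complex.ext
  · simp [GlueA_g, toC, hw]
  · simp [GlueA_g, toC]

lemma GlueA_toC_mem (y : EuclideanHalfSpace 2) : toC y.val ∈ GlueA_H := y.property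

/-- a chart built from a local parametrisation by a piece of the half plane -/
lemma GlueA_chart {M : Type} [TopologicalSpace M] {V : Set ℂ} {ψ : ℂ → M} (hV : IsOpen V)
    (hcont : ContinuousOn ψ (V ∩ GlueA_H)) (hinj : InjOn ψ (V ∩ GlueA_H))
    (hop : ∀ V', IsOpen V' → V' ⊆ V → IsOpen (ψ '' (V' ∩ GlueA_H))) :
    ∃ c : OpenPartialHomeomorph M (EuclideanHalfSpace 2),
      (∀ y ∈ c.target, toC y.val ∈ V) ∧ (∀ x ∈ c.source, x = ψ (toC (c x).val)) ∧
      ∀ w ∈ V ∩ GlueA_H, ψ w ∈ c.source ∧ c (ψ w) = GlueA_g w := by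
  have hce : Continuous fun y : EuclideanHalfSpace 2 => toC y.val :=
    GlueA_continuous_toC.comp continuous_subtype_val
  set T : Set (EuclideanHalfSpace 2) := {y | toC y.val ∈ V} with hT
  have hTo : IsOpen T := hV.preimage hce
  set φ : EuclideanHalfSpace 2 → M := fun y => ψ (toC y.val) with hφ
  have hφc : ContinuousOn φ T :=
    hcont.comp hce.continuousOn (fun y hy => ⟨hy, GlueA_toC_mem y⟩)
  have hφi : InjOn φ T := by
    intro a ha b hb hab
    have h1 := hinj ⟨ha, GlueA_toC_mem a⟩ ⟨hb, GlueA_toC_mem b⟩ hab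
    rw [← GlueA_g_toC a, h1, GlueA_g_toC]
  have hφo : ∀ U, IsOpen U → U ⊆ T → IsOpen (φ '' U) := by
    intro U hU hUT
    have h1 := hop (GlueA_g ⁻¹' U ∩ V) ((hU.preimage GlueA_continuous_g).inter hV)
      inter_subset_right
    have h2 : φ '' U = ψ '' ((GlueA_g ⁻¹' U ∩ V) ∩ GlueA_H) := by
      ext x
      constructor
      · rintro ⟨y, hy, rfl⟩
        exact ⟨toC y.val, ⟨⟨by rw [mem_preimage, GlueA_g_toC]; exact hy, hUT hy⟩,
          GlueA_toC_mem y⟩, rfl⟩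
      · rintro ⟨w, ⟨⟨hw1, -⟩, hw3⟩, rfl⟩
        exact ⟨GlueA_g w, hw1, by simp only [hφ, GlueA_toC_g hw3]⟩
    rw [h2]; exact h1
  haveI : Nonempty (EuclideanHalfSpace 2) := ⟨GlueA_g 0⟩
  set e : PartialEquiv (EuclideanHalfSpace 2) M := hφi.toPartialEquiv φ T with he
  have hes : e.source = T := rfl
  have hef : (e : EuclideanHalfSpace 2 → M) = φ := rfl
  have ho : IsOpenMap (e.source.domRestrict e) := by
    intro U hU
    have h1 : IsOpen (Subtype.val '' U) := hTo.isOpenMap_subtype_val U hU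
    have h2 := hφo _ h1 (by rintro _ ⟨y, -, rfl⟩; exact y.property)
    rw [image_image] at h2
    exact h2
  let c := OpenPartialHomeomorph.ofContinuousOpenRestrict e hφc ho hTo
  have hcs : c.source = T := rfl
  have hcf : ∀ y, c y = φ y := fun _ => rfl
  refine ⟨c.symm, fun y hy => hy, ?_, ?_⟩
  · intro x hx
    exact (c.right_inv hx).symm
  · intro w hw
    have h1 : GlueA_g w ∈ c.source := by
      rw [hcs, hT, mem_ofPred_eq, GlueA_toC_g hw.2]; exact hw.1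
    have h2 : c (GlueA_g w) = ψ w := by rw [hcf]; simp only [hφ, GlueA_toC_g hw.2]
    refine ⟨?_, ?_⟩
    · rw [← h2]; exact c.map_source h1
    · rw [← h2]; exact c.left_inv h1

theorem exists_atlas {M : Type} [TopologicalSpace M] (f : M → E3) (bd : Set M)
    (h : ∀ p, LocChart f bd p) : Nonempty (Atlas f bd) := by
  choose V w₀ ψ X hV hw₀ hre hψ hbd hcont hinj hop hcmc hX using fun p => GlueA_norm (h p)
  choose c hc1 hc2 hc3 using fun p => GlueA_chart (hV p) (hcont p) (hinj p) (hop p)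
  refine ⟨⟨c, X, V, fun p => ?_, hV, hc1, hcmc, fun p x hx => ?_, fun p => ?_⟩⟩
  · have h1 := (hc3 p (w₀ p) ⟨hw₀ p, hre p⟩).1
    rwa [hψ p] at h1
  · have h1 := hX p _ ⟨hc1 p _ ((c p).map_source hx), GlueA_toC_mem (c p x)⟩
    rwa [← hc2 p x hx] at h1
  · have h1 := (hc3 p (w₀ p) ⟨hw₀ p, hre p⟩).2
    rw [hψ p] at h1
    rw [h1, hbd p]
    simp [GlueA_g, hre p]

/-- the charted space of an atlas -/
@[reducible] def Atlas.cs {M : Type} [TopologicalSpace M] {f : M → E3} {bd : Set M}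
    (A : Atlas f bd) : ChartedSpace (EuclideanHalfSpace 2) M where
  atlas := range A.c
  chartAt := A.c
  mem_chart_source := A.mem
  chart_mem_atlas p := mem_range_self p

theorem Atlas.boundary_eq {M : Type} [TopologicalSpace M] {f : M → E3} {bd : Set M}
    (A : Atlas f bd) : letI := A.cs; (𝓡∂ 2).boundary M = bd := by
  letI := A.cs
  ext p
  rw [A.bd_iff p]
  change extChartAt (𝓡∂ 2) p p ∈ frontier (range (𝓡∂ 2)) ↔ _
  rw [frontier_range_modelWithCornersEuclideanHalfSpace]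
  exact eq_comm

end Pool.Agent.MP_efb2da_gt

end
end

section

open scoped Manifold ContDiff RealInnerProductSpace ComplexConjugate Topology
open Set

noncomputable section

namespace Pool.Agent.MP_efb2da_gt

/-- a linear left inverse of the differential of a conformal immersion -/
lemma GlueB_exists_lin {X : ℂ → E3} {w₀ : ℂ} (h : CMCAt X w₀) :
    ∃ L : E3 →L[ℝ] ℂ, L.comp (fderiv ℝ X w₀) = ContinuousLinearMap.id ℝ ℂ := by
  set a := dx X w₀ with ha
  set b := dy X w₀ with hb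
  have hr : 0 < ‖a‖ ^ 2 := pow_pos (norm_pos_iff.2 h.ne) 2
  have haa : ⟪a, a⟫ = ‖a‖ ^ 2 := real_inner_self_eq_norm_sq a
  have hbb : ⟪b, b⟫ = ‖a‖ ^ 2 := by
    rw [real_inner_self_eq_norm_sq, ha, h.conf]
  have hab : ⟪a, b⟫ = 0 := h.orth
  have hba : ⟪b, a⟫ = 0 := by rw [real_inner_comm]; exact h.orth
  refine ⟨(‖a‖ ^ 2)⁻¹ • ((innerSL ℝ a).smulRight (1:ℂ) + (innerSL ℝ b).smulRight Complex.I), ?_⟩
  ext1 z
  have hz : z = z.re • (1:ℂ) + z.im • Complex.I := by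
    apply Complex.ext <;> simp
  have hD : fderiv ℝ X w₀ z = z.re • a + z.im • b := by
    conv_lhs => rw [hz]
    rw [map_add, map_smul, map_smul]
    rfl
  simp only [ContinuousLinearMap.comp_apply, hD, ContinuousLinearMap.smul_apply,
    ContinuousLinearMap.add_apply, ContinuousLinearMap.smulRight_apply, innerSL_apply_apply,
    inner_add_right, inner_smul_right, haa, hbb, hab, hba, ContinuousLinearMap.id_apply,
    mul_zero, add_zero, zero_add]
  rw [smul_add, smul_smul, smul_smul]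
  have e1 : (‖a‖ ^ 2)⁻¹ * (z.re * ‖a‖ ^ 2) = z.re := by
    rw [mul_comm, mul_assoc, mul_inv_cancel₀ hr.ne', mul_one]
  have e2 : (‖a‖ ^ 2)⁻¹ * (z.im * ‖a‖ ^ 2) = z.im := by
    rw [mul_comm, mul_assoc, mul_inv_cancel₀ hr.ne', mul_one]
  rw [e1, e2]
  exact hz.symm

/-- a CMC chart has a smooth local left inverse -/
theorem exists_left_inv {X : ℂ → E3} {V : Set ℂ} (hV : IsOpen V) (hX : ∀ w ∈ V, CMCAt X w)
    {w₀ : ℂ} (h₀ : w₀ ∈ V) : ∃ (π : E3 → ℂ) (O : Set E3), IsOpen O ∧ X w₀ ∈ O ∧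
      ContDiffOn ℝ ∞ π O ∧ ∀ᶠ w in 𝓝 w₀, π (X w) = w := by
  obtain ⟨L, hL⟩ := GlueB_exists_lin (hX w₀ h₀)
  set g : ℂ → ℂ := fun w => L (X w) with hg
  have hgs : ∀ w ∈ V, ContDiffAt ℝ ∞ g w := fun w hw =>
    L.contDiff.contDiffAt.comp w (hX w hw).smooth
  have hne : (∞ : WithTop ℕ∞) ≠ 0 := by simp
  have hd0 : HasFDerivAt g ((ContinuousLinearEquiv.refl ℝ ℂ : ℂ ≃L[ℝ] ℂ) : ℂ →L[ℝ] ℂ) w₀ := by
    have h1 := L.hasFDerivAt.comp w₀ ((hX w₀ h₀).smooth.differentiableAt hne).hasFDerivAt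
    rw [hL] at h1
    exact h1
  set e := (hgs w₀ h₀).toOpenPartialHomeomorph g hd0 hne with he
  have hec : (e : ℂ → ℂ) = g := rfl
  have hsrc : w₀ ∈ e.source := (hgs w₀ h₀).mem_toOpenPartialHomeomorph_source hd0 hne
  have hgo : ContDiffOn ℝ ∞ g V := fun w hw => (hgs w hw).contDiffWithinAt
  have hcont : ContinuousOn (fun w => fderiv ℝ g w) V :=
    hgo.continuousOn_fderiv_of_isOpen hV (by simp)
  set W : Set ℂ := V ∩ (fun w => fderiv ℝ g w) ⁻¹' {u | IsUnit u} with hW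
  have hWo : IsOpen W := hcont.isOpen_inter_preimage hV Units.isOpen
  have hW0 : w₀ ∈ W := by
    refine ⟨h₀, ?_⟩
    show IsUnit (fderiv ℝ g w₀)
    rw [hd0.fderiv]
    exact isUnit_one
  have hT : IsOpen (e.target ∩ e.symm ⁻¹' W) := e.isOpen_inter_preimage_symm hWo
  refine ⟨fun v => e.symm (L v), L ⁻¹' (e.target ∩ e.symm ⁻¹' W), hT.preimage L.continuous,
    ?_, ?_, ?_⟩
  · have h1 : e w₀ ∈ e.target := e.map_source hsrc
    have h2 : e.symm (e w₀) = w₀ := e.left_inv hsrc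
    refine ⟨h1, ?_⟩
    show e.symm (e w₀) ∈ W
    rw [h2]; exact hW0
  · intro v hv
    obtain ⟨hv1, hv2, hv3⟩ := hv
    obtain ⟨u, hu⟩ : IsUnit (fderiv ℝ g (e.symm (L v))) := hv3
    have hd : HasFDerivAt e ((ContinuousLinearEquiv.unitsEquiv ℝ ℂ u : ℂ ≃L[ℝ] ℂ) : ℂ →L[ℝ] ℂ)
        (e.symm (L v)) := by
      have h1 : ((ContinuousLinearEquiv.unitsEquiv ℝ ℂ u : ℂ ≃L[ℝ] ℂ) : ℂ →L[ℝ] ℂ) =
          fderiv ℝ g (e.symm (L v)) := by
        rw [← hu]
        ext1 z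
        rfl
      rw [h1, hec]
      exact ((hgs _ hv2).differentiableAt hne).hasFDerivAt
    have h2 : ContDiffAt ℝ ∞ e.symm (L v) := e.contDiffAt_symm hv1 hd (hgs _ hv2)
    exact (h2.comp v L.contDiff.contDiffAt).contDiffWithinAt
  · filter_upwards [e.open_source.mem_nhds hsrc] with w hw
    exact e.left_inv hw

lemma GlueB_contDiff_toC : ContDiff ℝ ∞ toC := by
  have h : toC = fun x : E2 => (x 0) • (1:ℂ) + (x 1) • Complex.I := by
    funext x
    apply Complex.ext <;> simp [toC]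
  rw [h]
  fun_prop

lemma GlueB_contDiff_toE2 : ContDiff ℝ ∞ toE2 := by
  rw [contDiff_euclidean]
  intro i
  fin_cases i
  · exact Complex.reCLM.contDiff
  · exact Complex.imCLM.contDiff

lemma GlueB_toE2_toC (x : E2) : toE2 (toC x) = x := by
  ext i
  fin_cases i <;> simp [toE2, toC]

lemma GlueB_symm_val {y : E2} (hy : y ∈ range (𝓡∂ 2)) : ((𝓡∂ 2).symm y).val = y :=
  (𝓡∂ 2).right_inv hy

theorem Atlas.isManifold {M : Type} [TopologicalSpace M] {f : M → E3} {bd : Set M}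
    (A : Atlas f bd) : letI := A.cs; IsManifold (𝓡∂ 2) ∞ M := by
  letI := A.cs
  apply isManifold_of_contDiffOn
  rintro _ _ ⟨p, rfl⟩ ⟨q, rfl⟩ y ⟨hy1, hy2⟩
  simp only [mem_preimage, OpenPartialHomeomorph.trans_source,
    OpenPartialHomeomorph.symm_source, mem_inter_iff] at hy1
  obtain ⟨hy1, hy3⟩ := hy1
  set x := (A.c p).symm ((𝓡∂ 2).symm y) with hx
  have hxq : x ∈ (A.c q).source := hy3
  have hxp : x ∈ (A.c p).source := (A.c p).map_target hy1
  have hq0 : toC (A.c q x).val ∈ A.V q := A.tgt q _ ((A.c q).map_source hxq)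
  obtain ⟨π, O, hO, hO0, hπ, hπl⟩ := exists_left_inv (A.opn q) (A.cmc q) hq0
  have hyV : toC y ∈ A.V p := by
    have := A.tgt p _ hy1
    rwa [GlueB_symm_val hy2] at this
  have hfx : A.X p (toC y) = A.X q (toC (A.c q x).val) := by
    rw [← A.eq q x hxq, A.eq p x hxp, hx, (A.c p).right_inv hy1, GlueB_symm_val hy2]
  have hsm : ContDiffAt ℝ ∞ (fun z : E2 => toE2 (π (A.X p (toC z)))) y := by
    refine GlueB_contDiff_toE2.contDiffAt.comp y ?_
    refine ContDiffAt.comp y (g := π) ?_ ?_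
    · rw [hfx]
      exact hπ.contDiffAt (hO.mem_nhds hO0)
    · exact (A.cmc p _ hyV).smooth.comp y GlueB_contDiff_toC.contDiffAt
  have c1 : ContinuousAt (fun z : E2 => (A.c p).symm ((𝓡∂ 2).symm z)) y :=
    ((A.c p).continuousAt_symm hy1).comp (𝓡∂ 2).continuous_symm.continuousAt
  have c2 : ContinuousAt (fun z : E2 => toC (A.c q ((A.c p).symm ((𝓡∂ 2).symm z))).val) y := by
    refine GlueB_contDiff_toC.continuous.continuousAt.comp ?_
    refine continuous_subtype_val.continuousAt.comp ?_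
    exact ContinuousAt.comp (g := A.c q) ((A.c q).continuousAt hxq) c1
  have ev : ∀ᶠ z in 𝓝 y, π (A.X q (toC (A.c q ((A.c p).symm ((𝓡∂ 2).symm z))).val)) =
      toC (A.c q ((A.c p).symm ((𝓡∂ 2).symm z))).val := c2.eventually hπl
  have key : ∀ z ∈ (𝓡∂ 2).symm ⁻¹' ((A.c p).symm ≫ₕ A.c q).source ∩ range (𝓡∂ 2),
      π (A.X q (toC (A.c q ((A.c p).symm ((𝓡∂ 2).symm z))).val)) =
        toC (A.c q ((A.c p).symm ((𝓡∂ 2).symm z))).val →
      ((𝓡∂ 2) ∘ ((A.c p).symm ≫ₕ A.c q) ∘ (𝓡∂ 2).symm) z = toE2 (π (A.X p (toC z))) := by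
    rintro z ⟨hz1, hz2⟩ hz
    simp only [mem_preimage, OpenPartialHomeomorph.trans_source,
      OpenPartialHomeomorph.symm_source, mem_inter_iff] at hz1
    obtain ⟨hz1, hz3⟩ := hz1
    have h1 : A.X p (toC z) = A.X q (toC (A.c q ((A.c p).symm ((𝓡∂ 2).symm z))).val) := by
      rw [← A.eq q _ hz3, A.eq p _ ((A.c p).map_target hz1), (A.c p).right_inv hz1,
        GlueB_symm_val hz2]
    rw [h1, hz, GlueB_toE2_toC]
    rfl
  refine hsm.contDiffWithinAt.congr_of_eventuallyEq ?_ ?_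
  · filter_upwards [self_mem_nhdsWithin, nhdsWithin_le_nhds ev] with z hz1 hz2
    exact key z hz1 hz2
  · exact key y ⟨⟨hy1, hy3⟩, hy2⟩ ev.self_of_nhds

theorem Atlas.smooth {M : Type} [TopologicalSpace M] {f : M → E3} {bd : Set M}
    (A : Atlas f bd) : letI := A.cs; ContMDiff (𝓡∂ 2) 𝓘(ℝ, E3) ∞ f := by
  letI := A.cs
  intro p
  rw [contMDiffAt_iff_source, contMDiffWithinAt_iff_contDiffWithinAt]
  have hp : A.c p p ∈ (A.c p).target := (A.c p).map_source (A.mem p)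
  have hy : extChartAt (𝓡∂ 2) p p = (A.c p p).val := rfl
  have hsm : ContDiffAt ℝ ∞ (fun z : E2 => A.X p (toC z)) (extChartAt (𝓡∂ 2) p p) := by
    rw [hy]
    exact (A.cmc p _ (A.tgt p _ hp)).smooth.comp _ GlueB_contDiff_toC.contDiffAt
  have key : ∀ z ∈ (extChartAt (𝓡∂ 2) p).target,
      (f ∘ (extChartAt (𝓡∂ 2) p).symm) z = A.X p (toC z) := by
    intro z hz
    rw [extChartAt_target] at hz
    obtain ⟨hz1, hz2⟩ := hz
    have hz1' : (𝓡∂ 2).symm z ∈ (A.c p).target := hz1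
    have e1 : (extChartAt (𝓡∂ 2) p).symm z = (A.c p).symm ((𝓡∂ 2).symm z) := rfl
    rw [Function.comp_apply, e1, A.eq p _ ((A.c p).map_target hz1'), (A.c p).right_inv hz1',
      GlueB_symm_val hz2]
  refine hsm.contDiffWithinAt.congr_of_eventuallyEq ?_ ?_
  · filter_upwards [extChartAt_target_mem_nhdsWithin (I := 𝓡∂ 2) p] with z hz
    exact key z hz
  · exact key _ (mem_extChartAt_target p)

end Pool.Agent.MP_efb2da_gt

end
end

section

open scoped Manifold ContDiff RealInnerProductSpace ComplexConjugate Topology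
open Set

noncomputable section

namespace Pool.Agent.MP_efb2da_gt

/-- unit normal of a conformal chart -/
def nrm (X : ℂ → E3) (w : ℂ) : E3 := (‖dx X w‖ ^ 2)⁻¹ • cr (dx X w) (dy X w)

lemma GlueC_two_le : (2 : WithTop ℕ∞) ≤ ∞ := by
  have : ((2 : ℕ∞) : WithTop ℕ∞) ≤ ((⊤ : ℕ∞) : WithTop ℕ∞) := WithTop.coe_le_coe.mpr le_top
  exact this

lemma GlueC_split (z : ℂ) : z = z.re • (1:ℂ) + z.im • Complex.I := by
  apply Complex.ext <;> simp

lemma GlueC_lin (F : ℂ →L[ℝ] E3) (z : ℂ) : F z = z.re • F 1 + z.im • F Complex.I := by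
  conv_lhs => rw [GlueC_split z]
  rw [map_add, map_smul, map_smul]

lemma GlueC_bil (B : ℂ →L[ℝ] ℂ →L[ℝ] E3) (hB : B Complex.I 1 = B 1 Complex.I) (z : ℂ) :
    B z z = (z.re ^ 2) • B 1 1 + (2 * (z.re * z.im)) • B 1 Complex.I +
      (z.im ^ 2) • B Complex.I Complex.I := by
  have h1 : B z = z.re • B 1 + z.im • B Complex.I := by
    conv_lhs => rw [GlueC_split z]
    rw [map_add, map_smul, map_smul]
  rw [h1, ContinuousLinearMap.add_apply, ContinuousLinearMap.smul_apply,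
    ContinuousLinearMap.smul_apply, GlueC_lin (B 1) z, GlueC_lin (B Complex.I) z, hB]
  module

/-- second derivative of a composition -/
lemma GlueC_second {X' : ℂ → E3} {τ : ℂ → ℂ} {w : ℂ} (hX' : ContDiffAt ℝ ∞ X' (τ w))
    (hτ : ContDiffAt ℝ ∞ τ w) (v : ℂ) : ∃ y : ℂ,
    CmcD v (CmcD v (X' ∘ τ)) w =
      fderiv ℝ (fderiv ℝ X') (τ w) (fderiv ℝ τ w v) (fderiv ℝ τ w v) + fderiv ℝ X' (τ w) y := by
  have hτ1 : ∀ᶠ z in 𝓝 w, ContDiffAt ℝ 1 τ z :=
    (hτ.of_le (by exact_mod_cast le_top)).eventually (by simp)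
  have hX1 : ∀ᶠ z in 𝓝 (τ w), ContDiffAt ℝ 1 X' z :=
    (hX'.of_le (by exact_mod_cast le_top)).eventually (by simp)
  have hev : CmcD v (X' ∘ τ) =ᶠ[𝓝 w] fun z => fderiv ℝ X' (τ z) (fderiv ℝ τ z v) := by
    filter_upwards [hτ1, hτ.continuousAt.eventually hX1] with z h1 h2
    simp only [CmcD]
    rw [fderiv_comp z (h2.differentiableAt (by norm_num)) (h1.differentiableAt (by norm_num))]
    rfl
  have d1 : DifferentiableAt ℝ (fderiv ℝ X') (τ w) :=
    (((hX'.of_le GlueC_two_le).fderiv_right (m := 1) (by norm_num))).differentiableAt (by norm_num)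
  have d2 : DifferentiableAt ℝ (fderiv ℝ τ) w :=
    (((hτ.of_le GlueC_two_le).fderiv_right (m := 1) (by norm_num))).differentiableAt (by norm_num)
  have d3 : DifferentiableAt ℝ τ w := hτ.differentiableAt (by simp)
  have d4 : DifferentiableAt ℝ (fun z => fderiv ℝ τ z v) w := d2.clm_apply (differentiableAt_const v)
  have h1 : HasFDerivAt (fun z => fderiv ℝ X' (τ z))
      ((fderiv ℝ (fderiv ℝ X') (τ w)).comp (fderiv ℝ τ w)) w :=
    HasFDerivAt.comp w (g := fderiv ℝ X') d1.hasFDerivAt d3.hasFDerivAt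
  have h2 := h1.clm_apply d4.hasFDerivAt
  refine ⟨fderiv ℝ (fun z => fderiv ℝ τ z v) w v, ?_⟩
  rw [(CmcD_congr hev v).eq_of_nhds]
  simp only [CmcD]
  rw [h2.fderiv]
  simp only [ContinuousLinearMap.add_apply, ContinuousLinearMap.comp_apply,
    ContinuousLinearMap.flip_apply]
  rw [add_comm]

lemma GlueC_second' {X : ℂ → E3} {w : ℂ} (hX : ContDiffAt ℝ ∞ X w) (v : ℂ) :
    CmcD v (CmcD v X) w = fderiv ℝ (fderiv ℝ X) w v v := by
  have d1 : DifferentiableAt ℝ (fderiv ℝ X) w :=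
    (((hX.of_le GlueC_two_le).fderiv_right (m := 1) (by norm_num))).differentiableAt (by norm_num)
  have h2 := d1.hasFDerivAt.clm_apply (hasFDerivAt_const v w)
  have : CmcD v X = fun z => fderiv ℝ X z v := rfl
  rw [this]
  simp only [CmcD]
  rw [h2.fderiv]
  simp

lemma GlueC_cr_lin (a b c d : ℝ) (u v : E3) :
    cr (a • u + b • v) (c • u + d • v) = (a * d - b * c) • cr u v := by
  ext i
  fin_cases i <;> simp [cr] <;> ring

lemma GlueC_inner_cr_left (u v : E3) : ⟪u, cr u v⟫ = 0 := by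
  rw [Cmc_inner]; simp [cr]; ring

lemma GlueC_inner_cr_right (u v : E3) : ⟪v, cr u v⟫ = 0 := by
  rw [Cmc_inner]; simp [cr]; ring

lemma GlueC_inner_cr_cr (u v : E3) : ⟪cr u v, cr u v⟫ = ⟪u, u⟫ * ⟪v, v⟫ - ⟪u, v⟫ ^ 2 := by
  simp only [Cmc_inner]; simp [cr]; ring

lemma GlueC_alg {a b c d : ℝ} (h1 : a * c + b * d = 0) (h2 : a ^ 2 + b ^ 2 = c ^ 2 + d ^ 2)
    (h3 : 0 < a ^ 2 + b ^ 2) : d ^ 2 = a ^ 2 ∧ c ^ 2 = b ^ 2 ∧ a * b + c * d = 0 := by
  set s := a ^ 2 + b ^ 2 with hs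
  set δ := a * d - b * c with hδ
  have e0 : δ ^ 2 = s ^ 2 := by
    have : δ ^ 2 = (a ^ 2 + b ^ 2) * (c ^ 2 + d ^ 2) - (a * c + b * d) ^ 2 := by rw [hδ]; ring
    rw [this, h1, ← h2, ← hs]; ring
  have e1 : d * s = a * δ := by rw [hs, hδ]; linear_combination b * h1
  have e2 : c * s = -(b * δ) := by rw [hs, hδ]; linear_combination a * h1
  have hs2 : s ^ 2 ≠ 0 := pow_ne_zero 2 h3.ne'
  refine ⟨mul_right_cancel₀ hs2 ?_, mul_right_cancel₀ hs2 ?_, mul_right_cancel₀ hs2 ?_⟩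
  · calc d ^ 2 * s ^ 2 = (d * s) ^ 2 := by ring
      _ = a ^ 2 * δ ^ 2 := by rw [e1]; ring
      _ = a ^ 2 * s ^ 2 := by rw [e0]
  · calc c ^ 2 * s ^ 2 = (c * s) ^ 2 := by ring
      _ = b ^ 2 * δ ^ 2 := by rw [e2]; ring
      _ = b ^ 2 * s ^ 2 := by rw [e0]
  · calc (a * b + c * d) * s ^ 2 = a * b * s ^ 2 + (c * s) * (d * s) := by ring
      _ = a * b * s ^ 2 - a * b * δ ^ 2 := by rw [e1, e2]; ring
      _ = 0 * s ^ 2 := by rw [e0]; ring

lemma GlueC_nrm_comp {X' : ℂ → E3} {τ : ℂ → ℂ} {w : ℂ} (hX : CMCAt (X' ∘ τ) w)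
    (hX' : CMCAt X' (τ w)) (hτ : ContDiffAt ℝ ∞ τ w) : nrm (X' ∘ τ) w = nrm X' (τ w) := by
  have hd : fderiv ℝ (X' ∘ τ) w = (fderiv ℝ X' (τ w)).comp (fderiv ℝ τ w) :=
    fderiv_comp w (hX'.smooth.differentiableAt (by simp)) (hτ.differentiableAt (by simp))
  obtain ⟨y1, hy1⟩ := GlueC_second hX'.smooth hτ 1
  obtain ⟨y2, hy2⟩ := GlueC_second hX'.smooth hτ Complex.I
  have hsym : fderiv ℝ (fderiv ℝ X') (τ w) Complex.I 1 =
      fderiv ℝ (fderiv ℝ X') (τ w) 1 Complex.I :=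
    (hX'.smooth.isSymmSndFDerivAt (by simpa using GlueC_two_le)) Complex.I 1
  have hl' := hX'.lap
  have hl := hX.lap
  have horth' := hX'.orth
  have hconf' := hX'.conf
  have horth := hX.orth
  have hconf := hX.conf
  have hne := hX.ne
  have hr : 0 < ‖dx X' (τ w)‖ ^ 2 := pow_pos (norm_pos_iff.2 hX'.ne) 2
  have s1 : dx (dx X') (τ w) = fderiv ℝ (fderiv ℝ X') (τ w) 1 1 := GlueC_second' hX'.smooth 1
  have s2 : dy (dy X') (τ w) = fderiv ℝ (fderiv ℝ X') (τ w) Complex.I Complex.I :=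
    GlueC_second' hX'.smooth Complex.I
  have t1 : dx (dx (X' ∘ τ)) w = _ := hy1
  have t2 : dy (dy (X' ∘ τ)) w = _ := hy2
  rw [s1, s2] at hl'
  rw [t1, t2, GlueC_bil _ hsym (fderiv ℝ τ w 1), GlueC_bil _ hsym (fderiv ℝ τ w Complex.I),
    GlueC_lin _ y1, GlueC_lin _ y2] at hl
  have u1 : dx (X' ∘ τ) w = (fderiv ℝ τ w 1).re • dx X' (τ w) +
      (fderiv ℝ τ w 1).im • dy X' (τ w) := by
    show fderiv ℝ (X' ∘ τ) w 1 = _
    rw [hd, ContinuousLinearMap.comp_apply, GlueC_lin]; rfl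
  have u2 : dy (X' ∘ τ) w = (fderiv ℝ τ w Complex.I).re • dx X' (τ w) +
      (fderiv ℝ τ w Complex.I).im • dy X' (τ w) := by
    show fderiv ℝ (X' ∘ τ) w Complex.I = _
    rw [hd, ContinuousLinearMap.comp_apply, GlueC_lin]; rfl
  have v1 : fderiv ℝ X' (τ w) 1 = dx X' (τ w) := rfl
  have v2 : fderiv ℝ X' (τ w) Complex.I = dy X' (τ w) := rfl
  rw [v1, v2] at hl
  unfold nrm
  rw [u1, u2] at hl horth hconf ⊢
  rw [u1] at hne
  generalize (fderiv ℝ τ w 1).re = a at *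
  generalize (fderiv ℝ τ w 1).im = b at *
  generalize (fderiv ℝ τ w Complex.I).re = c at *
  generalize (fderiv ℝ τ w Complex.I).im = d at *
  generalize fderiv ℝ (fderiv ℝ X') (τ w) 1 1 = B1 at *
  generalize fderiv ℝ (fderiv ℝ X') (τ w) 1 Complex.I = B2 at *
  generalize fderiv ℝ (fderiv ℝ X') (τ w) Complex.I Complex.I = B3 at *
  generalize dx X' (τ w) = e1 at *
  generalize dy X' (τ w) = e2 at *
  have h11 : ⟪e1, e1⟫ = ‖e1‖ ^ 2 := real_inner_self_eq_norm_sq e1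
  have h22 : ⟪e2, e2⟫ = ‖e1‖ ^ 2 := by rw [real_inner_self_eq_norm_sq, hconf']
  have h21 : ⟪e2, e1⟫ = 0 := by rw [real_inner_comm]; exact horth'
  have hin : ∀ a b c d : ℝ, ⟪a • e1 + b • e2, c • e1 + d • e2⟫ = (a * c + b * d) * ‖e1‖ ^ 2 := by
    intro a b c d
    simp only [inner_add_left, inner_add_right, real_inner_smul_left, real_inner_smul_right,
      h11, h22, h21, horth']
    ring
  have hn : ∀ a b : ℝ, ‖a • e1 + b • e2‖ ^ 2 = (a ^ 2 + b ^ 2) * ‖e1‖ ^ 2 := by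
    intro a b
    rw [← real_inner_self_eq_norm_sq, hin]; ring
  have k1 : a * c + b * d = 0 := by
    rw [hin] at horth
    exact (mul_eq_zero.1 horth).resolve_right hr.ne'
  have k2 : a ^ 2 + b ^ 2 = c ^ 2 + d ^ 2 := by
    apply mul_right_cancel₀ hr.ne'
    rw [← hn, ← hn, hconf]
  have k3 : 0 < a ^ 2 + b ^ 2 := by
    have : 0 < ‖a • e1 + b • e2‖ ^ 2 := pow_pos (norm_pos_iff.2 hne) 2
    rw [hn] at this
    exact (mul_pos_iff_of_pos_right hr).1 this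
  obtain ⟨m1, m2, m3⟩ := GlueC_alg k1 k2 k3
  rw [GlueC_cr_lin] at hl ⊢
  have nn : ⟪cr e1 e2, cr e1 e2⟫ = (‖e1‖ ^ 2) ^ 2 := by
    rw [GlueC_inner_cr_cr, h11, h22, horth']; ring
  have p' := congrArg (fun x => ⟪x, cr e1 e2⟫) hl'
  have p := congrArg (fun x => ⟪x, cr e1 e2⟫) hl
  simp only [inner_add_left, real_inner_smul_left, GlueC_inner_cr_left, GlueC_inner_cr_right,
    nn] at p p'
  have q : (a * d - b * c) * (‖e1‖ ^ 2) ^ 2 = (a ^ 2 + b ^ 2) * (‖e1‖ ^ 2) ^ 2 := by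
    linear_combination (-(1/4) : ℝ) * p + (1/4 : ℝ) * (a ^ 2 + b ^ 2) * p' +
      (1/4 : ℝ) * ⟪B1, cr e1 e2⟫ * m2 + (1/4 : ℝ) * ⟪B3, cr e1 e2⟫ * m1 +
      (1/2 : ℝ) * ⟪B2, cr e1 e2⟫ * m3
  have q' : a * d - b * c = a ^ 2 + b ^ 2 := mul_right_cancel₀ (pow_ne_zero 2 hr.ne') q
  rw [hn, q', smul_smul]
  congr 1
  field_simp

lemma GlueC_nrm_congr {X X' : ℂ → E3} {w : ℂ} (he : X =ᶠ[𝓝 w] X') : nrm X w = nrm X' w := by
  have hx : dx X w = dx X' w := (CmcD_congr he 1).eq_of_nhds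
  have hy : dy X w = dy X' w := (CmcD_congr he Complex.I).eq_of_nhds
  unfold nrm
  rw [hx, hy]

/-- Two CMC charts related by a smooth change of coordinates have the same normal. -/
theorem nrm_eq {X X' : ℂ → E3} {τ : ℂ → ℂ} {w : ℂ} (hX : CMCAt X w) (hX' : CMCAt X' (τ w))
    (hτ : ContDiffAt ℝ ∞ τ w) (he : X =ᶠ[𝓝 w] X' ∘ τ) : nrm X w = nrm X' (τ w) := by
  rw [GlueC_nrm_congr he]
  exact GlueC_nrm_comp (hX.congr he.symm) hX' hτ

lemma GlueC_continuous_cr : Continuous fun x : E3 × E3 => cr x.1 x.2 := by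
  refine (PiLp.continuous_toLp 2 _).comp ?_
  refine continuous_pi fun i => ?_
  fin_cases i <;> simp <;> fun_prop

lemma GlueC_continuousAt_nrm {X : ℂ → E3} {w : ℂ} (h : CMCAt X w) : ContinuousAt (nrm X) w := by
  have h0 : ContinuousAt (fderiv ℝ X) w := h.smooth.continuousAt_fderiv (by simp)
  have h1 : ContinuousAt (dx X) w := h0.clm_apply continuousAt_const
  have h2 : ContinuousAt (dy X) w := h0.clm_apply continuousAt_const
  have h3 : ContinuousAt (fun z => cr (dx X z) (dy X z)) w :=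
    ContinuousAt.comp (f := fun z => (dx X z, dy X z)) (g := fun x : E3 × E3 => cr x.1 x.2)
      GlueC_continuous_cr.continuousAt (h1.prodMk h2)
  have h4 : ContinuousAt (fun z => (‖dx X z‖ ^ 2)⁻¹) w :=
    (h1.norm.pow 2).inv₀ (pow_ne_zero 2 (norm_ne_zero_iff.2 h.ne))
  exact h4.smul h3

/-- the normal does not depend on the chart -/
lemma GlueC_indep {M : Type} [TopologicalSpace M] {f : M → E3} {bd : Set M}
    (A : Atlas f bd) {p q x : M} (hp : x ∈ (A.c p).source) (hq : x ∈ (A.c q).source) :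
    nrm (A.X q) (toC (A.c q x).val) = nrm (A.X p) (toC (A.c p x).val) := by
  set wp := toC (A.c p x).val with hwp
  set wq := toC (A.c q x).val with hwq
  have hVp : wp ∈ A.V p := A.tgt p _ ((A.c p).map_source hp)
  have hVq : wq ∈ A.V q := A.tgt q _ ((A.c q).map_source hq)
  obtain ⟨π, O, hO, hO0, hπ, hπl⟩ := exists_left_inv (A.opn p) (A.cmc p) hVp
  have hfx : A.X q wq = A.X p wp := by rw [← A.eq q x hq, A.eq p x hp]
  set τ : ℂ → ℂ := fun w => π (A.X q w) with hτ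
  have hτ0 : τ wq = wp := by
    show π (A.X q wq) = wp
    rw [hfx]; exact hπl.self_of_nhds
  have hXq : ContinuousAt (A.X q) wq := (A.cmc q wq hVq).smooth.continuousAt
  have e1 : ∀ᶠ w in 𝓝 wq, w ∈ A.V q := (A.opn q).mem_nhds hVq
  have e2 : ∀ᶠ w in 𝓝 wq, A.X q w ∈ O := hXq.eventually (hO.mem_nhds (by rw [hfx]; exact hO0))
  have e3 : ∀ᶠ w in 𝓝 wq, ContDiffAt ℝ ∞ τ w := by
    filter_upwards [e1, e2] with w h1 h2
    exact ContDiffAt.comp w (g := π) (hπ.contDiffAt (hO.mem_nhds h2)) (A.cmc q w h1).smooth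
  have hτc : ContinuousAt τ wq := e3.self_of_nhds.continuousAt
  have e4 : ∀ᶠ w in 𝓝 wq, τ w ∈ A.V p :=
    hτc.eventually ((A.opn p).mem_nhds (by rw [hτ0]; exact hVp))
  have hg : GlueA_g wq = A.c q x := GlueA_g_toC _
  have hgt : GlueA_g wq ∈ (A.c q).target := by rw [hg]; exact (A.c q).map_source hq
  have hx0 : (A.c q).symm (GlueA_g wq) = x := by rw [hg]; exact (A.c q).left_inv hq
  have c1 : ContinuousAt (fun w => (A.c q).symm (GlueA_g w)) wq :=
    ContinuousAt.comp (g := (A.c q).symm) ((A.c q).continuousAt_symm hgt)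
      GlueA_continuous_g.continuousAt
  have c2 : ContinuousAt (fun w => toC (A.c p ((A.c q).symm (GlueA_g w))).val) wq := by
    refine GlueA_continuous_toC.continuousAt.comp ?_
    refine continuous_subtype_val.continuousAt.comp ?_
    refine ContinuousAt.comp (g := A.c p) ?_ c1
    rw [hx0]; exact (A.c p).continuousAt hp
  have e5 : ∀ᶠ w in 𝓝 wq, GlueA_g w ∈ (A.c q).target :=
    GlueA_continuous_g.continuousAt.eventually ((A.c q).open_target.mem_nhds hgt)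
  have e6 : ∀ᶠ w in 𝓝 wq, (A.c q).symm (GlueA_g w) ∈ (A.c p).source :=
    c1.eventually ((A.c p).open_source.mem_nhds (by beta_reduce; rw [hx0]; exact hp))
  have e7 : ∀ᶠ w in 𝓝 wq, π (A.X p (toC (A.c p ((A.c q).symm (GlueA_g w))).val)) =
      toC (A.c p ((A.c q).symm (GlueA_g w))).val := by
    apply c2.eventually (p := fun z => π (A.X p z) = z)
    beta_reduce
    rw [hx0]; exact hπl
  have e8 : ∀ᶠ w in 𝓝 wq, 0 ≤ w.re → A.X q w = A.X p (τ w) := by
    filter_upwards [e5, e6, e7] with w h5 h6 h7 hw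
    have k1 := A.eq q _ ((A.c q).map_target h5)
    rw [(A.c q).right_inv h5, GlueA_toC_g hw] at k1
    have k2 := A.eq p _ h6
    have k3 : τ w = toC (A.c p ((A.c q).symm (GlueA_g w))).val := by
      show π (A.X q w) = _
      rw [← k1, k2, h7]
    rw [k3, ← k2, k1]
  have e9 : ∀ᶠ w in 𝓝[{z : ℂ | 0 < z.re}] wq, nrm (A.X q) w = nrm (A.X p) (τ w) := by
    filter_upwards [nhdsWithin_le_nhds e1, nhdsWithin_le_nhds e3, nhdsWithin_le_nhds e4,
      nhdsWithin_le_nhds e8.eventually_nhds, self_mem_nhdsWithin] with w h1 h3 h4 h8 hw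
    refine nrm_eq (A.cmc q w h1) (A.cmc p _ h4) h3 ?_
    have ho : ∀ᶠ z in 𝓝 w, 0 < z.re :=
      (isOpen_lt continuous_const Complex.continuous_re).mem_nhds hw
    filter_upwards [h8, ho] with z k1 k2
    exact k1 k2.le
  have hcl : wq ∈ closure {z : ℂ | 0 < z.re} := by
    rw [Complex.closure_setOfPred_lt_re]
    exact GlueA_toC_mem _
  haveI : (𝓝[{z : ℂ | 0 < z.re}] wq).NeBot := mem_closure_iff_nhdsWithin_neBot.1 hcl
  have l1 : Filter.Tendsto (nrm (A.X q)) (𝓝[{z : ℂ | 0 < z.re}] wq) (𝓝 (nrm (A.X q) wq)) :=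
    (GlueC_continuousAt_nrm (A.cmc q wq hVq)).tendsto.mono_left nhdsWithin_le_nhds
  have l2 : Filter.Tendsto (fun w => nrm (A.X p) (τ w)) (𝓝[{z : ℂ | 0 < z.re}] wq)
      (𝓝 (nrm (A.X p) wp)) := by
    have : ContinuousAt (fun w => nrm (A.X p) (τ w)) wq := by
      refine ContinuousAt.comp (g := nrm (A.X p)) ?_ hτc
      rw [hτ0]; exact GlueC_continuousAt_nrm (A.cmc p wp hVp)
    have h2 := this.tendsto.mono_left (nhdsWithin_le_nhds (s := {z : ℂ | 0 < z.re}))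
    rwa [hτ0] at h2
  exact tendsto_nhds_unique_of_eventuallyEq l1 l2 e9

theorem Atlas.continuous_nrm {M : Type} [TopologicalSpace M] {f : M → E3} {bd : Set M}
    (A : Atlas f bd) : Continuous fun p => nrm (A.X p) (toC (A.c p p).val) := by
  rw [continuous_iff_continuousAt]
  intro p
  have hVp : toC (A.c p p).val ∈ A.V p := A.tgt p _ ((A.c p).map_source (A.mem p))
  have c1 : ContinuousAt (fun x => toC (A.c p x).val) p :=
    GlueA_continuous_toC.continuousAt.comp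
      (continuous_subtype_val.continuousAt.comp ((A.c p).continuousAt (A.mem p)))
  have c2 : ContinuousAt (fun x => nrm (A.X p) (toC (A.c p x).val)) p :=
    ContinuousAt.comp (g := nrm (A.X p)) (f := fun x => toC (A.c p x).val)
      (GlueC_continuousAt_nrm (A.cmc p _ hVp)) c1
  refine c2.congr ?_
  filter_upwards [(A.c p).open_source.mem_nhds (A.mem p)] with x hx
  exact (GlueC_indep A hx (A.mem x)).symm

end Pool.Agent.MP_efb2da_gt

end
end

section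

open scoped Manifold ContDiff RealInnerProductSpace ComplexConjugate Topology
open Set

noncomputable section

namespace Pool.Agent.MP_efb2da_gt

lemma GlueD_range : range (𝓡∂ 2) = halfPlane :=
  range_modelWithCornersEuclideanHalfSpace 2

lemma GlueD_uniq : UniqueDiffOn ℝ halfPlane := by
  rw [← GlueD_range]; exact (𝓡∂ 2).uniqueDiffOn

/-- `toC` as a continuous linear map -/
def GlueD_L : E2 →L[ℝ] ℂ :=
  LinearMap.toContinuousLinearMap
    { toFun := toC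
      map_add' := fun u v => by apply Complex.ext <;> simp [toC]
      map_smul' := fun t v => by apply Complex.ext <;> simp [toC] }

lemma GlueD_L_apply (x : E2) : GlueD_L x = toC x := rfl

/-- the two coordinate directions -/
def GlueD_e (i : Fin 2) : ℂ := toC (EuclideanSpace.single i 1)

lemma GlueD_e0 : GlueD_e 0 = 1 := by apply Complex.ext <;> simp [GlueD_e, toC]
lemma GlueD_e1 : GlueD_e 1 = Complex.I := by apply Complex.ext <;> simp [GlueD_e, toC]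

lemma GlueD_pd {g : E2 → E3} {Y : ℂ → E3} {x : E2} (hx : x ∈ halfPlane)
    (he : g =ᶠ[𝓝[halfPlane] x] fun z => Y (toC z)) (hY : DifferentiableAt ℝ Y (toC x))
    (i : Fin 2) : pd g i x = CmcD (GlueD_e i) Y (toC x) := by
  have h1 : HasFDerivAt (fun z => Y (toC z)) ((fderiv ℝ Y (toC x)).comp GlueD_L) x :=
    HasFDerivAt.comp x (g := Y) (f := GlueD_L) hY.hasFDerivAt GlueD_L.hasFDerivAt
  have h2 : fderivWithin ℝ g halfPlane x = (fderiv ℝ Y (toC x)).comp GlueD_L := by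
    rw [he.fderivWithin_eq (he.self_of_nhdsWithin hx)]
    exact h1.hasFDerivWithinAt.fderivWithin (GlueD_uniq x hx)
  simp only [pd, h2, CmcD, GlueD_e, ContinuousLinearMap.comp_apply, GlueD_L_apply]

lemma GlueD_pd_ev {g : E2 → E3} {Y : ℂ → E3} {x : E2}
    (he : g =ᶠ[𝓝[halfPlane] x] fun z => Y (toC z)) (hY : ContDiffAt ℝ ∞ Y (toC x))
    (i : Fin 2) : pd g i =ᶠ[𝓝[halfPlane] x] fun z => CmcD (GlueD_e i) Y (toC z) := by
  have h1 : ContDiffAt ℝ 1 Y (toC x) := hY.of_le (by exact_mod_cast le_top)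
  have h2 : ∀ᶠ y in 𝓝 (toC x), ContDiffAt ℝ 1 Y y := h1.eventually (by simp)
  have h3 : ∀ᶠ z in 𝓝 x, ContDiffAt ℝ 1 Y (toC z) :=
    GlueA_continuous_toC.continuousAt.eventually h2
  have h4 : ∀ᶠ z in 𝓝[halfPlane] x, g =ᶠ[𝓝[halfPlane] z] fun z => Y (toC z) :=
    eventually_eventually_nhdsWithin.mpr he
  filter_upwards [self_mem_nhdsWithin, nhdsWithin_le_nhds h3, h4] with z hz1 hz2 hz3
  exact GlueD_pd hz1 hz3 (hz2.differentiableAt (by norm_num)) i

lemma GlueD_pd2 {g : E2 → E3} {Y : ℂ → E3} {x : E2} (hx : x ∈ halfPlane)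
    (he : g =ᶠ[𝓝[halfPlane] x] fun z => Y (toC z)) (hY : ContDiffAt ℝ ∞ Y (toC x))
    (i j : Fin 2) : pd (pd g i) j x = CmcD (GlueD_e j) (CmcD (GlueD_e i) Y) (toC x) :=
  GlueD_pd hx (GlueD_pd_ev he hY i) (CmcD_diff hY _) j

lemma GlueD_loc {M : Type} [TopologicalSpace M] {f : M → E3} {bd : Set M}
    (A : Atlas f bd) (p : M) :
    letI := A.cs; loc f p =ᶠ[𝓝[halfPlane] (ctr p)] fun z => A.X p (toC z) := by
  letI := A.cs
  have key : ∀ z ∈ (extChartAt (𝓡∂ 2) p).target,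
      (f ∘ (extChartAt (𝓡∂ 2) p).symm) z = A.X p (toC z) := by
    intro z hz
    rw [extChartAt_target] at hz
    obtain ⟨hz1, hz2⟩ := hz
    have hz1' : (𝓡∂ 2).symm z ∈ (A.c p).target := hz1
    have e1 : (extChartAt (𝓡∂ 2) p).symm z = (A.c p).symm ((𝓡∂ 2).symm z) := rfl
    rw [Function.comp_apply, e1, A.eq p _ ((A.c p).map_target hz1'), (A.c p).right_inv hz1',
      GlueB_symm_val hz2]
  rw [← GlueD_range]
  filter_upwards [extChartAt_target_mem_nhdsWithin (I := 𝓡∂ 2) p] with z hz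
  exact key z hz

lemma GlueD_cr_left (a b : E3) : ⟪a, cr a b⟫ = 0 := by
  rw [Cmc_inner]; simp [cr]; ring

lemma GlueD_cr_right (a b : E3) : ⟪b, cr a b⟫ = 0 := by
  rw [Cmc_inner]; simp [cr]; ring

lemma GlueD_cr_cr (a b : E3) : ⟪cr a b, cr a b⟫ = ⟪a, a⟫ * ⟪b, b⟫ - ⟪a, b⟫ ^ 2 := by
  simp only [Cmc_inner]; simp [cr]; ring

lemma GlueD_cmc {X : ℂ → E3} {w : ℂ} (h : CMCAt X w) :
    0 < ‖dx X w‖ ^ 2 ∧ ⟪dx X w, dx X w⟫ = ‖dx X w‖ ^ 2 ∧ ⟪dy X w, dy X w⟫ = ‖dx X w‖ ^ 2 ∧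
      ⟪cr (dx X w) (dy X w), cr (dx X w) (dy X w)⟫ = (‖dx X w‖ ^ 2) ^ 2 := by
  have h1 : ⟪dx X w, dx X w⟫ = ‖dx X w‖ ^ 2 := real_inner_self_eq_norm_sq _
  have h2 : ⟪dy X w, dy X w⟫ = ‖dx X w‖ ^ 2 := by rw [real_inner_self_eq_norm_sq, h.conf]
  refine ⟨pow_pos (norm_pos_iff.2 h.ne) 2, h1, h2, ?_⟩
  rw [GlueD_cr_cr, h1, h2, h.orth]; ring

lemma GlueD_norm_nrm {X : ℂ → E3} {w : ℂ} (h : CMCAt X w) : ‖nrm X w‖ = 1 := by
  obtain ⟨hE, -, -, h3⟩ := GlueD_cmc h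
  have h4 : ‖nrm X w‖ ^ 2 = 1 := by
    rw [← real_inner_self_eq_norm_sq, nrm, inner_smul_left, inner_smul_right, h3]
    simp only [conj_trivial]
    generalize ‖dx X w‖ ^ 2 = E at hE
    field_simp
  have h5 : 0 ≤ ‖nrm X w‖ := norm_nonneg _
  nlinarith

lemma GlueD_lap_nrm {X : ℂ → E3} {w : ℂ} (h : CMCAt X w) :
    ⟪dx (dx X) w, nrm X w⟫ + ⟪dy (dy X) w, nrm X w⟫ = 4 * ‖dx X w‖ ^ 2 := by
  obtain ⟨hE, -, -, h3⟩ := GlueD_cmc h
  rw [← inner_add_left, h.lap, nrm, inner_smul_left, inner_smul_right, h3]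
  simp only [conj_trivial]
  field_simp

theorem Atlas.isHSurface {M : Type} [TopologicalSpace M] {f : M → E3} {bd : Set M}
    (A : Atlas f bd) :
    letI := A.cs; IsHSurface f (fun p => nrm (A.X p) (toC (A.c p p).val)) 2 := by
  letI := A.cs
  have hctr : ∀ p : M, ctr p = (A.c p p).val := fun _ => rfl
  have hmem : ∀ p : M, ctr p ∈ halfPlane := fun p => (A.c p p).property
  have hc : ∀ p : M, CMCAt (A.X p) (toC (ctr p)) := fun p =>
    A.cmc p _ (A.tgt p _ ((A.c p).map_source (A.mem p)))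
  have h1 : ∀ (p : M) i, d1 f p i = CmcD (GlueD_e i) (A.X p) (toC (ctr p)) := fun p i =>
    GlueD_pd (hmem p) (GlueD_loc A p) ((hc p).smooth.differentiableAt (by simp)) i
  have h2 : ∀ (p : M) i j, d2 f p i j =
      CmcD (GlueD_e j) (CmcD (GlueD_e i) (A.X p)) (toC (ctr p)) := fun p i j =>
    GlueD_pd2 (hmem p) (GlueD_loc A p) (hc p).smooth i j
  have h10 : ∀ p : M, d1 f p 0 = dx (A.X p) (toC (ctr p)) := fun p => by
    rw [h1, GlueD_e0, Cmc_dx]
  have h11 : ∀ p : M, d1 f p 1 = dy (A.X p) (toC (ctr p)) := fun p => by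
    rw [h1, GlueD_e1, Cmc_dy]
  have h20 : ∀ p : M, d2 f p 0 0 = dx (dx (A.X p)) (toC (ctr p)) := fun p => by
    rw [h2, GlueD_e0, Cmc_dx, Cmc_dx]
  have h21 : ∀ p : M, d2 f p 1 1 = dy (dy (A.X p)) (toC (ctr p)) := fun p => by
    rw [h2, GlueD_e1, Cmc_dy, Cmc_dy]
  refine ⟨A.smooth, fun p => ?_, A.continuous_nrm, fun p => GlueD_norm_nrm (hc p),
    fun p i => ?_, fun p => ?_⟩
  · obtain ⟨hE, ha, hb, -⟩ := GlueD_cmc (hc p)
    refine linearIndependent_of_ne_zero_of_inner_eq_zero (fun i => ?_) ?_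
    · fin_cases i
      · exact (h10 p).symm ▸ (hc p).ne
      · intro h0
        have h0' : d1 f p 1 = 0 := h0
        rw [h11] at h0'
        rw [h0', inner_zero_left] at hb
        exact hE.ne hb
    · intro i j hij
      fin_cases i <;> fin_cases j
      · exact absurd rfl hij
      · show ⟪d1 f p 0, d1 f p 1⟫ = 0
        rw [h10, h11]; exact (hc p).orth
      · show ⟪d1 f p 1, d1 f p 0⟫ = 0
        rw [h10, h11, real_inner_comm]; exact (hc p).orth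
      · exact absurd rfl hij
  · fin_cases i
    · show ⟪d1 f p 0, nrm (A.X p) (toC (ctr p))⟫ = 0
      rw [h10, nrm, inner_smul_right, GlueD_cr_left, mul_zero]
    · show ⟪d1 f p 1, nrm (A.X p) (toC (ctr p))⟫ = 0
      rw [h11, nrm, inner_smul_right, GlueD_cr_right, mul_zero]
  · obtain ⟨hE, ha, hb, -⟩ := GlueD_cmc (hc p)
    have hl := GlueD_lap_nrm (hc p)
    have e00 : fff f p 0 0 = ‖dx (A.X p) (toC (ctr p))‖ ^ 2 := by rw [fff, h10, ha]
    have e11 : fff f p 1 1 = ‖dx (A.X p) (toC (ctr p))‖ ^ 2 := by rw [fff, h11, hb]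
    have e01 : fff f p 0 1 = 0 := by rw [fff, h10, h11]; exact (hc p).orth
    have s00 : sff f (fun p => nrm (A.X p) (toC (A.c p p).val)) p 0 0 =
        ⟪dx (dx (A.X p)) (toC (ctr p)), nrm (A.X p) (toC (ctr p))⟫ := by rw [sff, h20]; rfl
    have s11 : sff f (fun p => nrm (A.X p) (toC (A.c p p).val)) p 1 1 =
        ⟪dy (dy (A.X p)) (toC (ctr p)), nrm (A.X p) (toC (ctr p))⟫ := by rw [sff, h21]; rfl
    have hne : 2 * (‖dx (A.X p) (toC (ctr p))‖ ^ 2 * ‖dx (A.X p) (toC (ctr p))‖ ^ 2 - 0 ^ 2)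
        ≠ 0 := by
      have := mul_pos hE hE
      intro h0
      nlinarith
    rw [meanCurv, e00, e11, e01, s00, s11, div_eq_iff hne]
    linear_combination ‖dx (A.X p) (toC (ctr p))‖ ^ 2 * hl

theorem glue {M : Type} [TopologicalSpace M] (f : M → E3) (bd : Set M)
    (h : ∀ p, LocChart f bd p) :
    ∃ (_ : ChartedSpace (EuclideanHalfSpace 2) M), IsManifold (𝓡∂ 2) ∞ M ∧
      (𝓡∂ 2).boundary M = bd ∧ ∃ N, IsHSurface f N 2 := by
  obtain ⟨A⟩ := exists_atlas f bd h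
  exact ⟨A.cs, A.isManifold, A.boundary_eq, _, A.isHSurface⟩

end Pool.Agent.MP_efb2da_gt

end
end

section

/-! The `k`-fold cyclic branched cover on which the surface is defined. -/

open scoped Manifold ContDiff ComplexConjugate Topology
open Set Complex

noncomputable section

namespace Pool.Agent.MP_efb2da_gt

/-- `e^{2πi/k}` -/
def rt (k : ℕ) : ℂ := exp (2 * Real.pi * I / k)

/-- label of the real arc containing `x` -/
def lab (p : Fin 3 → ℝ) (x : ℝ) : ℕ :=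
  if 1 < x then 0 else if p 0 < x then 1 else if 0 < x then 0 else if p 2 < x then 1
  else if p 1 < x then 0 else 1

/-- orientation of the puncture -/
def sg : Fin 3 → ℤ := ![-1, 1, -1]
/-- label of the arc to the right of the puncture -/
def lr : Fin 3 → ℕ := ![1, 0, 1]

/-- regular region -/
def Rg (ε q : ℝ) (p : Fin 3 → ℝ) : Set ℂ :=
  {z | √q / 2 < ‖z‖ ∧ ‖z‖ < 2 / √q ∧ ε / 2 < ‖z - 1‖ ∧ ∀ j, z ≠ p j}

structure SurfData where
  k : ℕ
  ε : ℝ
  q : ℝ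
  p : Fin 3 → ℝ
  f : ℂ → E3
  X : Fin 3 → ℂ → E3
  Y : ℂ → E3
  hk : 3 ≤ k
  ε0 : 0 < ε
  ε1 : ε ≤ 1/64
  q0 : 0 < q
  q1 : q ≤ 1/4096
  adm : AdmP p
  cmc : ∀ z ∈ Rg ε q p, 0 ≤ z.im → ∀ᶠ w in 𝓝 z, CMCAt f w
  refl : ∀ x : ℝ, (x:ℂ) ∈ Rg ε q p →
    ∀ᶠ z in 𝓝 (x:ℂ), f z = Rot (rt k ^ lab p x) (Refl (f (conj z)))
  per : ∀ z : ℂ, 0 ≤ z.im → 1 / (2 * √q) < ‖z‖ → ‖z‖ < 2 / √q → f (q * z) = f z
  X_cmc : ∀ j w, ‖w‖ ^ k < 1/16 → CMCAt (X j) w
  X_eq : ∀ j (ζ : ℂ), Real.exp ζ.re < 1/16 → 0 ≤ ζ.im → ζ.im ≤ Real.pi →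
    X j (exp (ζ / k)) = f (p j + exp ζ)
  X_rot : ∀ j w, ‖w‖ ^ k < 1/16 → X j (rt k * w) = Rot (rt k ^ sg j) (X j w)
  X_refl : ∀ j w, ‖w‖ ^ k < 1/16 → X j (conj w) = Rot (rt k ^ lr j) (Refl (X j w))
  Y_cmc : ∀ ζ : ℂ, |ζ.re| < 1/2 → CMCAt Y ζ
  Y_eq : ∀ ζ : ℂ, |ζ.re| < 1/2 → 0 ≤ ζ.im → ζ.im ≤ Real.pi → Y ζ = f (1 + ε * exp ζ)
  Y_rot : ∀ ζ : ℂ, |ζ.re| < 1/2 → Y (ζ + 2 * Real.pi * I) = Rot (rt k) (Y ζ)
  Y_refl : ∀ ζ : ℂ, |ζ.re| < 1/2 → Y (conj ζ) = Refl (Y ζ)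
  Y_inj : InjOn (fun θ : ℝ => Y (θ * I)) (Ico 0 (2 * Real.pi * k))

/-- unsigned argument -/
def ang (w : ℂ) : ℝ := Real.arccos (w.re / ‖w‖)
/-- cut-off: `1` on `[1/16, 16]`, `0` off `(1/32, 32)` -/
def chi (r : ℝ) : ℝ := max 0 (min 1 (min (32 * r - 1) (2 - r / 16)))
def sgn (z : ℂ) : ℝ := if 0 ≤ z.im then 1 else -1

namespace SurfData
variable (D : SurfData)

def an (z : ℂ) : ℝ :=
  ang z + chi ‖z‖ * (ang (z - 1) + ang (z - D.p 1) - ang (z - D.p 0) - ang (z - D.p 2))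
def md (z : ℂ) : ℝ := (∏ j, min 1 (16 * ‖z - D.p j‖)) ^ (1 / (D.k : ℝ))
def et (z : ℂ) : ℂ := D.md z * exp (I * (sgn z * D.an z / D.k : ℝ))

/-- base region -/
def Base : Set ℂ := {z | √D.q / 2 < ‖z‖ ∧ ‖z‖ < 2 / √D.q ∧ D.ε ≤ ‖z - 1‖}

/-- the cover before closing the handle -/
def Et : Set (ℂ × ℂ) := {x | x.1 ∈ D.Base ∧ ∃ o : ℂ, o ^ D.k = 1 ∧ x.2 = o * D.et x.1}

open Classical in
def F (x : ℂ × ℂ) : E3 :=
  if h : ∃ j, x.1 = D.p j then D.X h.choose 0
  else if 0 ≤ x.1.im then Rot (x.2 / D.et x.1) (D.f x.1)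
  else Rot (x.2 / D.et x.1) (Refl (D.f (conj x.1)))

def FE (x : D.Et) : E3 := D.F x.1
def bdE : Set D.Et := {x | ‖x.1.1 - 1‖ = D.ε}

/-- the part of the angle function that is regular at the real point `P` -/
def bb (P : ℝ) (l : ℕ) (σ : ℤ) (z : ℂ) : ℝ := D.an z - (Real.pi * l + σ * ang (z - P))

/-- fibre coordinate on the universal cover of a punctured neighbourhood of `P` -/
def eta (P : ℝ) (l : ℕ) (σ : ℤ) (c : ℝ) (ζ : ℂ) : ℂ :=
  D.md (P + c * exp ζ) * exp (I * ((Real.pi * l + σ * ζ.im) / D.k : ℝ)) *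
    exp (I * (sgn (P + c * exp ζ) * D.bb P l σ (P + c * exp ζ) / D.k : ℝ))

end SurfData

end Pool.Agent.MP_efb2da_gt

end
end

section

open scoped Manifold ContDiff ComplexConjugate Topology
open Set Complex

noncomputable section

namespace Pool.Agent.MP_efb2da_gt

lemma norm_rt (k : ℕ) : ‖rt k‖ = 1 := by
  have : (2 * Real.pi * I / k : ℂ) = ((2 * Real.pi / k : ℝ) : ℂ) * I := by push_cast; ring
  rw [rt, this, norm_exp_ofReal_mul_I]
lemma rt_pow {k : ℕ} (hk : k ≠ 0) : rt k ^ k = 1 :=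
  (isPrimitiveRoot_exp k hk).pow_eq_one
lemma exists_rt_pow {k : ℕ} (hk : k ≠ 0) {o : ℂ} (ho : o ^ k = 1) : ∃ n : ℕ, n < k ∧ o = rt k ^ n := by
  have : NeZero k := ⟨hk⟩
  obtain ⟨n, hn, e⟩ := (isPrimitiveRoot_exp k hk).eq_pow_of_pow_eq_one ho
  exact ⟨n, hn, e.symm⟩
/-- roots of unity are isolated -/
lemma exists_root_sep {k : ℕ} (hk : k ≠ 0) :
    ∃ δ > 0, ∀ o : ℂ, o ^ k = 1 → ‖o - 1‖ < δ → o = 1 := by
  have hc : Continuous fun o : ℂ => ∑ i ∈ Finset.range k, o ^ i := by fun_prop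
  have h1 : ∀ᶠ o in 𝓝 (1 : ℂ), ∑ i ∈ Finset.range k, o ^ i ≠ 0 :=
    hc.continuousAt.eventually_ne (by simpa using hk)
  obtain ⟨δ, hδ, h⟩ := Metric.eventually_nhds_iff.1 h1
  refine ⟨δ, hδ, fun o ho hd => ?_⟩
  have h2 := geom_sum_mul o k
  rw [ho, sub_self, mul_eq_zero] at h2
  exact sub_eq_zero.1 (h2.resolve_left (h (by rwa [dist_eq_norm])))
lemma continuousOn_ang : ContinuousOn ang {w | w ≠ 0} :=
  Real.continuous_arccos.comp_continuousOn
    (continuous_re.continuousOn.div continuous_norm.continuousOn fun _ hw => norm_ne_zero_iff.2 hw)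
lemma ang_conj (w : ℂ) : ang (conj w) = ang w := by simp [ang]
lemma ang_pos {x : ℝ} (hx : 0 < x) : ang x = 0 := by
  simp [ang, abs_of_pos hx, hx.ne']
lemma ang_neg {x : ℝ} (hx : x < 0) : ang x = Real.pi := by
  simp [ang, abs_of_neg hx, hx.ne]
lemma ang_exp {c : ℝ} (hc : 0 < c) {ζ : ℂ} (h : |ζ.im| ≤ Real.pi) : ang (c * exp ζ) = |ζ.im| := by
  have h1 : (c * exp ζ : ℂ).re / ‖(c * exp ζ : ℂ)‖ = Real.cos |ζ.im| := by
    rw [re_ofReal_mul, norm_mul, norm_real, norm_exp, exp_re, Real.norm_of_nonneg hc.le,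
      Real.cos_abs]
    have := Real.exp_pos ζ.re
    field_simp
  rw [ang, h1, Real.arccos_cos (abs_nonneg _) h]
lemma ang_mem (w : ℂ) : 0 ≤ ang w ∧ ang w ≤ Real.pi :=
  ⟨Real.arccos_nonneg _, Real.arccos_le_pi _⟩

lemma Surf1_ang_gt {x a : ℝ} (h : a < x) : ang ((x : ℂ) - a) = 0 := by
  rw [← ofReal_sub]; exact ang_pos (sub_pos.2 h)
lemma Surf1_ang_lt {x a : ℝ} (h : x < a) : ang ((x : ℂ) - a) = Real.pi := by
  rw [← ofReal_sub]; exact ang_neg (sub_neg.2 h)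
lemma Surf1_ang_gt1 {x : ℝ} (h : 1 < x) : ang ((x : ℂ) - 1) = 0 := by
  simpa using Surf1_ang_gt h
lemma Surf1_ang_lt1 {x : ℝ} (h : x < 1) : ang ((x : ℂ) - 1) = Real.pi := by
  simpa using Surf1_ang_lt h

lemma Surf1_chi_one {r : ℝ} (h1 : 1/16 ≤ r) (h2 : r ≤ 16) : chi r = 1 := by
  rw [chi, min_eq_left (le_min (by linarith) (by linarith)), max_eq_right zero_le_one]
lemma Surf1_chi_zero {r : ℝ} (h : r ≤ 1/32 ∨ 32 ≤ r) : chi r = 0 := by
  refine max_eq_left (min_le_of_right_le ?_)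
  rcases h with h | h
  · exact min_le_of_left_le (by linarith)
  · exact min_le_of_right_le (by linarith)
lemma Surf1_chi_cont : Continuous chi := by unfold chi; fun_prop

lemma Surf1_re {z : ℂ} {a r : ℝ} (h : ‖z - a‖ < r) : a - r < z.re ∧ z.re < a + r := by
  have := abs_lt.1 ((abs_re_le_norm (z - a)).trans_lt h)
  simp only [sub_re, ofReal_re] at this
  constructor <;> linarith [this.1, this.2]
lemma Surf1_min {z : ℂ} {a : ℝ} (h : a + 1/16 ≤ z.re ∨ z.re ≤ a - 1/16) :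
    min 1 (16 * ‖z - a‖) = 1 := by
  refine min_eq_left ?_
  by_contra h1
  have := Surf1_re (z := z) (a := a) (r := 1/16) (by linarith)
  rcases h with h | h <;> linarith [this.1, this.2]
lemma Surf1_chi_disc {z : ℂ} {a : ℝ} (h : ‖z - a‖ < 1/16) (h1 : 1/4 ≤ |a|) (h2 : |a| ≤ 2) :
    chi ‖z‖ = 1 := by
  have h3 := abs_le.1 (abs_norm_sub_norm_le z a)
  rw [norm_real, Real.norm_eq_abs] at h3
  exact Surf1_chi_one (by linarith [h3.1]) (by linarith [h3.2])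
lemma Surf1_cont {U : Set ℂ} (a : ℝ) (h : ∀ z ∈ U, z.re ≠ a) :
    ContinuousOn (fun z : ℂ => ang (z - a)) U :=
  continuousOn_ang.comp (continuousOn_id.sub continuousOn_const) fun z hz h0 =>
    h z hz (by rw [sub_eq_zero.1 h0, ofReal_re])

lemma Surf1_phase {U : Set ℂ} {b : ℂ → ℝ} (hb : ContinuousOn b U)
    (h0 : ∀ x : ℝ, (x : ℂ) ∈ U → b x = 0) : ContinuousOn (fun z => sgn z * b z) U := by
  intro z hz
  rcases lt_trichotomy z.im 0 with h | h | h
  · refine ((hb z hz).const_mul (-1)).congr_of_eventuallyEq ?_ (by simp [sgn, h.not_ge])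
    filter_upwards [nhdsWithin_le_nhds ((isOpen_lt continuous_im continuous_const).mem_nhds h)]
      with w hw
    simp [sgn, not_le.2 hw]
  · have e : z = (z.re : ℂ) := Complex.ext rfl (by simpa using h)
    have h1 : b z = 0 := by rw [e] at hz ⊢; exact h0 _ hz
    have h2 : Filter.Tendsto (fun w => ‖b w‖) (𝓝[U] z) (𝓝 0) := by
      simpa [h1] using (hb z hz).tendsto.norm
    rw [ContinuousWithinAt, h1, mul_zero]
    refine squeeze_zero_norm (fun w => ?_) h2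
    unfold sgn
    split_ifs <;> simp
  · refine (hb z hz).congr_of_eventuallyEq ?_ (by simp [sgn, h.le])
    filter_upwards [nhdsWithin_le_nhds ((isOpen_lt continuous_const continuous_im).mem_nhds h)]
      with w hw
    simp [sgn, le_of_lt hw]

lemma Surf1_rt_ne (k : ℕ) : rt k ≠ 0 := exp_ne_zero _
lemma Surf1_rt_zpow (k : ℕ) (n : ℤ) : rt k ^ n = exp (I * (2 * Real.pi * n / k : ℝ)) := by
  rw [rt, ← exp_int_mul]; congr 1; push_cast; ring

namespace SurfData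
variable (D : SurfData)

lemma an_conj (z : ℂ) : D.an (conj z) = D.an z := by
  have h : ∀ a : ℝ, ang (conj z - a) = ang (z - a) := fun a => by
    rw [← ang_conj (z - a), map_sub, conj_ofReal]
  have h1 := h 1
  rw [ofReal_one] at h1
  simp only [an, h, h1, ang_conj, norm_conj]
lemma md_conj (z : ℂ) : D.md (conj z) = D.md z := by
  have h : ∀ a : ℝ, ‖conj z - a‖ = ‖z - a‖ := fun a => by
    rw [← norm_conj (z - a), map_sub, conj_ofReal]
  simp only [md, h]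
lemma continuous_md : Continuous D.md := by
  refine Continuous.rpow_const ?_ fun _ => Or.inr (by positivity)
  fun_prop
lemma md_pos {z : ℂ} (h : ∀ j, z ≠ D.p j) : 0 < D.md z :=
  Real.rpow_pos_of_pos (Finset.prod_pos fun j _ => lt_min one_pos
    (mul_pos (by norm_num) (norm_pos_iff.2 (sub_ne_zero.2 (h j))))) _
lemma md_p (j : Fin 3) : D.md (D.p j) = 0 := by
  have : (0 : ℝ) < D.k := Nat.cast_pos.2 (by have := D.hk; omega)
  rw [md, Finset.prod_eq_zero (Finset.mem_univ j) (by simp), Real.zero_rpow (by positivity)]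
lemma md_near (j : Fin 3) {z : ℂ} (h : ‖z - D.p j‖ < 1/16) :
    D.md z = (16 * ‖z - D.p j‖) ^ (1 / (D.k : ℝ)) := by
  obtain ⟨⟨a1, a2⟩, ⟨b1, b2⟩, c1, c2⟩ := D.adm
  obtain ⟨h1, h2⟩ := Surf1_re h
  have h3 : min 1 (16 * ‖z - D.p j‖) = 16 * ‖z - D.p j‖ := min_eq_right (by linarith)
  rw [md, Finset.prod_eq_single j (fun i _ hi => Surf1_min ?_) (by simp), h3]
  fin_cases i <;> fin_cases j <;> simp only [Fin.zero_eta, Fin.mk_one, Fin.reduceFinMk] at * <;>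
    first | exact absurd rfl hi | (left; linarith) | (right; linarith)
lemma md_near_one {z : ℂ} (h : ‖z - 1‖ < 1/16) : D.md z = 1 := by
  obtain ⟨⟨a1, a2⟩, ⟨b1, b2⟩, c1, c2⟩ := D.adm
  obtain ⟨h1, h2⟩ := Surf1_re (z := z) (a := 1) (r := 1/16) (by simpa using h)
  rw [md, Fin.prod_univ_three, Surf1_min (Or.inl (by linarith)), Surf1_min (Or.inl (by linarith)),
    Surf1_min (Or.inl (by linarith))]
  simp
lemma continuousOn_an : ContinuousOn D.an {z | z ≠ 0 ∧ z ≠ 1 ∧ ∀ j, z ≠ D.p j} := by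
  have h : ∀ a : ℂ, (∀ z : ℂ, z ≠ 0 ∧ z ≠ 1 ∧ (∀ j, z ≠ D.p j) → z ≠ a) →
      ContinuousOn (fun z => ang (z - a)) {z | z ≠ 0 ∧ z ≠ 1 ∧ ∀ j, z ≠ D.p j} := fun a ha =>
    continuousOn_ang.comp (continuousOn_id.sub continuousOn_const) fun z hz =>
      sub_ne_zero.2 (ha z hz)
  exact (continuousOn_ang.mono fun z hz => hz.1).add
    ((Surf1_chi_cont.comp continuous_norm).continuousOn.mul
      ((((h 1 fun z hz => hz.2.1).add (h _ fun z hz => hz.2.2 1)).sub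
        (h _ fun z hz => hz.2.2 0)).sub (h _ fun z hz => hz.2.2 2)))
lemma an_real {x : ℝ} (h0 : x ≠ 0) (h1 : x ≠ 1) (h : ∀ j, x ≠ D.p j) :
    D.an x = Real.pi * lab D.p x := by
  obtain ⟨⟨a1, a2⟩, ⟨b1, b2⟩, c1, c2⟩ := D.adm
  unfold an lab
  rw [norm_real, Real.norm_eq_abs]
  split_ifs with g1 g2 g3 g4 g5
  · rw [ang_pos (by linarith), Surf1_ang_gt1 g1, Surf1_ang_gt (by linarith),
      Surf1_ang_gt (by linarith), Surf1_ang_gt (by linarith)]
    simp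
  · have := lt_of_le_of_ne (not_lt.1 g1) h1
    rw [ang_pos (by linarith), Surf1_ang_lt1 this, Surf1_ang_gt (by linarith),
      Surf1_ang_gt g2, Surf1_ang_gt (by linarith), abs_of_pos (by linarith),
      Surf1_chi_one (by linarith) (by linarith)]
    simp
  · have := lt_of_le_of_ne (not_lt.1 g2) (h 0)
    rw [ang_pos g3, Surf1_ang_lt1 (by linarith), Surf1_ang_gt (by linarith),
      Surf1_ang_lt this, Surf1_ang_gt (by linarith)]
    simp
  · have := lt_of_le_of_ne (not_lt.1 g3) h0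
    rw [ang_neg this, Surf1_ang_lt1 (by linarith), Surf1_ang_gt (by linarith),
      Surf1_ang_lt (by linarith), Surf1_ang_gt g4]
    simp
  · have := lt_of_le_of_ne (not_lt.1 g4) (h 2)
    rw [ang_neg (by linarith), Surf1_ang_lt1 (by linarith), Surf1_ang_gt g5,
      Surf1_ang_lt (by linarith), Surf1_ang_lt this, abs_of_neg (by linarith),
      Surf1_chi_one (by linarith) (by linarith)]
    simp
  · have := lt_of_le_of_ne (not_lt.1 g5) (h 1)
    rw [ang_neg (by linarith), Surf1_ang_lt1 (by linarith), Surf1_ang_lt this,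
      Surf1_ang_lt (by linarith), Surf1_ang_lt (by linarith)]
    simp

lemma Surf1_norm_et (z : ℂ) : ‖D.et z‖ = D.md z := by
  have : 0 ≤ D.md z := Real.rpow_nonneg (Finset.prod_nonneg fun j _ =>
    le_min zero_le_one (by positivity)) _
  rw [et, norm_mul, mul_comm I, norm_exp_ofReal_mul_I, norm_real, Real.norm_of_nonneg this, mul_one]

/-- `et` is continuous on each closed half of the base region (also at the cap punctures) -/
lemma continuousOn_et_up : ContinuousOn D.et (D.Base ∩ {z | 0 ≤ z.im}) := by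
  intro z hz
  by_cases hp : ∃ j, z = D.p j
  · obtain ⟨j, rfl⟩ := hp
    have h0 : D.et (D.p j) = 0 := by rw [← norm_eq_zero, Surf1_norm_et, md_p]
    rw [ContinuousWithinAt, h0]
    refine squeeze_zero_norm (fun w => (D.Surf1_norm_et w).le) ?_
    simpa [md_p] using (D.continuous_md.tendsto (D.p j)).mono_left nhdsWithin_le_nhds
  · have h0 : z ≠ 0 := by
      rintro rfl
      have := hz.1.1
      rw [norm_zero] at this
      linarith [Real.sqrt_nonneg D.q]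
    have h1 : z ≠ 1 := by
      rintro rfl
      have := hz.1.2.2
      rw [sub_self, norm_zero] at this
      linarith [D.ε0]
    have ho : IsOpen {z : ℂ | z ≠ 0 ∧ z ≠ 1 ∧ ∀ j, z ≠ D.p j} := by
      have : IsOpen {z : ℂ | ∀ j, z ≠ D.p j} := by
        rw [ofPred_forall]
        exact isOpen_iInter_of_finite fun j => isOpen_ne
      exact isOpen_ne.inter (isOpen_ne.inter this)
    have h2 : ContinuousAt D.an z :=
      D.continuousOn_an.continuousAt (ho.mem_nhds ⟨h0, h1, fun j h => hp ⟨j, h⟩⟩)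
    have h3 : ContinuousAt (fun z => (D.md z : ℂ) * exp (I * (1 * D.an z / D.k : ℝ))) z := by
      have := D.continuous_md
      fun_prop
    exact h3.continuousWithinAt.congr (fun w hw => by rw [et, sgn, if_pos (show 0 ≤ w.im from hw.2)])
      (by rw [et, sgn, if_pos (show 0 ≤ z.im from hz.2)])
lemma continuousOn_et_down : ContinuousOn (fun z => conj (D.et (conj z))) (D.Base ∩ {z | z.im ≤ 0}) := by
  refine continuous_conj.comp_continuousOn
    (D.continuousOn_et_up.comp continuous_conj.continuousOn fun z hz => ⟨?_, by simpa using hz.2⟩)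
  have : ‖conj z - 1‖ = ‖z - 1‖ := by rw [← norm_conj (z - 1), map_sub, map_one]
  simpa only [Base, mem_ofPred_eq, norm_conj, this] using hz.1
lemma et_down {z : ℂ} (h : z.im < 0) : D.et z = conj (D.et (conj z)) := by
  have h1 : sgn z = -1 := if_neg h.not_ge
  have h2 : sgn (conj z) = 1 := if_pos (by simpa using h.le)
  rw [et, et, h1, h2, md_conj, an_conj, map_mul, conj_ofReal, ← exp_conj, map_mul, conj_ofReal,
    conj_I]
  congr 2
  push_cast
  ring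

lemma Surf1_disc {P : ℝ} {l : ℕ} {σ : ℤ} {g : ℂ → ℝ} (h1 : 1/4 ≤ |P|) (h2 : |P| ≤ 2)
    (hg : ∀ z : ℂ, chi ‖z‖ = 1 → D.bb P l σ z = g z)
    (hc : ContinuousOn g {z | ‖z - P‖ < 1/16})
    (h0 : ∀ x : ℝ, P - 1/16 < x → x < P + 1/16 → g x = 0) :
    ContinuousOn (fun z => sgn z * D.bb P l σ z) {z | ‖z - P‖ < 1/16} ∧ D.bb P l σ P = 0 := by
  refine ⟨(Surf1_phase hc fun x hx => ?_).congr fun z hz => ?_, ?_⟩
  · exact h0 x (Surf1_re hx).1 (Surf1_re hx).2
  · simp only [hg z (Surf1_chi_disc hz h1 h2)]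
  · rw [hg P (Surf1_chi_disc (a := P) (by simp) h1 h2), h0 P (by linarith) (by linarith)]

lemma Surf1_cap (j : Fin 3) :
    ContinuousOn (fun z => sgn z * D.bb (D.p j) (lr j) (sg j) z) {z | ‖z - D.p j‖ < 1/16} ∧
      D.bb (D.p j) (lr j) (sg j) (D.p j) = 0 := by
  obtain ⟨⟨a1, a2⟩, ⟨b1, b2⟩, c1, c2⟩ := D.adm
  have hc : ∀ P a : ℝ, P + 1/16 ≤ a ∨ a ≤ P - 1/16 →
      ContinuousOn (fun z : ℂ => ang (z - a)) {z | ‖z - P‖ < 1/16} := fun P a h =>
    Surf1_cont a fun z hz e => by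
      have := Surf1_re hz
      rcases h with h | h <;> linarith [this.1, this.2]
  fin_cases j
  · refine D.Surf1_disc (P := D.p 0) (g := fun z => ang (z - (0 : ℝ)) + ang (z - (1 : ℝ)) +
      ang (z - D.p 1) - ang (z - D.p 2) - Real.pi) (by rwa [abs_of_pos (by linarith)])
      (by rw [abs_of_pos (by linarith)]; linarith) (fun z hz => ?_) ?_ fun x g1 g2 => ?_
    · simp [bb, an, hz, lr, sg]
      ring
    · exact ((((hc _ _ (Or.inr (by linarith))).add (hc _ _ (Or.inl (by linarith)))).add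
        (hc _ _ (Or.inr (by linarith)))).sub (hc _ _ (Or.inr (by linarith)))).sub continuousOn_const
    · rw [Surf1_ang_gt (by linarith), Surf1_ang_lt (by linarith), Surf1_ang_gt (by linarith),
        Surf1_ang_gt (by linarith)]
      ring
  · refine D.Surf1_disc (P := D.p 1) (g := fun z => ang (z - (0 : ℝ)) + ang (z - (1 : ℝ)) -
      ang (z - D.p 0) - ang (z - D.p 2)) (by rw [abs_of_neg (by linarith)]; linarith)
      (by rw [abs_of_neg (by linarith)]; linarith) (fun z hz => ?_) ?_ fun x g1 g2 => ?_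
    · simp [bb, an, hz, lr, sg]
      ring
    · exact (((hc _ _ (Or.inl (by linarith))).add (hc _ _ (Or.inl (by linarith)))).sub
        (hc _ _ (Or.inl (by linarith)))).sub (hc _ _ (Or.inl (by linarith)))
    · rw [Surf1_ang_lt (by linarith), Surf1_ang_lt (by linarith), Surf1_ang_lt (by linarith),
        Surf1_ang_lt (by linarith)]
      ring
  · refine D.Surf1_disc (P := D.p 2) (g := fun z => ang (z - (0 : ℝ)) + ang (z - (1 : ℝ)) +
      ang (z - D.p 1) - ang (z - D.p 0) - Real.pi) (by rw [abs_of_neg (by linarith)]; linarith)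
      (by rw [abs_of_neg (by linarith)]; linarith) (fun z hz => ?_) ?_ fun x g1 g2 => ?_
    · simp [bb, an, hz, lr, sg]
      ring
    · exact ((((hc _ _ (Or.inl (by linarith))).add (hc _ _ (Or.inl (by linarith)))).add
        (hc _ _ (Or.inr (by linarith)))).sub (hc _ _ (Or.inl (by linarith)))).sub continuousOn_const
    · rw [Surf1_ang_lt (by linarith), Surf1_ang_lt (by linarith), Surf1_ang_gt (by linarith),
        Surf1_ang_lt (by linarith)]
      ring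

/-- near a cap puncture the phase correction is continuous -/
lemma continuousOn_phase_cap (j : Fin 3) :
    ContinuousOn (fun z => sgn z * D.bb (D.p j) (lr j) (sg j) z) {z | ‖z - D.p j‖ < 1/16 ∧ z ≠ D.p j} ∧
    Filter.Tendsto (fun z => sgn z * D.bb (D.p j) (lr j) (sg j) z) (𝓝[≠] (D.p j : ℂ)) (𝓝 0) := by
  obtain ⟨h1, h2⟩ := D.Surf1_cap j
  refine ⟨h1.mono fun z hz => hz.1, ?_⟩
  have ho : IsOpen {z : ℂ | ‖z - D.p j‖ < 1/16} := isOpen_lt (by fun_prop) continuous_const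
  have := (h1.continuousAt (ho.mem_nhds (x := (D.p j : ℂ)) (by simp))).tendsto
  rw [h2, mul_zero] at this
  exact this.mono_left nhdsWithin_le_nhds
lemma continuousOn_phase_one :
    ContinuousOn (fun z => sgn z * D.bb 1 0 1 z) {z | ‖z - 1‖ < 1/16 ∧ z ≠ 1} := by
  obtain ⟨⟨a1, a2⟩, ⟨b1, b2⟩, c1, c2⟩ := D.adm
  have hc : ∀ a : ℝ, a ≤ 2/3 →
      ContinuousOn (fun z : ℂ => ang (z - a)) {z | ‖z - (1 : ℝ)‖ < 1/16} := fun a h =>
    Surf1_cont a fun z hz e => by linarith [(Surf1_re hz).1]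
  refine (D.Surf1_disc (P := 1) (g := fun z => ang (z - (0 : ℝ)) + ang (z - D.p 1) -
      ang (z - D.p 0) - ang (z - D.p 2)) (by norm_num) (by norm_num) (fun z hz => ?_) ?_
      fun x g1 g2 => ?_).1.mono fun z hz => by simpa using hz.1
  · simp [bb, an, hz]
    ring
  · exact (((hc _ (by linarith)).add (hc _ (by linarith))).sub (hc _ (by linarith))).sub
      (hc _ (by linarith))
  · rw [Surf1_ang_gt (by linarith), Surf1_ang_gt (by linarith), Surf1_ang_gt (by linarith),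
      Surf1_ang_gt (by linarith)]
    ring

/-- the cover lemma -/
lemma cover {P c : ℝ} {l : ℕ} {σ : ℤ} (hc : 0 < c) {J : Set ℝ} {Z : ℂ → E3}
    (hne : ∀ ζ : ℂ, ζ.re ∈ J → ∀ j, (P + c * exp ζ : ℂ) ≠ D.p j)
    (h1 : ∀ ζ : ℂ, ζ.re ∈ J → 0 ≤ ζ.im → ζ.im ≤ Real.pi → Z ζ = D.f (P + c * exp ζ))
    (h2 : ∀ ζ : ℂ, ζ.re ∈ J → Z (ζ + 2 * Real.pi * I) = Rot (rt D.k ^ σ) (Z ζ))
    (h3 : ∀ ζ : ℂ, ζ.re ∈ J → Z (conj ζ) = Rot (rt D.k ^ l) (Refl (Z ζ)))
    {ζ : ℂ} (hζ : ζ.re ∈ J) :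
    (∃ o : ℂ, o ^ D.k = 1 ∧ D.eta P l σ c ζ = o * D.et (P + c * exp ζ)) ∧
      D.F (P + c * exp ζ, D.eta P l σ c ζ) = Z ζ := by
  have hk : D.k ≠ 0 := by have := D.hk; omega
  have hω : rt D.k ^ σ ≠ 0 := zpow_ne_zero _ (Surf1_rt_ne _)
  have hZ : ∀ n : ℤ, ∀ ξ : ℂ, ξ.re ∈ J →
      Z (ξ + n * (2 * Real.pi * I)) = Rot ((rt D.k ^ σ) ^ n) (Z ξ) := by
    intro n ξ hξ
    induction n using Int.induction_on with
    | zero => simp
    | succ n ih =>
      have := h2 (ξ + ((n : ℤ) : ℂ) * (2 * Real.pi * I)) (by simpa using hξ)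
      rw [ih, ← Rot_mul, ← zpow_one_add₀ hω, add_comm (1 : ℤ)] at this
      rw [← this]; congr 1; push_cast; ring
    | pred n ih =>
      have := h2 (ξ + ((-n - 1 : ℤ) : ℂ) * (2 * Real.pi * I)) (by simpa using hξ)
      rw [show ξ + ((-n - 1 : ℤ) : ℂ) * (2 * Real.pi * I) + 2 * Real.pi * I =
        ξ + ((-n : ℤ) : ℂ) * (2 * Real.pi * I) by push_cast; ring, ih] at this
      rw [zpow_sub_one₀ hω, mul_comm _ (rt D.k ^ σ)⁻¹, Rot_mul, this, ← Rot_mul,
        inv_mul_cancel₀ hω, Rot_one]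
  obtain ⟨n, ξ, hξ1, hξ2, rfl⟩ : ∃ (n : ℤ) (ξ : ℂ), -Real.pi < ξ.im ∧ ξ.im ≤ Real.pi ∧
      ζ = ξ + n * (2 * Real.pi * I) := by
    have h := sub_toIocDiv_zsmul_mem_Ioc Real.two_pi_pos (-Real.pi) ζ.im
    rw [zsmul_eq_mul] at h
    generalize toIocDiv Real.two_pi_pos (-Real.pi) ζ.im = n at h
    refine ⟨n, ζ - n * (2 * Real.pi * I), ?_, ?_, by ring⟩
    · simpa using h.1
    · have := h.2
      simp
      linarith
  have hξ : ξ.re ∈ J := by simpa using hζ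
  have he : exp (ξ + n * (2 * Real.pi * I)) = exp ξ := by
    rw [exp_add, exp_int_mul_two_pi_mul_I, mul_one]
  have him : (ξ + n * (2 * Real.pi * I)).im = ξ.im + n * (2 * Real.pi) := by simp
  have hp : ¬ ∃ j, (P + c * exp ξ : ℂ) = D.p j := fun ⟨j, h⟩ => hne ξ hξ j h
  have h0 : D.et (P + c * exp ξ) ≠ 0 := by
    rw [← norm_pos_iff, Surf1_norm_et]; exact D.md_pos (hne ξ hξ)
  have ha : ang (P + c * exp ξ - P) = |ξ.im| := by
    rw [add_sub_cancel_left, ang_exp hc (abs_le.2 ⟨hξ1.le, hξ2⟩)]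
  have hzi : (P + c * exp ξ : ℂ).im = c * Real.exp ξ.re * Real.sin ξ.im := by
    simp [exp_im, mul_assoc]
  have hpos := mul_pos hc (Real.exp_pos ξ.re)
  have hroot : ∀ m : ℤ, (rt D.k ^ m) ^ D.k = 1 := fun m => by
    rw [← zpow_natCast, ← zpow_mul, mul_comm, zpow_mul, zpow_natCast, rt_pow hk, one_zpow]
  rw [hZ n ξ hξ, he, ← zpow_mul]
  rcases le_or_gt 0 ξ.im with hs | hs
  · have h4 : 0 ≤ (P + c * exp ξ : ℂ).im := by
      rw [hzi]; exact mul_nonneg hpos.le (Real.sin_nonneg_of_nonneg_of_le_pi hs hξ2)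
    have h5 : D.eta P l σ c (ξ + n * (2 * Real.pi * I)) =
        rt D.k ^ (σ * n) * D.et (P + c * exp ξ) := by
      rw [eta, he, him, et, bb, ha, sgn, if_pos h4, abs_of_nonneg hs, Surf1_rt_zpow, mul_assoc,
        mul_left_comm (exp _), ← exp_add, ← exp_add]
      congr 2
      push_cast
      ring
    refine ⟨⟨_, hroot _, h5⟩, ?_⟩
    rw [F, dif_neg hp, if_pos h4, h5, mul_div_cancel_right₀ _ h0, h1 ξ hξ hs hξ2]
  · have h4 : ¬ 0 ≤ (P + c * exp ξ : ℂ).im := by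
      rw [hzi, not_le]
      exact mul_neg_of_pos_of_neg hpos (Real.sin_neg_of_neg_of_neg_pi_lt hs hξ1)
    have h5 : D.eta P l σ c (ξ + n * (2 * Real.pi * I)) =
        rt D.k ^ (σ * n + l) * D.et (P + c * exp ξ) := by
      rw [eta, he, him, et, bb, ha, sgn, if_neg h4, abs_of_neg hs, Surf1_rt_zpow, mul_assoc,
        mul_left_comm (exp _), ← exp_add, ← exp_add]
      congr 2
      push_cast
      ring
    refine ⟨⟨_, hroot _, h5⟩, ?_⟩
    have h6 := h3 (conj ξ) (by simpa using hξ)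
    rw [conj_conj, h1 (conj ξ) (by simpa using hξ) (by simpa using hs.le)
      (by simp; linarith)] at h6
    rw [F, dif_neg hp, if_neg h4, h5, mul_div_cancel_right₀ _ h0, h6, ← Rot_mul,
      zpow_add₀ (Surf1_rt_ne _), zpow_natCast]
    simp [exp_conj]

/-- invariance near the seam -/
lemma seam {z η : ℂ} (h1 : z ∈ D.Base) (h2 : (D.q * z : ℂ) ∈ D.Base) :
    ((z, η) ∈ D.Et ↔ ((D.q * z : ℂ), η) ∈ D.Et) ∧ D.F (D.q * z, η) = D.F (z, η) ∧
      32 ≤ ‖z‖ := by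
  obtain ⟨⟨a1, a2⟩, ⟨b1, b2⟩, c1, c2⟩ := D.adm
  have hq := D.q0
  have hs : 0 < √D.q := Real.sqrt_pos.2 hq
  have hs2 : √D.q * √D.q = D.q := Real.mul_self_sqrt hq.le
  have hs3 : √D.q ≤ 1/64 := Real.sqrt_le_iff.2 ⟨by norm_num, by linarith [D.q1]⟩
  have hn : ‖(D.q * z : ℂ)‖ = D.q * ‖z‖ := by rw [norm_mul, norm_real, Real.norm_of_nonneg hq.le]
  have g1 := h2.1
  have g2 := h1.2.1
  rw [hn] at g1
  have g3 : 1 / (2 * √D.q) < ‖z‖ := by
    rw [div_lt_iff₀ (by positivity)]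
    nlinarith
  have g4 : 32 ≤ ‖z‖ := by
    rw [div_lt_iff₀ (by positivity)] at g3
    nlinarith [norm_nonneg z]
  have g5 : ‖(D.q * z : ℂ)‖ ≤ 1/32 := by
    rw [lt_div_iff₀ hs] at g2
    rw [hn]
    nlinarith
  have hp : ∀ j, 1/4 ≤ |D.p j| ∧ |D.p j| ≤ 2 := fun j => by
    fin_cases j <;> simp only [Fin.zero_eta, Fin.mk_one, Fin.reduceFinMk]
    · rw [abs_of_pos (by linarith)]; constructor <;> linarith
    · rw [abs_of_neg (by linarith)]; constructor <;> linarith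
    · rw [abs_of_neg (by linarith)]; constructor <;> linarith
  have hfar : ∀ w : ℂ, ‖w‖ ≤ 1/32 ∨ 32 ≤ ‖w‖ → ∀ j, 1/16 ≤ ‖w - D.p j‖ := fun w hw j => by
    have h3 := abs_le.1 (abs_norm_sub_norm_le w (D.p j))
    rw [norm_real, Real.norm_eq_abs] at h3
    rcases hw with hw | hw <;> linarith [h3.1, h3.2, (hp j).1, (hp j).2]
  have hmd : ∀ w : ℂ, ‖w‖ ≤ 1/32 ∨ 32 ≤ ‖w‖ → D.md w = 1 := fun w hw => by
    rw [md, Finset.prod_eq_one fun j _ => min_eq_left (by linarith [hfar w hw j]), Real.one_rpow]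
  have hnp : ∀ w : ℂ, ‖w‖ ≤ 1/32 ∨ 32 ≤ ‖w‖ → ¬ ∃ j, w = D.p j := fun w hw ⟨j, h⟩ => by
    have := hfar w hw j
    rw [h, sub_self, norm_zero] at this
    linarith
  have him : 0 ≤ (D.q * z : ℂ).im ↔ 0 ≤ z.im := by
    rw [im_ofReal_mul]; exact mul_nonneg_iff_of_pos_left hq
  have hang : ang (D.q * z) = ang z := by
    rw [ang, ang, hn, re_ofReal_mul, mul_div_mul_left _ _ hq.ne']
  have het : D.et (D.q * z) = D.et z := by
    rw [et, et, hmd _ (Or.inl g5), hmd _ (Or.inr g4), an, an, Surf1_chi_zero (Or.inl g5),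
      Surf1_chi_zero (Or.inr g4), hang, zero_mul, zero_mul, sgn, sgn]
    simp only [him]
  refine ⟨by simp only [Et, mem_ofPred_eq, h1, h2, het], ?_, g4⟩
  rw [F, F, dif_neg (hnp _ (Or.inl g5)), dif_neg (hnp _ (Or.inr g4))]
  simp only [him, het]
  split_ifs with h
  · rw [D.per z h g3 g2]
  · rw [map_mul, conj_ofReal, D.per (conj z) (by simpa using (not_le.1 h).le)
      (by rwa [norm_conj]) (by rwa [norm_conj])]

end SurfData

end Pool.Agent.MP_efb2da_gt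

end
end

section

open scoped Manifold ContDiff ComplexConjugate Topology
open Set Complex

noncomputable section

namespace Pool.Agent.MP_efb2da_gt

/-- retraction of the plane onto the strip `0 ≤ re ≤ 1/4` -/
def surfBdCl (ζ : ℂ) : ℂ := ((max 0 (min ζ.re (1/4)) : ℝ) : ℂ) + ζ.im * I

lemma surfBdCl_re (ζ : ℂ) : (surfBdCl ζ).re = max 0 (min ζ.re (1/4)) := by simp [surfBdCl]

lemma surfBdCl_eq {ζ : ℂ} (h0 : 0 ≤ ζ.re) (h1 : ζ.re ≤ 1/4) : surfBdCl ζ = ζ := by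
  rw [surfBdCl, min_eq_left h1, max_eq_right h0, re_add_im]

lemma surfBdCl_cont : Continuous surfBdCl := by
  unfold surfBdCl
  fun_prop

lemma surfBdCl_nonneg (ζ : ℂ) : 0 ≤ (surfBdCl ζ).re := by
  rw [surfBdCl_re]; exact le_max_left _ _

lemma surfBdCl_abs (ζ : ℂ) : |(surfBdCl ζ).re| < 1/2 := by
  rw [abs_of_nonneg (surfBdCl_nonneg ζ), surfBdCl_re]
  exact max_lt (by norm_num) ((min_le_right _ _).trans_lt (by norm_num))

namespace SurfData
variable (D : SurfData)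

/-- base point -/
def surfBdZ (ζ : ℂ) : ℂ := 1 + D.ε * exp ζ
/-- fibre coordinate -/
def surfBdH (ζ : ℂ) : ℂ := D.eta 1 0 1 D.ε ζ

lemma surfBd_k : D.k ≠ 0 := by have := D.hk; omega

lemma surfBdZ_norm (ζ : ℂ) : ‖D.surfBdZ ζ - 1‖ = D.ε * Real.exp ζ.re := by
  rw [surfBdZ, add_sub_cancel_left, norm_mul, norm_exp, norm_real, Real.norm_of_nonneg D.ε0.le]

lemma surfBdZ_near {ζ : ℂ} (h : |ζ.re| < 1/2) : ‖D.surfBdZ ζ - 1‖ < 1/16 := by
  rw [surfBdZ_norm]
  have h1 : Real.exp ζ.re ≤ Real.exp 1 := Real.exp_le_exp.2 (by linarith [(abs_lt.1 h).2])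
  have h2 := Real.exp_one_lt_d9
  have h3 := D.ε1
  have h4 := Real.exp_pos ζ.re
  nlinarith

lemma surfBdZ_ne_one (ζ : ℂ) : D.surfBdZ ζ ≠ 1 := by
  intro h
  have h1 := D.surfBdZ_norm ζ
  rw [h, sub_self, norm_zero] at h1
  exact (mul_pos D.ε0 (Real.exp_pos ζ.re)).ne h1

lemma surfBdZ_ne_p {ζ : ℂ} (h : |ζ.re| < 1/2) (j : Fin 3) : D.surfBdZ ζ ≠ D.p j := by
  intro h1
  have h2 := D.surfBdZ_near h
  rw [h1, ← ofReal_one, ← ofReal_sub, norm_real, Real.norm_eq_abs, abs_lt] at h2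
  obtain ⟨⟨-, a⟩, ⟨-, b⟩, -, c⟩ := D.adm
  fin_cases j
  · have : D.p 0 ≤ 2/3 := a
    have h3 : -(1/16) < D.p 0 - 1 := h2.1
    linarith
  · have : D.p 1 ≤ -9/10 := b
    have h3 : -(1/16) < D.p 1 - 1 := h2.1
    linarith
  · have : D.p 2 ≤ -1/4 := c
    have h3 : -(1/16) < D.p 2 - 1 := h2.1
    linarith

lemma surfBd_cover {ζ : ℂ} (h : |ζ.re| < 1/2) :
    (∃ o : ℂ, o ^ D.k = 1 ∧ D.surfBdH ζ = o * D.et (D.surfBdZ ζ)) ∧
      D.F (D.surfBdZ ζ, D.surfBdH ζ) = D.Y ζ := by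
  have := D.cover (P := 1) (c := D.ε) (l := 0) (σ := 1) D.ε0 (J := {r | |r| < 1/2}) (Z := D.Y)
    (fun ζ hζ j => by simpa [surfBdZ] using D.surfBdZ_ne_p hζ j)
    (fun ζ hζ h0 h1 => by simpa using D.Y_eq ζ hζ h0 h1)
    (fun ζ hζ => by simpa using D.Y_rot ζ hζ)
    (fun ζ hζ => by simpa using D.Y_refl ζ hζ) (ζ := ζ) h
  simpa only [surfBdZ, surfBdH, ofReal_one] using this

lemma surfBdH_eq {ζ : ℂ} (h : |ζ.re| < 1/2) :
    D.surfBdH ζ = exp (I * (ζ.im / D.k : ℝ)) *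
      exp (I * (sgn (D.surfBdZ ζ) * D.bb 1 0 1 (D.surfBdZ ζ) / D.k : ℝ)) := by
  have h1 := D.md_near_one (D.surfBdZ_near h)
  simp only [surfBdZ] at h1
  simp only [surfBdH, eta, ofReal_one, surfBdZ, h1, one_mul, Nat.cast_zero, mul_zero, zero_add,
    Int.cast_one]

lemma surfBdH_ne {ζ : ℂ} (h : |ζ.re| < 1/2) : D.surfBdH ζ ≠ 0 := by
  rw [D.surfBdH_eq h]
  exact mul_ne_zero (exp_ne_zero _) (exp_ne_zero _)

lemma surfBdZ_cont : Continuous D.surfBdZ := by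
  unfold surfBdZ
  fun_prop

lemma surfBdH_contOn : ContinuousOn D.surfBdH {ζ | |ζ.re| < 1/2} := by
  refine ContinuousOn.congr ?_ fun ζ h => D.surfBdH_eq h
  have h1 : ContinuousOn (fun ζ => sgn (D.surfBdZ ζ) * D.bb 1 0 1 (D.surfBdZ ζ))
      {ζ | |ζ.re| < 1/2} :=
    D.continuousOn_phase_one.comp D.surfBdZ_cont.continuousOn
      fun ζ h => ⟨D.surfBdZ_near h, D.surfBdZ_ne_one ζ⟩
  refine ContinuousOn.mul (Continuous.continuousOn (by fun_prop)) ?_
  exact ContinuousOn.cexp (continuousOn_const.mul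
    (continuous_ofReal.comp_continuousOn (h1.div_const _)))

lemma surfBdH_contAt {ζ : ℂ} (h : |ζ.re| < 1/2) : ContinuousAt D.surfBdH ζ :=
  D.surfBdH_contOn.continuousAt
    ((isOpen_lt (by fun_prop) continuous_const).mem_nhds h)

lemma surfBdZ_shift (ζ : ℂ) (n : ℕ) : D.surfBdZ (ζ + n * (2 * Real.pi * I)) = D.surfBdZ ζ := by
  rw [surfBdZ, surfBdZ, exp_add, exp_nat_mul_two_pi_mul_I, mul_one]

lemma surfBdH_shift {ζ : ℂ} (h : |ζ.re| < 1/2) (n : ℕ) :
    D.surfBdH (ζ + n * (2 * Real.pi * I)) = rt D.k ^ n * D.surfBdH ζ := by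
  have h1 : |(ζ + n * (2 * Real.pi * I)).re| < 1/2 := by simpa using h
  have h2 : (ζ + n * (2 * Real.pi * I)).im = ζ.im + n * (2 * Real.pi) := by simp
  rw [D.surfBdH_eq h1, D.surfBdH_eq h, surfBdZ_shift, h2, rt, ← exp_nat_mul, ← exp_add, ← exp_add,
    ← exp_add]
  congr 1
  push_cast
  ring

lemma surfBd_mem {ζ : ℂ} (h0 : 0 ≤ ζ.re) (h : |ζ.re| < 1/2) :
    (D.surfBdZ ζ, D.surfBdH ζ) ∈ D.Et := by
  refine ⟨⟨?_, ?_, ?_⟩, (D.surfBd_cover h).1⟩
  · have h1 := D.surfBdZ_near h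
    have h2 : √D.q ≤ 1/64 := by
      rw [Real.sqrt_le_iff]; exact ⟨by norm_num, by linarith [D.q1]⟩
    have h3 := norm_sub_norm_le (1 : ℂ) (D.surfBdZ ζ)
    rw [norm_sub_rev, norm_one] at h3
    show √D.q / 2 < ‖D.surfBdZ ζ‖
    linarith
  · have h1 := D.surfBdZ_near h
    have h2 : √D.q ≤ 1/64 := by
      rw [Real.sqrt_le_iff]; exact ⟨by norm_num, by linarith [D.q1]⟩
    have h3 := norm_sub_norm_le (D.surfBdZ ζ) (1 : ℂ)
    rw [norm_one] at h3
    have h4 : 0 < √D.q := Real.sqrt_pos.2 D.q0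
    show ‖D.surfBdZ ζ‖ < 2 / √D.q
    rw [lt_div_iff₀ h4]
    nlinarith [norm_nonneg (D.surfBdZ ζ)]
  · show D.ε ≤ ‖D.surfBdZ ζ - 1‖
    rw [surfBdZ_norm]
    exact le_mul_of_one_le_right D.ε0.le (Real.one_le_exp h0)

/-- the parametrisation of a collar of the boundary -/
def surfBdPsi (ζ : ℂ) : D.Et :=
  ⟨(D.surfBdZ (surfBdCl ζ), D.surfBdH (surfBdCl ζ)),
    D.surfBd_mem (surfBdCl_nonneg ζ) (surfBdCl_abs ζ)⟩

lemma surfBdPsi_val {ζ : ℂ} (h0 : 0 ≤ ζ.re) (h1 : ζ.re ≤ 1/4) :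
    (D.surfBdPsi ζ).1 = (D.surfBdZ ζ, D.surfBdH ζ) := by
  simp only [surfBdPsi, surfBdCl_eq h0 h1]

lemma surfBdPsi_cont : Continuous D.surfBdPsi :=
  Continuous.subtype_mk ((D.surfBdZ_cont.comp surfBdCl_cont).prodMk
    (D.surfBdH_contOn.comp_continuous surfBdCl_cont surfBdCl_abs)) _

lemma surfBdPsi_F {ζ : ℂ} (h0 : 0 ≤ ζ.re) (h1 : ζ.re ≤ 1/4) : D.FE (D.surfBdPsi ζ) = D.Y ζ := by
  rw [FE, D.surfBdPsi_val h0 h1]
  exact (D.surfBd_cover (by rw [abs_of_nonneg h0]; linarith)).2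

lemma surfBd_fibre (x : D.Et) {ζ : ℂ} (h : |ζ.re| < 1/2) (hx : x.1.1 = D.surfBdZ ζ) :
    ∃ o : ℂ, o ^ D.k = 1 ∧ x.1.2 = o * D.surfBdH ζ := by
  obtain ⟨o, ho, h1⟩ := x.2.2
  obtain ⟨o', ho', h2⟩ := (D.surfBd_cover h).1
  have h3 : o' ≠ 0 := by
    rintro rfl
    rw [zero_pow D.surfBd_k] at ho'
    exact zero_ne_one ho'
  refine ⟨o / o', by rw [div_pow, ho, ho', div_one], ?_⟩
  rw [h1, h2, hx]
  field_simp

lemma surfBd_onto (x : D.Et) (h : ‖x.1.1 - 1‖ = D.ε) : ∃ θ : ℝ, D.surfBdPsi (θ * I) = x := by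
  have h1 : x.1.1 = D.surfBdZ (arg (x.1.1 - 1) * I) := by
    rw [surfBdZ, ← h, norm_mul_exp_arg_mul_I]; ring
  have h2 : |(arg (x.1.1 - 1) * I : ℂ).re| < 1/2 := by simp
  obtain ⟨o, ho, h3⟩ := D.surfBd_fibre x h2 h1
  obtain ⟨n, -, rfl⟩ := exists_rt_pow D.surfBd_k ho
  refine ⟨arg (x.1.1 - 1) + n * (2 * Real.pi), Subtype.ext ?_⟩
  rw [D.surfBdPsi_val (by simp) (by simp)]
  have h4 : ((arg (x.1.1 - 1) + n * (2 * Real.pi) : ℝ) : ℂ) * I =
      arg (x.1.1 - 1) * I + n * (2 * Real.pi * I) := by push_cast; ring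
  rw [h4, surfBdZ_shift, D.surfBdH_shift h2, ← h1, ← h3]

theorem exists_bdParam : ∃ β : ℝ → D.Et, Continuous β ∧ (∀ θ, D.FE (β θ) = D.Y (θ * I)) ∧
    (∀ θ, (β θ).1.1 = 1 + D.ε * exp (θ * I)) ∧ (∀ θ, β (θ + 2 * Real.pi * D.k) = β θ) ∧
    D.bdE = β '' Ico 0 (2 * Real.pi * D.k) := by
  have hval : ∀ θ : ℝ, (D.surfBdPsi (θ * I)).1 = (D.surfBdZ (θ * I), D.surfBdH (θ * I)) :=
    fun θ => D.surfBdPsi_val (by simp) (by simp)
  have hper : Function.Periodic (fun θ : ℝ => D.surfBdPsi (θ * I)) (2 * Real.pi * D.k) := by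
    intro θ
    refine Subtype.ext ?_
    rw [hval, hval]
    have h4 : ((θ + 2 * Real.pi * D.k : ℝ) : ℂ) * I = θ * I + D.k * (2 * Real.pi * I) := by
      push_cast; ring
    rw [h4, surfBdZ_shift, D.surfBdH_shift (by simp), rt_pow D.surfBd_k, one_mul]
  refine ⟨fun θ => D.surfBdPsi (θ * I), D.surfBdPsi_cont.comp (by fun_prop),
    fun θ => D.surfBdPsi_F (by simp) (by simp), fun θ => by rw [hval]; rfl, hper, ?_⟩
  ext x
  constructor
  · intro hx
    obtain ⟨θ, rfl⟩ := D.surfBd_onto x hx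
    have hk : (0 : ℝ) < D.k := Nat.cast_pos.2 (Nat.pos_of_ne_zero D.surfBd_k)
    obtain ⟨y, hy, h⟩ := hper.exists_mem_Ico₀ (by positivity) θ
    exact ⟨y, hy, h.symm⟩
  · rintro ⟨θ, -, rfl⟩
    show ‖(D.surfBdPsi (θ * I)).1.1 - 1‖ = D.ε
    rw [hval, surfBdZ_norm]
    simp

theorem locChart_bd (x : D.Et) (h : ‖x.1.1 - 1‖ = D.ε) : LocChart D.FE D.bdE x := by
  obtain ⟨θ, hθ⟩ := D.surfBd_onto x h
  have hre : ∀ w ∈ Metric.ball ((θ : ℂ) * I) (1/4), |w.re| < 1/4 := fun w hw => by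
    have h1 := (abs_re_le_norm (w - θ * I)).trans_lt (mem_ball_iff_norm.1 hw)
    simpa using h1
  have him : ∀ w ∈ Metric.ball ((θ : ℂ) * I) (1/4), |(w - θ * I).im| < 1/4 := fun w hw =>
    (abs_im_le_norm (w - θ * I)).trans_lt (mem_ball_iff_norm.1 hw)
  have hval : ∀ w ∈ Metric.ball ((θ : ℂ) * I) (1/4), 0 ≤ w.re →
      (D.surfBdPsi w).1 = (D.surfBdZ w, D.surfBdH w) := fun w hw h0 =>
    D.surfBdPsi_val h0 (abs_lt.1 (hre w hw)).2.le
  have hε : (D.ε : ℂ) ≠ 0 := ofReal_ne_zero.2 D.ε0.ne'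
  refine ⟨Metric.ball (θ * I) (1/4), θ * I, {w | 0 ≤ w.re}, D.surfBdPsi, D.Y, Metric.isOpen_ball,
    Metric.mem_ball_self (by norm_num), hθ, Or.inr ⟨rfl, by simp, h⟩,
    D.surfBdPsi_cont.continuousOn, ?_, ?_, fun w hw => D.Y_cmc w (by linarith [hre w hw]),
    fun w hw => D.surfBdPsi_F hw.2 (abs_lt.1 (hre w hw.1)).2.le⟩
  · intro w hw w' hw' he
    have h1 : D.surfBdZ w = D.surfBdZ w' := by
      have := congrArg (fun y : D.Et => y.1.1) he
      simpa only [hval w hw.1 hw.2, hval w' hw'.1 hw'.2] using this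
    have h2 : exp w = exp w' := mul_left_cancel₀ hε (add_left_cancel h1)
    have h3 : exp (w - θ * I) = exp (w' - θ * I) := by rw [exp_sub, exp_sub, h2]
    have h4 := abs_lt.1 (him w hw.1)
    have h5 := abs_lt.1 (him w' hw'.1)
    have hpi := Real.pi_gt_three
    exact sub_left_injective (exp_inj_of_neg_pi_lt_of_le_pi (by linarith [h4.1])
      (by linarith [h4.2]) (by linarith [h5.1]) (by linarith [h5.2]) h3)
  · intro V' hV' hsub
    rw [isOpen_iff_mem_nhds]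
    rintro _ ⟨w, ⟨hw, hw0⟩, rfl⟩
    obtain ⟨δ, hδ, hsep⟩ := exists_root_sep D.surfBd_k
    have hwv := hval w (hsub hw) hw0
    have hw2 : |w.re| < 1/2 := by linarith [hre w (hsub hw)]
    let g : D.Et → ℂ := fun y => w + log ((y.1.1 - 1) / (D.ε * exp w))
    have hone : ((D.surfBdPsi w).1.1 - 1) / (D.ε * exp w) = 1 := by
      rw [hwv, surfBdZ, add_sub_cancel_left, div_self (mul_ne_zero hε (exp_ne_zero w))]
    have hg0 : g (D.surfBdPsi w) = w := by simp only [g, hone, log_one, add_zero]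
    have hgc : ContinuousAt g (D.surfBdPsi w) := by
      refine continuousAt_const.add (ContinuousAt.clog (by fun_prop) ?_)
      rw [hone]; exact one_mem_slitPlane
    have hHc : ContinuousAt (fun y => D.surfBdH (g y)) (D.surfBdPsi w) :=
      ContinuousAt.comp (g := D.surfBdH) (by rw [hg0]; exact D.surfBdH_contAt hw2) hgc
    have hq : ContinuousAt (fun y : D.Et => ‖y.1.2 / D.surfBdH (g y) - 1‖) (D.surfBdPsi w) := by
      refine (ContinuousAt.sub (ContinuousAt.div (by fun_prop) hHc ?_) continuousAt_const).norm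
      rw [hg0]; exact D.surfBdH_ne hw2
    have e1 : ∀ᶠ y in 𝓝 (D.surfBdPsi w), g y ∈ V' :=
      hgc.preimage_mem_nhds (hV'.mem_nhds (by rw [hg0]; exact hw))
    have e2 : ∀ᶠ y in 𝓝 (D.surfBdPsi w), ‖y.1.2 / D.surfBdH (g y) - 1‖ < δ := by
      refine hq.eventually_lt continuousAt_const ?_
      rw [hg0, hwv, div_self (D.surfBdH_ne hw2), sub_self, norm_zero]
      exact hδ
    filter_upwards [e1, e2] with y h1 h2
    have hb : D.ε ≤ ‖y.1.1 - 1‖ := y.2.1.2.2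
    have hy1 : y.1.1 - 1 ≠ 0 := norm_pos_iff.1 (D.ε0.trans_le hb)
    have hz : y.1.1 = D.surfBdZ (g y) := by
      simp only [g, surfBdZ]
      rw [exp_add, exp_log (div_ne_zero hy1 (mul_ne_zero hε (exp_ne_zero w)))]
      have := exp_ne_zero w
      field_simp
      ring
    have hg1 : 0 ≤ (g y).re := by
      rw [hz, surfBdZ_norm] at hb
      exact Real.one_le_exp_iff.1 (le_of_mul_le_mul_left (by rwa [mul_one]) D.ε0)
    have hg2 : |(g y).re| < 1/2 := by linarith [hre _ (hsub h1)]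
    obtain ⟨o, ho, h3⟩ := D.surfBd_fibre y hg2 hz
    have h4 : o = 1 := hsep o ho (by
      rwa [h3, mul_div_cancel_right₀ _ (D.surfBdH_ne hg2)] at h2)
    refine ⟨g y, ⟨h1, hg1⟩, Subtype.ext ?_⟩
    rw [hval _ (hsub h1) hg1, ← hz]
    rw [h4, one_mul] at h3
    rw [← h3]

end SurfData

end Pool.Agent.MP_efb2da_gt

end
end
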