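import Pool.Agent.Mg.Fefb2da.Gc5bfff

section

open Set Complex
open scoped Topology ComplexConjugate Matrix ContDiff

noncomputable section

namespace Pool.Agent.MP_efb2da_gt

def Dm (θ : ℝ) : MC := !![exp (-(θ * I)), 0; 0, exp (θ * I)]

/-- unitary loops inducing the rotation by `2π t l` about the vertical axis through `(x,0,0)` -/
structure Cl (x t : ℝ) (l : ℤ) (R : MW) : Prop where
  unit : st R * R = 1
  det : R.det = 1
  j0 : J0 R = Dm (Real.pi * t * l)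
  j1 : J1 R = (x : ℂ) • (s1 * J0 R - J0 R * s1)

/-- flux of a monodromy -/
def phi (x : ℝ) (R : MW) : ℂ := trC (s3 * (J2 R - (2 * x : ℂ) • (s1 * J1 R)) * adjC (J0 R))
/-- potential of the flux form -/
def flx (x : ℝ) (Φ : MW) : ℂ := trC (s3 * (J2 (Uf Φ) - (2 * x : ℂ) • (s1 * symM Φ)))
/-- position relative to the axis -/
def pt (x : ℝ) (Φ : MW) : E3 := vec (symM Φ) - mk3 x 0
def Sof (t : ℝ) (R : MW) : MW := (4 * Real.pi * I * t : ℂ)⁻¹ • (R - adj R)

variable {x t : ℝ}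

lemma Jet_de (θ : ℝ) : exp (θ * I) * exp (-(θ * I)) = 1 := by
  rw [← Complex.exp_add]; simp

lemma Jet_Dm_zero : Dm 0 = 1 := by
  ext i j; fin_cases i <;> fin_cases j <;> simp [Dm]

lemma Jet_Dm_add (a b : ℝ) : Dm (a + b) = Dm a * Dm b := by
  ext i j; fin_cases i <;> fin_cases j <;>
    simp [Dm, Matrix.mul_apply, Fin.sum_univ_two, ← Complex.exp_add] <;> ring_nf

lemma Jet_adjC_Dm (a : ℝ) : adjC (Dm a) = Dm (-a) := by
  rw [adjC_apply]
  ext i j; fin_cases i <;> fin_cases j <;> simp [Dm]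

lemma Jet_cjC_Dm (a : ℝ) : cjC (Dm a) = Dm (-a) := by
  ext i j; fin_cases i <;> fin_cases j <;> simp [Dm, ← Complex.exp_conj]

lemma Jet_comm_Dm (y : ℂ) (θ : ℝ) : y • (s1 * Dm θ - Dm θ * s1) =
    !![0, y * (exp (θ * I) - exp (-(θ * I))); y * (exp (-(θ * I)) - exp (θ * I)), 0] := by
  ext i j; fin_cases i <;> fin_cases j <;> simp [Dm, s1, Matrix.mul_apply]

lemma Jet_s3_conj (θ : ℝ) (X : MC) : trC (s3 * (Dm θ * X) * adjC (Dm θ)) = trC (s3 * X) := by
  have h := Jet_de θ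
  simp only [trC_apply, Matrix.mul_apply, Fin.sum_univ_two]
  simp [adjC_apply, Dm, s3]
  linear_combination (X 0 0 - X 1 1) * h

lemma Cl.Jet_st {l : ℤ} {R : MW} (hR : Cl x t l R) : st R = adj R := by
  rw [← mul_one (st R), ← mul_adj_of_det hR.det, ← mul_assoc, hR.unit, one_mul]

lemma Cl.Jet_det0 {l : ℤ} {R : MW} (hR : Cl x t l R) : (J0 R).det = 1 := by
  rw [det_J0, hR.det, W.j0_one]

lemma Cl.Jet_e0 {l : ℤ} {R : MW} (hR : Cl x t l R) :
    W.j0 (R 0 0) = exp (-(((Real.pi * t * l : ℝ) : ℂ) * I)) ∧ W.j0 (R 0 1) = 0 ∧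
      W.j0 (R 1 0) = 0 ∧ W.j0 (R 1 1) = exp (((Real.pi * t * l : ℝ) : ℂ) * I) := by
  have h := hR.j0
  exact ⟨congrFun (congrFun h 0) 0, congrFun (congrFun h 0) 1, congrFun (congrFun h 1) 0,
    congrFun (congrFun h 1) 1⟩

lemma Cl.Jet_e1 {l : ℤ} {R : MW} (hR : Cl x t l R) :
    W.j1 (R 0 0) = 0 ∧ W.j1 (R 0 1) = x * (exp (((Real.pi * t * l : ℝ) : ℂ) * I) -
        exp (-(((Real.pi * t * l : ℝ) : ℂ) * I))) ∧
      W.j1 (R 1 0) = x * (exp (-(((Real.pi * t * l : ℝ) : ℂ) * I)) -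
        exp (((Real.pi * t * l : ℝ) : ℂ) * I)) ∧ W.j1 (R 1 1) = 0 := by
  have h := hR.j1
  rw [hR.j0, Jet_comm_Dm] at h
  exact ⟨congrFun (congrFun h 0) 0, congrFun (congrFun h 0) 1, congrFun (congrFun h 1) 0,
    congrFun (congrFun h 1) 1⟩

theorem Cl.one : Cl x t 0 1 where
  unit := by simp
  det := Matrix.det_one
  j0 := by simp [Jet_Dm_zero]
  j1 := by simp

theorem Cl.mul {l m : ℤ} {R S : MW} (hR : Cl x t l R) (hS : Cl x t m S) : Cl x t (l + m) (R * S) where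
  unit := by
    rw [st_mul, mul_assoc, ← mul_assoc (st R), hR.unit, one_mul, hS.unit]
  det := by rw [Matrix.det_mul, hR.det, hS.det, one_mul]
  j0 := by
    rw [J0_mul, hR.j0, hS.j0, ← Jet_Dm_add]
    congr 1
    push_cast
    ring
  j1 := by
    rw [J1_mul, J0_mul, hR.j1, hS.j1]
    simp only [smul_mul_assoc, mul_smul_comm, ← smul_add]
    congr 1
    noncomm_ring

theorem Cl.adj {l : ℤ} {R : MW} (hR : Cl x t l R) : Cl x t (-l) (adj R) where
  unit := by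
    rw [← hR.Jet_st, st_st, hR.Jet_st, mul_adj_of_det hR.det]
  det := by rw [det_adj, hR.det]
  j0 := by
    rw [J0_adj, hR.j0, Jet_adjC_Dm]
    congr 1
    push_cast
    ring
  j1 := by
    rw [J1_adj, J0_adj, hR.j1, hR.j0, Jet_adjC_Dm, Jet_comm_Dm, Jet_comm_Dm, adjC_apply]
    ext i j; fin_cases i <;> fin_cases j <;> simp <;> ring

theorem Cl.sharp {l : ℤ} {R : MW} (hR : Cl x t l R) : Cl x t (-l) (sharp R) where
  unit := by rw [st_sharp, ← sharp_mul, hR.unit, sharp_one]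
  det := by rw [det_sharp, hR.det, W.cj_one]
  j0 := by
    rw [J0_sharp, hR.j0, Jet_cjC_Dm]
    congr 1
    push_cast
    ring
  j1 := by
    have hs : cjC s1 = s1 := by
      ext i j; fin_cases i <;> fin_cases j <;> simp [s1]
    have hx : (x : ℂ) • (s1 * J0 R - J0 R * s1) = x • (s1 * J0 R - J0 R * s1) := rfl
    rw [J1_sharp, J0_sharp, hR.j1, hx, map_smul, map_sub, cjC_mul, cjC_mul, hs]
    rfl

theorem phi_one : phi x 1 = 0 := by simp [phi]

theorem Cl.phi_mul {l m : ℤ} {R S : MW} (hR : Cl x t l R) (hS : Cl x t m S) :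
    phi x (R * S) = phi x R + phi x S := by
  have h1 : J0 S * adjC (J0 S) = 1 := mul_adjC_of_det hS.Jet_det0
  have h2 : s3 * (J2 (R * S) - (2 * x : ℂ) • (s1 * J1 (R * S))) * adjC (J0 (R * S)) =
      s3 * (J2 R - (2 * x : ℂ) • (s1 * J1 R)) * (J0 S * adjC (J0 S)) * adjC (J0 R) +
      s3 * (J0 R * ((J2 S - (2 * x : ℂ) • (s1 * J1 S)) * adjC (J0 S))) * adjC (J0 R) := by
    rw [J2_mul, J1_mul, J0_mul, adjC_mul]
    conv_lhs => rw [show J1 R * J1 S = (x : ℂ) • ((s1 * J0 R - J0 R * s1) * J1 S) by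
      rw [hR.j1, smul_mul_assoc]]
    simp only [mul_add, add_mul, mul_sub, sub_mul, smul_add, smul_sub, smul_mul_assoc,
      mul_smul_comm, mul_assoc, smul_smul]
    abel
  unfold phi
  rw [h2, h1, mul_one, map_add]
  congr 1
  rw [hR.j0, Jet_s3_conj, mul_assoc]

theorem Cl.phi_adj {l : ℤ} {R : MW} (hR : Cl x t l R) : phi x (Pool.Agent.MP_efb2da_gt.adj R) = -phi x R := by
  have h := hR.phi_mul hR.adj
  rw [mul_adj_of_det hR.det, phi_one] at h
  linear_combination -h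

theorem Cl.j1_tr {l : ℤ} {R : MW} (hR : Cl x t l R) : W.j1 (trW R) = 0 := by
  obtain ⟨h1, -, -, h2⟩ := hR.Jet_e1
  rw [trW_apply, map_add, h1, h2, add_zero]

theorem Cl.j0_tr {l : ℤ} {R : MW} (hR : Cl x t l R) :
    W.j0 (trW R) = 2 * Real.cos (Real.pi * t * l) := by
  obtain ⟨h1, -, -, h2⟩ := hR.Jet_e0
  rw [trW_apply, map_add, h1, h2, Complex.ofReal_cos, Complex.cos, neg_mul]
  ring

theorem Cl.j2_tr {l : ℤ} {R : MW} (hR : Cl x t l R) :
    W.j2 (trW R) = -(I * Real.sin (Real.pi * t * l)) * phi x R := by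
  obtain ⟨a1, a2, a3, a4⟩ := hR.Jet_e0
  obtain ⟨b1, b2, b3, b4⟩ := hR.Jet_e1
  have hd := congrArg W.j2 hR.det
  rw [Matrix.det_fin_two, map_sub, W.j2_mul, W.j2_mul, W.j2_one, a1, a2, a3, a4, b1, b2, b3,
    b4] at hd
  have hde := Jet_de (Real.pi * t * l)
  have hs : I * (Real.sin (Real.pi * t * l) : ℂ) = (exp (((Real.pi * t * l : ℝ) : ℂ) * I) -
      exp (-(((Real.pi * t * l : ℝ) : ℂ) * I))) / 2 := by
    rw [Complex.ofReal_sin, Complex.sin, neg_mul]
    linear_combination (exp (-(((Real.pi * t * l : ℝ) : ℂ) * I)) -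
      exp (((Real.pi * t * l : ℝ) : ℂ) * I)) / 2 * I_mul_I
  have hp : phi x R = (W.j2 (R 0 0) - 2 * x * W.j1 (R 1 0)) * W.j0 (R 1 1) -
      (W.j2 (R 1 1) - 2 * x * W.j1 (R 0 1)) * W.j0 (R 0 0) := by
    simp [phi, trC_apply, adjC_apply, s1, s3, Matrix.mul_apply, Fin.sum_univ_two, Matrix.vecMul,
      dotProduct, a2, a3]
    ring
  rw [hs, hp, trW_apply, map_add, a1, a4, b2, b3]
  generalize exp (((Real.pi * t * l : ℝ) : ℂ) * I) = d at *
  generalize exp (-(((Real.pi * t * l : ℝ) : ℂ) * I)) = e at *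
  linear_combination ((d + e) / 2) * hd - (W.j2 (R 0 0) + W.j2 (R 1 1)) * hde

lemma Cl.Jet_sym {l : ℤ} {R Φ g : MW} (hR : Cl x t l R) (h : Φ.det = 1) (hg : MGE 0 g)
    (hdg : g.det = 1) : symM (R * Φ * g) = (J1 R + J0 R * symM Φ) * adjC (J0 R) := by
  unfold symM
  rw [(iw_gauge h hR.unit hR.det hg hdg).1, J1_mul, J1_mul, J0_Uf h, J0_cst, J1_cst, mul_zero,
    add_zero, mul_one]

theorem Cl.pt_mul {l : ℤ} {R Φ g : MW} (hR : Cl x t l R) (h : Φ.det = 1) (hg : MGE 0 g)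
    (hdg : g.det = 1) : pt x (R * Φ * g) = Rot (exp (2 * Real.pi * I * t * l)) (pt x Φ) := by
  have hv : mk3 x 0 = vec ((x : ℂ) • s1) := by simp [vec, s1]
  have hde := Jet_de (Real.pi * t * l)
  have he : exp (2 * Real.pi * I * t * l) = conj (exp (-(((Real.pi * t * l : ℝ) : ℂ) * I)) *
      exp (-(((Real.pi * t * l : ℝ) : ℂ) * I))) := by
    rw [← Complex.exp_add, ← Complex.exp_conj]
    congr 1
    simp
    ring
  unfold pt
  rw [hR.Jet_sym h hg hdg, hv, ← vec_sub, ← vec_sub, hR.j1, hR.j0, Jet_comm_Dm, he]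
  generalize symM Φ = f
  have e1 : ((!![0, x * (exp (((Real.pi * t * l : ℝ) : ℂ) * I) -
      exp (-(((Real.pi * t * l : ℝ) : ℂ) * I))); x * (exp (-(((Real.pi * t * l : ℝ) : ℂ) * I)) -
      exp (((Real.pi * t * l : ℝ) : ℂ) * I)), 0] + Dm (Real.pi * t * l) * f) *
      adjC (Dm (Real.pi * t * l)) - (x : ℂ) • s1) 0 1 = exp (-(((Real.pi * t * l : ℝ) : ℂ) * I)) *
      exp (-(((Real.pi * t * l : ℝ) : ℂ) * I)) * (f - (x : ℂ) • s1) 0 1 := by
    generalize Real.pi * t * l = θ at *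
    simp only [Matrix.sub_apply, Matrix.add_apply, Matrix.mul_apply, Fin.sum_univ_two]
    simp [adjC_apply, Dm, s1]
    linear_combination x * hde
  have e2 : ((!![0, x * (exp (((Real.pi * t * l : ℝ) : ℂ) * I) -
      exp (-(((Real.pi * t * l : ℝ) : ℂ) * I))); x * (exp (-(((Real.pi * t * l : ℝ) : ℂ) * I)) -
      exp (((Real.pi * t * l : ℝ) : ℂ) * I)), 0] + Dm (Real.pi * t * l) * f) *
      adjC (Dm (Real.pi * t * l)) - (x : ℂ) • s1) 0 0 = (f - (x : ℂ) • s1) 0 0 := by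
    generalize Real.pi * t * l = θ at *
    simp only [Matrix.sub_apply, Matrix.add_apply, Matrix.mul_apply, Fin.sum_univ_two]
    simp [adjC_apply, Dm, s1]
    linear_combination f 0 0 * hde
  unfold vec
  rw [e1, e2]
  refine E3_ext ?_ ?_
  · simp only [hz_mk3, hz_Rot, map_mul]
  · simp only [mk3_two, Rot_two]

theorem Cl.flx_mul {l : ℤ} {R Φ : MW} (hR : Cl x t l R) (h : Φ.det = 1) :
    flx x (R * Φ) = flx x Φ + phi x R := by
  have h1 := hR.Jet_sym h MGE_one Matrix.det_one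
  have h2 := (iw_gauge h hR.unit hR.det MGE_one Matrix.det_one).1
  rw [mul_one] at h1 h2
  have h3 : s3 * (J2 (Uf (R * Φ)) - (2 * x : ℂ) • (s1 * symM (R * Φ))) =
      s3 * (J0 R * (J2 (Uf Φ) - (2 * x : ℂ) • (s1 * symM Φ))) * adjC (J0 R) +
      s3 * (J2 R - (2 * x : ℂ) • (s1 * J1 R)) * adjC (J0 R) := by
    rw [h1, h2, J2_mul, J2_mul, J0_Uf h, J0_cst, J1_cst, J2_cst]
    conv_lhs => rw [show J1 R * J1 (Uf Φ) = (x : ℂ) • ((s1 * J0 R - J0 R * s1) * symM Φ) by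
      rw [hR.j1, smul_mul_assoc]; rfl]
    simp only [mul_add, add_mul, mul_sub, sub_mul, smul_add, smul_sub, smul_mul_assoc,
      mul_smul_comm, mul_assoc, smul_smul, mul_zero, smul_zero, add_zero, mul_one]
    abel
  unfold flx phi
  rw [h3, map_add]
  congr 1
  rw [hR.j0, Jet_s3_conj]

theorem pt_sharp {Φ : MW} (h : Φ.det = 1) : pt x (sharp Φ) = Refl (pt x Φ) := by
  have hv : mk3 x 0 = vec ((x : ℂ) • s1) := by simp [vec, s1]
  have hs : cjC ((x : ℂ) • s1) = (x : ℂ) • s1 := by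
    ext i j; fin_cases i <;> fin_cases j <;> simp [s1]
  unfold pt
  rw [symM_sharp h, hv, ← vec_sub, ← vec_sub, ← vec_cjC, map_sub, hs]

lemma Jet_c_ne (ht : t ≠ 0) : (4 * Real.pi * I * t : ℂ) ≠ 0 := by
  have h1 : (Real.pi : ℂ) ≠ 0 := by exact_mod_cast Real.pi_ne_zero
  have h2 : (t : ℂ) ≠ 0 := by exact_mod_cast ht
  simp [h1, h2]

lemma Jet_smul_S (ht : t ≠ 0) (R : MW) : (4 * Real.pi * I * t : ℂ) • Sof t R = R - adj R := by
  rw [Sof, smul_smul, mul_inv_cancel₀ (Jet_c_ne ht), one_smul]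

lemma Jet_norm_tr {R : MW} (hn : ‖R - 1‖ ≤ 1/4) : ‖trW R - 2‖ ≤ 1/2 := by
  have h0 := (norm_entry_le (R - 1) 0 0).trans hn
  have h1 := (norm_entry_le (R - 1) 1 1).trans hn
  have e : trW R - 2 = (R - 1) 0 0 + (R - 1) 1 1 := by
    simp [trW_apply]
    ring
  rw [e]
  exact (norm_add_le _ _).trans (by linarith)

lemma Jet_two_cancel {a b : W} (h : 2 * a = 2 * b) : a = b := by
  have h2 : (2 : ℂ) • a = (2 : ℂ) • b := by
    rw [two_smul, two_smul, ← two_mul, ← two_mul, h]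
  exact smul_right_injective W (two_ne_zero (α := ℂ)) h2

theorem unitary_of_S {R : MW} (ht : t ≠ 0) (hd : R.det = 1) (hs : sharp R = adj R)
    (hn : ‖R - 1‖ ≤ 1/4) (hf : flat (Sof t R) = Sof t R) :
    st R * R = 1 ∧ W.rev (trW R) = trW R := by
  have hA : flat (R - adj R) = R - adj R := by
    rw [← Jet_smul_S ht, map_smul, hf]
  have h00 : W.rev (R 0 0) - W.rev (R 1 1) = R 0 0 - R 1 1 := by
    simpa [adj_apply] using congrFun (congrFun hA 0) 0
  have h01 : W.rev (R 1 0) = R 0 1 := by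
    have := congrFun (congrFun hA 0) 1
    simp only [flat_apply, Matrix.sub_apply, adj_apply, map_sub] at this
    refine Jet_two_cancel ?_
    simp at this
    linear_combination this
  have h10 : W.rev (R 0 1) = R 1 0 := by rw [← h01, W.rev_rev]
  rw [Matrix.det_fin_two] at hd
  have hd' := congrArg W.rev hd
  rw [map_sub, W.rev_mul, W.rev_mul, W.rev_one, h01, h10] at hd'
  have hsq : (W.rev (trW R) - trW R) * (W.rev (trW R) + trW R) = 0 := by
    rw [trW_apply, map_add]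
    linear_combination 4 * hd' - 4 * hd + (W.rev (R 0 0) - W.rev (R 1 1) + R 0 0 - R 1 1) * h00
  have hu : IsUnit (W.rev (trW R) + trW R) := by
    have h1 := Jet_norm_tr hn
    have h2 : ‖W.rev (trW R) - 2‖ ≤ 1/2 := by
      have e : W.rev (trW R) - 2 = W.rev (trW R - 2) := by
        rw [map_sub, ← one_add_one_eq_two (R := W), map_add, W.rev_one]
      rw [e, W.norm_rev]
      exact h1
    have h3 : ‖(-(1/4 : ℂ)) • ((W.rev (trW R) - 2) + (trW R - 2))‖ < 1 := by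
      rw [norm_smul]
      have := norm_add_le (W.rev (trW R) - 2) (trW R - 2)
      have e : ‖(-(1/4 : ℂ))‖ = 1/4 := by simp
      rw [e]
      linarith
    have h4 := isUnit_one_sub_of_norm_lt_one h3
    have h5 : W.rev (trW R) + trW R =
        (4 : ℂ) • (1 - (-(1/4 : ℂ)) • ((W.rev (trW R) - 2) + (trW R - 2))) := by
      have e : (2 : W) = (2 : ℂ) • (1 : W) := by rw [two_smul, one_add_one_eq_two]
      rw [e]
      module
    rw [h5, Algebra.smul_def]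
    exact ((IsUnit.mk0 (4 : ℂ) (by norm_num)).map (algebraMap ℂ W)).mul h4
  have hτ : W.rev (trW R) = trW R := sub_eq_zero.1 (hu.mul_left_eq_zero.1 hsq)
  refine ⟨?_, hτ⟩
  rw [trW_apply, map_add] at hτ
  have hfl : flat R = R := by
    ext i j
    fin_cases i <;> fin_cases j
    · refine Jet_two_cancel ?_
      simp only [flat_apply, Fin.zero_eta]
      linear_combination hτ + h00
    · simpa using h01
    · simpa using h10
    · refine Jet_two_cancel ?_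
      simp only [flat_apply, Fin.mk_one]
      linear_combination hτ - h00
  rw [st_eq, hs, flat_adj, hfl, adj_mul_of_det (by rw [Matrix.det_fin_two]; exact hd)]

lemma Jet_j1_tr {R : MW} (h : W.rev (trW R) = trW R) : W.j1 (R 0 0) + W.j1 (R 1 1) = 0 := by
  have h1 := congrArg W.j1 h
  rw [W.j1_rev, trW_apply, map_add] at h1
  linear_combination (-1/2 : ℂ) * h1

lemma Jet_j0_tr {R : MW} (hn : ‖R - 1‖ ≤ 1/4) {c : ℝ} (hc : 0 ≤ c)
    (h : (W.j0 (R 0 0) + W.j0 (R 1 1)) ^ 2 = (2 * c) ^ 2) : W.j0 (R 0 0) + W.j0 (R 1 1) = 2 * c := by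
  rcases sq_eq_sq_iff_eq_or_eq_neg.1 h with h1 | h1
  · exact h1
  · exfalso
    have h2 := (W.norm_j0_le _).trans (Jet_norm_tr hn)
    rw [map_sub, trW_apply, map_add, h1, ← one_add_one_eq_two (R := W), map_add, W.j0_one] at h2
    have e : -(2 * (c : ℂ)) - (1 + 1) = ((-(2 * c + 2) : ℝ) : ℂ) := by push_cast; ring
    rw [e, Complex.norm_real, Real.norm_eq_abs, abs_neg, abs_of_nonneg (by linarith)] at h2
    linarith

lemma Jet_entries (f : W →L[ℂ] ℂ) {R : MW} {M : MC} (h : mapL f (R - adj R) = M) :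
    f (R 0 0) - f (R 1 1) = M 0 0 ∧ 2 * f (R 0 1) = M 0 1 ∧ 2 * f (R 1 0) = M 1 0 := by
  subst h
  simp [adj_apply, two_mul]

theorem Cl_zero_of_S {R : MW} (ht : t ≠ 0) (hd : R.det = 1) (hs : sharp R = adj R)
    (hn : ‖R - 1‖ ≤ 1/4) (hf : flat (Sof t R) = Sof t R) (h0 : J0 (Sof t R) = 0)
    (h1 : J1 (Sof t R) = 0) : Cl x t 0 R := by
  obtain ⟨hu, hτ⟩ := unitary_of_S ht hd hs hn hf
  have g0 : J0 (R - adj R) = 0 := by rw [← Jet_smul_S ht, map_smul, h0, smul_zero]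
  have g1 : J1 (R - adj R) = 0 := by rw [← Jet_smul_S ht, map_smul, h1, smul_zero]
  obtain ⟨a1, a2, a3⟩ := Jet_entries W.j0 g0
  obtain ⟨b1, b2, b3⟩ := Jet_entries W.j1 g1
  simp only [Matrix.zero_apply] at a1 a2 a3 b1 b2 b3
  have hd0 := congrArg W.j0 hd
  rw [Matrix.det_fin_two, map_sub, W.j0_mul, W.j0_mul, W.j0_one] at hd0
  have ht0 := Jet_j0_tr hn zero_le_one (by
    push_cast
    linear_combination 4 * hd0 + (W.j0 (R 0 0) - W.j0 (R 1 1)) * a1 + 2 * W.j0 (R 1 0) * a2)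
  have ht1 := Jet_j1_tr hτ
  push_cast at ht0
  have e0 : J0 R = 1 := by
    ext i j
    fin_cases i <;> fin_cases j <;> simp
    · linear_combination (1/2 : ℂ) * ht0 + (1/2 : ℂ) * a1
    · linear_combination (1/2 : ℂ) * a2
    · linear_combination (1/2 : ℂ) * a3
    · linear_combination (1/2 : ℂ) * ht0 - (1/2 : ℂ) * a1
  have e1 : J1 R = 0 := by
    ext i j
    fin_cases i <;> fin_cases j <;> simp
    · linear_combination (1/2 : ℂ) * ht1 + (1/2 : ℂ) * b1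
    · linear_combination (1/2 : ℂ) * b2
    · linear_combination (1/2 : ℂ) * b3
    · linear_combination (1/2 : ℂ) * ht1 - (1/2 : ℂ) * b1
  exact ⟨hu, hd, by simp [e0, Jet_Dm_zero], by simp [e0, e1]⟩

theorem Cl_one_of_S {R : MW} {β : ℝ} (ht : 0 < t) (ht' : t < 1/2) (hd : R.det = 1)
    (hs : sharp R = adj R) (hn : ‖R - 1‖ ≤ 1/4) (hf : flat (Sof t R) = Sof t R)
    (h0 : J0 (Sof t R) = (-(Real.sin (Real.pi * t) / (2 * Real.pi * t)) : ℝ) • s3)
    (h1 : J1 (Sof t R) = (β : ℂ) • sJ) (hx : x * Real.sin (Real.pi * t) = -(Real.pi * t * β)) :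
    Cl x t 1 R ∧ (W.j2 (Sof t R).det = 0 → phi x R = 0) := by
  obtain ⟨hu, hτ⟩ := unitary_of_S ht.ne' hd hs hn hf
  have hpi := Real.pi_pos
  have hcos : 0 < Real.cos (Real.pi * t) :=
    Real.cos_pos_of_mem_Ioo ⟨by nlinarith, by nlinarith⟩
  have hsin : 0 < Real.sin (Real.pi * t) :=
    Real.sin_pos_of_pos_of_lt_pi (by positivity) (by nlinarith)
  have hpi' : (Real.pi : ℂ) ≠ 0 := by exact_mod_cast hpi.ne'
  have ht0 : (t : ℂ) ≠ 0 := by exact_mod_cast ht.ne'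
  set s : ℝ := Real.sin (Real.pi * t) with hsdef
  set c : ℝ := Real.cos (Real.pi * t) with hcdef
  have hsc : (s : ℂ) ^ 2 + (c : ℂ) ^ 2 = 1 := by exact_mod_cast Real.sin_sq_add_cos_sq (Real.pi * t)
  have hxc : (x : ℂ) * s = -(Real.pi * t * β) := by exact_mod_cast hx
  have g0 : J0 (R - adj R) = (-2 * I * s : ℂ) • s3 := by
    rw [← Jet_smul_S ht.ne', map_smul, h0, ← Complex.coe_smul, smul_smul]
    congr 1
    push_cast
    field_simp
    ring
  have g1 : J1 (R - adj R) = (4 * Real.pi * I * t * β : ℂ) • sJ := by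
    rw [← Jet_smul_S ht.ne', map_smul, h1, smul_smul]
  obtain ⟨a1, a2, a3⟩ := Jet_entries W.j0 g0
  obtain ⟨b1, b2, b3⟩ := Jet_entries W.j1 g1
  simp [s3, sJ] at a1 a2 a3 b1 b2 b3
  have hd0 := congrArg W.j0 hd
  rw [Matrix.det_fin_two, map_sub, W.j0_mul, W.j0_mul, W.j0_one, a2, a3] at hd0
  have hI := I_mul_I
  have ht0 := Jet_j0_tr hn hcos.le (by
    linear_combination 4 * hd0 + (W.j0 (R 0 0) - W.j0 (R 1 1) - 2 * I * s) * a1 - 4 * hsc +
      4 * (s : ℂ) ^ 2 * hI)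
  have ht1 := Jet_j1_tr hτ
  have hθ : Real.pi * t * ((1 : ℤ) : ℝ) = Real.pi * t := by simp
  have hd1 : exp (((Real.pi * t : ℝ) : ℂ) * I) = c + s * I := by
    rw [Complex.exp_mul_I, hcdef, hsdef, Complex.ofReal_cos, Complex.ofReal_sin]
  have hd2 : exp (-(((Real.pi * t : ℝ) : ℂ) * I)) = c - s * I := by
    rw [← neg_mul, Complex.exp_mul_I, Complex.cos_neg, Complex.sin_neg, hcdef, hsdef,
      Complex.ofReal_cos, Complex.ofReal_sin]
    ring
  have e0 : J0 R = Dm (Real.pi * t) := by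
    rw [Dm, hd1, hd2]
    ext i j
    fin_cases i <;> fin_cases j <;> simp [a2, a3]
    · linear_combination (1/2 : ℂ) * ht0 + (1/2 : ℂ) * a1
    · linear_combination (1/2 : ℂ) * ht0 - (1/2 : ℂ) * a1
  have e1 : J1 R = (x : ℂ) • (s1 * J0 R - J0 R * s1) := by
    rw [e0, Jet_comm_Dm, hd1, hd2]
    ext i j
    fin_cases i <;> fin_cases j <;> simp
    · linear_combination (1/2 : ℂ) * ht1 + (1/2 : ℂ) * b1
    · linear_combination (1/2 : ℂ) * b2 - 2 * I * hxc
    · linear_combination (1/2 : ℂ) * b3 + 2 * I * hxc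
    · linear_combination (1/2 : ℂ) * ht1 - (1/2 : ℂ) * b1
  have hC : Cl x t 1 R := ⟨hu, hd, by rw [hθ]; exact e0, e1⟩
  refine ⟨hC, fun h2 => ?_⟩
  have hdet : trW R * trW R = 4 - (4 * Real.pi * I * t : ℂ) ^ 2 • (Sof t R).det := by
    have e : (4 * Real.pi * I * t : ℂ) ^ 2 • (Sof t R).det =
        ((4 * Real.pi * I * t : ℂ) • Sof t R).det := by
      rw [Matrix.det_fin_two, Matrix.det_fin_two]
      simp only [Matrix.smul_apply, smul_mul_assoc, mul_smul_comm, smul_smul, smul_sub, sq]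
    rw [e, Jet_smul_S ht.ne', Matrix.det_fin_two, trW_apply]
    rw [Matrix.det_fin_two] at hd
    simp [adj_apply]
    linear_combination 4 * hd
  have h3 := congrArg W.j2 hdet
  have h4 : W.j2 4 = 0 := by
    have e : (4 : W) = 1 + 1 + 1 + 1 := by norm_num
    rw [e]
    simp
  rw [W.j2_mul, map_sub, map_smul, h2, h4, hC.j1_tr, hC.j0_tr, hC.j2_tr, hθ, ← hsdef, ← hcdef] at h3
  have h5 : (I * s * c : ℂ) * phi x R = 0 := by
    simp only [smul_zero, sub_zero] at h3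
    linear_combination (-1/4 : ℂ) * h3
  have h6 : (I * s * c : ℂ) ≠ 0 :=
    mul_ne_zero (mul_ne_zero I_ne_zero (by exact_mod_cast hsin.ne')) (by exact_mod_cast hcos.ne')
  exact (mul_eq_zero.1 h5).resolve_left h6

end Pool.Agent.MP_efb2da_gt

end
end

section

open Set Complex
open scoped Topology ComplexConjugate Matrix ContDiff

noncomputable section

namespace Pool.Agent.MP_efb2da_gt

theorem TrDet_trC_Hol {X : MC} {μ : ℂ} (htr : trC X = 0) (hx : X * X = (μ ^ 2) • (1 : MC)) (l : ℂ) :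
    trC (Hol (fun _ => l • X) 1) = 2 * Complex.cosh (l * μ) := by
  have h1 : trC (1 : MC) = 2 := by rw [trC_apply]; simp; norm_num
  by_cases hμ : μ = 0
  · subst hμ
    have hy : (l • X) * (l • X) = 0 := by
      rw [smul_mul_smul_comm, hx]; simp
    have hsol : IsSol (fun _ => l • X) (fun r : ℝ => 1 + r • (l • X)) := by
      intro r _
      have h := ((hasDerivAt_id r).smul_const (l • X)).const_add 1
      have e : (1 + r • (l • X)) * (l • X) = (1 : ℝ) • (l • X) := by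
        rw [add_mul, smul_mul_assoc, hy]; simp
      rw [e]
      exact h.hasDerivWithinAt
    have h := IsSol.eq_Hol continuousOn_const hsol 1 (right_mem_Icc.2 zero_le_one)
    simp only [one_smul, zero_smul, add_zero, one_mul] at h
    rw [← h, map_add, map_smul, htr, h1]
    simp
  · have h := congrArg trC (Hol_const_sq hx l)
    rw [map_add, map_smul, map_smul, map_smul, htr, h1] at h
    simp only [smul_eq_mul, mul_zero, add_zero] at h
    apply mul_left_cancel₀ hμ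
    rw [h]; ring

theorem TrDet_ev {A : MW} (htr : trW A = 0) (t θ : ℝ) {μ : ℂ} (hμ : μ ^ 2 = -W.ev θ A.det) :
    W.ev θ (trW (Hol (fun _ => (2 * Real.pi * I * t : ℂ) • A) 1)) =
      2 * Complex.cos (2 * Real.pi * t * μ) := by
  have h1 := Hol_map ((Ev θ).restrictScalars ℝ) (Ev_one θ) (Ev_mul θ)
    (a := fun _ => (2 * Real.pi * I * t : ℂ) • A) continuousOn_const 1
    (right_mem_Icc.2 zero_le_one)
  simp only [ContinuousLinearMap.coe_restrictScalars', map_smul] at h1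
  have h2 : ∀ M : MW, W.ev θ (trW M) = trC (Ev θ M) := fun M => by
    rw [trW_apply, trC_apply, map_add]; rfl
  have h3 : trC (Ev θ A) = 0 := by rw [← h2, htr, map_zero]
  have h4 : Ev θ A * Ev θ A = (μ ^ 2) • (1 : MC) := by
    rw [← Ev_mul, mul_self_of_tr htr, hμ]
    ext i j
    by_cases h : i = j <;> simp [h, Matrix.one_apply]
  rw [h2, h1, TrDet_trC_Hol h3 h4, ← Complex.cosh_mul_I]
  congr 2
  ring

theorem TrDet_norm {A : MW} {t θ : ℝ} (ht : 0 < t) (hn : t * ‖A‖ ≤ 1/4) {μ : ℂ}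
    (hμ : μ ^ 2 = -W.ev θ A.det) : ‖(2 * Real.pi * t * μ : ℂ)‖ < Real.pi := by
  have h0 := norm_nonneg A
  have h1 : ‖A.det‖ ≤ 2 * ‖A‖ ^ 2 := by
    rw [Matrix.det_fin_two]
    have a := norm_entry_le A 0 0
    have b := norm_entry_le A 0 1
    have c := norm_entry_le A 1 0
    have d := norm_entry_le A 1 1
    calc _ ≤ ‖A 0 0‖ * ‖A 1 1‖ + ‖A 0 1‖ * ‖A 1 0‖ :=
          (norm_sub_le _ _).trans (add_le_add (norm_mul_le _ _) (norm_mul_le _ _))
      _ ≤ ‖A‖ * ‖A‖ + ‖A‖ * ‖A‖ := by gcongr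
      _ = _ := by ring
  have h2 : ‖μ‖ ^ 2 ≤ 2 * ‖A‖ ^ 2 := by
    rw [← norm_pow, hμ, norm_neg]
    exact (W.norm_ev_le θ _).trans h1
  have h3 : ‖(2 * Real.pi * t * μ : ℂ)‖ = Real.pi * (2 * t * ‖μ‖) := by
    simp only [norm_mul, Complex.norm_real, Real.norm_eq_abs, abs_of_pos ht,
      abs_of_pos Real.pi_pos, Complex.norm_ofNat]
    ring
  rw [h3]
  refine mul_lt_of_lt_one_right Real.pi_pos ?_
  have h4 : (2 * t * ‖μ‖) ^ 2 ≤ 8 * (t * ‖A‖) ^ 2 := by
    calc (2 * t * ‖μ‖) ^ 2 = 4 * t ^ 2 * ‖μ‖ ^ 2 := by ring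
      _ ≤ 4 * t ^ 2 * (2 * ‖A‖ ^ 2) := by gcongr
      _ = _ := by ring
  have h5 : (t * ‖A‖) ^ 2 ≤ (1 / 4) ^ 2 := by gcongr
  refine lt_of_pow_lt_pow_left₀ 2 zero_le_one ?_
  nlinarith

theorem TrDet_sq_real {z : ℂ} (hz : ‖z‖ < Real.pi) (h : (Complex.cos z).im = 0) : (z ^ 2).im = 0 := by
  rw [Complex.cos_eq] at h
  simp only [← Complex.ofReal_cos, ← Complex.ofReal_cosh, ← Complex.ofReal_sin,
    ← Complex.ofReal_sinh, ← Complex.ofReal_mul, Complex.sub_im, Complex.ofReal_im, Complex.mul_im,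
    Complex.ofReal_re, Complex.I_im, Complex.I_re, mul_one, mul_zero, add_zero, zero_sub,
    neg_eq_zero, mul_eq_zero, Real.sinh_eq_zero] at h
  have h1 := abs_lt.1 ((Complex.abs_re_le_norm z).trans_lt hz)
  rw [Real.sin_eq_zero_iff_of_lt_of_lt h1.1 h1.2] at h
  rcases h with h | h <;> simp [sq, h]

theorem TrDet_cos_eq {z : ℂ} {a : ℝ} (hz : ‖z‖ < Real.pi) (ha : |a| < Real.pi)
    (h : Complex.cos z = Complex.cos a) : z ^ 2 = a ^ 2 := by
  have key : ∀ (k : ℤ) (w : ℂ), ‖w‖ < Real.pi → (a : ℂ) = 2 * k * Real.pi + w → k = 0 := by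
    intro k w hw e
    have e1 : ((2 * k * Real.pi : ℝ) : ℂ) = a - w := by push_cast; rw [e]; ring
    have e2 : |2 * k * Real.pi| < 2 * Real.pi := by
      rw [← Real.norm_eq_abs, ← Complex.norm_real, e1]
      refine (norm_sub_le _ _).trans_lt ?_
      rw [Complex.norm_real, Real.norm_eq_abs]
      linarith
    rw [abs_mul, abs_mul, abs_of_pos Real.pi_pos, abs_two] at e2
    have e3 : |(k : ℝ)| < 1 := by nlinarith [Real.pi_pos]
    have e4 : |k| < 1 := by exact_mod_cast e3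
    exact Int.abs_lt_one_iff.1 e4
  obtain ⟨k, h | h⟩ := Complex.cos_eq_cos_iff.1 h
  · have := key k z hz h
    subst this
    rw [h]; simp
  · have := key k (-z) (by rwa [norm_neg]) (by rw [h]; ring)
    subst this
    rw [h]; simp

/-- a function of `2 - 2 cos θ` that vanishes to third order has zero derivative -/
theorem TrDet_deriv_zero {g : ℝ → ℝ} {g' K : ℝ} (hg : HasDerivAt g g' 0)
    (h : ∀ᶠ θ in 𝓝[>] (0:ℝ), |g (2 - 2 * Real.cos θ) - g 0| ≤ K * |θ| ^ 3) : g' = 0 := by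
  have hpi := Real.pi_pos
  have hs : ∀ θ ∈ Ioo (0:ℝ) Real.pi, 4 / Real.pi ^ 2 * θ ^ 2 ≤ 2 - 2 * Real.cos θ := by
    intro θ hθ
    have := Real.cos_le_one_sub_mul_cos_sq (x := θ) (by rw [abs_of_pos hθ.1]; exact hθ.2.le)
    have e : 4 / Real.pi ^ 2 * θ ^ 2 = 2 * (2 / Real.pi ^ 2 * θ ^ 2) := by ring
    linarith
  have hI : Ioo (0:ℝ) Real.pi ∈ 𝓝[>] (0:ℝ) := Ioo_mem_nhdsGT hpi
  have hpos : ∀ θ ∈ Ioo (0:ℝ) Real.pi, 0 < 2 - 2 * Real.cos θ := fun θ hθ =>
    lt_of_lt_of_le (by have := hθ.1; positivity) (hs θ hθ)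
  have h1 : Filter.Tendsto (fun θ => 2 - 2 * Real.cos θ) (𝓝[>] 0) (𝓝[≠] 0) := by
    refine tendsto_nhdsWithin_iff.2 ⟨?_, Filter.mem_of_superset hI fun θ hθ => (hpos θ hθ).ne'⟩
    have : Continuous fun θ : ℝ => 2 - 2 * Real.cos θ := by fun_prop
    simpa using (this.tendsto 0).mono_left nhdsWithin_le_nhds
  have h2 := (hasDerivAt_iff_tendsto_slope.1 hg).comp h1
  refine tendsto_nhds_unique h2 ?_
  refine squeeze_zero_norm' (a := fun θ => |K| * (Real.pi ^ 2 / 4) * θ) ?_ ?_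
  · filter_upwards [h, hI] with θ h1 h2
    have h3 := hpos θ h2
    have h4 := hs θ h2
    have h5 := h2.1
    rw [Function.comp_apply, slope_def_field, sub_zero, Real.norm_eq_abs, abs_div, abs_of_pos h3,
      div_le_iff₀ h3]
    rw [abs_of_pos h5] at h1
    calc _ ≤ K * θ ^ 3 := h1
      _ ≤ |K| * θ ^ 3 := by gcongr; exact le_abs_self K
      _ = |K| * (Real.pi ^ 2 / 4) * θ * (4 / Real.pi ^ 2 * θ ^ 2) := by field_simp
      _ ≤ _ := by gcongr
  · have : Continuous fun θ : ℝ => |K| * (Real.pi ^ 2 / 4) * θ := by fun_prop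
    simpa using (this.tendsto 0).mono_left nhdsWithin_le_nhds

theorem TrDet_hasDerivAt (t c : ℝ) :
    HasDerivAt (fun s : ℝ => 2 * Real.cos (2 * Real.pi * t * √(1 / 4 + c * s)))
      (-(4 * Real.pi * t * Real.sin (Real.pi * t) * c)) 0 := by
  have h0 : √(1 / 4 + c * 0) = 1 / 2 := by
    rw [mul_zero, add_zero, show (1 / 4 : ℝ) = (1 / 2) ^ 2 by norm_num, Real.sqrt_sq (by norm_num)]
  have h1 : HasDerivAt (fun s : ℝ => 1 / 4 + c * s) c 0 := by
    simpa using ((hasDerivAt_id (0:ℝ)).const_mul c).const_add (1 / 4)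
  have h2 := ((h1.sqrt (by norm_num)).const_mul (2 * Real.pi * t)).cos.const_mul 2
  refine h2.congr_deriv ?_
  rw [h0, show 2 * Real.pi * t * (1 / 2) = Real.pi * t by ring]
  ring

/-- the eigenvalues of a residue are read off the trace of a unitary local monodromy -/
theorem det_of_trace {x t : ℝ} {l : ℤ} {A M : MW} (ht : 0 < t) (ht' : t < 1/2) (hl : l = 1 ∨ l = -1)
    (hM : Cl x t l M) (htr : trW A = 0) (hge : MGE (-1) A) (hre : sharp A = A)
    (h2 : W.coef (-2) A.det = 0) (hn : t * ‖A‖ ≤ 1/4)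
    (he : trW M = trW (Hol (fun _ => (2 * Real.pi * I * t : ℂ) • A) 1)) :
    (W.coef (-1) A.det = 0 → A.det = algebraMap ℂ W (-1/4) ∧ phi x M = 0) ∧
      (phi x M = 0 → A.det = algebraMap ℂ W (-1/4)) := by
  have hpi := Real.pi_pos
  have hT : ∀ (θ : ℝ) (μ : ℂ), μ ^ 2 = -W.ev θ A.det →
      W.ev θ (trW M) = 2 * Complex.cos (2 * Real.pi * t * μ) := fun θ μ hμ => by
    rw [he, TrDet_ev htr t θ hμ]
  have hconj : ∀ (θ : ℝ) (y : W), W.ev θ (W.rev (W.cj y)) = conj (W.ev θ y) := fun θ y => by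
    rw [W.ev_rev, W.ev_cj, neg_neg]
  have hst : W.rev (W.cj (trW M)) = trW M := by
    rw [← trW_sharp, ← trW_flat, ← st_eq, eq_adj_of_mul hM.det (mul_eq_one_comm.1 hM.unit), trW_adj]
  have ht0 : (2 * Real.pi * t : ℂ) ≠ 0 := by
    have : (2 * Real.pi * t : ℝ) ≠ 0 := by positivity
    exact_mod_cast this
  have hreal : ∀ θ, conj (W.ev θ A.det) = W.ev θ A.det := by
    intro θ
    obtain ⟨μ, hμ⟩ := IsAlgClosed.exists_pow_nat_eq (-W.ev θ A.det) two_pos
    have h1 : (W.ev θ (trW M)).im = 0 := by rw [← Complex.conj_eq_iff_im, ← hconj, hst]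
    rw [hT θ μ hμ] at h1
    have h3 := TrDet_sq_real (TrDet_norm ht hn hμ) (by simpa using h1)
    rw [mul_pow, hμ, show (2 * Real.pi * t : ℂ) ^ 2 = (((2 * Real.pi * t) ^ 2 : ℝ) : ℂ) by
      push_cast; ring, Complex.im_ofReal_mul, mul_eq_zero, or_iff_right (by positivity),
      Complex.neg_im, neg_eq_zero] at h3
    exact Complex.conj_eq_iff_im.2 h3
  have hcj : W.cj A.det = A.det := by rw [← det_sharp, hre]
  have hrev : W.rev A.det = A.det := by
    conv_lhs => rw [← hcj]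
    exact W.ev_inj fun θ => by rw [hconj, hreal]
  have hG : W.GE (-1) A.det := by
    intro n hn
    rcases eq_or_ne n (-2) with rfl | h
    · exact h2
    · exact hge.det n (by omega)
  have hL : W.LE 1 A.det := by rw [← hrev, W.LE_rev]; exact hG
  obtain ⟨c, hc⟩ : ∃ c : ℝ, W.coef (-1) A.det = c := by
    refine ⟨_, (Complex.conj_eq_iff_re.1 ?_).symm⟩
    rw [← W.coef_cj, hcj]
  have hc1 : W.coef 1 A.det = c := by rw [← hrev, W.coef_rev, hc]
  have h3 := W.eq_three hG hL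
  rw [hc, hc1] at h3
  generalize W.coef 0 A.det = d at h3
  have hD : ∀ θ : ℝ, W.ev θ A.det = 2 * c * Real.cos θ + d := by
    intro θ
    rw [h3]
    simp only [map_add, map_smul, W.ev_mon, W.ev_one, smul_eq_mul, Complex.ofReal_cos, Complex.cos]
    push_cast
    ring_nf
  have hcos : Real.cos (Real.pi * t * l) = Real.cos (Real.pi * t) := by
    rcases hl with rfl | rfl <;> simp
  have hsin : 0 < Real.sin (Real.pi * t) :=
    Real.sin_pos_of_pos_of_lt_pi (by positivity) (by nlinarith)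
  have hsin' : Real.sin (Real.pi * t * l) ≠ 0 := by
    rcases hl with rfl | rfl <;> simpa using hsin.ne'
  have hd : d = -1 / 4 - 2 * c := by
    obtain ⟨μ, hμ⟩ := IsAlgClosed.exists_pow_nat_eq (-W.ev 0 A.det) two_pos
    have h1 := hT 0 μ hμ
    rw [W.ev_zero, hM.j0_tr, hcos, Complex.ofReal_cos] at h1
    have h4 := TrDet_cos_eq (a := Real.pi * t) (TrDet_norm ht hn hμ)
      (by rw [abs_of_pos (by positivity)]; nlinarith) (mul_left_cancel₀ two_ne_zero h1).symm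
    rw [mul_pow, hμ, hD] at h4
    apply mul_left_cancel₀ (pow_ne_zero 2 ht0)
    simp only [Real.cos_zero, Complex.ofReal_one, Complex.ofReal_mul] at h4
    linear_combination -h4
  have hzero : c = 0 → A.det = algebraMap ℂ W (-1/4) := by
    rintro rfl
    rw [h3, hd, Algebra.algebraMap_eq_smul_one]
    simp
  refine ⟨fun h0 => ?_, fun h0 => hzero ?_⟩
  · have hc0 : c = 0 := by rw [hc] at h0; exact_mod_cast h0
    refine ⟨hzero hc0, ?_⟩
    have h4 : trW M = algebraMap ℂ W (2 * Complex.cos (2 * Real.pi * t * (1 / 2))) :=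
      W.ev_inj fun θ => by
        rw [W.ev_algebraMap, hT θ (1 / 2)]
        rw [hzero hc0, W.ev_algebraMap]
        norm_num
    have h5 := hM.j2_tr
    rw [h4, W.j2_algebraMap, eq_comm, mul_eq_zero, neg_eq_zero, mul_eq_zero] at h5
    rcases h5 with (h5 | h5) | h5
    · exact absurd h5 I_ne_zero
    · exact absurd (by exact_mod_cast h5) hsin'
    · exact h5
  · obtain ⟨C, hC⟩ := W.ev_taylor
    have h5 := hM.j2_tr
    rw [h0, mul_zero] at h5
    have hg : ∀ θ : ℝ, 0 ≤ 1 / 4 + c * (2 - 2 * Real.cos θ) → W.ev θ (trW M) =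
        ((2 * Real.cos (2 * Real.pi * t * √(1 / 4 + c * (2 - 2 * Real.cos θ))) : ℝ) : ℂ) := by
      intro θ hθ
      rw [hT θ (√(1 / 4 + c * (2 - 2 * Real.cos θ)) : ℝ)]
      · push_cast; rfl
      · rw [← Complex.ofReal_pow, Real.sq_sqrt hθ, hD, hd]
        push_cast; ring
    have hev : ∀ᶠ θ in 𝓝[>] (0:ℝ), 0 ≤ 1 / 4 + c * (2 - 2 * Real.cos θ) := by
      have : Continuous fun θ : ℝ => 1 / 4 + c * (2 - 2 * Real.cos θ) := by fun_prop
      refine ((this.tendsto 0).mono_left nhdsWithin_le_nhds).eventually (eventually_ge_nhds ?_)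
      simp
    have h6 := TrDet_deriv_zero (K := C * ‖trW M‖) (TrDet_hasDerivAt t c) (by
      filter_upwards [hev] with θ hθ
      have h7 := hC θ (trW M)
      have h8 := hg 0 (by simp)
      rw [hM.j1_tr, h5, ← W.ev_zero, hg θ hθ, h8] at h7
      simp only [mul_zero, sub_zero, add_zero, Real.cos_zero, mul_one, sub_self] at h7 ⊢
      rw [← Complex.ofReal_sub, Complex.norm_real, Real.norm_eq_abs] at h7
      linarith)
    have h7 : 4 * Real.pi * t * Real.sin (Real.pi * t) ≠ 0 := by positivity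
    exact (mul_eq_zero.1 (neg_eq_zero.1 h6)).resolve_left h7

def capDet (A : MW) (Y : Fin 2 → W) : W :=
  W.mon 1 * ((((1/2 : ℂ) • (1 : MW) + A) *ᵥ Y) 0 * Y 1 - (((1/2 : ℂ) • (1 : MW) + A) *ᵥ Y) 1 * Y 0)

theorem cap_gauge {A : MW} {Y : Fin 2 → W} {c : ℂ} (htr : trW A = 0) (hge : MGE (-1) A)
    (hre : sharp A = A) (hd : A.det = algebraMap ℂ W (-1/4)) (hY : ∀ i, W.GE 0 (Y i))
    (hYr : ∀ i, W.cj (Y i) = Y i) (hc : ‖capDet A Y - algebraMap ℂ W c‖ < ‖c‖) :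
    ∃ (P : MW) (φ : W), MGE 0 P ∧ P.det = 1 ∧ sharp P = P ∧ W.GE (-1) φ ∧ W.cj φ = φ ∧
      W.coef (-1) φ ≠ 0 ∧
      adj P * A * P = !![algebraMap ℂ W (1/2), φ; 0, algebraMap ℂ W (-1/2)] := by
  obtain ⟨h, hh⟩ : ∃ h, h = algebraMap ℂ W (1/2) := ⟨_, rfl⟩
  have hh' : algebraMap ℂ W (-1/2) = -h := by rw [hh, ← map_neg]; norm_num
  have hh2 : algebraMap ℂ W (-1/4) = -(h * h) := by rw [hh, ← map_mul, ← map_neg]; norm_num
  have hhG : W.GE (-1) h := hh ▸ (W.GE_algebraMap _).mono (by norm_num)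
  have hhc : W.cj h = h := by rw [hh, W.cj_algebraMap, map_div₀, map_one, Complex.conj_ofNat]
  have hAc : ∀ i j, W.cj (A i j) = A i j := fun i j => by rw [← sharp_apply, hre]
  obtain ⟨n0, hn0⟩ : ∃ n0, n0 = (h + A 0 0) * Y 0 + A 0 1 * Y 1 := ⟨_, rfl⟩
  obtain ⟨n1, hn1⟩ : ∃ n1, n1 = A 1 0 * Y 0 + (h + A 1 1) * Y 1 := ⟨_, rfl⟩
  have hcap : capDet A Y = W.mon 1 * (n0 * Y 1 - n1 * Y 0) := by
    simp only [capDet, hn0, hn1, hh, Matrix.mulVec, dotProduct, Fin.sum_univ_two, Matrix.add_apply,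
      Matrix.smul_apply, Matrix.one_apply, Algebra.algebraMap_eq_smul_one]
    simp
  have hG0 : W.GE (-1) n0 := by
    rw [hn0]
    simpa using ((hhG.add (hge 0 0)).mul (hY 0)).add ((hge 0 1).mul (hY 1))
  have hG1 : W.GE (-1) n1 := by
    rw [hn1]
    simpa using ((hge 1 0).mul (hY 0)).add ((hhG.add (hge 1 1)).mul (hY 1))
  have hc0 : W.cj n0 = n0 := by simp only [hn0, map_add, W.cj_mul, hhc, hAc, hYr]
  have hc1 : W.cj n1 = n1 := by simp only [hn1, map_add, W.cj_mul, hhc, hAc, hYr]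
  have hφG : W.GE (-1) (n0 * Y 1 - n1 * Y 0) := by
    simpa using (hG0.mul (hY 1)).sub (hG1.mul (hY 0))
  have hφc : W.cj (n0 * Y 1 - n1 * Y 0) = n0 * Y 1 - n1 * Y 0 := by
    simp only [map_sub, W.cj_mul, hc0, hc1, hYr]
  have hdG : W.GE 0 (capDet A Y) := by
    rw [hcap]
    simpa using (W.GE_mon 1).mul hφG
  obtain ⟨e, heG, he⟩ := W.exists_inv_GE hdG hc
  have hne : W.coef (-1) (n0 * Y 1 - n1 * Y 0) ≠ 0 := by
    intro h0
    have h1 := hdG.coef_mul heG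
    rw [he, add_zero, W.coef_one, if_pos rfl, hcap, W.coef_mon_mul, zero_sub, h0, zero_mul] at h1
    exact one_ne_zero h1
  rw [hcap] at he
  have hec : W.cj e = e := by
    have h1 := congrArg W.cj he
    rw [W.cj_mul, W.cj_mul, hφc, W.cj_mon, W.cj_one] at h1
    linear_combination e * h1 - W.cj e * he
  have hdet : (!![e * (W.mon 1 * n0), Y 0; e * (W.mon 1 * n1), Y 1] : MW).det = 1 := by
    rw [Matrix.det_fin_two_of]
    linear_combination he
  refine ⟨!![e * (W.mon 1 * n0), Y 0; e * (W.mon 1 * n1), Y 1], n0 * Y 1 - n1 * Y 0, ?_, hdet, ?_,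
    hφG, hφc, hne, ?_⟩
  · intro i j
    fin_cases i <;> fin_cases j
    · simpa using heG.mul ((W.GE_mon 1).mul hG0)
    · simpa using hY 0
    · simpa using heG.mul ((W.GE_mon 1).mul hG1)
    · simpa using hY 1
  · ext i j
    fin_cases i <;> fin_cases j <;> simp [hec, hc0, hc1, hYr]
  · rw [trW_apply] at htr
    rw [Matrix.det_fin_two, hh2] at hd
    have h1 : A * !![e * (W.mon 1 * n0), Y 0; e * (W.mon 1 * n1), Y 1] =
        !![e * (W.mon 1 * n0), Y 0; e * (W.mon 1 * n1), Y 1] *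
          !![h, n0 * Y 1 - n1 * Y 0; 0, -h] := by
      ext i j
      fin_cases i <;> fin_cases j <;>
        simp only [Matrix.mul_apply, Fin.sum_univ_two, Fin.zero_eta, Fin.mk_one, Fin.isValue,
          Matrix.of_apply, Matrix.cons_val', Matrix.cons_val_zero, Matrix.cons_val_one,
          Matrix.cons_val_fin_one]
      · rw [hn0, hn1]
        linear_combination e * W.mon 1 * (A 0 0 * Y 0 + A 0 1 * Y 1) * htr - e * W.mon 1 * Y 0 * hd
      · linear_combination -hn0 - n0 * he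
      · rw [hn0, hn1]
        linear_combination e * W.mon 1 * (A 1 0 * Y 0 + A 1 1 * Y 1) * htr - e * W.mon 1 * Y 1 * hd
      · linear_combination -hn1 - n1 * he
    rw [mul_assoc, h1, ← mul_assoc, adj_mul_of_det hdet, one_mul, ← hh, hh']

end Pool.Agent.MP_efb2da_gt

end
end

section

open Set Complex
open scoped Topology ComplexConjugate Matrix ContDiff

noncomputable section

namespace Pool.Agent.MP_efb2da_gt

/-- a holomorphic frame with a DPW potential on the open set `O` -/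
structure DFrame (O : Set ℂ) (Φ ξ : ℂ → MW) : Prop where
  opn : IsOpen O
  ode : ∀ z ∈ O, HasDerivAt Φ (Φ z * ξ z) z
  det : ∀ z ∈ O, (Φ z).det = 1
  hol : DifferentiableOn ℂ ξ O
  ge : ∀ z ∈ O, MGE (-1) (ξ z)
  tr : ∀ z ∈ O, trW (ξ z) = 0
  nil : ∀ z ∈ O, (cf (-1) (ξ z)).det = 0

def aM (Φ ξ : ℂ → MW) (z : ℂ) : MC := cf 0 (Bm (Φ z)) * cf (-1) (ξ z) * cf 0 (Bi (Φ z))

/-- the Hopf differential in terms of the potential -/
def hopf (ξ : ℂ → MW) (z : ℂ) : MC :=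
  (cf (-1) (deriv ξ z) + (cf 0 (ξ z) * cf (-1) (ξ z) - cf (-1) (ξ z) * cf 0 (ξ z))) * cf (-1) (ξ z) -
    cf (-1) (ξ z) *
      (cf (-1) (deriv ξ z) + (cf 0 (ξ z) * cf (-1) (ξ z) - cf (-1) (ξ z) * cf 0 (ξ z)))

lemma Dpw1_cf_st (n : ℤ) (M : MW) : cf n (st M) = ct (cf (-n) M) := by
  rw [st_eq, cf_flat, cf_sharp]; rfl

lemma Dpw1_three {A : MW} {c : MC} (h1 : MGE (-1) A) (h2 : st A = -A) (h3 : J0 A = 0)
    (h4 : cf (-1) A = c) : A = mono (-1) c - cst c - (mono 1 (ct c) - cst (ct c)) := by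
  have e : ∀ n, cf n A = -ct (cf (-n) A) := fun n => by
    rw [← Dpw1_cf_st, h2, map_neg, neg_neg]
  have g : MGE 0 (A - mono (-1) c + mono 1 (ct c)) := MGE_iff.2 fun n hn => by
    rw [map_add, map_sub, cf_mono, cf_mono, if_neg (by omega : n ≠ 1)]
    split_ifs with h
    · rw [h, h4]; simp
    · rw [MGE_iff.1 h1 n (by omega)]; simp
  have l : MLE 0 (A - mono (-1) c + mono 1 (ct c)) := MLE_iff.2 fun n hn => by
    rw [map_add, map_sub, cf_mono, cf_mono, if_neg (by omega : n ≠ -1), e]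
    split_ifs with h
    · rw [h, h4]; simp
    · rw [MGE_iff.1 h1 (-n) (by omega)]; simp
  have k := eq_cst g l
  have j := congrArg J0 k
  rw [J0_cst, map_add, map_sub, h3, J0_mono, J0_mono] at j
  rw [← j, map_add, map_sub, map_zero] at k
  rw [← sub_eq_zero] at k ⊢
  rw [← k]; abel

lemma Dpw1_fderiv_clm {E F : Type} [NormedAddCommGroup E] [NormedSpace ℝ E] [NormedAddCommGroup F]
    [NormedSpace ℝ F] (L : E →L[ℝ] F) {f : ℂ → E} {z : ℂ} (hf : ContDiffAt ℝ ∞ f z) (v : ℂ) :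
    fderiv ℝ (fun z => L (f z)) z v = L (fderiv ℝ f z v) := by
  have := (L.hasFDerivAt.comp z (hf.differentiableAt (by simp)).hasFDerivAt).fderiv
  exact congrArg (fun T : ℂ →L[ℝ] F => T v) this

lemma Dpw1_fderiv_mul {f g : ℂ → MW} {z : ℂ} (hf : ContDiffAt ℝ ∞ f z) (hg : ContDiffAt ℝ ∞ g z)
    (v : ℂ) : fderiv ℝ (fun z => f z * g z) z v = f z * fderiv ℝ g z v + fderiv ℝ f z v * g z := by
  have := ((hf.differentiableAt (by simp)).hasFDerivAt.mul'
    (hg.differentiableAt (by simp)).hasFDerivAt).fderiv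
  exact congrArg (fun T : ℂ →L[ℝ] MW => T v) this

lemma Dpw1_fderiv_const {F : Type} [NormedAddCommGroup F] [NormedSpace ℝ F] {f : ℂ → F} {c : F}
    {z : ℂ} (hf : ∀ᶠ w in 𝓝 z, f w = c) (v : ℂ) : fderiv ℝ f z v = 0 := by
  rw [Filter.EventuallyEq.fderiv_eq (f := fun _ => c) hf]; simp

namespace DFrame
variable {O : Set ℂ} {Φ ξ : ℂ → MW} (h : DFrame O Φ ξ) {z : ℂ} (hz : z ∈ O)
include h hz

theorem contDiffAt_frame : ContDiffAt ℝ ∞ Φ z := by
  have d : DifferentiableOn ℂ Φ O := fun w hw =>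
    (h.ode w hw).differentiableAt.differentiableWithinAt
  exact ((d.contDiffOn h.opn).contDiffAt (h.opn.mem_nhds hz)).restrict_scalars ℝ
theorem contDiffAt_pot : ContDiffAt ℝ ∞ ξ z :=
  ((h.hol.contDiffOn h.opn).contDiffAt (h.opn.mem_nhds hz)).restrict_scalars ℝ
theorem contDiffAt_U : ContDiffAt ℝ ∞ (fun z => Uf (Φ z)) z :=
  (contDiffAt_Uf (h.det z hz)).comp z (h.contDiffAt_frame hz)
theorem contDiffAt_sym : ContDiffAt ℝ ∞ (fun z => symM (Φ z)) z :=
  (contDiffAt_symM (h.det z hz)).comp z (h.contDiffAt_frame hz)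
theorem Dpw1_contDiffAt_B : ContDiffAt ℝ ∞ (fun z => Bm (Φ z)) z :=
  (contDiffAt_Bm (h.det z hz)).comp z (h.contDiffAt_frame hz)
theorem Dpw1_contDiffAt_Bi : ContDiffAt ℝ ∞ (fun z => Bi (Φ z)) z :=
  (contDiffAt_Bi (h.det z hz)).comp z (h.contDiffAt_frame hz)
theorem contDiffAt_a : ContDiffAt ℝ ∞ (aM Φ ξ) z :=
  ((((cf 0).restrictScalars ℝ).contDiff.contDiffAt.comp z (h.Dpw1_contDiffAt_B hz)).mul
    (((cf (-1)).restrictScalars ℝ).contDiff.contDiffAt.comp z (h.contDiffAt_pot hz))).mul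
    (((cf 0).restrictScalars ℝ).contDiff.contDiffAt.comp z (h.Dpw1_contDiffAt_Bi hz))

theorem Dpw1_near : ∀ᶠ w in 𝓝 z, (Φ w).det = 1 :=
  Filter.mem_of_superset (h.opn.mem_nhds hz) h.det

theorem Dpw1_dB_pos (v : ℂ) : MGE 0 (fderiv ℝ (fun z => Bm (Φ z)) z v) := MGE_iff.2 fun n hn => by
  have := Dpw1_fderiv_clm ((cf n).restrictScalars ℝ) (h.Dpw1_contDiffAt_B hz) v
  refine this.symm.trans (Dpw1_fderiv_const (c := 0) ?_ v)
  exact (h.Dpw1_near hz).mono fun w hw => MGE_iff.1 (Bm_pos hw) n hn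

theorem Dpw1_al (v : ℂ) : adj (Uf (Φ z)) * fderiv ℝ (fun z => Uf (Φ z)) z v =
    v • (Bm (Φ z) * ξ z * Bi (Φ z)) - fderiv ℝ (fun z => Bm (Φ z)) z v * Bi (Φ z) := by
  have d := h.det z hz
  have a := Dpw1_fderiv_mul (h.contDiffAt_U hz) (h.Dpw1_contDiffAt_B hz) v
  have e : (fun z => Uf (Φ z) * Bm (Φ z)) =ᶠ[𝓝 z] Φ :=
    (h.Dpw1_near hz).mono fun w hw => Uf_mul_Bm hw
  have b : fderiv ℝ Φ z v = v • (Φ z * ξ z) :=
    congrArg (fun T : ℂ →L[ℝ] MW => T v) ((h.ode z hz).hasFDerivAt.restrictScalars ℝ).fderiv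
  rw [e.fderiv_eq, b] at a
  have c := congrArg (fun X => adj (Uf (Φ z)) * X * Bi (Φ z)) a
  have k : adj (Uf (Φ z)) * Φ z = Bm (Φ z) := by
    conv_lhs => rw [← Uf_mul_Bm d]
    rw [Uf_mul_Bm d]
    nth_rw 2 [← Uf_mul_Bm d]
    rw [← mul_assoc, adj_mul_of_det (det_Uf d), one_mul]
  simp only [mul_add, add_mul, mul_smul_comm, smul_mul_assoc, ← mul_assoc,
    adj_mul_of_det (det_Uf d), one_mul, k] at c
  rw [c, mul_assoc _ (Bm (Φ z)), Bm_mul_Bi d, mul_one]; abel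

theorem Dpw1_al_eq (v : ℂ) : adj (Uf (Φ z)) * fderiv ℝ (fun z => Uf (Φ z)) z v =
    v • (mono (-1) (aM Φ ξ z) - cst (aM Φ ξ z)) -
      conj v • (mono 1 (ct (aM Φ ξ z)) - cst (ct (aM Φ ξ z))) := by
  have d := h.det z hz
  have p : MGE 0 (fderiv ℝ (fun z => Bm (Φ z)) z v * Bi (Φ z)) :=
    (h.Dpw1_dB_pos hz v).mul (Bi_pos d)
  have q := MGE.conj (Bm_pos d) (h.ge z hz) (Bi_pos d)
  have t := Dpw1_three (A := adj (Uf (Φ z)) * fderiv ℝ (fun z => Uf (Φ z)) z v)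
    (c := v • aM Φ ξ z) (by rw [h.Dpw1_al hz]; exact (q.smul v).sub (p.weaken (by norm_num)))
    (by
      have a := Dpw1_fderiv_mul (f := fun z => st (Uf (Φ z)))
        (st.contDiff.contDiffAt.comp z (h.contDiffAt_U hz)) (h.contDiffAt_U hz) v
      rw [Dpw1_fderiv_const (c := 1) ((h.Dpw1_near hz).mono fun w hw => Uf_unitary hw),
        Dpw1_fderiv_clm st (h.contDiffAt_U hz) v] at a
      rw [st_mul, ← st_Uf d, st_st]
      exact eq_neg_of_add_eq_zero_right a.symm)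
    (by
      have b : fderiv ℝ (fun z => J0 (Uf (Φ z))) z v = J0 (fderiv ℝ (fun z => Uf (Φ z)) z v) :=
        Dpw1_fderiv_clm (J0.restrictScalars ℝ) (h.contDiffAt_U hz) v
      rw [Dpw1_fderiv_const (c := 1) ((h.Dpw1_near hz).mono fun w hw => J0_Uf hw)] at b
      rw [J0_mul, ← b, mul_zero])
    (by
      rw [h.Dpw1_al hz, map_sub, map_smul, MGE.cf_conj (Bm_pos d) (h.ge z hz) (Bi_pos d),
        MGE_iff.1 p (-1) (by norm_num), sub_zero, aM])
  rw [t, ct_smul, mono_smul, mono_smul, map_smul, map_smul, smul_sub, smul_sub]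

theorem fderiv_U (v : ℂ) : fderiv ℝ (fun z => Uf (Φ z)) z v = Uf (Φ z) *
    (v • (mono (-1) (aM Φ ξ z) - cst (aM Φ ξ z)) -
      conj v • (mono 1 (ct (aM Φ ξ z)) - cst (ct (aM Φ ξ z)))) := by
  rw [← h.Dpw1_al_eq hz, ← mul_assoc, mul_adj_of_det (det_Uf (h.det z hz)), one_mul]

theorem fderiv_sym (v : ℂ) : fderiv ℝ (fun z => symM (Φ z)) z v =
    -(v • aM Φ ξ z + conj v • ct (aM Φ ξ z)) := by
  refine (Dpw1_fderiv_clm (J1.restrictScalars ℝ) (h.contDiffAt_U hz) v).trans ?_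
  change J1 _ = _
  rw [h.fderiv_U hz, J1_mul, J0_Uf (h.det z hz)]
  simp only [map_sub, map_smul, J0_mono, J0_cst, J1_mono, J1_cst, sub_self, smul_zero, mul_zero,
    one_mul, sub_zero, zero_add]
  push_cast
  module

theorem fderiv_J2 (v : ℂ) : fderiv ℝ (fun z => J2 (Uf (Φ z))) z v =
    (2:ℂ) • (symM (Φ z) * -(v • aM Φ ξ z + conj v • ct (aM Φ ξ z))) +
      (v • aM Φ ξ z - conj v • ct (aM Φ ξ z)) := by
  refine (Dpw1_fderiv_clm (J2.restrictScalars ℝ) (h.contDiffAt_U hz) v).trans ?_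
  change J2 _ = _
  rw [h.fderiv_U hz, J2_mul, J0_Uf (h.det z hz), symM]
  simp only [map_sub, map_smul, J0_mono, J0_cst, J1_mono, J1_cst, J2_mono, J2_cst, sub_self,
    smul_zero, mul_zero, one_mul, sub_zero, zero_add]
  push_cast
  congr 1
  · congr 2; module
  · module

theorem fderiv_B0 (v : ℂ) : fderiv ℝ (fun z => cf 0 (Bm (Φ z))) z v =
    (v • (cf 0 (Bm (Φ z) * ξ z * Bi (Φ z)) + aM Φ ξ z) - conj v • ct (aM Φ ξ z)) *
      cf 0 (Bm (Φ z)) := by
  have d := h.det z hz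
  refine (Dpw1_fderiv_clm ((cf 0).restrictScalars ℝ) (h.Dpw1_contDiffAt_B hz) v).trans ?_
  change cf 0 _ = _
  have p : MGE 0 (fderiv ℝ (fun z => Bm (Φ z)) z v * Bi (Φ z)) :=
    (h.Dpw1_dB_pos hz v).mul (Bi_pos d)
  have a := p.cf_mul (Bm_pos d)
  rw [mul_assoc, Bi_mul_Bm d, mul_one, add_zero] at a
  rw [a, eq_sub_of_add_eq' (eq_sub_iff_add_eq.1 (h.Dpw1_al hz v)), h.Dpw1_al_eq hz]
  simp only [map_sub, map_smul, cf_mono, cf_cst]
  congr 1
  norm_num
  module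

end DFrame

end Pool.Agent.MP_efb2da_gt

end
end

section

open Set Complex
open scoped Topology ComplexConjugate Matrix ContDiff

noncomputable section

namespace Pool.Agent.MP_efb2da_gt

lemma Dpw2_sq {M : MC} (h1 : trC M = 0) (h2 : M.det = 0) : M * M = 0 := by
  rw [trC_apply] at h1
  rw [Matrix.det_fin_two] at h2
  ext i j
  fin_cases i <;> fin_cases j <;> simp [Matrix.mul_apply, Fin.sum_univ_two]
  · linear_combination M 0 0 * h1 - h2
  · linear_combination M 0 1 * h1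
  · linear_combination M 1 0 * h1
  · linear_combination M 1 1 * h1 - h2

lemma Dpw2_tr_comm (M N : MC) : trC (M * N) = trC (N * M) := by
  simp only [trC_apply, Matrix.mul_apply, Fin.sum_univ_two]; ring

lemma Dpw2_alg {R : Type} [Ring R] {B C n x n' B1 C1 : R} (h1 : C * B = 1)
    (h3 : n * n = 0) (h4 : B * C1 + B1 * C = 0) :
    ((B * n * C1 + (B * x + B1 * n) * C + B * n * C) * (B * n * C) -
        (B * n * C) * (B * n * C1 + (B * x + B1 * n) * C + B * n * C) + B * n' * C) * (B * n * C) -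
      (B * n * C) * ((B * n * C1 + (B * x + B1 * n) * C + B * n * C) * (B * n * C) -
        (B * n * C) * (B * n * C1 + (B * x + B1 * n) * C + B * n * C) + B * n' * C) =
      B * ((n' + (x * n - n * x)) * n - n * (n' + (x * n - n * x))) * C := by
  have e : C1 = -(C * B1 * C) := by
    have := congrArg (fun y => C * y) h4
    simp only [mul_add, ← mul_assoc, h1, one_mul, mul_zero] at this
    exact eq_neg_of_add_eq_zero_left this
  have k1 : ∀ y, C * (B * y) = y := fun y => by rw [← mul_assoc, h1, one_mul]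
  have k3 : ∀ y, n * (n * y) = 0 := fun y => by rw [← mul_assoc, h3, zero_mul]
  subst e
  simp only [mul_add, add_mul, mul_sub, sub_mul, mul_neg, neg_mul, mul_assoc, k1, k3, mul_zero,
    zero_mul, neg_zero]
  abel

/-- `vec` as a continuous linear map -/
def Dpw2_vecL : MC →L[ℝ] E3 where
  toFun := vec
  map_add' := vec_add
  map_smul' c M := by
    rw [RingHom.id_apply, ← vec_smul, Complex.coe_smul]
  cont := (contDiff_vec (n := 0)).continuous

lemma Dpw2_vecL_apply (M : MC) : Dpw2_vecL M = vec M := rfl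

section Alg
variable {a : MC} (h1 : trC a = 0) (h2 : a * a = 0)
include h1 h2

omit h1 in
lemma Dpw2_rel : (a 0 0).re ^ 2 - (a 0 0).im ^ 2 + (a 0 1).re * (a 1 0).re -
      (a 0 1).im * (a 1 0).im = 0 ∧
    2 * (a 0 0).re * (a 0 0).im + (a 0 1).re * (a 1 0).im + (a 0 1).im * (a 1 0).re = 0 := by
  have h := congrFun (congrFun h2 0) 0
  simp only [Matrix.mul_apply, Fin.sum_univ_two, Matrix.zero_apply] at h
  have hr := congrArg Complex.re h
  have hi := congrArg Complex.im h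
  simp only [add_re, mul_re, add_im, mul_im, zero_re, zero_im] at hr hi
  constructor
  · linarith
  · linarith

omit h1 in
lemma Dpw2_orth : inner ℝ (vec (-((1:ℂ) • a + conj (1:ℂ) • ct a)))
    (vec (-(I • a + conj I • ct a))) = 0 := by
  obtain ⟨-, e2⟩ := Dpw2_rel h2
  simp [vec, mk3, EuclideanSpace.inner_eq_star_dotProduct, dotProduct, Fin.sum_univ_three]
  linear_combination (-2) * e2

omit h1 in
lemma Dpw2_conf : ‖vec (-((1:ℂ) • a + conj (1:ℂ) • ct a))‖ = ‖vec (-(I • a + conj I • ct a))‖ := by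
  obtain ⟨e1, -⟩ := Dpw2_rel h2
  rw [EuclideanSpace.norm_eq, EuclideanSpace.norm_eq]
  congr 1
  simp only [Real.norm_eq_abs, sq_abs]
  simp [vec, mk3, Fin.sum_univ_three]
  linear_combination 4 * e1

lemma Dpw2_ne (h : vec (-((1:ℂ) • a + conj (1:ℂ) • ct a)) = 0) : a = 0 := by
  obtain ⟨e1, -⟩ := Dpw2_rel h2
  have c0 := congrArg (fun v : E3 => v 0) h
  have c1 := congrArg (fun v : E3 => v 1) h
  have c2 := congrArg (fun v : E3 => v 2) h
  simp [vec, mk3] at c0 c1 c2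
  have d0 : (a 0 1).re = -(a 1 0).re := by linarith
  have d1 : (a 0 1).im = (a 1 0).im := by linarith
  rw [d0, d1, c2] at e1
  have f0 : (a 0 0).im = 0 := by nlinarith [sq_nonneg (a 1 0).re, sq_nonneg (a 1 0).im]
  have f1 : (a 1 0).re = 0 := by nlinarith [sq_nonneg (a 0 0).im, sq_nonneg (a 1 0).im]
  have f2 : (a 1 0).im = 0 := by nlinarith [sq_nonneg (a 0 0).im, sq_nonneg (a 1 0).re]
  have g0 : a 0 0 = 0 := Complex.ext c2 f0
  have g1 : a 1 0 = 0 := Complex.ext f1 f2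
  have g2 : a 0 1 = 0 := Complex.ext (by rw [d0, f1]; simp) (by rw [d1, f2]; simp)
  rw [trC_apply, g0, zero_add] at h1
  ext i j
  fin_cases i <;> fin_cases j <;> simp [g0, g1, g2, h1]

omit h2 in
lemma Dpw2_lap (az : MC) :
    vec (-((1:ℂ) • ((1:ℂ) • az + conj (1:ℂ) • (a * ct a - ct a * a)) +
        conj (1:ℂ) • ct ((1:ℂ) • az + conj (1:ℂ) • (a * ct a - ct a * a)))) +
      vec (-(I • (I • az + conj I • (a * ct a - ct a * a)) +
        conj I • ct (I • az + conj I • (a * ct a - ct a * a)))) =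
      (4:ℝ) • cr (vec (-((1:ℂ) • a + conj (1:ℂ) • ct a))) (vec (-(I • a + conj I • ct a))) := by
  rw [trC_apply] at h1
  have e : a 1 1 = -a 0 0 := by linear_combination h1
  ext i
  fin_cases i <;> simp [vec, mk3, cr, Matrix.mul_apply, Fin.sum_univ_two, e] <;> ring

end Alg

namespace DFrame
variable {O : Set ℂ} {Φ ξ : ℂ → MW} (h : DFrame O Φ ξ) {z : ℂ} (hz : z ∈ O)
include h hz

theorem B0_mul : cf 0 (Bm (Φ z)) * cf 0 (Bi (Φ z)) = 1 ∧ cf 0 (Bi (Φ z)) * cf 0 (Bm (Φ z)) = 1 := by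
  have hd := h.det z hz
  have e1 := (Bm_pos hd).cf_mul (Bi_pos hd)
  have e2 := (Bi_pos hd).cf_mul (Bm_pos hd)
  have e0 : cf (0 + 0) 1 = 1 := by rw [← cst_one, cf_cst]; simp
  rw [Bm_mul_Bi hd, e0] at e1
  rw [Bi_mul_Bm hd, e0] at e2
  exact ⟨e1.symm, e2.symm⟩

theorem Dpw2_n_tr : trC (cf (-1) (ξ z)) = 0 := by
  have := congrArg (W.coef (-1)) (h.tr z hz)
  rw [trW_apply, map_add, map_zero] at this
  exact this

theorem Dpw2_n_sq : cf (-1) (ξ z) * cf (-1) (ξ z) = 0 :=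
  Dpw2_sq (h.Dpw2_n_tr hz) (h.nil z hz)

theorem a_sq : aM Φ ξ z * aM Φ ξ z = 0 := by
  rw [aM, mul_assoc, mul_assoc, ← mul_assoc (cf 0 (Bi (Φ z))), ← mul_assoc (cf 0 (Bi (Φ z))),
    (h.B0_mul hz).2, one_mul, ← mul_assoc (cf (-1) (ξ z)), h.Dpw2_n_sq hz, zero_mul, mul_zero]

theorem a_tr : trC (aM Φ ξ z) = 0 := by
  rw [aM, Dpw2_tr_comm, ← mul_assoc, (h.B0_mul hz).2, one_mul, h.Dpw2_n_tr hz]

theorem fderiv_a : ∃ az : MC, (∀ v : ℂ, fderiv ℝ (aM Φ ξ) z v = v • az +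
      conj v • (aM Φ ξ z * ct (aM Φ ξ z) - ct (aM Φ ξ z) * aM Φ ξ z)) ∧
    az * aM Φ ξ z - aM Φ ξ z * az = cf 0 (Bm (Φ z)) * hopf ξ z * cf 0 (Bi (Φ z)) := by
  have hd := h.det z hz
  have hΦ := h.contDiffAt_frame hz
  have hB : DifferentiableAt ℝ (fun z => cf 0 (Bm (Φ z))) z :=
    ((cf 0).restrictScalars ℝ).differentiableAt.comp z
      (((contDiffAt_Bm hd).comp z hΦ).differentiableAt (by simp))
  have hC : DifferentiableAt ℝ (fun z => cf 0 (Bi (Φ z))) z :=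
    ((cf 0).restrictScalars ℝ).differentiableAt.comp z
      (((contDiffAt_Bi hd).comp z hΦ).differentiableAt (by simp))
  have hξ : HasDerivAt ξ (deriv ξ z) z :=
    (h.hol.differentiableAt (h.opn.mem_nhds hz)).hasDerivAt
  have hn : HasDerivAt (fun z => cf (-1) (ξ z)) (cf (-1) (deriv ξ z)) z :=
    (cf (-1)).hasFDerivAt.comp_hasDerivAt z hξ
  have hn' := hn.hasFDerivAt.restrictScalars ℝ
  obtain ⟨b1, b2⟩ := h.B0_mul hz
  have hBC : (fun z => cf 0 (Bm (Φ z)) * cf 0 (Bi (Φ z))) =ᶠ[𝓝 z] fun _ => 1 :=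
    Filter.eventually_of_mem (h.opn.mem_nhds hz) fun w hw => (h.B0_mul hw).1
  have hdC : ∀ v, fderiv ℝ (fun z => cf 0 (Bi (Φ z))) z v =
      -(cf 0 (Bi (Φ z)) * fderiv ℝ (fun z => cf 0 (Bm (Φ z))) z v * cf 0 (Bi (Φ z))) := by
    intro v
    have e1 := (hB.hasFDerivAt.fun_mul' hC.hasFDerivAt).fderiv
    rw [hBC.fderiv_eq, fderiv_fun_const] at e1
    have e2 := congrArg (fun L : ℂ →L[ℝ] MC => cf 0 (Bi (Φ z)) * L v) e1
    simp only [Pi.zero_apply, zero_apply, mul_zero,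
      add_apply, smul_apply, smul_eq_mul,
      MulOpposite.smul_eq_mul_unop, MulOpposite.unop_op, mul_add, ← mul_assoc, b2, one_mul] at e2
    exact eq_neg_of_add_eq_zero_left e2.symm
  refine ⟨(cf 0 (Bm (Φ z) * ξ z * Bi (Φ z)) + aM Φ ξ z) * aM Φ ξ z -
    aM Φ ξ z * (cf 0 (Bm (Φ z) * ξ z * Bi (Φ z)) + aM Φ ξ z) +
    cf 0 (Bm (Φ z)) * cf (-1) (deriv ξ z) * cf 0 (Bi (Φ z)), fun v => ?_, ?_⟩
  · have e1 := ((hB.hasFDerivAt.fun_mul' hn').fun_mul' hC.hasFDerivAt).fderiv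
    have e2 : fderiv ℝ (aM Φ ξ) z = _ := e1
    rw [e2]
    simp only [add_apply, smul_apply, smul_eq_mul,
      MulOpposite.smul_eq_mul_unop, MulOpposite.unop_op, hdC, h.fderiv_B0 hz,
      ContinuousLinearMap.coe_restrictScalars', ContinuousLinearMap.toSpanSingleton_apply]
    have k1 : ∀ y, cf 0 (Bm (Φ z)) * (cf 0 (Bi (Φ z)) * y) = y := fun y => by
      rw [← mul_assoc, b1, one_mul]
    simp only [aM, mul_add, add_mul, mul_sub, sub_mul, mul_neg, mul_assoc, b1, mul_one,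
      smul_add, smul_sub, smul_mul_assoc, mul_smul_comm]
    abel
  · have e1 := ((Bm_pos hd).mul (h.ge z hz)).cf_mul_succ (Bi_pos hd)
    have e2 := (Bm_pos hd).cf_mul (h.ge z hz)
    have e3 := (Bm_pos hd).cf_mul_succ (h.ge z hz)
    have e4 := (Bm_pos hd).cf_mul_succ (Bi_pos hd)
    have e0 : cf (0 + 0 + 1) 1 = 0 := by rw [← cst_one, cf_cst]; simp
    rw [Bm_mul_Bi hd, e0] at e4
    rw [e2, e3] at e1
    simp only [zero_add, add_zero, neg_add_cancel] at e1 e4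
    rw [e1, aM, hopf]
    exact Dpw2_alg b2 (h.Dpw2_n_sq hz) e4.symm

theorem Dpw2_d1 (v : ℂ) : fderiv ℝ (fun z => vec (symM (Φ z))) z v =
    vec (-(v • aM Φ ξ z + conj v • ct (aM Φ ξ z))) := by
  have e := (Dpw2_vecL.hasFDerivAt.comp z
    ((h.contDiffAt_sym hz).differentiableAt (by simp)).hasFDerivAt).fderiv
  have e' : fderiv ℝ (fun z => vec (symM (Φ z))) z = _ := e
  rw [e', ContinuousLinearMap.comp_apply, h.fderiv_sym hz, Dpw2_vecL_apply]

theorem Dpw2_d2 (u v : ℂ) :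
    fderiv ℝ (fun w => fderiv ℝ (fun z => vec (symM (Φ z))) w u) z v =
      vec (-(u • fderiv ℝ (aM Φ ξ) z v + conj u • ct (fderiv ℝ (aM Φ ξ) z v))) := by
  have he : (fun w => fderiv ℝ (fun z => vec (symM (Φ z))) w u) =ᶠ[𝓝 z]
      fun w => Dpw2_vecL (-(u • aM Φ ξ w + conj u • ct (aM Φ ξ w))) :=
    Filter.eventually_of_mem (h.opn.mem_nhds hz) fun w hw => h.Dpw2_d1 hw u
  have ha := ((h.contDiffAt_a hz).differentiableAt (by simp)).hasFDerivAt
  have e := (Dpw2_vecL.hasFDerivAt.comp z ((ha.const_smul u).add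
    ((ct.hasFDerivAt.comp z ha).const_smul (conj u))).neg).fderiv
  have e' : fderiv ℝ (fun w => Dpw2_vecL (-(u • aM Φ ξ w + conj u • ct (aM Φ ξ w)))) z = _ := e
  rw [he.fderiv_eq, e']
  rfl

theorem cmcAt (hne : cf (-1) (ξ z) ≠ 0) : CMCAt (fun z => vec (symM (Φ z))) z := by
  obtain ⟨az, haz, -⟩ := h.fderiv_a hz
  refine ⟨contDiff_vec.contDiffAt.comp z (h.contDiffAt_sym hz), ?_, ?_, ?_, ?_⟩
  · rw [dx, dy, h.Dpw2_d1 hz, h.Dpw2_d1 hz]
    exact Dpw2_orth (h.a_sq hz)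
  · rw [dx, dy, h.Dpw2_d1 hz, h.Dpw2_d1 hz]
    exact Dpw2_conf (h.a_sq hz)
  · rw [dx, h.Dpw2_d1 hz]
    intro h0
    have ha := Dpw2_ne (h.a_tr hz) (h.a_sq hz) h0
    apply hne
    obtain ⟨-, b2⟩ := h.B0_mul hz
    have e : cf 0 (Bi (Φ z)) * aM Φ ξ z * cf 0 (Bm (Φ z)) = cf (-1) (ξ z) := by
      rw [aM, ← mul_assoc, ← mul_assoc, b2, one_mul, mul_assoc, b2, mul_one]
    rw [← e, ha, mul_zero, zero_mul]
  · have e1 : dx (dx fun z => vec (symM (Φ z))) z = _ := h.Dpw2_d2 hz 1 1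
    have e2 : dy (dy fun z => vec (symM (Φ z))) z = _ := h.Dpw2_d2 hz I I
    rw [e1, e2, dx, dy, h.Dpw2_d1 hz, h.Dpw2_d1 hz, haz, haz]
    exact Dpw2_lap (h.a_tr hz) az

end DFrame

end Pool.Agent.MP_efb2da_gt

end
end
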