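import Pool.Agent.Mg.Fefb2da.G0699f1
import Pool.Agent.Mg.Fefb2da.G9e868c

open Set Complex
open scoped Topology ComplexConjugate Matrix ContDiff

noncomputable section

namespace Pool.Agent.MP_efb2da_gt

lemma Est1_A (d : Dat) (j : Fin 5) : ‖AA d j‖ ≤ ‖d‖ :=
  (norm_le_pi_norm _ j).trans (norm_fst_le d)

lemma Est1_G (d : Dat) : ‖GG d‖ ≤ ‖d‖ := (norm_fst_le d.2).trans (norm_snd_le d)

lemma Est1_m (d : Dat) (i : Fin 3) (z : ℂ) : ‖mv (mm d i) z‖ ≤ ‖d‖ :=
  (norm_mv_le _ z).trans ((norm_le_pi_norm _ i).trans ((norm_snd_le d.2).trans (norm_snd_le d)))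

lemma Est1_sum (d : Dat) : ‖∑ j, AA d j‖ ≤ 5 * ‖d‖ :=
  (norm_sum_le _ _).trans ((Finset.sum_le_sum fun j _ => Est1_A d j).trans (by simp))

theorem est_Th (g : Geo) (d : Dat) (u : ℂ) :
    ‖Th g d u - AA d 1‖ ≤ (‖u‖ + ee g ^ 2 / ‖u‖) * ‖d‖ := by
  have e : Th g d u - AA d 1 = u • mv (mm d 1) u -
      ((ee g : ℂ) ^ 2 / u) • sw (mv (mm d 1) ((ee g : ℂ) ^ 2 / u)) := by
    unfold Th; abel
  rw [e, add_mul]
  refine (norm_sub_le _ _).trans (add_le_add ?_ ?_)
  · rw [norm_smul]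
    exact mul_le_mul_of_nonneg_left (Est1_m d 1 u) (norm_nonneg _)
  · rw [norm_smul, norm_sw, norm_div, norm_pow, Complex.norm_real, Real.norm_eq_abs, sq_abs]
    exact mul_le_mul_of_nonneg_left (Est1_m d 1 _) (by positivity)

lemma Est1_int (t l α β c : ℝ) :
    ∫ s in (0:ℝ)..1, (t * l * (α * Real.exp (s * l) + β * Real.exp (-(s * l))) + c) =
      t * (α * Real.exp l - β * Real.exp (-l) - α + β) + c := by
  have h : ∀ s ∈ uIcc (0:ℝ) 1, HasDerivAt
      (fun s => t * (α * Real.exp (s * l) - β * Real.exp (-(s * l))) + c * s)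
      (t * l * (α * Real.exp (s * l) + β * Real.exp (-(s * l))) + c) s := fun s _ => by
    have h1 : HasDerivAt (fun s : ℝ => s * l) l s := hasDerivAt_mul_const l
    have h2 := (((h1.exp.const_mul α).sub (h1.neg.exp.const_mul β)).const_mul t).add
      ((hasDerivAt_id s).const_mul c)
    exact h2.congr_deriv (by simp only [Pi.neg_apply]; ring)
  rw [intervalIntegral.integral_eq_sub_of_hasDerivAt h (Continuous.intervalIntegrable (by fun_prop) _ _)]
  simp
  ring

lemma Est1_gen (K L M : ℝ) : ∃ C, ∀ (a : ℝ → MW) (A A' : MW) (t l α β : ℝ),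
    ContinuousOn a (Icc 0 1) → 0 < t → 0 < l → t * l ≤ L → 0 ≤ α → 0 ≤ β →
    α * Real.exp l + β ≤ M → ‖A‖ ≤ K → ‖A'‖ ≤ K →
    (∀ r ∈ Icc (0:ℝ) 1, ‖a r - ((t * l : ℝ) : ℂ) • A‖ ≤
      t * l * (α * Real.exp (r * l) + β * Real.exp (-(r * l)))) →
    ‖Hol a 1‖ ≤ C ∧ ‖Hol a 1 - Hol (fun _ => ((t * l : ℝ) : ℂ) • A') 1‖ ≤ C * (t + ‖A - A'‖) := by
  refine ⟨Real.exp (2 * (L * (K + M))) * (1 + M + L),
    fun a A A' t l α β ha ht hl hL hα hβ hM hA hA' h => ?_⟩
  have htl : 0 < t * l := mul_pos ht hl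
  have hL0 : 0 ≤ L := htl.le.trans hL
  have hK0 : 0 ≤ K := (norm_nonneg _).trans hA
  have hM0 : 0 ≤ M := le_trans (by positivity) hM
  have hs : ∀ B : MW, ‖((t * l : ℝ) : ℂ) • B‖ ≤ L * ‖B‖ := fun B => by
    rw [norm_smul, Complex.norm_real, Real.norm_of_nonneg htl.le]
    exact mul_le_mul_of_nonneg_right hL (norm_nonneg _)
  have h1 : ∀ r ∈ Icc (0:ℝ) 1, ‖a r‖ ≤ L * (K + M) := fun r hr => by
    have e1 : Real.exp (r * l) ≤ Real.exp l := Real.exp_le_exp.2 (by nlinarith [hr.2])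
    have e2 : Real.exp (-(r * l)) ≤ 1 := Real.exp_le_one_iff.2 (by nlinarith [hr.1])
    have e3 : α * Real.exp (r * l) + β * Real.exp (-(r * l)) ≤ M := by
      nlinarith [mul_le_mul_of_nonneg_left e1 hα, mul_le_mul_of_nonneg_left e2 hβ]
    have e4 := mul_le_mul hL e3 (by positivity) hL0
    have e5 := mul_le_mul_of_nonneg_left hA hL0
    have e6 := norm_le_norm_sub_add (a r) (((t * l : ℝ) : ℂ) • A)
    linarith [h r hr, hs A]
  have h2 : ∀ r ∈ Icc (0:ℝ) 1, ‖(fun _ : ℝ => ((t * l : ℝ) : ℂ) • A') r‖ ≤ L * (K + M) :=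
    fun _ _ => (hs A').trans (mul_le_mul_of_nonneg_left (by linarith) hL0)
  have h01 : (1:ℝ) ∈ Icc (0:ℝ) 1 := right_mem_Icc.2 zero_le_one
  have hKM : 0 ≤ L * (K + M) := by positivity
  refine ⟨(norm_Hol_le ha h1 1 h01).trans ?_,
    (norm_Hol_sub_le ha continuousOn_const h1 h2 1 h01).trans ?_⟩
  · exact (Real.exp_le_exp.2 (by linarith)).trans
      (le_mul_of_one_le_right (Real.exp_pos _).le (by linarith))
  · rw [mul_assoc]
    refine mul_le_mul_of_nonneg_left ?_ (Real.exp_pos _).le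
    refine (intervalIntegral.integral_mono_on zero_le_one
      ((ha.sub continuousOn_const).norm.intervalIntegrable_of_Icc zero_le_one)
      (g := fun s => t * l * (α * Real.exp (s * l) + β * Real.exp (-(s * l))) + L * ‖A - A'‖)
      (Continuous.intervalIntegrable (by fun_prop) _ _) fun r hr => ?_).trans ?_
    · have e := norm_sub_le_norm_sub_add_norm_sub (a r) (((t * l : ℝ) : ℂ) • A)
        (((t * l : ℝ) : ℂ) • A')
      rw [← smul_sub] at e
      exact e.trans (add_le_add (h r hr) (hs _))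
    · rw [Est1_int]
      have e1 : α * Real.exp l - β * Real.exp (-l) - α + β ≤ M := by
        have := mul_nonneg hβ (Real.exp_pos (-l)).le
        linarith
      have e2 := mul_le_mul_of_nonneg_left e1 ht.le
      have e3 := norm_nonneg (A - A')
      nlinarith [mul_nonneg hM0 e3, mul_nonneg hL0 ht.le]

theorem est_H (N L : ℝ) : ∃ C, ∀ (g : Geo) (d : Dat) (A' : MW), AdmG g → ‖d‖ ≤ N → ‖A'‖ ≤ N →
    tt g * La1 g ≤ L → ‖HH g d‖ ≤ C ∧
      ‖HH g d - Hol (fun _ => ((tt g * La1 g : ℝ) : ℂ) • A') 1‖ ≤ C * (tt g + ‖AA d 1 - A'‖) := by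
  obtain ⟨C, hC⟩ := Est1_gen N L N
  refine ⟨C, fun g d A' hg hd hA' hL => ?_⟩
  have hN : 0 ≤ N := (norm_nonneg _).trans hd
  have he := hg.2.1.1
  have he' := hg.2.1.2
  have hl := La1_pos hg
  have ht := hg.1.1
  refine hC (aH g d) (AA d 1) A' (tt g) (La1 g) (ee g * N) (ee g * N) (continuous_aH hg).continuousOn
    ht hl hL (by positivity) (by positivity) ?_ ((Est1_A d 1).trans hd) hA' fun r _ => ?_
  · rw [La1, Real.exp_log (by positivity)]
    have : ee g * N * (1 / (16 * ee g)) = N / 16 := by field_simp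
    rw [this]
    nlinarith
  · rw [aH, ← smul_sub, norm_smul, Complex.norm_real, Real.norm_of_nonneg (by positivity)]
    refine mul_le_mul_of_nonneg_left ((est_Th g d _).trans ?_) (by positivity)
    rw [Complex.norm_real, Real.norm_of_nonneg (by positivity), Real.exp_neg]
    refine (mul_le_mul_of_nonneg_left hd (by positivity)).trans_eq ?_
    field_simp

theorem est_R1 (N : ℝ) : ∃ C, ∀ (g : Geo) (d : Dat), AdmG g → ‖d‖ ≤ N → trW (AA d 1) = 0 →
    ‖R1 g d - 1‖ ≤ C * tt g ∧ ‖Sof (tt g) (R1 g d) - AA d 1‖ ≤ C * (tt g + ee g) := by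
  refine ⟨4 * Real.pi * N * Real.exp (4 * Real.pi * N) +
    12 * Real.pi * N ^ 2 * Real.exp (4 * Real.pi * N) + 3 * N, fun g d hg hd htr => ?_⟩
  have hN : 0 ≤ N := (norm_nonneg _).trans hd
  have he := hg.2.1.1
  have he' := hg.2.1.2
  have ht := hg.1.1
  have ht' := hg.1.2
  have hπ := Real.pi_pos
  have hc : ‖(2 * Real.pi * I * tt g : ℂ)‖ = 2 * Real.pi * tt g := by
    simp [abs_of_pos hπ, abs_of_pos ht]
  have h1 : ∀ r : ℝ, ‖Th g d (ee g * exp (2 * Real.pi * I * r)) - AA d 1‖ ≤ 2 * ee g * N := by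
    intro r
    have e : ‖(ee g * exp (2 * Real.pi * I * r) : ℂ)‖ = ee g := by
      rw [norm_mul, show (2 * Real.pi * I * r : ℂ) = ((2 * Real.pi * r : ℝ) : ℂ) * I by
        push_cast; ring, Complex.norm_exp_ofReal_mul_I, mul_one, Complex.norm_real,
        Real.norm_of_nonneg he.le]
    refine (est_Th g d _).trans ?_
    rw [e]
    refine (mul_le_mul_of_nonneg_left hd (by positivity)).trans_eq ?_
    field_simp
    ring
  have h2 : ∀ r ∈ Icc (0:ℝ) 1, ‖a1 g d r‖ ≤ 4 * Real.pi * N * tt g := fun r _ => by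
    have e1 := norm_le_norm_sub_add (Th g d (ee g * exp (2 * Real.pi * I * r))) (AA d 1)
    have e2 : ‖Th g d (ee g * exp (2 * Real.pi * I * r))‖ ≤ 2 * N := by
      nlinarith [h1 r, Est1_A d 1]
    rw [a1, norm_smul, hc]
    exact (mul_le_mul_of_nonneg_left e2 (by positivity)).trans_eq (by ring)
  have ha := (continuous_a1 (d := d) hg).continuousOn (s := Icc 0 1)
  have hE : Real.exp (4 * Real.pi * N * tt g) ≤ Real.exp (4 * Real.pi * N) :=
    Real.exp_le_exp.2 (mul_le_of_le_one_right (by positivity) ht')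
  have p1 : 0 ≤ 4 * Real.pi * N * Real.exp (4 * Real.pi * N) := by positivity
  have p2 : 0 ≤ 12 * Real.pi * N ^ 2 * Real.exp (4 * Real.pi * N) := by positivity
  constructor
  · refine (norm_Hol_sub_one_le ha h2 1 (right_mem_Icc.2 zero_le_one)).trans
      ((mul_le_mul_of_nonneg_left hE (by positivity)).trans ?_)
    nlinarith [mul_nonneg p2 ht.le, mul_nonneg hN ht.le]
  · have h3 := (norm_Hol_second ha h2).trans (mul_le_mul_of_nonneg_left hE (by positivity))
    have h4 : ‖(∫ s in (0:ℝ)..1, a1 g d s) - (2 * Real.pi * I * tt g : ℂ) • AA d 1‖ ≤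
        2 * Real.pi * tt g * (2 * ee g * N) := by
      have e : (∫ s in (0:ℝ)..1, a1 g d s) - (2 * Real.pi * I * tt g : ℂ) • AA d 1 =
          ∫ s in (0:ℝ)..1, (a1 g d s - (2 * Real.pi * I * tt g : ℂ) • AA d 1) := by
        rw [intervalIntegral.integral_sub ((continuous_a1 hg).intervalIntegrable _ _)
          intervalIntegrable_const]
        simp
      rw [e]
      refine (intervalIntegral.norm_integral_le_of_norm_le_const
        (C := 2 * Real.pi * tt g * (2 * ee g * N)) fun s _ => ?_).trans_eq (by simp)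
      rw [a1, ← smul_sub, norm_smul, hc]
      exact mul_le_mul_of_nonneg_left (h1 s) (by positivity)
    obtain ⟨X, hX⟩ : ∃ X, X = R1 g d - 1 - (2 * Real.pi * I * tt g : ℂ) • AA d 1 := ⟨_, rfl⟩
    have h5 : ‖X‖ ≤ (4 * Real.pi * N * tt g) ^ 2 * Real.exp (4 * Real.pi * N) +
        2 * Real.pi * tt g * (2 * ee g * N) := by
      rw [hX]
      exact (norm_sub_le_norm_sub_add_norm_sub _ _ _).trans (add_le_add h3 h4)
    have h6 : Sof (tt g) (R1 g d) - AA d 1 = (4 * Real.pi * I * tt g : ℂ)⁻¹ • (X - adj X) := by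
      have e : X - adj X = R1 g d - adj (R1 g d) - (4 * Real.pi * I * tt g : ℂ) • AA d 1 := by
        rw [hX, map_sub, map_sub, map_smul, adj_one, adj_of_tr htr]
        module
      rw [e, smul_sub (4 * Real.pi * I * tt g : ℂ)⁻¹, smul_smul, inv_mul_cancel₀ (Jet_c_ne ht.ne'),
        one_smul, Sof]
    have h7 : ‖(4 * Real.pi * I * tt g : ℂ)‖ = 4 * Real.pi * tt g := by
      simp [abs_of_pos hπ, abs_of_pos ht]
    have h8 : ‖X - adj X‖ ≤ 3 * ‖X‖ := by linarith [norm_sub_le X (adj X), norm_adj_le X]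
    rw [h6, norm_smul, norm_inv, h7]
    refine (mul_le_mul_of_nonneg_left (h8.trans (mul_le_mul_of_nonneg_left h5 (by norm_num)))
      (by positivity)).trans ?_
    have e : (4 * Real.pi * tt g)⁻¹ * (3 * ((4 * Real.pi * N * tt g) ^ 2 *
        Real.exp (4 * Real.pi * N) + 2 * Real.pi * tt g * (2 * ee g * N))) =
        12 * Real.pi * N ^ 2 * Real.exp (4 * Real.pi * N) * tt g + 3 * N * ee g := by
      field_simp
      ring
    rw [e]
    nlinarith [mul_nonneg p1 ht.le, mul_nonneg p1 he.le, mul_nonneg p2 he.le, mul_nonneg hN ht.le]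

lemma Est1_pos_le {p : Fin 3 → ℝ} (h : AdmP p) (j : Fin 5) : pos p j ≤ 1 := by
  obtain ⟨⟨-, h0⟩, ⟨-, h1⟩, -, h2⟩ := h
  fin_cases j <;> simp [pos] <;> linarith

lemma Est1_inv {z : ℂ} (hz : 17/16 ≤ z.re) {p : ℝ} (h1 : p ≤ 1) (h2 : |p| ≤ 11/10) :
    z - p ≠ 0 ∧ ‖z - p‖⁻¹ ≤ 19 / ‖z‖ := by
  have e1 : 1/16 ≤ ‖z - p‖ := by
    refine le_trans ?_ (re_le_norm _)
    simp only [sub_re, ofReal_re]
    linarith
  have e2 : ‖z‖ ≤ ‖z - p‖ + |p| := by
    simpa using norm_le_norm_sub_add z p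
  have e3 : 0 < ‖z‖ := lt_of_lt_of_le (by linarith) (re_le_norm z)
  refine ⟨norm_pos_iff.1 (by linarith), ?_⟩
  rw [inv_eq_one_div, div_le_div_iff₀ (by linarith) e3]
  linarith

lemma Est1_conj {G m G' : MW} {a b c : ℝ} (h1 : ‖G‖ ≤ a) (h2 : ‖m‖ ≤ b) (h3 : ‖G'‖ ≤ c) :
    ‖G * m * G'‖ ≤ a * b * c := by
  have ha := (norm_nonneg _).trans h1
  have hb := (norm_nonneg _).trans h2
  exact (norm_mul_le _ _).trans (mul_le_mul ((norm_mul_le _ _).trans
    (mul_le_mul h1 h2 (norm_nonneg _) ha)) h3 (norm_nonneg _) (by positivity))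

theorem est_far (N : ℝ) : ∃ C, ∀ (g : Geo) (d : Dat) (z : ℂ), AdmG g → ‖d‖ ≤ N → 17/16 ≤ z.re →
    ‖z • Xi g d z - ∑ j, AA d j‖ ≤ C * (1 / ‖z‖ + qq g * ‖z‖) := by
  refine ⟨466 * N + 2 * N ^ 3, fun g d z hg hd hz => ?_⟩
  have hN : 0 ≤ N := (norm_nonneg _).trans hd
  have he := hg.2.1.1
  have he' := hg.2.1.2
  have hq := hg.2.2.1.1
  have hq' := hg.2.2.1.2
  have hz0 : 0 < ‖z‖ := lt_of_lt_of_le (by linarith) (re_le_norm z)
  have hG := (Est1_G d).trans hd
  have hG' : ‖adj (GG d)‖ ≤ 2 * N := (norm_adj_le _).trans (by linarith)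
  have hm := fun i w => (Est1_m d i w).trans hd
  have hp := fun j => Est1_inv hz (Est1_pos_le hg.2.2.2 j) (abs_pos_le hg.2.2.2 j)
  have e : z • Xi g d z - ∑ j, AA d j =
      ∑ j, ((pos (pp g) j : ℂ) * (z - pos (pp g) j)⁻¹) • AA d j + z • h1 g d z + z • hinf g d z +
        z • h0 g d z := by
    have : z • rat g d Finset.univ z - ∑ j, AA d j =
        ∑ j, ((pos (pp g) j : ℂ) * (z - pos (pp g) j)⁻¹) • AA d j := by
      rw [rat, Finset.smul_sum, ← Finset.sum_sub_distrib]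
      refine Finset.sum_congr rfl fun j _ => ?_
      have h := (hp j).1
      rw [smul_smul, show z * (z - pos (pp g) j)⁻¹ = pos (pp g) j * (z - pos (pp g) j)⁻¹ + 1 by
        field_simp; ring, add_smul, one_smul, add_sub_cancel_right]
    rw [← this, Xi, smul_add, smul_add, smul_add]
    abel
  have b1 : ‖∑ j, ((pos (pp g) j : ℂ) * (z - pos (pp g) j)⁻¹) • AA d j‖ ≤ 105 * N * (1 / ‖z‖) := by
    refine (norm_sum_le _ _).trans ((Finset.sum_le_sum (g := fun _ => 11/10 * (19 / ‖z‖) * N)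
      fun j _ => ?_).trans ?_)
    · rw [norm_smul, norm_mul, norm_inv, Complex.norm_real, Real.norm_eq_abs]
      exact mul_le_mul (mul_le_mul (abs_pos_le hg.2.2.2 j) (hp j).2 (by positivity) (by norm_num))
        ((Est1_A d j).trans hd) (norm_nonneg _) (by positivity)
    · have : 0 ≤ N * (1 / ‖z‖) := by positivity
      simp only [Finset.sum_const, Finset.card_univ, Fintype.card_fin, nsmul_eq_mul]
      rw [show (19 / ‖z‖) = 19 * (1 / ‖z‖) by ring]
      push_cast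
      nlinarith
  have b2 : ‖z • h1 g d z‖ ≤ 361 * N * (1 / ‖z‖) := by
    have h := (Est1_inv hz (p := 1) le_rfl (by norm_num)).2
    rw [ofReal_one] at h
    rw [h1, norm_smul, norm_neg, norm_smul, norm_sw, norm_div, norm_pow, norm_pow,
      Complex.norm_real, Real.norm_of_nonneg he.le, div_eq_mul_inv, ← inv_pow]
    calc _ ≤ ‖z‖ * (1 ^ 2 * (19 / ‖z‖) ^ 2 * N) := by
          gcongr
          · linarith
          · exact hm _ _
      _ = _ := by field_simp; ring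
  have b3 : ‖z • hinf g d z‖ ≤ 2 * N ^ 3 * (1 / ‖z‖) := by
    rw [hinf, norm_smul, norm_smul, norm_div, norm_pow, Complex.norm_real,
      Real.norm_of_nonneg hq.le]
    calc _ ≤ ‖z‖ * (1 / ‖z‖ ^ 2 * (N * N * (2 * N))) := by
          gcongr
          · linarith
          · exact Est1_conj hG (hm _ _) hG'
      _ = _ := by field_simp
  have b4 : ‖z • h0 g d z‖ ≤ 2 * N ^ 3 * (qq g * ‖z‖) := by
    rw [h0, norm_smul, norm_smul, Complex.norm_real, Real.norm_of_nonneg hq.le]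
    calc _ ≤ ‖z‖ * (qq g * (2 * N * N * N)) := by
          gcongr
          exact Est1_conj hG' (hm _ _) hG
      _ = _ := by ring
  have p1 : 0 ≤ N * (qq g * ‖z‖) := by positivity
  rw [e]
  refine (norm_add_le_of_le (norm_add_le_of_le (norm_add_le_of_le b1 b2) b3) b4).trans ?_
  nlinarith

theorem est_L (N L : ℝ) : ∃ C, ∀ (g : Geo) (d : Dat) (Z : MW), AdmG g → ‖d‖ ≤ N → ‖Z‖ ≤ N →
    tt g * La g ≤ L → ‖Hol (aL g d) 1‖ ≤ C ∧
      ‖Hol (aL g d) 1 - Hol (fun _ => ((tt g * La g : ℝ) : ℂ) • Z) 1‖ ≤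
        C * (tt g + ‖∑ j, AA d j - Z‖) := by
  obtain ⟨D, hD⟩ := est_far N
  obtain ⟨C, hC⟩ := Est1_gen (5 * N) L (2 * |D|)
  refine ⟨C, fun g d Z hg hd hZ hL => ?_⟩
  have hN : 0 ≤ N := (norm_nonneg _).trans hd
  have hq := hg.2.2.1.1
  have hl := La_pos hg
  have ht := hg.1.1
  refine hC (aL g d) (∑ j, AA d j) Z (tt g) (La g) (|D| * qq g * (17/16)) (|D| * (16/17))
    (continuousOn_aL hg) ht hl hL (by positivity) (by positivity) ?_
    ((Est1_sum d).trans (by linarith)) (by linarith) fun r hr => ?_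
  · rw [La, Real.exp_log (by positivity)]
    have : |D| * qq g * (17/16) * (1 / (17 * qq g)) = |D| / 16 := by field_simp
    rw [this]
    linarith [abs_nonneg D]
  · have h1 : 1 ≤ Real.exp (r * La g) := Real.one_le_exp (mul_nonneg hr.1 hl.le)
    have h2 := hD g d ((17/16 * Real.exp (r * La g) : ℝ) : ℂ) hg hd (by rw [ofReal_re]; linarith)
    rw [Complex.norm_real, Real.norm_of_nonneg (by positivity)] at h2
    rw [aL, ofReal_mul (tt g * La g), mul_smul, ← smul_sub, norm_smul, Complex.norm_real,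
      Real.norm_of_nonneg (by positivity)]
    refine mul_le_mul_of_nonneg_left (h2.trans ((mul_le_mul_of_nonneg_right (le_abs_self D)
      (by positivity)).trans_eq ?_)) (by positivity)
    rw [Real.exp_neg]
    field_simp
    ring

end Pool.Agent.MP_efb2da_gt
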