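import Pool.Agent.Mg.Fefb2da.G55380f
import Pool.Agent.Mg.Fefb2da.G9e868c
import Pool.Agent.Mg.Fefb2da.Gc5bfff
import Pool.Agent.Mg.Fefb2da.G0699f1
import Pool.Agent.Mg.Fefb2da.G01ee6c

section

/-! Solutions of the closing conditions, frames. -/

open Set Complex
open scoped Topology ComplexConjugate Matrix ContDiff

noncomputable section

namespace Pool.Agent.MP_efb2da_gt

/-- the residue of the round sphere at the equator -/
def A10 : MW := zeta (-1) (nilM (-1/2) (Real.pi / 2))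

/-- properties of the limit residues -/
structure LimProp (As : Fin 5 → MW) : Prop where
  one : As 1 = A10
  e3 : cf (-1) (As 3) = cf (-1) (As 1)
  e4 : cf (-1) (As 4) = cf (-1) (As 2)
  triple : trC (cf (-1) (As 2) *
    (cf (-1) (As 1) * cf (-1) (As 0) - cf (-1) (As 0) * cf (-1) (As 1))) ≠ 0
  cap : ∀ j : Fin 3, ∃ (Y : Fin 2 → W) (c : ℂ), c ≠ 0 ∧ (∀ i, W.GE 0 (Y i)) ∧
    (∀ i, W.cj (Y i) = Y i) ∧ capDet (As (cj5 j)) Y = algebraMap ℂ W c

/-- an exact solution of all closing conditions, `η`-close to the limit -/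
structure Sol (η N : ℝ) (As : Fin 5 → MW) where
  k : ℕ
  g : Geo
  d : Dat
  x : ℝ
  hk : 3 ≤ k
  ht : tt g = 1 / k
  adm : AdmG g
  str : Str d
  fix : Fix g d
  bd : ‖d‖ ≤ N
  t_le : tt g ≤ η
  e_le : ee g ≤ η
  q_le : qq g ≤ η
  close : ∀ j, ‖AA d j - As j‖ ≤ η
  x_close : |x + 1/2| ≤ η
  c1 : Cl x (tt g) 1 (R1 g d)
  phi1 : phi x (R1 g d) = 0
  c2 : Cl x (tt g) 0 (RR g d 0)
  c3 : Cl x (tt g) 0 (RR g d 1)
  c4 : Cl x (tt g) 1 (RR g d 2)
  cL : ∃ L, Cl x (tt g) 0 L ∧ Php g d * GG d = L * Phi g d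
  nil : ∀ j : Fin 3, W.coef (-2) (AA d (cj5 j)).det = 0
  fl0 : W.coef (-1) (AA d 2).det = 0
  fl1 : W.coef (-1) (AA d 3).det = 0
  res : ∀ j : Fin 3,
    trC (adjC (cf (-1) (AA d (cj5 j))) * cf (-1) (reg g d (cj5 j) (pp g j))) = 0
  n1 : (cf (-1) (Th g d (ee g))).det = 0
  n4 : (cf (-1) (Xi g d ((1 / √(qq g) : ℝ) : ℂ))).det = 0

/-- the holomorphic frame on a neighbourhood of the upper half of the domain -/
structure Frame (g : Geo) (d : Dat) (Ω : Set ℂ) (Φ : ℂ → MW) : Prop where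
  opn : IsOpen Ω
  sub : Ω ⊆ Dom g
  up : ∀ z ∈ Dom g, 0 ≤ z.im → z ∈ Ω
  ode : ∀ z ∈ Ω, HasDerivAt Φ (Φ z * ((tt g : ℂ) • Xi g d z)) z
  det : ∀ z ∈ Ω, (Φ z).det = 1
  base : Φ (1 + ee g) = 1

def arcR (Φ : ℂ → MW) (x : ℝ) : MW := Φ x * adj (sharp (Φ x))

/-- the monodromy across the real arc containing `x` -/
def arcVal (g : Geo) (d : Dat) (R5 : MW) (x : ℝ) : MW :=
  if 1 < x then 1 else if pp g 0 < x then R1 g d else if 0 < x then RR g d 0
  else if pp g 2 < x then R5 else if pp g 1 < x then RR g d 1 else RR g d 2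

/-- monodromies to the left and to the right of a cap puncture -/
def Rl (g : Geo) (d : Dat) : Fin 3 → MW := ![RR g d 0, RR g d 2, RR g d 1]
def Rr (g : Geo) (d : Dat) (R5 : MW) : Fin 3 → MW := ![R1 g d, RR g d 1, R5]

structure Arcs {η N : ℝ} {As : Fin 5 → MW} (S : Sol η N As) (Φ : ℂ → MW) (R5 : MW) : Prop where
  val : ∀ x : ℝ, (x : ℂ) ∈ Dom S.g → arcR Φ x = arcVal S.g S.d R5 x
  c5 : Cl S.x (tt S.g) 1 R5
  phi5 : phi S.x R5 = phi S.x (RR S.g S.d 0) + phi S.x (RR S.g S.d 2)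
  per : ∃ L, Cl S.x (tt S.g) 0 L ∧ ∀ z : ℂ, 0 ≤ z.im → 8 < ‖z‖ → 8 * qq S.g * ‖z‖ < 1 →
    Φ (qq S.g * z) * GG S.d = L * Φ z

/-- potential on the strip covering the neck at `1` -/
def xiN (g : Geo) (d : Dat) (ζ : ℂ) : MW := (tt g : ℂ) • Th g d (ee g * exp ζ)
def Strip (g : Geo) : Set ℂ := {ζ | |ζ.re| < Real.log (1 / (8 * ee g))}

structure Neck (g : Geo) (d : Dat) (Ψ : ℂ → MW) : Prop where
  fr : DFrame (Strip g) Ψ (xiN g d)
  zero : Ψ 0 = 1
  rot : ∀ ζ ∈ Strip g, Ψ (ζ + 2 * Real.pi * I) = R1 g d * Ψ ζ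
  cj : ∀ ζ ∈ Strip g, Ψ (conj ζ) = sharp (Ψ ζ)
  neg : ∀ ζ ∈ Strip g, Ψ (-ζ) = sw (Ψ ζ)

/-- the boundary curve -/
def Gam (k : ℕ) (x : ℝ) (Ψ : ℂ → MW) (s : ℝ) : ℂ :=
  hz (pt x (Ψ (((2 * Real.pi * k * s : ℝ) : ℂ) * I)))
/-- vertical component of the conormal derivative -/
def nuB (k : ℕ) (Ψ ξ : ℂ → MW) (s : ℝ) : ℝ :=
  -(2 * Real.pi * k) * (2 * (aM Ψ ξ (((2 * Real.pi * k * s : ℝ) : ℂ) * I) 0 0).re)

/-- nilpotency and non-vanishing of the Higgs field -/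
structure Nil (g : Geo) (d : Dat) : Prop where
  nil : ∀ z ∈ Dom g, (cf (-1) (Xi g d z)).det = 0
  ne : ∀ z : ℂ, √(qq g) / 2 < ‖z‖ → ‖z‖ < 2 / √(qq g) → ee g / 2 < ‖z - 1‖ → (∀ j, z ≠ pp g j) →
    cf (-1) (Xi g d z) ≠ 0

end Pool.Agent.MP_efb2da_gt

end
end

section

open Set Complex
open scoped Topology ComplexConjugate Matrix ContDiff

noncomputable section

namespace Pool.Agent.MP_efb2da_gt

variable {g : Geo} {d : Dat}

lemma Pot3_one_mem : (1:ℝ) ∈ Icc (0:ℝ) 1 := right_mem_Icc.2 zero_le_one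
lemma Pot3_half_mem : (1/2:ℝ) ∈ Icc (0:ℝ) 1 := ⟨by norm_num, by norm_num⟩

lemma Pot3_exp_rev (r : ℝ) :
    exp (2 * Real.pi * I * ((1 - r : ℝ) : ℂ)) = exp (-(2 * Real.pi * I * r)) := by
  have : (2 * Real.pi * I * ((1 - r : ℝ) : ℂ) : ℂ) = -(2 * Real.pi * I * r) + 2 * Real.pi * I := by
    push_cast; ring
  rw [this, Complex.exp_add, Complex.exp_two_pi_mul_I, mul_one]

lemma Pot3_conj_exp (r : ℝ) :
    conj (exp (2 * Real.pi * I * ((1 - r : ℝ) : ℂ))) = exp (2 * Real.pi * I * r) := by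
  rw [Pot3_exp_rev, ← Complex.exp_conj]
  congr 1
  simp [Complex.conj_ofReal, map_ofNat]

lemma Pot3_conj_exp' (r : ℝ) :
    conj (exp (2 * Real.pi * I * r)) = exp (2 * Real.pi * I * ((1 - r : ℝ) : ℂ)) := by
  rw [← Pot3_conj_exp, Complex.conj_conj]

lemma Pot3_tr_smul (c : ℂ) {M : MW} (h : trW M = 0) : trW (c • M) = 0 := by
  rw [map_smul, h, smul_zero]

lemma Pot3_aH_tr (hd : Str d) (r : ℝ) : trW (aH g d r) = 0 := Pot3_tr_smul _ (Th_tr hd _)
lemma Pot3_a1_tr (hd : Str d) (r : ℝ) : trW (a1 g d r) = 0 := Pot3_tr_smul _ (Th_tr hd _)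
lemma Pot3_aC_tr (hd : Str d) (c R r : ℝ) : trW (aC g d c R r) = 0 := Pot3_tr_smul _ (Xi_tr hd _)
lemma Pot3_aL_tr (hd : Str d) (r : ℝ) : trW (aL g d r) = 0 := Pot3_tr_smul _ (Xi_tr hd _)

lemma Pot3_Th_real (hd : Str d) (x : ℝ) : sharp (Th g d x) = Th g d x := by
  have := Th_real (g := g) hd (x : ℂ)
  rwa [Complex.conj_ofReal] at this

lemma Pot3_Xi_real (hd : Str d) (x : ℝ) : sharp (Xi g d x) = Xi g d x := by
  have := Xi_real (g := g) hd (x : ℂ)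
  rwa [Complex.conj_ofReal] at this

lemma Pot3_aH_sharp (hd : Str d) (r : ℝ) : sharp (aH g d r) = aH g d r := by
  rw [aH, sharp_smul, Complex.conj_ofReal, Pot3_Th_real hd]

lemma Pot3_aL_sharp (hd : Str d) (r : ℝ) : sharp (aL g d r) = aL g d r := by
  rw [aL, sharp_smul, Complex.conj_ofReal, Pot3_Xi_real hd]

lemma Pot3_a1_sharp (hd : Str d) (r : ℝ) : sharp (a1 g d r) = -a1 g d (1 - r) := by
  have e : (ee g : ℂ) * exp (2 * Real.pi * I * r) =
      conj ((ee g : ℂ) * exp (2 * Real.pi * I * ((1 - r : ℝ) : ℂ))) := by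
    rw [map_mul, Complex.conj_ofReal, Pot3_conj_exp]
  have c : conj (2 * Real.pi * I * tt g : ℂ) = -(2 * Real.pi * I * tt g) := by
    simp [Complex.conj_ofReal, map_ofNat]
  rw [a1, a1, sharp_smul, e, Th_real hd, c, neg_smul]

lemma Pot3_aC_sharp (hd : Str d) (c R r : ℝ) : sharp (aC g d c R r) = -aC g d c R (1 - r) := by
  have e : (c : ℂ) + R * exp (2 * Real.pi * I * r) =
      conj ((c : ℂ) + R * exp (2 * Real.pi * I * ((1 - r : ℝ) : ℂ))) := by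
    rw [map_add, map_mul, Complex.conj_ofReal, Complex.conj_ofReal, Pot3_conj_exp]
  have c' : conj (tt g * (2 * Real.pi * I * R * exp (2 * Real.pi * I * r)) : ℂ) =
      -(tt g * (2 * Real.pi * I * R * exp (2 * Real.pi * I * ((1 - r : ℝ) : ℂ)))) := by
    rw [map_mul, map_mul, Pot3_conj_exp']
    simp [Complex.conj_ofReal, map_ofNat]
  rw [aC, aC, sharp_smul, e, Xi_real hd, c', neg_smul]

lemma Pot3_a1_sw (hg : AdmG g) (hd : Str d) (r : ℝ) : sw (a1 g d r) = -a1 g d (1 - r) := by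
  have he : (ee g : ℂ) ≠ 0 := by exact_mod_cast hg.2.1.1.ne'
  have hu : (ee g : ℂ) * exp (2 * Real.pi * I * ((1 - r : ℝ) : ℂ)) ≠ 0 :=
    mul_ne_zero he (Complex.exp_ne_zero _)
  have e : (ee g : ℂ) * exp (2 * Real.pi * I * r) =
      (ee g : ℂ) ^ 2 / ((ee g : ℂ) * exp (2 * Real.pi * I * ((1 - r : ℝ) : ℂ))) := by
    rw [Pot3_exp_rev, Complex.exp_neg]
    have := Complex.exp_ne_zero (2 * Real.pi * I * r)
    field_simp
  rw [a1, a1, map_smul, e, Th_sw hg hd hu, smul_neg]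

section
variable (hg : AdmG g) (hd : Str d)
include hg hd

lemma Pot3_det_TT (i : Fin 3) {r : ℝ} (hr : r ∈ Icc (0:ℝ) 1) : (TT g d i r).det = 1 :=
  det_Hol (continuous_aC hg i).continuousOn (fun s _ => Pot3_aC_tr hd _ _ s) r hr

lemma Pot3_sharp_TT (i : Fin 3) : sharp (TT g d i 1) = adj (TT g d i 1) ∧
    sharp (TT g d i (1/2)) = adj (TT g d i 1) * TT g d i (1/2) :=
  sharp_Hol_rev (continuous_aC hg i).continuousOn (fun s _ => Pot3_aC_tr hd _ _ s)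
    (fun s _ => Pot3_aC_sharp hd _ _ s)

lemma det_HH : (HH g d).det = 1 :=
  det_Hol (continuous_aH hg).continuousOn (fun s _ => Pot3_aH_tr hd s) 1 Pot3_one_mem
lemma sharp_HH : sharp (HH g d) = HH g d :=
  sharp_Hol (continuous_aH hg).continuousOn (fun s _ => Pot3_aH_sharp hd s) 1 Pot3_one_mem
lemma det_R1 : (R1 g d).det = 1 :=
  det_Hol (continuous_a1 hg).continuousOn (fun s _ => Pot3_a1_tr hd s) 1 Pot3_one_mem
lemma sharp_R1 : sharp (R1 g d) = adj (R1 g d) :=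
  (sharp_Hol_rev (continuous_a1 hg).continuousOn (fun s _ => Pot3_a1_tr hd s)
    (fun s _ => Pot3_a1_sharp hd s)).1
lemma sw_R1 : sw (R1 g d) = adj (R1 g d) :=
  sw_Hol_rev (continuous_a1 hg).continuousOn (fun s _ => Pot3_a1_tr hd s)
    (fun s _ => Pot3_a1_sw hg hd s)
lemma det_RR (i : Fin 3) : (RR g d i).det = 1 := by
  rw [RR, Matrix.det_mul, Matrix.det_mul, det_adj, det_HH hg hd, Pot3_det_TT hg hd i Pot3_one_mem]
  simp
lemma sharp_RR (i : Fin 3) : sharp (RR g d i) = adj (RR g d i) := by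
  rw [RR, sharp_mul, sharp_mul, sharp_adj, sharp_HH hg hd, (Pot3_sharp_TT hg hd i).1, adj_mul,
    adj_mul, adj_adj, mul_assoc]
lemma det_Php : (Php g d).det = 1 := by
  rw [Php, Matrix.det_mul, det_HH hg hd, Pot3_det_TT hg hd 0 Pot3_half_mem, one_mul]
lemma sharp_Php : sharp (Php g d) = Phm g d := by
  rw [Phm, Php, RR, sharp_mul, sharp_HH hg hd, (Pot3_sharp_TT hg hd 0).2, adj_mul, adj_mul,
    adj_adj]
  simp only [mul_assoc]
  rw [← mul_assoc (adj (HH g d)), adj_mul_of_det (det_HH hg hd), one_mul]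
lemma det_Phi : (Phi g d).det = 1 := by
  rw [Phi, Matrix.det_mul, det_HH hg hd,
    det_Hol (continuousOn_aL hg) (fun s _ => Pot3_aL_tr hd s) 1 Pot3_one_mem, one_mul]
lemma sharp_Phi : sharp (Phi g d) = Phi g d := by
  rw [Phi, sharp_mul, sharp_HH hg hd,
    sharp_Hol (continuousOn_aL hg) (fun s _ => Pot3_aL_sharp hd s) 1 Pot3_one_mem]
lemma Gf_eq : Gf g d = Bi (Php g d) * Bm (Phi g d) := by
  rw [Gf, Bm, Bi, Bi, st_eq, st_eq, sharp_Php hg hd, sharp_Phi hg hd]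
end

end Pool.Agent.MP_efb2da_gt

end
end

section

open Set Complex
open scoped Topology ComplexConjugate Matrix ContDiff

noncomputable section

namespace Pool.Agent.MP_efb2da_gt

variable {g : Geo} {d : Dat} {Ω : Set ℂ} {Φ : ℂ → MW}

lemma Fr1_sq (w : ℂ) : ‖w - 1‖ ^ 2 = ‖w‖ ^ 2 - 2 * w.re + 1 := by
  rw [Complex.sq_norm, Complex.sq_norm, Complex.normSq_apply, Complex.normSq_apply]
  simp only [sub_re, one_re, sub_im, one_im]
  ring

lemma Fr1_eps (hg : AdmG g) : 8 * ee g ^ 2 < ee g ∧ 8 * ee g ^ 2 < 1/16 ∧ 0 < 8 * ee g ^ 2 := by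
  obtain ⟨-, ⟨h0, h1⟩, -, -⟩ := hg
  refine ⟨by nlinarith, by nlinarith, by positivity⟩

/-- circular arcs from a point of the upper half domain to the imaginary axis stay inside -/
lemma Fr1_arc (hg : AdmG g) {z : ℂ} (hz : z ∈ Dom g) (him : 0 ≤ z.im) {θ : ℝ}
    (hθ : θ ∈ uIcc (arg z) (Real.pi / 2)) : ((‖z‖:ℂ) * exp (θ * I)) ∈ Dom g := by
  obtain ⟨h1, h2, h3, h4⟩ := hz
  have hq := hg.2.2.1.1
  have hr : 0 < ‖z‖ := by linarith
  have hpi := Real.pi_pos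
  have ha0 : 0 ≤ arg z := Complex.arg_nonneg_iff.2 him
  have ha1 : arg z ≤ Real.pi := Complex.arg_le_pi z
  obtain ⟨e1, e2, e3⟩ := Fr1_eps hg
  by_cases hθz : θ = arg z
  · rw [hθz, Complex.norm_mul_exp_arg_mul_I]
    exact ⟨h1, h2, h3, h4⟩
  set w : ℂ := (‖z‖:ℂ) * exp (θ * I) with hw
  have hn : ‖w‖ = ‖z‖ := by
    rw [hw, norm_mul, Complex.norm_exp_ofReal_mul_I]; simp
  have hre : w.re = ‖z‖ * Real.cos θ := by
    rw [hw, Complex.re_ofReal_mul, Complex.exp_ofReal_mul_I_re]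
  have him' : w.im = ‖z‖ * Real.sin θ := by
    rw [hw, Complex.im_ofReal_mul, Complex.exp_ofReal_mul_I_im]
  have hzre : z.re = ‖z‖ * Real.cos (arg z) := (Complex.norm_mul_cos_arg z).symm
  have hθ0 : 0 < θ ∧ θ < Real.pi := by
    rcases mem_uIcc.1 hθ with ⟨a1, a2⟩ | ⟨a1, a2⟩
    · exact ⟨lt_of_le_of_lt ha0 (lt_of_le_of_ne a1 (Ne.symm hθz)), by linarith⟩
    · exact ⟨by linarith, lt_of_lt_of_le (lt_of_le_of_ne a2 hθz) ha1⟩
  refine ⟨by rw [hn]; exact h1, by rw [hn]; exact h2, ?_, fun j hj => ?_⟩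
  · refine lt_of_pow_lt_pow_left₀ 2 (norm_nonneg _) ?_
    rw [Fr1_sq, hn, hre]
    rcases mem_uIcc.1 hθ with ⟨a1, a2⟩ | ⟨a1, a2⟩
    · have hc : Real.cos θ ≤ Real.cos (arg z) :=
        Real.cos_le_cos_of_nonneg_of_le_pi ha0 hθ0.2.le a1
      have h5 : (8 * ee g ^ 2) ^ 2 < ‖z - 1‖ ^ 2 := pow_lt_pow_left₀ h3 e3.le two_ne_zero
      rw [Fr1_sq, hzre] at h5
      nlinarith [mul_le_mul_of_nonneg_left hc hr.le]
    · have hc : Real.cos θ ≤ 0 := Real.cos_nonpos_of_pi_div_two_le_of_le a1 (by linarith [hθ0.2])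
      have h6 : ‖z‖ * Real.cos θ ≤ 0 := mul_nonpos_of_nonneg_of_nonpos hr.le hc
      nlinarith [sq_nonneg ‖z‖]
  · have h7 : w.im = 0 := by rw [hj, Complex.ofReal_im]
    have h8 : 0 < Real.sin θ := Real.sin_pos_of_pos_of_lt_pi hθ0.1 hθ0.2
    rw [him'] at h7
    exact absurd h7 (mul_pos hr h8).ne'

lemma Fr1_base_mem (hg : AdmG g) : (1 + ee g : ℂ) ∈ Dom g := by
  obtain ⟨e1, -, -⟩ := Fr1_eps hg
  obtain ⟨h0, h1⟩ := hg.2.1
  have hn : ‖(ee g : ℂ)‖ = ee g := by rw [Complex.norm_real, Real.norm_of_nonneg h0.le]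
  exact neck_subset_Dom hg (by rw [hn]; exact e1) (by rw [hn]; linarith)

lemma Fr1_tr (hd : Str d) (c z : ℂ) : trW (c • Xi g d z) = 0 := by
  rw [map_smul, Xi_tr hd, smul_zero]

theorem exists_frame (hg : AdmG g) (hd : Str d) : ∃ Ω Φ, Frame g d Ω Φ := by
  obtain ⟨hq0, hq1⟩ := hg.2.2.1
  obtain ⟨e1, e2, e3⟩ := Fr1_eps hg
  have h8 : 0 < 8 * qq g := by linarith
  have hab : 8 * qq g < 1 / (8 * qq g) := by
    rw [lt_div_iff₀ h8]; nlinarith
  have hI : ∀ x ∈ Ioo (8 * qq g) (1 / (8 * qq g)), ((x:ℂ) * I) ∈ Dom g := by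
    intro x hx
    have hx0 : 0 < x := h8.trans hx.1
    have hn : ‖(x:ℂ) * I‖ = x := by
      rw [norm_mul, Complex.norm_I, mul_one, Complex.norm_real, Real.norm_of_nonneg hx0.le]
    refine ⟨by rw [hn]; exact hx.1, ?_, ?_, fun j hj => ?_⟩
    · rw [hn]
      have := (lt_div_iff₀ h8).1 hx.2
      linarith
    · refine lt_of_pow_lt_pow_left₀ 2 (norm_nonneg _) ?_
      have hre : ((x:ℂ) * I).re = 0 := by simp
      rw [Fr1_sq, hn, hre]
      nlinarith [sq_nonneg x]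
    · have := congrArg Complex.im hj
      simp only [mul_im, ofReal_re, I_im, mul_one, ofReal_im, I_re, mul_zero, add_zero] at this
      exact hx0.ne' this
  obtain ⟨Ω, Φ, z₁, ho, hc, hsub, hup, hz₁, h1, hode⟩ :=
    exists_frame_upper (isOpen_Dom g) (ξ := fun z => (tt g : ℂ) • Xi g d z)
      ((Xi_differentiableOn hg hd).fun_const_smul (tt g : ℂ)) h8 hab hI
  have up : ∀ z ∈ Dom g, 0 ≤ z.im → z ∈ Ω := fun z hz him =>
    hup z him hz.1 (by rw [lt_div_iff₀ h8]; linarith [hz.2.1]) fun θ hθ => Fr1_arc hg hz him hθ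
  have hdet : ∀ z ∈ Ω, (Φ z).det = 1 :=
    frame_det ho hc hode (fun z _ => Fr1_tr hd _ z) hz₁ (by rw [h1, Matrix.det_one])
  have hb : (1 + ee g : ℂ) ∈ Ω := up _ (Fr1_base_mem hg) (by simp)
  refine ⟨Ω, fun z => adj (Φ (1 + ee g)) * Φ z, ho, hsub, up, fun z hz => ?_, fun z hz => ?_, ?_⟩
  · rw [mul_assoc]
    exact (hode z hz).const_mul _
  · rw [Matrix.det_mul, det_adj, hdet _ hb, hdet z hz, one_mul]
  · exact adj_mul_of_det (hdet _ hb)

lemma Fr1_det_sharp {M : MW} (h : M.det = 1) : (sharp M).det = 1 := by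
  rw [det_sharp, h]
  have h1 := det_sharp 1
  rw [sharp_one, Matrix.det_one] at h1
  exact h1.symm

lemma Fr1_real_mem (h : Frame g d Ω Φ) {x : ℝ} (hx : (x : ℂ) ∈ Dom g) : (x : ℂ) ∈ Ω :=
  h.up _ hx (by simp)

lemma Fr1_open (h : Frame g d Ω Φ) : IsOpen (Ω ∩ (fun z : ℂ => conj z) ⁻¹' Ω) :=
  h.opn.inter (h.opn.preimage continuous_conj)

/-- the reflected frame differs from the frame by a constant left factor -/
lemma Fr1_ratio (h : Frame g d Ω Φ) (hg : AdmG g) (hd : Str d) {S : Set ℂ}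
    (hS : IsPreconnected S) (hSO : S ⊆ Ω ∩ (fun z : ℂ => conj z) ⁻¹' Ω) {x : ℝ}
    (hx : (x : ℂ) ∈ S) : ∀ z ∈ S, Φ z = arcR Φ x * sharp (Φ (conj z)) := by
  refine frame_ratio (Ψ := fun z => sharp (Φ (conj z))) (ξ := fun z => (tt g : ℂ) • Xi g d z)
    (Fr1_open h) ?_ (fun z hz => h.ode z hz.1) (fun z hz => ?_) hS hSO hx ?_
  · exact (((Xi_differentiableOn hg hd).const_smul (tt g : ℂ)).continuousOn).mono
      fun z hz => h.sub hz.1
  · have := hasDerivAt_sharp_conj (h.ode (conj z) hz.2)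
    rwa [sharp_mul, sharp_smul, Complex.conj_ofReal, Xi_real hd] at this
  · rw [Complex.conj_ofReal, arcR, mul_assoc,
      adj_mul_of_det (Fr1_det_sharp (h.det _ (hSO hx).1)), mul_one]

theorem Frame.arc_local (h : Frame g d Ω Φ) (hg : AdmG g) (hd : Str d) {x : ℝ}
    (hx : (x : ℂ) ∈ Dom g) : ∀ᶠ z in 𝓝 (x : ℂ), z ∈ Ω ∧ conj z ∈ Ω ∧
      Φ z = arcR Φ x * sharp (Φ (conj z)) := by
  have hxO : (x : ℂ) ∈ Ω ∩ (fun z : ℂ => conj z) ⁻¹' Ω := by
    refine ⟨Fr1_real_mem h hx, ?_⟩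
    rw [mem_preimage, Complex.conj_ofReal]
    exact Fr1_real_mem h hx
  obtain ⟨δ, hδ, hb⟩ := Metric.isOpen_iff.1 (Fr1_open h) _ hxO
  filter_upwards [Metric.ball_mem_nhds (x : ℂ) hδ] with z hz
  exact ⟨(hb hz).1, (hb hz).2,
    Fr1_ratio h hg hd (convex_ball _ _).isPreconnected hb (Metric.mem_ball_self hδ) z hz⟩

theorem Frame.arc_const (h : Frame g d Ω Φ) (hg : AdmG g) (hd : Str d) {a b : ℝ}
    (hab : ∀ x ∈ uIcc a b, (x : ℂ) ∈ Dom g) : arcR Φ a = arcR Φ b := by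
  have hS : IsPreconnected ((fun x : ℝ => (x : ℂ)) '' uIcc a b) :=
    isPreconnected_uIcc.image _ Complex.continuous_ofReal.continuousOn
  have hSO : (fun x : ℝ => (x : ℂ)) '' uIcc a b ⊆ Ω ∩ (fun z : ℂ => conj z) ⁻¹' Ω := by
    rintro _ ⟨x, hx, rfl⟩
    refine ⟨Fr1_real_mem h (hab x hx), ?_⟩
    rw [mem_preimage, Complex.conj_ofReal]
    exact Fr1_real_mem h (hab x hx)
  have e := Fr1_ratio h hg hd hS hSO (x := a) ⟨a, left_mem_uIcc, rfl⟩ b ⟨b, right_mem_uIcc, rfl⟩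
  rw [Complex.conj_ofReal] at e
  have hdet := Fr1_det_sharp (h.det _ (Fr1_real_mem h (hab b right_mem_uIcc)))
  calc arcR Φ a = arcR Φ a * sharp (Φ b) * adj (sharp (Φ b)) := by
        rw [mul_assoc, mul_adj_of_det hdet, mul_one]
    _ = arcR Φ b := by rw [← e, arcR]

lemma Fr1_conj_exp (r : ℝ) :
    conj (exp (2 * Real.pi * I * r)) = exp (2 * Real.pi * I * ((1 - r : ℝ) : ℂ)) := by
  rw [← Complex.exp_conj]
  have e : (2 * Real.pi * I * ((1 - r : ℝ) : ℂ)) = conj (2 * Real.pi * I * r : ℂ) +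
      2 * Real.pi * I := by
    simp only [map_mul, Complex.conj_ofReal, Complex.conj_I, map_ofNat]
    push_cast
    ring
  rw [e, Complex.exp_add, Complex.exp_two_pi_mul_I, mul_one]

lemma Fr1_ofReal_deriv (r : ℝ) : HasDerivAt (fun r : ℝ => (r : ℂ)) 1 r :=
  Complex.ofRealCLM.hasDerivAt

theorem Frame.circle (h : Frame g d Ω Φ) (hg : AdmG g) (hd : Str d) {c R : ℝ} (hR : 0 < R)
    (hc : ∀ r : ℝ, ((c : ℂ) + R * exp (2 * Real.pi * I * r)) ∈ Dom g) :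
    Φ ((c - R : ℝ) : ℂ) = Φ ((c + R : ℝ) : ℂ) * Hol (aC g d c R) (1/2) ∧
      arcR Φ (c - R) = Φ ((c + R : ℝ) : ℂ) * Hol (aC g d c R) 1 * adj (Φ ((c + R : ℝ) : ℂ)) *
        arcR Φ (c + R) := by
  have hpi := Real.pi_pos
  have hγc : Continuous fun r : ℝ => (c : ℂ) + R * exp (2 * Real.pi * I * r) := by fun_prop
  have hcont : Continuous (aC g d c R) := by
    have h1 : Continuous fun r : ℝ => Xi g d ((c : ℂ) + R * exp (2 * Real.pi * I * r)) :=
      (Xi_differentiableOn hg hd).continuousOn.comp_continuous hγc hc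
    have h2 : Continuous fun r : ℝ =>
        (tt g : ℂ) * (2 * Real.pi * I * R * exp (2 * Real.pi * I * r)) := by fun_prop
    exact h2.smul h1
  have hγ : ∀ r : ℝ, HasDerivAt (fun r : ℝ => (c : ℂ) + R * exp (2 * Real.pi * I * r))
      (2 * Real.pi * I * R * exp (2 * Real.pi * I * r)) r := by
    intro r
    have h1 := ((((Fr1_ofReal_deriv r).const_mul (2 * Real.pi * I : ℂ)).cexp).const_mul
      (R : ℂ)).const_add (c : ℂ)
    exact h1.congr_deriv (by ring)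
  have hhalf : (1/2 : ℝ) ∈ Icc (0:ℝ) 1 := ⟨by norm_num, by norm_num⟩
  have hO : ∀ r ∈ Icc (0:ℝ) (1/2), (c : ℂ) + R * exp (2 * Real.pi * I * r) ∈ Ω := by
    intro r hr
    refine h.up _ (hc r) ?_
    have e : (2 * Real.pi * I * r : ℂ) = ((2 * Real.pi * r : ℝ) : ℂ) * I := by
      push_cast; ring
    rw [e, add_im, ofReal_im, zero_add, Complex.im_ofReal_mul, Complex.exp_ofReal_mul_I_im]
    refine mul_nonneg hR.le (Real.sin_nonneg_of_nonneg_of_le_pi ?_ ?_)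
    · have := hr.1; positivity
    · nlinarith [hr.2]
  have key := frame_path h.ode hhalf hγ hO hcont.continuousOn (fun r _ => by
    rw [aC, smul_smul, mul_comm (tt g : ℂ)]) (1/2) ⟨by norm_num, le_rfl⟩
  have e0 : (c : ℂ) + R * exp (2 * Real.pi * I * ((0:ℝ) : ℂ)) = ((c + R : ℝ) : ℂ) := by simp
  have e1 : (c : ℂ) + R * exp (2 * Real.pi * I * ((1/2:ℝ) : ℂ)) = ((c - R : ℝ) : ℂ) := by
    have : (2 * Real.pi * I * ((1/2:ℝ) : ℂ)) = Real.pi * I := by push_cast; ring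
    rw [this, Complex.exp_pi_mul_I]; push_cast; ring
  simp only [e0, e1] at key
  refine ⟨key, ?_⟩
  have ht : ∀ r ∈ Icc (0:ℝ) 1, trW (aC g d c R r) = 0 := fun r _ => Fr1_tr hd _ _
  have hs : ∀ r ∈ Icc (0:ℝ) 1, sharp (aC g d c R r) = -aC g d c R (1 - r) := by
    intro r _
    have h1 := Xi_real (g := g) hd (conj ((c : ℂ) + R * exp (2 * Real.pi * I * r)))
    rw [Complex.conj_conj] at h1
    rw [aC, aC, sharp_smul, h1, ← neg_smul]
    simp only [map_add, map_mul, Complex.conj_ofReal, Complex.conj_I, map_ofNat, Fr1_conj_exp]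
    congr 1
    ring
  obtain ⟨-, hf⟩ := sharp_Hol_rev hcont.continuousOn ht hs
  have hdf := det_Hol hcont.continuousOn ht (1/2) hhalf
  have hP : (Φ ((c + R : ℝ) : ℂ)).det = 1 := by
    refine h.det _ ?_
    rw [← e0]
    exact hO 0 ⟨le_rfl, by norm_num⟩
  rw [arcR, arcR, key, sharp_mul, hf, adj_mul, adj_mul, adj_adj]
  set P := Φ ((c + R : ℝ) : ℂ)
  set T := Hol (aC g d c R) 1
  set f := Hol (aC g d c R) (1/2)
  calc P * f * (adj f * T * adj (sharp P)) = P * (f * adj f) * T * adj (sharp P) := by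
        simp only [mul_assoc]
    _ = P * T * (adj P * P) * adj (sharp P) := by
        rw [mul_adj_of_det hdf, adj_mul_of_det hP, mul_one, mul_one]
    _ = P * T * adj P * (P * adj (sharp P)) := by simp only [mul_assoc]

lemma Fr1_exp_deriv (c L r : ℝ) : HasDerivAt (fun r : ℝ => ((c * Real.exp (r * L) : ℝ) : ℂ))
    ((L * (c * Real.exp (r * L)) : ℝ) : ℂ) r := by
  have h1 : HasDerivAt (fun r : ℝ => c * Real.exp (r * L)) (L * (c * Real.exp (r * L))) r := by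
    have := (((hasDerivAt_id r).mul_const L).exp).const_mul c
    exact this.congr_deriv (by simp only [id]; ring)
  exact h1.ofReal_comp

lemma Fr1_exp_bd {L r : ℝ} (hL : 0 < L) (hr : r ∈ Icc (0:ℝ) 1) :
    1 ≤ Real.exp (r * L) ∧ Real.exp (r * L) ≤ Real.exp L :=
  ⟨Real.one_le_exp (mul_nonneg hr.1 hL.le),
    Real.exp_le_exp.2 (by nlinarith [hr.1, hr.2])⟩

theorem Frame.val_HH (h : Frame g d Ω Φ) (hg : AdmG g) (hf : Fix g d) :
    Φ ((17/16 : ℝ) : ℂ) = HH g d := by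
  obtain ⟨e1, -, -⟩ := Fr1_eps hg
  obtain ⟨h0, h1⟩ := hg.2.1
  have hL := La1_pos hg
  have hE : Real.exp (La1 g) = 1 / (16 * ee g) := Real.exp_log (by positivity)
  have hu : ∀ r ∈ Icc (0:ℝ) 1, ee g ≤ ee g * Real.exp (r * La1 g) ∧
      ee g * Real.exp (r * La1 g) ≤ 1/16 := by
    intro r hr
    obtain ⟨b1, b2⟩ := Fr1_exp_bd hL hr
    refine ⟨le_mul_of_one_le_right h0.le b1, ?_⟩
    calc ee g * Real.exp (r * La1 g) ≤ ee g * (1 / (16 * ee g)) := by rw [← hE]; gcongr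
      _ = 1/16 := by field_simp
  have hn : ∀ r ∈ Icc (0:ℝ) 1, ‖((ee g * Real.exp (r * La1 g) : ℝ) : ℂ)‖ =
      ee g * Real.exp (r * La1 g) := fun r hr => by
    rw [Complex.norm_real, Real.norm_of_nonneg (by linarith [(hu r hr).1])]
  have hγ : ∀ r : ℝ, HasDerivAt (fun r : ℝ => 1 + ((ee g * Real.exp (r * La1 g) : ℝ) : ℂ))
      ((La1 g * (ee g * Real.exp (r * La1 g)) : ℝ) : ℂ) r := fun r =>
    (Fr1_exp_deriv _ _ r).const_add 1
  have hO : ∀ r ∈ Icc (0:ℝ) 1, 1 + ((ee g * Real.exp (r * La1 g) : ℝ) : ℂ) ∈ Ω := by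
    intro r hr
    refine h.up _ (neck_subset_Dom hg ?_ ?_) ?_
    · rw [hn r hr]; linarith [(hu r hr).1]
    · rw [hn r hr]; linarith [(hu r hr).2]
    · rw [add_im, one_im, ofReal_im, add_zero]
  have key := frame_path h.ode (right_mem_Icc.2 zero_le_one) hγ hO
    (continuous_aH (d := d) hg).continuousOn (fun r hr => by
      have hne : ((ee g * Real.exp (r * La1 g) : ℝ) : ℂ) ≠ 0 :=
        Complex.ofReal_ne_zero.2 (by positivity)
      rw [aH, Th_eq hg hf hne (by rw [hn r hr]; linarith [(hu r hr).2]), smul_smul, smul_smul]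
      congr 1
      push_cast
      ring) 1 (right_mem_Icc.2 zero_le_one)
  have e0 : 1 + ((ee g * Real.exp (0 * La1 g) : ℝ) : ℂ) = 1 + ee g := by simp
  have e2 : 1 + ((ee g * Real.exp (1 * La1 g) : ℝ) : ℂ) = ((17/16 : ℝ) : ℂ) := by
    have : ee g * Real.exp (1 * La1 g) = 1/16 := by
      rw [one_mul, hE]; field_simp
    rw [this]; push_cast; norm_num
  simp only [e0, e2] at key
  rw [key, h.base, one_mul, HH]

theorem Frame.val_Phi (h : Frame g d Ω Φ) (hg : AdmG g) (hf : Fix g d) :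
    Φ ((1 / (16 * qq g) : ℝ) : ℂ) = Phi g d := by
  obtain ⟨-, e2, -⟩ := Fr1_eps hg
  obtain ⟨h0, h1⟩ := hg.2.2.1
  obtain ⟨⟨-, p0⟩, ⟨-, p1⟩, -, p2⟩ := hg.2.2.2
  have hL := La_pos hg
  have hE : Real.exp (La g) = 1 / (17 * qq g) := Real.exp_log (by positivity)
  have hO : ∀ r ∈ Icc (0:ℝ) 1, ((17/16 * Real.exp (r * La g) : ℝ) : ℂ) ∈ Ω := by
    intro r hr
    obtain ⟨b1, b2⟩ := Fr1_exp_bd hL hr
    have b3 : qq g * Real.exp (r * La g) ≤ 1/17 :=
      calc qq g * Real.exp (r * La g) ≤ qq g * (1 / (17 * qq g)) := by rw [← hE]; gcongr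
        _ = 1/17 := by field_simp
    refine Fr1_real_mem h ?_
    have hn : ‖((17/16 * Real.exp (r * La g) : ℝ) : ℂ)‖ = 17/16 * Real.exp (r * La g) := by
      rw [Complex.norm_real, Real.norm_of_nonneg (by positivity)]
    refine ⟨by rw [hn]; linarith, by rw [hn]; linarith, ?_, fun j hj => ?_⟩
    · rw [← Complex.ofReal_one, ← Complex.ofReal_sub, Complex.norm_real,
        Real.norm_of_nonneg (by linarith)]
      linarith
    · have hj' := Complex.ofReal_injective hj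
      have hp : pp g j ≤ 2/3 := by
        fin_cases j
        · exact p0
        · exact p1.trans (by norm_num)
        · exact p2.trans (by norm_num)
      linarith
  have key := frame_path h.ode (right_mem_Icc.2 zero_le_one) (Fr1_exp_deriv (17/16) (La g)) hO
    (continuousOn_aL (d := d) hg) (fun r hr => by
      rw [aL, smul_smul]
      congr 1
      push_cast
      ring) 1 (right_mem_Icc.2 zero_le_one)
  have e0 : (17/16 * Real.exp (0 * La g) : ℝ) = 17/16 := by simp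
  have e2 : (17/16 * Real.exp (1 * La g) : ℝ) = 1 / (16 * qq g) := by
    rw [one_mul, hE]; field_simp
  simp only [e0, e2] at key
  rw [key, h.val_HH hg hf, Phi]

end Pool.Agent.MP_efb2da_gt

end
end
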