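import Pool.Agent.Mg.Fefb2da.G0699f1
import Pool.Agent.Mg.Fefb2da.G9e868c
import Pool.Agent.Mg.Fefb2da.G7ee8d7
import Pool.Agent.Mg.Fefb2da.G5bb93d

section

open Set Complex
open scoped Topology ComplexConjugate Matrix ContDiff

noncomputable section

namespace Pool.Agent.MP_efb2da_gt

lemma Est2_A (d : Dat) : ‖AA d‖ ≤ ‖d‖ := norm_fst_le d
lemma Est2_G (d : Dat) : ‖GG d‖ ≤ ‖d‖ := (norm_fst_le d.2).trans (norm_snd_le d)
lemma Est2_m (d : Dat) : ‖mm d‖ ≤ ‖d‖ := (norm_snd_le d.2).trans (norm_snd_le d)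
lemma Est2_mv (d : Dat) (i : Fin 3) (z : ℂ) : ‖mv (mm d i) z‖ ≤ ‖mm d‖ :=
  (norm_mv_le _ _).trans (norm_le_pi_norm (mm d) i)

lemma Est2_conj (G M : MW) : ‖G * M * adj G‖ ≤ 2 * ‖G‖ ^ 2 * ‖M‖ := by
  calc ‖G * M * adj G‖ ≤ ‖G‖ * ‖M‖ * ‖adj G‖ := by
        refine (norm_mul_le _ _).trans ?_
        gcongr
        exact norm_mul_le _ _
    _ ≤ ‖G‖ * ‖M‖ * (2 * ‖G‖) := by gcongr; exact norm_adj_le G
    _ = _ := by ring

lemma Est2_conj' (G M : MW) : ‖adj G * M * G‖ ≤ 2 * ‖G‖ ^ 2 * ‖M‖ := by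
  calc ‖adj G * M * G‖ ≤ ‖adj G‖ * ‖M‖ * ‖G‖ := by
        refine (norm_mul_le _ _).trans ?_
        gcongr
        exact norm_mul_le _ _
    _ ≤ (2 * ‖G‖) * ‖M‖ * ‖G‖ := by gcongr; exact norm_adj_le G
    _ = _ := by ring

variable {g : Geo}

lemma Est2_h1 (g : Geo) (d : Dat) (z : ℂ) :
    ‖h1 g d z‖ ≤ ee g ^ 2 / ‖z - 1‖ ^ 2 * ‖mm d‖ := by
  rw [h1, norm_neg, norm_smul, norm_sw, norm_div, norm_pow, norm_pow, Complex.norm_real,
    Real.norm_eq_abs, sq_abs]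
  gcongr
  exact Est2_mv _ _ _

lemma Est2_hinf (hg : AdmG g) (d : Dat) (z : ℂ) :
    ‖hinf g d z‖ ≤ qq g / ‖z‖ ^ 2 * (2 * ‖GG d‖ ^ 2 * ‖mm d‖) := by
  have hq := hg.2.2.1.1
  rw [hinf, norm_smul, norm_div, norm_pow, Complex.norm_real, Real.norm_of_nonneg hq.le]
  gcongr
  refine (Est2_conj _ _).trans ?_
  gcongr
  exact Est2_mv _ _ _

lemma Est2_h0 (hg : AdmG g) (d : Dat) (z : ℂ) :
    ‖h0 g d z‖ ≤ qq g * (2 * ‖GG d‖ ^ 2 * ‖mm d‖) := by
  have hq := hg.2.2.1.1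
  rw [h0, norm_smul, Complex.norm_real, Real.norm_of_nonneg hq.le]
  gcongr
  refine (Est2_conj' _ _).trans ?_
  gcongr
  exact Est2_mv _ _ _

lemma Est2_div {a x : ℝ} (ha : 0 ≤ a) (hx : 1/16 ≤ x) : a / x ^ 2 ≤ 256 * a := by
  have h0 : 0 < x := by linarith
  rw [div_le_iff₀ (by positivity)]
  have : 1 ≤ 256 * x ^ 2 := by nlinarith
  nlinarith

lemma Est2_h1' (hg : AdmG g) (d : Dat) {z : ℂ} (hz : 1/16 ≤ ‖z - 1‖) :
    ‖h1 g d z‖ ≤ 256 * ee g * ‖mm d‖ := by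
  obtain ⟨-, ⟨he, he'⟩, -⟩ := hg
  refine (Est2_h1 g d z).trans ?_
  gcongr
  refine (Est2_div (sq_nonneg _) hz).trans ?_
  nlinarith

lemma Est2_hinf' (hg : AdmG g) (d : Dat) {z : ℂ} (hz : 1/16 ≤ ‖z‖) :
    ‖hinf g d z‖ ≤ 256 * qq g * (2 * ‖GG d‖ ^ 2 * ‖mm d‖) := by
  refine (Est2_hinf hg d z).trans ?_
  gcongr
  exact Est2_div hg.2.2.1.1.le hz

lemma Est2_rat (g : Geo) (d : Dat) (s : Finset (Fin 5)) {z : ℂ}
    (hz : ∀ j ∈ s, 1/16 ≤ ‖z - pos (pp g) j‖) : ‖rat g d s z‖ ≤ 80 * ‖AA d‖ := by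
  have h1 : ∀ j ∈ s, ‖(z - pos (pp g) j)⁻¹ • AA d j‖ ≤ 16 * ‖AA d‖ := by
    intro j hj
    rw [norm_smul, norm_inv]
    have h2 := hz j hj
    have h3 : ‖z - pos (pp g) j‖⁻¹ ≤ 16 := by
      rw [inv_le_comm₀ (by linarith) (by norm_num)]
      linarith
    gcongr
    exact norm_le_pi_norm (AA d) j
  have h4 : (s.card : ℝ) ≤ 5 := by
    have := Finset.card_le_univ s
    rw [Fintype.card_fin] at this
    exact_mod_cast this
  calc ‖rat g d s z‖ ≤ ∑ j ∈ s, 16 * ‖AA d‖ := norm_sum_le_of_le s h1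
    _ = s.card * (16 * ‖AA d‖) := by rw [Finset.sum_const, nsmul_eq_mul]
    _ ≤ 5 * (16 * ‖AA d‖) := by gcongr
    _ = _ := by ring

/-- the three corrections away from `0` and `1` -/
lemma Est2_corr (hg : AdmG g) {d : Dat} {N : ℝ} (hd : ‖d‖ ≤ N) {z : ℂ} (hz : 1/16 ≤ ‖z‖)
    (hz1 : 1/16 ≤ ‖z - 1‖) :
    ‖h1 g d z + hinf g d z + h0 g d z‖ ≤ (256 * N + 514 * N ^ 3) * (ee g + qq g) := by
  have hN : 0 ≤ N := (norm_nonneg d).trans hd
  have hG := (Est2_G d).trans hd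
  have hm := (Est2_m d).trans hd
  have he := hg.2.1.1
  have hq := hg.2.2.1.1
  have h3 : 2 * ‖GG d‖ ^ 2 * ‖mm d‖ ≤ 2 * N ^ 3 := by
    calc 2 * ‖GG d‖ ^ 2 * ‖mm d‖ ≤ 2 * N ^ 2 * N := by gcongr
      _ = _ := by ring
  have a1 : ‖h1 g d z‖ ≤ 256 * ee g * N := (Est2_h1' hg d hz1).trans (by gcongr)
  have a2 : ‖hinf g d z‖ ≤ 256 * qq g * (2 * N ^ 3) := (Est2_hinf' hg d hz).trans (by gcongr)
  have a3 : ‖h0 g d z‖ ≤ qq g * (2 * N ^ 3) := (Est2_h0 hg d z).trans (by gcongr)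
  have a4 := norm_add₃_le (a := h1 g d z) (b := hinf g d z) (c := h0 g d z)
  have a5 : 0 ≤ qq g * N := by positivity
  have a6 : 0 ≤ ee g * N ^ 3 := by positivity
  nlinarith

/-- a point close to one puncture is far from the others -/
lemma Est2_sep (hg : AdmG g) {i j : Fin 5} (hij : j ≠ i) {z : ℂ}
    (hz : ‖z - pos (pp g) i‖ ≤ 1/8) : 1/16 ≤ ‖z - pos (pp g) j‖ := by
  have h1 := pos_sep hg.2.2.2 hij
  have h2 : ‖((pos (pp g) j : ℝ) : ℂ) - (pos (pp g) i : ℝ)‖ = |pos (pp g) j - pos (pp g) i| := by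
    rw [← Complex.ofReal_sub, Complex.norm_real, Real.norm_eq_abs]
  have h3 : ((pos (pp g) j : ℝ) : ℂ) - (pos (pp g) i : ℝ) =
      (z - pos (pp g) i) - (z - pos (pp g) j) := by ring
  have h4 := norm_sub_le (z - pos (pp g) i) (z - pos (pp g) j)
  rw [← h3, h2] at h4
  linarith

lemma Est2_pos0 (p : Fin 3 → ℝ) : pos p 0 = 0 := rfl
lemma Est2_pos1 (p : Fin 3 → ℝ) : pos p 1 = 1 := rfl

/-- which punctures lie inside the three circles -/
lemma Est2_ins {p : Fin 3 → ℝ} (h : AdmP p) (i : Fin 3) (j : Fin 5) :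
    (j ∈ ins i → |pos p j - cen i| < rad i) ∧ (j ∉ ins i → rad i < |pos p j - cen i|) := by
  obtain ⟨⟨a1, a2⟩, ⟨b1, b2⟩, c1, c2⟩ := h
  fin_cases i <;> fin_cases j <;> simp [ins, pos, cen, rad, abs_lt, lt_abs] <;>
    first
      | (constructor <;> linarith)
      | (left; linarith)
      | (right; linarith)

lemma Est2_rad (i : Fin 3) : 0 < rad i ∧ rad i ≤ 2 := by
  fin_cases i <;> simp [rad] <;> norm_num

/-- the winding integral -/
lemma Est2_wind (c p R : ℝ) :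
    (∫ r in (0:ℝ)..1, (2 * Real.pi * I * R * exp (2 * Real.pi * I * r)) *
      ((c : ℂ) + R * exp (2 * Real.pi * I * r) - p)⁻¹) = ∮ z in C((c : ℂ), R), (z - p)⁻¹ := by
  have h := intervalIntegral.smul_integral_comp_mul_left
    (fun θ : ℝ => deriv (circleMap (c : ℂ) R) θ • (circleMap (c : ℂ) R θ - p)⁻¹)
    (a := 0) (b := 1) (2 * Real.pi)
  rw [mul_zero, mul_one] at h
  rw [circleIntegral, ← h, ← intervalIntegral.integral_smul]
  refine intervalIntegral.integral_congr fun r _ => ?_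
  simp only [deriv_circleMap, circleMap, smul_eq_mul, Complex.real_smul, zero_add]
  have e : ((2 * Real.pi * r : ℝ) : ℂ) * I = 2 * Real.pi * I * r := by push_cast; ring
  rw [e]
  push_cast
  ring

lemma Est2_wind_in {c p R : ℝ} (h : |p - c| < R) :
    (∮ z in C((c : ℂ), R), (z - p)⁻¹) = 2 * Real.pi * I := by
  apply circleIntegral.integral_sub_inv_of_mem_ball
  rw [mem_ball_iff_norm, ← Complex.ofReal_sub, Complex.norm_real, Real.norm_eq_abs]
  exact h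

lemma Est2_wind_out {c p R : ℝ} (hR : 0 < R) (h : R < |p - c|) :
    (∮ z in C((c : ℂ), R), (z - p)⁻¹) = 0 := by
  have hne : ∀ z ∈ Metric.closedBall (c : ℂ) R, z - p ≠ 0 := by
    intro z hz h0
    rw [sub_eq_zero] at h0
    rw [h0, mem_closedBall_iff_norm, ← Complex.ofReal_sub, Complex.norm_real,
      Real.norm_eq_abs] at hz
    linarith
  refine Complex.circleIntegral_eq_zero_of_differentiable_on_off_countable hR.le
    (s := ∅) countable_empty ?_ ?_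
  · exact (continuousOn_id.sub continuousOn_const).inv₀ hne
  · intro z hz
    exact (differentiableAt_id.sub_const _).inv (hne z (Metric.ball_subset_closedBall hz.1))

lemma Est2_Sof_add (t : ℝ) (X Y : MW) : Sof t (X + Y) = Sof t X + Sof t Y := by
  rw [Sof, Sof, Sof, ← smul_add, map_add]
  congr 1
  abel

lemma Est2_Sof_one (t : ℝ) : Sof t 1 = 0 := by simp [Sof]

lemma Est2_Sof_tr {t : ℝ} (ht : t ≠ 0) {A : MW} (hA : trW A = 0) :
    Sof t ((2 * Real.pi * I * t : ℂ) • A) = A := by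
  have h1 : (t : ℂ) ≠ 0 := by exact_mod_cast ht
  have h2 : (Real.pi : ℂ) ≠ 0 := by exact_mod_cast Real.pi_ne_zero
  rw [Sof, map_smul, adj_of_tr hA, smul_neg, sub_neg_eq_add, ← add_smul, smul_smul]
  have : (4 * Real.pi * I * t : ℂ)⁻¹ * (2 * Real.pi * I * t + 2 * Real.pi * I * t) = 1 := by
    field_simp
    ring
  rw [this, one_smul]

lemma Est2_Sof_le {t : ℝ} (ht : 0 < t) (X : MW) : ‖Sof t X‖ ≤ ‖X‖ / t := by
  have h1 : ‖X - adj X‖ ≤ 3 * ‖X‖ := by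
    have := norm_sub_le X (adj X)
    have := norm_adj_le X
    linarith
  have h2 : ‖(4 * Real.pi * I * t : ℂ)‖ = 4 * Real.pi * t := by
    simp [abs_of_pos ht, abs_of_pos Real.pi_pos]
  rw [Sof, norm_smul, norm_inv, h2, le_div_iff₀ ht]
  have h3 := Real.pi_gt_three
  have h4 : (4 * Real.pi * t)⁻¹ * ‖X - adj X‖ * t = ‖X - adj X‖ / (4 * Real.pi) := by
    field_simp
  rw [h4, div_le_iff₀ (by positivity)]
  have := norm_nonneg X
  nlinarith

end Pool.Agent.MP_efb2da_gt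

end
end

section

open Set Complex
open scoped Topology ComplexConjugate Matrix ContDiff

noncomputable section

namespace Pool.Agent.MP_efb2da_gt

/-- the neck corrections are small away from the necks -/
theorem est_corr (N : ℝ) : ∃ C, ∀ (g : Geo) (d : Dat) (z : ℂ), AdmG g → ‖d‖ ≤ N → z ≠ 0 →
    1/32 ≤ ‖z - 1‖ → ‖z • (h1 g d z + hinf g d z + h0 g d z)‖ ≤
      C * (ee g + qq g / ‖z‖ + qq g * ‖z‖) := by
  refine ⟨1056 * N + 2 * N ^ 3, fun g d z hg hd hz hz1 => ?_⟩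
  have hN : 0 ≤ N := (norm_nonneg d).trans hd
  have hG := (Est2_G d).trans hd
  have hm := (Est2_m d).trans hd
  have he := hg.2.1.1
  have he' := hg.2.1.2
  have hq := hg.2.2.1.1
  have hz0 : 0 < ‖z‖ := norm_pos_iff.2 hz
  have hz2 : 0 < ‖z - 1‖ := by linarith
  have h3 : 2 * ‖GG d‖ ^ 2 * ‖mm d‖ ≤ 2 * N ^ 3 := by
    calc 2 * ‖GG d‖ ^ 2 * ‖mm d‖ ≤ 2 * N ^ 2 * N := by gcongr
      _ = _ := by ring
  have h4 : ‖z‖ ≤ 1056 * ‖z - 1‖ ^ 2 := by
    have h5 : ‖z‖ ≤ ‖z - 1‖ + 1 := by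
      have := norm_add_le (z - 1) 1
      rwa [sub_add_cancel, norm_one] at this
    nlinarith
  have a1 : ‖z‖ * ‖h1 g d z‖ ≤ 1056 * N * ee g := by
    calc ‖z‖ * ‖h1 g d z‖ ≤ (1056 * ‖z - 1‖ ^ 2) * (ee g ^ 2 / ‖z - 1‖ ^ 2 * N) := by
          gcongr
          exact (Est2_h1 g d z).trans (by gcongr)
      _ = 1056 * N * ee g * ee g := by field_simp
      _ ≤ 1056 * N * ee g * 1 := by gcongr; linarith
      _ = _ := mul_one _
  have a2 : ‖z‖ * ‖hinf g d z‖ ≤ 2 * N ^ 3 * (qq g / ‖z‖) := by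
    calc ‖z‖ * ‖hinf g d z‖ ≤ ‖z‖ * (qq g / ‖z‖ ^ 2 * (2 * N ^ 3)) := by
          gcongr
          exact (Est2_hinf hg d z).trans (by gcongr)
      _ = _ := by field_simp
  have a3 : ‖z‖ * ‖h0 g d z‖ ≤ 2 * N ^ 3 * (qq g * ‖z‖) := by
    calc ‖z‖ * ‖h0 g d z‖ ≤ ‖z‖ * (qq g * (2 * N ^ 3)) := by
          gcongr
          exact (Est2_h0 hg d z).trans (by gcongr)
      _ = _ := by ring
  have a4 : ‖z • (h1 g d z + hinf g d z + h0 g d z)‖ ≤
      ‖z‖ * (‖h1 g d z‖ + ‖hinf g d z‖ + ‖h0 g d z‖) := by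
    rw [norm_smul]
    gcongr
    exact norm_add₃_le
  have b1 : 0 ≤ N * (qq g / ‖z‖) := by positivity
  have b2 : 0 ≤ N * (qq g * ‖z‖) := by positivity
  have b3 : 0 ≤ N ^ 3 * ee g := by positivity
  nlinarith

lemma Est2_norm_vel {R : ℝ} (hR : 0 < R) (hR' : R ≤ 2) (r : ℝ) :
    ‖(2 * Real.pi * I * R * exp (2 * Real.pi * I * r) : ℂ)‖ ≤ 16 := by
  have e : (2 * Real.pi * I * r : ℂ) = ((2 * Real.pi * r : ℝ) : ℂ) * I := by push_cast; ring
  rw [norm_mul, e, Complex.norm_exp_ofReal_mul_I, mul_one]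
  have h2 : ‖(2 * Real.pi * I * R : ℂ)‖ = 2 * Real.pi * R := by
    simp [abs_of_pos hR, abs_of_pos Real.pi_pos]
  rw [h2]
  have := Real.pi_lt_four
  nlinarith

/-- the integral of the rational part along a circle -/
lemma Est2_int_rat {g : Geo} (hg : AdmG g) (d : Dat) (i : Fin 3) :
    (∫ r in (0:ℝ)..1, (tt g * (2 * Real.pi * I * rad i * exp (2 * Real.pi * I * r)) : ℂ) •
      rat g d Finset.univ (cen i + rad i * exp (2 * Real.pi * I * r))) =
      (2 * Real.pi * I * tt g : ℂ) • ∑ j ∈ ins i, AA d j := by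
  have hne : ∀ (j : Fin 5) (r : ℝ),
      (cen i : ℂ) + rad i * exp (2 * Real.pi * I * r) - pos (pp g) j ≠ 0 := by
    intro j r h0
    have := circle_sep hg i r j
    rw [h0, norm_zero] at this
    linarith
  have hc : ∀ j : Fin 5, Continuous fun r : ℝ =>
      (2 * Real.pi * I * rad i * exp (2 * Real.pi * I * r) : ℂ) *
        ((cen i : ℂ) + rad i * exp (2 * Real.pi * I * r) - pos (pp g) j)⁻¹ := fun j =>
    Continuous.mul (by fun_prop) (Continuous.inv₀ (by fun_prop) (hne j))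
  have e1 : (fun r : ℝ => (tt g * (2 * Real.pi * I * rad i * exp (2 * Real.pi * I * r)) : ℂ) •
      rat g d Finset.univ (cen i + rad i * exp (2 * Real.pi * I * r))) = fun r : ℝ =>
      ∑ j : Fin 5, ((2 * Real.pi * I * rad i * exp (2 * Real.pi * I * r) : ℂ) *
        ((cen i : ℂ) + rad i * exp (2 * Real.pi * I * r) - pos (pp g) j)⁻¹) •
          ((tt g : ℂ) • AA d j) := by
    funext r
    rw [rat, Finset.smul_sum]
    refine Finset.sum_congr rfl fun j _ => ?_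
    rw [smul_smul, smul_smul]
    congr 1
    ring
  have hc' : ∀ j : Fin 5, Continuous fun r : ℝ =>
      ((2 * Real.pi * I * rad i * exp (2 * Real.pi * I * r) : ℂ) *
        ((cen i : ℂ) + rad i * exp (2 * Real.pi * I * r) - pos (pp g) j)⁻¹) •
          ((tt g : ℂ) • AA d j) := fun j => (hc j).smul continuous_const
  rw [e1, intervalIntegral.integral_finsetSum (fun j _ => (hc' j).intervalIntegrable _ _)]
  have e2 : ∀ j : Fin 5, (∫ r in (0:ℝ)..1,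
      ((2 * Real.pi * I * rad i * exp (2 * Real.pi * I * r) : ℂ) *
        ((cen i : ℂ) + rad i * exp (2 * Real.pi * I * r) - pos (pp g) j)⁻¹) •
          ((tt g : ℂ) • AA d j)) =
      if j ∈ ins i then (2 * Real.pi * I * tt g : ℂ) • AA d j else 0 := by
    intro j
    rw [intervalIntegral.integral_smul_const, Est2_wind]
    split_ifs with hj
    · rw [Est2_wind_in ((Est2_ins hg.2.2.2 i j).1 hj), smul_smul]
    · rw [Est2_wind_out (Est2_rad i).1 ((Est2_ins hg.2.2.2 i j).2 hj), zero_smul]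
  rw [Finset.sum_congr rfl fun j _ => e2 j, Finset.sum_ite_mem, Finset.univ_inter,
    Finset.smul_sum]

theorem est_T (N : ℝ) : ∃ C, ∀ (g : Geo) (d : Dat) (i : Fin 3), AdmG g → ‖d‖ ≤ N →
    (∀ j, trW (AA d j) = 0) → (∀ r ∈ Icc (0:ℝ) 1, ‖TT g d i r - 1‖ ≤ C * tt g) ∧
      ‖Sof (tt g) (TT g d i 1) - ∑ j ∈ ins i, AA d j‖ ≤ C * (tt g + ee g + qq g) := by
  set K2 : ℝ := 256 * N + 514 * N ^ 3 with hK2
  set K1 : ℝ := 16 * (80 * N + K2) with hK1
  refine ⟨K1 * Real.exp K1 + K1 ^ 2 * Real.exp K1 + 16 * K2, fun g d i hg hd htr => ?_⟩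
  have hN : 0 ≤ N := (norm_nonneg d).trans hd
  have hK2p : 0 ≤ K2 := by positivity
  have hK1p : 0 ≤ K1 := by positivity
  have ht := hg.1.1
  have ht' := hg.1.2
  have he := hg.2.1.1
  have he' := hg.2.1.2
  have hq := hg.2.2.1.1
  have hq' := hg.2.2.1.2
  set z : ℝ → ℂ := fun r => (cen i : ℂ) + rad i * exp (2 * Real.pi * I * r) with hz
  set v : ℝ → ℂ := fun r => tt g * (2 * Real.pi * I * rad i * exp (2 * Real.pi * I * r)) with hv
  have hvn : ∀ r, ‖v r‖ ≤ tt g * 16 := fun r => by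
    rw [hv]
    simp only
    rw [norm_mul, Complex.norm_real, Real.norm_of_nonneg ht.le]
    gcongr
    exact Est2_norm_vel (Est2_rad i).1 (Est2_rad i).2 r
  have hcorr : ∀ r, ‖h1 g d (z r) + hinf g d (z r) + h0 g d (z r)‖ ≤ K2 * (ee g + qq g) := by
    intro r
    refine Est2_corr hg hd ?_ ?_
    · simpa [Est2_pos0] using circle_sep hg i r 0
    · simpa [Est2_pos1] using circle_sep hg i r 1
  have hrat : ∀ r, ‖rat g d Finset.univ (z r)‖ ≤ 80 * N := fun r =>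
    (Est2_rat g d _ fun j _ => circle_sep hg i r j).trans
      (by gcongr; exact (Est2_A d).trans hd)
  have hsplit : ∀ r, aC g d (cen i) (rad i) r = v r • rat g d Finset.univ (z r) +
      v r • (h1 g d (z r) + hinf g d (z r) + h0 g d (z r)) := by
    intro r
    rw [← smul_add, aC, Xi]
    congr 1
    abel
  have hc2 : ∀ r, ‖v r • (h1 g d (z r) + hinf g d (z r) + h0 g d (z r))‖ ≤
      tt g * 16 * (K2 * (ee g + qq g)) := fun r => by
    rw [norm_smul]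
    gcongr
    · exact hvn r
    · exact hcorr r
  have hK : ∀ r ∈ Icc (0:ℝ) 1, ‖aC g d (cen i) (rad i) r‖ ≤ tt g * K1 := by
    intro r _
    rw [hsplit]
    have b1 : ‖v r • rat g d Finset.univ (z r)‖ ≤ tt g * 16 * (80 * N) := by
      rw [norm_smul]
      gcongr
      · exact hvn r
      · exact hrat r
    have b2 : tt g * 16 * (K2 * (ee g + qq g)) ≤ tt g * 16 * (K2 * 1) := by
      gcongr; linarith
    have b3 := norm_add_le (v r • rat g d Finset.univ (z r))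
      (v r • (h1 g d (z r) + hinf g d (z r) + h0 g d (z r)))
    have b4 := hc2 r
    rw [hK1]
    linarith
  have hca : Continuous (aC g d (cen i) (rad i)) := continuous_aC hg i
  have hexp : Real.exp (tt g * K1) ≤ Real.exp K1 :=
    Real.exp_le_exp.2 (mul_le_of_le_one_left hK1p ht')
  have p1 : 0 ≤ K1 * Real.exp K1 := by positivity
  have p2 : 0 ≤ K1 ^ 2 * Real.exp K1 := by positivity
  refine ⟨fun r hr => ?_, ?_⟩
  · have h1 := norm_Hol_sub_one_le hca.continuousOn hK r hr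
    calc ‖TT g d i r - 1‖ ≤ tt g * K1 * Real.exp (tt g * K1) := h1
      _ ≤ tt g * K1 * Real.exp K1 := by gcongr
      _ = K1 * Real.exp K1 * tt g := by ring
      _ ≤ _ := by gcongr; linarith
  · have h2 := norm_Hol_second hca.continuousOn hK
    have hne : ∀ (j : Fin 5) (r : ℝ), z r - pos (pp g) j ≠ 0 := by
      intro j r h0
      have := circle_sep hg i r j
      rw [show (cen i : ℂ) + rad i * exp (2 * Real.pi * I * r) = z r from rfl, h0,
        norm_zero] at this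
      linarith
    have hcz : Continuous z := by rw [hz]; fun_prop
    have hcv : Continuous v := by rw [hv]; fun_prop
    have hcr : Continuous fun r => v r • rat g d Finset.univ (z r) := by
      refine hcv.smul ?_
      unfold rat
      exact continuous_finsetSum _ fun j _ =>
        ((hcz.sub continuous_const).inv₀ (hne j)).smul continuous_const
    set E' : MW := ∫ r in (0:ℝ)..1, (aC g d (cen i) (rad i) r - v r • rat g d Finset.univ (z r))
      with hE'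
    have hE'n : ‖E'‖ ≤ tt g * 16 * (K2 * (ee g + qq g)) := by
      have := intervalIntegral.norm_integral_le_of_norm_le_const (a := 0) (b := 1)
        (f := fun r => aC g d (cen i) (rad i) r - v r • rat g d Finset.univ (z r))
        (C := tt g * 16 * (K2 * (ee g + qq g))) (fun r _ => by
          rw [hsplit, add_sub_cancel_left]; exact hc2 r)
      simpa using this
    have hint : (∫ r in (0:ℝ)..1, aC g d (cen i) (rad i) r) =
        (2 * Real.pi * I * tt g : ℂ) • ∑ j ∈ ins i, AA d j + E' := by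
      rw [hE', intervalIntegral.integral_sub (hca.intervalIntegrable _ _)
        (hcr.intervalIntegrable _ _), ← Est2_int_rat hg d i]
      abel
    set E : MW := Hol (aC g d (cen i) (rad i)) 1 - 1 - ∫ r in (0:ℝ)..1, aC g d (cen i) (rad i) r
      with hE
    have hT : TT g d i 1 = 1 + (2 * Real.pi * I * tt g : ℂ) • ∑ j ∈ ins i, AA d j + (E + E') := by
      rw [hE, hint, TT]
      abel
    have htr' : trW (∑ j ∈ ins i, AA d j) = 0 := by
      rw [map_sum]; exact Finset.sum_eq_zero fun j _ => htr j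
    rw [hT, Est2_Sof_add, Est2_Sof_add, Est2_Sof_one, Est2_Sof_tr ht.ne' htr', zero_add,
      add_sub_cancel_left]
    refine (Est2_Sof_le ht _).trans ?_
    rw [div_le_iff₀ ht]
    have h3 : ‖E‖ ≤ (tt g * K1) ^ 2 * Real.exp K1 := h2.trans (by gcongr)
    have h4 := norm_add_le E E'
    have q1 : 0 ≤ K1 * Real.exp K1 * (tt g + ee g + qq g) * tt g := by positivity
    have q2 : 0 ≤ K1 ^ 2 * Real.exp K1 * (ee g + qq g) * tt g := by positivity
    have q3 : 0 ≤ 16 * K2 * tt g * tt g := by positivity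
    nlinarith

theorem Sof_RR (g : Geo) (d : Dat) (i : Fin 3) :
    Sof (tt g) (RR g d i) = HH g d * Sof (tt g) (TT g d i 1) * adj (HH g d) := by
  rw [Sof, Sof, RR, adj_mul, adj_mul, adj_adj, mul_smul_comm, smul_mul_assoc, mul_sub, sub_mul,
    mul_assoc (HH g d) (adj (TT g d i 1))]

theorem est_reg (N : ℝ) : ∃ C, ∀ (g : Geo) (d : Dat) (j : Fin 3) (z : ℂ), AdmG g → ‖d‖ ≤ N →
    ‖z - pp g j‖ ≤ 1/8 → ‖reg g d (cj5 j) z‖ ≤ C ∧
      ‖reg g d (cj5 j) z - rat g d (Finset.univ.erase (cj5 j)) z‖ ≤ C * (ee g + qq g) := by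
  refine ⟨80 * N + (256 * N + 514 * N ^ 3), fun g d j z hg hd hz => ?_⟩
  have hN : 0 ≤ N := (norm_nonneg d).trans hd
  have he := hg.2.1.1
  have he' := hg.2.1.2
  have hq := hg.2.2.1.1
  have hq' := hg.2.2.1.2
  rw [← pos_cj5 (pp g) j] at hz
  have n0 : (0 : Fin 5) ≠ cj5 j := by fin_cases j <;> simp [cj5]
  have n1 : (1 : Fin 5) ≠ cj5 j := by fin_cases j <;> simp [cj5]
  have hcorr := Est2_corr hg hd (z := z) (by simpa [Est2_pos0] using Est2_sep hg n0 hz)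
    (by simpa [Est2_pos1] using Est2_sep hg n1 hz)
  have hrat : ‖rat g d (Finset.univ.erase (cj5 j)) z‖ ≤ 80 * N :=
    (Est2_rat g d _ fun k hk => Est2_sep hg (Finset.ne_of_mem_erase hk) hz).trans
      (by gcongr; exact (Est2_A d).trans hd)
  have e : reg g d (cj5 j) z = rat g d (Finset.univ.erase (cj5 j)) z +
      (h1 g d z + hinf g d z + h0 g d z) := by rw [reg]; abel
  have hK : 0 ≤ 256 * N + 514 * N ^ 3 := by positivity
  constructor
  · rw [e]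
    refine (norm_add_le _ _).trans (add_le_add hrat (hcorr.trans ?_))
    exact mul_le_of_le_one_right hK (by linarith)
  · rw [e, add_sub_cancel_left]
    exact hcorr.trans (mul_le_mul_of_nonneg_right (by linarith) (by linarith))

lemma Est2_Mf {g : Geo} (hg : AdmG g) (d : Dat) (i : Fin 3) {w : ℂ} (hw : ‖w‖ ≤ 1/8) :
    ‖Mf g d i w‖ ≤ 80 * ‖AA d‖ + 256 * ee g * ‖mm d‖ +
      257 * qq g * (2 * ‖GG d‖ ^ 2 * ‖mm d‖) := by
  have he := hg.2.1.1
  have he' := hg.2.1.2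
  have hq := hg.2.2.1.1
  have p1 : 0 ≤ 256 * ee g * ‖mm d‖ := by positivity
  have p2 : 0 ≤ qq g * (2 * ‖GG d‖ ^ 2 * ‖mm d‖) := by positivity
  fin_cases i
  · show ‖M0 g d w‖ ≤ _
    have hw0 : ‖w - pos (pp g) 0‖ ≤ 1/8 := by simpa [Est2_pos0] using hw
    have a1 := Est2_rat g d (Finset.univ.erase 0) (z := w)
      fun k hk => Est2_sep hg (Finset.ne_of_mem_erase hk) hw0
    have a2 := Est2_h1' hg d (z := w)
      (by simpa [Est2_pos1] using Est2_sep hg (i := 0) (j := 1) (by decide) hw0)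
    have a3 := Est2_h0 hg d w
    have a4 := norm_add₃_le (a := rat g d (Finset.univ.erase 0) w) (b := h1 g d w)
      (c := h0 g d w)
    rw [M0]
    linarith
  · show ‖M1 g d w‖ ≤ _
    have hw0 : ‖1 + w - pos (pp g) 1‖ ≤ 1/8 := by simpa [Est2_pos1] using hw
    have a1 := Est2_rat g d (Finset.univ.erase 1) (z := 1 + w)
      fun k hk => Est2_sep hg (Finset.ne_of_mem_erase hk) hw0
    have a2 := Est2_hinf' hg d (z := 1 + w)
      (by simpa [Est2_pos0] using Est2_sep hg (i := 1) (j := 0) (by decide) hw0)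
    have a3 := Est2_h0 hg d (1 + w)
    have a4 := norm_add₃_le (a := rat g d (Finset.univ.erase 1) (1 + w)) (b := hinf g d (1 + w))
      (c := h0 g d (1 + w))
    rw [M1]
    linarith
  · show ‖M2 g d w‖ ≤ _
    have a0 : ∀ j : Fin 5, ‖((pos (pp g) j : ℂ) / (1 - pos (pp g) j * w)) • AA d j‖ ≤
        16 * ‖AA d‖ := by
      intro j
      have b1 : ‖(pos (pp g) j : ℂ)‖ ≤ 11/10 := by
        rw [Complex.norm_real, Real.norm_eq_abs]; exact abs_pos_le hg.2.2.2 j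
      have b2 : ‖(pos (pp g) j : ℂ) * w‖ ≤ 11/10 * (1/8) := by
        rw [norm_mul]; gcongr
      have b3 : 1/2 ≤ ‖1 - (pos (pp g) j : ℂ) * w‖ := by
        have := norm_sub_norm_le (1 : ℂ) ((pos (pp g) j : ℂ) * w)
        rw [norm_one] at this
        linarith
      have b4 : ‖(pos (pp g) j : ℂ) / (1 - pos (pp g) j * w)‖ ≤ 16 := by
        rw [norm_div, div_le_iff₀ (by linarith)]
        linarith
      rw [norm_smul]
      gcongr
      exact norm_le_pi_norm (AA d) j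
    have a1 : ‖∑ j, ((pos (pp g) j : ℂ) / (1 - pos (pp g) j * w)) • AA d j‖ ≤ 80 * ‖AA d‖ := by
      refine (norm_sum_le_of_le _ fun j _ => a0 j).trans ?_
      rw [Finset.sum_const, Finset.card_univ, Fintype.card_fin, nsmul_eq_mul]
      push_cast
      linarith
    have b5 : 1/16 ≤ ‖1 - w‖ := by
      have := norm_sub_norm_le (1 : ℂ) w
      rw [norm_one] at this
      linarith
    have a2 : ‖((ee g : ℂ) ^ 2 / (1 - w) ^ 2) • sw (mv (mm d 1) ((ee g : ℂ) ^ 2 * w / (1 - w)))‖ ≤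
        256 * ee g * ‖mm d‖ := by
      rw [norm_smul, norm_sw, norm_div, norm_pow, norm_pow, Complex.norm_real,
        Real.norm_eq_abs, sq_abs]
      gcongr
      · refine (Est2_div (sq_nonneg _) b5).trans ?_
        nlinarith
      · exact Est2_mv _ _ _
    have a3 : ‖(qq g : ℂ) • (GG d * mv (mm d 2) ((qq g : ℂ) * w) * adj (GG d))‖ ≤
        qq g * (2 * ‖GG d‖ ^ 2 * ‖mm d‖) := by
      rw [norm_smul, Complex.norm_real, Real.norm_of_nonneg hq.le]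
      gcongr
      refine (Est2_conj _ _).trans ?_
      gcongr
      exact Est2_mv _ _ _
    rw [M2]
    refine (norm_add_le _ _).trans ?_
    refine (add_le_add ((norm_sub_le _ _).trans (add_le_add a1 a2)) a3).trans ?_
    linarith

theorem est_MM : ∃ C, ∀ (g : Geo) (d : Dat) (i : Fin 3), AdmG g →
    ‖MM g d i‖ ≤ C * (‖AA d‖ + (ee g + qq g) * (1 + ‖GG d‖ ^ 2) * ‖mm d‖) := by
  refine ⟨514, fun g d i hg => ?_⟩
  have he := hg.2.1.1
  have hq := hg.2.2.1.1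
  rw [ContinuousMap.norm_le _ (by positivity)]
  intro z
  rw [MM, cmk_apply (continuous_Mf hg i)]
  have hz : ‖(z : ℂ) / 8‖ ≤ 1/8 := by
    have h1 : ‖(z : ℂ)‖ ≤ 1 := mem_closedBall_zero_iff.1 z.property
    rw [norm_div]
    simp only [Complex.norm_ofNat]
    linarith
  refine (Est2_Mf hg d i hz).trans ?_
  have p0 := norm_nonneg (AA d)
  have p1 : 0 ≤ ee g * ‖mm d‖ := by positivity
  have p2 : 0 ≤ qq g * ‖mm d‖ := by positivity
  have p3 : 0 ≤ ee g * (‖GG d‖ ^ 2 * ‖mm d‖) := by positivity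
  nlinarith

end Pool.Agent.MP_efb2da_gt

end
end

section

open Set Complex
open scoped Topology ComplexConjugate Matrix ContDiff

noncomputable section

namespace Pool.Agent.MP_efb2da_gt

lemma Hopf_key {a b a0 b0 n : MC} (h : b * a - a * b = 0) :
    ‖trC (n * (b0 * a0 - a0 * b0))‖ ≤ 2 * (‖n‖ * (2 * ‖b - b0‖ * ‖a‖ + 2 * ‖b0‖ * ‖a - a0‖)) := by
  have e : b0 * a0 - a0 * b0 =
      (a * (b - b0) - (b - b0) * a) + ((a - a0) * b0 - b0 * (a - a0)) + (b * a - a * b) := by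
    noncomm_ring
  rw [h, add_zero] at e
  refine (norm_trC_le _).trans ?_
  gcongr
  refine (norm_mul_le _ _).trans ?_
  gcongr
  rw [e]
  have h1 := norm_mul_le a (b - b0)
  have h2 := norm_mul_le (b - b0) a
  have h3 := norm_mul_le (a - a0) b0
  have h4 := norm_mul_le b0 (a - a0)
  have h5 := norm_sub_le (a * (b - b0)) ((b - b0) * a)
  have h6 := norm_sub_le ((a - a0) * b0) (b0 * (a - a0))
  have h7 := norm_add_le (a * (b - b0) - (b - b0) * a) ((a - a0) * b0 - b0 * (a - a0))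
  nlinarith

lemma Hopf_tr (n0 n1 n2 : MC) (x y w x' y' w' : ℂ) :
    trC (n2 * ((x' • n1 + y' • n2 + w' • n0) * (x • n1 + y • n2 + w • n0) -
      (x • n1 + y • n2 + w • n0) * (x' • n1 + y' • n2 + w' • n0))) =
      (x' * w - x * w') * trC (n2 * (n1 * n0 - n0 * n1)) := by
  simp only [trC_apply, Matrix.sub_apply, matApi2_mulC, Matrix.add_apply, Matrix.smul_apply,
    smul_eq_mul]
  ring

lemma Hopf_pos_le {p : Fin 3 → ℝ} (h : AdmP p) (j : Fin 5) : pos p j ≤ 1 := by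
  obtain ⟨⟨_, _⟩, ⟨_, _⟩, _, _⟩ := h
  fin_cases j <;> simp [pos] <;> linarith

lemma Hopf_re {u : ℂ} (hu : ‖u - 1 / 16‖ ≤ 1 / 32) : 1 / 32 ≤ u.re ∧ ‖u‖ ≤ 3 / 32 := by
  have h1 := (abs_re_le_norm (u - 1 / 16)).trans hu
  have h2 : (u - 1 / 16).re = u.re - 1 / 16 := by simp
  rw [h2, abs_le] at h1
  refine ⟨by linarith [h1.1], ?_⟩
  have h3 : u = (u - 1 / 16) + 1 / 16 := by ring
  have h4 : ‖(1 / 16 : ℂ)‖ = 1 / 16 := by simp
  calc ‖u‖ = ‖(u - 1 / 16) + 1 / 16‖ := by rw [← h3]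
    _ ≤ ‖u - 1 / 16‖ + ‖(1 / 16 : ℂ)‖ := norm_add_le _ _
    _ ≤ 3 / 32 := by rw [h4]; linarith

lemma Hopf_sep {u : ℂ} (hu : ‖u - 1 / 16‖ ≤ 1 / 32) {s : ℝ} (hs : s ≤ 1) :
    1 / 32 ≤ ‖1 + u - s‖ := by
  have h1 := (Hopf_re hu).1
  have h2 := re_le_norm (1 + u - s)
  have h3 : (1 + u - s).re = 1 + u.re - s := by simp
  linarith

/-- the limit of the neck potential -/
def HopfR (As : Fin 5 → MW) (p : Fin 3 → ℝ) (u : ℂ) : MW :=
  ∑ j, (u * (1 + u - pos p j)⁻¹) • As j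

lemma Hopf_R_deriv (As : Fin 5 → MW) {p : Fin 3 → ℝ} (h : AdmP p) {u : ℂ}
    (hu : ‖u - 1 / 16‖ ≤ 1 / 32) :
    HasDerivAt (HopfR As p) (∑ j, ((1 - pos p j) / (1 + u - pos p j) ^ 2 : ℂ) • As j) u := by
  unfold HopfR
  refine HasDerivAt.fun_sum fun j _ => HasDerivAt.smul_const ?_ _
  have hne : (1 + u - pos p j : ℂ) ≠ 0 := by
    have := Hopf_sep hu (Hopf_pos_le h j)
    intro h0; rw [h0, norm_zero] at this; norm_num at this
  have h1 : HasDerivAt (fun u : ℂ => 1 + u - pos p j) 1 u :=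
    ((hasDerivAt_id u).const_add 1).sub_const _
  have h2 := (hasDerivAt_id' u).fun_mul (h1.fun_inv hne)
  convert h2 using 1
  field_simp
  ring

lemma Hopf_err {As : Fin 5 → MW} (N : ℝ) : ∃ K, 0 ≤ K ∧ ∀ (η : ℝ) (S : Sol η N As) (u : ℂ),
    ‖u - 1 / 16‖ ≤ 1 / 32 → ‖Th S.g S.d u - HopfR As (pp S.g) u‖ ≤ K * η := by
  obtain ⟨C, hC⟩ := est_corr N
  refine ⟨15 + 5 * |C|, by positivity, fun η S u hu => ?_⟩
  obtain ⟨hre, hn⟩ := Hopf_re hu
  have hu0 : u ≠ 0 := by intro h0; rw [h0] at hre; norm_num at hre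
  have hz : 1 ≤ ‖1 + u‖ := by
    have := re_le_norm (1 + u)
    have h3 : (1 + u).re = 1 + u.re := by simp
    linarith
  have hz2 : ‖1 + u‖ ≤ 2 := by
    have := norm_add_le 1 u
    rw [norm_one] at this; linarith
  have hz0 : (1 + u : ℂ) ≠ 0 := by
    intro h0; rw [h0, norm_zero] at hz; norm_num at hz
  have hq := S.adm.2.2.1.1
  have he := S.adm.2.1.1
  have hη : 0 ≤ η := he.le.trans S.e_le
  have hc1 := hC S.g S.d (1 + u) S.adm S.bd hz0 (by
    have := re_le_norm u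
    simp only [add_sub_cancel_left]; linarith)
  have e : Th S.g S.d u - HopfR As (pp S.g) u =
      ∑ j, (u * (1 + u - pos (pp S.g) j)⁻¹) • (AA S.d j - As j) +
        (u / (1 + u)) • ((1 + u) • (h1 S.g S.d (1 + u) + hinf S.g S.d (1 + u) +
          h0 S.g S.d (1 + u))) := by
    rw [Th_eq S.adm S.fix hu0 (by linarith), smul_smul, div_mul_cancel₀ _ hz0]
    simp only [Xi, rat, HopfR, smul_add, smul_sub, Finset.smul_sum, smul_smul,
      Finset.sum_sub_distrib]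
    abel
  rw [e]
  refine (norm_add_le _ _).trans ?_
  have h2 : ‖∑ j, (u * (1 + u - pos (pp S.g) j)⁻¹) • (AA S.d j - As j)‖ ≤ 15 * η := by
    refine (norm_sum_le _ _).trans ?_
    have : ∀ j ∈ (Finset.univ : Finset (Fin 5)),
        ‖(u * (1 + u - pos (pp S.g) j)⁻¹) • (AA S.d j - As j)‖ ≤ 3 * η := by
      intro j _
      rw [norm_smul, norm_mul, norm_inv]
      have h5 := Hopf_sep hu (Hopf_pos_le S.adm.2.2.2 j)
      have h6 : ‖1 + u - pos (pp S.g) j‖⁻¹ ≤ 32 := by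
        rw [inv_le_comm₀ (by linarith) (by norm_num)]; linarith
      have h7 : ‖u‖ * ‖1 + u - pos (pp S.g) j‖⁻¹ ≤ 3 := by
        calc ‖u‖ * ‖1 + u - pos (pp S.g) j‖⁻¹ ≤ 3 / 32 * 32 := by gcongr
          _ = 3 := by norm_num
      exact mul_le_mul h7 (S.close j) (norm_nonneg _) (by norm_num)
    refine (Finset.sum_le_sum this).trans ?_
    simp; linarith
  have h3 : ‖u / (1 + u)‖ ≤ 1 := by
    rw [norm_div, div_le_one (by linarith)]; linarith
  have h4 : ee S.g + qq S.g / ‖1 + u‖ + qq S.g * ‖1 + u‖ ≤ 5 * η := by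
    have a1 : qq S.g / ‖1 + u‖ ≤ qq S.g := div_le_self hq.le hz
    have a2 : qq S.g * ‖1 + u‖ ≤ qq S.g * 2 := by gcongr
    linarith [S.e_le, S.q_le]
  have h5 : 0 ≤ ee S.g + qq S.g / ‖1 + u‖ + qq S.g * ‖1 + u‖ := by positivity
  have h6 : C * (ee S.g + qq S.g / ‖1 + u‖ + qq S.g * ‖1 + u‖) ≤ |C| * (5 * η) :=
    mul_le_mul (le_abs_self C) h4 h5 (abs_nonneg C)
  rw [norm_smul]
  have h7 := mul_le_mul h3 (hc1.trans h6) (norm_nonneg _) zero_le_one
  linarith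

lemma Hopf_ann {g : Geo} (hg : AdmG g) {u : ℂ} (hu : ‖u - 1 / 16‖ ≤ 1 / 32) :
    8 * ee g ^ 2 < ‖u‖ ∧ ‖u‖ < 1 / 8 := by
  obtain ⟨hre, hn⟩ := Hopf_re hu
  have h1 := re_le_norm u
  have h2 := hg.2.1.1
  have h3 := hg.2.1.2
  exact ⟨by nlinarith, by linarith⟩

lemma Hopf_diff {g : Geo} {d : Dat} (hg : AdmG g) (hd : Str d) {u : ℂ}
    (hu : ‖u - 1 / 16‖ ≤ 1 / 32) : DifferentiableAt ℂ (Th g d) u := by
  refine (Th_differentiableOn hg hd).differentiableAt (IsOpen.mem_nhds ?_ (Hopf_ann hg hu))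
  exact (isOpen_lt continuous_const continuous_norm).inter
    (isOpen_lt continuous_norm continuous_const)

lemma Hopf_derr {As : Fin 5 → MW} {N η K : ℝ} (S : Sol η N As)
    (h : ∀ u : ℂ, ‖u - 1 / 16‖ ≤ 1 / 32 → ‖Th S.g S.d u - HopfR As (pp S.g) u‖ ≤ K * η) :
    ‖deriv (Th S.g S.d) (1 / 16) -
      ∑ j, ((1 - pos (pp S.g) j) / (1 + 1 / 16 - pos (pp S.g) j) ^ 2 : ℂ) • As j‖ ≤
        32 * (K * η) := by
  have h0 : ‖(1 / 16 : ℂ) - 1 / 16‖ ≤ 1 / 32 := by simp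
  have hd : DiffContOnCl ℂ (fun u => Th S.g S.d u - HopfR As (pp S.g) u)
      (Metric.ball (1 / 16 : ℂ) (1 / 32)) := by
    refine DifferentiableOn.diffContOnCl ?_
    rw [closure_ball _ (by norm_num)]
    intro u hu
    rw [mem_closedBall_iff_norm] at hu
    exact ((Hopf_diff S.adm S.str hu).sub
      (Hopf_R_deriv As S.adm.2.2.2 hu).differentiableAt).differentiableWithinAt
  have h1 := Complex.norm_deriv_le_of_forall_mem_sphere_norm_le (by norm_num) hd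
    (C := K * η) fun u hu => h u (by rw [mem_sphere_iff_norm] at hu; exact hu.le)
  have h2 := ((Hopf_diff S.adm S.str h0).hasDerivAt.fun_sub
    (Hopf_R_deriv As S.adm.2.2.2 h0)).deriv
  rw [h2] at h1
  linarith

lemma Hopf_exp {g : Geo} (hg : AdmG g) : (ee g : ℂ) * exp (La1 g) = 1 / 16 := by
  have h := hg.2.1.1
  have h1 : Real.exp (La1 g) = 1 / (16 * ee g) := Real.exp_log (by positivity)
  have h2 : (ee g : ℂ) ≠ 0 := by exact_mod_cast h.ne'
  rw [← Complex.ofReal_exp, h1]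
  push_cast
  field_simp

lemma Hopf_xi {g : Geo} {d : Dat} (hg : AdmG g) (hd : Str d) :
    xiN g d (La1 g) = (tt g : ℂ) • Th g d (1 / 16) ∧
      deriv (xiN g d) (La1 g) = (tt g : ℂ) • (1 / 16 : ℂ) • deriv (Th g d) (1 / 16) := by
  have h0 : ‖(1 / 16 : ℂ) - 1 / 16‖ ≤ 1 / 32 := by simp
  refine ⟨by rw [xiN, Hopf_exp hg], ?_⟩
  have h1 : HasDerivAt (fun ζ : ℂ => (ee g : ℂ) * exp ζ) (1 / 16) (La1 g) := by
    rw [← Hopf_exp hg]; exact (Complex.hasDerivAt_exp _).const_mul _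
  have h2 : HasDerivAt (Th g d) (deriv (Th g d) (1 / 16)) ((ee g : ℂ) * exp (La1 g)) := by
    rw [Hopf_exp hg]; exact (Hopf_diff hg hd h0).hasDerivAt
  exact ((h2.scomp (La1 g : ℂ) h1).const_smul (tt g : ℂ)).deriv

lemma Hopf_sum_le (As : Fin 5 → MW) {c : Fin 5 → ℂ} (h : ∀ j, ‖c j‖ ≤ 1) :
    ‖∑ j, c j • As j‖ ≤ ∑ j, ‖As j‖ := by
  refine (norm_sum_le _ _).trans (Finset.sum_le_sum fun j _ => ?_)
  rw [norm_smul]
  exact mul_le_of_le_one_left (norm_nonneg _) (h j)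

lemma Hopf_cf {As : Fin 5 → MW} (hL : LimProp As) (c : Fin 5 → ℂ) :
    cf (-1) (∑ j, c j • As j) = (c 1 + c 3) • cf (-1) (As 1) + (c 2 + c 4) • cf (-1) (As 2) +
      c 0 • cf (-1) (As 0) := by
  simp only [Fin.sum_univ_five, map_add, map_smul, hL.e3, hL.e4, add_smul]
  abel

lemma Hopf_c1 {s : ℝ} (hs : s ≤ 1) : ‖(1 / 16 * (1 + 1 / 16 - (s : ℂ))⁻¹ : ℂ)‖ ≤ 1 := by
  have e : (1 / 16 * (1 + 1 / 16 - (s : ℂ))⁻¹ : ℂ) = ((1 / 16 * (1 + 1 / 16 - s)⁻¹ : ℝ) : ℂ) := by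
    push_cast; ring
  have h : (0 : ℝ) < 1 + 1 / 16 - s := by linarith
  rw [e, Complex.norm_real, Real.norm_of_nonneg (by positivity), ← div_eq_mul_inv, div_le_one h]
  linarith

lemma Hopf_c2 {s : ℝ} (hs : s ≤ 1) :
    ‖(1 / 16 * ((1 - s) / (1 + 1 / 16 - s) ^ 2) : ℂ)‖ ≤ 1 := by
  have e : (1 / 16 * ((1 - s) / (1 + 1 / 16 - s) ^ 2) : ℂ) =
      ((1 / 16 * ((1 - s) / (1 + 1 / 16 - s) ^ 2) : ℝ) : ℂ) := by
    push_cast; ring
  have h : (0 : ℝ) < 1 + 1 / 16 - s := by linarith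
  have h' : (0 : ℝ) ≤ 1 - s := by linarith
  rw [e, Complex.norm_real, Real.norm_of_nonneg (by positivity), ← mul_div_assoc,
    div_le_one (by positivity)]
  nlinarith

lemma Hopf_c3 {s : ℝ} (hs : -11 / 10 ≤ s) (hs' : s ≤ -9 / 10) :
    1 / 20 ≤ ‖((1 / 16 * ((1 - (1 : ℝ)) / (1 + 1 / 16 - (1 : ℝ)) ^ 2) +
      1 / 16 * ((1 - s) / (1 + 1 / 16 - s) ^ 2)) * (1 / 16 * (1 + 1 / 16 - ((0 : ℝ) : ℂ))⁻¹) -
      (1 / 16 * (1 + 1 / 16 - ((1 : ℝ) : ℂ))⁻¹ + 1 / 16 * (1 + 1 / 16 - (s : ℂ))⁻¹) *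
        (1 / 16 * ((1 - (0 : ℝ)) / (1 + 1 / 16 - (0 : ℝ)) ^ 2)) : ℂ)‖ := by
  have h : (0 : ℝ) < 1 + 1 / 16 - s := by linarith
  have e : ((1 / 16 * ((1 - (1 : ℝ)) / (1 + 1 / 16 - (1 : ℝ)) ^ 2) +
      1 / 16 * ((1 - s) / (1 + 1 / 16 - s) ^ 2)) * (1 / 16 * (1 + 1 / 16 - ((0 : ℝ) : ℂ))⁻¹) -
      (1 / 16 * (1 + 1 / 16 - ((1 : ℝ) : ℂ))⁻¹ + 1 / 16 * (1 + 1 / 16 - (s : ℂ))⁻¹) *
        (1 / 16 * ((1 - (0 : ℝ)) / (1 + 1 / 16 - (0 : ℝ)) ^ 2)) : ℂ) =
      -((16 / 289 * (1 + 1 / 16 * (1 + 1 / 16 - s)⁻¹) -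
        1 / 272 * ((1 - s) / (1 + 1 / 16 - s) ^ 2) : ℝ) : ℂ) := by
    push_cast; norm_num; ring
  have h1 : 0 ≤ 1 / 16 * (1 + 1 / 16 - s)⁻¹ := by positivity
  have h2 : (1 - s) / (1 + 1 / 16 - s) ^ 2 ≤ 1 := by
    rw [div_le_one (by positivity)]; nlinarith
  rw [e, norm_neg, Complex.norm_real]
  refine le_trans ?_ (le_abs_self _)
  linarith

theorem sol_hopf {As : Fin 5 → MW} (hL : LimProp As) (N : ℝ) : ∃ η₀ > 0,
    ∀ (η : ℝ) (S : Sol η N As), η ≤ η₀ → hopf (xiN S.g S.d) (La1 S.g) ≠ 0 := by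
  obtain ⟨K, hK0, hK⟩ := Hopf_err (As := As) N
  obtain ⟨M, hM⟩ : ∃ M, M = ∑ j, ‖As j‖ := ⟨_, rfl⟩
  have hM0 : 0 ≤ M := hM ▸ Finset.sum_nonneg fun j _ => norm_nonneg _
  obtain ⟨τ, hτ⟩ : ∃ τ, τ = ‖trC (cf (-1) (As 2) *
    (cf (-1) (As 1) * cf (-1) (As 0) - cf (-1) (As 0) * cf (-1) (As 1)))‖ := ⟨_, rfl⟩
  have hτ0 : 0 < τ := hτ ▸ norm_pos_iff.2 hL.triple
  obtain ⟨Q, hQ⟩ : ∃ Q, Q = 2 * (‖cf (-1) (As 2)‖ *
    (2 * (2 * K + 2 * (M + K) ^ 2) * (M + K) + 2 * M * K)) := ⟨_, rfl⟩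
  have hQ0 : 0 ≤ Q := by rw [hQ]; positivity
  refine ⟨min 1 (τ / (20 * (Q + 1))), by positivity, fun η S hη h => ?_⟩
  have hη1 : η ≤ 1 := hη.trans (min_le_left _ _)
  have hη2 : η ≤ τ / (20 * (Q + 1)) := hη.trans (min_le_right _ _)
  have ht := S.adm.1.1
  have hη0 : 0 < η := ht.trans_le S.t_le
  have ht' : (tt S.g : ℂ) ≠ 0 := by exact_mod_cast ht.ne'
  have h0 : ‖(1 / 16 : ℂ) - 1 / 16‖ ≤ 1 / 32 := by simp
  have hp := S.adm.2.2.2
  obtain ⟨T, hT⟩ : ∃ T, T = Th S.g S.d (1 / 16) := ⟨_, rfl⟩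
  obtain ⟨T', hT'⟩ : ∃ T', T' = (1 / 16 : ℂ) • deriv (Th S.g S.d) (1 / 16) := ⟨_, rfl⟩
  obtain ⟨R, hR⟩ : ∃ R, R = ∑ j,
    (1 / 16 * (1 + 1 / 16 - (pos (pp S.g) j : ℂ))⁻¹ : ℂ) • As j := ⟨_, rfl⟩
  obtain ⟨R', hR'⟩ : ∃ R', R' = ∑ j,
    (1 / 16 * ((1 - pos (pp S.g) j) / (1 + 1 / 16 - pos (pp S.g) j) ^ 2) : ℂ) • As j := ⟨_, rfl⟩
  have a1 : ‖T - R‖ ≤ K * η := by
    have := hK η S _ h0
    rw [HopfR, ← hT, ← hR] at this
    exact this
  have a2 : ‖T' - R'‖ ≤ 2 * K * η := by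
    have e : T' - R' = (1 / 16 : ℂ) • (deriv (Th S.g S.d) (1 / 16) -
      ∑ j, ((1 - pos (pp S.g) j) / (1 + 1 / 16 - pos (pp S.g) j) ^ 2 : ℂ) • As j) := by
      rw [hT', hR', smul_sub, Finset.smul_sum]; simp only [smul_smul]
    have h4 : ‖(1 / 16 : ℂ)‖ = 1 / 16 := by simp
    rw [e, norm_smul, h4]
    have := Hopf_derr S (hK η S)
    linarith
  have a3 : ‖R‖ ≤ M := by
    rw [hR, hM]; exact Hopf_sum_le As fun j => Hopf_c1 (Hopf_pos_le hp j)
  have a4 : ‖R'‖ ≤ M := by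
    rw [hR', hM]; exact Hopf_sum_le As fun j => Hopf_c2 (Hopf_pos_le hp j)
  have a5 : ‖T‖ ≤ M + K := by
    have e : T = (T - R) + R := by abel
    have := norm_add_le (T - R) R
    rw [← e] at this
    nlinarith
  obtain ⟨a, ha⟩ : ∃ a, a = cf (-1) T := ⟨_, rfl⟩
  obtain ⟨c, hc⟩ : ∃ c, c = cf 0 T := ⟨_, rfl⟩
  obtain ⟨b, hb⟩ : ∃ b, b = cf (-1) T' + (tt S.g : ℂ) • (c * a - a * c) := ⟨_, rfl⟩
  have hab : b * a - a * b = 0 := by
    obtain ⟨e1, e2⟩ := Hopf_xi S.adm S.str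
    rw [hopf, e1, e2, ← hT, ← hT'] at h
    simp only [map_smul, ← ha, ← hc] at h
    have e : (tt S.g : ℂ) • (tt S.g : ℂ) • (b * a - a * b) = 0 := by
      rw [← h, hb]
      simp only [smul_sub, smul_add, add_mul, mul_add, sub_mul, mul_sub, smul_mul_assoc,
        mul_smul_comm]
    exact (smul_eq_zero.1 ((smul_eq_zero.1 e).resolve_left ht')).resolve_left ht'
  have na : ‖a‖ ≤ M + K := ha ▸ (norm_cf_le _ _).trans a5
  have nc : ‖c‖ ≤ M + K := hc ▸ (norm_cf_le _ _).trans a5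
  have nα : ‖a - cf (-1) R‖ ≤ K * η := by
    rw [ha, ← map_sub]; exact (norm_cf_le _ _).trans a1
  have nb0 : ‖cf (-1) R'‖ ≤ M := (norm_cf_le _ _).trans a4
  have nβ : ‖b - cf (-1) R'‖ ≤ (2 * K + 2 * (M + K) ^ 2) * η := by
    have e : b - cf (-1) R' = cf (-1) (T' - R') + (tt S.g : ℂ) • (c * a - a * c) := by
      rw [hb, map_sub]; abel
    have h1 : ‖c * a‖ ≤ (M + K) * (M + K) := (norm_mul_le _ _).trans (by gcongr)
    have h2 : ‖a * c‖ ≤ (M + K) * (M + K) := (norm_mul_le _ _).trans (by gcongr)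
    have h3 : ‖c * a - a * c‖ ≤ 2 * (M + K) ^ 2 := (norm_sub_le _ _).trans (by nlinarith)
    have h4 : ‖(tt S.g : ℂ) • (c * a - a * c)‖ ≤ η * (2 * (M + K) ^ 2) := by
      rw [norm_smul, Complex.norm_real, Real.norm_of_nonneg ht.le]
      exact mul_le_mul S.t_le h3 (norm_nonneg _) hη0.le
    rw [e]
    have h5 := norm_add_le (cf (-1) (T' - R')) ((tt S.g : ℂ) • (c * a - a * c))
    have h6 := (norm_cf_le (-1) (T' - R')).trans a2
    nlinarith
  have key := Hopf_key (n := cf (-1) (As 2)) (a0 := cf (-1) R) (b0 := cf (-1) R') hab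
  have up : 2 * (‖cf (-1) (As 2)‖ * (2 * ‖b - cf (-1) R'‖ * ‖a‖ +
      2 * ‖cf (-1) R'‖ * ‖a - cf (-1) R‖)) ≤ Q * η := by
    calc _ ≤ 2 * (‖cf (-1) (As 2)‖ * (2 * ((2 * K + 2 * (M + K) ^ 2) * η) * (M + K) +
          2 * M * (K * η))) := by gcongr
      _ = Q * η := by rw [hQ]; ring
  have low : 1 / 20 * τ ≤ ‖trC (cf (-1) (As 2) *
      (cf (-1) R' * cf (-1) R - cf (-1) R * cf (-1) R'))‖ := by
    rw [hR, hR', Hopf_cf hL, Hopf_cf hL, Hopf_tr, norm_mul, ← hτ]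
    gcongr
    exact Hopf_c3 hp.2.1.1 hp.2.1.2
  rw [le_div_iff₀ (by positivity)] at hη2
  nlinarith

end Pool.Agent.MP_efb2da_gt

end
end
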