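import Mathlib

section

/-! The weighted Wiener algebra of Laurent series `∑ xₙ λⁿ` with `∑ |xₙ| 2^|n| < ∞`. -/

open Set
open scoped Topology ComplexConjugate

noncomputable section

namespace Pool.Agent.MP_efb2da_gt

def wt (n : ℤ) : ℝ := 2 ^ n.natAbs

lemma wt_pos (n : ℤ) : 0 < wt n := by unfold wt; positivity
lemma one_le_wt (n : ℤ) : 1 ≤ wt n := one_le_pow₀ (by norm_num)
lemma wt_zero : wt 0 = 1 := by simp [wt]
lemma wt_neg (n : ℤ) : wt (-n) = wt n := by simp [wt]
lemma wt_add_le (n m : ℤ) : wt (n + m) ≤ wt n * wt m := by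
  unfold wt; rw [← pow_add]; exact pow_le_pow_right₀ (by norm_num) (Int.natAbs_add_le n m)

def W : Type := lp (fun _ : ℤ => ℂ) 1

namespace W

instance : NormedAddCommGroup W := inferInstanceAs (NormedAddCommGroup (lp (fun _ : ℤ => ℂ) 1))
instance : NormedSpace ℂ W := inferInstanceAs (NormedSpace ℂ (lp (fun _ : ℤ => ℂ) 1))
instance : CompleteSpace W := inferInstanceAs (CompleteSpace (lp (fun _ : ℤ => ℂ) 1))

def raw (x : W) : lp (fun _ : ℤ => ℂ) 1 := x

/-- the monomial `λⁿ` -/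
def mon (n : ℤ) : W := (lp.single 1 n (wt n : ℂ) : lp (fun _ : ℤ => ℂ) 1)

/-- the coefficient of `λⁿ` -/
def coef (n : ℤ) : W →L[ℂ] ℂ :=
  ((wt n : ℂ)⁻¹) • (lp.evalCLM ℂ (fun _ : ℤ => ℂ) 1 n : lp (fun _ : ℤ => ℂ) 1 →L[ℂ] ℂ)

lemma coef_def (n : ℤ) (x : W) : coef n x = (wt n : ℂ)⁻¹ * (raw x : ℤ → ℂ) n := rfl

lemma raw_eq (n : ℤ) (x : W) : (raw x : ℤ → ℂ) n = wt n * coef n x := by
  have : (wt n : ℂ) ≠ 0 := by exact_mod_cast (wt_pos n).ne'
  rw [coef_def]; field_simp

lemma norm_mon (n : ℤ) : ‖mon n‖ = wt n := by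
  have := lp.norm_single (E := fun _ : ℤ => ℂ) (p := 1) (by norm_num) n (wt n : ℂ)
  change ‖(lp.single 1 n (wt n : ℂ) : lp (fun _ : ℤ => ℂ) 1)‖ = _
  rw [this]; simp [abs_of_pos (wt_pos n)]

lemma coef_mon (n m : ℤ) : coef n (mon m) = if n = m then 1 else 0 := by
  have : (wt n : ℂ) ≠ 0 := by exact_mod_cast (wt_pos n).ne'
  rw [coef_def]
  change (wt n : ℂ)⁻¹ * (lp.single 1 m (wt m : ℂ) : lp (fun _ : ℤ => ℂ) 1) n = _
  split_ifs with h
  · subst h; rw [lp.single_apply_self]; field_simp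
  · rw [lp.single_apply_ne _ _ _ h]; simp

lemma hasSum_norm (x : W) : HasSum (fun n => ‖coef n x‖ * wt n) ‖x‖ := by
  have := lp.hasSum_norm (E := fun _ : ℤ => ℂ) (p := 1) (by norm_num) (raw x)
  simp only [ENNReal.toReal_one, Real.rpow_one] at this
  have e : (fun n => ‖coef n x‖ * wt n) = fun n => ‖(raw x : ℤ → ℂ) n‖ := by
    funext n
    rw [raw_eq, norm_mul, mul_comm]; simp [abs_of_pos (wt_pos n)]
  rw [e]; exact this

lemma norm_coef_le (n : ℤ) (x : W) : ‖coef n x‖ * wt n ≤ ‖x‖ :=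
  le_hasSum (hasSum_norm x) n fun m _ => mul_nonneg (norm_nonneg _) (wt_pos m).le

lemma norm_coef_le' (n : ℤ) (x : W) : ‖coef n x‖ ≤ ‖x‖ :=
  le_trans (le_mul_of_one_le_right (norm_nonneg _) (one_le_wt n)) (norm_coef_le n x)

lemma hasSum_mon (x : W) : HasSum (fun n => coef n x • mon n) x := by
  have := lp.hasSum_single (E := fun _ : ℤ => ℂ) (p := 1) (by norm_num) (raw x)
  have e : (fun n => coef n x • mon n) =
      fun n => (lp.single 1 n ((raw x : ℤ → ℂ) n) : lp (fun _ : ℤ => ℂ) 1) := by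
    funext n
    change coef n x • (lp.single 1 n (wt n : ℂ) : lp (fun _ : ℤ => ℂ) 1) = _
    rw [← lp.single_smul, raw_eq, smul_eq_mul, mul_comm]
  rw [e]; exact this

/-- induction principle: closed additive properties are checked on monomials -/
lemma ind {p : W → Prop} (hcl : IsClosed {x | p x}) (h0 : p 0)
    (hadd : ∀ x y, p x → p y → p (x + y)) (hmon : ∀ (n : ℤ) (c : ℂ), p (c • mon n)) (x : W) :
    p x := by
  refine hcl.mem_of_tendsto (hasSum_mon x) (Filter.Eventually.of_forall fun s => ?_)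
  exact Finset.sum_induction _ p hadd h0 fun n _ => hmon n _

lemma ext_coef {x y : W} (h : ∀ n, coef n x = coef n y) : x = y := by
  refine (hasSum_mon x).unique ?_
  simp only [h]; exact hasSum_mon y

section lift
variable {E : Type} [NormedAddCommGroup E] [NormedSpace ℂ E] [CompleteSpace E]

lemma clm_ext {E : Type} [NormedAddCommGroup E] [NormedSpace ℂ E] {f g : W →L[ℂ] E}
    (h : ∀ n, f (mon n) = g (mon n)) : f = g := by
  ext x
  refine ind (p := fun x => f x = g x) (isClosed_eq f.continuous g.continuous) (by simp)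
    (fun x y hx hy => by simp [hx, hy]) (fun n c => by simp [h]) x

omit [NormedSpace ℂ E] [CompleteSpace E] in
lemma lift_bound [NormedSpace ℂ E] {v : ℤ → E} {C : ℝ} (h : ∀ n, ‖v n‖ ≤ C * wt n) (x : W) (n : ℤ) :
    ‖coef n x • v n‖ ≤ C * (‖coef n x‖ * wt n) := by
  rw [norm_smul]
  calc ‖coef n x‖ * ‖v n‖ ≤ ‖coef n x‖ * (C * wt n) := by gcongr; exact h n
    _ = _ := by ring

lemma lift_summable {v : ℤ → E} {C : ℝ} (h : ∀ n, ‖v n‖ ≤ C * wt n) (x : W) :
    Summable fun n => coef n x • v n :=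
  Summable.of_norm_bounded ((hasSum_norm x).summable.mul_left C) (lift_bound h x)

/-- the continuous linear map with prescribed values on the monomials -/
def lift (v : ℤ → E) (C : ℝ) (h : ∀ n, ‖v n‖ ≤ C * wt n) : W →L[ℂ] E :=
  LinearMap.mkContinuous
    { toFun := fun x => ∑' n, coef n x • v n
      map_add' := fun x y => by
        simp only [map_add, add_smul]
        exact (lift_summable h x).tsum_add (lift_summable h y)
      map_smul' := fun c x => by
        simp only [map_smul, smul_eq_mul, mul_smul, RingHom.id_apply]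
        exact (lift_summable h x).tsum_const_smul c } C
    fun x => tsum_of_norm_bounded ((hasSum_norm x).mul_left C) (lift_bound h x)

lemma lift_apply (v : ℤ → E) (C : ℝ) (h : ∀ n, ‖v n‖ ≤ C * wt n) (x : W) :
    lift v C h x = ∑' n, coef n x • v n := rfl

@[simp] lemma lift_mon (v : ℤ → E) (C : ℝ) (h : ∀ n, ‖v n‖ ≤ C * wt n) (m : ℤ) :
    lift v C h (mon m) = v m := by
  rw [lift_apply, tsum_eq_single m]
  · simp [coef_mon]
  · intro n hn; simp [coef_mon, hn]

lemma norm_lift_apply_le (v : ℤ → E) (C : ℝ) (h : ∀ n, ‖v n‖ ≤ C * wt n) (x : W) :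
    ‖lift v C h x‖ ≤ C * ‖x‖ :=
  tsum_of_norm_bounded ((hasSum_norm x).mul_left C) (lift_bound h x)

lemma norm_lift_le (v : ℤ → E) {C : ℝ} (hC : 0 ≤ C) (h : ∀ n, ‖v n‖ ≤ C * wt n) :
    ‖lift v C h‖ ≤ C :=
  ContinuousLinearMap.opNorm_le_bound _ hC (norm_lift_apply_le v C h)

/-- a continuous linear map is bounded by its values on monomials -/
lemma norm_clm_le (f : W →L[ℂ] E) {C : ℝ} (h : ∀ n, ‖f (mon n)‖ ≤ C * wt n) (x : W) :
    ‖f x‖ ≤ C * ‖x‖ := by
  have : f = lift (fun n => f (mon n)) C h := clm_ext fun n => by simp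
  rw [this]; exact norm_lift_apply_le _ _ _ _

end lift

def shift (n : ℤ) : W →L[ℂ] W :=
  lift (fun m => mon (n + m)) (wt n) fun m => by rw [norm_mon]; exact wt_add_le n m

def mulL : W →L[ℂ] W →L[ℂ] W :=
  lift shift 1 fun n => by rw [one_mul]; exact norm_lift_le _ (wt_pos n).le _

lemma mulL_mon (n m : ℤ) : mulL (mon n) (mon m) = mon (n + m) := by simp [mulL, shift]

lemma mulL_comm (x y : W) : mulL x y = mulL y x := by
  have : mulL = mulL.flip := clm_ext fun n => clm_ext fun m => by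
    simp [mulL_mon, add_comm]
  conv_lhs => rw [this]
  rfl

lemma mulL_one (x : W) : mulL (mon 0) x = x := by
  have : mulL (mon 0) = ContinuousLinearMap.id ℂ W := clm_ext fun m => by simp [mulL_mon]
  rw [this]; rfl

lemma mulL_assoc (x y z : W) : mulL (mulL x y) z = mulL x (mulL y z) := by
  have h1 : ∀ n m k, mulL (mulL (mon n) (mon m)) (mon k) = mulL (mon n) (mulL (mon m) (mon k)) :=
    fun n m k => by simp [mulL_mon, add_assoc]
  have h2 : ∀ n m z, mulL (mulL (mon n) (mon m)) z = mulL (mon n) (mulL (mon m) z) := by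
    intro n m z
    have : mulL (mulL (mon n) (mon m)) = (mulL (mon n)).comp (mulL (mon m)) := clm_ext (h1 n m)
    rw [this]; rfl
  have h3 : ∀ n y z, mulL (mulL (mon n) y) z = mulL (mon n) (mulL y z) := by
    intro n y z
    have : (mulL.flip z).comp (mulL (mon n)) = (mulL (mon n)).comp (mulL.flip z) :=
      clm_ext fun m => h2 n m z
    exact congrArg (fun f : W →L[ℂ] W => f y) this
  have : (mulL.flip z).comp (mulL.flip y) = mulL.flip (mulL y z) := clm_ext fun n => h3 n y z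
  exact congrArg (fun f : W →L[ℂ] W => f x) this

lemma norm_mulL_le (x y : W) : ‖mulL x y‖ ≤ ‖x‖ * ‖y‖ := by
  refine (ContinuousLinearMap.le_opNorm _ _).trans ?_
  gcongr
  exact (norm_lift_apply_le shift 1 _ x).trans (one_mul _).le

instance : NormedCommRing W :=
  { (inferInstance : NormedAddCommGroup W) with
    mul := fun x y => mulL x y
    one := mon 0
    mul_assoc := mulL_assoc
    one_mul := mulL_one
    mul_one := fun x => (mulL_comm _ _).trans (mulL_one x)
    left_distrib := fun x y z => map_add (mulL x) y z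
    right_distrib := fun x y z => by
      change mulL (x + y) z = mulL x z + mulL y z
      simp
    zero_mul := fun x => by
      change mulL 0 x = 0
      simp
    mul_zero := fun x => map_zero (mulL x)
    mul_comm := mulL_comm
    norm_mul_le := norm_mulL_le }

lemma mul_def (x y : W) : x * y = mulL x y := rfl
lemma mon_zero : mon 0 = 1 := rfl
lemma mon_mul_mon (n m : ℤ) : mon n * mon m = mon (n + m) := mulL_mon n m

instance : Algebra ℂ W := Algebra.ofModule
  (fun c x y => by simp [mul_def]) (fun c x y => by simp [mul_def])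

instance : NormedAlgebra ℂ W := ⟨fun c x => (norm_smul c x).le⟩

instance : NormOneClass W := ⟨by rw [← mon_zero, norm_mon, wt_zero]⟩

/-- bilinear identities are checked on monomials -/
lemma bil_ext {E : Type} [NormedAddCommGroup E] [NormedSpace ℂ E] {f g : W →L[ℂ] W →L[ℂ] E}
    (h : ∀ n m, f (mon n) (mon m) = g (mon n) (mon m)) (x y : W) : f x y = g x y := by
  rw [show f = g from clm_ext fun n => clm_ext (h n)]

/-- `λ ↦ 1/λ` -/
def rev : W →L[ℂ] W := lift (fun n => mon (-n)) 1 fun n => by rw [norm_mon, wt_neg, one_mul]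

open Classical in
/-- projection on the coefficients in `S` -/
def proj (S : Set ℤ) : W →L[ℂ] W :=
  lift (fun n => if n ∈ S then mon n else 0) 1 fun n => by
    split_ifs
    · rw [norm_mon, one_mul]
    · simpa using (wt_pos n).le

/-- conjugation of the coefficients -/
def cjFun (x : W) : W := (star (raw x) : lp (fun _ : ℤ => ℂ) 1)

def cj : W →L[ℝ] W :=
  LinearMap.mkContinuous
    { toFun := cjFun
      map_add' := fun x y => star_add (raw x) (raw y)
      map_smul' := fun c x => by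
        change star ((c : ℂ) • raw x) = (c : ℂ) • star (raw x)
        rw [star_smul]; simp } 1
    fun x => by
      change ‖star (raw x)‖ ≤ 1 * ‖raw x‖
      rw [norm_star, one_mul]

lemma abs_le_wt (n : ℤ) : ‖(n : ℂ)‖ ≤ 1 * wt n := by
  rw [one_mul, wt, Complex.norm_intCast, ← Int.cast_abs, ← Int.natCast_natAbs, Int.cast_natCast]
  exact_mod_cast (Nat.lt_two_pow_self).le

lemma sq_le_wt (n : ℤ) : ‖(n : ℂ) ^ 2‖ ≤ 2 * wt n := by
  rw [norm_pow, wt, Complex.norm_intCast, ← Int.cast_abs, ← Int.natCast_natAbs, Int.cast_natCast]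
  have : ∀ m : ℕ, m ^ 2 ≤ 2 * 2 ^ m := by
    intro m
    induction m with
    | zero => simp
    | succ m ih =>
      rcases Nat.lt_or_ge m 3 with h | h
      · interval_cases m <;> norm_num
      · rw [pow_succ 2 m]; nlinarith
  exact_mod_cast this n.natAbs

/-- value at `λ = 1` -/
def j0 : W →L[ℂ] ℂ := lift (fun _ => 1) 1 fun n => by simpa using one_le_wt n
/-- first Euler derivative `λ∂` at `λ = 1` -/
def j1 : W →L[ℂ] ℂ := lift (fun n => (n : ℂ)) 1 abs_le_wt
/-- second Euler derivative at `λ = 1` -/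
def j2 : W →L[ℂ] ℂ := lift (fun n => (n : ℂ) ^ 2) 2 sq_le_wt
/-- value at `λ = e^{iθ}` -/
def ev (θ : ℝ) : W →L[ℂ] ℂ :=
  lift (fun n => Complex.exp (n * θ * Complex.I)) 1 fun n => by
    have : (n : ℂ) * θ * Complex.I = ((n * θ : ℝ) : ℂ) * Complex.I := by push_cast; ring
    rw [this, Complex.norm_exp_ofReal_mul_I, one_mul]; exact one_le_wt n

/-- no powers below `a` -/
def GE (a : ℤ) (x : W) : Prop := ∀ n, n < a → coef n x = 0
/-- no powers above `a` -/
def LE (a : ℤ) (x : W) : Prop := ∀ n, a < n → coef n x = 0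

end W

end Pool.Agent.MP_efb2da_gt

end
end

section

open Set
open scoped Topology ComplexConjugate

noncomputable section

namespace Pool.Agent.MP_efb2da_gt

namespace W

lemma algebraMap_eq (c : ℂ) : algebraMap ℂ W c = c • mon 0 := by
  rw [Algebra.algebraMap_eq_smul_one, mon_zero]
lemma coef_one (n : ℤ) : coef n 1 = if n = 0 then 1 else 0 := by
  rw [← mon_zero, coef_mon]
lemma coef_algebraMap (n : ℤ) (c : ℂ) : coef n (algebraMap ℂ W c) = if n = 0 then c else 0 := by
  rw [algebraMap_eq, map_smul, coef_mon]; split_ifs <;> simp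
lemma coef_mon_mul (n m : ℤ) (x : W) : coef n (mon m * x) = coef (n - m) x := by
  have : (coef n).comp (mulL (mon m)) = coef (n - m) := clm_ext fun k => by
    simp only [ContinuousLinearMap.comp_apply, mulL_mon, coef_mon]
    by_cases h : n = m + k
    · rw [if_pos h, if_pos (by omega)]
    · rw [if_neg h, if_neg (by omega)]
  exact congrArg (fun f : W →L[ℂ] ℂ => f x) this
lemma coef_mul_mon (n m : ℤ) (x : W) : coef n (x * mon m) = coef (n - m) x := by
  rw [mul_comm, coef_mon_mul]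

/-- the coefficients of a product -/
lemma WApi_hasSum_coef_mul (n : ℤ) (x y : W) :
    HasSum (fun k => coef k x * coef (n - k) y) (coef n (x * y)) := by
  have h := ((coef n).comp (mulL.flip y)).hasSum (hasSum_mon x)
  have e : (fun k => ((coef n).comp (mulL.flip y)) (coef k x • mon k))
      = fun k => coef k x * coef (n - k) y := by
    funext k
    rw [map_smul, smul_eq_mul, ← coef_mon_mul]
    rfl
  rw [e] at h
  exact h

@[simp] lemma rev_mon (n : ℤ) : rev (mon n) = mon (-n) := by simp [rev]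
@[simp] lemma rev_one : rev 1 = 1 := by rw [← mon_zero, rev_mon, neg_zero]
@[simp] lemma coef_rev (n : ℤ) (x : W) : coef n (rev x) = coef (-n) x := by
  have : (coef n).comp rev = coef (-n) := clm_ext fun k => by
    simp only [ContinuousLinearMap.comp_apply, rev_mon, coef_mon]
    by_cases h : n = -k
    · rw [if_pos h, if_pos (by omega)]
    · rw [if_neg h, if_neg (by omega)]
  exact congrArg (fun f : W →L[ℂ] ℂ => f x) this
@[simp] lemma rev_mul (x y : W) : rev (x * y) = rev x * rev y := by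
  refine ext_coef fun n => ?_
  rw [coef_rev]
  have h1 := WApi_hasSum_coef_mul (-n) x y
  have h2 := WApi_hasSum_coef_mul n (rev x) (rev y)
  have h3 := (Equiv.neg ℤ).hasSum_iff.mpr h1
  refine h3.unique ?_
  convert h2 using 2 with k
  simp only [Function.comp_apply, Equiv.neg_apply, coef_rev]
  rw [show -n - -k = -(n - k) by ring]
@[simp] lemma rev_rev (x : W) : rev (rev x) = x := ext_coef fun n => by simp
@[simp] lemma rev_algebraMap (c : ℂ) : rev (algebraMap ℂ W c) = algebraMap ℂ W c := by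
  rw [algebraMap_eq, map_smul, rev_mon, neg_zero]
lemma WApi_norm_rev_le (x : W) : ‖rev x‖ ≤ ‖x‖ := by
  have := norm_clm_le rev (C := 1) (fun n => by rw [rev_mon, norm_mon, wt_neg, one_mul]) x
  rwa [one_mul] at this
@[simp] lemma norm_rev (x : W) : ‖rev x‖ = ‖x‖ :=
  le_antisymm (WApi_norm_rev_le x) (by simpa using WApi_norm_rev_le (rev x))

@[simp] lemma coef_cj (n : ℤ) (x : W) : coef n (cj x) = conj (coef n x) := by
  rw [coef_def, coef_def]
  change (wt n : ℂ)⁻¹ * (star (raw x) : lp (fun _ : ℤ => ℂ) 1) n = _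
  rw [lp.star_apply]
  simp
@[simp] lemma cj_mon (n : ℤ) : cj (mon n) = mon n := ext_coef fun k => by
  rw [coef_cj, coef_mon]; split_ifs <;> simp
@[simp] lemma cj_one : cj 1 = 1 := by rw [← mon_zero, cj_mon]
@[simp] lemma cj_smul (c : ℂ) (x : W) : cj (c • x) = conj c • cj x := ext_coef fun k => by
  simp
@[simp] lemma cj_mul (x y : W) : cj (x * y) = cj x * cj y := by
  refine ext_coef fun n => ?_
  rw [coef_cj]
  have h1 := Complex.conjCLE.toContinuousLinearMap.hasSum (WApi_hasSum_coef_mul n x y)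
  have h2 := WApi_hasSum_coef_mul n (cj x) (cj y)
  refine HasSum.unique h1 ?_
  convert h2 using 2 with k
  simp
@[simp] lemma cj_cj (x : W) : cj (cj x) = x := ext_coef fun k => by simp
@[simp] lemma cj_algebraMap (c : ℂ) : cj (algebraMap ℂ W c) = algebraMap ℂ W (conj c) := by
  rw [algebraMap_eq, algebraMap_eq, cj_smul, cj_mon]
@[simp] lemma norm_cj (x : W) : ‖cj x‖ = ‖x‖ := by
  refine (hasSum_norm (cj x)).unique ?_
  simpa using hasSum_norm x
lemma cj_rev (x : W) : cj (rev x) = rev (cj x) := ext_coef fun k => by simp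

open Classical in
lemma WApi_proj_mon (S : Set ℤ) (n : ℤ) : proj S (mon n) = if n ∈ S then mon n else 0 := by
  simp [proj]

open Classical in
lemma coef_proj (S : Set ℤ) (n : ℤ) (x : W) :
    coef n (proj S x) = if n ∈ S then coef n x else 0 := by
  have : (coef n).comp (proj S) = if n ∈ S then coef n else 0 := clm_ext fun k => by
    rw [ContinuousLinearMap.comp_apply, WApi_proj_mon]
    by_cases hk : k ∈ S <;> by_cases hn : n ∈ S <;> simp [hk, hn, coef_mon]
    · rintro rfl; exact hn hk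
    · rintro rfl; exact hk hn
  have h := congrArg (fun f : W →L[ℂ] ℂ => f x) this
  simp only [ContinuousLinearMap.comp_apply] at h
  rw [h]; split_ifs <;> simp
lemma norm_proj_le (S : Set ℤ) (x : W) : ‖proj S x‖ ≤ ‖x‖ := by
  have := norm_clm_le (proj S) (C := 1) (fun n => by
    rw [WApi_proj_mon]
    split_ifs
    · rw [norm_mon, one_mul]
    · simpa using (wt_pos n).le) x
  rwa [one_mul] at this

lemma isClosed_GE (a : ℤ) : IsClosed {x | GE a x} := by
  have : {x | GE a x} = ⋂ n, ⋂ (_ : n < a), {x | coef n x = 0} := by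
    ext x; simp [GE]
  rw [this]
  exact isClosed_iInter fun n => isClosed_iInter fun _ =>
    isClosed_eq (coef n).continuous continuous_const
lemma GE.zero (a : ℤ) : GE a 0 := fun _ _ => map_zero _
lemma GE.add {a : ℤ} {x y : W} (hx : GE a x) (hy : GE a y) : GE a (x + y) := fun n hn => by
  rw [map_add, hx n hn, hy n hn, add_zero]
lemma GE.neg {a : ℤ} {x : W} (hx : GE a x) : GE a (-x) := fun n hn => by
  rw [map_neg, hx n hn, neg_zero]
lemma GE.sub {a : ℤ} {x y : W} (hx : GE a x) (hy : GE a y) : GE a (x - y) := fun n hn => by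
  rw [map_sub, hx n hn, hy n hn, sub_zero]
lemma GE.smul {a : ℤ} {x : W} (c : ℂ) (hx : GE a x) : GE a (c • x) := fun n hn => by
  rw [map_smul, hx n hn, smul_zero]
lemma GE.mono {a b : ℤ} {x : W} (hx : GE a x) (h : b ≤ a) : GE b x := fun n hn =>
  hx n (lt_of_lt_of_le hn h)
lemma GE.mul {a b : ℤ} {x y : W} (hx : GE a x) (hy : GE b y) : GE (a + b) (x * y) := by
  intro n hn
  refine (WApi_hasSum_coef_mul n x y).unique ?_
  have : (fun k => coef k x * coef (n - k) y) = fun _ => 0 := by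
    funext k
    by_cases hk : k < a
    · rw [hx k hk, zero_mul]
    · rw [hy (n - k) (by omega), mul_zero]
  rw [this]; exact hasSum_zero
lemma GE.coef_mul {a b : ℤ} {x y : W} (hx : GE a x) (hy : GE b y) :
    coef (a + b) (x * y) = coef a x * coef b y := by
  refine (WApi_hasSum_coef_mul (a + b) x y).unique ?_
  have h := hasSum_single (f := fun k => coef k x * coef (a + b - k) y) a (fun k hk => by
    by_cases hk' : k < a
    · rw [hx k hk', zero_mul]
    · rw [hy (a + b - k) (by omega), mul_zero])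
  simpa using h
lemma GE.coef_mul_succ {a b : ℤ} {x y : W} (hx : GE a x) (hy : GE b y) :
    coef (a + b + 1) (x * y) = coef a x * coef (b + 1) y + coef (a + 1) x * coef b y := by
  refine (WApi_hasSum_coef_mul (a + b + 1) x y).unique ?_
  have h := hasSum_sum_of_ne_finset_zero (f := fun k => coef k x * coef (a + b + 1 - k) y)
    (s := {a, a + 1}) (L := SummationFilter.unconditional ℤ) (fun k hk => by
    simp only [Finset.mem_insert, Finset.mem_singleton, not_or] at hk
    by_cases hk' : k < a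
    · rw [hx k hk', zero_mul]
    · rw [hy (a + b + 1 - k) (by omega), mul_zero])
  rw [Finset.sum_pair (by omega), show a + b + 1 - a = b + 1 by ring,
    show a + b + 1 - (a + 1) = b by ring] at h
  exact h
lemma GE_mon (a : ℤ) : GE a (mon a) := fun n hn => by rw [coef_mon, if_neg hn.ne]
lemma GE_algebraMap (c : ℂ) : GE 0 (algebraMap ℂ W c) := fun n hn => by
  rw [coef_algebraMap, if_neg hn.ne]
lemma GE_one : GE 0 1 := GE_mon 0
lemma GE.cj {a : ℤ} {x : W} (hx : GE a x) : GE a (cj x) := fun n hn => by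
  rw [coef_cj, hx n hn, map_zero]
lemma GE_rev {a : ℤ} {x : W} : GE a (rev x) ↔ LE (-a) x := by
  constructor
  · intro h n hn
    have := h (-n) (by omega)
    rwa [coef_rev, neg_neg] at this
  · intro h n hn
    rw [coef_rev]; exact h (-n) (by omega)
lemma LE_rev {a : ℤ} {x : W} : LE a (rev x) ↔ GE (-a) x := by
  constructor
  · intro h n hn
    have := h (-n) (by omega)
    rwa [coef_rev, neg_neg] at this
  · intro h n hn
    rw [coef_rev]; exact h (-n) (by omega)
lemma LE.add {a : ℤ} {x y : W} (hx : LE a x) (hy : LE a y) : LE a (x + y) := fun n hn => by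
  rw [map_add, hx n hn, hy n hn, add_zero]
lemma LE.neg {a : ℤ} {x : W} (hx : LE a x) : LE a (-x) := fun n hn => by
  rw [map_neg, hx n hn, neg_zero]
lemma LE.cj {a : ℤ} {x : W} (hx : LE a x) : LE a (cj x) := fun n hn => by
  rw [coef_cj, hx n hn, map_zero]
lemma LE.mul {a b : ℤ} {x y : W} (hx : LE a x) (hy : LE b y) : LE (a + b) (x * y) := by
  intro n hn
  refine (WApi_hasSum_coef_mul n x y).unique ?_
  have : (fun k => coef k x * coef (n - k) y) = fun _ => 0 := by
    funext k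
    by_cases hk : a < k
    · rw [hx k hk, zero_mul]
    · rw [hy (n - k) (by omega), mul_zero]
  rw [this]; exact hasSum_zero
lemma LE.coef_mul {a b : ℤ} {x y : W} (hx : LE a x) (hy : LE b y) :
    coef (a + b) (x * y) = coef a x * coef b y := by
  refine (WApi_hasSum_coef_mul (a + b) x y).unique ?_
  have h := hasSum_single (f := fun k => coef k x * coef (a + b - k) y) a (fun k hk => by
    by_cases hk' : a < k
    · rw [hx k hk', zero_mul]
    · rw [hy (a + b - k) (by omega), mul_zero])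
  simpa using h
lemma eq_const {x : W} (h1 : GE 0 x) (h2 : LE 0 x) : x = algebraMap ℂ W (coef 0 x) := by
  refine ext_coef fun n => ?_
  rw [coef_algebraMap]
  split_ifs with h
  · rw [h]
  · rcases lt_or_gt_of_ne h with h | h
    · exact h1 n h
    · exact h2 n h
lemma eq_two {a : ℤ} {x : W} (h1 : GE a x) (h2 : LE (a + 1) x) :
    x = coef a x • mon a + coef (a + 1) x • mon (a + 1) := by
  refine ext_coef fun n => ?_
  rw [map_add, map_smul, map_smul, coef_mon, coef_mon]
  by_cases ha : n = a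
  · subst ha; rw [if_pos rfl, if_neg (by omega)]; simp
  · by_cases hb : n = a + 1
    · subst hb; rw [if_neg ha, if_pos rfl]; simp
    · rw [if_neg ha, if_neg hb]
      rcases lt_or_gt_of_ne ha with h | h
      · rw [h1 n h]; simp
      · rw [h2 n (by omega)]; simp
lemma eq_three {x : W} (h1 : GE (-1) x) (h2 : LE 1 x) :
    x = coef (-1) x • mon (-1) + coef 0 x • 1 + coef 1 x • mon 1 := by
  refine ext_coef fun n => ?_
  rw [map_add, map_add, map_smul, map_smul, map_smul, coef_mon, coef_mon, coef_one]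
  by_cases ha : n = -1
  · subst ha; simp
  · by_cases hb : n = 0
    · subst hb; simp
    · by_cases hc : n = 1
      · subst hc; simp
      · rw [if_neg ha, if_neg hb, if_neg hc]
        rcases lt_or_gt_of_ne hb with h | h
        · rw [h1 n (by omega)]; simp
        · rw [h2 n (by omega)]; simp

end W

end Pool.Agent.MP_efb2da_gt

end
end

section

open Set
open scoped Topology ComplexConjugate

noncomputable section

namespace Pool.Agent.MP_efb2da_gt

namespace W

lemma WApi2_bil (f a b c d e g : W →L[ℂ] ℂ)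
    (h : ∀ n m, f (mon (n + m)) =
      a (mon n) * b (mon m) + c (mon n) * d (mon m) + e (mon n) * g (mon m)) (x y : W) :
    f (x * y) = a x * b y + c x * d y + e x * g y := by
  have := bil_ext (f := (ContinuousLinearMap.compL ℂ W W ℂ f).comp mulL)
    (g := (ContinuousLinearMap.mul ℂ ℂ).bilinearComp a b +
      (ContinuousLinearMap.mul ℂ ℂ).bilinearComp c d +
      (ContinuousLinearMap.mul ℂ ℂ).bilinearComp e g)
    (fun n m => by simpa [mulL_mon] using h n m) x y
  simpa [mul_def] using this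

lemma WApi2_cj (f g : W →L[ℂ] ℂ) (h : ∀ n, f (mon n) = conj (g (mon n))) (x : W) :
    f (cj x) = conj (g x) := by
  refine ind (p := fun x => f (cj x) = conj (g x))
    (isClosed_eq (f.continuous.comp cj.continuous)
      (Complex.continuous_conj.comp g.continuous)) (by simp)
    (fun x y hx hy => by simp only [map_add, hx, hy]) (fun n c => ?_) x
  simp [h]

lemma WApi2_comp (f g : W →L[ℂ] ℂ) (h : ∀ n, f (mon (-n)) = g (mon n)) (x : W) :
    f (rev x) = g x := by
  have : f.comp rev = g := clm_ext fun n => by simpa using h n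
  exact congrArg (fun f : W →L[ℂ] ℂ => f x) this

@[simp] lemma j0_mon (n : ℤ) : j0 (mon n) = 1 := lift_mon _ _ _ _
@[simp] lemma j1_mon (n : ℤ) : j1 (mon n) = n := lift_mon _ _ _ _
@[simp] lemma j2_mon (n : ℤ) : j2 (mon n) = (n : ℂ) ^ 2 := lift_mon _ _ _ _
@[simp] lemma j0_one : j0 1 = 1 := by rw [← mon_zero, j0_mon]
@[simp] lemma j1_one : j1 1 = 0 := by rw [← mon_zero, j1_mon]; simp
@[simp] lemma j2_one : j2 1 = 0 := by rw [← mon_zero, j2_mon]; simp
@[simp] lemma j0_algebraMap (c : ℂ) : j0 (algebraMap ℂ W c) = c := by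
  rw [algebraMap_eq, map_smul, j0_mon]; simp
@[simp] lemma j1_algebraMap (c : ℂ) : j1 (algebraMap ℂ W c) = 0 := by
  rw [algebraMap_eq, map_smul, j1_mon]; simp
@[simp] lemma j2_algebraMap (c : ℂ) : j2 (algebraMap ℂ W c) = 0 := by
  rw [algebraMap_eq, map_smul, j2_mon]; simp
lemma j0_mul (x y : W) : j0 (x * y) = j0 x * j0 y := by
  simpa using WApi2_bil j0 j0 j0 0 0 0 0 (fun n m => by simp) x y
lemma j1_mul (x y : W) : j1 (x * y) = j1 x * j0 y + j0 x * j1 y := by
  simpa using WApi2_bil j1 j1 j0 j0 j1 0 0 (fun n m => by simp) x y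
lemma j2_mul (x y : W) : j2 (x * y) = j2 x * j0 y + 2 * (j1 x * j1 y) + j0 x * j2 y := by
  have := WApi2_bil j2 j2 j0 ((2 : ℂ) • j1) j1 j0 j2 (fun n m => by simp; ring) x y
  rw [this]; simp; ring
@[simp] lemma j0_rev (x : W) : j0 (rev x) = j0 x := WApi2_comp j0 j0 (fun n => by simp) x
@[simp] lemma j1_rev (x : W) : j1 (rev x) = -j1 x := WApi2_comp j1 (-j1) (fun n => by simp) x
@[simp] lemma j2_rev (x : W) : j2 (rev x) = j2 x := WApi2_comp j2 j2 (fun n => by simp) x
@[simp] lemma j0_cj (x : W) : j0 (cj x) = conj (j0 x) := WApi2_cj j0 j0 (fun n => by simp) x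
@[simp] lemma j1_cj (x : W) : j1 (cj x) = conj (j1 x) := WApi2_cj j1 j1 (fun n => by simp) x
@[simp] lemma j2_cj (x : W) : j2 (cj x) = conj (j2 x) := WApi2_cj j2 j2 (fun n => by simp) x
lemma norm_j0_le (x : W) : ‖j0 x‖ ≤ ‖x‖ := (norm_lift_apply_le _ _ _ x).trans (one_mul _).le
lemma norm_j1_le (x : W) : ‖j1 x‖ ≤ ‖x‖ := (norm_lift_apply_le _ _ _ x).trans (one_mul _).le
lemma norm_j2_le (x : W) : ‖j2 x‖ ≤ 2 * ‖x‖ := norm_lift_apply_le _ _ _ x

@[simp] lemma ev_mon (θ : ℝ) (n : ℤ) : ev θ (mon n) = Complex.exp (n * θ * Complex.I) :=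
  lift_mon _ _ _ _
@[simp] lemma ev_one (θ : ℝ) : ev θ 1 = 1 := by rw [← mon_zero, ev_mon]; simp
@[simp] lemma ev_algebraMap (θ : ℝ) (c : ℂ) : ev θ (algebraMap ℂ W c) = c := by
  rw [algebraMap_eq, map_smul, ev_mon]; simp
lemma ev_mul (θ : ℝ) (x y : W) : ev θ (x * y) = ev θ x * ev θ y := by
  simpa using WApi2_bil (ev θ) (ev θ) (ev θ) 0 0 0 0 (fun n m => by
    simp only [ev_mon, zero_apply, mul_zero, add_zero, ← Complex.exp_add]
    congr 1; push_cast; ring) x y
lemma ev_zero (x : W) : ev 0 x = j0 x := by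
  have : ev 0 = j0 := clm_ext fun n => by simp
  rw [this]
lemma ev_rev (θ : ℝ) (x : W) : ev θ (rev x) = ev (-θ) x :=
  WApi2_comp (ev θ) (ev (-θ)) (fun n => by
    simp only [ev_mon]; congr 1; push_cast; ring) x
lemma ev_cj (θ : ℝ) (x : W) : ev θ (cj x) = conj (ev (-θ) x) :=
  WApi2_cj (ev θ) (ev (-θ)) (fun n => by
    simp only [ev_mon, ← Complex.exp_conj]; congr 1; simp) x
lemma norm_ev_le (θ : ℝ) (x : W) : ‖ev θ x‖ ≤ ‖x‖ :=
  (norm_lift_apply_le _ _ _ x).trans (one_mul _).le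

lemma WApi2_norm_exp (n : ℤ) (θ : ℝ) : ‖Complex.exp (n * θ * Complex.I)‖ = 1 := by
  have : (n : ℂ) * θ * Complex.I = ((n * θ : ℝ) : ℂ) * Complex.I := by push_cast; ring
  rw [this, Complex.norm_exp_ofReal_mul_I]

lemma WApi2_continuous_ev (x : W) : Continuous fun θ : ℝ => ev θ x := by
  have : (fun θ : ℝ => ev θ x) =
      fun θ : ℝ => ∑' n : ℤ, coef n x • Complex.exp (n * θ * Complex.I) := rfl
  rw [this]
  refine continuous_tsum (fun n => by fun_prop) (hasSum_norm x).summable fun n θ => ?_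
  rw [norm_smul, WApi2_norm_exp]
  gcongr
  exact one_le_wt n

lemma WApi2_int (n : ℤ) (x : W) : IntervalIntegrable
    (fun θ : ℝ => ev θ x * Complex.exp ((-n : ℤ) * θ * Complex.I)) MeasureTheory.volume 0
    (2 * Real.pi) :=
  ((WApi2_continuous_ev x).mul (by fun_prop)).intervalIntegrable _ _

/-- the Fourier coefficient of the boundary values -/
def WApi2_four (n : ℤ) : W →L[ℂ] ℂ :=
  LinearMap.mkContinuous
    { toFun := fun x => ∫ θ in (0 : ℝ)..2 * Real.pi,
        ev θ x * Complex.exp ((-n : ℤ) * θ * Complex.I)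
      map_add' := fun x y => by
        simp only [map_add, add_mul]
        exact intervalIntegral.integral_add (WApi2_int n x) (WApi2_int n y)
      map_smul' := fun c x => by
        simp only [map_smul, smul_eq_mul, mul_assoc c, RingHom.id_apply]
        exact intervalIntegral.integral_const_mul _ _ } (2 * Real.pi)
    fun x => by
      have := intervalIntegral.norm_integral_le_of_norm_le_const (a := 0) (b := 2 * Real.pi)
        (C := ‖x‖) (f := fun θ : ℝ => ev θ x * Complex.exp ((-n : ℤ) * θ * Complex.I))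
        fun θ _ => by rw [norm_mul, WApi2_norm_exp, mul_one]; exact norm_ev_le θ x
      rw [sub_zero, abs_of_pos (by positivity), mul_comm ‖x‖] at this
      exact this

lemma WApi2_four_eq (n : ℤ) : WApi2_four n = (2 * Real.pi : ℂ) • coef n := by
  refine clm_ext fun m => ?_
  change ∫ θ in (0 : ℝ)..2 * Real.pi,
    ev θ (mon m) * Complex.exp ((-n : ℤ) * θ * Complex.I) = _
  have e : ∀ θ : ℝ, ev θ (mon m) * Complex.exp ((-n : ℤ) * θ * Complex.I) =
      Complex.exp (((m - n : ℤ) * Complex.I) * θ) := fun θ => by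
    rw [ev_mon, ← Complex.exp_add]; congr 1; push_cast; ring
  simp only [e, smul_apply, coef_mon, smul_eq_mul]
  split_ifs with h
  · subst h; simp
  · have h1 : ((m - n : ℤ) : ℂ) * Complex.I ≠ 0 :=
      mul_ne_zero (by exact_mod_cast sub_ne_zero.2 (Ne.symm h)) Complex.I_ne_zero
    rw [integral_exp_mul_complex h1]
    have h2 : ((m - n : ℤ) : ℂ) * Complex.I * ((2 * Real.pi : ℝ) : ℂ) =
        ((m - n : ℤ) : ℂ) * (2 * Real.pi * Complex.I) := by push_cast; ring
    rw [h2, Complex.exp_int_mul_two_pi_mul_I]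
    simp

lemma ev_inj {x y : W} (h : ∀ θ, ev θ x = ev θ y) : x = y := by
  refine ext_coef fun n => ?_
  have h1 : WApi2_four n x = WApi2_four n y := by
    change ∫ θ in (0 : ℝ)..2 * Real.pi, ev θ x * Complex.exp ((-n : ℤ) * θ * Complex.I) =
      ∫ θ in (0 : ℝ)..2 * Real.pi, ev θ y * Complex.exp ((-n : ℤ) * θ * Complex.I)
    simp only [h]
  rw [WApi2_four_eq] at h1
  have h2 : (2 * Real.pi : ℂ) ≠ 0 := by exact_mod_cast (by positivity : (2 * Real.pi : ℝ) ≠ 0)
  exact mul_left_cancel₀ h2 h1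

lemma WApi2_exp_taylor (t : ℝ) :
    ‖Complex.exp (t * Complex.I) - 1 - t * Complex.I + (t : ℂ) ^ 2 / 2‖ ≤ 4 * |t| ^ 3 := by
  have hn : ‖(t : ℂ) * Complex.I‖ = |t| := by simp
  rcases le_total |t| 1 with h | h
  · have := Complex.exp_bound (x := t * Complex.I) (by rw [hn]; exact h) (n := 3) (by norm_num)
    rw [hn] at this
    have e : Complex.exp (t * Complex.I) - 1 - t * Complex.I + (t : ℂ) ^ 2 / 2 =
        Complex.exp (t * Complex.I) - ∑ m ∈ Finset.range 3,
          ((t : ℂ) * Complex.I) ^ m / (m.factorial : ℂ) := by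
      simp [Finset.sum_range_succ, mul_pow, Nat.factorial]; ring
    rw [e]
    refine this.trans ?_
    have h3 : 0 ≤ |t| ^ 3 := by positivity
    norm_num [Nat.factorial]
    linarith
  · have h1 : ‖Complex.exp (t * Complex.I) - 1 - t * Complex.I + (t : ℂ) ^ 2 / 2‖ ≤
        1 + 1 + |t| + |t| ^ 2 / 2 := by
      refine (norm_add_le _ _).trans (add_le_add ((norm_sub_le _ _).trans
        (add_le_add ((norm_sub_le _ _).trans ?_) hn.le)) ?_)
      · rw [Complex.norm_exp_ofReal_mul_I, norm_one]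
      · simp
    have h2 : |t| ≤ |t| ^ 2 := by nlinarith
    have h3 : |t| ^ 2 ≤ |t| ^ 3 := by nlinarith
    linarith

lemma WApi2_cube_le (n : ℤ) : |(n : ℝ)| ^ 3 ≤ 4 * wt n := by
  rw [wt, ← Int.cast_abs, ← Int.natCast_natAbs, Int.cast_natCast]
  have : ∀ m : ℕ, m ^ 3 ≤ 4 * 2 ^ m := by
    intro m
    induction m with
    | zero => simp
    | succ m ih =>
      rcases Nat.lt_or_ge m 4 with h | h
      · interval_cases m <;> norm_num
      · rw [pow_succ 2 m]
        have h1 : 4 * m ^ 2 ≤ m ^ 3 := by nlinarith [sq_nonneg m]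
        have h2 : 4 * m ≤ m ^ 2 := by nlinarith
        nlinarith
  exact_mod_cast this n.natAbs

lemma ev_taylor : ∃ C : ℝ, ∀ (θ : ℝ) (x : W),
    ‖ev θ x - j0 x - θ * Complex.I * j1 x + θ ^ 2 / 2 * j2 x‖ ≤ C * |θ| ^ 3 * ‖x‖ := by
  refine ⟨16, fun θ x => ?_⟩
  have := norm_clm_le (ev θ - j0 - ((θ : ℂ) * Complex.I) • j1 + ((θ : ℂ) ^ 2 / 2) • j2)
    (C := 16 * |θ| ^ 3) (fun n => by
      have h1 := WApi2_exp_taylor (n * θ)
      have e : (ev θ - j0 - ((θ : ℂ) * Complex.I) • j1 + ((θ : ℂ) ^ 2 / 2) • j2) (mon n) =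
          Complex.exp (((n * θ : ℝ) : ℂ) * Complex.I) - 1 - ((n * θ : ℝ) : ℂ) * Complex.I +
            ((n * θ : ℝ) : ℂ) ^ 2 / 2 := by
        simp; ring
      rw [e]
      refine h1.trans ?_
      rw [abs_mul, mul_pow]
      have h2 := WApi2_cube_le n
      have h3 : 0 ≤ |θ| ^ 3 := by positivity
      nlinarith [mul_le_mul_of_nonneg_right h2 h3]) x
  simpa using this

lemma sq_coef_le (n : ℤ) (x : W) : ‖coef n x‖ ^ 2 ≤ (coef 0 (rev (cj x) * x)).re := by
  have h1 := (hasSum_mon x).mapL ((coef 0).comp (mulL (rev (cj x))))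
  have h2 := Complex.hasSum_re h1
  have e : (fun k : ℤ => (((coef 0).comp (mulL (rev (cj x)))) (coef k x • mon k)).re) =
      fun k : ℤ => ‖coef k x‖ ^ 2 := by
    funext k
    rw [map_smul, ContinuousLinearMap.comp_apply, ← mul_def, coef_mul_mon, coef_rev, coef_cj,
      smul_eq_mul, zero_sub, neg_neg, Complex.mul_conj, Complex.ofReal_re, Complex.sq_norm]
  rw [e] at h2
  exact le_hasSum h2 n fun m _ => by positivity

/-- a positive loop close to a nonzero constant has a positive inverse -/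
lemma exists_inv_GE {x : W} {c : ℂ} (hx : GE 0 x) (h : ‖x - algebraMap ℂ W c‖ < ‖c‖) :
    ∃ y, GE 0 y ∧ x * y = 1 := by
  have hc : 0 < ‖c‖ := lt_of_le_of_lt (norm_nonneg _) h
  have hc0 : c ≠ 0 := norm_pos_iff.1 hc
  set u : W := 1 - c⁻¹ • x with hu
  have hu1 : ‖u‖ < 1 := by
    have : u = (-c⁻¹) • (x - algebraMap ℂ W c) := by
      rw [hu, Algebra.algebraMap_eq_smul_one, smul_sub, smul_smul, neg_mul, inv_mul_cancel₀ hc0,
        neg_smul, neg_smul, one_smul]
      abel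
    rw [this, norm_smul, norm_neg, norm_inv, inv_mul_lt_iff₀ hc, mul_one]
    exact h
  have huG : GE 0 u := GE_one.sub (hx.smul _)
  have hpow : ∀ k : ℕ, GE 0 (u ^ k) := by
    intro k
    induction k with
    | zero => rw [pow_zero]; exact GE_one
    | succ k ih => rw [pow_succ]; simpa using ih.mul huG
  have hs : GE 0 (∑' k : ℕ, u ^ k) := by
    refine (isClosed_GE 0).mem_of_tendsto (summable_geometric_of_norm_lt_one hu1).hasSum
      (Filter.Eventually.of_forall fun s => ?_)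
    exact Finset.sum_induction _ (GE 0) (fun _ _ => GE.add) (GE.zero 0) fun k _ => hpow k
  refine ⟨c⁻¹ • ∑' k : ℕ, u ^ k, hs.smul _, ?_⟩
  have := mul_neg_geom_series u hu1
  rw [hu, sub_sub_cancel, smul_mul_assoc] at this
  rw [mul_smul_comm]
  exact this

open Classical in
lemma WApi2_proj_mon (S : Set ℤ) (n : ℤ) : proj S (mon n) = if n ∈ S then mon n else 0 :=
  lift_mon _ _ _ _

/-- the Hankel operator as a function of its symbol -/
def WApi2_hankel : W →L[ℂ] W →L[ℂ] W :=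
  (ContinuousLinearMap.compL ℂ W W W (proj (Ici 0))).comp
    (((ContinuousLinearMap.compL ℂ W W W).flip (proj (Iio 0))).comp mulL)

lemma WApi2_hankel_apply (p x : W) :
    WApi2_hankel p x = proj (Ici 0) (p * proj (Iio 0) x) := rfl

lemma WApi2_hankel_mon (n : ℤ) :
    WApi2_hankel (mon n) = ∑ k ∈ Finset.Ico (-n) 0, (coef k).smulRight (mon (n + k)) := by
  refine clm_ext fun m => ?_
  rw [WApi2_hankel_apply, sum_apply]
  simp only [ContinuousLinearMap.smulRight_apply, coef_mon, ite_smul, one_smul, zero_smul,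
    Finset.sum_ite_eq', Finset.mem_Ico, WApi2_proj_mon, mem_Iio]
  by_cases h : m < 0
  · rw [if_pos h, mon_mul_mon, WApi2_proj_mon]
    by_cases h2 : -n ≤ m
    · rw [if_pos (show n + m ∈ Ici (0 : ℤ) from by simp only [mem_Ici]; omega), if_pos ⟨h2, h⟩]
    · rw [if_neg (show n + m ∉ Ici (0 : ℤ) from by simp only [mem_Ici]; omega),
        if_neg fun h3 => h2 h3.1]
  · rw [if_neg h, mul_zero, map_zero, if_neg fun h3 => h h3.2]

/-- Hankel operators are compact -/
lemma isCompactOperator_hankel (p : W) :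
    IsCompactOperator fun x : W => proj (Ici 0) (p * proj (Iio 0) x) := by
  change IsCompactOperator (WApi2_hankel p)
  refine ind (p := fun p => IsCompactOperator (WApi2_hankel p))
    (isClosed_setOfPred_isCompactOperator.preimage WApi2_hankel.continuous) ?_ (fun x y hx hy => ?_)
    (fun n c => ?_) p
  · rw [map_zero]; exact isCompactOperator_zero
  · rw [map_add]; exact hx.add hy
  · rw [map_smul, WApi2_hankel_mon]
    refine IsCompactOperator.smul ?_ c
    refine Finset.sum_induction _ (fun f : W →L[ℂ] W => IsCompactOperator f)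
      (fun _ _ hx hy => hx.add hy) isCompactOperator_zero fun k _ => ?_
    exact (isCompactOperator_of_locallyCompactSpace_dom (coef k)).continuous_comp
      (g := fun z : ℂ => z • mon (n + k)) (by fun_prop)

end W

end Pool.Agent.MP_efb2da_gt

end
end

section

open Set Complex Metric
open scoped Topology

noncomputable section

namespace Pool.Agent.MP_efb2da_gt

lemma vanish_cauchy {Q : ℂ → ℂ} {r R : ℝ} (hr : 0 < r)
    (hQ : DifferentiableOn ℂ Q {u | r / 2 < ‖u‖ ∧ ‖u‖ < 2 * R}) {w : ℂ} (h1 : r < ‖w‖)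
    (h2 : ‖w‖ < R) :
    2 * Real.pi * I * Q w =
      (∮ u in C(0, R), (u - w)⁻¹ * Q u) - ∮ u in C(0, r), (u - w)⁻¹ * Q u := by
  have hR : 0 < R := by linarith
  have hop : IsOpen {u : ℂ | r / 2 < ‖u‖ ∧ ‖u‖ < 2 * R} :=
    (isOpen_lt continuous_const continuous_norm).inter (isOpen_lt continuous_norm continuous_const)
  have hwA : w ∈ {u : ℂ | r / 2 < ‖u‖ ∧ ‖u‖ < 2 * R} := ⟨by linarith, by linarith⟩
  have hd : DifferentiableOn ℂ (dslope Q w) {u : ℂ | r / 2 < ‖u‖ ∧ ‖u‖ < 2 * R} :=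
    (differentiableOn_dslope (hop.mem_nhds hwA)).mpr hQ
  have hsub : closedBall (0 : ℂ) R \ ball 0 r ⊆ {u : ℂ | r / 2 < ‖u‖ ∧ ‖u‖ < 2 * R} := by
    intro u hu
    have a := hu.1
    have b := hu.2
    simp only [mem_closedBall, dist_zero_right, mem_ball, not_lt] at a b
    exact ⟨by linarith, by linarith⟩
  have key := circleIntegral_eq_of_differentiable_on_annulus_off_countable (c := 0) hr
    (by linarith : r ≤ R) (f := dslope Q w) countable_empty (hd.continuousOn.mono hsub)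
    (fun z hz => by
      have a := hz.1.1
      have b := hz.1.2
      simp only [mem_closedBall, dist_zero_right, mem_ball, not_le] at a b
      exact hd.differentiableAt (hop.mem_nhds ⟨by linarith, by linarith⟩))
  have hsplit : ∀ ρ : ℝ, 0 < ρ → r ≤ ρ → ρ ≤ R → ρ ≠ ‖w‖ →
      (∮ u in C(0, ρ), dslope Q w u) =
        (∮ u in C(0, ρ), (u - w)⁻¹ * Q u) - (∮ u in C(0, ρ), (u - w)⁻¹) * Q w := by
    intro ρ h0 ha hb hne
    have hsp : sphere (0 : ℂ) ρ ⊆ {u : ℂ | r / 2 < ‖u‖ ∧ ‖u‖ < 2 * R} := by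
      intro u hu
      simp only [mem_sphere, dist_zero_right] at hu
      exact ⟨by linarith, by linarith⟩
    have hne' : ∀ u ∈ sphere (0 : ℂ) ρ, u - w ≠ 0 := by
      intro u hu h
      simp only [mem_sphere, dist_zero_right] at hu
      apply hne
      rw [← hu, sub_eq_zero.mp h]
    have c1 : ContinuousOn (fun u : ℂ => (u - w)⁻¹) (sphere (0 : ℂ) ρ) :=
      (continuousOn_id.sub continuousOn_const).inv₀ hne'
    have i1 : CircleIntegrable (fun u : ℂ => (u - w)⁻¹ * Q u) 0 ρ :=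
      (c1.mul (hQ.continuousOn.mono hsp)).circleIntegrable h0.le
    have i2 : CircleIntegrable (fun u : ℂ => (u - w)⁻¹ * Q w) 0 ρ :=
      (c1.mul continuousOn_const).circleIntegrable h0.le
    have e : (∮ u in C(0, ρ), (u - w)⁻¹) * Q w = ∮ u in C(0, ρ), (u - w)⁻¹ * Q w := by
      have := circleIntegral.integral_smul_const (fun u : ℂ => (u - w)⁻¹) (Q w) 0 ρ
      simpa [smul_eq_mul] using this.symm
    rw [e, ← circleIntegral.integral_sub i1 i2]
    apply circleIntegral.integral_congr h0.le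
    intro u hu
    have := hne' u hu
    simp only
    rw [dslope_of_ne _ (sub_ne_zero.mp this), slope_def_field]
    field_simp
  rw [hsplit R hR (by linarith) le_rfl (by linarith), hsplit r hr le_rfl (by linarith) (by linarith),
    circleIntegral.integral_sub_inv_of_mem_ball (by simpa using h2)] at key
  have hz : (∮ u in C(0, r), (u - w)⁻¹) = 0 := by
    have hne' : ∀ u ∈ closedBall (0 : ℂ) r, u - w ≠ 0 := by
      intro u hu h
      simp only [mem_closedBall, dist_zero_right] at hu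
      rw [sub_eq_zero.mp h] at hu
      linarith
    apply circleIntegral_eq_zero_of_differentiable_on_off_countable hr.le countable_empty
      ((continuousOn_id.sub continuousOn_const).inv₀ hne')
    intro z hz
    exact (differentiableAt_id.sub_const w).inv (hne' z (ball_subset_closedBall hz.1))
  rw [hz] at key
  linear_combination -key

lemma vanish_circ {Q : ℂ → ℂ} {ρ m d M : ℝ} (hρ : 0 < ρ) (hd : 0 < d)
    (hQ : ContinuousOn Q (sphere 0 ρ)) (hM : ∀ u : ℂ, ‖u‖ = ρ → ‖Q u‖ ≤ M) {w w' : ℂ}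
    (hw : ‖w‖ = m) (hw' : ‖w'‖ = m) (hdist : d ≤ |ρ - m|) :
    ‖(∮ u in C(0, ρ), (u - w)⁻¹ * Q u) - ∮ u in C(0, ρ), (u - w')⁻¹ * Q u‖ ≤
      2 * Real.pi * ρ * (2 * m / d ^ 2 * M) := by
  have hlow : ∀ v : ℂ, ‖v‖ = m → ∀ u ∈ sphere (0 : ℂ) ρ, d ≤ ‖u - v‖ := by
    intro v hv u hu
    simp only [mem_sphere, dist_zero_right] at hu
    have := abs_norm_sub_norm_le u v
    rw [hu, hv] at this
    linarith
  have hint : ∀ v : ℂ, ‖v‖ = m → CircleIntegrable (fun u : ℂ => (u - v)⁻¹ * Q u) 0 ρ := by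
    intro v hv
    refine ContinuousOn.circleIntegrable hρ.le (ContinuousOn.mul ?_ hQ)
    refine (continuousOn_id.sub continuousOn_const).inv₀ ?_
    intro u hu h
    have := hlow v hv u hu
    have h' : u - v = 0 := h
    rw [h', norm_zero] at this
    linarith
  rw [← circleIntegral.integral_sub (hint w hw) (hint w' hw')]
  apply circleIntegral.norm_integral_le_of_norm_le_const hρ.le
  intro u hu
  have a := hlow w hw u hu
  have b := hlow w' hw' u hu
  have a0 : u - w ≠ 0 := by intro h; rw [h, norm_zero] at a; linarith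
  have b0 : u - w' ≠ 0 := by intro h; rw [h, norm_zero] at b; linarith
  have hm : 0 ≤ m := hw ▸ norm_nonneg w
  have e : (u - w)⁻¹ * Q u - (u - w')⁻¹ * Q u = (w - w') / ((u - w) * (u - w')) * Q u := by
    field_simp
    ring
  have hu' : ‖u‖ = ρ := by simpa using hu
  rw [e, norm_mul, norm_div, norm_mul]
  have c : ‖w - w'‖ ≤ 2 * m := by
    have := norm_sub_le w w'
    linarith
  refine mul_le_mul ?_ (hM u hu') (norm_nonneg _) (by positivity)
  rw [sq]
  exact div_le_div₀ (by positivity) c (by positivity) (mul_le_mul a b hd.le (norm_nonneg _))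

/-- oscillation on the middle circle of a long annulus -/
theorem annulus_osc {Q : ℂ → ℂ} {r m R M : ℝ} (hr : 0 < r) (h1 : 4 * r ≤ m) (h2 : 4 * m ≤ R)
    (hQ : DifferentiableOn ℂ Q {u | r / 2 < ‖u‖ ∧ ‖u‖ < 2 * R})
    (hM : ∀ u : ℂ, ‖u‖ = r ∨ ‖u‖ = R → ‖Q u‖ ≤ M) {w w' : ℂ} (hw : ‖w‖ = m) (hw' : ‖w'‖ = m) :
    ‖Q w - Q w'‖ ≤ 4 * M * (m / R + r / m) := by
  have hm : 0 < m := by linarith
  have hR : 0 < R := by linarith
  have hM0 : 0 ≤ M := (norm_nonneg _).trans (hM (r : ℂ) (Or.inl (by simp [hr.le])))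
  have e1 := vanish_cauchy hr hQ (w := w) (by linarith) (by linarith)
  have e2 := vanish_cauchy hr hQ (w := w') (by linarith) (by linarith)
  have hc : ∀ ρ : ℝ, r ≤ ρ → ρ ≤ R → ContinuousOn Q (sphere 0 ρ) := by
    intro ρ a b
    refine hQ.continuousOn.mono ?_
    intro u hu
    simp only [mem_sphere, dist_zero_right] at hu
    exact ⟨by linarith, by linarith⟩
  have b1 := vanish_circ (d := 3 / 4 * R) hR (by positivity) (hc R (by linarith) le_rfl)
    (fun u hu => hM u (Or.inr hu)) hw hw' (le_trans (by linarith) (le_abs_self _))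
  have b2 := vanish_circ (d := 3 / 4 * m) hr (by positivity) (hc r le_rfl (by linarith))
    (fun u hu => hM u (Or.inl hu)) hw hw' (le_trans (by linarith) (neg_le_abs _))
  have e : 2 * Real.pi * I * (Q w - Q w') =
      ((∮ u in C(0, R), (u - w)⁻¹ * Q u) - ∮ u in C(0, R), (u - w')⁻¹ * Q u) -
      ((∮ u in C(0, r), (u - w)⁻¹ * Q u) - ∮ u in C(0, r), (u - w')⁻¹ * Q u) := by
    linear_combination e1 - e2
  have n1 : ‖2 * (Real.pi : ℂ) * I * (Q w - Q w')‖ = 2 * Real.pi * ‖Q w - Q w'‖ := by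
    simp [norm_mul, abs_of_pos Real.pi_pos]
  have n2 := norm_sub_le ((∮ u in C(0, R), (u - w)⁻¹ * Q u) - ∮ u in C(0, R), (u - w')⁻¹ * Q u)
    ((∮ u in C(0, r), (u - w)⁻¹ * Q u) - ∮ u in C(0, r), (u - w')⁻¹ * Q u)
  rw [← e, n1] at n2
  have f1 : 2 * Real.pi * R * (2 * m / (3 / 4 * R) ^ 2 * M) =
      2 * Real.pi * (32 / 9 * M * (m / R)) := by
    field_simp
    ring
  have f2 : 2 * Real.pi * r * (2 * m / (3 / 4 * m) ^ 2 * M) =
      2 * Real.pi * (32 / 9 * M * (r / m)) := by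
    field_simp
    ring
  rw [f1] at b1
  rw [f2] at b2
  have p1 : 0 ≤ M * (m / R) := by positivity
  have p2 : 0 ≤ M * (r / m) := by positivity
  have hpi := Real.pi_pos
  have : 2 * Real.pi * ‖Q w - Q w'‖ ≤ 2 * Real.pi * (4 * M * (m / R + r / m)) := by
    nlinarith
  exact le_of_mul_le_mul_left this (by positivity)

lemma vanish_fin {a d b M : ℝ} (ha : 0 ≤ a) (haM : a ≤ 128 * M) (hd : 0 ≤ d) (hd' : d ≤ 1 / 2 ^ 30)
    (hb : 0 ≤ b) (hb' : b ≤ 2) : a ^ 3 * d * b ^ 4 ≤ (M / 2) ^ 3 := by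
  have hM : 0 ≤ M := by linarith
  have h1 : a ^ 3 ≤ (128 * M) ^ 3 := pow_le_pow_left₀ ha haM 3
  have h2 : b ^ 4 ≤ 2 ^ 4 := pow_le_pow_left₀ hb hb' 4
  have h3 : a ^ 3 * d * b ^ 4 ≤ (128 * M) ^ 3 * (1 / 2 ^ 30) * 2 ^ 4 := by
    refine mul_le_mul (mul_le_mul h1 hd' hd (by positivity)) h2 (by positivity) (by positivity)
  have h4 : 0 ≤ M ^ 3 := by positivity
  nlinarith

/-- one step of the contraction -/
lemma vanish_step {ε s : ℝ} {Q : ℂ → ℂ} (hε : 0 < ε) (hε' : ε ≤ 1 / 2 ^ 30) (hs : 0 < s)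
    (hs' : s ≤ 1 / 2 ^ 30)
    (hQ : DifferentiableOn ℂ Q {z | 8 * s ^ 2 < ‖z‖ ∧ 8 * s ^ 2 * ‖z‖ < 1 ∧ 8 * ε ^ 2 < ‖z - 1‖})
    (h0 : ∀ z : ℂ, 8 < ‖z‖ → 8 * s ^ 2 * ‖z‖ < 1 →
      (s ^ 2 * z) ^ 2 * Q (s ^ 2 * z) = z ^ 2 * Q z)
    (h1 : ∀ u : ℂ, 8 * ε ^ 2 < ‖u‖ → ‖u‖ < 1/8 →
      (ε ^ 2 / u) ^ 2 * Q (1 + ε ^ 2 / u) = u ^ 2 * Q (1 + u))
    (z1 : Q (1 + ε) = 0) (z0 : Q (1 / s) = 0) {M : ℝ}
    (hM0 : ∀ z : ℂ, ‖z‖ = 1 / 16 ∨ ‖z‖ = 16 → ‖z ^ 2 * Q z‖ ≤ M)
    (hM1 : ∀ u : ℂ, ‖u‖ = 1 / 16 → ‖u ^ 2 * Q (1 + u)‖ ≤ M) (z : ℂ) (a : s ≤ ‖z‖)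
    (b : ‖z‖ ≤ 1 / s) (c : ε ≤ ‖z - 1‖) : ‖Q z ^ 3 * z ^ 4 * (z - 1) ^ 4‖ ≤ (M / 2) ^ 3 := by
  have hs2 : s ^ 2 ≤ s / 2 ^ 30 := by nlinarith
  have hε2 : ε ^ 2 ≤ ε / 2 ^ 30 := by nlinarith
  have hsc : (s : ℂ) ≠ 0 := by exact_mod_cast hs.ne'
  have hεc : (ε : ℂ) ≠ 0 := by exact_mod_cast hε.ne'
  have hns : ‖(s : ℂ)‖ = s := by simp [hs.le]
  have hnε : ‖(ε : ℂ)‖ = ε := by simp [hε.le]
  have hst : s * (1 / s) = 1 := by field_simp
  have ht8 : 8 < 1 / s := by rw [lt_div_iff₀ hs]; linarith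
  have hst8 : 8 * s ^ 2 * (1 / s) < 1 := by
    have : 8 * s ^ 2 * (1 / s) = 8 * s := by field_simp
    rw [this]; linarith
  -- the neck at zero
  have A0 : ∀ w : ℂ, ‖w‖ = s → ‖w ^ 2 * Q w‖ ≤ 128 * M * s := by
    intro w hw
    have hd : DifferentiableOn ℂ (fun z : ℂ => z ^ 2 * Q z)
        {u | 16 * s ^ 2 / 2 < ‖u‖ ∧ ‖u‖ < 2 * (1 / 16)} := by
      refine (differentiableOn_id.pow 2).mul (hQ.mono ?_)
      intro u hu
      have u1 := hu.1
      have u2 := hu.2
      have u3 : 1 - ‖u‖ ≤ ‖u - 1‖ := by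
        have := norm_sub_norm_le (1 : ℂ) u
        rw [norm_one, norm_sub_rev] at this
        exact this
      refine ⟨by linarith, ?_, by linarith⟩
      nlinarith [norm_nonneg u]
    have hb : ∀ u : ℂ, ‖u‖ = 16 * s ^ 2 ∨ ‖u‖ = 1 / 16 → ‖u ^ 2 * Q u‖ ≤ M := by
      rintro u (hu | hu)
      · have n : ‖u / s ^ 2‖ = 16 := by
          rw [norm_div, norm_pow, hns, hu]; field_simp
        have := h0 (u / s ^ 2) (by rw [n]; norm_num) (by rw [n]; linarith)
        have e : (s : ℂ) ^ 2 * (u / s ^ 2) = u := by field_simp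
        rw [e] at this
        rw [this]
        exact hM0 _ (Or.inr n)
      · exact hM0 _ (Or.inl hu)
    have hz : (s : ℂ) ^ 2 * Q s = 0 := by
      have n : ‖1 / (s : ℂ)‖ = 1 / s := by rw [norm_div, norm_one, hns]
      have := h0 (1 / s) (by rw [n]; exact ht8) (by rw [n]; exact hst8)
      have e : (s : ℂ) ^ 2 * (1 / s) = s := by field_simp
      rw [e, z0, mul_zero] at this
      exact this
    have := annulus_osc (Q := fun z : ℂ => z ^ 2 * Q z) (r := 16 * s ^ 2) (m := s) (R := 1 / 16)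
      (M := M) (by positivity) (by linarith) (by linarith) hd hb hw hns
    simp only [hz, sub_zero] at this
    have e : 4 * M * (s / (1 / 16) + 16 * s ^ 2 / s) = 128 * M * s := by field_simp; ring
    rwa [e] at this
  -- the neck at one
  have A1 : ∀ w : ℂ, ‖w‖ = ε → ‖w ^ 2 * Q (1 + w)‖ ≤ 128 * M * ε := by
    intro w hw
    have hd : DifferentiableOn ℂ (fun u : ℂ => u ^ 2 * Q (1 + u))
        {u | 16 * ε ^ 2 / 2 < ‖u‖ ∧ ‖u‖ < 2 * (1 / 16)} := by
      refine (differentiableOn_id.pow 2).mul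
        (hQ.comp (differentiableOn_id.const_add 1) ?_)
      intro u hu
      have u1 := hu.1
      have u2 := hu.2
      have u3 : 1 - ‖u‖ ≤ ‖1 + u‖ := by
        have := norm_sub_norm_le (1 : ℂ) (-u)
        rw [norm_one, norm_neg, sub_neg_eq_add] at this
        exact this
      have u4 : ‖1 + u‖ ≤ 1 + ‖u‖ := by
        have := norm_add_le (1 : ℂ) u
        rwa [norm_one] at this
      simp only [id, mem_setOf_eq, add_sub_cancel_left]
      refine ⟨by linarith, ?_, by linarith⟩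
      nlinarith [norm_nonneg (1 + u)]
    have hb : ∀ u : ℂ, ‖u‖ = 16 * ε ^ 2 ∨ ‖u‖ = 1 / 16 → ‖u ^ 2 * Q (1 + u)‖ ≤ M := by
      rintro u (hu | hu)
      · have u0 : u ≠ 0 := by
          intro h
          rw [h, norm_zero] at hu
          have : 0 < 16 * ε ^ 2 := by positivity
          linarith
        have n : ‖(ε : ℂ) ^ 2 / u‖ = 1 / 16 := by
          rw [norm_div, norm_pow, hnε, hu]; field_simp
        have := h1 (ε ^ 2 / u) (by rw [n]; linarith) (by rw [n]; norm_num)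
        have e : (ε : ℂ) ^ 2 / (ε ^ 2 / u) = u := by field_simp
        rw [e] at this
        rw [this]
        exact hM1 _ n
      · exact hM1 _ hu
    have := annulus_osc (Q := fun u : ℂ => u ^ 2 * Q (1 + u)) (r := 16 * ε ^ 2) (m := ε)
      (R := 1 / 16) (M := M) (by positivity) (by linarith) (by linarith) hd hb hw hnε
    simp only [z1, mul_zero, sub_zero] at this
    have e : 4 * M * (ε / (1 / 16) + 16 * ε ^ 2 / ε) = 128 * M * ε := by field_simp; ring
    rwa [e] at this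
  -- bounds on the three boundary circles
  have B : ∀ z : ℂ, ‖z‖ = s ∨ ‖z‖ = 1 / s ∨ ‖z - 1‖ = ε →
      ‖Q z ^ 3 * z ^ 4 * (z - 1) ^ 4‖ ≤ (M / 2) ^ 3 := by
    intro z hz
    have n1 : ‖z - 1‖ ≤ ‖z‖ + 1 := by
      have := norm_sub_le z 1
      rwa [norm_one] at this
    rw [norm_mul, norm_mul, norm_pow, norm_pow, norm_pow]
    rcases hz with hz | hz | hz
    · have := A0 z hz
      rw [norm_mul, norm_pow, hz] at this
      have k : ‖Q z‖ * s ≤ 128 * M := by
        refine le_of_mul_le_mul_right ?_ hs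
        nlinarith
      have := vanish_fin (by positivity) k hs.le hs' (norm_nonneg (z - 1)) (by linarith)
      rw [hz]
      calc _ = (‖Q z‖ * s) ^ 3 * s * ‖z - 1‖ ^ 4 := by ring
        _ ≤ _ := this
    · have n : ‖(s : ℂ) ^ 2 * z‖ = s := by
        rw [norm_mul, norm_pow, hns, hz]; field_simp
      have := A0 _ n
      rw [h0 z (by rw [hz]; exact ht8) (by rw [hz]; exact hst8), norm_mul, norm_pow, hz] at this
      have k : ‖Q z‖ * (1 / s) ^ 3 ≤ 128 * M := by
        refine le_of_mul_le_mul_right ?_ hs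
        have e : ‖Q z‖ * (1 / s) ^ 3 * s = (1 / s) ^ 2 * ‖Q z‖ := by field_simp
        rw [e]
        exact this
      have k2 : ‖z - 1‖ * s ≤ 2 := by
        rw [hz] at n1
        have := mul_le_mul_of_nonneg_right n1 hs.le
        nlinarith
      have := vanish_fin (by positivity) k hs.le hs' (by positivity) k2
      rw [hz]
      calc _ = (‖Q z‖ * (1 / s) ^ 3) ^ 3 * s * (‖z - 1‖ * s) ^ 4 := by field_simp
        _ ≤ _ := this
    · have := A1 _ hz
      rw [norm_mul, norm_pow, hz, add_sub_cancel] at this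
      have k : ‖Q z‖ * ε ≤ 128 * M := by
        refine le_of_mul_le_mul_right ?_ hε
        nlinarith
      have n2 : ‖z‖ ≤ 2 := by
        have := norm_add_le (z - 1) 1
        rw [sub_add_cancel, norm_one, hz] at this
        linarith
      have := vanish_fin (by positivity) k hε.le hε' (norm_nonneg z) n2
      rw [hz]
      calc _ = (‖Q z‖ * ε) ^ 3 * ε * ‖z‖ ^ 4 := by ring
        _ ≤ _ := this
  by_cases hb : ‖z‖ = s ∨ ‖z‖ = 1 / s ∨ ‖z - 1‖ = ε
  · exact B z hb
  push Not at hb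
  set U : Set ℂ := {z | s < ‖z‖ ∧ ‖z‖ < 1 / s ∧ ε < ‖z - 1‖} with hU
  have cn : Continuous fun z : ℂ => ‖z - 1‖ := by fun_prop
  have hop : IsOpen U :=
    (isOpen_lt continuous_const continuous_norm).inter
      ((isOpen_lt continuous_norm continuous_const).inter (isOpen_lt continuous_const cn))
  have hcl : IsClosed {z : ℂ | s ≤ ‖z‖ ∧ ‖z‖ ≤ 1 / s ∧ ε ≤ ‖z - 1‖} :=
    (isClosed_le continuous_const continuous_norm).inter
      ((isClosed_le continuous_norm continuous_const).inter (isClosed_le continuous_const cn))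
  have hsub : closure U ⊆ {z : ℂ | s ≤ ‖z‖ ∧ ‖z‖ ≤ 1 / s ∧ ε ≤ ‖z - 1‖} :=
    closure_minimal (fun z hz => ⟨hz.1.le, hz.2.1.le, hz.2.2.le⟩) hcl
  have hbd : Bornology.IsBounded U := by
    refine (isBounded_ball (x := (0 : ℂ)) (r := 1 / s)).subset ?_
    intro z hz
    simpa using hz.2.1
  have hd : DifferentiableOn ℂ (fun z : ℂ => Q z ^ 3 * z ^ 4 * (z - 1) ^ 4) (closure U) := by
    refine (((hQ.mono ?_).pow 3).mul (differentiableOn_id.pow 4)).mul
      ((differentiableOn_id.sub_const 1).pow 4)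
    intro z hz
    obtain ⟨a, b, c⟩ := hsub hz
    refine ⟨by linarith, ?_, by linarith⟩
    have := mul_le_mul_of_nonneg_left b (by positivity : 0 ≤ 8 * s ^ 2)
    linarith
  refine Complex.norm_le_of_forall_mem_frontier_norm_le hbd hd.diffContOnCl ?_
    (subset_closure ⟨lt_of_le_of_ne a (Ne.symm hb.1), lt_of_le_of_ne b hb.2.1,
      lt_of_le_of_ne c (Ne.symm hb.2.2)⟩)
  intro z hz
  rw [hop.frontier_eq] at hz
  obtain ⟨a, b, c⟩ := hsub hz.1
  apply B
  by_contra hb
  push Not at hb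
  exact hz.2 ⟨lt_of_le_of_ne a (Ne.symm hb.1), lt_of_le_of_ne b hb.2.1,
    lt_of_le_of_ne c (Ne.symm hb.2.2)⟩

lemma vanish_core {ε s : ℝ} {Q : ℂ → ℂ} (hε : 0 < ε) (hε' : ε ≤ 1 / 2 ^ 30) (hs : 0 < s)
    (hs' : s ≤ 1 / 2 ^ 30)
    (hQ : DifferentiableOn ℂ Q {z | 8 * s ^ 2 < ‖z‖ ∧ 8 * s ^ 2 * ‖z‖ < 1 ∧ 8 * ε ^ 2 < ‖z - 1‖})
    (h0 : ∀ z : ℂ, 8 < ‖z‖ → 8 * s ^ 2 * ‖z‖ < 1 →
      (s ^ 2 * z) ^ 2 * Q (s ^ 2 * z) = z ^ 2 * Q z)
    (h1 : ∀ u : ℂ, 8 * ε ^ 2 < ‖u‖ → ‖u‖ < 1/8 →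
      (ε ^ 2 / u) ^ 2 * Q (1 + ε ^ 2 / u) = u ^ 2 * Q (1 + u))
    (z1 : Q (1 + ε) = 0) (z0 : Q (1 / s) = 0) (z : ℂ) (a : s ≤ ‖z‖)
    (b : ‖z‖ ≤ 1 / s) (c : ε ≤ ‖z - 1‖) : Q z = 0 := by
  have hs2 : s ^ 2 ≤ s / 2 ^ 30 := by nlinarith
  have hε2 : ε ^ 2 ≤ ε / 2 ^ 30 := by nlinarith
  have ht : 16 ≤ 1 / s := by rw [le_div_iff₀ hs]; linarith
  have lo : ∀ z : ℂ, |‖z‖ - 1| ≤ ‖z - 1‖ := by
    intro z
    have := abs_norm_sub_norm_le z 1
    rwa [norm_one] at this
  have lo1 : ∀ u : ℂ, 1 - ‖u‖ ≤ ‖1 + u‖ ∧ ‖1 + u‖ ≤ 1 + ‖u‖ := by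
    intro u
    constructor
    · have := norm_sub_norm_le (1 : ℂ) (-u)
      rw [norm_one, norm_neg, sub_neg_eq_add] at this
      exact this
    · have := norm_add_le (1 : ℂ) u
      rwa [norm_one] at this
  have lo0 : ∀ z : ℂ, ‖z‖ = 1 / 16 ∨ ‖z‖ = 16 → s ≤ ‖z‖ ∧ ‖z‖ ≤ 1 / s ∧ 15 / 16 ≤ ‖z - 1‖ := by
    intro z hz
    have := lo z
    rcases hz with hz | hz
    · rw [hz] at this ⊢
      have := neg_le_abs ((1 : ℝ) / 16 - 1)
      exact ⟨by linarith, by linarith, by linarith⟩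
    · rw [hz] at this ⊢
      have := le_abs_self ((16 : ℝ) - 1)
      exact ⟨by linarith, by linarith, by linarith⟩
  -- an initial bound
  obtain ⟨M, hM0, hM1⟩ : ∃ M : ℝ, (∀ z : ℂ, ‖z‖ = 1 / 16 ∨ ‖z‖ = 16 → ‖z ^ 2 * Q z‖ ≤ M) ∧
      ∀ u : ℂ, ‖u‖ = 1 / 16 → ‖u ^ 2 * Q (1 + u)‖ ≤ M := by
    have c0 : ContinuousOn (fun z : ℂ => z ^ 2 * Q z) (sphere 0 (1 / 16) ∪ sphere 0 16) := by
      refine (continuousOn_id.pow 2).mul (hQ.continuousOn.mono ?_)
      intro z hz
      have hz' : ‖z‖ = 1 / 16 ∨ ‖z‖ = 16 := by simpa using hz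
      obtain ⟨a, b, c⟩ := lo0 z hz'
      refine ⟨by linarith, ?_, by linarith⟩
      rcases hz' with h | h <;> rw [h] <;> linarith
    have c1 : ContinuousOn (fun u : ℂ => u ^ 2 * Q (1 + u)) (sphere 0 (1 / 16)) := by
      refine (continuousOn_id.pow 2).mul
        (hQ.continuousOn.comp (continuousOn_const.add continuousOn_id) ?_)
      intro u hu
      have hu' : ‖u‖ = 1 / 16 := by simpa using hu
      obtain ⟨a, b⟩ := lo1 u
      simp only [id, mem_setOf_eq, add_sub_cancel_left]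
      refine ⟨by linarith, ?_, by linarith⟩
      nlinarith [norm_nonneg (1 + u)]
    obtain ⟨M0, h0⟩ := ((isCompact_sphere (0 : ℂ) (1 / 16)).union
      (isCompact_sphere (0 : ℂ) 16)).exists_bound_of_continuousOn c0
    obtain ⟨M1, h1⟩ := (isCompact_sphere (0 : ℂ) (1 / 16)).exists_bound_of_continuousOn c1
    refine ⟨max M0 M1, fun z hz => (h0 z (by simpa using hz)).trans (le_max_left _ _),
      fun u hu => (h1 u (by simpa using hu)).trans (le_max_right _ _)⟩
  have hMn : 0 ≤ M := (norm_nonneg _).trans (hM0 (16 : ℂ) (Or.inr (by simp)))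
  have ind : ∀ k : ℕ, (∀ z : ℂ, ‖z‖ = 1 / 16 ∨ ‖z‖ = 16 → ‖z ^ 2 * Q z‖ ≤ M / 2 ^ k) ∧
      ∀ u : ℂ, ‖u‖ = 1 / 16 → ‖u ^ 2 * Q (1 + u)‖ ≤ M / 2 ^ k := by
    intro k
    induction k with
    | zero =>
      simp only [pow_zero, div_one]
      exact ⟨hM0, hM1⟩
    | succ k ih =>
      have e : M / 2 ^ (k + 1) = M / 2 ^ k / 2 := by rw [pow_succ, div_div]
      have st := vanish_step hε hε' hs hs' hQ h0 h1 z1 z0 ih.1 ih.2
      rw [e]
      constructor
      · intro z hz
        obtain ⟨a, b, c⟩ := lo0 z hz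
        have := st z a b (by linarith)
        refine le_of_pow_le_pow_left₀ (n := 3) (by norm_num) (by positivity) (le_trans ?_ this)
        rw [norm_mul, norm_mul, norm_mul, norm_pow, norm_pow, norm_pow, norm_pow]
        have k1 : ‖z‖ ^ 2 ≤ ‖z - 1‖ ^ 4 := by
          rcases hz with hz | hz
          · have := pow_le_pow_left₀ (by norm_num) c 4
            rw [hz]
            linarith
          · have := lo z
            rw [hz] at this ⊢
            have k2 : (15 : ℝ) ≤ ‖z - 1‖ := by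
              have := le_abs_self ((16 : ℝ) - 1)
              linarith
            have := pow_le_pow_left₀ (by norm_num) k2 4
            linarith
        calc _ = ‖Q z‖ ^ 3 * ‖z‖ ^ 4 * ‖z‖ ^ 2 := by ring
          _ ≤ _ := mul_le_mul_of_nonneg_left k1 (by positivity)
      · intro u hu
        obtain ⟨a, b⟩ := lo1 u
        have := st (1 + u) (by linarith) (by linarith) (by rw [add_sub_cancel_left]; linarith)
        refine le_of_pow_le_pow_left₀ (n := 3) (by norm_num) (by positivity) (le_trans ?_ this)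
        rw [add_sub_cancel_left, norm_mul, norm_mul, norm_mul, norm_pow, norm_pow, norm_pow,
          norm_pow]
        have k1 : ‖u‖ ^ 2 ≤ ‖1 + u‖ ^ 4 := by
          have k2 : (15 / 16 : ℝ) ≤ ‖1 + u‖ := by linarith
          have := pow_le_pow_left₀ (by norm_num) k2 4
          rw [hu]
          linarith
        calc _ = ‖Q (1 + u)‖ ^ 3 * ‖u‖ ^ 2 * ‖u‖ ^ 4 := by ring
          _ ≤ _ := mul_le_mul_of_nonneg_right
            (mul_le_mul_of_nonneg_left k1 (by positivity)) (by positivity)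
  have lim : Filter.Tendsto (fun k : ℕ => (M / 2 ^ k / 2) ^ 3) Filter.atTop (𝓝 ((0 / 2) ^ 3)) := by
    refine (Filter.Tendsto.div_const ?_ 2).pow 3
    exact tendsto_const_nhds.div_atTop (tendsto_pow_atTop_atTop_of_one_lt (by norm_num))
  have := ge_of_tendsto' lim
    (fun k => vanish_step hε hε' hs hs' hQ h0 h1 z1 z0 (ind k).1 (ind k).2 z a b c)
  have hz : Q z ^ 3 * z ^ 4 * (z - 1) ^ 4 = 0 := by
    apply norm_le_zero_iff.mp
    simpa using this
  have n0 : z ≠ 0 := by intro h; rw [h, norm_zero] at a; linarith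
  have n1 : z - 1 ≠ 0 := by intro h; rw [h, norm_zero] at c; linarith
  simpa [n0, n1] using hz

/-- A symmetric quadratic differential without poles vanishing at one point of each neck is zero. -/
theorem quad_vanish : ∃ η > 0, ∀ (ε q : ℝ) (Q : ℂ → ℂ), 0 < ε → ε ≤ η → 0 < q → q ≤ η →
    DifferentiableOn ℂ Q {z | 8 * q < ‖z‖ ∧ 8 * q * ‖z‖ < 1 ∧ 8 * ε ^ 2 < ‖z - 1‖} →
    (∀ z : ℂ, 8 < ‖z‖ → 8 * q * ‖z‖ < 1 → (q * z) ^ 2 * Q (q * z) = z ^ 2 * Q z) →
    (∀ u : ℂ, 8 * ε ^ 2 < ‖u‖ → ‖u‖ < 1/8 →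
      (ε ^ 2 / u) ^ 2 * Q (1 + ε ^ 2 / u) = u ^ 2 * Q (1 + u)) →
    Q (1 + ε) = 0 → Q (1 / √q) = 0 →
    ∀ z : ℂ, 8 * q < ‖z‖ → 8 * q * ‖z‖ < 1 → 8 * ε ^ 2 < ‖z - 1‖ → Q z = 0 := by
  refine ⟨(1 / 2 ^ 30) ^ 2, by positivity, ?_⟩
  intro ε q Q hε hε' hq hq' hQ h0 h1 z1 z0 z a b c
  obtain ⟨s, hs, rfl⟩ : ∃ s : ℝ, 0 < s ∧ q = s ^ 2 :=
    ⟨√q, Real.sqrt_pos.mpr hq, (Real.sq_sqrt hq.le).symm⟩
  rw [Real.sqrt_sq hs.le] at z0
  have hs' : s ≤ 1 / 2 ^ 30 := le_of_pow_le_pow_left₀ (n := 2) (by norm_num) (by positivity) hq'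
  have hε'' : ε ≤ 1 / 2 ^ 30 := hε'.trans (by norm_num)
  simp only [ofReal_pow] at h0
  have core := vanish_core hε hε'' hs hs' hQ h0 h1 z1 z0
  have hsc : (s : ℂ) ≠ 0 := by exact_mod_cast hs.ne'
  have hns : ‖(s : ℂ)‖ = s := by simp [hs.le]
  have hnε : ‖(ε : ℂ)‖ = ε := by simp [hε.le]
  have ht : 16 ≤ 1 / s := by rw [le_div_iff₀ hs]; linarith
  have lo : ∀ z : ℂ, |‖z‖ - 1| ≤ ‖z - 1‖ := by
    intro z
    have := abs_norm_sub_norm_le z 1
    rwa [norm_one] at this
  have n0 : z ≠ 0 := by intro h; rw [h, norm_zero] at a; linarith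
  have n1 : z - 1 ≠ 0 := by
    intro h
    rw [h, norm_zero] at c
    have : 0 < 8 * ε ^ 2 := by positivity
    linarith
  rcases lt_or_ge ‖z‖ s with k1 | k1
  · have n : ‖z / s ^ 2‖ = ‖z‖ / s ^ 2 := by rw [norm_div, norm_pow, hns]
    have m1 : 8 < ‖z / s ^ 2‖ := by rw [n, lt_div_iff₀ hq]; exact a
    have m2 : ‖z / s ^ 2‖ ≤ 1 / s := by
      rw [n, div_le_div_iff₀ hq hs]
      nlinarith
    have m3 : 8 * s ^ 2 * ‖z / s ^ 2‖ < 1 := by
      rw [n]
      have : 8 * s ^ 2 * (‖z‖ / s ^ 2) = 8 * ‖z‖ := by field_simp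
      rw [this]; linarith
    have := h0 _ m1 m3
    have e : (s : ℂ) ^ 2 * (z / s ^ 2) = z := by field_simp
    have m4 := (le_abs_self _).trans (lo (z / s ^ 2))
    rw [e, core (z / s ^ 2) (by linarith) m2 (by linarith), mul_zero] at this
    simpa [n0] using this
  rcases lt_or_ge (1 / s) ‖z‖ with k2 | k2
  · have n : ‖(s : ℂ) ^ 2 * z‖ = s ^ 2 * ‖z‖ := by rw [norm_mul, norm_pow, hns]
    have := h0 z (by linarith) b
    have m1 : s ≤ ‖(s : ℂ) ^ 2 * z‖ := by
      rw [n]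
      rw [div_lt_iff₀ hs] at k2
      nlinarith
    have m2 : ‖(s : ℂ) ^ 2 * z‖ < 1 / 8 := by rw [n]; linarith
    have m4 := (neg_le_abs _).trans (lo ((s : ℂ) ^ 2 * z))
    rw [core _ m1 (by linarith) (by linarith), mul_zero] at this
    simpa [n0] using this.symm
  rcases lt_or_ge ‖z - 1‖ ε with k3 | k3
  · have p : 0 < ‖z - 1‖ := norm_pos_iff.mpr n1
    have n : ‖(ε : ℂ) ^ 2 / (z - 1)‖ = ε ^ 2 / ‖z - 1‖ := by rw [norm_div, norm_pow, hnε]
    have := h1 (z - 1) c (by linarith)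
    have m1 : ε ≤ ‖(ε : ℂ) ^ 2 / (z - 1)‖ := by
      rw [n, le_div_iff₀ p]
      nlinarith
    have m2 : ‖(ε : ℂ) ^ 2 / (z - 1)‖ ≤ 1 / 8 := by
      rw [n, div_le_iff₀ p]
      linarith
    have m3 := norm_add_le (1 : ℂ) ((ε : ℂ) ^ 2 / (z - 1))
    have m4 := norm_sub_norm_le (1 : ℂ) (-((ε : ℂ) ^ 2 / (z - 1)))
    rw [norm_one] at m3
    rw [norm_one, norm_neg, sub_neg_eq_add] at m4
    rw [core _ (by linarith) (by linarith) (by rw [add_sub_cancel_left]; exact m1), mul_zero,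
      add_sub_cancel] at this
    simpa [n1] using this.symm
  exact core z k1 k2 k3

end Pool.Agent.MP_efb2da_gt

end
end
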