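import Pool.Agent.Mg.Fefb2da.G7ee8d7
import Pool.Agent.Mg.Fefb2da.G1ff811
import Pool.Agent.Mg.Fefb2da.G5bb93d
import Pool.Agent.MP_efb2da_gt.Contract

section

open Set Complex
open scoped Topology ComplexConjugate Matrix ContDiff

noncomputable section

namespace Pool.Agent.MP_efb2da_gt

section aux

variable {g : Geo} {d : Dat} {Ω : Set ℂ} {Φ : ℂ → MW}

lemma Fr2_mem_iff {x : ℝ} : (x : ℂ) ∈ Dom g ↔ 8 * qq g < |x| ∧ 8 * qq g * |x| < 1 ∧
    8 * ee g ^ 2 < |x - 1| ∧ x ≠ pp g 0 ∧ x ≠ pp g 1 ∧ x ≠ pp g 2 := by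
  have e1 : ‖(x : ℂ)‖ = |x| := by rw [Complex.norm_real, Real.norm_eq_abs]
  have e2 : ‖(x : ℂ) - 1‖ = |x - 1| := by
    rw [← Complex.ofReal_one, ← Complex.ofReal_sub, Complex.norm_real, Real.norm_eq_abs]
  unfold Dom
  rw [mem_ofPred_eq, e1, e2]
  simp only [ne_eq, Complex.ofReal_inj, Fin.forall_fin_succ, IsEmpty.forall_iff, and_true]
  rfl

lemma Fr2_A0 (hg : AdmG g) {x : ℝ} (h1 : 1 + 8 * ee g ^ 2 < x) (h2 : 8 * qq g * x < 1) :
    (x : ℂ) ∈ Dom g := by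
  obtain ⟨e1, e2, e3⟩ := Fr1_eps hg
  obtain ⟨-, -, ⟨q0, q1⟩, ⟨a0, b0⟩, ⟨a1, b1⟩, a2, b2⟩ := hg
  rw [Fr2_mem_iff, abs_of_pos (by linarith), abs_of_pos (by linarith)]
  refine ⟨by linarith, h2, by linarith, ?_, ?_, ?_⟩ <;> (intro h; linarith)

lemma Fr2_A1 (hg : AdmG g) {x : ℝ} (h1 : pp g 0 < x) (h2 : x < 1 - 8 * ee g ^ 2) :
    (x : ℂ) ∈ Dom g := by
  obtain ⟨e1, e2, e3⟩ := Fr1_eps hg
  obtain ⟨-, -, ⟨q0, q1⟩, ⟨a0, b0⟩, ⟨a1, b1⟩, a2, b2⟩ := hg
  rw [Fr2_mem_iff, abs_of_pos (by linarith), abs_of_neg (by linarith)]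
  refine ⟨by linarith, by nlinarith, by linarith, ?_, ?_, ?_⟩ <;> (intro h; linarith)

lemma Fr2_A2 (hg : AdmG g) {x : ℝ} (h1 : 8 * qq g < x) (h2 : x < pp g 0) :
    (x : ℂ) ∈ Dom g := by
  obtain ⟨e1, e2, e3⟩ := Fr1_eps hg
  obtain ⟨-, -, ⟨q0, q1⟩, ⟨a0, b0⟩, ⟨a1, b1⟩, a2, b2⟩ := hg
  rw [Fr2_mem_iff, abs_of_pos (by linarith), abs_of_neg (by linarith)]
  refine ⟨by linarith, by nlinarith, by linarith, ?_, ?_, ?_⟩ <;> (intro h; linarith)

lemma Fr2_A3 (hg : AdmG g) {x : ℝ} (h1 : pp g 2 < x) (h2 : x < -(8 * qq g)) :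
    (x : ℂ) ∈ Dom g := by
  obtain ⟨e1, e2, e3⟩ := Fr1_eps hg
  obtain ⟨-, -, ⟨q0, q1⟩, ⟨a0, b0⟩, ⟨a1, b1⟩, a2, b2⟩ := hg
  rw [Fr2_mem_iff, abs_of_neg (by linarith), abs_of_neg (by linarith)]
  refine ⟨by linarith, by nlinarith, by linarith, ?_, ?_, ?_⟩ <;> (intro h; linarith)

lemma Fr2_A4 (hg : AdmG g) {x : ℝ} (h1 : pp g 1 < x) (h2 : x < pp g 2) :
    (x : ℂ) ∈ Dom g := by
  obtain ⟨e1, e2, e3⟩ := Fr1_eps hg
  obtain ⟨-, -, ⟨q0, q1⟩, ⟨a0, b0⟩, ⟨a1, b1⟩, a2, b2⟩ := hg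
  rw [Fr2_mem_iff, abs_of_neg (by linarith), abs_of_neg (by linarith)]
  refine ⟨by linarith, by nlinarith, by linarith, ?_, ?_, ?_⟩ <;> (intro h; linarith)

lemma Fr2_A5 (hg : AdmG g) {x : ℝ} (h1 : 8 * qq g * -x < 1) (h2 : x < pp g 1) :
    (x : ℂ) ∈ Dom g := by
  obtain ⟨e1, e2, e3⟩ := Fr1_eps hg
  obtain ⟨-, -, ⟨q0, q1⟩, ⟨a0, b0⟩, ⟨a1, b1⟩, a2, b2⟩ := hg
  rw [Fr2_mem_iff, abs_of_neg (by linarith), abs_of_neg (by linarith)]
  refine ⟨by linarith, h1, by linarith, ?_, ?_, ?_⟩ <;> (intro h; linarith)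

lemma Fr2_lo {a b x c : ℝ} (hx : x ∈ uIcc a b) (ha : c < a) (hb : c < b) : c < x := by
  rcases mem_uIcc.1 hx with h | h <;> linarith [h.1]

lemma Fr2_hi {a b x c : ℝ} (hx : x ∈ uIcc a b) (ha : a < c) (hb : b < c) : x < c := by
  rcases mem_uIcc.1 hx with h | h <;> linarith [h.2]

lemma Fr2_mul {a b x c : ℝ} (hx : x ∈ uIcc a b) (ha : c * a < 1) (hb : c * b < 1) :
    c * x < 1 := by
  rcases le_total 0 c with hc | hc <;> rcases mem_uIcc.1 hx with h | h <;>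
    nlinarith [h.1, h.2]

lemma Fr2_base (h : Frame g d Ω Φ) : Φ ((1 + ee g : ℝ) : ℂ) = 1 := by
  rw [Complex.ofReal_add, Complex.ofReal_one, h.base]

lemma Fr2_v0 (h : Frame g d Ω Φ) (hg : AdmG g) (hd : Str d) {x : ℝ}
    (h1 : 1 + 8 * ee g ^ 2 < x) (h2 : 8 * qq g * x < 1) : arcR Φ x = 1 := by
  obtain ⟨e1, e2, e3⟩ := Fr1_eps hg
  obtain ⟨q0, q1⟩ := hg.2.2.1
  obtain ⟨ε0, ε1⟩ := hg.2.1
  rw [h.arc_const hg hd (a := x) (b := 1 + ee g) fun y hy =>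
    Fr2_A0 hg (Fr2_lo hy h1 (by linarith)) (Fr2_mul hy h2 (by nlinarith))]
  rw [arcR, Fr2_base h, sharp_one, adj_one, one_mul]

lemma Fr2_aC (hg : AdmG g) (hf : Fix g d) : aC g d 1 (ee g) = a1 g d := by
  obtain ⟨ε0, ε1⟩ := hg.2.1
  funext r
  have hn : ‖(ee g : ℂ) * exp (2 * Real.pi * I * r)‖ = ee g := by
    rw [norm_mul, Pot2_norm_exp, mul_one, Complex.norm_real, Real.norm_of_nonneg ε0.le]
  have hne : (ee g : ℂ) * exp (2 * Real.pi * I * r) ≠ 0 := by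
    intro h0
    rw [h0, norm_zero] at hn
    linarith
  rw [aC, a1, Th_eq hg hf hne (by rw [hn]; linarith), smul_smul, Complex.ofReal_one]
  congr 1
  ring

lemma Fr2_v1 (h : Frame g d Ω Φ) (hg : AdmG g) (hd : Str d) (hf : Fix g d) {x : ℝ}
    (h1 : pp g 0 < x) (h2 : x < 1 - 8 * ee g ^ 2) : arcR Φ x = R1 g d := by
  obtain ⟨e1, e2, e3⟩ := Fr1_eps hg
  obtain ⟨q0, q1⟩ := hg.2.2.1
  obtain ⟨ε0, ε1⟩ := hg.2.1
  have b0 := hg.2.2.2.1.2
  rw [h.arc_const hg hd (a := x) (b := 1 - ee g) fun y hy =>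
    Fr2_A1 hg (Fr2_lo hy h1 (by linarith)) (Fr2_hi hy h2 (by linarith))]
  have hc : ∀ r : ℝ, (((1:ℝ) : ℂ) + (ee g : ℝ) * exp (2 * Real.pi * I * r)) ∈ Dom g := by
    intro r
    have hn : ‖(ee g : ℂ) * exp (2 * Real.pi * I * r)‖ = ee g := by
      rw [norm_mul, Pot2_norm_exp, mul_one, Complex.norm_real, Real.norm_of_nonneg ε0.le]
    rw [Complex.ofReal_one]
    exact neck_subset_Dom hg (by rw [hn]; exact e1) (by rw [hn]; linarith)
  rw [(h.circle hg hd ε0 hc).2, Fr2_base h, Fr2_aC hg hf,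
    Fr2_v0 h hg hd (by linarith) (by nlinarith), adj_one, one_mul, mul_one, mul_one, R1]

lemma Fr2_circ (h : Frame g d Ω Φ) (hg : AdmG g) (hd : Str d) (hf : Fix g d) (i : Fin 3) :
    Φ ((cen i - rad i : ℝ) : ℂ) = HH g d * TT g d i (1/2) ∧
      arcR Φ (cen i - rad i) = RR g d i := by
  obtain ⟨e1, e2, e3⟩ := Fr1_eps hg
  obtain ⟨q0, q1⟩ := hg.2.2.1
  have key := h.circle hg hd (Pot2_rad_pos i) (circle_mem_Dom hg i)
  rw [cen_add_rad, h.val_HH hg hf, Fr2_v0 h hg hd (x := 17/16) (by linarith) (by linarith),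
    mul_one] at key
  exact key

lemma Fr2_c0 : cen 0 - rad 0 = 1/16 := by
  simp only [cen, rad, Matrix.cons_val_zero]; norm_num
lemma Fr2_c1 : cen 1 - rad 1 = -4/5 := by
  simp only [cen, rad, Matrix.cons_val_one, Matrix.cons_val_zero]; norm_num
lemma Fr2_c2 : cen 2 - rad 2 = -2 := by
  simp only [cen, rad, Matrix.cons_val]; norm_num

lemma Fr2_v2 (h : Frame g d Ω Φ) (hg : AdmG g) (hd : Str d) (hf : Fix g d) {x : ℝ}
    (h1 : 8 * qq g < x) (h2 : x < pp g 0) : arcR Φ x = RR g d 0 := by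
  obtain ⟨q0, q1⟩ := hg.2.2.1
  have b0 := hg.2.2.2.1.1
  rw [h.arc_const hg hd (a := x) (b := 1/16) fun y hy =>
    Fr2_A2 hg (Fr2_lo hy h1 (by linarith)) (Fr2_hi hy h2 (by linarith)), ← Fr2_c0]
  exact (Fr2_circ h hg hd hf 0).2

lemma Fr2_v3 (h : Frame g d Ω Φ) (hg : AdmG g) (hd : Str d) {x : ℝ}
    (h1 : pp g 2 < x) (h2 : x < -(8 * qq g)) : arcR Φ x = arcR Φ (-1/16) := by
  obtain ⟨q0, q1⟩ := hg.2.2.1
  have b0 := hg.2.2.2.2.2.2
  exact h.arc_const hg hd fun y hy =>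
    Fr2_A3 hg (Fr2_lo hy h1 (by linarith)) (Fr2_hi hy h2 (by linarith))

lemma Fr2_v4 (h : Frame g d Ω Φ) (hg : AdmG g) (hd : Str d) (hf : Fix g d) {x : ℝ}
    (h1 : pp g 1 < x) (h2 : x < pp g 2) : arcR Φ x = RR g d 1 := by
  have b0 := hg.2.2.2.2.1.2
  have b1 := hg.2.2.2.2.2.1
  rw [h.arc_const hg hd (a := x) (b := -4/5) fun y hy =>
    Fr2_A4 hg (Fr2_lo hy h1 (by linarith)) (Fr2_hi hy h2 (by linarith)), ← Fr2_c1]
  exact (Fr2_circ h hg hd hf 1).2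

lemma Fr2_v5 (h : Frame g d Ω Φ) (hg : AdmG g) (hd : Str d) (hf : Fix g d) {x : ℝ}
    (h1 : 8 * qq g * -x < 1) (h2 : x < pp g 1) : arcR Φ x = RR g d 2 := by
  obtain ⟨q0, q1⟩ := hg.2.2.1
  have b0 := hg.2.2.2.2.1.1
  rw [h.arc_const hg hd (a := x) (b := -2) fun y hy =>
    Fr2_A5 hg (by
      have := Fr2_mul (c := -(8 * qq g)) hy (by linarith) (by linarith)
      linarith) (Fr2_hi hy h2 (by linarith)), ← Fr2_c2]
  exact (Fr2_circ h hg hd hf 2).2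

lemma Fr2_val (h : Frame g d Ω Φ) (hg : AdmG g) (hd : Str d) (hf : Fix g d) (x : ℝ)
    (hx : (x : ℂ) ∈ Dom g) : arcR Φ x = arcVal g d (arcR Φ (-1/16)) x := by
  obtain ⟨m1, m2, m3, m4, m5, m6⟩ := Fr2_mem_iff.1 hx
  obtain ⟨e1, e2, e3⟩ := Fr1_eps hg
  obtain ⟨q0, q1⟩ := hg.2.2.1
  obtain ⟨⟨a0, b0⟩, ⟨a1, b1⟩, a2, b2⟩ := hg.2.2.2
  unfold arcVal
  split_ifs with c0 c1 c2 c3 c4
  · rw [abs_of_pos (by linarith)] at m2 m3
    exact Fr2_v0 h hg hd (by linarith) m2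
  · rw [abs_of_nonpos (by linarith)] at m3
    exact Fr2_v1 h hg hd hf c1 (by linarith)
  · rw [abs_of_pos c2] at m1
    exact Fr2_v2 h hg hd hf m1 (lt_of_le_of_ne (not_lt.1 c1) m4)
  · rw [abs_of_nonpos (by linarith)] at m1
    exact Fr2_v3 h hg hd c3 (by linarith)
  · exact Fr2_v4 h hg hd hf c4 (lt_of_le_of_ne (not_lt.1 c3) m6)
  · rw [abs_of_nonpos (by linarith)] at m2
    exact Fr2_v5 h hg hd hf m2 (lt_of_le_of_ne (not_lt.1 c4) m5)

lemma Fr2_p (hg : AdmG g) (j : Fin 3) : 1/4 ≤ ‖(pp g j : ℂ)‖ ∧ ‖(pp g j : ℂ)‖ ≤ 11/10 := by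
  obtain ⟨⟨a0, b0⟩, ⟨a1, b1⟩, a2, b2⟩ := hg.2.2.2
  rw [Complex.norm_real, Real.norm_eq_abs]
  fin_cases j
  · change 1/4 ≤ |pp g 0| ∧ |pp g 0| ≤ 11/10
    rw [abs_of_pos (by linarith)]; constructor <;> linarith
  · change 1/4 ≤ |pp g 1| ∧ |pp g 1| ≤ 11/10
    rw [abs_of_neg (by linarith)]; constructor <;> linarith
  · change 1/4 ≤ |pp g 2| ∧ |pp g 2| ≤ 11/10
    rw [abs_of_neg (by linarith)]; constructor <;> linarith

lemma Fr2_ann (hg : AdmG g) {z : ℂ} (h1 : 8 < ‖z‖) (h2 : 8 * qq g * ‖z‖ < 1) :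
    z ∈ Dom g ∧ (qq g : ℂ) * z ∈ Dom g := by
  obtain ⟨e1, e2, e3⟩ := Fr1_eps hg
  obtain ⟨q0, q1⟩ := hg.2.2.1
  have hq := Pot1_q_mul hg z
  refine ⟨⟨by linarith, h2, ?_, fun j hj => ?_⟩, ⟨by rw [hq]; nlinarith, by rw [hq]; nlinarith,
    ?_, fun j hj => ?_⟩⟩
  · have := norm_sub_norm_le z 1
    rw [norm_one] at this
    linarith
  · have := (Fr2_p hg j).2
    rw [← hj] at this
    linarith
  · have := norm_sub_norm_le 1 ((qq g : ℂ) * z)
    rw [norm_one, hq, norm_sub_rev] at this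
    linarith
  · have := (Fr2_p hg j).1
    rw [← hj, hq] at this
    linarith

lemma Fr2_half (a b : ℝ) (ha : 0 ≤ a) :
    IsPreconnected {z : ℂ | 0 ≤ z.im ∧ a < ‖z‖ ∧ ‖z‖ < b} := by
  have e : {z : ℂ | 0 ≤ z.im ∧ a < ‖z‖ ∧ ‖z‖ < b} =
      (fun x : ℝ × ℝ => (x.1 : ℂ) * exp (x.2 * I)) '' (Ioo a b ×ˢ Icc 0 Real.pi) := by
    ext z
    constructor
    · rintro ⟨h1, h2, h3⟩
      exact ⟨(‖z‖, arg z), ⟨⟨h2, h3⟩, Complex.arg_nonneg_iff.2 h1, Complex.arg_le_pi z⟩,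
        Complex.norm_mul_exp_arg_mul_I z⟩
    · rintro ⟨⟨r, θ⟩, ⟨⟨h1, h2⟩, h3, h4⟩, rfl⟩
      have hr : 0 ≤ r := ha.trans (le_of_lt h1)
      have hn : ‖(r : ℂ) * exp (θ * I)‖ = r := by
        rw [norm_mul, Complex.norm_exp_ofReal_mul_I, mul_one, Complex.norm_real,
          Real.norm_of_nonneg hr]
      refine ⟨?_, by rw [hn]; exact h1, by rw [hn]; exact h2⟩
      change 0 ≤ ((r : ℂ) * exp (θ * I)).im
      rw [Complex.im_ofReal_mul, Complex.exp_ofReal_mul_I_im]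
      exact mul_nonneg hr (Real.sin_nonneg_of_nonneg_of_le_pi h3 h4)
  rw [e]
  exact (isPreconnected_Ioo.prod isPreconnected_Icc).image _ (by fun_prop)

lemma Fr2_per (h : Frame g d Ω Φ) (hg : AdmG g) (hd : Str d) (hf : Fix g d) {L : MW}
    (hL : Php g d * GG d = L * Phi g d) (z : ℂ) (h0 : 0 ≤ z.im) (h1 : 8 < ‖z‖)
    (h2 : 8 * qq g * ‖z‖ < 1) : Φ (qq g * z) * GG d = L * Φ z := by
  obtain ⟨q0, q1⟩ := hg.2.2.1
  have h8 : 0 < 8 * qq g := by linarith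
  have hb : ∀ w : ℂ, ‖w‖ < 1 / (8 * qq g) ↔ 8 * qq g * ‖w‖ < 1 := fun w => by
    rw [lt_div_iff₀ h8, mul_comm]
  have hO : IsOpen {w : ℂ | w ∈ Ω ∧ (qq g : ℂ) * w ∈ Ω ∧ 8 < ‖w‖ ∧ 8 * qq g * ‖w‖ < 1} :=
    h.opn.inter ((h.opn.preimage (continuous_const.mul continuous_id)).inter
      ((isOpen_lt continuous_const continuous_norm).inter
        (isOpen_lt (continuous_const.mul continuous_norm) continuous_const)))
  have hw : ‖((1 / (16 * qq g) : ℝ) : ℂ)‖ = 1 / (16 * qq g) := by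
    rw [Complex.norm_real, Real.norm_of_nonneg (by positivity)]
  refine frame_ratio (Φ := fun w => Φ (qq g * w) * GG d) (Ψ := Φ)
    (ξ := fun w => (tt g : ℂ) • Xi g d w) hO ?_ (fun w hw => ?_) (fun w hw => h.ode w hw.1)
    (Fr2_half 8 (1 / (8 * qq g)) (by norm_num)) (fun w hw => ?_)
    (w := ((1 / (16 * qq g) : ℝ) : ℂ)) ⟨by rw [Complex.ofReal_im], ?_, ?_⟩ ?_ z
    ⟨h0, h1, (hb z).2 h2⟩
  · exact (((Xi_differentiableOn hg hd).const_smul (tt g : ℂ)).continuousOn).mono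
      fun w hw => h.sub hw.1
  · have d1 : HasDerivAt (fun w : ℂ => (qq g : ℂ) * w) (qq g : ℂ) w := by
      simpa using (hasDerivAt_id w).const_mul (qq g : ℂ)
    have d2 := ((h.ode _ hw.2.1).scomp w d1).mul_const (GG d)
    refine d2.congr_deriv ?_
    rw [← mul_smul_comm, smul_comm, Xi_per hg hf hw.2.2.1.le hw.2.2.2.le]
    simp only [mul_smul_comm, smul_mul_assoc, mul_assoc, adj_mul_of_det hf.detG, mul_one]
  · obtain ⟨a1, a2⟩ := Fr2_ann hg hw.2.1 ((hb w).1 hw.2.2)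
    refine ⟨h.up _ a1 hw.1, h.up _ a2 ?_, hw.2.1, (hb w).1 hw.2.2⟩
    rw [Complex.im_ofReal_mul]
    exact mul_nonneg q0.le hw.1
  · rw [hw, lt_div_iff₀ (by positivity)]
    linarith
  · rw [hw]
    exact one_div_lt_one_div_of_lt h8 (by linarith)
  · have e : (qq g : ℂ) * ((1 / (16 * qq g) : ℝ) : ℂ) = ((cen 0 - rad 0 : ℝ) : ℂ) := by
      rw [Fr2_c0, ← Complex.ofReal_mul]
      congr 1
      field_simp
    change Φ _ * _ = _
    rw [e, (Fr2_circ h hg hd hf 0).1, h.val_Phi hg hf]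
    exact hL

lemma Fr2_shift (hd : Str d) (hf : Fix g d) {L : MW} {x y : ℝ}
    (e : Φ y * GG d = L * Φ x) : arcR Φ y = L * arcR Φ x * adj (sharp L) := by
  have e1 : Φ y = L * Φ x * adj (GG d) := by
    rw [← e, mul_assoc, mul_adj_of_det hf.detG, mul_one]
  rw [arcR, arcR, e1, sharp_mul, sharp_mul, sharp_adj, hd.realG, adj_mul, adj_mul, adj_adj]
  calc L * Φ x * adj (GG d) * (GG d * (adj (sharp (Φ x)) * adj (sharp L)))
      = L * Φ x * (adj (GG d) * GG d) * (adj (sharp (Φ x)) * adj (sharp L)) := by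
        simp only [mul_assoc]
    _ = _ := by rw [adj_mul_of_det hf.detG]; simp only [mul_assoc, mul_one]

end aux

theorem Sol.arcs {η N : ℝ} {As : Fin 5 → MW} (S : Sol η N As) {Ω : Set ℂ} {Φ : ℂ → MW}
    (h : Frame S.g S.d Ω Φ) : ∃ R5, Arcs S Φ R5 := by
  obtain ⟨L, hL, he⟩ := S.cL
  have hg := S.adm
  obtain ⟨e1, e2, e3⟩ := Fr1_eps hg
  obtain ⟨q0, q1⟩ := hg.2.2.1
  obtain ⟨⟨a0, b0⟩, ⟨a1, b1⟩, a2, b2⟩ := hg.2.2.2
  have per := Fr2_per h hg S.str S.fix he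
  have hu : qq S.g * (1 / (16 * qq S.g)) = 1/16 := by field_simp
  have hu8 : 8 < 1 / (16 * qq S.g) := by
    rw [lt_div_iff₀ (by positivity)]
    linarith
  have hp : Φ ((1/16 : ℝ) : ℂ) * GG S.d = L * Φ ((1 / (16 * qq S.g) : ℝ) : ℂ) := by
    have hn : ‖((1 / (16 * qq S.g) : ℝ) : ℂ)‖ = 1 / (16 * qq S.g) := by
      rw [Complex.norm_real, Real.norm_of_nonneg (by linarith)]
    rw [← per _ (by rw [Complex.ofReal_im]) (by rw [hn]; exact hu8) (by rw [hn]; linarith),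
      ← Complex.ofReal_mul, hu]
  have hm : Φ ((-1/16 : ℝ) : ℂ) * GG S.d = L * Φ ((-(1 / (16 * qq S.g)) : ℝ) : ℂ) := by
    have hn : ‖((-(1 / (16 * qq S.g)) : ℝ) : ℂ)‖ = 1 / (16 * qq S.g) := by
      rw [Complex.norm_real, norm_neg, Real.norm_of_nonneg (by linarith)]
    rw [← per _ (by rw [Complex.ofReal_im]) (by rw [hn]; exact hu8) (by rw [hn]; linarith),
      ← Complex.ofReal_mul, mul_neg, hu, neg_div]
  have r0 := Fr2_shift S.str S.fix hp
  have r5 := Fr2_shift S.str S.fix hm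
  rw [Fr2_v2 h hg S.str S.fix (by linarith) (by linarith),
    Fr2_v0 h hg S.str (by linarith) (by linarith), mul_one] at r0
  rw [Fr2_v5 (x := -(1 / (16 * qq S.g))) h hg S.str S.fix (by linarith) (by linarith)] at r5
  have hL' := hL.sharp.adj
  refine ⟨arcR Φ (-1/16), Fr2_val h hg S.str S.fix, ?_, ?_, L, hL, per⟩
  · rw [r5]
    simpa using (hL.mul S.c4).mul hL'
  · rw [r5, r0, (hL.mul S.c4).phi_mul hL', hL.phi_mul S.c4, hL.phi_mul hL']
    ring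

theorem Arcs.cl_val {η N : ℝ} {As : Fin 5 → MW} {S : Sol η N As} {Φ : ℂ → MW} {R5 : MW}
    (h : Arcs S Φ R5) (y : ℝ) :
    Cl S.x (tt S.g) (lab (pp S.g) y : ℕ) (arcVal S.g S.d R5 y) := by
  unfold lab arcVal
  split_ifs
  · exact Cl.one
  · exact S.c1
  · exact S.c2
  · exact h.c5
  · exact S.c3
  · exact S.c4

theorem Arcs.cl_Rr {η N : ℝ} {As : Fin 5 → MW} {S : Sol η N As} {Φ : ℂ → MW} {R5 : MW}
    (h : Arcs S Φ R5) (j : Fin 3) : Cl S.x (tt S.g) (lr j : ℕ) (Rr S.g S.d R5 j) ∧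
      Cl S.x (tt S.g) (sg j) (Rl S.g S.d j * adj (Rr S.g S.d R5 j)) := by
  fin_cases j
  · exact ⟨S.c1, S.c2.mul S.c1.adj⟩
  · exact ⟨S.c3, S.c4.mul S.c3.adj⟩
  · exact ⟨h.c5, S.c3.mul h.c5.adj⟩

theorem Arcs.val_cap {η N : ℝ} {As : Fin 5 → MW} {S : Sol η N As} {Φ : ℂ → MW} {R5 : MW}
    (h : Arcs S Φ R5) (j : Fin 3) {r : ℝ} (h0 : 0 < r) (h1 : r < 1/8) :
    arcR Φ (pp S.g j - r) = Rl S.g S.d j ∧ arcR Φ (pp S.g j + r) = Rr S.g S.d R5 j := by
  have hg := S.adm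
  obtain ⟨⟨a0, b0⟩, ⟨a1, b1⟩, a2, b2⟩ := hg.2.2.2
  have hD : ∀ s : ℝ, |s| = r → ((pp S.g j + s : ℝ) : ℂ) ∈ Dom S.g := by
    intro s hs
    refine ball_subset_Dom hg j ?_ fun he => ?_
    · rw [Complex.ofReal_add, add_sub_cancel_left, Complex.norm_real, Real.norm_eq_abs, hs]
      exact h1
    · have h2 : s = 0 := by linarith [Complex.ofReal_injective he]
      rw [h2, abs_zero] at hs
      linarith
  have m1 := hD (-r) (by rw [abs_neg, abs_of_pos h0])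
  rw [← sub_eq_add_neg] at m1
  rw [h.val _ m1, h.val _ (hD r (abs_of_pos h0))]
  unfold arcVal
  fin_cases j
  · change (if 1 < pp S.g 0 - r then _ else if pp S.g 0 < pp S.g 0 - r then _ else
      if 0 < pp S.g 0 - r then _ else _) = RR S.g S.d 0 ∧ (if 1 < pp S.g 0 + r then _ else
      if pp S.g 0 < pp S.g 0 + r then _ else _) = R1 S.g S.d
    rw [if_neg (by linarith), if_neg (by linarith), if_pos (by linarith), if_neg (by linarith),
      if_pos (by linarith)]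
    exact ⟨rfl, rfl⟩
  · change (if 1 < pp S.g 1 - r then _ else if pp S.g 0 < pp S.g 1 - r then _ else
      if 0 < pp S.g 1 - r then _ else if pp S.g 2 < pp S.g 1 - r then _ else
      if pp S.g 1 < pp S.g 1 - r then _ else _) = RR S.g S.d 2 ∧
      (if 1 < pp S.g 1 + r then _ else if pp S.g 0 < pp S.g 1 + r then _ else
      if 0 < pp S.g 1 + r then _ else if pp S.g 2 < pp S.g 1 + r then _ else
      if pp S.g 1 < pp S.g 1 + r then _ else _) = RR S.g S.d 1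
    rw [if_neg (by linarith), if_neg (by linarith), if_neg (by linarith), if_neg (by linarith),
      if_neg (by linarith), if_neg (by linarith), if_neg (by linarith), if_neg (by linarith),
      if_neg (by linarith), if_pos (by linarith)]
    exact ⟨rfl, rfl⟩
  · change (if 1 < pp S.g 2 - r then _ else if pp S.g 0 < pp S.g 2 - r then _ else
      if 0 < pp S.g 2 - r then _ else if pp S.g 2 < pp S.g 2 - r then _ else
      if pp S.g 1 < pp S.g 2 - r then _ else _) = RR S.g S.d 1 ∧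
      (if 1 < pp S.g 2 + r then _ else if pp S.g 0 < pp S.g 2 + r then _ else
      if 0 < pp S.g 2 + r then _ else if pp S.g 2 < pp S.g 2 + r then _ else _) = R5
    rw [if_neg (by linarith), if_neg (by linarith), if_neg (by linarith), if_neg (by linarith),
      if_pos (by linarith), if_neg (by linarith), if_neg (by linarith), if_neg (by linarith),
      if_pos (by linarith)]
    exact ⟨rfl, rfl⟩

end Pool.Agent.MP_efb2da_gt

end
end

section

open Set Complex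
open scoped Topology ComplexConjugate Matrix ContDiff

noncomputable section

namespace Pool.Agent.MP_efb2da_gt

/-- the potential on the `k`-fold cover of a cap, after the gauge -/
def xiCap (k : ℕ) (φ : W) (m : ℂ → MW) (w : ℂ) : MW :=
  !![w ^ (k - 1) • m (w ^ k) 0 0, φ + w ^ k • m (w ^ k) 0 1;
    w ^ (k - 2) • m (w ^ k) 1 0, w ^ (k - 1) • m (w ^ k) 1 1]

def dg (a : ℂ) : MW := cst !![a⁻¹, 0; 0, a]

lemma Cap1_dg (a : ℂ) : dg a = !![a⁻¹ • (1 : W), 0; 0, a • (1 : W)] := by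
  ext i j
  fin_cases i <;> fin_cases j <;> simp [dg, Algebra.algebraMap_eq_smul_one]

lemma Cap1_conj {a : ℂ} (ha : a ≠ 0) (M : MW) :
    dg a⁻¹ * M * dg a = !![M 0 0, (a ^ 2) • M 0 1; (a ^ 2)⁻¹ • M 1 0, M 1 1] := by
  ext i j
  simp only [matApi2_mulW, Cap1_dg]
  fin_cases i <;> fin_cases j <;> simp [smul_smul, ha, sq]

lemma Cap1_adj (a : ℂ) : adj (dg a) = dg a⁻¹ := by
  ext i j
  fin_cases i <;> fin_cases j <;> simp [Cap1_dg, adj_apply]

lemma Cap1_det {a : ℂ} (ha : a ≠ 0) : (dg a).det = 1 := by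
  rw [dg, det_cst, Matrix.det_fin_two_of, inv_mul_cancel₀ ha]
  simp

lemma Cap1_exp_pow {k : ℕ} (hk : 3 ≤ k) (ζ : ℂ) : exp (ζ / k) ^ k = exp ζ := by
  have : (k : ℂ) ≠ 0 := by exact_mod_cast (by omega : k ≠ 0)
  rw [← exp_nat_mul, mul_div_cancel₀ _ this]

lemma Cap1_exp_sq (k : ℕ) (ζ : ℂ) : exp (ζ / (2 * k)) ^ 2 = exp (ζ / k) := by
  rw [← exp_nat_mul]
  congr 1
  push_cast
  ring

/-- the gauge identity; `m u = adj P * reg (p + u) * P`, `u = e^ζ`, `w = e^{ζ/k}` -/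
theorem xiCap_gauge {k : ℕ} (hk : 3 ≤ k) (φ : W) (m : ℂ → MW) (ζ : ℂ) :
    (exp (ζ / k) / k) • xiCap k φ m (exp (ζ / k)) =
      dg (exp (ζ / (2 * k)))⁻¹ *
        ((1 / k : ℂ) • (!![algebraMap ℂ W (1/2), φ; 0, algebraMap ℂ W (-1/2)] + exp ζ • m (exp ζ))) *
        dg (exp (ζ / (2 * k))) + (1 / (2 * k) : ℂ) • cst (-s3) := by
  rw [Cap1_conj (exp_ne_zero _), Cap1_exp_sq, xiCap, Cap1_exp_pow hk]
  have h1 := Cap1_exp_pow hk ζ
  have hw := exp_ne_zero (ζ / k)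
  generalize exp (ζ / k) = w at h1 hw ⊢
  generalize exp ζ = u at h1 ⊢
  generalize m u = M
  have hk0 : (k : ℂ) ≠ 0 := by exact_mod_cast (by omega : k ≠ 0)
  obtain ⟨n, rfl⟩ : ∃ n, k = n + 2 := ⟨k - 2, by omega⟩
  subst h1
  generalize ((n + 2 : ℕ) : ℂ) = K at hk0 ⊢
  ext i j
  fin_cases i <;> fin_cases j <;>
    simp [s3, Algebra.algebraMap_eq_smul_one] <;> match_scalars <;> field_simp <;> ring

theorem xiCap_rot {k : ℕ} (hk : 3 ≤ k) (φ : W) (m : ℂ → MW) (w : ℂ) :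
    rt k • xiCap k φ m (rt k * w) =
      dg (exp (Real.pi * I / k))⁻¹ * xiCap k φ m w * dg (exp (Real.pi * I / k)) := by
  have h1 : rt k ^ k = 1 := by rw [rt, Cap1_exp_pow hk, exp_two_pi_mul_I]
  have h2 : exp (Real.pi * I / k) ^ 2 = rt k := by
    rw [rt, ← exp_nat_mul]
    congr 1
    push_cast
    ring
  have h3 : rt k ≠ 0 := exp_ne_zero _
  rw [Cap1_conj (exp_ne_zero _), h2]
  unfold xiCap
  rw [mul_pow _ _ k, h1, one_mul]
  generalize rt k = r at h1 h3 ⊢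
  generalize m (w ^ k) = M
  obtain ⟨n, rfl⟩ : ∃ n, k = n + 2 := ⟨k - 2, by omega⟩
  ext i j
  fin_cases i <;> fin_cases j <;> simp <;> match_scalars
  · linear_combination w ^ (n + 1) * h1
  · field_simp
    linear_combination w ^ n * h1
  · linear_combination w ^ (n + 1) * h1

lemma Cap1_split (k : ℕ) (φ : W) (m : ℂ → MW) (w : ℂ) : xiCap k φ m w =
    w ^ (k - 1) • (!![1, 0; 0, 0] * m (w ^ k) * !![1, 0; 0, 0] +
      !![0, 0; 0, 1] * m (w ^ k) * !![0, 0; 0, 1]) + !![0, φ; 0, 0] +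
      w ^ k • (!![1, 0; 0, 0] * m (w ^ k) * !![0, 0; 0, 1]) +
      w ^ (k - 2) • (!![0, 0; 0, 1] * m (w ^ k) * !![1, 0; 0, 0]) := by
  ext i j
  simp only [Matrix.add_apply, Matrix.smul_apply, matApi2_mulW]
  fin_cases i <;> fin_cases j <;> simp [xiCap]

lemma Cap1_hol (k : ℕ) (φ : W) {m : ℂ → MW} {U : Set ℂ}
    (h : DifferentiableOn ℂ (fun w => m (w ^ k)) U) : DifferentiableOn ℂ (xiCap k φ m) U := by
  rw [funext (Cap1_split k φ m)]
  have e : ∀ A B : MW, DifferentiableOn ℂ (fun w => A * m (w ^ k) * B) U := fun A B =>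
    (h.const_mul A).mul_const B
  have p : ∀ n : ℕ, DifferentiableOn ℂ (fun w : ℂ => w ^ n) U := fun n =>
    (differentiable_pow n).differentiableOn
  exact ((((p _).smul ((e _ _).add (e _ _))).add_const _).add ((p _).smul (e _ _))).add
    ((p _).smul (e _ _))

lemma Cap1_zero {k : ℕ} (hk : 3 ≤ k) (φ : W) (m : ℂ → MW) :
    cf (-1) (xiCap k φ m 0) = !![0, W.coef (-1) φ; 0, 0] := by
  have h1 : k - 1 ≠ 0 := by omega
  have h2 : k - 2 ≠ 0 := by omega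
  have h3 : k ≠ 0 := by omega
  ext i j
  fin_cases i <;> fin_cases j <;> simp [xiCap, h1, h2, h3]

lemma Cap1_deriv_dg (c ζ : ℂ) :
    HasDerivAt (fun z => dg (exp (z / c))) (dg (exp (ζ / c)) * ((1 / c) • cst (-s3))) ζ := by
  have e : (fun z => dg (exp (z / c))) =
      fun z => exp (-(z / c)) • (!![1, 0; 0, 0] : MW) + exp (z / c) • (!![0, 0; 0, 1] : MW) := by
    funext z
    ext i j
    fin_cases i <;> fin_cases j <;> simp [Cap1_dg, exp_neg]
  have h0 : HasDerivAt (fun z : ℂ => z / c) (1 / c) ζ := (hasDerivAt_id ζ).div_const c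
  rw [e]
  refine ((h0.neg.cexp.smul_const (!![1, 0; 0, 0] : MW)).add
    (h0.cexp.smul_const (!![0, 0; 0, 1] : MW))).congr_deriv ?_
  ext i j
  simp only [Matrix.add_apply, Matrix.smul_apply, matApi2_mulW, cst_apply]
  fin_cases i <;> fin_cases j <;>
    simp [Cap1_dg, s3, exp_neg, smul_smul, mul_comm]

lemma Cap1_ball {k : ℕ} (hk : 3 ≤ k) :
    {w : ℂ | ‖w‖ ^ k < 1/16} = Metric.ball 0 ((1/16 : ℝ) ^ ((k : ℝ)⁻¹)) := by
  ext w
  have h : ((1/16 : ℝ) ^ ((k : ℝ)⁻¹)) ^ k = 1/16 :=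
    Real.rpow_inv_natCast_pow (by norm_num) (by omega)
  rw [mem_ofPred_eq, mem_ball_zero_iff]
  conv_lhs => rw [← h]
  exact pow_lt_pow_iff_left₀ (norm_nonneg _) (by positivity) (by omega)

lemma Cap1_range {g : Geo} (hg : AdmG g) (j : Fin 3) {u : ℂ} (hu : ‖u‖ < 1/16) :
    √(qq g) / 2 < ‖(pp g j : ℂ) + u‖ ∧ ‖(pp g j : ℂ) + u‖ < 2 / √(qq g) ∧
      ee g / 2 < ‖(pp g j : ℂ) + u - 1‖ := by
  obtain ⟨-, ⟨-, he⟩, ⟨hq0, hq⟩, hp⟩ := hg
  have s0 : 0 < √(qq g) := Real.sqrt_pos.2 hq0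
  have s1 : √(qq g) ≤ 1/64 := Real.sqrt_le_iff.2 ⟨by norm_num, by linarith⟩
  have a0 : 7/30 ≤ |pp g j| := by
    have := pos_sep hp (i := cj5 j) (j := 0) (by fin_cases j <;> decide)
    rwa [pos_cj5, show pos (pp g) 0 = 0 from rfl, sub_zero] at this
  have a1 : 7/30 ≤ |pp g j - 1| := by
    have := pos_sep hp (i := cj5 j) (j := 1) (by fin_cases j <;> decide)
    rwa [pos_cj5, show pos (pp g) 1 = 1 from rfl] at this
  have a2 : |pp g j| ≤ 11/10 := by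
    have := abs_pos_le hp (cj5 j)
    rwa [pos_cj5] at this
  have b0 : ‖(pp g j : ℂ)‖ = |pp g j| := by simp
  have b1 : ‖(pp g j : ℂ) - 1‖ = |pp g j - 1| := by
    rw [← Real.norm_eq_abs, ← norm_real]; simp
  have c0 := norm_sub_le ((pp g j : ℂ) + u) u
  have c1 := norm_add_le (pp g j : ℂ) u
  have c2 := norm_sub_le ((pp g j : ℂ) + u - 1) u
  rw [add_sub_cancel_right] at c0
  rw [show (pp g j : ℂ) + u - 1 - u = pp g j - 1 by ring] at c2
  refine ⟨by linarith, ?_, by linarith⟩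
  rw [lt_div_iff₀ s0]
  nlinarith [norm_nonneg ((pp g j : ℂ) + u)]

/-- the frame on a cap -/
theorem exists_cap_frame {η N : ℝ} {As : Fin 5 → MW} {S : Sol η N As} {Ω : Set ℂ} {Φ : ℂ → MW}
    (hF : Frame S.g S.d Ω Φ) (hN : Nil S.g S.d) (j : Fin 3) {P : MW} {φ : W} (hP : MGE 0 P)
    (hdP : P.det = 1) (hrP : sharp P = P) (hφ : W.GE (-1) φ) (hrφ : W.cj φ = φ)
    (hφ0 : W.coef (-1) φ ≠ 0)
    (hA : adj P * AA S.d (cj5 j) * P = !![algebraMap ℂ W (1/2), φ; 0, algebraMap ℂ W (-1/2)]) :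
    ∃ Ψ ξ : ℂ → MW, DFrame {w | ‖w‖ ^ S.k < 1/16} Ψ ξ ∧
      (∀ w, ‖w‖ ^ S.k < 1/16 → cf (-1) (ξ w) ≠ 0) ∧ (∀ w, sharp (ξ (conj w)) = ξ w) ∧
      (∀ w, rt S.k • ξ (rt S.k * w) =
        dg (exp (Real.pi * I / S.k))⁻¹ * ξ w * dg (exp (Real.pi * I / S.k))) ∧
      ∀ ζ : ℂ, Real.exp ζ.re < 1/16 → 0 ≤ ζ.im → ζ.im ≤ Real.pi →
        Ψ (exp (ζ / S.k)) = Φ (pp S.g j + exp ζ) * (P * dg (exp (ζ / (2 * S.k)))) := by
  have hk := S.hk
  have hg := S.adm
  have hd := S.str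
  have ht : (tt S.g : ℂ) = 1 / S.k := by rw [S.ht]; push_cast; rfl
  generalize S.k = k at *
  generalize S.g = g at *
  generalize S.d = d at *
  have hk0 : (k : ℂ) ≠ 0 := by exact_mod_cast (by omega : k ≠ 0)
  set m : ℂ → MW := fun u => adj P * reg g d (cj5 j) (pp g j + u) * P with hm
  set Q : ℂ → MW := fun ζ => P * dg (exp (ζ / (2 * k))) with hQ
  set U : Set ℂ := {w | ‖w‖ ^ k < 1/16} with hU
  have hUo : IsOpen U := by rw [hU, Cap1_ball hk]; exact Metric.isOpen_ball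
  have hUc : Convex ℝ U := by rw [hU, Cap1_ball hk]; exact convex_ball _ _
  have hhol : DifferentiableOn ℂ (xiCap k φ m) U := by
    refine Cap1_hol k φ (DifferentiableOn.mul_const (DifferentiableOn.const_mul ?_ _) _)
    refine (reg_differentiableOn hg hd j).comp (f := fun w : ℂ => (pp g j : ℂ) + w ^ k)
      (by fun_prop) fun w hw => ?_
    rw [mem_ball_iff_norm, add_sub_cancel_left, norm_pow]
    exact lt_trans hw (by norm_num)
  have hmge : ∀ u, MGE (-1) (m u) := fun u => MGE.conj hP.adj (reg_ge hd _ _) hP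
  have hge : ∀ w, MGE (-1) (xiCap k φ m w) := fun w a b => by
    fin_cases a <;> fin_cases b
    · exact (hmge _ 0 0).smul _
    · exact hφ.add ((hmge _ 0 1).smul _)
    · exact (hmge _ 1 0).smul _
    · exact (hmge _ 1 1).smul _
  have htr : ∀ w, trW (xiCap k φ m w) = 0 := fun w => by
    have : trW (m (w ^ k)) = 0 := by rw [hm, trW_conj', reg_tr hd, mul_zero]
    rw [trW_apply] at this ⊢
    change w ^ (k - 1) • m (w ^ k) 0 0 + w ^ (k - 1) • m (w ^ k) 1 1 = 0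
    rw [← smul_add, this, smul_zero]
  have hQd : ∀ ζ, (Q ζ).det = 1 := fun ζ => by
    rw [hQ, Matrix.det_mul, hdP, Cap1_det (exp_ne_zero _), one_mul]
  have hQg : ∀ ζ, MGE 0 (Q ζ) := fun ζ => hP.mul (b := 0) (MGE_cst _)
  have hga : ∀ ζ : ℂ, (exp (ζ / k) / k) • xiCap k φ m (exp (ζ / k)) =
      adj (Q ζ) * ((exp ζ / k) • Xi g d (pp g j + exp ζ)) * Q ζ +
        (1 / (2 * k) : ℂ) • cst (-s3) := fun ζ => by
    rw [xiCap_gauge hk, ← hA, Xi_eq_reg (cj5 j), pos_cj5, add_sub_cancel_left, hQ, hm]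
    simp only [adj_mul, Cap1_adj, smul_add, mul_add, add_mul, smul_smul, mul_assoc,
      mul_smul_comm, smul_mul_assoc]
    have := exp_ne_zero ζ
    congr 3 <;> field_simp
  have hDom : ∀ u : ℂ, u ≠ 0 → ‖u‖ < 1/16 → (pp g j : ℂ) + u ∈ Dom g := fun u h0 hu =>
    ball_subset_Dom hg j (by rw [add_sub_cancel_left]; linarith) (by simpa using h0)
  have hnil : ∀ w ∈ U, (cf (-1) (xiCap k φ m w)).det = 0 ∧ cf (-1) (xiCap k φ m w) ≠ 0 := by
    intro w hw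
    by_cases h0 : w = 0
    · rw [h0, Cap1_zero hk]
      refine ⟨by simp, fun h => hφ0 ?_⟩
      simpa using congrFun (congrFun h 0) 1
    obtain ⟨ζ, rfl⟩ : ∃ ζ, w = exp (ζ / k) :=
      ⟨k * log w, by rw [mul_div_cancel_left₀ _ hk0, exp_log h0]⟩
    have hu : ‖exp ζ‖ < 1/16 := by rw [← Cap1_exp_pow hk, norm_pow]; exact hw
    have hD := hDom _ (exp_ne_zero ζ) hu
    have e := congrArg (cf (-1)) (hga ζ)
    rw [map_add, map_smul, map_smul, cf_cst, if_neg (by norm_num), smul_zero, add_zero,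
      MGE.cf_conj (hQg ζ).adj ((Xi_ge hd _).smul _) (hQg ζ), map_smul] at e
    have e1 : cf 0 (Q ζ) * cf 0 (adj (Q ζ)) = 1 := by
      rw [← MGE.cf_mul (hQg ζ) (hQg ζ).adj, mul_adj_of_det (hQd ζ), ← cst_one, cf_cst]
      simp
    have c1 : exp (ζ / k) / k ≠ 0 := div_ne_zero h0 hk0
    have c2 : exp ζ / k ≠ 0 := div_ne_zero (exp_ne_zero _) hk0
    constructor
    · have := congrArg Matrix.det e
      rw [Matrix.det_smul, Matrix.det_mul, Matrix.det_mul, Matrix.det_smul, hN.nil _ hD, mul_zero,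
        mul_zero, zero_mul] at this
      exact (mul_eq_zero.1 this).resolve_left (pow_ne_zero _ c1)
    · intro h
      obtain ⟨r1, r2, r3⟩ := Cap1_range hg j hu
      refine hN.ne _ r1 r2 r3 hD.2.2.2 ?_
      rw [h, smul_zero] at e
      have := congrArg (fun X => cf 0 (Q ζ) * X * cf 0 (adj (Q ζ))) e
      simp only [mul_zero, zero_mul, ← mul_assoc, e1, one_mul] at this
      rw [mul_assoc, e1, mul_one] at this
      exact (smul_eq_zero.1 this.symm).resolve_left c2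
  have hmem : ∀ ζ : ℂ, Real.exp ζ.re < 1/16 → exp (ζ / k) ∈ U := fun ζ h => by
    rw [hU, mem_ofPred_eq, ← norm_pow, Cap1_exp_pow hk, norm_exp]; exact h
  have hup : ∀ ζ : ℂ, Real.exp ζ.re < 1/16 → 0 ≤ ζ.im → ζ.im ≤ Real.pi →
      (pp g j : ℂ) + exp ζ ∈ Ω := fun ζ h1 h2 h3 => by
    refine hF.up _ (hDom _ (exp_ne_zero ζ) (by rw [norm_exp]; exact h1)) ?_
    rw [add_im, ofReal_im, zero_add, exp_im]
    exact mul_nonneg (Real.exp_pos _).le (Real.sin_nonneg_of_nonneg_of_le_pi h2 h3)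
  set z : ℂ := ((Real.log (1/32) : ℝ) : ℂ) with hz
  have z1 : Real.exp z.re < 1/16 := by
    rw [hz, ofReal_re, Real.exp_log (by norm_num)]; norm_num
  have z2 : z.im = 0 := ofReal_im _
  obtain ⟨Ψ, h0, hΨ⟩ := exists_frame_convex hUo hUc hhol (hmem z z1) (Φ (pp g j + exp z) * Q z)
  refine ⟨Ψ, xiCap k φ m, ⟨hUo, hΨ, ?_, hhol, fun w _ => hge w, fun w _ => htr w,
    fun w hw => (hnil w hw).1⟩, fun w hw => (hnil w hw).2, fun w => ?_, xiCap_rot hk φ m, ?_⟩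
  · refine frame_det hUo hUc.isPreconnected hΨ (fun w _ => htr w) (hmem z z1) ?_
    rw [h0, Matrix.det_mul, hQd, hF.det _ (hup z z1 z2.ge (z2 ▸ Real.pi_pos.le)), one_mul]
  · have e : sharp (m (conj w ^ k)) = m (w ^ k) := by
      have : (pp g j : ℂ) + conj w ^ k = conj ((pp g j : ℂ) + w ^ k) := by simp
      rw [hm]
      simp only
      rw [sharp_mul, sharp_mul, sharp_adj, hrP, this, reg_real hd]
    have e' : ∀ a b, W.cj (m (conj w ^ k) a b) = m (w ^ k) a b := fun a b => by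
      rw [← sharp_apply, e]
    ext a b
    fin_cases a <;> fin_cases b <;> simp [xiCap, e', hrφ]
  · intro ζ h1 h2 h3
    have hO : IsOpen {ζ : ℂ | Real.exp ζ.re < 1/16 ∧ (pp g j : ℂ) + exp ζ ∈ Ω} :=
      (isOpen_lt (f := fun ζ : ℂ => Real.exp ζ.re) (by fun_prop) continuous_const).inter
        (hF.opn.preimage (f := fun ζ : ℂ => (pp g j : ℂ) + exp ζ) (by fun_prop))
    have hS : Convex ℝ {ζ : ℂ | ζ.re < Real.log (1/16) ∧ 0 ≤ ζ.im ∧ ζ.im ≤ Real.pi} :=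
      (convex_halfSpace_re_lt _).inter
        ((convex_halfSpace_im_ge _).inter (convex_halfSpace_im_le _))
    have hl : ∀ x : ℝ, x < Real.log (1/16) ↔ Real.exp x < 1/16 := fun x =>
      Real.lt_log_iff_exp_lt (by norm_num)
    refine frame_unique (ξ := fun ζ => (exp (ζ / k) / k) • xiCap k φ m (exp (ζ / k)))
      (Φ := fun ζ => Ψ (exp (ζ / k))) (Ψ := fun ζ => Φ (pp g j + exp ζ) * Q ζ) hO ?_
      (fun y hy => ?_) (fun y hy => ?_) hS.isPreconnected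
      (fun y hy => ⟨(hl _).1 hy.1, hup y ((hl _).1 hy.1) hy.2.1 hy.2.2⟩) (w := z)
      ⟨(hl _).2 z1, z2.ge, z2 ▸ Real.pi_pos.le⟩ h0 ζ ⟨(hl _).2 h1, h2, h3⟩
    · refine ContinuousOn.smul (f := fun ζ : ℂ => exp (ζ / k) / k) (by fun_prop) ?_
      exact hhol.continuousOn.comp (f := fun ζ : ℂ => exp (ζ / k)) (by fun_prop)
        fun y hy => hmem y hy.1
    · have a := (hΨ _ (hmem y hy.1)).scomp y ((hasDerivAt_id y).div_const (k : ℂ)).cexp
      refine a.congr_deriv ?_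
      rw [mul_smul_comm, id, mul_one_div]
    · have a := (hF.ode _ hy.2).scomp y ((hasDerivAt_exp y).const_add (pp g j : ℂ))
      have b := (Cap1_deriv_dg (2 * k) y).const_mul P
      refine (a.mul b).congr_deriv (Eq.symm ?_)
      have c : ∀ X Y : MW, X * Q y * (adj (Q y) * Y * Q y) = X * Y * Q y := fun X Y => by
        rw [mul_assoc (adj _), ← mul_assoc (X * Q y), mul_assoc X, mul_adj_of_det (hQd y), mul_one,
          mul_assoc X Y]
      rw [hga, mul_add, c, ht]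
      simp only [hQ, mul_assoc, mul_smul_comm, smul_mul_assoc, smul_smul, Function.comp]
      congr 2
      ring

end Pool.Agent.MP_efb2da_gt

end
end

section

open Set Complex
open scoped Topology ComplexConjugate Matrix ContDiff

noncomputable section

namespace Pool.Agent.MP_efb2da_gt

lemma Cap2_dg_mul (a b : ℂ) : dg a * dg b = dg (a * b) := by
  rw [dg, dg, dg, ← cst_mul]
  congr 1
  ext i j; fin_cases i <;> fin_cases j <;> simp [Matrix.mul_apply, Fin.sum_univ_two, mul_comm]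

lemma Cap2_dg_one : dg 1 = 1 := by
  rw [dg, ← cst_one]
  congr 1
  ext i j; fin_cases i <;> fin_cases j <;> simp

lemma Cap2_det_dg {a : ℂ} (ha : a ≠ 0) : (dg a).det = 1 := by
  rw [dg, det_cst, Matrix.det_fin_two_of, inv_mul_cancel₀ ha]
  simp

lemma Cap2_sharp_dg (a : ℂ) : sharp (dg a) = dg (conj a) := by
  rw [dg, dg, sharp_cst]
  congr 1
  ext i j; fin_cases i <;> fin_cases j <;> simp

lemma Cap2_dg_ge (a : ℂ) : MGE 0 (dg a) := MGE_cst _

lemma Cap2_preconn {k : ℕ} (hk : 3 ≤ k) : IsPreconnected {w : ℂ | ‖w‖ ^ k < 1/16} := by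
  have h0 : (0:ℂ) ∈ {w : ℂ | ‖w‖ ^ k < 1/16} := by
    have : k ≠ 0 := by omega
    simp [this]
  have hs : StarConvex ℝ (0:ℂ) {w : ℂ | ‖w‖ ^ k < 1/16} := by
    intro y hy a b ha hb hab
    simp only [mem_ofPred_eq, smul_zero, zero_add] at hy ⊢
    refine lt_of_le_of_lt ?_ hy
    refine pow_le_pow_left₀ (norm_nonneg _) ?_ k
    rw [norm_smul, Real.norm_of_nonneg hb]
    exact mul_le_of_le_one_left (norm_nonneg _) (by linarith)
  exact (hs.isPathConnected h0).isConnected.isPreconnected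

lemma Cap2_norm_rt (k : ℕ) : ‖rt k‖ = 1 := by
  have : (2 * Real.pi * I / k : ℂ) = ((2 * Real.pi / k : ℝ) : ℂ) * I := by push_cast; ring
  rw [rt, this, Complex.norm_exp_ofReal_mul_I]

lemma Cap2_exp_eq {k : ℕ} {t : ℝ} (ht : t = 1 / k) (l : ℤ) :
    exp (2 * Real.pi * I * t * l) = rt k ^ l := by
  rw [rt, ← Complex.exp_int_mul, ht]
  congr 1
  push_cast; ring

lemma Cap2_norm_exp {k : ℕ} (hk : 3 ≤ k) (ζ : ℂ) : ‖exp (ζ / k)‖ ^ k = Real.exp ζ.re := by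
  have hk0 : (k : ℂ) ≠ 0 := by
    have : k ≠ 0 := by omega
    exact_mod_cast this
  rw [← norm_pow, ← Complex.exp_nat_mul, mul_div_cancel₀ _ hk0, Complex.norm_exp]

lemma Cap2_det {g : Geo} {d : Dat} {Ω : Set ℂ} {Φ : ℂ → MW} (hF : Frame g d Ω Φ) (hg : AdmG g)
    (j : Fin 3) {ζ : ℂ} (h1 : Real.exp ζ.re < 1/16) (h2 : 0 ≤ ζ.im) (h3 : ζ.im ≤ Real.pi) :
    (Φ (pp g j + exp ζ)).det = 1 := by
  refine hF.det _ (hF.up _ (ball_subset_Dom hg j ?_ ?_) ?_)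
  · rw [add_sub_cancel_left, Complex.norm_exp]; linarith
  · intro h
    exact Complex.exp_ne_zero ζ (add_eq_left.1 h)
  · rw [Complex.add_im, Complex.ofReal_im, zero_add, Complex.exp_im]
    exact mul_nonneg (Real.exp_pos _).le (Real.sin_nonneg_of_nonneg_of_le_pi h2 h3)

lemma Cap2_arc {Φ : ℂ → MW} {x : ℝ} (h : (Φ x).det = 1) : arcR Φ x * sharp (Φ x) = Φ x := by
  have : (sharp (Φ x)).det = 1 := by rw [det_sharp, h, W.cj_one]
  rw [arcR, mul_assoc, adj_mul_of_det this, mul_one]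

theorem exists_cap_chart {η N : ℝ} {As : Fin 5 → MW} {S : Sol η N As} {Ω : Set ℂ} {Φ : ℂ → MW}
    {R5 : MW} (hF : Frame S.g S.d Ω Φ) (hR : Arcs S Φ R5) (hN : Nil S.g S.d) (j : Fin 3) {P : MW}
    {φ : W} (hP : MGE 0 P) (hdP : P.det = 1) (hrP : sharp P = P) (hφ : W.GE (-1) φ)
    (hrφ : W.cj φ = φ) (hφ0 : W.coef (-1) φ ≠ 0)
    (hA : adj P * AA S.d (cj5 j) * P = !![algebraMap ℂ W (1/2), φ; 0, algebraMap ℂ W (-1/2)]) :
    ∃ X : ℂ → E3, (∀ w, ‖w‖ ^ S.k < 1/16 → CMCAt X w) ∧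
      (∀ ζ : ℂ, Real.exp ζ.re < 1/16 → 0 ≤ ζ.im → ζ.im ≤ Real.pi →
        X (exp (ζ / S.k)) = pt S.x (Φ (pp S.g j + exp ζ))) ∧
      (∀ w, ‖w‖ ^ S.k < 1/16 → X (rt S.k * w) = Rot (rt S.k ^ sg j) (X w)) ∧
      ∀ w, ‖w‖ ^ S.k < 1/16 → X (conj w) = Rot (rt S.k ^ lr j) (Refl (X w)) := by
  obtain ⟨Ψ, ξ, hD, hne, hre, hrot, hval⟩ :=
    exists_cap_frame hF hN j hP hdP hrP hφ hrφ hφ0 hA
  have hk := S.hk
  have hk0 : (S.k : ℂ) ≠ 0 := by
    have : S.k ≠ 0 := by omega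
    exact_mod_cast this
  set O : Set ℂ := {w | ‖w‖ ^ S.k < 1/16} with hO
  have hpc : IsPreconnected O := Cap2_preconn hk
  have hcj : ∀ w ∈ O, conj w ∈ O := fun w hw => by
    simpa only [hO, mem_ofPred_eq, Complex.norm_conj] using hw
  have hrt : ∀ w ∈ O, rt S.k * w ∈ O := fun w hw => by
    simpa only [hO, mem_ofPred_eq, norm_mul, Cap2_norm_rt, one_mul] using hw
  have hξ : ContinuousOn ξ O := hD.hol.continuousOn
  obtain ⟨cr, cl⟩ := hR.cl_Rr j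
  obtain ⟨vl, vr⟩ := hR.val_cap j (r := 1/32) (by norm_num) (by norm_num)
  set z0 : ℝ := Real.log (1/32) with hz0
  have ez0 : Real.exp z0 = 1/32 := Real.exp_log (by norm_num)
  have ez0' : exp (z0 : ℂ) = ((1/32 : ℝ) : ℂ) := by rw [← Complex.ofReal_exp, ez0]
  -- the reflection
  have refl : ∀ w ∈ O, Ψ w = Rr S.g S.d R5 j * sharp (Ψ (conj w)) := by
    have hw0 : exp ((z0 : ℂ) / S.k) ∈ O := by
      rw [hO, mem_ofPred_eq, Cap2_norm_exp hk, Complex.ofReal_re, ez0]; norm_num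
    refine frame_ratio hD.opn hξ hD.ode (Ψ := fun w => sharp (Ψ (conj w))) ?_ hpc subset_rfl hw0 ?_
    · intro z hz
      have := hasDerivAt_sharp_conj (hD.ode _ (hcj z hz))
      rwa [sharp_mul, hre] at this
    · have c1 : conj (exp ((z0 : ℂ) / S.k)) = exp ((z0 : ℂ) / S.k) := by
        rw [← Complex.exp_conj]; simp
      have c2 : conj (exp ((z0 : ℂ) / (2 * S.k))) = exp ((z0 : ℂ) / (2 * S.k)) := by
        rw [← Complex.exp_conj]; simp [map_ofNat]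
      have a1 : Real.exp (z0 : ℂ).re < 1/16 := by rw [Complex.ofReal_re, ez0]; norm_num
      have a2 : 0 ≤ (z0 : ℂ).im := by simp
      have a3 : (z0 : ℂ).im ≤ Real.pi := by simp [Real.pi_pos.le]
      have hv := hval z0 a1 a2 a3
      have hd := Cap2_det hF S.adm j a1 a2 a3
      have e : (pp S.g j : ℂ) + exp (z0 : ℂ) = ((pp S.g j + 1/32 : ℝ) : ℂ) := by
        rw [ez0']; push_cast; ring
      rw [e] at hv hd
      simp only [c1]
      rw [hv, sharp_mul, sharp_mul, hrP, Cap2_sharp_dg, c2, ← vr,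
        ← mul_assoc (arcR _ _), Cap2_arc hd]
  -- the rotation
  set a : ℂ := exp (Real.pi * I / S.k) with ha
  have ha0 : a ≠ 0 := Complex.exp_ne_zero _
  have rot : ∀ w ∈ O, Ψ (rt S.k * w) * dg a⁻¹ =
      (Rl S.g S.d j * adj (Rr S.g S.d R5 j)) * Ψ w := by
    have hw1 : exp (((z0 : ℂ) - Real.pi * I) / S.k) ∈ O := by
      rw [hO, mem_ofPred_eq, Cap2_norm_exp hk]
      have : ((z0 : ℂ) - Real.pi * I).re = z0 := by simp
      rw [this, ez0]; norm_num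
    refine frame_ratio hD.opn hξ (Φ := fun w => Ψ (rt S.k * w) * dg a⁻¹) ?_ hD.ode hpc
      subset_rfl hw1 ?_
    · intro z hz
      have h1 : HasDerivAt (fun w => rt S.k * w) (rt S.k) z := by
        simpa using (hasDerivAt_id z).const_mul (rt S.k)
      have h2 := ((hD.ode _ (hrt z hz)).scomp z h1).mul_const (dg a⁻¹)
      have e : (rt S.k • (Ψ (rt S.k * z) * ξ (rt S.k * z))) * dg a⁻¹ =
          Ψ (rt S.k * z) * dg a⁻¹ * ξ z := by
        rw [← mul_smul_comm, hrot z]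
        simp only [mul_assoc]
        rw [Cap2_dg_mul, mul_inv_cancel₀ ha0, Cap2_dg_one, mul_one]
      rw [e] at h2
      exact h2
    · have a1 : Real.exp ((z0 : ℂ) + Real.pi * I).re < 1/16 := by
        have : ((z0 : ℂ) + Real.pi * I).re = z0 := by simp
        rw [this, ez0]; norm_num
      have a2 : 0 ≤ ((z0 : ℂ) + Real.pi * I).im := by simp [Real.pi_pos.le]
      have a3 : ((z0 : ℂ) + Real.pi * I).im ≤ Real.pi := by simp
      have hv := hval _ a1 a2 a3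
      have hd := Cap2_det hF S.adm j a1 a2 a3
      have e : (pp S.g j : ℂ) + exp ((z0 : ℂ) + Real.pi * I) = ((pp S.g j - 1/32 : ℝ) : ℂ) := by
        rw [Complex.exp_add, Complex.exp_pi_mul_I, ez0']; push_cast; ring
      rw [e] at hv hd
      have c1 : rt S.k * exp (((z0 : ℂ) - Real.pi * I) / S.k) =
          exp (((z0 : ℂ) + Real.pi * I) / S.k) := by
        rw [rt, ← Complex.exp_add]; congr 1; ring
      have c2 : conj (exp (((z0 : ℂ) - Real.pi * I) / S.k)) =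
          exp (((z0 : ℂ) + Real.pi * I) / S.k) := by
        rw [← Complex.exp_conj]; simp
      have c3 : conj (exp (((z0 : ℂ) + Real.pi * I) / (2 * S.k))) =
          exp (((z0 : ℂ) + Real.pi * I) / (2 * S.k)) * a⁻¹ := by
        rw [← Complex.exp_conj, ha, ← Complex.exp_neg, ← Complex.exp_add]
        congr 1
        simp only [map_div₀, map_add, map_mul, Complex.conj_ofReal, Complex.conj_I, map_ofNat,
          map_natCast]
        field_simp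
        ring
      simp only [c1]
      rw [refl _ hw1, c2, hv, sharp_mul, sharp_mul, hrP, Cap2_sharp_dg, c3, ← Cap2_dg_mul, ← vl]
      simp only [mul_assoc]
      rw [← mul_assoc (adj _) (Rr S.g S.d R5 j), adj_mul_of_det cr.det, one_mul,
        ← mul_assoc (arcR _ _), Cap2_arc hd]
  refine ⟨fun w => pt S.x (Ψ w), fun w hw => ?_, fun ζ h1 h2 h3 => ?_, fun w hw => ?_,
    fun w hw => ?_⟩
  · exact (hD.cmcAt hw (hne w hw)).sub_const (mk3 S.x 0)
  · have hg : MGE 0 (P * dg (exp (ζ / (2 * S.k)))) := by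
      simpa using hP.mul (Cap2_dg_ge (exp (ζ / (2 * S.k))))
    have hdg : (P * dg (exp (ζ / (2 * S.k)))).det = 1 := by
      rw [Matrix.det_mul, hdP, Cap2_det_dg (Complex.exp_ne_zero _), one_mul]
    simp only [pt]
    rw [hval ζ h1 h2 h3, symM_gauge (Cap2_det hF S.adm j h1 h2 h3) hg hdg]
  · have e : Ψ (rt S.k * w) = (Rl S.g S.d j * adj (Rr S.g S.d R5 j)) * Ψ w * dg a := by
      rw [← rot w hw, mul_assoc, Cap2_dg_mul, inv_mul_cancel₀ ha0, Cap2_dg_one, mul_one]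
    simp only []
    rw [e, cl.pt_mul (hD.det w hw) (Cap2_dg_ge a) (Cap2_det_dg ha0), Cap2_exp_eq S.ht]
  · have e : Ψ (conj w) = Rr S.g S.d R5 j * sharp (Ψ w) * 1 := by
      rw [refl _ (hcj w hw), Complex.conj_conj, mul_one]
    have hd : (sharp (Ψ w)).det = 1 := by rw [det_sharp, hD.det w hw, W.cj_one]
    simp only []
    rw [e, cr.pt_mul hd MGE_one Matrix.det_one, Cap2_exp_eq S.ht, pt_sharp (hD.det w hw),
      zpow_natCast]

end Pool.Agent.MP_efb2da_gt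

end
end

section

open Set Complex
open scoped Topology ComplexConjugate Matrix ContDiff

noncomputable section

namespace Pool.Agent.MP_efb2da_gt

lemma Neck1_norm {g : Geo} (hg : AdmG g) (ζ : ℂ) :
    ‖(ee g : ℂ) * exp ζ‖ = ee g * Real.exp ζ.re := by
  rw [norm_mul, Complex.norm_exp, Complex.norm_real, Real.norm_of_nonneg hg.2.1.1.le]

lemma Neck1_ne {g : Geo} (hg : AdmG g) (ζ : ℂ) : (ee g : ℂ) * exp ζ ≠ 0 :=
  mul_ne_zero (by exact_mod_cast hg.2.1.1.ne') (exp_ne_zero ζ)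

lemma Neck1_mem {g : Geo} (hg : AdmG g) {ζ : ℂ} (h : ζ ∈ Strip g) :
    8 * ee g ^ 2 < ‖(ee g : ℂ) * exp ζ‖ ∧ ‖(ee g : ℂ) * exp ζ‖ < 1/8 := by
  have he := hg.2.1.1
  have hp : 0 < 1 / (8 * ee g) := by positivity
  obtain ⟨h1, h2⟩ := abs_lt.1 (show |ζ.re| < Real.log (1 / (8 * ee g)) from h)
  have h3 : Real.exp ζ.re < 1 / (8 * ee g) := (Real.lt_log_iff_exp_lt hp).1 h2
  have h4 : Real.exp (-ζ.re) < 1 / (8 * ee g) := (Real.lt_log_iff_exp_lt hp).1 (by linarith)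
  have h5 := Real.exp_pos ζ.re
  rw [lt_div_iff₀ (by positivity)] at h3 h4
  rw [Real.exp_neg, inv_mul_lt_iff₀ h5] at h4
  rw [Neck1_norm hg]
  constructor
  · nlinarith
  · linarith

lemma Neck1_half {g : Geo} (hg : AdmG g) : 1/2 ≤ Real.log (1 / (8 * ee g)) := by
  have he := hg.2.1.1
  have he' := hg.2.1.2
  have h := Real.one_sub_inv_le_log_of_pos (show 0 < 1 / (8 * ee g) by positivity)
  rw [one_div, inv_inv] at h
  rw [one_div (8 * ee g)]
  linarith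

lemma Neck1_of_re {g : Geo} (hg : AdmG g) {ζ : ℂ} (h : |ζ.re| < 1/2) : ζ ∈ Strip g :=
  h.trans_le (Neck1_half hg)

lemma Neck1_imag {g : Geo} (hg : AdmG g) (θ : ℝ) : (θ : ℂ) * I ∈ Strip g :=
  Neck1_of_re hg (by simp)

lemma Neck1_open (g : Geo) : IsOpen (Strip g) :=
  isOpen_lt (by fun_prop) continuous_const

lemma Neck1_convex (g : Geo) : Convex ℝ (Strip g) := by
  have e : Strip g = {ζ : ℂ | -Real.log (1 / (8 * ee g)) < ζ.re} ∩
      {ζ : ℂ | ζ.re < Real.log (1 / (8 * ee g))} := by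
    ext ζ
    exact abs_lt (a := ζ.re)
  rw [e]
  exact (convex_halfSpace_re_gt _).inter (convex_halfSpace_re_lt _)

lemma Neck1_congr {g : Geo} {ζ w : ℂ} (h : ζ ∈ Strip g) (e : |w.re| = |ζ.re|) : w ∈ Strip g := by
  change |w.re| < _
  rw [e]
  exact h

lemma Neck1_xi {g : Geo} {d : Dat} (hg : AdmG g) (hf : Fix g d) {ζ : ℂ} (h : ζ ∈ Strip g) :
    xiN g d ζ = ((tt g : ℂ) * (ee g * exp ζ)) • Xi g d (1 + ee g * exp ζ) := by
  rw [xiN, Th_eq hg hf (Neck1_ne hg ζ) (Neck1_mem hg h).2.le, smul_smul]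

lemma Neck1_hol {g : Geo} {d : Dat} (hg : AdmG g) (hd : Str d) :
    DifferentiableOn ℂ (xiN g d) (Strip g) := by
  have h1 : Differentiable ℂ fun ζ : ℂ => (ee g : ℂ) * exp ζ := by fun_prop
  exact ((Th_differentiableOn hg hd).comp h1.differentiableOn
    fun ζ hζ => Neck1_mem hg hζ).const_smul (tt g : ℂ)

lemma Neck1_xi_per (g : Geo) (d : Dat) (ζ : ℂ) : xiN g d (ζ + 2 * Real.pi * I) = xiN g d ζ := by
  rw [xiN, xiN, Complex.exp_add, Complex.exp_two_pi_mul_I, mul_one]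

lemma Neck1_xi_cj {g : Geo} {d : Dat} (hd : Str d) (ζ : ℂ) :
    sharp (xiN g d (conj ζ)) = xiN g d ζ := by
  have e : (ee g : ℂ) * exp (conj ζ) = conj ((ee g : ℂ) * exp ζ) := by
    rw [map_mul, Complex.conj_ofReal, Complex.exp_conj]
  rw [xiN, xiN, sharp_smul, Complex.conj_ofReal, e, Th_real hd]

lemma Neck1_xi_neg {g : Geo} {d : Dat} (hg : AdmG g) (hd : Str d) (ζ : ℂ) :
    sw (xiN g d (-ζ)) = -xiN g d ζ := by
  have he : (ee g : ℂ) ≠ 0 := by exact_mod_cast hg.2.1.1.ne'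
  have e : (ee g : ℂ) * exp (-ζ) = (ee g : ℂ) ^ 2 / (ee g * exp ζ) := by
    rw [Complex.exp_neg]
    have := exp_ne_zero ζ
    field_simp
  rw [xiN, xiN, map_smul, e, Th_sw hg hd (Neck1_ne hg ζ), smul_neg]

theorem exists_neck {g : Geo} {d : Dat} {Ω : Set ℂ} {Φ : ℂ → MW} (hF : Frame g d Ω Φ) (hg : AdmG g)
    (hd : Str d) (hf : Fix g d) (hN : Nil g d) : ∃ Ψ, Neck g d Ψ ∧
      ∀ ζ ∈ Strip g, 0 ≤ ζ.im → ζ.im ≤ Real.pi → Ψ ζ = Φ (1 + ee g * exp ζ) := by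
  have hO := Neck1_open g
  have hc := Neck1_convex g
  have hξ := Neck1_hol hg hd
  have h0 : (0 : ℂ) ∈ Strip g := Neck1_of_re hg (by simp)
  obtain ⟨Ψ, hz, hΨ⟩ := exists_frame_convex hO hc hξ h0 (1 : MW)
  have htr : ∀ ζ ∈ Strip g, trW (xiN g d ζ) = 0 := fun ζ _ => Pot3_tr_smul _ (Th_tr hd _)
  refine ⟨Ψ, ⟨⟨hO, hΨ, ?_, hξ, fun ζ _ => (Th_ge hd _).smul _, htr, fun ζ hζ => ?_⟩, hz, ?_, ?_, ?_⟩,
    ?_⟩
  · exact frame_det hO hc.isPreconnected hΨ htr h0 (by rw [hz, Matrix.det_one])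
  · rw [Neck1_xi hg hf hζ, map_smul, Matrix.det_smul,
      hN.nil _ (neck_subset_Dom hg (Neck1_mem hg hζ).1 (Neck1_mem hg hζ).2), mul_zero]
  · have hγ : ∀ r : ℝ, HasDerivAt (fun r : ℝ => 2 * Real.pi * I * (r : ℂ)) (2 * Real.pi * I) r := by
      intro r
      simpa using (Complex.ofRealCLM.hasDerivAt (x := r)).const_mul (2 * Real.pi * I : ℂ)
    have h1 := frame_path hΨ (γ' := fun _ => 2 * Real.pi * I) (right_mem_Icc.2 zero_le_one) hγ
      (fun r _ => Neck1_of_re hg (by simp)) (continuous_a1 (d := d) hg).continuousOn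
      (fun r _ => by rw [a1, xiN, smul_smul]) 1 (right_mem_Icc.2 zero_le_one)
    refine frame_ratio (Φ := fun ζ => Ψ (ζ + 2 * Real.pi * I)) hO hξ.continuousOn
      (fun ζ hζ => ?_) hΨ hc.isPreconnected Subset.rfl h0 ?_
    · have h2 := hΨ (ζ + 2 * Real.pi * I) (Neck1_congr hζ (by simp))
      rw [Neck1_xi_per] at h2
      exact h2.comp_add_const ζ _
    · simp only [ofReal_one, ofReal_zero, mul_one, mul_zero, hz, one_mul] at h1
      rw [zero_add, h1, hz, mul_one, R1]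
  · intro ζ hζ
    have h1 := frame_unique (Φ := fun ζ => sharp (Ψ (conj ζ))) hO hξ.continuousOn
      (fun w hw => by
        have h2 := hasDerivAt_sharp_conj (hΨ (conj w) (Neck1_congr hw (by simp)))
        rwa [sharp_mul, Neck1_xi_cj hd] at h2)
      hΨ hc.isPreconnected Subset.rfl h0 (by simp [hz]) ζ hζ
    rw [← h1, sharp_sharp]
  · intro ζ hζ
    have h1 := frame_unique (Φ := fun ζ => sw (Ψ (-ζ))) hO hξ.continuousOn
      (fun w hw => by
        have h2 := (hΨ (-w) (Neck1_congr hw (by simp))).scomp w (hasDerivAt_neg w)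
        have h3 := sw.hasFDerivAt.comp_hasDerivAt w h2
        rw [map_smul, sw_mul, Neck1_xi_neg hg hd, neg_smul, one_smul, mul_neg, neg_neg] at h3
        exact h3)
      hΨ hc.isPreconnected Subset.rfl h0 (by simp [hz]) ζ hζ
    rw [← h1, sw_sw]
  · intro ζ hζ hζ0 hζ1
    have hE : ∀ w : ℂ, HasDerivAt (fun w : ℂ => 1 + (ee g : ℂ) * exp w) (ee g * exp w) w :=
      fun w => ((Complex.hasDerivAt_exp w).const_mul (ee g : ℂ)).const_add 1
    have hEc : Continuous fun w : ℂ => 1 + (ee g : ℂ) * exp w := by fun_prop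
    refine frame_unique (O := Strip g ∩ (fun w : ℂ => 1 + (ee g : ℂ) * exp w) ⁻¹' Ω)
      (S := Strip g ∩ ({w : ℂ | 0 ≤ w.im} ∩ {w : ℂ | w.im ≤ Real.pi}))
      (Ψ := fun w => Φ (1 + ee g * exp w)) (w := 0) (hO.inter (hF.opn.preimage hEc))
      (hξ.continuousOn.mono inter_subset_left) (fun w hw => hΨ w hw.1) (fun w hw => ?_)
      (hc.inter ((convex_halfSpace_im_ge _).inter (convex_halfSpace_im_le _))).isPreconnected
      (fun w hw => ⟨hw.1, hF.up _ (neck_subset_Dom hg (Neck1_mem hg hw.1).1 (Neck1_mem hg hw.1).2)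
        ?_⟩) ⟨h0, by simp, by simp [Real.pi_pos.le]⟩ ?_ ζ ⟨hζ, hζ0, hζ1⟩
    · have h2 := (hF.ode _ hw.2).scomp w (hE w)
      rw [Neck1_xi hg hf hw.1, mul_comm (tt g : ℂ), ← smul_smul, mul_smul_comm]
      exact h2
    · have h2 : (1 + (ee g : ℂ) * exp w).im = ee g * (Real.exp w.re * Real.sin w.im) := by
        rw [add_im, one_im, zero_add, Complex.im_ofReal_mul, Complex.exp_im]
      rw [h2]
      exact mul_nonneg hg.2.1.1.le (mul_nonneg (Real.exp_pos _).le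
        (Real.sin_nonneg_of_nonneg_of_le_pi hw.2.1 hw.2.2))
    · simp only [Complex.exp_zero, mul_one, hz, hF.base]

theorem xiN_ne {g : Geo} {d : Dat} (hg : AdmG g) (hf : Fix g d) (hN : Nil g d) {ζ : ℂ}
    (h : |ζ.re| < 1/2) : ζ ∈ Strip g ∧ cf (-1) (xiN g d ζ) ≠ 0 := by
  have hζ := Neck1_of_re hg h
  refine ⟨hζ, ?_⟩
  obtain ⟨h1, h2⟩ := Neck1_mem hg hζ
  have ht : (tt g : ℂ) ≠ 0 := by exact_mod_cast hg.1.1.ne'
  have hq := hg.2.2.1.1
  have hq0 : 0 < √(qq g) := Real.sqrt_pos.2 hq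
  have hq1 : √(qq g) ≤ 1 := Real.sqrt_le_one.2 (hg.2.2.1.2.trans (by norm_num))
  have n1 : 1 - 1/8 ≤ ‖1 + (ee g : ℂ) * exp ζ‖ := by
    have := norm_sub_le (1 + (ee g : ℂ) * exp ζ) ((ee g : ℂ) * exp ζ)
    rw [add_sub_cancel_right, norm_one] at this
    linarith
  have n2 : ‖1 + (ee g : ℂ) * exp ζ‖ ≤ 1 + 1/8 := by
    have := norm_add_le (1 : ℂ) ((ee g : ℂ) * exp ζ)
    rw [norm_one] at this
    linarith
  rw [Neck1_xi hg hf hζ, map_smul]
  refine smul_ne_zero (mul_ne_zero ht (Neck1_ne hg ζ)) (hN.ne _ (by linarith) ?_ ?_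
    (neck_subset_Dom hg h1 h2).2.2.2)
  · rw [lt_div_iff₀ hq0]
    nlinarith
  · rw [add_sub_cancel_left, Neck1_norm hg]
    have h3 := Real.add_one_le_exp ζ.re
    have h4 := (abs_lt.1 h).1
    have he := hg.2.1.1
    nlinarith

variable {g : Geo} {d : Dat} {Ψ : ℂ → MW} {x : ℝ}

lemma Neck1_hz_pt (x : ℝ) (Φ : MW) : hz (pt x Φ) = conj (symM Φ 0 1) - x := by
  apply Complex.ext <;> simp [pt, vec, hz, mk3]

lemma Neck1_pt_two (x : ℝ) (Φ : MW) : pt x Φ 2 = (symM Φ 0 0).re := by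
  simp [pt, vec, mk3]

lemma Neck1_sym (h : Neck g d Ψ) {ζ : ℂ} (hζ : ζ ∈ Strip g) :
    symM (Ψ (-conj ζ)) 0 1 = symM (Ψ ζ) 0 1 ∧ symM (Ψ (-conj ζ)) 0 0 = -symM (Ψ ζ) 0 0 := by
  have hd := h.fr.det ζ hζ
  have h1 := symM_herm hd
  have h2 := symM_tr hd
  rw [h.neg _ (Neck1_congr hζ (by simp)), h.cj ζ hζ,
    symM_sw (by rw [det_sharp, hd, W.cj_one]), symM_sharp hd]
  generalize symM (Ψ ζ) = f at *
  have h3 : conj (f 1 0) = f 0 1 := congrFun (congrFun h1 0) 1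
  have h4 : conj (f 1 1) = f 1 1 := congrFun (congrFun h1 1) 1
  rw [trC_apply] at h2
  constructor
  · simpa [s1, Matrix.mul_apply, Fin.sum_univ_two, Matrix.vecMul, dotProduct] using h3
  · have h5 : (s1 * cjC f * s1) 0 0 = conj (f 1 1) := by
      simp [s1, Matrix.mul_apply, Fin.sum_univ_two, Matrix.vecMul, dotProduct]
    rw [h5, h4]
    linear_combination h2

theorem Neck.mirror (h : Neck g d Ψ) {ζ : ℂ} (hζ : ζ ∈ Strip g) :
    pt x (Ψ (-conj ζ)) = mk3 (hz (pt x (Ψ ζ))) (-(pt x (Ψ ζ) 2)) := by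
  obtain ⟨h1, h2⟩ := Neck1_sym h hζ
  refine E3_ext ?_ ?_
  · rw [hz_mk3, Neck1_hz_pt, Neck1_hz_pt, h1]
  · rw [mk3_two, Neck1_pt_two, Neck1_pt_two, h2, neg_re]

lemma Neck1_zero (h : Neck g d Ψ) (hg : AdmG g) (θ : ℝ) : symM (Ψ (θ * I)) 0 0 = 0 := by
  have h1 := (Neck1_sym h (Neck1_imag hg θ)).2
  have e : -conj ((θ : ℂ) * I) = θ * I := by simp
  rw [e] at h1
  linear_combination (1/2 : ℂ) * h1

theorem Neck.planar (h : Neck g d Ψ) (hg : AdmG g) (θ : ℝ) : pt x (Ψ (θ * I)) 2 = 0 := by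
  rw [Neck1_pt_two, Neck1_zero h hg, zero_re]

lemma Neck1_path (h : Neck g d Ψ) {γ : ℝ → ℂ} {v : ℂ} {s : ℝ} (hγ : HasDerivAt γ v s)
    (hs : γ s ∈ Strip g) (i j : Fin 2) : HasDerivAt (fun r => symM (Ψ (γ r)) i j)
      (-(v * aM Ψ (xiN g d) (γ s) i j + conj v * conj (aM Ψ (xiN g d) (γ s) j i))) s := by
  have h1 := ((h.fr.contDiffAt_sym hs).differentiableAt (by simp)).hasFDerivAt.comp_hasDerivAt s hγ
  rw [h.fr.fderiv_sym hs] at h1
  have h2 := ((entC i j).restrictScalars ℝ).hasFDerivAt.comp_hasDerivAt s h1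
  have e : ((entC i j).restrictScalars ℝ) (-(v • aM Ψ (xiN g d) (γ s) +
      conj v • ct (aM Ψ (xiN g d) (γ s)))) =
      -(v * aM Ψ (xiN g d) (γ s) i j + conj v * conj (aM Ψ (xiN g d) (γ s) j i)) := by
    rw [← ct_apply]
    rfl
  rw [e] at h2
  exact h2

lemma Neck1_ofReal (c b : ℂ) (s : ℝ) : HasDerivAt (fun r : ℝ => b + c * (r : ℂ)) c s := by
  simpa using ((Complex.ofRealCLM.hasDerivAt (x := s)).const_mul c).const_add b

/-- shape of `a` along the boundary -/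
theorem Neck.a_bd (h : Neck g d Ψ) (hg : AdmG g) (θ : ℝ) :
    (aM Ψ (xiN g d) (θ * I) 0 0).im = 0 ∧
      aM Ψ (xiN g d) (θ * I) 1 0 = -conj (aM Ψ (xiN g d) (θ * I) 0 1) ∧
      aM Ψ (xiN g d) (θ * I) 1 1 = -aM Ψ (xiN g d) (θ * I) 0 0 ∧
      (aM Ψ (xiN g d) (θ * I) 0 0).re ^ 2 = ‖aM Ψ (xiN g d) (θ * I) 0 1‖ ^ 2 := by
  have hθ := Neck1_imag hg θ
  have hγ : HasDerivAt (fun r : ℝ => (r : ℂ) * I) I θ := by
    simpa using (Complex.ofRealCLM.hasDerivAt (x := θ)).mul_const I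
  have d1 := Neck1_path h hγ hθ 0 0
  simp only [Neck1_zero h hg] at d1
  have e1 := d1.unique (hasDerivAt_const θ (0 : ℂ))
  have d2 := Neck1_path h (Neck1_ofReal 1 (θ * I) 0) (by simpa using hθ) 0 1
  have d3 := Neck1_path h (Neck1_ofReal (-1) (θ * I) 0) (by simpa using hθ) 0 1
  have ev : (fun r : ℝ => symM (Ψ (θ * I + 1 * (r : ℂ))) 0 1) =ᶠ[𝓝 0]
      fun r : ℝ => symM (Ψ (θ * I + -1 * (r : ℂ))) 0 1 := by
    filter_upwards [Ioo_mem_nhds (show (-(1/2) : ℝ) < 0 by norm_num) (show (0 : ℝ) < 1/2 by norm_num)]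
      with r hr
    have h1 := (Neck1_sym h (ζ := θ * I + 1 * (r : ℂ))
      (Neck1_of_re hg (by simpa using abs_lt.2 hr))).1
    have e : -conj ((θ : ℂ) * I + 1 * (r : ℂ)) = θ * I + -1 * (r : ℂ) := by
      simp
      ring
    rw [← h1, e]
  have e2 := d2.unique (d3.congr_of_eventuallyEq ev)
  have e3 := h.fr.a_tr hθ
  have e4 := congrFun (congrFun (h.fr.a_sq hθ) 0) 0
  simp only [ofReal_zero, mul_zero, add_zero] at e2
  rw [trC_apply] at e3
  simp only [Matrix.mul_apply, Fin.sum_univ_two, Matrix.zero_apply] at e4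
  generalize aM Ψ (xiN g d) (θ * I) = a at *
  have f1 : (a 0 0).im = 0 := by
    have := congrArg Complex.re e1
    simp at this
    linarith
  have f2 : a 1 0 = -conj (a 0 1) := by
    have h1 : conj (a 1 0) = -a 0 1 := by
      simp only [map_one, map_neg] at e2
      linear_combination (-1/2 : ℂ) * e2
    rw [← Complex.conj_conj (a 1 0), h1, map_neg]
  refine ⟨f1, f2, by linear_combination e3, ?_⟩
  rw [f2, mul_neg, Complex.mul_conj, Complex.normSq_eq_norm_sq] at e4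
  have := congrArg Complex.re e4
  simp only [add_re, mul_re, neg_re, ofReal_re, zero_re, f1] at this
  linarith

lemma Neck1_Gam (k : ℕ) (x : ℝ) (Ψ : ℂ → MW) : Gam k x Ψ =
    fun s : ℝ => conj (symM (Ψ (((2 * Real.pi * k * s : ℝ) : ℂ) * I)) 0 1) - x :=
  funext fun _ => Neck1_hz_pt _ _

lemma Neck1_cd (k : ℕ) : ContDiff ℝ ∞ fun s : ℝ => ((2 * Real.pi * k * s : ℝ) : ℂ) * I :=
  (Complex.ofRealCLM.contDiff.comp (contDiff_const.mul contDiff_id)).mul contDiff_const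

theorem Neck.contDiff_Gam (h : Neck g d Ψ) (hg : AdmG g) (k : ℕ) : ContDiff ℝ ∞ (Gam k x Ψ) := by
  rw [Neck1_Gam]
  refine ContDiff.sub (contDiff_iff_contDiffAt.2 fun s => ?_) contDiff_const
  have h1 := (h.fr.contDiffAt_sym (Neck1_imag hg (2 * Real.pi * k * s))).comp s
    (Neck1_cd k).contDiffAt
  exact Complex.conjCLE.contDiff.contDiffAt.comp s
    (((entC 0 1).restrictScalars ℝ).contDiff.contDiffAt.comp s h1)

theorem Neck.deriv_Gam (h : Neck g d Ψ) (hg : AdmG g) (k : ℕ) (s : ℝ) :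
    deriv (Gam k x Ψ) s = (2 * Real.pi * k) *
      (2 * I * conj (aM Ψ (xiN g d) (((2 * Real.pi * k * s : ℝ) : ℂ) * I) 0 1)) := by
  have hγ : HasDerivAt (fun s : ℝ => ((2 * Real.pi * k * s : ℝ) : ℂ) * I)
      (((2 * Real.pi * k : ℝ) : ℂ) * I) s := by
    simpa using (((hasDerivAt_id s).const_mul (2 * Real.pi * k : ℝ)).ofReal_comp).mul_const I
  have d1 := Neck1_path h hγ (Neck1_imag hg _) 0 1
  have d2 := ((Complex.conjCLE : ℂ →L[ℝ] ℂ).hasFDerivAt.comp_hasDerivAt s d1).sub_const (x : ℂ)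
  rw [Neck1_Gam]
  refine d2.deriv.trans ?_
  rw [(h.a_bd hg _).2.1]
  simp [map_ofNat]
  ring

theorem Neck.differentiable_nu (h : Neck g d Ψ) (hg : AdmG g) (k : ℕ) :
    Differentiable ℝ (nuB k Ψ (xiN g d)) := by
  intro s
  have h1 := (h.fr.contDiffAt_a (Neck1_imag hg (2 * Real.pi * k * s))).comp s
    (Neck1_cd k).contDiffAt
  have h2 := (Complex.reCLM.contDiff.contDiffAt.comp s
    (((entC 0 0).restrictScalars ℝ).contDiff.contDiffAt.comp s h1)).differentiableAt (by simp)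
  exact (h2.const_mul 2).const_mul _

theorem Neck.norm_deriv_Gam (h : Neck g d Ψ) (hg : AdmG g) (k : ℕ) (s : ℝ) :
    ‖deriv (Gam k x Ψ) s‖ = |nuB k Ψ (xiN g d) s| := by
  have h1 := (h.a_bd hg (2 * Real.pi * k * s)).2.2.2
  have h2 := (sq_eq_sq_iff_abs_eq_abs _ _).1 h1
  rw [abs_norm] at h2
  rw [h.deriv_Gam hg, nuB, abs_mul, abs_mul, abs_neg, h2]
  simp [abs_mul, abs_of_pos Real.pi_pos]

end Pool.Agent.MP_efb2da_gt

end
end

section

open Set Complex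
open scoped Topology ComplexConjugate Matrix ContDiff

noncomputable section

namespace Pool.Agent.MP_efb2da_gt

/-- the unitary frame of the equator -/
def Eq0 (s : ℝ) : MW := Hol (fun _ => ((s : ℂ) * I) • A10) 1

def Neck3n : MC := !![-1/4, 1/4; -1/4, 1/4]
def Neck3m : MC := !![-1/4, -1/4; 1/4, 1/4]

lemma Neck3_nil : nilM (-1/2) (Real.pi / 2) = Neck3n := by
  ext i j
  fin_cases i <;> fin_cases j <;> simp [nilM, Neck3n, s1, s3, sJ] <;> norm_num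

lemma Neck3_trp : trpC Neck3n = Neck3m := by
  ext i j
  fin_cases i <;> fin_cases j <;> simp [Neck3n, Neck3m]

lemma Neck3_ct : ct Neck3n = Neck3m := by
  ext i j
  fin_cases i <;> fin_cases j <;> simp [Neck3n, Neck3m, conj_ofNat]

lemma Neck3_ct' : ct Neck3m = Neck3n := by
  rw [← Neck3_ct, ct_ct]

lemma Neck3_A : A10 = mono (-1) Neck3n + mono 1 Neck3m := by
  have h : (((-1 : ℝ) : ℂ) / 2) • s3 = Neck3n + Neck3m := by
    ext i j
    fin_cases i <;> fin_cases j <;> simp [Neck3n, Neck3m, s3] <;> norm_num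
  rw [A10, zeta, Neck3_nil, Neck3_trp, h]
  abel

lemma Neck3_sq : A10 * A10 = ((1/2 : ℂ) ^ 2) • (1 : MW) := by
  have h1 : Neck3n * Neck3n = 0 := by
    ext i j
    fin_cases i <;> fin_cases j <;> simp [Neck3n, matApi2_mulC] <;> norm_num
  have h2 : Neck3m * Neck3m = 0 := by
    ext i j
    fin_cases i <;> fin_cases j <;> simp [Neck3m, matApi2_mulC] <;> norm_num
  have h3 : Neck3n * Neck3m + Neck3m * Neck3n = ((1/2 : ℂ) ^ 2) • (1 : MC) := by
    ext i j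
    fin_cases i <;> fin_cases j <;> simp [Neck3n, Neck3m] <;> norm_num
  have hz : ∀ n : ℤ, mono n 0 = 0 := fun n => by simp [mono]
  rw [Neck3_A, add_mul, mul_add, mul_add, mono_mul, mono_mul, mono_mul, mono_mul, h1, h2, hz, hz,
    zero_add, add_zero, show (-1 : ℤ) + 1 = 0 by norm_num, show (1 : ℤ) + -1 = 0 by norm_num,
    ← mono_add, h3, mono_smul, mono_zero, cst_one]

lemma Neck3_st : st A10 = A10 := by
  rw [Neck3_A, map_add, st_mono, st_mono, Neck3_ct, Neck3_ct', neg_neg, add_comm]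

lemma Neck3_tr : trW A10 = 0 := Lax_tr_zeta _ _ _

lemma Neck3_cf : cf (-1) A10 = Neck3n := by
  rw [A10, cf_zeta, Neck3_nil]

lemma Neck3_E (s : ℝ) : Eq0 s = ((Real.cos (s / 2) : ℝ) : ℂ) • (1 : MW) +
    (2 * I * ((Real.sin (s / 2) : ℝ) : ℂ)) • A10 := by
  have h := Hol_const_sq Neck3_sq ((s : ℂ) * I)
  have e : (s : ℂ) * I * (1/2) = ((s / 2 : ℝ) : ℂ) * I := by push_cast; ring
  rw [e, Complex.cosh_mul_I, Complex.sinh_mul_I, ← Complex.ofReal_cos, ← Complex.ofReal_sin] at h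
  have h2 := congrArg (fun M : MW => (2 : ℂ) • M) h
  simp only [smul_add, smul_smul] at h2
  rw [show (2 : ℂ) * (1/2) = 1 by norm_num, one_smul] at h2
  rw [Eq0, h2]
  congr 2 <;> ring

lemma Neck3_det (s : ℝ) : (Eq0 s).det = 1 :=
  det_Hol continuousOn_const (fun _ _ => by rw [map_smul, Neck3_tr, smul_zero]) 1
    (right_mem_Icc.2 zero_le_one)

lemma Neck3_unit (s : ℝ) : st (Eq0 s) * Eq0 s = 1 := by
  have hc : ((Real.cos (s / 2) : ℝ) : ℂ) ^ 2 + ((Real.sin (s / 2) : ℝ) : ℂ) ^ 2 = 1 := by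
    exact_mod_cast Real.cos_sq_add_sin_sq (s / 2)
  rw [Neck3_E, map_add, st_smul, st_smul, st_one, Neck3_st]
  simp only [map_mul, conj_ofReal, conj_I, conj_ofNat, add_mul, mul_add, smul_mul_assoc,
    mul_smul_comm, one_mul, mul_one, Neck3_sq, smul_smul]
  generalize ((Real.cos (s / 2) : ℝ) : ℂ) = c at hc ⊢
  generalize ((Real.sin (s / 2) : ℝ) : ℂ) = b at hc ⊢
  have hI : I * I = -1 := I_mul_I
  have : (1 : MW) = (1 : ℂ) • (1 : MW) + (0 : ℂ) • A10 := by simp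
  conv_rhs => rw [this]
  match_scalars
  · linear_combination hc - b ^ 2 * hI
  · ring

lemma Neck3_exp (s : ℝ) : exp (((s / 2 : ℝ) : ℂ) * I) =
    ((Real.cos (s / 2) : ℝ) : ℂ) + ((Real.sin (s / 2) : ℝ) : ℂ) * I := by
  rw [exp_mul_I, ofReal_cos, ofReal_sin]

lemma Neck3_exp' (s : ℝ) : exp (-(((s / 2 : ℝ) : ℂ) * I)) =
    ((Real.cos (s / 2) : ℝ) : ℂ) - ((Real.sin (s / 2) : ℝ) : ℂ) * I := by
  rw [← neg_mul, exp_mul_I, ofReal_cos, ofReal_sin, Complex.cos_neg, Complex.sin_neg]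
  ring

lemma Neck3_J0 (s : ℝ) : J0 (Eq0 s) = Dm (s / 2) := by
  rw [Neck3_E, map_add, map_smul, map_smul, J0_one, Neck3_A, map_add, J0_mono, J0_mono, Dm,
    Neck3_exp, Neck3_exp']
  generalize ((Real.cos (s / 2) : ℝ) : ℂ) = c
  generalize ((Real.sin (s / 2) : ℝ) : ℂ) = b
  ext i j
  fin_cases i <;> fin_cases j <;> simp [Neck3n, Neck3m]
  · ring
  · norm_num
  · norm_num
  · ring

lemma Neck3_J1 (s : ℝ) : J1 (Eq0 s) 0 0 = 0 ∧
    J1 (Eq0 s) 0 1 = -(I * ((Real.sin (s / 2) : ℝ) : ℂ)) := by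
  rw [Neck3_E, map_add, map_smul, map_smul, J1_one, Neck3_A, map_add, J1_mono, J1_mono]
  constructor <;> simp [Neck3n, Neck3m, -ofReal_cos, -ofReal_sin]
  ring

lemma Neck3_iw (s : ℝ) : Uf (Eq0 s) = Eq0 s * cst (Dm (-(s / 2))) ∧
    Bm (Eq0 s) = cst (Dm (s / 2)) ∧ Bi (Eq0 s) = cst (Dm (-(s / 2))) := by
  have h := iw_gauge (Φ := 1) (g := 1) Matrix.det_one (Neck3_unit s) (Neck3_det s) MGE_one
    Matrix.det_one
  simp only [mul_one, Uf_one, Bm_one, Neck3_J0, Jet_adjC_Dm] at h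
  refine ⟨h.1, h.2, ?_⟩
  rw [← adj_Bm, h.2, adj_cst, Jet_adjC_Dm]

theorem Eq0_facts (s : ℝ) : (Eq0 s).det = 1 ∧ hz (vec (symM (Eq0 s))) + 1/2 = (1/2) * exp (s * I) ∧
    2 * I * conj ((cf 0 (Bm (Eq0 s)) * cf (-1) A10 * cf 0 (Bi (Eq0 s))) 0 1) =
      (1/2) * I * exp (s * I) := by
  obtain ⟨h1, h2, h3⟩ := Neck3_iw s
  obtain ⟨j1, j2⟩ := Neck3_J1 s
  have hc : ((Real.cos (s / 2) : ℝ) : ℂ) ^ 2 + ((Real.sin (s / 2) : ℝ) : ℂ) ^ 2 = 1 := by
    exact_mod_cast Real.cos_sq_add_sin_sq (s / 2)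
  have hI : I * I = -1 := I_mul_I
  have he : exp (s * I) = exp (((s / 2 : ℝ) : ℂ) * I) * exp (((s / 2 : ℝ) : ℂ) * I) := by
    rw [← Complex.exp_add]; congr 1; push_cast; ring
  have d00 : Dm (s / 2) 0 0 = exp (-(((s / 2 : ℝ) : ℂ) * I)) := rfl
  have d01 : Dm (s / 2) 0 1 = 0 := rfl
  have e01 : Dm (-(s / 2)) 0 1 = 0 := rfl
  have e11 : Dm (-(s / 2)) 1 1 = exp (-(((s / 2 : ℝ) : ℂ) * I)) := by
    change exp (((-(s / 2) : ℝ) : ℂ) * I) = _
    congr 1; push_cast; ring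
  refine ⟨Neck3_det s, ?_, ?_⟩
  · rw [vec, hz_mk3, symM, h1, J1_mul, J1_cst, J0_cst, mul_zero, add_zero, matApi2_mulC, j2, e01,
      e11, he, Neck3_exp, Neck3_exp']
    simp only [mul_zero, zero_add, map_mul, map_neg, map_sub, conj_ofReal, conj_I]
    linear_combination (-1/2 : ℂ) * hc + (1/2) * ((Real.sin (s / 2) : ℝ) : ℂ) ^ 2 * hI
  · rw [h2, h3, cf_cst, cf_cst, if_pos rfl, if_pos rfl, Neck3_cf, matApi2_mulC, matApi2_mulC,
      matApi2_mulC, d00, d01, e01, e11, he, Neck3_exp, Neck3_exp']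
    have n01 : Neck3n 0 1 = 1/4 := rfl
    rw [n01]
    simp only [mul_zero, zero_mul, zero_add, add_zero, map_mul, map_sub, conj_ofReal,
      conj_I, map_div₀, map_one, conj_ofNat]
    ring

/-- position and velocity of the boundary curve as functions of the frame and the potential -/
def Neck3f (p : MW × MW) : ℂ × ℂ :=
  (hz (vec (symM p.1)), 2 * I * conj ((cf 0 (Bm p.1) * cf (-1) p.2 * cf 0 (Bi p.1)) 0 1))

lemma Neck3_fst {Y : Type} [TopologicalSpace Y] {F : MW → Y} {p : MW × MW}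
    (h : ContinuousAt F p.1) : ContinuousAt (fun q : MW × MW => F q.1) p :=
  ContinuousAt.comp (f := fun q : MW × MW => q.1) h continuousAt_fst

lemma Neck3_c5 : Continuous fun M : MC => conj (M 0 1) :=
  Complex.continuous_conj.comp (entC 0 1).continuous

lemma Neck3_c4 {p : MW × MW} (h : p.1.det = 1) :
    ContinuousAt (fun q : MW × MW => cf 0 (Bm q.1) * cf (-1) q.2 * cf 0 (Bi q.1)) p := by
  have c2 : ContinuousAt (fun q : MW × MW => cf 0 (Bm q.1)) p :=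
    Neck3_fst (F := fun M => cf 0 (Bm M))
      (ContinuousAt.comp (f := Bm) (cf 0).continuous.continuousAt (contDiffAt_Bm h).continuousAt)
  have c3 : ContinuousAt (fun q : MW × MW => cf 0 (Bi q.1)) p :=
    Neck3_fst (F := fun M => cf 0 (Bi M))
      (ContinuousAt.comp (f := Bi) (cf 0).continuous.continuousAt (contDiffAt_Bi h).continuousAt)
  have c1 : Continuous (fun q : MW × MW => cf (-1) q.2) :=
    (cf (-1)).continuous.comp continuous_snd
  exact (c2.mul c1.continuousAt).mul c3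

lemma Neck3_cont {p : MW × MW} (h : p.1.det = 1) : ContinuousAt Neck3f p := by
  have c1 : ContinuousAt (fun q : MW × MW => hz (vec (symM q.1))) p := by
    simp only [vec, hz_mk3]
    exact Neck3_fst (F := fun M => conj (symM M 0 1))
      (ContinuousAt.comp (f := symM) Neck3_c5.continuousAt (contDiffAt_symM h).continuousAt)
  have c2 : ContinuousAt (fun q : MW × MW =>
      conj ((cf 0 (Bm q.1) * cf (-1) q.2 * cf 0 (Bi q.1)) 0 1)) p :=
    ContinuousAt.comp (f := fun q : MW × MW => cf 0 (Bm q.1) * cf (-1) q.2 * cf 0 (Bi q.1))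
      Neck3_c5.continuousAt (Neck3_c4 h)
  exact c1.prodMk (continuousAt_const.mul c2)

lemma Neck3_Eq0_cont : Continuous Eq0 :=
  continuous_Hol_const.comp (f := fun s : ℝ => ((s : ℂ) * I) • A10) (by fun_prop)

lemma Neck3_strip {g : Geo} (hg : AdmG g) {ζ : ℂ} (h : ζ.re = 0) : ζ ∈ Strip g := by
  obtain ⟨-, ⟨h1, h2⟩, -⟩ := hg
  change |ζ.re| < _
  rw [h, abs_zero]
  refine Real.log_pos ?_
  rw [lt_div_iff₀ (by positivity)]
  linarith

lemma Neck3_Th {η N : ℝ} {As : Fin 5 → MW} (hL : LimProp As) (S : Sol η N As) (θ : ℝ) :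
    ‖Th S.g S.d (ee S.g * exp (θ * I)) - A10‖ ≤ (2 * |N| + 1) * η := by
  have he : 0 < ee S.g := S.adm.2.1.1
  have hu : ‖(ee S.g : ℂ) * exp (θ * I)‖ = ee S.g := by
    rw [norm_mul, Complex.norm_exp_ofReal_mul_I, mul_one, Complex.norm_real,
      Real.norm_of_nonneg he.le]
  have h1 := est_Th S.g S.d (ee S.g * exp (θ * I))
  rw [hu, show ee S.g + ee S.g ^ 2 / ee S.g = 2 * ee S.g by field_simp; ring] at h1
  have h2 := S.close 1
  rw [hL.one] at h2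
  have h3 : ‖S.d‖ ≤ |N| := S.bd.trans (le_abs_self N)
  have h4 : 2 * ee S.g * ‖S.d‖ ≤ 2 * η * |N| := by
    have := S.e_le
    gcongr
    linarith
  calc _ ≤ ‖Th S.g S.d (ee S.g * exp (θ * I)) - AA S.d 1‖ + ‖AA S.d 1 - A10‖ :=
        norm_sub_le_norm_sub_add_norm_sub _ _ _
    _ ≤ _ := by linarith

lemma Neck3_frame {η N : ℝ} {As : Fin 5 → MW} (hL : LimProp As) (S : Sol η N As) {Ψ : ℂ → MW}
    (h : Neck S.g S.d Ψ) (hη : (2 * |N| + 1) * η ≤ 1) {s : ℝ} (hs : s ∈ Icc (0:ℝ) 1) :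
    ‖Ψ (((2 * Real.pi * S.k * s : ℝ) : ℂ) * I) - Eq0 (2 * Real.pi * s)‖ ≤
      Real.exp (2 * (2 * Real.pi * (‖A10‖ + 1))) * (2 * Real.pi * ((2 * |N| + 1) * η)) := by
  set θ : ℝ := 2 * Real.pi * S.k * s with hθ
  have hk : (0:ℝ) < S.k := by have := S.hk; positivity
  have hkt : θ * tt S.g = 2 * Real.pi * s := by rw [hθ, S.ht]; field_simp
  have hγ : ∀ r : ℝ, HasDerivAt (fun r : ℝ => (r : ℂ) * (θ * I)) (θ * I) r := fun r => by
    simpa using (Complex.ofRealCLM.hasDerivAt (x := r)).mul_const ((θ : ℂ) * I)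
  have hO : ∀ r : ℝ, (r : ℂ) * (θ * I) ∈ Strip S.g := fun r => Neck3_strip S.adm (by simp)
  have ha : ContinuousOn (fun r : ℝ => ((θ : ℂ) * I) • xiN S.g S.d (r * (θ * I))) (Icc 0 1) :=
    (h.fr.hol.continuousOn.comp (f := fun r : ℝ => (r : ℂ) * (θ * I)) (s := Icc 0 1)
      (by fun_prop) fun r _ => hO r).const_smul ((θ : ℂ) * I)
  have hp := frame_path h.fr.ode (right_mem_Icc.2 zero_le_one) hγ (fun r _ => hO r) ha
    (fun _ _ => rfl) 1 (right_mem_Icc.2 zero_le_one)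
  simp only [ofReal_one, one_mul, ofReal_zero, zero_mul, h.zero] at hp
  have e : ∀ r : ℝ, ((θ : ℂ) * I) • xiN S.g S.d (r * (θ * I)) =
      (((2 * Real.pi * s : ℝ) : ℂ) * I) • Th S.g S.d (ee S.g * exp ((r * θ : ℝ) * I)) := fun r => by
    rw [xiN, smul_smul, ← hkt]
    congr 1
    · push_cast; ring
    · congr 3; push_cast; ring
  have hn : ‖((2 * Real.pi * s : ℝ) : ℂ) * I‖ ≤ 2 * Real.pi := by
    rw [norm_mul, norm_I, mul_one, Complex.norm_real,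
      Real.norm_of_nonneg (by have := hs.1; positivity)]
    have := hs.2
    nlinarith [Real.pi_pos]
  have hd : ∀ r : ℝ, ‖((θ : ℂ) * I) • xiN S.g S.d (r * (θ * I)) -
      (((2 * Real.pi * s : ℝ) : ℂ) * I) • A10‖ ≤ 2 * Real.pi * ((2 * |N| + 1) * η) := fun r => by
    rw [e, ← smul_sub, norm_smul]
    exact mul_le_mul hn (Neck3_Th hL S _) (norm_nonneg _) (by positivity)
  have hK : ∀ r ∈ Icc (0:ℝ) 1, ‖((θ : ℂ) * I) • xiN S.g S.d (r * (θ * I))‖ ≤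
      2 * Real.pi * (‖A10‖ + 1) := fun r _ => by
    rw [e, norm_smul]
    refine mul_le_mul hn ?_ (norm_nonneg _) (by positivity)
    have h1 := (Neck3_Th hL S (r * θ)).trans hη
    have h2 := norm_le_insert' (Th S.g S.d (ee S.g * exp ((r * θ : ℝ) * I))) A10
    linarith
  have hK' : ∀ r ∈ Icc (0:ℝ) 1, ‖(((2 * Real.pi * s : ℝ) : ℂ) * I) • A10‖ ≤
      2 * Real.pi * (‖A10‖ + 1) := fun r _ => by
    rw [norm_smul]
    exact mul_le_mul hn (by linarith) (norm_nonneg _) (by positivity)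
  have hb := norm_Hol_sub_le ha continuousOn_const hK hK' 1 (right_mem_Icc.2 zero_le_one)
  rw [hp, Eq0]
  refine hb.trans ?_
  gcongr
  have := intervalIntegral.norm_integral_le_of_norm_le_const (a := 0) (b := 1)
    (f := fun r : ℝ => ‖((θ : ℂ) * I) • xiN S.g S.d (r * (θ * I)) -
      (((2 * Real.pi * s : ℝ) : ℂ) * I) • A10‖) (C := 2 * Real.pi * ((2 * |N| + 1) * η))
    (fun r _ => by rw [norm_norm]; exact hd r)
  rw [sub_zero, abs_one, mul_one] at this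
  exact (le_abs_self _).trans this

theorem neck_close {As : Fin 5 → MW} (hL : LimProp As) (N : ℝ) : ∃ η₀ > 0,
    ∀ (η : ℝ) (S : Sol η N As) (Ψ : ℂ → MW), η ≤ η₀ → Neck S.g S.d Ψ → ∀ s ∈ Icc (0:ℝ) 1,
      ‖Gam S.k S.x Ψ s - (1/2) * exp (2 * Real.pi * I * s)‖ ≤ 1/20 ∧
      ‖deriv (Gam S.k S.x Ψ) s - Real.pi * I * exp (2 * Real.pi * I * s)‖ ≤ 1/5 := by
  have hK : IsCompact ((fun s : ℝ => (Eq0 (2 * Real.pi * s), A10)) '' Icc 0 1) :=
    isCompact_Icc.image ((Neck3_Eq0_cont.comp (by fun_prop)).prodMk continuous_const)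
  obtain ⟨δ, hδ, hf⟩ := unif_near hK (f := Neck3f)
    (by rintro _ ⟨s, -, rfl⟩; exact Neck3_cont (Neck3_det _)) (η := 1/40) (by norm_num)
  set C : ℝ := Real.exp (2 * (2 * Real.pi * (‖A10‖ + 1))) * (2 * Real.pi) with hC
  have hC0 : 0 < C := by positivity
  have hN : 0 < 2 * |N| + 1 := by positivity
  refine ⟨min (1/40) (min 1 (δ / (C + 1)) / (2 * |N| + 1)), by positivity, ?_⟩
  intro η S Ψ hη h s hs
  have h40 : η ≤ 1/40 := hη.trans (min_le_left _ _)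
  have h2 : (2 * |N| + 1) * η ≤ min 1 (δ / (C + 1)) := by
    have := hη.trans (min_le_right _ _)
    rwa [le_div_iff₀ hN, mul_comm] at this
  have h3 : (2 * |N| + 1) * η ≤ 1 := h2.trans (min_le_left _ _)
  have h4 : (2 * |N| + 1) * η * (C + 1) ≤ δ := (le_div_iff₀ (by positivity)).1
    (h2.trans (min_le_right _ _))
  have hη0 : 0 ≤ η := (norm_nonneg _).trans (S.close 0)
  have h5 : 0 ≤ (2 * |N| + 1) * η := by positivity
  set θ : ℝ := 2 * Real.pi * S.k * s with hθ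
  have f1 := Neck3_frame hL S h h3 hs
  have f2 := Neck3_Th hL S θ
  have hd : dist (Ψ (θ * I), Th S.g S.d (ee S.g * exp (θ * I))) (Eq0 (2 * Real.pi * s), A10) ≤ δ := by
    rw [Prod.dist_eq, dist_eq_norm, dist_eq_norm]
    refine max_le (f1.trans ?_) (f2.trans ?_)
    · rw [← mul_assoc, ← hC]; nlinarith
    · nlinarith
  have hv := hf _ ⟨s, hs, rfl⟩ _ hd
  rw [Prod.dist_eq, max_le_iff, dist_eq_norm, dist_eq_norm] at hv
  obtain ⟨v1, v2⟩ := hv
  obtain ⟨-, q1, q2⟩ := Eq0_facts (2 * Real.pi * s)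
  have ee1 : ((2 * Real.pi * s : ℝ) : ℂ) * I = 2 * Real.pi * I * s := by push_cast; ring
  rw [ee1] at q1 q2
  simp only [Neck3f] at v1 v2
  constructor
  · have e : Gam S.k S.x Ψ s = hz (vec (symM (Ψ (θ * I)))) - S.x := by
      rw [Gam, pt]
      apply Complex.ext <;> simp [hz, mk3, hθ]
    have e2 : Gam S.k S.x Ψ s - (1/2) * exp (2 * Real.pi * I * s) =
        (hz (vec (symM (Ψ (θ * I)))) - hz (vec (symM (Eq0 (2 * Real.pi * s))))) -
          ((S.x + 1/2 : ℝ) : ℂ) := by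
      rw [e, ← q1]; push_cast; ring
    rw [e2]
    refine (norm_sub_le _ _).trans ?_
    rw [Complex.norm_real, Real.norm_eq_abs]
    linarith [S.x_close]
  · have hk : (S.k : ℂ) ≠ 0 := by
      have := S.hk
      exact_mod_cast (by omega : S.k ≠ 0)
    have ht : (tt S.g : ℂ) = 1 / S.k := by rw [S.ht]; push_cast; ring
    have e : deriv (Gam S.k S.x Ψ) s = (2 * Real.pi : ℂ) * (2 * I * conj ((cf 0 (Bm (Ψ (θ * I))) *
        cf (-1) (Th S.g S.d (ee S.g * exp (θ * I))) * cf 0 (Bi (Ψ (θ * I)))) 0 1)) := by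
      rw [h.deriv_Gam S.adm, aM, xiN, map_smul, mul_smul_comm, smul_mul_assoc, Matrix.smul_apply,
        smul_eq_mul, map_mul, conj_ofReal, ht, ← hθ]
      field_simp
    have e2 : (Real.pi : ℂ) * I * exp (2 * Real.pi * I * s) =
        (2 * Real.pi : ℂ) * ((1/2) * I * exp (2 * Real.pi * I * s)) := by ring
    rw [e, e2, ← q2, ← mul_sub, norm_mul]
    have hn : ‖(2 * Real.pi : ℂ)‖ ≤ 8 := by
      rw [norm_mul, Complex.norm_real, Real.norm_of_nonneg Real.pi_pos.le, Complex.norm_ofNat]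
      linarith [Real.pi_le_four]
    calc _ ≤ 8 * (1/40) := mul_le_mul hn v2 (norm_nonneg _) (by norm_num)
      _ = 1/5 := by norm_num

end Pool.Agent.MP_efb2da_gt

end
end
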