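import Pool.Agent.Mg.Fefb2da.G1ff811

section

open scoped Manifold ContDiff ComplexConjugate Topology
open Set Complex

noncomputable section

namespace Pool.Agent.MP_efb2da_gt

lemma SurfReg_norm {k : ℕ} (hk : k ≠ 0) {o : ℂ} (ho : o ^ k = 1) : ‖o‖ = 1 := by
  have h : ‖o‖ ^ k = 1 := by rw [← norm_pow, ho, norm_one]
  exact (pow_eq_one_iff_of_nonneg (norm_nonneg o) hk).1 h

namespace SurfData
variable (D : SurfData)

lemma SurfReg_k : D.k ≠ 0 := by have := D.hk; omega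

lemma SurfReg_et_ne {z : ℂ} (h : ∀ j, z ≠ D.p j) : D.et z ≠ 0 :=
  mul_ne_zero (ofReal_ne_zero.2 (D.md_pos h).ne') (exp_ne_zero _)

/-- the open part of the base region -/
def SurfReg_U : Set ℂ :=
  {z | √D.q / 2 < ‖z‖ ∧ ‖z‖ < 2 / √D.q ∧ D.ε < ‖z - 1‖ ∧ ∀ j, z ≠ D.p j}

lemma SurfReg_open : IsOpen D.SurfReg_U := by
  have h1 : IsOpen {z : ℂ | √D.q / 2 < ‖z‖} := isOpen_lt continuous_const continuous_norm
  have h2 : IsOpen {z : ℂ | ‖z‖ < 2 / √D.q} := isOpen_lt continuous_norm continuous_const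
  have h3 : IsOpen {z : ℂ | D.ε < ‖z - 1‖} := isOpen_lt continuous_const (by fun_prop)
  have h4 : IsOpen {z : ℂ | ∀ j, z ≠ D.p j} := by
    have : {z : ℂ | ∀ j, z ≠ D.p j} = ⋂ j, {z : ℂ | z ≠ D.p j} := by ext z; simp
    rw [this]
    exact isOpen_iInter_of_finite fun j => isOpen_ne
  exact h1.inter (h2.inter (h3.inter h4))

lemma SurfReg_base {z : ℂ} (h : z ∈ D.SurfReg_U) : z ∈ D.Base := ⟨h.1, h.2.1, h.2.2.1.le⟩

lemma SurfReg_rg {z : ℂ} (h : z ∈ D.SurfReg_U) : z ∈ Rg D.ε D.q D.p :=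
  ⟨h.1, h.2.1, by have := h.2.2.1; have := D.ε0; linarith, h.2.2.2⟩

lemma SurfReg_conj {z : ℂ} (h : z ∈ D.SurfReg_U) : conj z ∈ D.SurfReg_U := by
  refine ⟨by rw [norm_conj]; exact h.1, by rw [norm_conj]; exact h.2.1, ?_, fun j hj => ?_⟩
  · have : conj z - 1 = conj (z - 1) := by simp
    rw [this, norm_conj]; exact h.2.2.1
  · apply h.2.2.2 j
    have := congrArg conj hj
    simpa using this

lemma SurfReg_an {z : ℂ} (h : z ∈ D.SurfReg_U) : z ≠ 0 ∧ z ≠ 1 ∧ ∀ j, z ≠ D.p j := by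
  refine ⟨fun h0 => ?_, fun h0 => ?_, h.2.2.2⟩
  · have h1 := h.1
    rw [h0, norm_zero] at h1
    have := Real.sqrt_nonneg D.q
    linarith
  · have h1 := h.2.2.1
    rw [h0, sub_self, norm_zero] at h1
    exact absurd D.ε0 (not_lt.2 h1.le)

lemma SurfReg_F_up {z o : ℂ} (h : ∀ j, z ≠ D.p j) (hz : 0 ≤ z.im) :
    D.F (z, o * D.et z) = Rot o (D.f z) := by
  have h1 : ¬ ∃ j, z = D.p j := fun ⟨j, hj⟩ => h j hj
  simp only [F, dif_neg h1, if_pos hz, mul_div_cancel_right₀ _ (D.SurfReg_et_ne h)]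

lemma SurfReg_F_down {z o : ℂ} (h : ∀ j, z ≠ D.p j) (hz : ¬ 0 ≤ z.im) :
    D.F (z, o * D.et z) = Rot o (Refl (D.f (conj z))) := by
  have h1 : ¬ ∃ j, z = D.p j := fun ⟨j, hj⟩ => h j hj
  simp only [F, dif_neg h1, if_neg hz, mul_div_cancel_right₀ _ (D.SurfReg_et_ne h)]

/-- a continuous local branch of the cover gives a chart -/
lemma SurfReg_core (x : D.Et) (hb : x ∉ D.bdE) {V : Set ℂ} (hV : IsOpen V) (h0 : x.1.1 ∈ V)
    (hVU : V ⊆ D.SurfReg_U) {g : ℂ → ℂ} (hg : ContinuousOn g V)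
    (hu : ∀ z ∈ V, ∃ u : ℂ, u ^ D.k = 1 ∧ g z = u * D.et z) (hx : g x.1.1 = x.1.2)
    {X : ℂ → E3} (hX : ∀ w ∈ V, CMCAt X w) (hF : ∀ w ∈ V, D.F (w, g w) = X w) :
    LocChart D.FE D.bdE x := by
  classical
  have hmem : ∀ z ∈ V, (z, g z) ∈ D.Et := fun z hz => ⟨D.SurfReg_base (hVU hz), hu z hz⟩
  let ψ : ℂ → D.Et := fun z => if h : (z, g z) ∈ D.Et then ⟨(z, g z), h⟩ else x
  have hψ : ∀ z ∈ V, (ψ z).1 = (z, g z) := fun z hz => by simp only [ψ, dif_pos (hmem z hz)]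
  have hg0 : ∀ z ∈ V, g z ≠ 0 := fun z hz => by
    obtain ⟨u, h1, h2⟩ := hu z hz
    rw [h2]
    refine mul_ne_zero (fun h3 => ?_) (D.SurfReg_et_ne (hVU hz).2.2.2)
    rw [h3, zero_pow D.SurfReg_k] at h1
    exact zero_ne_one h1
  refine ⟨V, x.1.1, univ, ψ, X, hV, h0, Subtype.ext (by rw [hψ _ h0, hx]), Or.inl ⟨rfl, hb⟩,
    ?_, ?_, ?_, hX, ?_⟩
  · rw [inter_univ, Topology.IsInducing.subtypeVal.continuousOn_iff]
    exact (continuousOn_id.prodMk hg).congr fun z hz => hψ z hz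
  · rw [inter_univ]
    intro z hz w hw h
    have := congrArg (fun y : D.Et => y.1.1) h
    simpa only [hψ z hz, hψ w hw] using this
  · intro V' hV' hsub
    obtain ⟨δ, hδ, hsep⟩ := exists_root_sep D.SurfReg_k
    have hc1 : Continuous fun y : D.Et => y.1.1 := by fun_prop
    have hc2 : Continuous fun y : D.Et => y.1.2 := by fun_prop
    have hcont : ContinuousOn (fun y : D.Et => y.1.2 / g y.1.1) ((fun y : D.Et => y.1.1) ⁻¹' V') :=
      hc2.continuousOn.div (hg.comp hc1.continuousOn fun y hy => hsub hy)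
        fun y hy => hg0 _ (hsub hy)
    have hop := hcont.isOpen_inter_preimage (hV'.preimage hc1) (Metric.isOpen_ball (x := 1) (ε := δ))
    convert hop using 1
    ext y
    simp only [inter_univ, mem_image, mem_inter_iff, mem_preimage, Metric.mem_ball, dist_eq_norm]
    constructor
    · rintro ⟨z, hz, rfl⟩
      rw [hψ z (hsub hz)]
      refine ⟨hz, ?_⟩
      simp only [div_self (hg0 z (hsub hz)), sub_self, norm_zero, hδ]
    · rintro ⟨h1, h2⟩
      refine ⟨y.1.1, h1, Subtype.ext ?_⟩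
      rw [hψ _ (hsub h1)]
      obtain ⟨u, hu1, hu2⟩ := hu _ (hsub h1)
      obtain ⟨-, o, ho1, ho2⟩ := y.2
      have he := D.SurfReg_et_ne (hVU (hsub h1)).2.2.2
      have h3 : (y.1.2 / g y.1.1) ^ D.k = 1 := by
        rw [hu2, ho2, mul_div_mul_right _ _ he, div_pow, ho1, hu1, div_one]
      have h4 := hsep _ h3 h2
      rw [div_eq_one_iff_eq (hg0 _ (hsub h1))] at h4
      exact Prod.ext rfl h4.symm
  · intro w hw
    rw [FE, hψ w hw.1]
    exact hF w hw.1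

theorem locChart_reg (x : D.Et) (h1 : ∀ j, x.1.1 ≠ D.p j) (h2 : ‖x.1.1 - 1‖ ≠ D.ε) :
    LocChart D.FE D.bdE x := by
  classical
  obtain ⟨hB, o, ho, hx⟩ := x.2
  have hU : x.1.1 ∈ D.SurfReg_U := ⟨hB.1, hB.2.1, lt_of_le_of_ne hB.2.2 h2.symm, h1⟩
  have hn := SurfReg_norm D.SurfReg_k ho
  rcases lt_trichotomy 0 x.1.1.im with him | him | him
  · refine D.SurfReg_core x h2 (V := D.SurfReg_U ∩ {z | 0 < z.im})
      (D.SurfReg_open.inter (isOpen_lt continuous_const continuous_im)) ⟨hU, him⟩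
      inter_subset_left (g := fun z => o * D.et z)
      (continuousOn_const.mul (D.continuousOn_et_up.mono fun z hz =>
        ⟨D.SurfReg_base hz.1, le_of_lt (a := 0) (b := z.im) hz.2⟩))
      (fun z _ => ⟨o, ho, rfl⟩) hx.symm (X := fun w => Rot o (D.f w))
      (fun w hw => (D.cmc w (D.SurfReg_rg hw.1) (le_of_lt hw.2)).self_of_nhds.rot hn)
      fun w hw => D.SurfReg_F_up hw.1.2.2.2 (le_of_lt hw.2)
  · obtain ⟨t, ht⟩ : ∃ t : ℝ, x.1.1 = t := ⟨x.1.1.re, Complex.ext rfl (by simp [← him])⟩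
    have hreal : ∀ s : ℝ, (s : ℂ) ∈ D.SurfReg_U → D.an s = Real.pi * lab D.p s := by
      intro s hs
      obtain ⟨a1, a2, a3⟩ := D.SurfReg_an hs
      exact D.an_real (by exact_mod_cast a1) (by exact_mod_cast a2) fun j => by
        exact_mod_cast a3 j
    have hUt : (t : ℂ) ∈ D.SurfReg_U := ht ▸ hU
    have e1 := D.cmc t (D.SurfReg_rg hUt) (by simp)
    have e2 := D.refl t (D.SurfReg_rg hUt)
    have e3 : ∀ᶠ z in 𝓝 (t : ℂ), z ∈ D.SurfReg_U := D.SurfReg_open.mem_nhds hUt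
    have e4 : ∀ᶠ z in 𝓝 (t : ℂ), dist (D.an z) (D.an t) < Real.pi := by
      have hc : ContinuousAt D.an t := (D.continuousOn_an.mono fun z hz =>
        D.SurfReg_an hz).continuousAt e3
      exact Metric.tendsto_nhds.1 hc _ Real.pi_pos
    obtain ⟨V, hV, hVo, htV⟩ := mem_nhds_iff.1 (e1.and (e2.and (e3.and e4)))
    set l := lab D.p t with hl
    have hlab : ∀ s : ℝ, (s : ℂ) ∈ V → D.an s = Real.pi * l := by
      intro s hs
      obtain ⟨-, -, b3, b4⟩ := hV hs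
      rw [hreal s b3, hreal t hUt, Real.dist_eq, ← mul_sub, abs_mul, abs_of_pos Real.pi_pos] at b4
      have b5 : |(lab D.p s : ℝ) - l| < 1 := by
        by_contra hc
        have := mul_le_mul_of_nonneg_left (not_lt.1 hc) Real.pi_pos.le
        linarith
      have b6 : |(lab D.p s : ℤ) - l| < 1 := by exact_mod_cast b5
      have b7 : lab D.p s = l := by
        rw [abs_lt] at b6; omega
      rw [hreal s b3, b7]
    have hVU : V ⊆ D.SurfReg_U := fun z hz => (hV hz).2.2.1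
    have hcont : ContinuousOn (fun z : ℂ => if 0 ≤ z.im then D.et z
        else rt D.k ^ l * conj (D.et (conj z))) V := by
      refine ContinuousOn.if (fun z hz => ?_) ?_ ?_
      · rw [frontier_setOfPred_le_im] at hz
        obtain ⟨s, rfl⟩ : ∃ s : ℝ, z = s := ⟨z.re, Complex.ext rfl (by simpa using hz.2)⟩
        have hs : sgn s = 1 := by simp [sgn]
        rw [conj_ofReal, et, hs, hlab s hz.1, map_mul, conj_ofReal, ← exp_conj, rt,
          ← exp_nat_mul, mul_left_comm (exp _), ← exp_add]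
        congr 2
        simp only [map_mul, conj_I, conj_ofReal]
        push_cast
        ring
      · rw [(isClosed_le continuous_const continuous_im).closure_eq]
        exact D.continuousOn_et_up.mono fun z hz => ⟨D.SurfReg_base (hVU hz.1), hz.2⟩
      · simp only [not_le]
        rw [closure_setOfPred_im_lt]
        exact continuousOn_const.mul (D.continuousOn_et_down.mono fun z hz =>
          ⟨D.SurfReg_base (hVU hz.1), hz.2⟩)
    refine D.SurfReg_core x h2 hVo (ht ▸ htV) hVU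
      (g := fun z => o * if 0 ≤ z.im then D.et z else rt D.k ^ l * conj (D.et (conj z)))
      (continuousOn_const.mul hcont) (fun z _ => ?_) ?_ (X := fun w => Rot o (D.f w))
      (fun w hw => (hV hw).1.rot hn) fun w hw => ?_
    · by_cases hz : 0 ≤ z.im
      · exact ⟨o, ho, by simp only [if_pos hz]⟩
      · refine ⟨o * rt D.k ^ l, ?_, ?_⟩
        · rw [mul_pow, ho, ← pow_mul, mul_comm l, pow_mul, rt_pow D.SurfReg_k, one_pow, one_mul]
        · simp only [if_neg hz]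
          rw [← D.et_down (not_le.1 hz), mul_assoc]
    · simp only [if_pos him.le]
      exact hx.symm
    · by_cases hz : 0 ≤ w.im
      · simp only [if_pos hz]
        exact D.SurfReg_F_up (hVU hw).2.2.2 hz
      · simp only [if_neg hz]
        rw [← D.et_down (not_le.1 hz), ← mul_assoc, D.SurfReg_F_down (hVU hw).2.2.2 hz, Rot_mul,
          ← (hV hw).2.1]
  · refine D.SurfReg_core x h2 (V := D.SurfReg_U ∩ {z | z.im < 0})
      (D.SurfReg_open.inter (isOpen_lt continuous_im continuous_const)) ⟨hU, him⟩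
      inter_subset_left (g := fun z => o * D.et z)
      (continuousOn_const.mul ((D.continuousOn_et_down.mono fun z hz =>
        ⟨D.SurfReg_base hz.1, le_of_lt (a := z.im) (b := 0) hz.2⟩).congr fun z hz => D.et_down hz.2))
      (fun z _ => ⟨o, ho, rfl⟩) hx.symm (X := fun w => Rot o (Refl (D.f (conj w))))
      (fun w hw => (CMCAt.refl_conj (D.cmc _ (D.SurfReg_rg (D.SurfReg_conj hw.1)) (by
        have : w.im < 0 := hw.2
        rw [conj_im]; linarith)).self_of_nhds).rot hn)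
      fun w hw => D.SurfReg_F_down hw.1.2.2.2 (not_le.2 hw.2)

end SurfData

end Pool.Agent.MP_efb2da_gt

end
end

section

open scoped Manifold ContDiff ComplexConjugate Topology
open Set Complex

noncomputable section

namespace Pool.Agent.MP_efb2da_gt

/-- identity or conjugation, according to the orientation of the puncture -/
def coneCw (j : Fin 3) (w : ℂ) : ℂ := if sg j = 1 then w else conj w

lemma coneCw_cw (j : Fin 3) (w : ℂ) : coneCw j (coneCw j w) = w := by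
  unfold coneCw; split_ifs <;> simp

lemma coneCw_pow (j : Fin 3) (w : ℂ) (n : ℕ) : coneCw j (w ^ n) = coneCw j w ^ n := by
  unfold coneCw; split_ifs <;> simp

lemma coneCw_zero (j : Fin 3) : coneCw j 0 = 0 := by
  unfold coneCw; split_ifs <;> simp

lemma cone_continuous_cw (j : Fin 3) : Continuous (coneCw j) := by
  unfold coneCw; split_ifs
  · exact continuous_id
  · exact continuous_conj

lemma coneCw_exp (j : Fin 3) (a b : ℝ) :
    coneCw j (exp (a + b * I)) = Real.exp a * exp (I * (sg j * b : ℝ)) := by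
  unfold coneCw
  split_ifs with h
  · rw [h, exp_add, ofReal_exp]; congr 2; push_cast; ring
  · have h' : sg j = -1 := by
      fin_cases j <;> simp_all [sg]
    rw [h', ← exp_conj, ofReal_exp, ← exp_add]; congr 1
    simp; ring

namespace SurfData
variable (D : SurfData)

lemma cone_k_ne : D.k ≠ 0 := by have := D.hk; omega

lemma cone_sep {i j : Fin 3} (h : i ≠ j) : 1/16 ≤ |D.p i - D.p j| := by
  obtain ⟨⟨a1, a2⟩, ⟨b1, b2⟩, ⟨c1, c2⟩⟩ := D.adm
  rw [le_abs]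
  fin_cases i <;> fin_cases j <;> simp at h ⊢ <;>
    first | (left; linarith) | (right; linarith)

lemma cone_p_inj {i j : Fin 3} (h : (D.p i : ℂ) = D.p j) : i = j := by
  by_contra hne
  have h1 := D.cone_sep hne
  have h2 : D.p i = D.p j := by exact_mod_cast h
  rw [h2] at h1; norm_num at h1

lemma cone_bounds (j : Fin 3) : 1/4 ≤ |D.p j| ∧ |D.p j| ≤ 11/10 ∧ 1/3 ≤ |D.p j - 1| := by
  obtain ⟨⟨a1, a2⟩, ⟨b1, b2⟩, ⟨c1, c2⟩⟩ := D.adm
  rw [le_abs, le_abs, abs_le]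
  fin_cases j <;> simp <;> refine ⟨?_, ⟨?_, ?_⟩, ?_⟩ <;>
    first | linarith | (left; linarith) | (right; linarith)

lemma cone_base (j : Fin 3) {z : ℂ} (h : ‖z - D.p j‖ < 1/16) :
    z ∈ D.Base ∧ D.ε < ‖z - 1‖ := by
  obtain ⟨h1, h2, h3⟩ := D.cone_bounds j
  have hq : √D.q ≤ 1/64 := by
    rw [Real.sqrt_le_iff]; refine ⟨by norm_num, ?_⟩; have := D.q1; norm_num; linarith
  have hq0 : 0 < √D.q := Real.sqrt_pos.2 D.q0
  have n1 : ‖(D.p j : ℂ)‖ = |D.p j| := by simp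
  have n2 : ‖(D.p j : ℂ) - 1‖ = |D.p j - 1| := by
    rw [← Real.norm_eq_abs, ← norm_real]; simp
  have t1 : ‖(D.p j : ℂ)‖ ≤ ‖z‖ + ‖z - D.p j‖ := by
    have := norm_sub_le z (z - D.p j); simpa using this
  have t2 : ‖z‖ ≤ ‖z - D.p j‖ + ‖(D.p j : ℂ)‖ := by
    have := norm_add_le (z - D.p j) (D.p j : ℂ); simpa using this
  have t3 : ‖(D.p j : ℂ) - 1‖ ≤ ‖z - 1‖ + ‖z - D.p j‖ := by
    have := norm_sub_le (z - 1) (z - D.p j)
    rwa [show z - 1 - (z - D.p j) = (D.p j : ℂ) - 1 by ring] at this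
  have e1 := D.ε1
  have hε : D.ε < ‖z - 1‖ := by linarith
  refine ⟨⟨by linarith, ?_, hε.le⟩, hε⟩
  rw [lt_div_iff₀ hq0]
  have : ‖z‖ ≤ 2 := by linarith
  nlinarith [norm_nonneg z]

open Classical in
/-- the phase correction, extended by zero at the puncture -/
def conePh (j : Fin 3) (z : ℂ) : ℝ :=
  if z = D.p j then 0 else sgn z * D.bb (D.p j) (lr j) (sg j) z

/-- the nonvanishing factor of the fibre coordinate -/
def coneU (j : Fin 3) (z : ℂ) : ℂ :=
  ((16:ℝ) ^ (1 / (D.k : ℝ)) : ℝ) * exp (I * (Real.pi * lr j / D.k : ℝ)) *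
    exp (I * (D.conePh j z / D.k : ℝ))

lemma coneU_ne (j : Fin 3) (z : ℂ) : D.coneU j z ≠ 0 := by
  unfold coneU
  refine mul_ne_zero (mul_ne_zero ?_ (exp_ne_zero _)) (exp_ne_zero _)
  exact ofReal_ne_zero.2 (Real.rpow_pos_of_pos (by norm_num) _).ne'

lemma cone_isOpen_disc (j : Fin 3) : IsOpen {z : ℂ | ‖z - D.p j‖ < 1/16} :=
  isOpen_lt (by fun_prop) continuous_const

lemma cone_continuousOn_ph (j : Fin 3) :
    ContinuousOn (D.conePh j) {z | ‖z - D.p j‖ < 1/16} := by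
  obtain ⟨h1, h2⟩ := D.continuousOn_phase_cap j
  intro z hz
  by_cases hzp : z = D.p j
  · subst hzp
    apply ContinuousAt.continuousWithinAt
    rw [← continuousWithinAt_compl_self]
    have h0 : D.conePh j (D.p j) = 0 := by simp [conePh]
    unfold ContinuousWithinAt
    rw [h0]
    refine h2.congr' ?_
    filter_upwards [self_mem_nhdsWithin] with w hw
    have hw' : w ≠ D.p j := hw
    simp [conePh, hw']
  · apply ContinuousAt.continuousWithinAt
    have ho : IsOpen {z : ℂ | ‖z - D.p j‖ < 1/16 ∧ z ≠ D.p j} :=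
      (D.cone_isOpen_disc j).inter isOpen_ne
    have hm := ho.mem_nhds (show z ∈ _ from ⟨hz, hzp⟩)
    refine (h1.continuousAt hm).congr ?_
    filter_upwards [hm] with w hw
    simp [conePh, hw.2]

lemma cone_continuousOn_U (j : Fin 3) :
    ContinuousOn (D.coneU j) {z | ‖z - D.p j‖ < 1/16} := by
  have h := D.cone_continuousOn_ph j
  unfold coneU
  refine continuousOn_const.mul (continuous_exp.comp_continuousOn ?_)
  exact continuousOn_const.mul (continuous_ofReal.comp_continuousOn (h.div_const _))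

/-- the chart at the branch point, with values in `ℂ × ℂ` -/
def coneG (j : Fin 3) (w : ℂ) : ℂ × ℂ :=
  (D.p j + w ^ D.k, D.coneU j (D.p j + w ^ D.k) * coneCw j w)

/-- the inverse of the chart -/
def coneInv (j : Fin 3) (y : ℂ × ℂ) : ℂ := coneCw j (y.2 / D.coneU j y.1)

lemma coneInv_G (j : Fin 3) (w : ℂ) : D.coneInv j (D.coneG j w) = w := by
  simp only [coneInv, coneG]
  rw [mul_div_cancel_left₀ _ (D.coneU_ne j _), coneCw_cw]

lemma cone_norm_exp (ζ : ℂ) : ‖exp (ζ / D.k)‖ ^ D.k = Real.exp ζ.re := by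
  have hk : (D.k : ℂ) ≠ 0 := by exact_mod_cast D.cone_k_ne
  rw [← norm_pow, ← exp_nat_mul, mul_div_cancel₀ _ hk, norm_exp]

lemma coneG_exp (j : Fin 3) {ζ : ℂ} (h : Real.exp ζ.re < 1/16) :
    D.coneG j (exp (ζ / D.k)) =
      (D.p j + ((1:ℝ):ℂ) * exp ζ, D.eta (D.p j) (lr j) (sg j) 1 ζ) := by
  have hk : (D.k : ℂ) ≠ 0 := by exact_mod_cast D.cone_k_ne
  have hkr : (D.k : ℝ) ≠ 0 := by exact_mod_cast D.cone_k_ne
  have e1 : exp (ζ / D.k) ^ D.k = ((1:ℝ):ℂ) * exp ζ := by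
    rw [← exp_nat_mul, mul_div_cancel₀ _ hk]; simp
  unfold coneG
  rw [e1]
  congr 1
  have hne : (D.p j + ((1:ℝ):ℂ) * exp ζ : ℂ) ≠ D.p j := by simp
  have hn : ‖(D.p j + ((1:ℝ):ℂ) * exp ζ : ℂ) - D.p j‖ = Real.exp ζ.re := by
    simp [norm_exp]
  have e2 : ζ / D.k = ((ζ.re / D.k : ℝ) : ℂ) + ((ζ.im / D.k : ℝ) : ℂ) * I := by
    conv_lhs => rw [← re_add_im ζ]
    push_cast; ring
  unfold eta coneU conePh
  rw [D.md_near j (by rw [hn]; exact h), hn, if_neg hne, e2, coneCw_exp,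
    Real.mul_rpow (by norm_num) (Real.exp_pos _).le, ← Real.exp_mul]
  have e3 : exp (I * ((Real.pi * lr j + sg j * ζ.im) / D.k : ℝ)) =
      exp (I * (Real.pi * lr j / D.k : ℝ)) * exp (I * (sg j * (ζ.im / D.k) : ℝ)) := by
    rw [← exp_add]; congr 1; push_cast; ring
  rw [e3, show ζ.re * (1 / (D.k : ℝ)) = ζ.re / D.k by ring,
    ofReal_mul ((16:ℝ) ^ (1 / (D.k : ℝ)))]
  ring

lemma coneG_spec (j : Fin 3) {w : ℂ} (hw : ‖w‖ ^ D.k < 1/16) :
    D.coneG j w ∈ D.Et ∧ D.F (D.coneG j w) = D.X j w := by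
  have hk : (D.k : ℂ) ≠ 0 := by exact_mod_cast D.cone_k_ne
  have hb : (D.coneG j w).1 ∈ D.Base := by
    refine (D.cone_base j ?_).1
    simpa [coneG] using hw
  by_cases h0 : w = 0
  · subst h0
    have e : D.coneG j 0 = ((D.p j : ℂ), 0) := by
      simp [coneG, D.cone_k_ne, coneCw_zero]
    rw [e] at hb ⊢
    refine ⟨⟨hb, 1, one_pow _, ?_⟩, ?_⟩
    · simp [et, D.md_p]
    · have hex : ∃ i, (((D.p j : ℂ), (0:ℂ)) : ℂ × ℂ).1 = D.p i := ⟨j, rfl⟩
      unfold F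
      rw [dif_pos hex]
      have : j = hex.choose := D.cone_p_inj hex.choose_spec
      rw [← this]
  · set ζ : ℂ := D.k * log w with hζ
    have e : w = exp (ζ / D.k) := by
      rw [hζ, mul_div_cancel_left₀ _ hk, exp_log h0]
    have hr : Real.exp ζ.re < 1/16 := by
      rw [← D.cone_norm_exp, ← e]; exact hw
    have hc := D.cover (P := D.p j) (c := 1) (l := lr j) (σ := sg j) one_pos
      (J := {r | Real.exp r < 1/16}) (Z := fun ζ => D.X j (exp (ζ / D.k))) ?_ ?_ ?_ ?_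
      (ζ := ζ) hr
    · have e' : D.coneG j w = _ := (congrArg (D.coneG j) e).trans (D.coneG_exp j hr)
      rw [e'] at hb ⊢
      exact ⟨⟨hb, hc.1⟩, hc.2.trans (congrArg (D.X j) e.symm)⟩
    · intro ξ hξ i hi
      by_cases hij : i = j
      · subst hij; simp at hi
      · have h1 := D.cone_sep hij
        have h2 : exp ξ = ((D.p i - D.p j : ℝ) : ℂ) := by
          push_cast; rw [← hi]; simp
        have h3 : Real.exp ξ.re = |D.p i - D.p j| := by
          rw [← norm_exp, h2, norm_real, Real.norm_eq_abs]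
        have h4 : Real.exp ξ.re < 1/16 := hξ
        linarith
    · intro ξ hξ h1 h2
      simpa using D.X_eq j ξ hξ h1 h2
    · intro ξ hξ
      have h1 : exp ((ξ + 2 * Real.pi * I) / D.k) = rt D.k * exp (ξ / D.k) := by
        rw [rt, ← exp_add]; congr 1; ring
      simp only [h1]
      exact D.X_rot j _ (by rw [D.cone_norm_exp]; exact hξ)
    · intro ξ hξ
      have h1 : exp (conj ξ / D.k) = conj (exp (ξ / D.k)) := by
        rw [← exp_conj]; simp
      simp only [h1]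
      exact D.X_refl j _ (by rw [D.cone_norm_exp]; exact hξ)

lemma coneG_inv (j : Fin 3) {y : ℂ × ℂ} (hy : y ∈ D.Et) (h : ‖y.1 - D.p j‖ < 1/16) :
    D.coneG j (D.coneInv j y) = y := by
  obtain ⟨w₀, hw₀⟩ := IsAlgClosed.exists_pow_nat_eq (y.1 - D.p j) (Nat.pos_of_ne_zero D.cone_k_ne)
  have h0 : ‖w₀‖ ^ D.k < 1/16 := by rw [← norm_pow, hw₀]; exact h
  obtain ⟨-, o', ho', e'⟩ := (D.coneG_spec j h0).1
  obtain ⟨-, o, ho, e⟩ := hy
  have hz : (D.p j : ℂ) + w₀ ^ D.k = y.1 := by rw [hw₀]; ring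
  simp only [coneG, hz] at e'
  have hu := D.coneU_ne j y.1
  have h1 : (y.2 / D.coneU j y.1) ^ D.k = coneCw j w₀ ^ D.k := by
    rw [div_pow, div_eq_iff (pow_ne_zero _ hu), ← mul_pow, mul_comm, e', e, mul_pow, mul_pow,
      ho, ho']
  have h2 : D.coneInv j y ^ D.k = w₀ ^ D.k := by
    rw [coneInv, ← coneCw_pow, h1, ← coneCw_pow, coneCw_cw]
  unfold coneG
  rw [h2, hz, coneInv, coneCw_cw, mul_div_cancel₀ _ hu]

theorem locChart_cone (x : D.Et) {j : Fin 3} (h1 : x.1.1 = D.p j) : LocChart D.FE D.bdE x := by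
  classical
  let ψ : ℂ → D.Et := fun w => if h : D.coneG j w ∈ D.Et then ⟨D.coneG j w, h⟩ else x
  have hψ : ∀ w, ‖w‖ ^ D.k < 1/16 → (ψ w).1 = D.coneG j w := fun w hw => by
    simp only [ψ, dif_pos (D.coneG_spec j hw).1]
  have hd : ∀ w : ℂ, ‖w‖ ^ D.k < 1/16 → ‖(D.p j + w ^ D.k : ℂ) - D.p j‖ < 1/16 := fun w hw => by
    simpa using hw
  have h00 : ‖(0:ℂ)‖ ^ D.k < 1/16 := by simp [D.cone_k_ne]
  refine ⟨{w | ‖w‖ ^ D.k < 1/16}, 0, univ, ψ, D.X j, isOpen_lt (by fun_prop) continuous_const,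
    h00, ?_, Or.inl ⟨rfl, ?_⟩, ?_, ?_, ?_, fun w hw => D.X_cmc j w hw, ?_⟩
  · apply Subtype.ext
    rw [hψ 0 h00]
    obtain ⟨-, o, -, e⟩ := x.2
    refine Prod.ext ?_ ?_
    · simp [coneG, D.cone_k_ne, h1]
    · rw [e, h1]; simp [coneG, coneCw_zero, et, D.md_p]
  · have := (D.cone_base j (z := x.1.1) (by rw [h1]; simp)).2
    exact fun h => this.ne' h
  · rw [inter_univ, Topology.IsInducing.subtypeVal.continuousOn_iff]
    refine ContinuousOn.congr (f := D.coneG j) ?_ fun w hw => hψ w hw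
    refine ContinuousOn.prodMk (by fun_prop) ?_
    refine ContinuousOn.mul ?_ (cone_continuous_cw j).continuousOn
    exact (D.cone_continuousOn_U j).comp (by fun_prop) fun w hw => hd w hw
  · intro a ha b hb hab
    have := congrArg (fun y : D.Et => D.coneInv j y.1) hab
    simpa only [hψ a ha.1, hψ b hb.1, coneInv_G] using this
  · intro V' hV' hs
    have hc : ContinuousOn (D.coneInv j) {y : ℂ × ℂ | ‖y.1 - D.p j‖ < 1/16} := by
      refine (cone_continuous_cw j).comp_continuousOn ?_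
      refine continuousOn_snd.div ?_ fun y _ => D.coneU_ne j _
      exact (D.cone_continuousOn_U j).comp continuousOn_fst fun y hy => hy
    have ho := (hc.isOpen_inter_preimage (isOpen_lt (by fun_prop) continuous_const) hV').preimage
      (continuous_subtype_val (p := fun y => y ∈ D.Et))
    convert ho using 1
    ext y
    constructor
    · rintro ⟨w, ⟨hw, -⟩, rfl⟩
      have hw' : ‖w‖ ^ D.k < 1/16 := hs hw
      simp only [mem_preimage, mem_inter_iff, mem_ofPred_eq, hψ w hw', coneInv_G]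
      exact ⟨hd w hw', hw⟩
    · rintro ⟨hy1, hy2⟩
      refine ⟨D.coneInv j y.1, ⟨hy2, mem_univ _⟩, Subtype.ext ?_⟩
      rw [hψ _ (hs hy2), D.coneG_inv j y.2 hy1]
  · intro w hw
    rw [FE, hψ w hw.1, (D.coneG_spec j hw.1).2]

end SurfData

end Pool.Agent.MP_efb2da_gt

end
end

section

open scoped Manifold ContDiff ComplexConjugate Topology
open Set Complex

noncomputable section

namespace Pool.Agent.MP_efb2da_gt

lemma surfTop_finite {k : ℕ} (hk : k ≠ 0) : {o : ℂ | o ^ k = 1}.Finite := by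
  refine ((Set.finite_lt_nat k).image fun n => rt k ^ n).subset fun o ho => ?_
  obtain ⟨n, hn, e⟩ := exists_rt_pow hk ho
  exact ⟨n, hn, e.symm⟩

lemma surfTop_le_norm {ε : ℝ} {z : ℂ} (h : ε ^ 2 ≤ (z.re - 1) ^ 2 + z.im ^ 2) : ε ≤ ‖z - 1‖ := by
  refine le_trans (le_abs_self ε) (abs_le_of_sq_le_sq' ?_ (norm_nonneg _)).2
  rw [sq_abs, Complex.sq_norm, normSq_apply]
  simp only [sub_re, one_re, sub_im, one_im, sub_zero]
  nlinarith

lemma surfTop_sq {z : ℂ} : ‖z‖ ^ 2 = z.re ^ 2 + z.im ^ 2 := by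
  rw [Complex.sq_norm, normSq_apply]
  ring

lemma surfTop_half {a b ε : ℝ} (ha : 0 < a) (ha1 : a < 1) (hb : 1 < b) (h0 : 0 < ε) (h1 : ε ≤ 1) :
    IsPreconnected ({z : ℂ | a < ‖z‖ ∧ ‖z‖ < b ∧ ε ≤ ‖z - 1‖} ∩ {z | 0 ≤ z.im}) := by
  have hε : ε ^ 2 ≤ 1 := by nlinarith
  refine isPreconnected_of_forall I fun z hz => ?_
  obtain ⟨⟨hz1, hz2, hz3⟩, hz4⟩ := hz
  have hz4' : 0 ≤ z.im := hz4
  set r : ℝ := ‖z‖ with hr
  have hr0 : 0 < r := ha.trans hz1
  have hr2 : r ^ 2 = z.re ^ 2 + z.im ^ 2 := surfTop_sq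
  let w : ℝ → ℂ := fun t => (t : ℂ) + (√(r ^ 2 - t ^ 2) : ℝ) * I
  let s : ℝ → ℂ := fun t => (t : ℂ) * I
  have hw : Continuous w := by fun_prop
  have hs : Continuous s := by fun_prop
  have hwre : ∀ t, (w t).re = t := fun t => by simp [w]
  have hwim : ∀ t, (w t).im = √(r ^ 2 - t ^ 2) := fun t => by simp [w]
  have hw0 : w 0 = s r := by simp [w, s, Real.sqrt_sq hr0.le]
  have hz5 : ε ^ 2 ≤ (z.re - 1) ^ 2 + z.im ^ 2 := by
    have h2 : ε ^ 2 ≤ ‖z - 1‖ ^ 2 := by gcongr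
    rw [surfTop_sq] at h2
    simpa using h2
  refine ⟨w '' uIcc z.re 0 ∪ s '' Ioo a b, ?_, Or.inr ⟨1, ⟨ha1, hb⟩, by simp [s]⟩,
    Or.inl ⟨z.re, left_mem_uIcc, ?_⟩, ?_⟩
  · rintro _ (⟨t, ht, rfl⟩ | ⟨t, ht, rfl⟩)
    · have h2 : t ^ 2 ≤ z.re ^ 2 ∧ (t ≤ z.re ∨ t ≤ 0) := by
        rcases mem_uIcc.1 ht with h | h
        · exact ⟨by nlinarith [h.1, h.2], Or.inr h.2⟩
        · exact ⟨by nlinarith [h.1, h.2], Or.inl h.2⟩
      have h3 : 0 ≤ r ^ 2 - t ^ 2 := by nlinarith [h2.1, sq_nonneg z.im]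
      have h4 : (w t).im ^ 2 = r ^ 2 - t ^ 2 := by rw [hwim, Real.sq_sqrt h3]
      have h5 : ‖w t‖ = r := by
        refine (pow_left_inj₀ (norm_nonneg _) hr0.le two_ne_zero).1 ?_
        rw [surfTop_sq, h4, hwre]
        ring
      refine ⟨⟨h5 ▸ hz1, h5 ▸ hz2, surfTop_le_norm ?_⟩, ?_⟩
      · rw [h4, hwre]
        rcases h2.2 with h | h
        · nlinarith
        · nlinarith [sq_nonneg r]
      · show 0 ≤ (w t).im
        rw [hwim]
        exact Real.sqrt_nonneg _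
    · have h2 : 0 < t := ha.trans ht.1
      have h3 : ‖s t‖ = t := by simp [s, abs_of_pos h2]
      refine ⟨⟨h3.symm ▸ ht.1, h3.symm ▸ ht.2, surfTop_le_norm ?_⟩, ?_⟩
      · simp only [s, mul_re, ofReal_re, I_re, mul_zero, ofReal_im, I_im, mul_one, sub_self,
          mul_im, add_zero]
        nlinarith [sq_nonneg t]
      · simp [s, h2.le]
  · apply Complex.ext
    · exact hwre _
    · rw [hwim, hr2, add_sub_cancel_left, Real.sqrt_sq hz4']
  · refine IsPreconnected.union' ⟨s r, ⟨0, right_mem_uIcc, hw0⟩, ⟨r, ⟨hz1, hz2⟩, rfl⟩⟩ ?_ ?_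
    · exact isPreconnected_uIcc.image _ hw.continuousOn
    · exact isPreconnected_Ioo.image _ hs.continuousOn

namespace SurfData
variable (D : SurfData)

lemma surfTop_k : D.k ≠ 0 := by
  have := D.hk
  omega

lemma surfTop_q : 0 < √D.q ∧ √D.q ≤ 1 / 64 := by
  refine ⟨Real.sqrt_pos.2 D.q0, ?_⟩
  rw [Real.sqrt_le_left (by norm_num)]
  linarith [D.q1]

lemma surfTop_real {z : ℂ} (hz : z ∈ D.Base) (h : z.im ≤ 0) :
    ∃ o : ℂ, o ^ D.k = 1 ∧ conj (D.et (conj z)) = o * D.et z := by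
  rcases h.lt_or_eq with h | h
  · exact ⟨1, one_pow _, by rw [one_mul, ← D.et_down h]⟩
  obtain ⟨x, rfl⟩ : ∃ x : ℝ, z = x := ⟨z.re, Complex.ext rfl (by simpa using h)⟩
  rw [conj_ofReal]
  by_cases hp : ∃ j, x = D.p j
  · obtain ⟨j, rfl⟩ := hp
    exact ⟨1, one_pow _, by simp [et, D.md_p]⟩
  have h0 : x ≠ 0 := by
    rintro rfl
    have h1 := hz.1
    have h2 := D.surfTop_q.1
    simp only [ofReal_zero, norm_zero] at h1
    linarith
  have h1 : x ≠ 1 := by
    rintro rfl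
    have h1 := hz.2.2
    have h2 := D.ε0
    simp only [ofReal_one, sub_self, norm_zero] at h1
    linarith
  have h2 := D.an_real h0 h1 fun j hj => hp ⟨j, hj⟩
  have h3 : sgn x = 1 := by simp [sgn]
  have hk : (D.k : ℂ) ≠ 0 := Nat.cast_ne_zero.2 D.surfTop_k
  refine ⟨exp (-(2 * Real.pi * I * lab D.p x / D.k)), ?_, ?_⟩
  · rw [← Complex.exp_nat_mul]
    have h4 : (D.k : ℂ) * -(2 * Real.pi * I * lab D.p x / D.k) =
        ((-(lab D.p x : ℤ) : ℤ) : ℂ) * (2 * Real.pi * I) := by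
      push_cast
      field_simp
    rw [h4, Complex.exp_int_mul_two_pi_mul_I]
  · unfold et
    rw [h2, h3, map_mul, conj_ofReal, ← Complex.exp_conj, map_mul, conj_ofReal, conj_I,
      mul_left_comm (exp _), ← Complex.exp_add]
    congr 2
    push_cast
    ring

/-- upper sheets -/
def surfTopU (o z : ℂ) : ℂ × ℂ := (z, o * D.et z)
/-- lower sheets -/
def surfTopD (o z : ℂ) : ℂ × ℂ := (z, o * conj (D.et (conj z)))

lemma surfTopU_cont (o : ℂ) : ContinuousOn (D.surfTopU o) (D.Base ∩ {z | 0 ≤ z.im}) :=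
  continuousOn_id.prodMk (continuousOn_const.mul D.continuousOn_et_up)

lemma surfTopD_cont (o : ℂ) : ContinuousOn (D.surfTopD o) (D.Base ∩ {z | z.im ≤ 0}) :=
  continuousOn_id.prodMk (continuousOn_const.mul D.continuousOn_et_down)

lemma surfTopU_mem {o z : ℂ} (ho : o ^ D.k = 1) (hz : z ∈ D.Base) : D.surfTopU o z ∈ D.Et :=
  ⟨hz, o, ho, rfl⟩

lemma surfTopD_mem {o z : ℂ} (ho : o ^ D.k = 1) (hz : z ∈ D.Base) (h : z.im ≤ 0) :
    D.surfTopD o z ∈ D.Et := by
  obtain ⟨o', ho', e⟩ := D.surfTop_real hz h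
  refine ⟨hz, o * o', by rw [mul_pow, ho, ho', one_mul], ?_⟩
  show o * conj (D.et (conj z)) = o * o' * D.et z
  rw [e, mul_assoc]

lemma surfTop_cases {x : ℂ × ℂ} (hx : x ∈ D.Et) : ∃ o : ℂ, o ^ D.k = 1 ∧
    ((0 ≤ x.1.im ∧ D.surfTopU o x.1 = x) ∨ (x.1.im ≤ 0 ∧ D.surfTopD o x.1 = x)) := by
  obtain ⟨-, o, ho, e⟩ := hx
  refine ⟨o, ho, ?_⟩
  by_cases h : 0 ≤ x.1.im
  · exact Or.inl ⟨h, Prod.ext rfl e.symm⟩
  · refine Or.inr ⟨(not_le.1 h).le, Prod.ext rfl ?_⟩
    show o * conj (D.et (conj x.1)) = x.2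
    rw [e, ← D.et_down (not_le.1 h)]

theorem isCompact_fund : IsCompact {x : D.Et | √D.q ≤ ‖x.1.1‖ ∧ ‖x.1.1‖ ≤ 1 / √D.q} := by
  obtain ⟨hq0, hq1⟩ := D.surfTop_q
  set A : Set ℂ := {z | √D.q ≤ ‖z‖ ∧ ‖z‖ ≤ 1 / √D.q ∧ D.ε ≤ ‖z - 1‖} with hA
  have hAB : A ⊆ D.Base := fun z hz =>
    ⟨by linarith [hz.1], hz.2.1.trans_lt (div_lt_div_of_pos_right (by norm_num) hq0), hz.2.2⟩
  have hAc : IsCompact A := by
    refine (isCompact_closedBall (0 : ℂ) (1 / √D.q)).of_isClosed_subset ?_ fun z hz => ?_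
    · exact (isClosed_le continuous_const continuous_norm).inter
        ((isClosed_le continuous_norm continuous_const).inter
          (isClosed_le continuous_const (continuous_id.sub continuous_const).norm))
    · rw [mem_closedBall_zero_iff]
      exact hz.2.1
  have h1 : IsCompact (A ∩ {z | 0 ≤ z.im}) :=
    hAc.inter_right (isClosed_le continuous_const continuous_im)
  have h2 : IsCompact (A ∩ {z | z.im ≤ 0}) :=
    hAc.inter_right (isClosed_le continuous_im continuous_const)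
  rw [Subtype.isCompact_iff]
  have h3 : (Subtype.val '' {x : D.Et | √D.q ≤ ‖x.1.1‖ ∧ ‖x.1.1‖ ≤ 1 / √D.q}) =
      ⋃ o ∈ {o : ℂ | o ^ D.k = 1}, (D.surfTopU o '' (A ∩ {z | 0 ≤ z.im}) ∪
        D.surfTopD o '' (A ∩ {z | z.im ≤ 0})) := by
    ext y
    simp only [mem_iUnion, mem_ofPred_eq, exists_prop]
    constructor
    · rintro ⟨x, hx, rfl⟩
      have hxA : x.1.1 ∈ A := ⟨hx.1, hx.2, x.2.1.2.2⟩
      obtain ⟨o, ho, h | h⟩ := D.surfTop_cases x.2
      · exact ⟨o, ho, Or.inl ⟨_, ⟨hxA, h.1⟩, h.2⟩⟩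
      · exact ⟨o, ho, Or.inr ⟨_, ⟨hxA, h.1⟩, h.2⟩⟩
    · rintro ⟨o, ho, ⟨z, hz, rfl⟩ | ⟨z, hz, rfl⟩⟩
      · exact ⟨⟨_, D.surfTopU_mem ho (hAB hz.1)⟩, ⟨hz.1.1, hz.1.2.1⟩, rfl⟩
      · exact ⟨⟨_, D.surfTopD_mem ho (hAB hz.1) hz.2⟩, ⟨hz.1.1, hz.1.2.1⟩, rfl⟩
  rw [h3]
  refine (surfTop_finite D.surfTop_k).isCompact_biUnion fun o _ => IsCompact.union ?_ ?_
  · exact h1.image_of_continuousOn ((D.surfTopU_cont o).mono (inter_subset_inter_left _ hAB))
  · exact h2.image_of_continuousOn ((D.surfTopD_cont o).mono (inter_subset_inter_left _ hAB))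

lemma surfTop_up : IsPreconnected (D.Base ∩ {z | 0 ≤ z.im}) := by
  obtain ⟨hq0, hq1⟩ := D.surfTop_q
  refine surfTop_half (by positivity) (by linarith) ?_ D.ε0 (by linarith [D.ε1])
  rw [lt_div_iff₀ hq0]
  linarith

lemma surfTop_conj {z : ℂ} (hz : z ∈ D.Base) : conj z ∈ D.Base := by
  have h : ‖conj z - 1‖ = ‖z - 1‖ := by
    rw [← Complex.norm_conj (z - 1), map_sub, map_one]
  refine ⟨?_, ?_, ?_⟩
  · rw [Complex.norm_conj]
    exact hz.1
  · rw [Complex.norm_conj]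
    exact hz.2.1
  · rw [h]
    exact hz.2.2

lemma surfTop_down : IsPreconnected (D.Base ∩ {z | z.im ≤ 0}) := by
  have h : D.Base ∩ {z | z.im ≤ 0} = (fun z => conj z) '' (D.Base ∩ {z | 0 ≤ z.im}) := by
    ext z
    constructor
    · intro hz
      refine ⟨conj z, ⟨D.surfTop_conj hz.1, ?_⟩, conj_conj z⟩
      have h1 : z.im ≤ 0 := hz.2
      simpa using h1
    · rintro ⟨w, hw, rfl⟩
      refine ⟨D.surfTop_conj hw.1, ?_⟩
      have h1 : 0 ≤ w.im := hw.2
      simpa using h1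
  rw [h]
  exact D.surfTop_up.image _ continuous_conj.continuousOn

theorem preconnected_Et (hb : IsPreconnected D.bdE) : PreconnectedSpace D.Et := by
  obtain ⟨hq0, hq1⟩ := D.surfTop_q
  have h0 := D.ε0
  have h1 := D.ε1
  set z₀ : ℂ := ((1 + D.ε : ℝ) : ℂ) with hz₀
  have h2 : ‖z₀ - 1‖ = D.ε := by
    rw [hz₀]
    push_cast
    rw [add_sub_cancel_left, Complex.norm_real, Real.norm_eq_abs, abs_of_pos h0]
  have h3 : ‖z₀‖ = 1 + D.ε := by
    rw [hz₀, Complex.norm_real, Real.norm_eq_abs, abs_of_pos (by linarith)]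
  have h4 : z₀ ∈ D.Base := by
    refine ⟨by rw [h3]; linarith, ?_, h2.ge⟩
    rw [h3, lt_div_iff₀ hq0]
    nlinarith
  have h5 : z₀.im = 0 := ofReal_im _
  have hB : IsPreconnected (Subtype.val '' D.bdE) := hb.image _ continuous_subtype_val.continuousOn
  have hBE : Subtype.val '' D.bdE ⊆ D.Et := by
    rintro _ ⟨x, -, rfl⟩
    exact x.2
  have hx₀ : D.surfTopU 1 z₀ ∈ Subtype.val '' D.bdE :=
    ⟨⟨_, D.surfTopU_mem (one_pow _) h4⟩, h2, rfl⟩
  refine Subtype.preconnectedSpace (isPreconnected_of_forall (D.surfTopU 1 z₀) fun y hy => ?_)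
  obtain ⟨o, ho, h | h⟩ := D.surfTop_cases hy
  · refine ⟨Subtype.val '' D.bdE ∪ D.surfTopU o '' (D.Base ∩ {z | 0 ≤ z.im}),
      union_subset hBE ?_, Or.inl hx₀, Or.inr ⟨_, ⟨hy.1, h.1⟩, h.2⟩, ?_⟩
    · rintro _ ⟨z, hz, rfl⟩
      exact D.surfTopU_mem ho hz.1
    · exact IsPreconnected.union' ⟨D.surfTopU o z₀, ⟨⟨_, D.surfTopU_mem ho h4⟩, h2, rfl⟩,
        ⟨z₀, ⟨h4, h5.ge⟩, rfl⟩⟩ hB (D.surfTop_up.image _ (D.surfTopU_cont o))
  · refine ⟨Subtype.val '' D.bdE ∪ D.surfTopD o '' (D.Base ∩ {z | z.im ≤ 0}),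
      union_subset hBE ?_, Or.inl hx₀, Or.inr ⟨_, ⟨hy.1, h.1⟩, h.2⟩, ?_⟩
    · rintro _ ⟨z, hz, rfl⟩
      exact D.surfTopD_mem ho hz.1 hz.2
    · exact IsPreconnected.union' ⟨D.surfTopD o z₀, ⟨⟨_, D.surfTopD_mem ho h4 h5.le⟩, h2, rfl⟩,
        ⟨z₀, ⟨h4, h5.le⟩, rfl⟩⟩ hB (D.surfTop_down.image _ (D.surfTopD_cont o))

end SurfData

end Pool.Agent.MP_efb2da_gt

end
end

section

open scoped Manifold ContDiff ComplexConjugate Topology
open Set Complex

noncomputable section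

namespace Pool.Agent.MP_efb2da_gt

namespace SurfData
variable (D : SurfData)

/-- the period of the handle -/
def surfaceL : ℝ := -Real.log D.q

lemma surface_sqrt_pos : 0 < √D.q := Real.sqrt_pos.mpr D.q0

lemma surface_sqrt_le : √D.q ≤ 1 / 64 := by
  have h : √D.q ≤ √(1 / 4096) := Real.sqrt_le_sqrt D.q1
  have h2 : √(1 / 4096 : ℝ) = 1 / 64 := by
    rw [show (1 / 4096 : ℝ) = (1 / 64) ^ 2 by norm_num]
    exact Real.sqrt_sq (by norm_num)
  linarith

lemma surface_sq : √D.q * √D.q = D.q := Real.mul_self_sqrt D.q0.le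

lemma surfaceL_gt : Real.log 4 < D.surfaceL := by
  have h : Real.log D.q ≤ Real.log (1 / 4096) := Real.log_le_log D.q0 D.q1
  have h2 : Real.log (1 / 4096 : ℝ) = -Real.log 4096 := by
    rw [one_div, Real.log_inv]
  have h3 : Real.log 4 < Real.log 4096 := Real.log_lt_log (by norm_num) (by norm_num)
  unfold surfaceL
  linarith

lemma surfaceL_pos : 0 < D.surfaceL :=
  lt_trans (Real.log_pos (by norm_num)) D.surfaceL_gt

instance surfaceFact : Fact (0 < D.surfaceL) := ⟨D.surfaceL_pos⟩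

/-- norm bounds of the base region -/
def surfaceNB (z : ℂ) : Prop := √D.q / 2 < ‖z‖ ∧ ‖z‖ < 2 / √D.q

lemma surfaceNB_pos {z : ℂ} (h : D.surfaceNB z) : 0 < ‖z‖ := by
  have := D.surface_sqrt_pos
  have := h.1
  linarith

lemma surfaceNB_of_mem (x : D.Et) : D.surfaceNB x.1.1 := ⟨x.2.1.1, x.2.1.2.1⟩

lemma surface_log_lt {z w : ℂ} (hz : D.surfaceNB z) (hw : D.surfaceNB w) :
    Real.log ‖w‖ - Real.log ‖z‖ < 2 * D.surfaceL := by
  have hs := D.surface_sqrt_pos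
  have h1 : Real.log ‖w‖ < Real.log (2 / √D.q) := Real.log_lt_log (D.surfaceNB_pos hw) hw.2
  have h2 : Real.log (√D.q / 2) < Real.log ‖z‖ := Real.log_lt_log (by positivity) hz.1
  rw [Real.log_div (by norm_num) hs.ne'] at h1
  rw [Real.log_div hs.ne' (by norm_num)] at h2
  have h3 : Real.log D.q = 2 * Real.log √D.q := by
    conv_lhs => rw [← D.surface_sq]
    rw [Real.log_mul hs.ne' hs.ne']; ring
  have h4 : Real.log 4 = 2 * Real.log 2 := by
    rw [show (4 : ℝ) = 2 * 2 by norm_num, Real.log_mul (by norm_num) (by norm_num)]; ring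
  have h5 := D.surfaceL_gt
  unfold surfaceL at *
  linarith

lemma surface_scale {z w : ℂ} (hz : 0 < ‖z‖) (hw : 0 < ‖w‖) {c : ℝ}
    (h2 : w / (‖w‖ : ℂ) = z / (‖z‖ : ℂ)) (hc : ‖w‖ = c * ‖z‖) : w = c * z := by
  have hz' : (‖z‖ : ℂ) ≠ 0 := by exact_mod_cast hz.ne'
  have hw' : (‖w‖ : ℂ) ≠ 0 := by exact_mod_cast hw.ne'
  have h3 : w = (‖w‖ : ℂ) * (z / (‖z‖ : ℂ)) := by
    rw [← h2]; field_simp
  rw [h3, hc]
  push_cast
  field_simp

lemma surface_rel {z w : ℂ} (hz : D.surfaceNB z) (hw : D.surfaceNB w)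
    (h1 : ((Real.log ‖w‖ : ℝ) : AddCircle D.surfaceL) = (Real.log ‖z‖ : ℝ))
    (h2 : w / (‖w‖ : ℂ) = z / (‖z‖ : ℂ)) : w = z ∨ w = D.q * z ∨ z = D.q * w := by
  have hz0 := D.surfaceNB_pos hz
  have hw0 := D.surfaceNB_pos hw
  have hL := D.surfaceL_pos
  have h3 : ((Real.log ‖w‖ - Real.log ‖z‖ : ℝ) : AddCircle D.surfaceL) = 0 := by
    rw [AddCircle.coe_sub, h1, sub_self]
  obtain ⟨n, hn⟩ := (AddCircle.coe_eq_zero_iff D.surfaceL).mp h3
  rw [zsmul_eq_mul] at hn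
  have b1 := D.surface_log_lt hz hw
  have b2 := D.surface_log_lt hw hz
  have n1 : (n : ℝ) < 2 := by
    by_contra hh
    push Not at hh
    nlinarith
  have n2 : (-2 : ℝ) < n := by
    by_contra hh
    push Not at hh
    nlinarith
  have n1' : n < 2 := by exact_mod_cast n1
  have n2' : -2 < n := by exact_mod_cast n2
  have hq := D.q0
  have hn3 : n = 0 ∨ n = -1 ∨ n = 1 := by omega
  rcases hn3 with rfl | rfl | rfl
  · left
    have : ‖w‖ = 1 * ‖z‖ := by
      rw [one_mul]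
      apply Real.log_injOn_pos (mem_Ioi.mpr hw0) (mem_Ioi.mpr hz0)
      simp at hn; linarith
    simpa using surface_scale hz0 hw0 h2 this
  · right; left
    have : ‖w‖ = D.q * ‖z‖ := by
      apply Real.log_injOn_pos (mem_Ioi.mpr hw0) (mem_Ioi.mpr (by positivity))
      rw [Real.log_mul hq.ne' hz0.ne']
      unfold surfaceL at hn
      simp at hn; linarith
    exact surface_scale hz0 hw0 h2 this
  · right; right
    have : ‖z‖ = D.q * ‖w‖ := by
      apply Real.log_injOn_pos (mem_Ioi.mpr hz0) (mem_Ioi.mpr (by positivity))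
      rw [Real.log_mul hq.ne' hw0.ne']
      unfold surfaceL at hn
      simp at hn; linarith
    exact surface_scale hw0 hz0 h2.symm this

lemma surface_norm_q (z : ℂ) : ‖(D.q : ℂ) * z‖ = D.q * ‖z‖ := by
  rw [norm_mul, Complex.norm_real, Real.norm_eq_abs, abs_of_pos D.q0]

lemma surface_small {z : ℂ} (hz : D.surfaceNB z) : ‖(D.q : ℂ) * z‖ < 1 / 32 := by
  have hs := D.surface_sqrt_pos
  have h1 := D.surface_sqrt_le
  have h2 := hz.2
  rw [lt_div_iff₀ hs] at h2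
  rw [D.surface_norm_q]
  have h3 := D.surface_sq
  have h4 : 0 ≤ ‖z‖ := norm_nonneg z
  nlinarith

lemma surface_big {z : ℂ} (hz : D.surfaceNB ((D.q : ℂ) * z)) : 32 < ‖z‖ := by
  have hs := D.surface_sqrt_pos
  have h1 := D.surface_sqrt_le
  have h2 := hz.1
  rw [D.surface_norm_q] at h2
  have h3 := D.surface_sq
  have h4 : 0 ≤ ‖z‖ := norm_nonneg z
  have h5 : 1 / 2 < √D.q * ‖z‖ := by
    by_contra hh
    push Not at hh
    nlinarith
  nlinarith

lemma surface_far_small {z : ℂ} (h : ‖z‖ < 1 / 32) : D.ε < ‖z - 1‖ := by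
  have h1 : ‖(1 : ℂ)‖ - ‖z‖ ≤ ‖z - 1‖ := by
    rw [norm_sub_rev]; exact norm_sub_norm_le _ _
  have := D.ε1
  simp at h1
  linarith

lemma surface_far_big {z : ℂ} (h : 32 < ‖z‖) : D.ε < ‖z - 1‖ := by
  have h1 : ‖z‖ - ‖(1 : ℂ)‖ ≤ ‖z - 1‖ := norm_sub_norm_le _ _
  have := D.ε1
  simp at h1
  linarith

/-- moving a point of the cover along the handle -/
lemma surface_move (x : D.Et) {w : ℂ} (hw : D.surfaceNB w)
    (h : w = x.1.1 ∨ w = D.q * x.1.1 ∨ x.1.1 = D.q * w) :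
    (w, x.1.2) ∈ D.Et ∧ D.F (w, x.1.2) = D.F x.1 ∧
      (w ≠ x.1.1 → ‖w - 1‖ ≠ D.ε ∧ ‖x.1.1 - 1‖ ≠ D.ε) := by
  obtain ⟨⟨z, η⟩, hx⟩ := x
  have hz : D.surfaceNB z := D.surfaceNB_of_mem ⟨(z, η), hx⟩
  have hzb : z ∈ D.Base := hx.1
  rcases h with h | h | h
  · simp only at h
    subst h
    exact ⟨hx, rfl, fun h => absurd rfl h⟩
  · simp only at h
    subst h
    have s1 := D.surface_far_small (D.surface_small hz)
    have s2 := D.surface_far_big (D.surface_big hw)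
    have hb : ((D.q : ℂ) * z) ∈ D.Base := ⟨hw.1, hw.2, s1.le⟩
    obtain ⟨a, b, -⟩ := D.seam (η := η) hzb hb
    exact ⟨a.mp hx, b, fun _ => ⟨s1.ne', s2.ne'⟩⟩
  · simp only at h
    subst h
    have s1 := D.surface_far_small (D.surface_small hw)
    have s2 := D.surface_far_big (D.surface_big hz)
    have hb : w ∈ D.Base := ⟨hw.1, hw.2, s2.le⟩
    obtain ⟨a, b, -⟩ := D.seam (η := η) hb hzb
    exact ⟨a.mpr hx, b.symm, fun _ => ⟨s2.ne', s1.ne'⟩⟩

/-- the map closing the handle -/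
def surfacePi0 (x : D.Et) : AddCircle D.surfaceL × ℂ × ℂ :=
  (((Real.log ‖x.1.1‖ : ℝ) : AddCircle D.surfaceL), x.1.1 / (‖x.1.1‖ : ℂ), x.1.2)

lemma surface_continuous_pi0 : Continuous D.surfacePi0 := by
  have hz : Continuous fun x : D.Et => x.1.1 := continuous_fst.comp continuous_subtype_val
  have hn : ∀ x : D.Et, ‖x.1.1‖ ≠ 0 := fun x => (D.surfaceNB_pos (D.surfaceNB_of_mem x)).ne'
  refine Continuous.prodMk ?_ (Continuous.prodMk ?_ ?_)
  · exact (AddCircle.continuous_mk' D.surfaceL).comp (hz.norm.log hn)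
  · exact hz.div (Complex.continuous_ofReal.comp hz.norm) (fun x => by exact_mod_cast hn x)
  · exact continuous_snd.comp continuous_subtype_val

/-- the closed-up surface -/
abbrev SurfaceM : Type := range D.surfacePi0

def surfacePi (x : D.Et) : D.SurfaceM := ⟨D.surfacePi0 x, mem_range_self x⟩

lemma surface_continuous_pi : Continuous D.surfacePi := D.surface_continuous_pi0.subtype_mk _

lemma surface_surj : Function.Surjective D.surfacePi := by
  rintro ⟨m, x, rfl⟩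
  exact ⟨x, rfl⟩

lemma surface_fibre {x y : D.Et} (h : D.surfacePi y = D.surfacePi x) :
    y.1.2 = x.1.2 ∧ (y.1.1 = x.1.1 ∨ y.1.1 = D.q * x.1.1 ∨ x.1.1 = D.q * y.1.1) := by
  have h0 : D.surfacePi0 y = D.surfacePi0 x := congrArg Subtype.val h
  unfold surfacePi0 at h0
  simp only [Prod.mk.injEq] at h0
  exact ⟨h0.2.2, D.surface_rel (D.surfaceNB_of_mem x) (D.surfaceNB_of_mem y) h0.1 h0.2.1⟩

lemma surface_FE_eq {x y : D.Et} (h : D.surfacePi y = D.surfacePi x) : D.FE y = D.FE x := by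
  obtain ⟨h1, h2⟩ := D.surface_fibre h
  have := (D.surface_move x (D.surfaceNB_of_mem y) h2).2.1
  unfold FE
  rw [← this, ← h1]

lemma surface_eq_of_bd {x y : D.Et} (h : D.surfacePi y = D.surfacePi x) (hx : x ∈ D.bdE) :
    y = x := by
  obtain ⟨h1, h2⟩ := D.surface_fibre h
  have h3 := (D.surface_move x (D.surfaceNB_of_mem y) h2).2.2
  have h4 : y.1.1 = x.1.1 := by
    by_contra hne
    exact (h3 hne).2 hx
  exact Subtype.ext (Prod.ext h4 h1)

lemma surface_pi_q {x y : D.Et} (h1 : y.1.1 = D.q * x.1.1) (h2 : y.1.2 = x.1.2) :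
    D.surfacePi y = D.surfacePi x := by
  apply Subtype.ext
  have hx := D.surfaceNB_pos (D.surfaceNB_of_mem x)
  have hq := D.q0
  show D.surfacePi0 y = D.surfacePi0 x
  unfold surfacePi0
  rw [h1, h2, D.surface_norm_q, Real.log_mul hq.ne' hx.ne']
  refine Prod.ext ?_ (Prod.ext ?_ rfl)
  · show ((Real.log D.q + Real.log ‖x.1.1‖ : ℝ) : AddCircle D.surfaceL) = _
    have : Real.log D.q + Real.log ‖x.1.1‖ = Real.log ‖x.1.1‖ - D.surfaceL := by
      unfold surfaceL; ring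
    rw [this, AddCircle.coe_sub, AddCircle.coe_period, sub_zero]
  · have hq' : (D.q : ℂ) ≠ 0 := by exact_mod_cast hq.ne'
    have hx' : (‖x.1.1‖ : ℂ) ≠ 0 := by exact_mod_cast hx.ne'
    show (D.q : ℂ) * x.1.1 / ((D.q * ‖x.1.1‖ : ℝ) : ℂ) = x.1.1 / (‖x.1.1‖ : ℂ)
    push_cast
    field_simp

lemma surface_locInj (x : D.Et) : ∃ U ∈ 𝓝 x, InjOn D.surfacePi U := by
  have hz : Continuous fun y : D.Et => ‖y.1.1‖ :=
    (continuous_fst.comp continuous_subtype_val).norm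
  have hx := D.surfaceNB_pos (D.surfaceNB_of_mem x)
  refine ⟨{y | ‖x.1.1‖ / 2 < ‖y.1.1‖ ∧ ‖y.1.1‖ < 2 * ‖x.1.1‖}, ?_, ?_⟩
  · apply IsOpen.mem_nhds
    · exact (isOpen_lt continuous_const hz).inter (isOpen_lt hz continuous_const)
    · exact ⟨by linarith, by linarith⟩
  · intro y hy y' hy' h
    obtain ⟨h1, h2⟩ := D.surface_fibre h
    have hq := D.q1
    have hq0 := D.q0
    obtain ⟨a1, a2⟩ := hy
    obtain ⟨b1, b2⟩ := hy'
    rcases h2 with h2 | h2 | h2
    · exact Subtype.ext (Prod.ext h2 h1)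
    · exfalso
      rw [h2, D.surface_norm_q] at a1
      nlinarith
    · exfalso
      rw [h2, D.surface_norm_q] at b1
      nlinarith

lemma surface_isOpenMap : IsOpenMap D.surfacePi := by
  rw [isOpenMap_iff_nhds_le]
  intro x
  have hL := D.surfaceL_pos
  have hx := D.surfaceNB_pos (D.surfaceNB_of_mem x)
  set a : ℝ := Real.log ‖x.1.1‖ - D.surfaceL / 2 with ha
  have hmem : Real.log ‖x.1.1‖ ∈ Ico a (a + D.surfaceL) := ⟨by linarith, by linarith⟩
  let lf : AddCircle D.surfaceL → ℝ := fun t => (AddCircle.equivIco D.surfaceL a t : ℝ)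
  have lf_coe : ∀ t, ((lf t : ℝ) : AddCircle D.surfaceL) = t := fun t =>
    (AddCircle.equivIco D.surfaceL a).symm_apply_apply t
  have lf_x : lf ((Real.log ‖x.1.1‖ : ℝ) : AddCircle D.surfaceL) = Real.log ‖x.1.1‖ := by
    have h1 := lf_coe ((Real.log ‖x.1.1‖ : ℝ) : AddCircle D.surfaceL)
    exact (AddCircle.coe_eq_coe_iff_of_mem_Ico (AddCircle.equivIco D.surfaceL a _).2 hmem).mp h1
  have hne : ((Real.log ‖x.1.1‖ : ℝ) : AddCircle D.surfaceL) ≠ (a : ℝ) := by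
    intro h
    have := (AddCircle.coe_eq_coe_iff_of_mem_Ico hmem ⟨le_rfl, by linarith⟩).mp h
    linarith
  have lf_cont : ContinuousAt lf ((Real.log ‖x.1.1‖ : ℝ) : AddCircle D.surfaceL) :=
    continuous_subtype_val.continuousAt.comp (AddCircle.continuousAt_equivIco D.surfaceL a hne)
  let s : D.SurfaceM → ℂ × ℂ := fun m => ((Real.exp (lf m.1.1) : ℂ) * m.1.2.1, m.1.2.2)
  have hv : Continuous fun m : D.SurfaceM => m.1 := continuous_subtype_val
  have s_cont : ContinuousAt s (D.surfacePi x) := by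
    refine ContinuousAt.prodMk (ContinuousAt.mul ?_ ?_) ?_
    · have h1 : ContinuousAt (fun m : D.SurfaceM => lf m.1.1) (D.surfacePi x) :=
        ContinuousAt.comp (f := fun m : D.SurfaceM => m.1.1) lf_cont
          (continuous_fst.comp hv).continuousAt
      exact Complex.continuous_ofReal.continuousAt.comp (Real.continuous_exp.continuousAt.comp h1)
    · exact (continuous_fst.comp (continuous_snd.comp hv)).continuousAt
    · exact (continuous_snd.comp (continuous_snd.comp hv)).continuousAt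
  have s_x : s (D.surfacePi x) = x.1 := by
    have hx' : (‖x.1.1‖ : ℂ) ≠ 0 := by exact_mod_cast hx.ne'
    refine Prod.ext ?_ rfl
    show (Real.exp (lf ((Real.log ‖x.1.1‖ : ℝ) : AddCircle D.surfaceL)) : ℂ) *
      (x.1.1 / (‖x.1.1‖ : ℂ)) = x.1.1
    rw [lf_x, Real.exp_log hx]
    field_simp
  intro U hU
  rw [Filter.mem_map] at hU
  obtain ⟨W, hW, hWU⟩ := (mem_nhds_subtype D.Et x _).mp hU
  have hO : {u : ℂ × ℂ | D.surfaceNB u.1} ∈ 𝓝 x.1 := by
    apply IsOpen.mem_nhds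
    · exact (isOpen_lt continuous_const continuous_fst.norm).inter
        (isOpen_lt continuous_fst.norm continuous_const)
    · exact D.surfaceNB_of_mem x
  have h1 : s ⁻¹' (W ∩ {u : ℂ × ℂ | D.surfaceNB u.1}) ∈ 𝓝 (D.surfacePi x) := by
    apply s_cont.preimage_mem_nhds
    rw [s_x]
    exact Filter.inter_mem hW hO
  refine Filter.mem_of_superset h1 ?_
  intro m hm
  obtain ⟨y, rfl⟩ := D.surface_surj m
  have hy := D.surfaceNB_pos (D.surfaceNB_of_mem y)
  have hy' : (‖y.1.1‖ : ℂ) ≠ 0 := by exact_mod_cast hy.ne'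
  set t : ℝ := lf ((Real.log ‖y.1.1‖ : ℝ) : AddCircle D.surfaceL) with ht
  have hs : s (D.surfacePi y) = ((Real.exp t : ℂ) * (y.1.1 / (‖y.1.1‖ : ℂ)), y.1.2) := rfl
  set w : ℂ := (Real.exp t : ℂ) * (y.1.1 / (‖y.1.1‖ : ℂ)) with hw
  have hwn : ‖w‖ = Real.exp t := by
    rw [hw, norm_mul, norm_div, Complex.norm_real, Complex.norm_real, Real.norm_eq_abs,
      Real.norm_eq_abs, abs_of_pos (Real.exp_pos t), abs_of_pos hy, div_self hy.ne', mul_one]
  have e1 : ((Real.log ‖w‖ : ℝ) : AddCircle D.surfaceL) = (Real.log ‖y.1.1‖ : ℝ) := by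
    rw [hwn, Real.log_exp, ht, lf_coe]
  have e2 : w / (‖w‖ : ℂ) = y.1.1 / (‖y.1.1‖ : ℂ) := by
    have : (Real.exp t : ℂ) ≠ 0 := by exact_mod_cast (Real.exp_pos t).ne'
    rw [hwn, hw]
    field_simp
  rw [mem_preimage, hs] at hm
  have hwb : D.surfaceNB w := hm.2
  have hmv := (D.surface_move y hwb (D.surface_rel (D.surfaceNB_of_mem y) hwb e1 e2)).1
  have hU' : D.surfacePi ⟨(w, y.1.2), hmv⟩ ∈ U := hWU (show (w, y.1.2) ∈ W from hm.1)
  have e3 : D.surfacePi ⟨(w, y.1.2), hmv⟩ = D.surfacePi y := by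
    apply Subtype.ext
    show D.surfacePi0 _ = D.surfacePi0 y
    unfold surfacePi0
    exact Prod.ext e1 (Prod.ext e2 rfl)
  rwa [e3] at hU'

lemma surface_compact : CompactSpace D.SurfaceM := by
  refine ⟨?_⟩
  have h := D.isCompact_fund.image D.surface_continuous_pi
  have hs := D.surface_sqrt_pos
  have hs1 := D.surface_sqrt_le
  have hsq := D.surface_sq
  have hq := D.q0
  have hq' : (D.q : ℂ) ≠ 0 := by exact_mod_cast hq.ne'
  convert h using 1
  symm
  rw [eq_univ_iff_forall]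
  intro m
  obtain ⟨x, rfl⟩ := D.surface_surj m
  obtain ⟨b1, b2⟩ := D.surfaceNB_of_mem x
  rw [lt_div_iff₀ hs] at b2
  have hx := D.surfaceNB_pos (D.surfaceNB_of_mem x)
  by_cases c1 : ‖x.1.1‖ < √D.q
  · set w : ℂ := x.1.1 / D.q with hw
    have e : x.1.1 = D.q * w := by rw [hw]; field_simp
    have en : ‖x.1.1‖ = D.q * ‖w‖ := by rw [e, D.surface_norm_q]
    have hw0 : 0 ≤ ‖w‖ := norm_nonneg w
    have u1 : √D.q * ‖w‖ < 1 := by
      by_contra hh
      push Not at hh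
      nlinarith
    have u2 : 1 / 2 < √D.q * ‖w‖ := by
      by_contra hh
      push Not at hh
      nlinarith
    have u3 : √D.q ≤ ‖w‖ := by
      by_contra hh
      push Not at hh
      nlinarith
    have hwb : D.surfaceNB w := ⟨by linarith, by rw [lt_div_iff₀ hs]; nlinarith⟩
    have hmv := (D.surface_move x hwb (Or.inr (Or.inr e))).1
    refine ⟨⟨(w, x.1.2), hmv⟩, ⟨u3, ?_⟩, ?_⟩
    · show ‖w‖ ≤ 1 / √D.q
      rw [le_div_iff₀ hs]; nlinarith
    · exact (D.surface_pi_q (x := ⟨(w, x.1.2), hmv⟩) (y := x) e rfl).symm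
  by_cases c2 : 1 / √D.q < ‖x.1.1‖
  · rw [div_lt_iff₀ hs] at c2
    set w : ℂ := D.q * x.1.1 with hw
    have en : ‖w‖ = D.q * ‖x.1.1‖ := by rw [hw, D.surface_norm_q]
    have u1 : √D.q < ‖w‖ := by rw [en]; nlinarith
    have u2 : ‖w‖ < 2 * √D.q := by rw [en]; nlinarith
    have hwb : D.surfaceNB w := ⟨by linarith, by rw [lt_div_iff₀ hs]; nlinarith⟩
    have hmv := (D.surface_move x hwb (Or.inr (Or.inl rfl))).1
    refine ⟨⟨(w, x.1.2), hmv⟩, ⟨u1.le, ?_⟩, ?_⟩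
    · show ‖w‖ ≤ 1 / √D.q
      rw [le_div_iff₀ hs]; nlinarith
    · exact D.surface_pi_q (x := x) (y := ⟨(w, x.1.2), hmv⟩) rfl rfl
  · push Not at c1 c2
    exact ⟨x, ⟨c1, c2⟩, rfl⟩

/-- the immersion on the closed-up surface -/
def surfaceF (m : D.SurfaceM) : E3 := D.FE (D.surface_surj m).choose

lemma surfaceF_pi (x : D.Et) : D.surfaceF (D.surfacePi x) = D.FE x :=
  D.surface_FE_eq (D.surface_surj (D.surfacePi x)).choose_spec

lemma surface_locChart (x : D.Et) : LocChart D.FE D.bdE x := by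
  by_cases h1 : ‖x.1.1 - 1‖ = D.ε
  · exact D.locChart_bd x h1
  by_cases h2 : ∃ j, x.1.1 = D.p j
  · obtain ⟨j, hj⟩ := h2
    exact D.locChart_cone x hj
  · push Not at h2
    exact D.locChart_reg x h2 h1

end SurfData

theorem SurfData.surface (D : SurfData) :
    ∃ (M : Type) (_ : TopologicalSpace M) (_ : ChartedSpace (EuclideanHalfSpace 2) M)
      (_ : IsManifold (𝓡∂ 2) ∞ M) (_ : T2Space M) (_ : CompactSpace M) (_ : ConnectedSpace M)
      (f N : M → E3), IsHSurface f N 2 ∧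
        BijOn f ((𝓡∂ 2).boundary M) (range fun θ : ℝ => D.Y (θ * I)) := by
  obtain ⟨β, hβ, b1, b2, -, b4⟩ := D.exists_bdParam
  have hb : ∀ x, D.surfacePi x ∈ D.surfacePi '' D.bdE ↔ x ∈ D.bdE := by
    intro x
    constructor
    · rintro ⟨y, hy, h⟩
      rw [D.surface_eq_of_bd h.symm hy]; exact hy
    · exact fun h => mem_image_of_mem _ h
  have hl : ∀ m, LocChart D.surfaceF (D.surfacePi '' D.bdE) m := by
    intro m
    obtain ⟨x, rfl⟩ := D.surface_surj m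
    exact LocChart.map D.surface_continuous_pi D.surface_isOpenMap D.surface_locInj
      D.surfaceF_pi hb (D.surface_locChart x)
  obtain ⟨cs, hm, hbd, N, hN⟩ := glue _ _ hl
  have hpre : PreconnectedSpace D.Et := by
    apply D.preconnected_Et
    rw [b4]
    exact isPreconnected_Ico.image β hβ.continuousOn
  have : ConnectedSpace D.Et := { toNonempty := ⟨β 0⟩ }
  have hcon : ConnectedSpace D.SurfaceM :=
    D.surface_surj.connectedSpace D.surface_continuous_pi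
  refine ⟨D.SurfaceM, inferInstance, cs, hm, inferInstance, D.surface_compact, hcon,
    D.surfaceF, N, hN, ?_⟩
  rw [hbd]
  refine ⟨?_, ?_, ?_⟩
  · rintro m ⟨x, hx, rfl⟩
    rw [b4] at hx
    obtain ⟨θ, -, rfl⟩ := hx
    exact ⟨θ, by rw [D.surfaceF_pi, b1]⟩
  · rintro m ⟨x, hx, rfl⟩ m' ⟨x', hx', rfl⟩ h
    rw [b4] at hx hx'
    obtain ⟨θ, hθ, rfl⟩ := hx
    obtain ⟨θ', hθ', rfl⟩ := hx'
    rw [D.surfaceF_pi, D.surfaceF_pi, b1, b1] at h
    rw [D.Y_inj hθ hθ' h]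
  · rintro v ⟨θ, rfl⟩
    refine ⟨D.surfacePi (β θ), ⟨β θ, ?_, rfl⟩, by rw [D.surfaceF_pi, b1]⟩
    show ‖(β θ).1.1 - 1‖ = D.ε
    rw [b2, add_sub_cancel_left, norm_mul, Complex.norm_real, Complex.norm_exp_ofReal_mul_I,
      mul_one, Real.norm_eq_abs, abs_of_pos D.ε0]

end Pool.Agent.MP_efb2da_gt

end
end
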