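import Pool.Agent.Mg.Fefb2da.G7ee8d7
import Pool.Agent.Mg.Fefb2da.G0699f1
import Pool.Agent.Mg.Fefb2da.G83e7e7
import Pool.Agent.Mg.Fefb2da.G5bb93d
import Pool.Agent.Mg.Fefb2da.G37fbc2
import Pool.Agent.Mg.Fefb2da.G97587f
import Pool.Agent.Mg.Fefb2da.Gfafec1
import Pool.Agent.Mg.Fefb2da.G534027

section

open Set Complex
open scoped Topology ComplexConjugate Matrix ContDiff

noncomputable section

namespace Pool.Agent.MP_efb2da_gt

/-- the determinant of the Higgs field -/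
def NilpQ (g : Geo) (d : Dat) (z : ℂ) : ℂ := (cf (-1) (Xi g d z)).det

/-- the determinant with the removable singularities filled in -/
def NilpR (g : Geo) (d : Dat) (z : ℂ) : ℂ := (𝓝[≠] z).limUnder (NilpQ g d)

variable {g : Geo} {d : Dat}

lemma Nilp_det_diff {f : ℂ → MW} {s : Set ℂ} (hf : DifferentiableOn ℂ f s) :
    DifferentiableOn ℂ (fun z => (cf (-1) (f z)).det) s :=
  ((contDiff_detC (n := 1)).differentiable one_ne_zero).comp_differentiableOn
    ((cf (-1)).differentiable.comp_differentiableOn hf)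

lemma Nilp_det_smul (c : ℂ) (M : MW) : (cf (-1) (c • M)).det = c ^ 2 * (cf (-1) M).det := by
  rw [map_smul, Matrix.det_smul, Fintype.card_fin]

lemma Nilp_det_sw (M : MW) : (cf (-1) (sw M)).det = (cf (-1) M).det := by
  simp only [Matrix.det_fin_two, cf_apply, sw_apply]
  simp [mul_comm]

lemma NilpR_eq (hg : AdmG g) (hd : Str d) {z : ℂ} (hz : z ∈ Dom g) : NilpR g d z = NilpQ g d z :=
  (((Nilp_det_diff (Xi_differentiableOn hg hd)).continuousOn.continuousAt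
    ((isOpen_Dom g).mem_nhds hz)).tendsto.mono_left nhdsWithin_le_nhds).limUnder_eq

lemma Nilp_ext (hg : AdmG g) (hd : Str d) (j : Fin 3) (hn : W.coef (-2) (AA d (cj5 j)).det = 0)
    (hr : trC (adjC (cf (-1) (AA d (cj5 j))) * cf (-1) (reg g d (cj5 j) (pp g j))) = 0) :
    DifferentiableAt ℂ (NilpR g d) (pp g j) := by
  have hb : Metric.ball (pp g j : ℂ) (1/8) ∈ 𝓝 (pp g j : ℂ) := Metric.ball_mem_nhds _ (by norm_num)
  have hreg := reg_differentiableOn hg hd j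
  set b : ℂ → ℂ := fun z => trC (adjC (cf (-1) (AA d (cj5 j))) * cf (-1) (reg g d (cj5 j) z))
    with hbd
  have hb1 : DifferentiableOn ℂ b (Metric.ball (pp g j : ℂ) (1/8)) :=
    trC.differentiable.comp_differentiableOn
      (((cf (-1)).differentiable.comp_differentiableOn hreg).const_mul _)
  have hE : DifferentiableOn ℂ (fun z => dslope b (pp g j) z + (cf (-1) (reg g d (cj5 j) z)).det)
      (Metric.ball (pp g j : ℂ) (1/8)) :=
    ((Complex.differentiableOn_dslope hb).2 hb1).add (Nilp_det_diff hreg)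
  have hn' : (cf (-1) (AA d (cj5 j))).det = 0 := by
    rw [← (hd.geA (cj5 j)).coef_det]; exact hn
  have hQ : ∀ z ∈ Metric.ball (pp g j : ℂ) (1/8), z ≠ pp g j →
      NilpQ g d z = dslope b (pp g j) z + (cf (-1) (reg g d (cj5 j) z)).det := by
    intro z _ hz
    have hb0 : b (pp g j) = 0 := hr
    rw [NilpQ, Xi_eq_reg (cj5 j), map_add, det_addC, Nilp_det_smul, hn', pos_cj5, dslope_of_ne _ hz,
      slope_def_module, hb0, map_smul, map_smul, smul_mul_assoc, map_smul]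
    simp only [hbd, smul_eq_mul]
    ring
  refine (hE.differentiableAt hb).congr_of_eventuallyEq ?_
  filter_upwards [hb] with z hz
  by_cases h : z = pp g j
  · subst h
    refine Filter.Tendsto.limUnder_eq ?_
    refine ((hE.continuousOn.continuousAt hb).tendsto.mono_left nhdsWithin_le_nhds).congr' ?_
    filter_upwards [mem_nhdsWithin_of_mem_nhds hb, self_mem_nhdsWithin] with w h1 h2
    exact (hQ w h1 h2).symm
  · rw [NilpR_eq hg hd (ball_subset_Dom hg j (mem_ball_iff_norm.1 hz) h), hQ z hz h]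

lemma Nilp_abs (hg : AdmG g) (j : Fin 3) : 1/4 ≤ |pp g j| ∧ |pp g j| ≤ 11/10 := by
  obtain ⟨⟨a, b⟩, ⟨c, e⟩, f, h⟩ := hg.2.2.2
  fin_cases j
  · simp only [Fin.zero_eta]
    rw [abs_of_nonneg (by linarith)]; constructor <;> linarith
  · simp only [Fin.mk_one]
    rw [abs_of_nonpos (by linarith)]; constructor <;> linarith
  · simp only [Fin.reduceFinMk]
    rw [abs_of_nonpos (by linarith)]; constructor <;> linarith

lemma Nilp_far (hg : AdmG g) {z : ℂ} (h1 : 8 < ‖z‖) (h2 : 8 * qq g * ‖z‖ < 1) : z ∈ Dom g := by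
  obtain ⟨⟨he, he'⟩, ⟨hq, hq'⟩, -⟩ := hg.2
  refine ⟨by linarith, h2, ?_, fun j hj => ?_⟩
  · have := norm_sub_norm_le z 1
    rw [norm_one] at this
    nlinarith
  · rw [hj, Complex.norm_real, Real.norm_eq_abs] at h1
    linarith [(Nilp_abs hg j).2]

lemma Nilp_near (hg : AdmG g) {z : ℂ} (h1 : 8 < ‖z‖) (h2 : 8 * qq g * ‖z‖ < 1) :
    (qq g : ℂ) * z ∈ Dom g := by
  obtain ⟨⟨he, he'⟩, ⟨hq, hq'⟩, -⟩ := hg.2
  have e : ‖(qq g : ℂ) * z‖ = qq g * ‖z‖ := by
    rw [norm_mul, Complex.norm_real, Real.norm_eq_abs, abs_of_pos hq]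
  refine ⟨by rw [e]; nlinarith, by rw [e]; nlinarith, ?_, fun j hj => ?_⟩
  · have := norm_sub_norm_le 1 ((qq g : ℂ) * z)
    rw [norm_one, norm_sub_rev, e] at this
    nlinarith
  · rw [hj, Complex.norm_real, Real.norm_eq_abs] at e
    linarith [(Nilp_abs hg j).1]

theorem sol_nil : ∃ η₀ > 0, ∀ (η N : ℝ) (As : Fin 5 → MW) (S : Sol η N As), η ≤ η₀ →
    ∀ z ∈ Dom S.g, (cf (-1) (Xi S.g S.d z)).det = 0 := by
  obtain ⟨η₀, h0, H⟩ := quad_vanish
  refine ⟨η₀, h0, fun η N As S hη z hz => ?_⟩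
  have hg := S.adm
  have hd := S.str
  obtain ⟨⟨he, he'⟩, ⟨hq, hq'⟩, -⟩ := hg.2
  have hTh : ∀ u : ℂ, 8 * ee S.g ^ 2 < ‖u‖ → ‖u‖ < 1/8 →
      u ^ 2 * NilpR S.g S.d (1 + u) = (cf (-1) (Th S.g S.d u)).det := by
    intro u h1 h2
    have hu : u ≠ 0 := norm_pos_iff.1 (lt_trans (by positivity) h1)
    rw [NilpR_eq hg hd (neck_subset_Dom hg h1 h2), Th_eq hg S.fix hu h2.le, Nilp_det_smul, NilpQ]
  have key := H (ee S.g) (qq S.g) (NilpR S.g S.d) he (S.e_le.trans hη) hq (S.q_le.trans hη)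
    ?_ ?_ ?_ ?_ ?_ z hz.1 hz.2.1 hz.2.2.1
  · rwa [NilpR_eq hg hd hz] at key
  · intro w hw
    refine DifferentiableAt.differentiableWithinAt ?_
    by_cases h : ∃ j, w = pp S.g j
    · obtain ⟨j, rfl⟩ := h
      exact Nilp_ext hg hd j (S.nil j) (S.res j)
    · have hD : Dom S.g ∈ 𝓝 w :=
        (isOpen_Dom _).mem_nhds ⟨hw.1, hw.2.1, hw.2.2, fun j hj => h ⟨j, hj⟩⟩
      refine ((Nilp_det_diff (Xi_differentiableOn hg hd)).differentiableAt hD).congr_of_eventuallyEq ?_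
      filter_upwards [hD] with y hy
      exact NilpR_eq hg hd hy
  · intro w h1 h2
    have h3 := congrArg (fun M => (cf (-1) M).det) (Xi_per hg S.fix h1.le h2.le)
    have h4 : (cf 0 (GG S.d)).det = 1 := by
      rw [← hd.geG.coef_det, S.fix.detG, add_zero, W.coef_one, if_pos rfl]
    have h5 : (cf 0 (adj (GG S.d))).det = 1 := by
      rw [← hd.geG.adj.coef_det, det_adj, S.fix.detG, add_zero, W.coef_one, if_pos rfl]
    simp only [Nilp_det_smul] at h3
    rw [hd.geG.cf_conj (Xi_ge hd w) hd.geG.adj, Matrix.det_mul, Matrix.det_mul, h4, h5] at h3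
    rw [NilpR_eq hg hd (Nilp_far hg h1 h2), NilpR_eq hg hd (Nilp_near hg h1 h2), NilpQ, NilpQ]
    linear_combination w ^ 2 * h3
  · intro u h1 h2
    have hu' : 0 < ‖u‖ := lt_trans (by positivity) h1
    have hu : u ≠ 0 := norm_pos_iff.1 hu'
    have e : ‖(ee S.g : ℂ) ^ 2 / u‖ = ee S.g ^ 2 / ‖u‖ := by
      rw [norm_div, norm_pow, Complex.norm_real, Real.norm_eq_abs, abs_of_pos he]
    have he2 : 0 < ee S.g ^ 2 := by positivity
    rw [hTh u h1 h2, hTh _ (by rw [e, lt_div_iff₀ hu']; nlinarith)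
      (by rw [e, div_lt_iff₀ hu']; linarith), ← Nilp_det_sw, Th_sw hg hd hu, ← neg_one_smul ℂ (Th S.g S.d u),
      Nilp_det_smul]
    ring
  · have e : ‖(ee S.g : ℂ)‖ = ee S.g := by rw [Complex.norm_real, Real.norm_eq_abs, abs_of_pos he]
    have h1 := hTh (ee S.g) (by rw [e]; nlinarith) (by rw [e]; linarith)
    rw [S.n1] at h1
    exact (mul_eq_zero.1 h1).resolve_left (pow_ne_zero 2 (by exact_mod_cast he.ne'))
  · have hs : 0 < √(qq S.g) := Real.sqrt_pos.2 hq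
    have hs2 : √(qq S.g) ^ 2 = qq S.g := Real.sq_sqrt hq.le
    have hs3 : √(qq S.g) < 1/8 := by
      rw [Real.sqrt_lt' (by norm_num)]; linarith
    have e : ‖(1 / (√(qq S.g) : ℝ) : ℂ)‖ = 1 / √(qq S.g) := by
      rw [norm_div, norm_one, Complex.norm_real, Real.norm_eq_abs, abs_of_pos hs]
    rw [NilpR_eq hg hd (Nilp_far hg (by rw [e, lt_div_iff₀ hs]; linarith)
      (by rw [e, mul_one_div, div_lt_one hs]; nlinarith))]
    have h1 := S.n4
    push_cast at h1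
    exact h1

end Pool.Agent.MP_efb2da_gt

end
end

section

open Set Complex
open scoped Topology ComplexConjugate Matrix ContDiff

noncomputable section

namespace Pool.Agent.MP_efb2da_gt

lemma nonV_G_le (d : Dat) : ‖GG d‖ ≤ ‖d‖ := (norm_fst_le d.2).trans (norm_snd_le d)

lemma nonV_m_le (d : Dat) (i : Fin 3) (z : ℂ) : ‖mv (mm d i) z‖ ≤ ‖d‖ :=
  (norm_mv_le _ _).trans ((norm_le_pi_norm (mm d) i).trans ((norm_snd_le d.2).trans (norm_snd_le d)))

lemma nonV_triple {A B C : MW} {N : ℝ} (hA : ‖A‖ ≤ N) (hB : ‖B‖ ≤ N) (hC : ‖C‖ ≤ 2 * N) :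
    ‖A * B * C‖ ≤ 2 * N ^ 3 ∧ ‖C * B * A‖ ≤ 2 * N ^ 3 := by
  have hN : 0 ≤ N := (norm_nonneg _).trans hA
  constructor
  · calc ‖A * B * C‖ ≤ ‖A‖ * ‖B‖ * ‖C‖ :=
        (norm_mul_le _ _).trans (mul_le_mul_of_nonneg_right (norm_mul_le _ _) (norm_nonneg _))
      _ ≤ N * N * (2 * N) := by gcongr
      _ = 2 * N ^ 3 := by ring
  · calc ‖C * B * A‖ ≤ ‖C‖ * ‖B‖ * ‖A‖ :=
        (norm_mul_le _ _).trans (mul_le_mul_of_nonneg_right (norm_mul_le _ _) (norm_nonneg _))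
      _ ≤ (2 * N) * N * N := by gcongr
      _ = 2 * N ^ 3 := by ring

lemma nonV_ratio {z : ℂ} {p r : ℝ} (hr : 0 < r) (hp : |p| ≤ 2) (h : r ≤ ‖z - p‖) :
    ‖z * (z - p)⁻¹‖ ≤ 1 + 2 / r := by
  have h0 : 0 < ‖z - p‖ := hr.trans_le h
  have hne : z - p ≠ 0 := norm_pos_iff.mp h0
  have e : z * (z - p)⁻¹ = 1 + p * (z - p)⁻¹ := by field_simp; ring
  rw [e]
  refine (norm_add_le _ _).trans ?_
  rw [norm_one, norm_mul, norm_inv, Complex.norm_real, Real.norm_eq_abs, ← div_eq_mul_inv]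
  gcongr

lemma nonV_corr (g : Geo) (d : Dat) (z : ℂ) {N r s : ℝ} (hd : ‖d‖ ≤ N) (hr : 0 < r)
    (h : r ≤ ‖z - 1‖) (hq : 0 < qq g) (hz1 : √(qq g) / 2 < ‖z‖) (hz2 : ‖z‖ < 2 / √(qq g))
    (he : ee g ^ 2 ≤ s) (hs : √(qq g) ≤ s) :
    ‖z • (h1 g d z + hinf g d z + h0 g d z)‖ ≤ ((1 + 2 / r) / r * N + 8 * N ^ 3) * s := by
  have hN : 0 ≤ N := (norm_nonneg _).trans hd
  have hsq : 0 < √(qq g) := Real.sqrt_pos.mpr hq
  have hz0 : 0 < ‖z‖ := lt_trans (by positivity) hz1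
  have hs0 : 0 ≤ s := hsq.le.trans hs
  have hG := (nonV_G_le d).trans hd
  have hG' : ‖adj (GG d)‖ ≤ 2 * N := (norm_adj_le _).trans (by linarith)
  have hqq : qq g = √(qq g) * √(qq g) := (Real.mul_self_sqrt hq.le).symm
  have a1 : ‖z • h1 g d z‖ ≤ (1 + 2 / r) / r * N * s := by
    have h0' : 0 < ‖z - 1‖ := hr.trans_le h
    have hne : z - 1 ≠ 0 := norm_pos_iff.mp h0'
    have hrat : ‖z * (z - 1)⁻¹‖ ≤ 1 + 2 / r := by
      have := nonV_ratio (z := z) (p := 1) hr (by norm_num) (by simpa using h)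
      simpa using this
    have e : z * ((ee g : ℂ) ^ 2 / (z - 1) ^ 2) = z * (z - 1)⁻¹ * (z - 1)⁻¹ * (ee g : ℂ) ^ 2 := by
      field_simp
    rw [h1, smul_neg, norm_neg, smul_smul, norm_smul, norm_sw, e, norm_mul, norm_mul, norm_inv,
      norm_pow, Complex.norm_real, Real.norm_eq_abs, sq_abs]
    have hm := (nonV_m_le d 1 ((ee g : ℂ) ^ 2 / (z - 1))).trans hd
    have hi : ‖z - 1‖⁻¹ ≤ r⁻¹ := inv_anti₀ hr h
    calc _ ≤ (1 + 2 / r) * r⁻¹ * s * N := by gcongr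
      _ = _ := by ring
  have a2 : ‖z • hinf g d z‖ ≤ 4 * N ^ 3 * s := by
    have hne : z ≠ 0 := norm_pos_iff.mp hz0
    have e : z * ((qq g : ℂ) / z ^ 2) = (qq g : ℂ) / z := by field_simp
    rw [hinf, smul_smul, norm_smul, e, norm_div, Complex.norm_real, Real.norm_of_nonneg hq.le]
    have hm := (nonV_m_le d 2 ((qq g : ℂ) / z)).trans hd
    have h3 := (nonV_triple hG hm hG').1
    have h4 : qq g / ‖z‖ ≤ 2 * s := by
      rw [div_le_iff₀ hz0]
      calc qq g = √(qq g) * √(qq g) := hqq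
        _ ≤ s * (2 * ‖z‖) := by gcongr; linarith
        _ = 2 * s * ‖z‖ := by ring
    calc _ ≤ (2 * s) * (2 * N ^ 3) := by gcongr
      _ = _ := by ring
  have a3 : ‖z • h0 g d z‖ ≤ 4 * N ^ 3 * s := by
    rw [h0, smul_smul, norm_smul, norm_mul, Complex.norm_real, Real.norm_of_nonneg hq.le]
    have hm := (nonV_m_le d 0 ((qq g : ℂ) * z)).trans hd
    have h3 := (nonV_triple hG hm hG').2
    have h4 : ‖z‖ * qq g ≤ 2 * s := by
      rw [lt_div_iff₀ hsq] at hz2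
      calc ‖z‖ * qq g = (‖z‖ * √(qq g)) * √(qq g) := by rw [mul_assoc, ← hqq]
        _ ≤ 2 * s := by gcongr
    calc _ ≤ (2 * s) * (2 * N ^ 3) := by gcongr
      _ = _ := by ring
  rw [smul_add, smul_add]
  calc _ ≤ ‖z • h1 g d z‖ + ‖z • hinf g d z‖ + ‖z • h0 g d z‖ := norm_add₃_le
    _ ≤ (1 + 2 / r) / r * N * s + 4 * N ^ 3 * s + 4 * N ^ 3 * s := by gcongr
    _ = _ := by ring

/-- the test functional -/
def nonV_f (c : MC) : MW →ₗ[ℂ] ℂ where
  toFun X := trC (c * cf (-1) X)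
  map_add' X Y := by rw [map_add, mul_add, map_add]
  map_smul' a X := by rw [map_smul, mul_smul_comm, map_smul]; rfl

lemma nonV_f_apply (c : MC) (X : MW) : nonV_f c X = trC (c * cf (-1) X) := rfl

lemma nonV_f_le (c : MC) (X : MW) : ‖nonV_f c X‖ ≤ 2 * ‖c‖ * ‖X‖ := by
  rw [nonV_f_apply]
  calc _ ≤ 2 * ‖c * cf (-1) X‖ := norm_trC_le _
    _ ≤ 2 * (‖c‖ * ‖cf (-1) X‖) := by gcongr; exact norm_mul_le _ _
    _ ≤ 2 * (‖c‖ * ‖X‖) := by gcongr; exact norm_cf_le _ _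
    _ = _ := by ring

lemma nonV_tr1 (a b : MC) : trC ((a * b - b * a) * a) = 0 := by
  simp only [trC_apply, Matrix.sub_apply, matApi2_mulC]; ring

lemma nonV_tr2 (a b : MC) : trC ((a * b - b * a) * b) = 0 := by
  simp only [trC_apply, Matrix.sub_apply, matApi2_mulC]; ring

lemma nonV_tr3 (a b c : MC) : trC ((a * b - b * a) * c) = -trC (b * (a * c - c * a)) := by
  simp only [trC_apply, Matrix.sub_apply, matApi2_mulC]; ring

lemma nonV_lim {As : Fin 5 → MW} (hL : LimProp As) : ∃ (c : MC) (a : ℝ), 0 < a ∧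
    nonV_f c (As 0) ≠ 0 ∧ ∀ j, j ≠ 0 → nonV_f c (As j) = 0 ∧ a ≤ ‖cf (-1) (As j)‖ := by
  have h1 : cf (-1) (As 1) ≠ 0 := fun h => hL.triple (by rw [h]; simp)
  have h2 : cf (-1) (As 2) ≠ 0 := fun h => hL.triple (by rw [h]; simp)
  refine ⟨cf (-1) (As 1) * cf (-1) (As 2) - cf (-1) (As 2) * cf (-1) (As 1),
    min ‖cf (-1) (As 1)‖ ‖cf (-1) (As 2)‖, lt_min (norm_pos_iff.mpr h1) (norm_pos_iff.mpr h2),
    ?_, fun j hj => ?_⟩
  · rw [nonV_f_apply, nonV_tr3]
    exact neg_ne_zero.mpr hL.triple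
  · fin_cases j
    · exact absurd rfl hj
    · exact ⟨nonV_tr1 _ _, min_le_left _ _⟩
    · exact ⟨nonV_tr2 _ _, min_le_right _ _⟩
    · refine ⟨?_, ?_⟩
      · show nonV_f _ (As 3) = 0
        rw [nonV_f_apply, hL.e3]; exact nonV_tr1 _ _
      · show _ ≤ ‖cf (-1) (As 3)‖
        rw [hL.e3]; exact min_le_left _ _
    · refine ⟨?_, ?_⟩
      · show nonV_f _ (As 4) = 0
        rw [nonV_f_apply, hL.e4]; exact nonV_tr2 _ _
      · show _ ≤ ‖cf (-1) (As 4)‖
        rw [hL.e4]; exact min_le_right _ _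

lemma nonV_small {K δ : ℝ} (hK : 0 ≤ K) (hδ : 0 < δ) : ∃ s > 0, s ≤ 1/8 ∧ K * s < δ := by
  refine ⟨min (1/8) (δ / (K + 1)), by positivity, min_le_left _ _, ?_⟩
  calc K * min (1/8) (δ / (K + 1)) ≤ K * (δ / (K + 1)) := by gcongr; exact min_le_right _ _
    _ < δ := by
      rw [← mul_div_assoc, div_lt_iff₀ (by positivity)]; nlinarith

lemma nonV_cf_le {A B : MW} {η : ℝ} (h : ‖A - B‖ ≤ η) : ‖cf (-1) B‖ ≤ ‖cf (-1) A‖ + η := by
  have e : cf (-1) B = cf (-1) A - cf (-1) (A - B) := by rw [map_sub]; abel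
  rw [e]
  exact (norm_sub_le _ _).trans (by gcongr; exact (norm_cf_le _ _).trans h)

lemma nonV_neck {g : Geo} {d : Dat} (hg : AdmG g) (hf : Fix g d) {z : ℂ} {N r : ℝ}
    (hd : ‖d‖ ≤ N) (hr : r ≤ 1/8) (h : ‖z - 1‖ ≤ r) (he : ee g / 2 < ‖z - 1‖)
    (h0 : cf (-1) (Xi g d z) = 0) : ‖cf (-1) (AA d 1)‖ ≤ (r + 2 * ee g) * N := by
  have hee : 0 < ee g := hg.2.1.1
  have hu : 0 < ‖z - 1‖ := lt_trans (by positivity) he
  have e := Th_eq hg hf (norm_pos_iff.mp hu) (h.trans hr)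
  rw [add_sub_cancel] at e
  have e2 : cf (-1) (Th g d (z - 1)) = 0 := by rw [e, map_smul, h0, smul_zero]
  have h1 := nonV_cf_le (est_Th g d (z - 1))
  rw [e2, norm_zero, zero_add] at h1
  refine h1.trans ?_
  have h2 : ee g ^ 2 / ‖z - 1‖ ≤ 2 * ee g := by
    rw [div_le_iff₀ hu]; nlinarith
  have : 0 ≤ r := hu.le.trans h
  gcongr

lemma nonV_cap {g : Geo} {d : Dat} {z : ℂ} {C r : ℝ} (j : Fin 5) (hz : z ≠ pos (pp g) j)
    (h : ‖z - pos (pp g) j‖ ≤ r) (hC : ‖reg g d j z‖ ≤ C)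
    (h0 : cf (-1) (Xi g d z) = 0) : ‖cf (-1) (AA d j)‖ ≤ r * C := by
  have hne : z - pos (pp g) j ≠ 0 := sub_ne_zero.mpr hz
  rw [Xi_eq_reg j z, map_add, map_smul] at h0
  have e : cf (-1) (AA d j) = -((z - pos (pp g) j) • cf (-1) (reg g d j z)) := by
    have := congrArg (fun X => (z - pos (pp g) j) • X) h0
    simp only [smul_add, smul_smul, mul_inv_cancel₀ hne, one_smul, smul_zero] at this
    exact eq_neg_of_add_eq_zero_left this
  rw [e, norm_neg, norm_smul]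
  have : 0 ≤ r := (norm_nonneg _).trans h
  gcongr
  exact (norm_cf_le _ _).trans hC

lemma nonV_bulk {g : Geo} {d : Dat} {As : Fin 5 → MW} {c : MC} (hg : AdmG g) {z : ℂ}
    {r η E : ℝ} (hr : 0 < r) (hz : z ≠ 0) (h : ∀ j, j ≠ 0 → r ≤ ‖z - pos (pp g) j‖)
    (hA : ∀ j, j ≠ 0 → nonV_f c (As j) = 0) (hc : ∀ j, ‖AA d j - As j‖ ≤ η)
    (hE : ‖z • (h1 g d z + hinf g d z + h0 g d z)‖ ≤ E)
    (h0' : cf (-1) (Xi g d z) = 0) :
    ‖nonV_f c (As 0)‖ ≤ 2 * ‖c‖ * (5 * ((1 + 2 / r) * η) + E) := by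
  have hη : 0 ≤ η := (norm_nonneg _).trans (hc 0)
  have hp0 : pos (pp g) 0 = 0 := rfl
  have hrat : ∀ j, ‖z * (z - pos (pp g) j)⁻¹‖ ≤ 1 + 2 / r := by
    intro j
    by_cases hj : j = 0
    · rw [hj, hp0, Complex.ofReal_zero, sub_zero, mul_inv_cancel₀ hz, norm_one]
      have : 0 ≤ 2 / r := by positivity
      linarith
    · exact nonV_ratio hr ((abs_pos_le hg.2.2.2 j).trans (by norm_num)) (h j hj)
  have e1 : z • Xi g d z = ∑ j, (z * (z - pos (pp g) j)⁻¹) • AA d j +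
      z • (h1 g d z + hinf g d z + h0 g d z) := by
    rw [Xi, rat, add_assoc, add_assoc, ← add_assoc (h1 g d z), smul_add, Finset.smul_sum]
    simp only [smul_smul]
  have e2 : nonV_f c (z • Xi g d z) = 0 := by
    rw [map_smul, nonV_f_apply, h0', mul_zero, map_zero, smul_zero]
  have e3 : nonV_f c (∑ j, (z * (z - pos (pp g) j)⁻¹) • As j) = nonV_f c (As 0) := by
    rw [map_sum, Finset.sum_eq_single 0]
    · rw [hp0, Complex.ofReal_zero, sub_zero, mul_inv_cancel₀ hz, one_smul]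
    · intro j _ hj
      rw [map_smul, hA j hj, smul_zero]
    · intro hh; exact absurd (Finset.mem_univ _) hh
  have e4 : nonV_f c (As 0) = -nonV_f c (∑ j, (z * (z - pos (pp g) j)⁻¹) • (AA d j - As j) +
      z • (h1 g d z + hinf g d z + h0 g d z)) := by
    rw [e1] at e2
    rw [← e3, eq_neg_iff_add_eq_zero, ← map_add, ← e2, ← add_assoc, ← Finset.sum_add_distrib]
    congr 2
    refine Finset.sum_congr rfl fun j _ => ?_
    rw [← smul_add, add_sub_cancel]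
  rw [e4, norm_neg]
  refine (nonV_f_le _ _).trans ?_
  gcongr
  refine (norm_add_le _ _).trans (add_le_add ?_ hE)
  refine (norm_sum_le _ _).trans ?_
  calc ∑ j, ‖(z * (z - pos (pp g) j)⁻¹) • (AA d j - As j)‖ ≤ ∑ _j : Fin 5, (1 + 2 / r) * η := by
        refine Finset.sum_le_sum fun j _ => ?_
        rw [norm_smul]
        have := hrat j
        have := hc j
        gcongr
    _ = 5 * ((1 + 2 / r) * η) := by simp

theorem sol_ne {As : Fin 5 → MW} (hL : LimProp As) (N : ℝ) : ∃ η₀ > 0, ∀ (η : ℝ) (S : Sol η N As),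
    η ≤ η₀ → ∀ z : ℂ, √(qq S.g) / 2 < ‖z‖ → ‖z‖ < 2 / √(qq S.g) → ee S.g / 2 < ‖z - 1‖ →
      (∀ j, z ≠ pp S.g j) → cf (-1) (Xi S.g S.d z) ≠ 0 := by
  obtain ⟨c, a, ha, hf0, hfj⟩ := nonV_lim hL
  obtain ⟨C, hC⟩ := est_reg N
  obtain ⟨r, hr0, hr8, hr⟩ := nonV_small (K := |N| + |C|) (δ := a / 2) (by positivity)
    (by positivity)
  obtain ⟨s1, hs10, -, hs1⟩ := nonV_small (K := 1 + 2 * |N|) (δ := a / 2) (by positivity)
    (by positivity)
  obtain ⟨s2, hs20, hs28, hs2⟩ := nonV_small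
    (K := 2 * ‖c‖ * (5 * (1 + 2 / r) + ((1 + 2 / r) / r * |N| + 8 * |N| ^ 3)))
    (δ := ‖nonV_f c (As 0)‖) (by positivity) (norm_pos_iff.mpr hf0)
  refine ⟨min s1 (s2 ^ 2), by positivity, fun η S hη z hz1 hz2 hz3 hz4 h0' => ?_⟩
  have hη1 : η ≤ s1 := hη.trans (min_le_left _ _)
  have hη2 : η ≤ s2 ^ 2 := hη.trans (min_le_right _ _)
  have hη3 : η ≤ s2 := hη2.trans (by nlinarith)
  have hg := S.adm
  have hee : 0 < ee S.g := hg.2.1.1
  have hqq : 0 < qq S.g := hg.2.2.1.1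
  have hη0 : 0 ≤ η := hee.le.trans S.e_le
  have hN : |N| = N := abs_of_nonneg ((norm_nonneg _).trans S.bd)
  have hN0 : 0 ≤ N := (norm_nonneg _).trans S.bd
  rw [hN] at hr hs1 hs2
  have hCa : C ≤ |C| := le_abs_self C
  have hC0 : 0 ≤ |C| := abs_nonneg C
  by_cases c1 : ‖z - 1‖ ≤ r
  · have k1 := nonV_neck hg S.fix S.bd hr8 c1 hz3 h0'
    have k2 := nonV_cf_le (S.close 1)
    have k3 := (hfj 1 (by decide)).2
    have k4 : (r + 2 * ee S.g) * N ≤ (r + 2 * s1) * N := by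
      have := S.e_le.trans hη1
      gcongr
    nlinarith [mul_nonneg hr0.le hC0]
  by_cases c2 : ∃ j, ‖z - pp S.g j‖ ≤ r
  · obtain ⟨j, hj⟩ := c2
    have k0 := (hC S.g S.d j z hg S.bd (hj.trans hr8)).1.trans hCa
    have k1 := nonV_cap (cj5 j) (by rw [pos_cj5]; exact hz4 j) (by simpa only [pos_cj5] using hj) k0 h0'
    have k2 := nonV_cf_le (S.close (cj5 j))
    have k3 := (hfj (cj5 j) (by fin_cases j <;> decide)).2
    nlinarith [mul_nonneg hr0.le hN0, mul_nonneg hs10.le hN0]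
  push Not at c1 c2
  have hz0 : z ≠ 0 := norm_pos_iff.mp (lt_of_le_of_lt (by positivity) hz1)
  have hsep : ∀ j, j ≠ 0 → r ≤ ‖z - pos (pp S.g) j‖ := by
    intro j hj
    fin_cases j
    · exact absurd rfl hj
    · have : ((pos (pp S.g) 1 : ℝ) : ℂ) = 1 := by simp [pos]
      show r ≤ ‖z - pos (pp S.g) 1‖
      rw [this]; exact c1.le
    · exact (c2 0).le
    · exact (c2 1).le
    · exact (c2 2).le
  have he2 : ee S.g ^ 2 ≤ s2 := by
    have h1 := S.e_le.trans hη3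
    have h2 := hg.2.1.2
    nlinarith
  have hq2 : √(qq S.g) ≤ s2 := by
    rw [Real.sqrt_le_left hs20.le]; exact S.q_le.trans hη2
  have k1 := nonV_corr S.g S.d z S.bd hr0 c1.le hqq hz1 hz2 he2 hq2
  have k2 := nonV_bulk hg hr0 hz0 hsep (fun j hj => (hfj j hj).1) S.close k1 h0'
  refine absurd (k2.trans ?_) (not_le.mpr hs2)
  calc _ ≤ 2 * ‖c‖ * (5 * ((1 + 2 / r) * s2) + ((1 + 2 / r) / r * N + 8 * N ^ 3) * s2) := by
        gcongr
    _ = _ := by ring

end Pool.Agent.MP_efb2da_gt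

end
end

section

open Set Complex
open scoped Topology ComplexConjugate Matrix ContDiff

noncomputable section

namespace Pool.Agent.MP_efb2da_gt

/-- the potential along a small circle around a cap puncture, regular as the radius tends to `0` -/
def Fr3F (g : Geo) (d : Dat) (j : Fin 3) (ρ s : ℝ) : MW :=
  (2 * Real.pi * I * tt g : ℂ) • (AA d (cj5 j) + ((ρ : ℂ) * exp (2 * Real.pi * I * s)) •
    reg g d (cj5 j) (pp g j + ρ * exp (2 * Real.pi * I * s)))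

lemma Fr3_norm (ρ s : ℝ) : ‖(ρ : ℂ) * exp (2 * Real.pi * I * s)‖ = |ρ| := by
  have e : (2 * Real.pi * I * s : ℂ) = ((2 * Real.pi * s : ℝ) : ℂ) * I := by push_cast; ring
  rw [norm_mul, e, norm_exp_ofReal_mul_I, mul_one, norm_real, Real.norm_eq_abs]

lemma Fr3F_eq (g : Geo) (d : Dat) (j : Fin 3) {ρ : ℝ} (h : ρ ≠ 0) :
    Fr3F g d j ρ = aC g d (pp g j) ρ := by
  funext s
  have hu : (ρ : ℂ) ≠ 0 := by exact_mod_cast h
  have hv := exp_ne_zero (2 * Real.pi * I * s)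
  unfold Fr3F aC
  rw [Xi_eq_reg (cj5 j), pos_cj5, add_sub_cancel_left, smul_add, smul_add, smul_smul, smul_smul]
  congr 2
  · field_simp
  · ring

lemma Fr3F_zero (g : Geo) (d : Dat) (j : Fin 3) :
    Fr3F g d j 0 = fun _ => (2 * Real.pi * I * tt g : ℂ) • AA d (cj5 j) := by
  funext s
  simp [Fr3F]

lemma Fr3F_cont {g : Geo} {d : Dat} (hg : AdmG g) (hd : Str d) (j : Fin 3) :
    ContinuousOn (fun x : ℝ × ℝ => Fr3F g d j x.1 x.2) (Icc 0 (1/16) ×ˢ Icc 0 1) := by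
  have h1 : Continuous fun x : ℝ × ℝ => (x.1 : ℂ) * exp (2 * Real.pi * I * x.2) := by fun_prop
  have h2 : ContinuousOn (fun x : ℝ × ℝ =>
      reg g d (cj5 j) (pp g j + x.1 * exp (2 * Real.pi * I * x.2))) (Icc 0 (1/16) ×ˢ Icc 0 1) := by
    refine (reg_differentiableOn hg hd j).continuousOn.comp
      (continuous_const.add h1).continuousOn fun x hx => ?_
    rw [mem_ball_iff_norm, add_sub_cancel_left, Fr3_norm, abs_of_nonneg hx.1.1]
    linarith [hx.1.2]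
  exact (continuousOn_const.add (h1.continuousOn.smul h2)).const_smul
    (2 * Real.pi * I * tt g : ℂ)

lemma Fr3_tr_circle {η N : ℝ} {As : Fin 5 → MW} {S : Sol η N As} {Ω : Set ℂ} {Φ : ℂ → MW}
    {R5 : MW} (hF : Frame S.g S.d Ω Φ) (h : Arcs S Φ R5) (j : Fin 3) {ρ : ℝ} (h0 : 0 < ρ)
    (h1 : ρ < 1/8) : trW (Hol (aC S.g S.d (pp S.g j) ρ) 1) =
      trW (Rl S.g S.d j * adj (Rr S.g S.d R5 j)) := by
  have hc : ∀ r : ℝ, ((pp S.g j : ℂ) + ρ * exp (2 * Real.pi * I * r)) ∈ Dom S.g := fun r => by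
    refine ball_subset_Dom S.adm j ?_ fun e => ?_
    · rw [add_sub_cancel_left, Fr3_norm, abs_of_pos h0]
      exact h1
    · have := Fr3_norm ρ r
      rw [add_eq_left.1 e, norm_zero, abs_of_pos h0] at this
      exact h0.ne this
  have hm : (((pp S.g j + ρ : ℝ)) : ℂ) ∈ Ω := by
    refine hF.up _ ?_ (ofReal_im _).ge
    simpa using hc 0
  obtain ⟨e1, e2⟩ := h.val_cap j h0 h1
  have e3 := (hF.circle S.adm S.str h0 hc).2
  rw [e1, e2] at e3
  rw [e3, mul_assoc, mul_adj_of_det (h.cl_Rr j).1.det, mul_one, trW_conj, hF.det _ hm, one_mul]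

lemma Fr3_tr {η N : ℝ} {As : Fin 5 → MW} {S : Sol η N As} {Ω : Set ℂ} {Φ : ℂ → MW}
    {R5 : MW} (hF : Frame S.g S.d Ω Φ) (h : Arcs S Φ R5) (j : Fin 3) :
    trW (Rl S.g S.d j * adj (Rr S.g S.d R5 j)) =
      trW (Hol (fun _ => (2 * Real.pi * I * tt S.g : ℂ) • AA S.d (cj5 j)) 1) := by
  have h1 : ContinuousOn (fun ρ => trW (Hol (Fr3F S.g S.d j ρ) 1)) (Icc 0 (1/16)) :=
    trW.continuous.comp_continuousOn
      (continuousOn_Hol (Fr3F_cont S.adm S.str j) (right_mem_Icc.2 zero_le_one))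
  have h2 : EqOn (fun ρ => trW (Hol (Fr3F S.g S.d j ρ) 1))
      (fun _ => trW (Rl S.g S.d j * adj (Rr S.g S.d R5 j))) (Ioc 0 (1/16)) := fun ρ hρ => by
    simp only
    rw [Fr3F_eq _ _ _ hρ.1.ne', Fr3_tr_circle hF h j hρ.1 (by linarith [hρ.2])]
  have h3 := h2.of_subset_closure h1 continuousOn_const Ioc_subset_Icc_self
    (by rw [closure_Ioc (by norm_num)]) (left_mem_Icc.2 (by norm_num))
  simp only at h3
  rw [← h3, Fr3F_zero]

theorem Arcs.det_cap {η N : ℝ} {As : Fin 5 → MW} {S : Sol η N As} {Ω : Set ℂ} {Φ : ℂ → MW} {R5 : MW}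
    (hF : Frame S.g S.d Ω Φ) (h : Arcs S Φ R5) (hη : η * N ≤ 1/4) (j : Fin 3) :
    (AA S.d (cj5 j)).det = algebraMap ℂ W (-1/4) := by
  have ht : 0 < tt S.g := S.adm.1.1
  have ht' : tt S.g < 1/2 := by
    have hk : (3 : ℝ) ≤ S.k := by exact_mod_cast S.hk
    rw [S.ht]
    exact one_div_lt_one_div_of_lt two_pos (by linarith)
  have key : ∀ i : Fin 3, (W.coef (-1) (AA S.d (cj5 i)).det = 0 →
      (AA S.d (cj5 i)).det = algebraMap ℂ W (-1/4) ∧
        phi S.x (Rl S.g S.d i * adj (Rr S.g S.d R5 i)) = 0) ∧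
      (phi S.x (Rl S.g S.d i * adj (Rr S.g S.d R5 i)) = 0 →
        (AA S.d (cj5 i)).det = algebraMap ℂ W (-1/4)) := fun i => by
    refine det_of_trace ht ht' ?_ (h.cl_Rr i).2 (S.str.trA _) (S.str.geA _) (S.str.realA _)
      (S.nil i) ?_ (Fr3_tr hF h i)
    · fin_cases i <;> simp [sg]
    · have h1 : ‖AA S.d (cj5 i)‖ ≤ N :=
        ((norm_le_pi_norm _ _).trans (norm_fst_le S.d)).trans S.bd
      exact (mul_le_mul S.t_le h1 (norm_nonneg _) (ht.le.trans S.t_le)).trans hη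
  obtain ⟨a0, b0⟩ := (key 0).1 S.fl0
  obtain ⟨a1, b1⟩ := (key 1).1 S.fl1
  change phi S.x (RR S.g S.d 0 * adj (R1 S.g S.d)) = 0 at b0
  change phi S.x (RR S.g S.d 2 * adj (RR S.g S.d 1)) = 0 at b1
  rw [S.c2.phi_mul S.c1.adj, S.c1.phi_adj, S.phi1] at b0
  rw [S.c4.phi_mul S.c3.adj, S.c3.phi_adj] at b1
  have a2 : (AA S.d (cj5 2)).det = algebraMap ℂ W (-1/4) := by
    refine (key 2).2 ?_
    change phi S.x (RR S.g S.d 1 * adj R5) = 0
    rw [S.c3.phi_mul h.c5.adj, h.c5.phi_adj, h.phi5]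
    linear_combination -b0 - b1
  fin_cases j
  exacts [a0, a1, a2]

lemma Fr3_capDet_cont (Y : Fin 2 → W) : Continuous fun A : MW => capDet A Y := by
  have h : ∀ i j, Continuous fun A : MW => A i j := fun i j => (entW i j).continuous
  simp only [capDet, Matrix.mulVec, dotProduct, Fin.sum_univ_two, Matrix.add_apply]
  exact continuous_const.mul
    (((((continuous_const.add (h 0 0)).mul continuous_const).add
      ((continuous_const.add (h 0 1)).mul continuous_const)).mul continuous_const).sub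
    ((((continuous_const.add (h 1 0)).mul continuous_const).add
      ((continuous_const.add (h 1 1)).mul continuous_const)).mul continuous_const))

theorem exists_cap_gauge {As : Fin 5 → MW} (hL : LimProp As) (N : ℝ) : ∃ η₀ > 0,
    ∀ (η : ℝ) (S : Sol η N As), η ≤ η₀ → ∀ j : Fin 3,
      (AA S.d (cj5 j)).det = algebraMap ℂ W (-1/4) →
      ∃ (P : MW) (φ : W), MGE 0 P ∧ P.det = 1 ∧ sharp P = P ∧ W.GE (-1) φ ∧ W.cj φ = φ ∧
        W.coef (-1) φ ≠ 0 ∧
        adj P * AA S.d (cj5 j) * P = !![algebraMap ℂ W (1/2), φ; 0, algebraMap ℂ W (-1/2)] := by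
  choose Y c hc hY hYr he using hL.cap
  have key : ∀ j : Fin 3, ∃ δ > 0, ∀ A : MW, dist A (As (cj5 j)) < δ →
      dist (capDet A (Y j)) (capDet (As (cj5 j)) (Y j)) < ‖c j‖ := fun j =>
    Metric.continuous_iff.1 (Fr3_capDet_cont (Y j)) _ _ (norm_pos_iff.2 (hc j))
  choose δ hδ hd using key
  refine ⟨min (δ 0) (min (δ 1) (δ 2)) / 2, half_pos (lt_min (hδ 0) (lt_min (hδ 1) (hδ 2))),
    fun η S hη j hdet => ?_⟩
  refine cap_gauge (S.str.trA _) (S.str.geA _) (S.str.realA _) hdet (hY j) (hYr j) (c := c j) ?_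
  rw [← he j, ← dist_eq_norm]
  refine hd j _ ?_
  rw [dist_eq_norm]
  have h1 : min (δ 0) (min (δ 1) (δ 2)) ≤ δ j := by
    fin_cases j
    · exact min_le_left _ _
    · exact (min_le_right _ _).trans (min_le_left _ _)
    · exact (min_le_right _ _).trans (min_le_right _ _)
  linarith [S.close (cj5 j), hδ j]

end Pool.Agent.MP_efb2da_gt

end
end

section

open Set Complex
open scoped Topology ComplexConjugate Matrix ContDiff

noncomputable section

namespace Pool.Agent.MP_efb2da_gt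

lemma Neck2_log {g : Geo} (hg : AdmG g) : 0 < La1 g ∧ La1 g < Real.log (1 / (8 * ee g)) := by
  obtain ⟨-, ⟨h1, h2⟩, -⟩ := hg
  refine ⟨Real.log_pos ?_, Real.log_lt_log (by positivity) ?_⟩
  · rw [lt_div_iff₀ (by positivity)]
    linarith
  · exact one_div_lt_one_div_of_lt (by positivity) (by linarith)

lemma Neck2_strip {g : Geo} (hg : AdmG g) (θ : ℝ) : (θ : ℂ) * I ∈ Strip g := by
  have := Neck2_log hg
  show |((θ : ℂ) * I).re| < _
  simpa using this.1.trans this.2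

lemma Neck2_La1 {g : Geo} (hg : AdmG g) : (La1 g : ℂ) ∈ Strip g := by
  have := Neck2_log hg
  show |(La1 g : ℂ).re| < _
  rw [ofReal_re, abs_of_pos this.1]
  exact this.2

lemma Neck2_path {E : Type} [NormedAddCommGroup E] [NormedSpace ℝ E] {F : ℂ → E} (c s : ℝ)
    (hF : ContDiffAt ℝ ∞ F (((c * s : ℝ) : ℂ) * I)) :
    HasDerivAt (fun s : ℝ => F (((c * s : ℝ) : ℂ) * I))
      (c • fderiv ℝ F (((c * s : ℝ) : ℂ) * I) I) s := by
  have h1 : HasDerivAt (fun s : ℝ => ((c * s : ℝ) : ℂ) * I) (c • I) s := by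
    have := (((hasDerivAt_id s).const_mul c).ofReal_comp).mul_const I
    simpa using this
  have := (hF.differentiableAt (by simp)).hasFDerivAt.comp_hasDerivAt s h1
  rwa [map_smul] at this

lemma Neck2_ent {A : ℝ → MC} {D : MC} {s : ℝ} (h : HasDerivAt A D s) (i j : Fin 2) :
    HasDerivAt (fun s => A s i j) (D i j) s :=
  ((entC i j).restrictScalars ℝ).hasFDerivAt.comp_hasDerivAt s h

lemma Neck2_re {A : ℝ → ℂ} {D : ℂ} {s : ℝ} (h : HasDerivAt A D s) :
    HasDerivAt (fun s => (A s).re) D.re s := reCLM.hasFDerivAt.comp_hasDerivAt s h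

lemma Neck2_im {A : ℝ → ℂ} {D : ℂ} {s : ℝ} (h : HasDerivAt A D s) :
    HasDerivAt (fun s => (A s).im) D.im s := imCLM.hasFDerivAt.comp_hasDerivAt s h

lemma Neck2_conj {A : ℝ → ℂ} {D : ℂ} {s : ℝ} (h : HasDerivAt A D s) :
    HasDerivAt (fun s => conj (A s)) (conj D) s :=
  (conjCLE : ℂ →L[ℝ] ℂ).hasFDerivAt.comp_hasDerivAt s h

lemma Neck2_flux_alg {f a : MC} {x c : ℝ} (f1 : ct f = f) (f2 : trC f = 0) (f3 : (f 0 0).re = 0)
    (a1 : (a 0 0).im = 0) (a2 : a 1 0 = -conj (a 0 1)) (a3 : a 1 1 = -a 0 0) :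
    (trC (s3 * (c • ((2:ℂ) • (f * -(I • a + conj I • ct a)) + (I • a - conj I • ct a)) -
      (2 * x : ℂ) • (s1 * c • -(I • a + conj I • ct a))))).im =
      4 * (conj (conj (f 0 1) - x) * (c * (2 * I * conj (a 0 1)))).im -
        2 * (-c * (2 * (a 0 0).re)) := by
  have e1 : f 1 0 = conj (f 0 1) := by rw [← ct_apply, f1]
  have e2 : f 0 0 = 0 := by
    have : conj (f 0 0) = f 0 0 := by rw [← ct_apply, f1]
    exact Complex.ext f3 (conj_eq_iff_im.1 this)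
  have e3 : f 1 1 = 0 := by simpa [trC_apply, e2] using f2
  simp only [trC_apply, matApi2_mulC, Matrix.sub_apply, Matrix.add_apply, Matrix.smul_apply,
    Matrix.neg_apply, ct_apply, e1, e2, e3, a2, a3]
  simp [s3, s1, a1]
  ring

lemma Neck2_ode_alg {a D az : MC} {c : ℝ} (hc : c ≠ 0) (a1 : (a 0 0).im = 0)
    (a2 : a 1 0 = -conj (a 0 1)) (a3 : a 1 1 = -a 0 0) (hp : (a 0 0).re ≠ 0)
    (d1 : (D 0 0).im = 0) (d2 : D 1 0 = -conj (D 0 1)) (d3 : D 1 1 = -D 0 0)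
    (hD : D = I • az + conj I • (a * ct a - ct a * a))
    (ode : (c : ℂ) * (2 * I * conj (c * D 0 1)) =
      (((-c * (2 * (c * (D 0 0).re))) / (-c * (2 * (a 0 0).re)) : ℝ) +
        2 * I * ((-c * (2 * (a 0 0).re) : ℝ) : ℂ)) * (c * (2 * I * conj (a 0 1)))) :
    az * a - a * az = 0 := by
  obtain ⟨p, hp'⟩ : ∃ p : ℝ, a 0 0 = p := ⟨(a 0 0).re, Complex.ext rfl a1⟩
  obtain ⟨r, hr⟩ : ∃ r : ℝ, D 0 0 = r := ⟨(D 0 0).re, Complex.ext rfl d1⟩
  rw [hp', ofReal_re] at hp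
  have hp0 : (p : ℂ) ≠ 0 := by exact_mod_cast hp
  have hc0 : (c : ℂ) ≠ 0 := by exact_mod_cast hc
  have e1 : conj (D 0 1) = (r / p - 4 * I * p) * conj (a 0 1) := by
    rw [hp', hr, ofReal_re, ofReal_re, map_mul, conj_ofReal] at ode
    push_cast at ode
    refine mul_left_cancel₀ (mul_ne_zero (mul_ne_zero hc0 hc0) (mul_ne_zero two_ne_zero I_ne_zero))
      ?_
    field_simp at ode ⊢
    linear_combination ode
  have e2 : D 0 1 = (r / p + 4 * I * p) * a 0 1 := by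
    have := congrArg conj e1
    simpa [map_ofNat] using this
  have e3 : az = (-I) • D + (a * ct a - ct a * a) := by
    rw [hD, smul_add, smul_smul, smul_smul, conj_I]
    simp only [neg_mul, mul_neg, I_mul_I, neg_neg, one_smul, neg_smul]
    abel
  have e4 : az = (-I * (r / p)) • a := by
    rw [e3]
    ext i j
    fin_cases i <;> fin_cases j <;> simp [matApi2_mulC, a2, a3, d2, d3, hp', hr, e1]
    · field_simp
    · rw [e2]
      linear_combination (-4 * p * a 0 1) * I_mul_I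
    · linear_combination (-4 * p * conj (a 0 1)) * I_mul_I
    · field_simp
  rw [e4, smul_mul_assoc, mul_smul_comm, sub_self]

lemma Neck2_hopf {O : Set ℂ} {ξ : ℂ → MW} (hO : IsOpen O) (h : DifferentiableOn ℂ ξ O) :
    DifferentiableOn ℂ (hopf ξ) O := by
  have h1 : DifferentiableOn ℂ (fun z => cf (-1) (deriv ξ z)) O :=
    (cf (-1)).differentiable.comp_differentiableOn (h.deriv hO)
  have h2 : DifferentiableOn ℂ (fun z => cf (-1) (ξ z)) O :=
    (cf (-1)).differentiable.comp_differentiableOn h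
  have h3 : DifferentiableOn ℂ (fun z => cf 0 (ξ z)) O :=
    (cf 0).differentiable.comp_differentiableOn h
  have h4 := h1.add ((h3.mul h2).sub (h2.mul h3))
  exact (h4.mul h2).sub (h2.mul h4)

variable {η N : ℝ} {As : Fin 5 → MW} {S : Sol η N As} {Ψ : ℂ → MW}

lemma Neck2_rot (h : Neck S.g S.d Ψ) (θ : ℝ) (n : ℕ) :
    Ψ (((θ + 2 * Real.pi * (n + 1 : ℕ) : ℝ) : ℂ) * I) =
      R1 S.g S.d * Ψ (((θ + 2 * Real.pi * n : ℝ) : ℂ) * I) := by
  rw [← h.rot _ (Neck2_strip S.adm _)]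
  congr 1
  push_cast
  ring

theorem Neck.periodic (h : Neck S.g S.d Ψ) : Function.Periodic (Gam S.k S.x Ψ) 1 := by
  intro s
  have key : ∀ (θ : ℝ) (n : ℕ), hz (pt S.x (Ψ (((θ + 2 * Real.pi * n : ℝ) : ℂ) * I))) =
      exp (2 * Real.pi * I * tt S.g * (1 : ℤ)) ^ n * hz (pt S.x (Ψ (θ * I))) := by
    intro θ n
    induction n with
    | zero => simp
    | succ n ih =>
      rw [Neck2_rot h, ← mul_one (R1 S.g S.d * _),
        S.c1.pt_mul (h.fr.det _ (Neck2_strip S.adm _)) MGE_one Matrix.det_one, hz_Rot, ih]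
      ring
  have hk : (S.k : ℂ) ≠ 0 := by
    have := S.hk
    exact_mod_cast (by omega : S.k ≠ 0)
  have e : exp (2 * Real.pi * I * tt S.g * (1 : ℤ)) ^ S.k = 1 := by
    rw [← exp_nat_mul, S.ht, ← exp_two_pi_mul_I]
    congr 1
    push_cast
    field_simp
  have := key (2 * Real.pi * S.k * s) S.k
  rw [e, one_mul] at this
  rw [Gam, Gam, ← this, mul_add, mul_one]

theorem Neck.flux (h : Neck S.g S.d Ψ) :
    ∫ s in (0:ℝ)..1, nuB S.k Ψ (xiN S.g S.d) s =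
      2 * ∫ s in (0:ℝ)..1, (conj (Gam S.k S.x Ψ s) * deriv (Gam S.k S.x Ψ) s).im := by
  have key : ∀ n : ℕ, flx S.x (Ψ (((0 + 2 * Real.pi * n : ℝ) : ℂ) * I)) =
      flx S.x (Ψ (((0 : ℝ) : ℂ) * I)) := by
    intro n
    induction n with
    | zero => simp
    | succ n ih =>
      rw [Neck2_rot h, S.c1.flx_mul (h.fr.det _ (Neck2_strip S.adm _)), S.phi1, add_zero, ih]
  have hd : ∀ s : ℝ, HasDerivAt
      (fun s : ℝ => (flx S.x (Ψ (((2 * Real.pi * S.k * s : ℝ) : ℂ) * I))).im)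
      (4 * (conj (Gam S.k S.x Ψ s) * deriv (Gam S.k S.x Ψ) s).im -
        2 * nuB S.k Ψ (xiN S.g S.d) s) s := fun s => by
    have hz := Neck2_strip S.adm (2 * Real.pi * S.k * s)
    have h1 := Neck2_path (F := fun z => J2 (Uf (Ψ z))) _ s
      ((J2.restrictScalars ℝ).contDiff.contDiffAt.comp _ (h.fr.contDiffAt_U hz))
    have h2 := Neck2_path _ s (h.fr.contDiffAt_sym hz)
    rw [h.fr.fderiv_J2 hz] at h1
    rw [h.fr.fderiv_sym hz] at h2
    have h3 := Neck2_im ((trC.restrictScalars ℝ).hasFDerivAt.comp_hasDerivAt s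
      ((h1.sub ((h2.const_mul s1).const_smul (2 * S.x : ℂ))).const_mul s3))
    obtain ⟨a1, a2, a3, -⟩ := h.a_bd S.adm (2 * Real.pi * S.k * s)
    have f3 : (symM (Ψ (((2 * Real.pi * S.k * s : ℝ) : ℂ) * I)) 0 0).re = 0 := by
      simpa [pt, vec, mk3] using h.planar (x := S.x) S.adm (2 * Real.pi * S.k * s)
    have e := Neck2_flux_alg (x := S.x) (c := 2 * Real.pi * S.k) (symM_herm (h.fr.det _ hz))
      (symM_tr (h.fr.det _ hz)) f3 a1 a2 a3
    have eG : Gam S.k S.x Ψ s =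
        conj (symM (Ψ (((2 * Real.pi * S.k * s : ℝ) : ℂ) * I)) 0 1) - S.x := by
      apply Complex.ext <;> simp [Gam, pt, vec, mk3, Pool.Agent.MP_efb2da_gt.hz]
    refine HasDerivAt.congr_deriv h3 (e.trans ?_)
    rw [h.deriv_Gam S.adm, eG, nuB]
    push_cast
    rfl
  have c1 : Continuous fun s => (conj (Gam S.k S.x Ψ s) * deriv (Gam S.k S.x Ψ) s).im :=
    continuous_im.comp ((continuous_conj.comp (h.contDiff_Gam S.adm S.k).continuous).mul
      ((h.contDiff_Gam S.adm S.k).continuous_deriv (by simp)))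
  have c2 := (h.differentiable_nu S.adm S.k).continuous
  have := intervalIntegral.integral_eq_sub_of_hasDerivAt (a := 0) (b := 1) (fun s _ => hd s)
    (((c1.const_mul 4).sub (c2.const_mul 2)).intervalIntegrable _ _)
  rw [intervalIntegral.integral_sub ((c1.const_mul 4).intervalIntegrable _ _)
    ((c2.const_mul 2).intervalIntegrable _ _), intervalIntegral.integral_const_mul,
    intervalIntegral.integral_const_mul, mul_one, mul_zero, ← key S.k, zero_add, sub_self] at this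
  linarith

theorem Neck.noncirc (h : Neck S.g S.d Ψ) (hN : Nil S.g S.d)
    (hH : hopf (xiN S.g S.d) (La1 S.g) ≠ 0) :
    ¬ ∀ s, deriv (deriv (Gam S.k S.x Ψ)) s =
      ((deriv (nuB S.k Ψ (xiN S.g S.d)) s / nuB S.k Ψ (xiN S.g S.d) s : ℝ) +
        2 * I * nuB S.k Ψ (xiN S.g S.d) s) * deriv (Gam S.k S.x Ψ) s := by
  intro ode
  have hc : (2 * Real.pi * S.k : ℝ) ≠ 0 := by
    have : (0 : ℝ) < S.k := by exact_mod_cast (by have := S.hk; omega : 0 < S.k)
    positivity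
  have key : ∀ s : ℝ, hopf (xiN S.g S.d) (((2 * Real.pi * S.k * s : ℝ) : ℂ) * I) = 0 := fun s => by
    have hz := Neck2_strip S.adm (2 * Real.pi * S.k * s)
    obtain ⟨az, h1, h2⟩ := h.fr.fderiv_a hz
    obtain ⟨b1, b2⟩ := h.fr.B0_mul hz
    obtain ⟨a1, a2, a3, a4⟩ := h.a_bd S.adm (2 * Real.pi * S.k * s)
    have hA := Neck2_path _ s (h.fr.contDiffAt_a hz)
    have hB := Neck2_path 1 (2 * Real.pi * S.k * s) (by rw [one_mul]; exact h.fr.contDiffAt_a hz)
    simp only [one_mul, one_smul] at hB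
    set D := fderiv ℝ (aM Ψ (xiN S.g S.d)) (((2 * Real.pi * S.k * s : ℝ) : ℂ) * I) I
    have d1 : (D 0 0).im = 0 := by
      refine (Neck2_im (Neck2_ent hB 0 0)).unique ?_
      rw [funext fun θ => (h.a_bd S.adm θ).1]
      exact hasDerivAt_const _ _
    have d2 : D 1 0 = -conj (D 0 1) := by
      refine (Neck2_ent hB 1 0).unique ?_
      rw [funext fun θ => (h.a_bd S.adm θ).2.1]
      exact (Neck2_conj (Neck2_ent hB 0 1)).neg
    have d3 : D 1 1 = -D 0 0 := by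
      refine (Neck2_ent hB 1 1).unique ?_
      rw [funext fun θ => (h.a_bd S.adm θ).2.2.1]
      exact (Neck2_ent hB 0 0).neg
    have hp : (aM Ψ (xiN S.g S.d) (((2 * Real.pi * S.k * s : ℝ) : ℂ) * I) 0 0).re ≠ 0 := by
      intro h0
      have e0 : aM Ψ (xiN S.g S.d) (((2 * Real.pi * S.k * s : ℝ) : ℂ) * I) 0 0 = 0 :=
        Complex.ext h0 a1
      have e1 : aM Ψ (xiN S.g S.d) (((2 * Real.pi * S.k * s : ℝ) : ℂ) * I) 0 1 = 0 := by
        rw [h0] at a4
        simpa using a4.symm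
      have e2 : aM Ψ (xiN S.g S.d) (((2 * Real.pi * S.k * s : ℝ) : ℂ) * I) = 0 := by
        ext i j
        fin_cases i <;> fin_cases j
        · exact e0
        · exact e1
        · exact a2.trans (by rw [e1, map_zero, neg_zero]; rfl)
        · exact a3.trans (by rw [e0, neg_zero]; rfl)
      refine (xiN_ne S.adm S.fix hN (ζ := ((2 * Real.pi * S.k * s : ℝ) : ℂ) * I) (by simp)).2 ?_
      have := congrArg (fun M => cf 0 (Bi (Ψ (((2 * Real.pi * S.k * s : ℝ) : ℂ) * I))) * M *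
        cf 0 (Bm (Ψ (((2 * Real.pi * S.k * s : ℝ) : ℂ) * I)))) e2
      simp only [aM, ← mul_assoc, b2, one_mul, mul_zero, zero_mul] at this
      rwa [mul_assoc, b2, mul_one] at this
    have o := ode s
    have g1 : deriv (deriv (Gam S.k S.x Ψ)) s = ((2 * Real.pi * S.k : ℝ) : ℂ) *
        (2 * I * conj (((2 * Real.pi * S.k : ℝ) : ℂ) * D 0 1)) := by
      rw [funext (h.deriv_Gam (x := S.x) S.adm S.k)]
      have := (((Neck2_conj (Neck2_ent hA 0 1)).const_mul (2 * I)).const_mul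
        (2 * Real.pi * S.k : ℂ)).deriv
      refine this.trans ?_
      rw [Matrix.smul_apply, real_smul]
      push_cast
      rfl
    have g2 : deriv (nuB S.k Ψ (xiN S.g S.d)) s =
        -(2 * Real.pi * S.k) * (2 * ((2 * Real.pi * S.k) * (D 0 0).re)) := by
      have := (((Neck2_re (Neck2_ent hA 0 0)).const_mul 2).const_mul
        (-(2 * Real.pi * S.k : ℝ))).deriv
      refine this.trans ?_
      rw [Matrix.smul_apply, smul_re, smul_eq_mul]
    rw [g1, g2, h.deriv_Gam S.adm, nuB] at o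
    have h3 := Neck2_ode_alg hc a1 a2 a3 hp d1 d2 d3 (h1 I) (o.trans (by push_cast; rfl))
    rw [h3] at h2
    have := congrArg (fun M => cf 0 (Bi (Ψ (((2 * Real.pi * S.k * s : ℝ) : ℂ) * I))) * M *
      cf 0 (Bm (Ψ (((2 * Real.pi * S.k * s : ℝ) : ℂ) * I)))) h2
    simp only [← mul_assoc, b2, one_mul, mul_zero, zero_mul] at this
    rw [mul_assoc, b2, mul_one] at this
    exact this.symm
  have han := (Neck2_hopf h.fr.opn h.fr.hol).analyticOnNhd h.fr.opn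
  have hconv : Convex ℝ (Strip S.g) := by
    have : Strip S.g = {ζ : ℂ | -Real.log (1 / (8 * ee S.g)) < ζ.re} ∩
        {ζ : ℂ | ζ.re < Real.log (1 / (8 * ee S.g))} := by
      ext ζ
      exact abs_lt (a := ζ.re)
    rw [this]
    exact (convex_halfSpace_re_gt _).inter (convex_halfSpace_re_lt _)
  have h0 : (0 : ℂ) ∈ Strip S.g := by simpa using Neck2_strip S.adm 0
  refine hH (han.eqOn_zero_of_preconnected_of_frequently_eq_zero hconv.isPreconnected h0 ?_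
    (Neck2_La1 S.adm))
  have ht : Filter.Tendsto (fun s : ℝ => ((2 * Real.pi * S.k * s : ℝ) : ℂ) * I) (𝓝[≠] 0)
      (𝓝[≠] 0) := by
    refine tendsto_nhdsWithin_of_tendsto_nhds_of_eventually_within _ ?_ ?_
    · have : Continuous fun s : ℝ => ((2 * Real.pi * S.k * s : ℝ) : ℂ) * I := by fun_prop
      simpa using (this.tendsto 0).mono_left nhdsWithin_le_nhds
    · refine eventually_nhdsWithin_of_forall fun s hs => ?_
      exact mul_ne_zero (ofReal_ne_zero.2 (mul_ne_zero hc hs)) I_ne_zero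
  exact ht.frequently (Filter.Eventually.of_forall key).frequently

end Pool.Agent.MP_efb2da_gt

end
end

section

open Set Complex
open scoped Topology ComplexConjugate Matrix ContDiff

noncomputable section

namespace Pool.Agent.MP_efb2da_gt

open scoped Manifold in
def Final : Prop := ∃ γ : ℝ → E2, ContDiff ℝ ∞ γ ∧ Function.Periodic γ 1 ∧ InjOn γ (Ico 0 1) ∧
    (∀ s, deriv γ s ≠ 0) ∧ (∀ (c : E2) (R : ℝ), range γ ≠ Metric.sphere c R) ∧
    0 < area (inside (range γ)) ∧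
    ∃ (M : Type) (_ : TopologicalSpace M) (_ : ChartedSpace (EuclideanHalfSpace 2) M)
      (_ : IsManifold (𝓡∂ 2) ∞ M) (_ : T2Space M) (_ : CompactSpace M) (_ : ConnectedSpace M)
      (f N : M → E3) (H : ℝ), IsHSurface f N H ∧
        BijOn f ((𝓡∂ 2).boundary M) (incl '' range γ) ∧
        |H| = len γ / (2 * area (inside (range γ)))

lemma Geom_sqrt {g : Geo} (hg : AdmG g) :
    0 < √(qq g) ∧ √(qq g) ≤ 1/64 ∧ √(qq g) * √(qq g) = qq g :=
  ⟨Real.sqrt_pos.2 hg.2.2.1.1, Real.sqrt_le_iff.2 ⟨by norm_num, by linarith [hg.2.2.1.2]⟩,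
    Real.mul_self_sqrt hg.2.2.1.1.le⟩

lemma Geom_sub {g : Geo} (hg : AdmG g) : Rg (ee g) (qq g) (pp g) ⊆ Dom g := by
  rintro z ⟨h1, h2, h3, h4⟩
  obtain ⟨a, b, c⟩ := Geom_sqrt hg
  obtain ⟨e0, e1⟩ := hg.2.1
  rw [lt_div_iff₀ a] at h2
  exact ⟨by nlinarith, by nlinarith [mul_lt_mul_of_pos_left h2 a], by nlinarith, h4⟩

lemma Geom_open (ε q : ℝ) (p : Fin 3 → ℝ) : IsOpen (Rg ε q p) := by
  refine (isOpen_lt continuous_const continuous_norm).inter
    ((isOpen_lt continuous_norm continuous_const).inter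
      ((isOpen_lt continuous_const (continuous_id.sub continuous_const).norm).inter ?_))
  show IsOpen {z : ℂ | ∀ j, z ≠ p j}
  rw [ofPred_forall]
  exact isOpen_iInter_of_finite fun j => isOpen_ne

lemma Geom_rt {k : ℕ} {t : ℝ} (ht : t = 1 / k) (l : ℕ) :
    exp (2 * Real.pi * I * t * ((l : ℤ) : ℂ)) = rt k ^ l := by
  rw [rt, ← Complex.exp_nat_mul, ht]
  congr 1
  push_cast
  ring

lemma Geom_frame {g : Geo} {d : Dat} {Ω : Set ℂ} {Φ : ℂ → MW} (hF : Frame g d Ω Φ) (hg : AdmG g)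
    (hd : Str d) (hN : Nil g d) : DFrame Ω Φ fun z => (tt g : ℂ) • Xi g d z where
  opn := hF.opn
  ode := hF.ode
  det := hF.det
  hol := ((Xi_differentiableOn hg hd).mono hF.sub).const_smul (tt g : ℂ)
  ge z _ := (Xi_ge hd z).smul _
  tr z _ := Pot3_tr_smul _ (Xi_tr hd z)
  nil z hz := by rw [map_smul, Matrix.det_smul, hN.nil z (hF.sub hz), mul_zero]

lemma Geom_per {E : Type} [NormedAddCommGroup E] {u : ℝ → E} (hu : Function.Periodic u 1) {c : ℝ}
    (h : ∀ s ∈ Icc (0:ℝ) 1, ‖u s‖ ≤ c) (s : ℝ) : ‖u s‖ ≤ c := by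
  have := hu.sub_int_mul_eq (x := s) ⌊s⌋
  rw [mul_one] at this
  rw [← this]
  exact h _ ⟨Int.fract_nonneg s, (Int.fract_lt_one s).le⟩

lemma Geom_exp : Function.Periodic (fun s : ℝ => exp (2 * Real.pi * I * s)) 1 := fun s => by
  simp only [ofReal_add, ofReal_one, mul_add, mul_one, Complex.exp_add, Complex.exp_two_pi_mul_I]

theorem Geom_main {η N : ℝ} {As : Fin 5 → MW} (S : Sol η N As) (hN : Nil S.g S.d)
    (hH : hopf (xiN S.g S.d) (La1 S.g) ≠ 0) (hη : η * N ≤ 1/4)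
    (hcap : ∀ j : Fin 3, (AA S.d (cj5 j)).det = algebraMap ℂ W (-1/4) →
      ∃ (P : MW) (φ : W), MGE 0 P ∧ P.det = 1 ∧ sharp P = P ∧ W.GE (-1) φ ∧ W.cj φ = φ ∧
        W.coef (-1) φ ≠ 0 ∧
        adj P * AA S.d (cj5 j) * P = !![algebraMap ℂ W (1/2), φ; 0, algebraMap ℂ W (-1/2)])
    (hcl : ∀ Ψ : ℂ → MW, Neck S.g S.d Ψ → ∀ s ∈ Icc (0:ℝ) 1,
      ‖Gam S.k S.x Ψ s - (1/2) * exp (2 * Real.pi * I * s)‖ ≤ 1/20 ∧
      ‖deriv (Gam S.k S.x Ψ) s - Real.pi * I * exp (2 * Real.pi * I * s)‖ ≤ 1/5) : Final := by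
  obtain ⟨Ω, Φ, hF⟩ := exists_frame S.adm S.str
  obtain ⟨R5, hR⟩ := S.arcs hF
  choose P φ p1 p2 p3 p4 p5 p6 p7 using fun j => hcap j (hR.det_cap hF hη j)
  choose X X1 X2 X3 X4 using fun j =>
    exists_cap_chart hF hR hN j (p1 j) (p2 j) (p3 j) (p4 j) (p5 j) (p6 j) (p7 j)
  obtain ⟨Ψ, hΨ, hΨe⟩ := exists_neck hF S.adm S.str S.fix hN
  have DF := Geom_frame hF S.adm S.str hN
  have t0 : (tt S.g : ℂ) ≠ 0 := ofReal_ne_zero.2 S.adm.1.1.ne'
  have hp := hΨ.periodic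
  have hp' : Function.Periodic (deriv (Gam S.k S.x Ψ)) 1 := fun s => by
    rw [← deriv_comp_add_const, funext hp]
  obtain ⟨c1, c2, c3, c4, c5, c6, c7, c8⟩ := curve_final (hΨ.contDiff_Gam S.adm S.k) hp
    (Geom_per (u := fun s => Gam S.k S.x Ψ s - (1/2) * exp (2 * Real.pi * I * s))
      (fun s => by simp only [hp s, Geom_exp s]) fun s hs => (hcl Ψ hΨ s hs).1)
    (Geom_per (u := fun s => deriv (Gam S.k S.x Ψ) s - Real.pi * I * exp (2 * Real.pi * I * s))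
      (fun s => by simp only [hp' s, Geom_exp s]) fun s hs => (hcl Ψ hΨ s hs).2)
    (hΨ.differentiable_nu S.adm S.k) (hΨ.norm_deriv_Gam S.adm S.k) hΨ.flux (hΨ.noncirc hN hH)
  have k0 : (0:ℝ) < 2 * Real.pi * S.k := by
    have : (0:ℝ) < S.k := by exact_mod_cast lt_of_lt_of_le (by norm_num) S.hk
    positivity
  have hY : ∀ s : ℝ, pt S.x (Ψ (((2 * Real.pi * S.k * s : ℝ) : ℂ) * I)) =
      mk3 (Gam S.k S.x Ψ s) 0 := fun s => by
    rw [← hΨ.planar (x := S.x) S.adm (2 * Real.pi * S.k * s), Gam, mk3_hz]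
  have hY' : ∀ θ : ℝ, pt S.x (Ψ (θ * I)) = mk3 (Gam S.k S.x Ψ (θ / (2 * Real.pi * S.k))) 0 :=
    fun θ => by rw [← hY, mul_div_cancel₀ _ k0.ne']
  have st := fun (ζ : ℂ) (h : |ζ.re| < 1/2) => xiN_ne S.adm S.fix hN h
  let D : SurfData :=
    { k := S.k, ε := ee S.g, q := qq S.g, p := pp S.g, f := fun z => pt S.x (Φ z), X := X
      Y := fun ζ => pt S.x (Ψ ζ), hk := S.hk, ε0 := S.adm.2.1.1, ε1 := S.adm.2.1.2
      q0 := S.adm.2.2.1.1, q1 := S.adm.2.2.1.2, adm := S.adm.2.2.2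
      cmc := fun z hz hi => by
        filter_upwards [(Geom_open _ _ _).mem_nhds hz,
          hF.opn.mem_nhds (hF.up z (Geom_sub S.adm hz) hi)] with w h1 h2
        refine (DF.cmcAt h2 ?_).sub_const _
        rw [map_smul]
        exact smul_ne_zero t0 (hN.ne w h1.1 h1.2.1 h1.2.2.1 h1.2.2.2)
      refl := fun y hy => by
        filter_upwards [hF.arc_local S.adm S.str (Geom_sub S.adm hy)] with z hz
        have d1 := hF.det _ hz.2.1
        have := (hR.cl_val y).pt_mul (Φ := sharp (Φ (conj z))) (by rw [det_sharp, d1, W.cj_one])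
          MGE_one Matrix.det_one
        rw [mul_one, pt_sharp d1, Geom_rt S.ht, ← hR.val y (Geom_sub S.adm hy), ← hz.2.2] at this
        exact this
      per := fun z hi h1 h2 => by
        obtain ⟨L, hL, e⟩ := hR.per
        obtain ⟨a, b, c⟩ := Geom_sqrt S.adm
        have z8 : 8 < ‖z‖ := by
          rw [div_lt_iff₀ (by positivity)] at h1
          nlinarith [norm_nonneg z]
        have zR : z ∈ Rg (ee S.g) (qq S.g) (pp S.g) := by
          refine ⟨by linarith, h2, ?_, fun j hj => ?_⟩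
          · have := norm_sub_norm_le z 1
            rw [norm_one] at this
            linarith [S.adm.2.1.2]
          · have := abs_pos_le S.adm.2.2.2 (cj5 j)
            rw [pos_cj5] at this
            rw [hj, norm_real, Real.norm_eq_abs] at z8
            linarith
        have zD := Geom_sub S.adm zR
        have := hL.pt_mul (hF.det z (hF.up z zD hi)) S.str.geG.adj
          (by rw [det_adj, S.fix.detG])
        rw [← e z hi z8 zD.2.1, mul_assoc, mul_adj_of_det S.fix.detG, mul_one] at this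
        simpa using this
      X_cmc := X1, X_eq := X2, X_rot := X3, X_refl := X4
      Y_cmc := fun ζ h => (hΨ.fr.cmcAt (st ζ h).1 (st ζ h).2).sub_const _
      Y_eq := fun ζ h h1 h2 => by rw [hΨe ζ (st ζ h).1 h1 h2]
      Y_rot := fun ζ h => by
        have := S.c1.pt_mul (hΨ.fr.det ζ (st ζ h).1) MGE_one Matrix.det_one
        have e := Geom_rt S.ht 1
        rw [Nat.cast_one, pow_one] at e
        rw [mul_one, e, ← hΨ.rot ζ (st ζ h).1] at this
        exact this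
      Y_refl := fun ζ h => by rw [hΨ.cj ζ (st ζ h).1, pt_sharp (hΨ.fr.det ζ (st ζ h).1)]
      Y_inj := fun a ha b hb e => by
        have m : ∀ θ ∈ Ico 0 (2 * Real.pi * S.k), θ / (2 * Real.pi * S.k) ∈ Ico (0:ℝ) 1 :=
          fun θ h => ⟨div_nonneg h.1 k0.le, (div_lt_one k0).2 h.2⟩
        have e' := congrArg hz e
        simp only [hY', hz_mk3] at e'
        exact (div_left_inj' k0.ne').1 (c4 (m a ha) (m b hb) e') }
  obtain ⟨M, i1, i2, i3, i4, i5, i6, f, n, hf, hb⟩ := D.surface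
  refine ⟨_, c1, c2, c3, c5, c6, c7, M, i1, i2, i3, i4, i5, i6, f, n, 2, hf, ?_, c8⟩
  convert hb using 1
  ext v
  constructor
  · rintro ⟨_, ⟨s, rfl⟩, rfl⟩
    exact ⟨2 * Real.pi * S.k * s, (hY s).trans (incl_toE2 _).symm⟩
  · rintro ⟨θ, rfl⟩
    exact ⟨_, ⟨θ / (2 * Real.pi * S.k), rfl⟩, (incl_toE2 _).trans (hY' θ).symm⟩

theorem geometry {As : Fin 5 → MW} (hL : LimProp As) (N : ℝ) :
    ∃ η > 0, Nonempty (Sol η N As) → Final := by
  obtain ⟨a1, p1, h1⟩ := sol_nil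
  obtain ⟨a2, p2, h2⟩ := sol_ne hL N
  obtain ⟨a3, p3, h3⟩ := sol_hopf hL N
  obtain ⟨a4, p4, h4⟩ := exists_cap_gauge hL N
  obtain ⟨a5, p5, h5⟩ := neck_close hL N
  have p6 : 0 < 1 / (4 * (|N| + 1)) := by positivity
  obtain ⟨η, e0, e1, e2, e3, e4, e5, e6⟩ : ∃ η > 0, η ≤ a1 ∧ η ≤ a2 ∧ η ≤ a3 ∧ η ≤ a4 ∧ η ≤ a5 ∧
      η ≤ 1 / (4 * (|N| + 1)) :=
    ⟨min a1 (min a2 (min a3 (min a4 (min a5 (1 / (4 * (|N| + 1))))))), by positivity,
      by simp only [← le_min_iff, le_refl]⟩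
  refine ⟨η, e0, fun ⟨S⟩ => Geom_main S ⟨h1 η N As S e1, h2 η S e2⟩ (h3 η S e3) ?_ (h4 η S e4)
    fun Ψ h => h5 η S Ψ e5 h⟩
  rw [le_div_iff₀ (by positivity)] at e6
  nlinarith [mul_le_mul_of_nonneg_left (le_abs_self N) e0.le]

end Pool.Agent.MP_efb2da_gt

end
end
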