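import Pool.Agent.Mg.Fefb2da.G534027

section

open Set Real
open scoped Topology

noncomputable section

namespace Pool.Agent.MP_efb2da_gt

/-- the integrand -/
def Lim2f (k t : ℝ) : ℝ := sin t ^ 2 / √(sin t ^ 2 + k)
/-- the integral over the loop -/
def Lim2J (a k : ℝ) : ℝ := ∫ t in (-π - a)..a, Lim2f k t
/-- the modulus -/
def Lim2k (ψ : ℝ) : ℝ := 4 * (sin ψ ^ 2 - sin ψ * sin (arccos (2 * cos ψ)))

theorem Lim2_sqrt_pos {k : ℝ} (hk : 0 < k) (t : ℝ) : 0 < √(sin t ^ 2 + k) :=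
  sqrt_pos.2 (by positivity)

theorem Lim2f_cont {k : ℝ} (hk : 0 < k) : Continuous (Lim2f k) :=
  Continuous.div (by fun_prop) (by fun_prop) fun t => (Lim2_sqrt_pos hk t).ne'

theorem Lim2f_nonneg (k t : ℝ) : 0 ≤ Lim2f k t := div_nonneg (sq_nonneg _) (sqrt_nonneg _)

theorem Lim2J_mono {a a' k k' : ℝ} (ha : 0 ≤ a) (haa : a ≤ a') (hk : 0 < k') (hkk : k' ≤ k) :
    Lim2J a k ≤ Lim2J a' k' := by
  have hp := pi_pos
  have h1 : Lim2J a k ≤ Lim2J a k' := by
    refine intervalIntegral.integral_mono_on (by linarith)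
      ((Lim2f_cont (hk.trans_le hkk)).intervalIntegrable _ _)
      ((Lim2f_cont hk).intervalIntegrable _ _) fun t _ => ?_
    exact div_le_div_of_nonneg_left (sq_nonneg _) (Lim2_sqrt_pos hk t)
      (sqrt_le_sqrt (by linarith))
  refine h1.trans (intervalIntegral.integral_mono_interval (by linarith) (by linarith) haa
    (Filter.Eventually.of_forall fun t => Lim2f_nonneg k' t)
    ((Lim2f_cont hk).intervalIntegrable _ _))

theorem Lim2J_cont {X : Type} [TopologicalSpace X] [FirstCountableTopology X]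
    [LocallyCompactSpace X] {a k : X → ℝ} (ha : Continuous a) (hk : Continuous k)
    (h0 : ∀ x, 0 < k x) : Continuous fun x => Lim2J (a x) (k x) := by
  have hf : Continuous (Function.uncurry fun x t => Lim2f (k x) t) :=
    Continuous.div (by fun_prop) (by fun_prop) fun p => (Lim2_sqrt_pos (h0 p.1) p.2).ne'
  have h1 := intervalIntegral.continuous_parametric_intervalIntegral_of_continuous
    (μ := MeasureTheory.volume) (a₀ := 0) hf ha
  have h2 := intervalIntegral.continuous_parametric_intervalIntegral_of_continuous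
    (μ := MeasureTheory.volume) (a₀ := 0) hf (s := fun x => -π - a x) (by fun_prop)
  refine (h1.sub h2).congr fun x => ?_
  exact intervalIntegral.integral_interval_sub_left
    ((Lim2f_cont (h0 x)).intervalIntegrable _ _) ((Lim2f_cont (h0 x)).intervalIntegrable _ _)

theorem Lim2J_hi : Lim2J 0 3 ≤ π / 2 := by
  have hp := pi_pos
  have h : Lim2J 0 3 ≤ ∫ _ in (-π - 0)..0, (1 / 2 : ℝ) := by
    refine intervalIntegral.integral_mono_on (by linarith)
      ((Lim2f_cont (by norm_num)).intervalIntegrable _ _) (by simp) fun t _ => ?_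
    rw [Lim2f, div_le_iff₀ (Lim2_sqrt_pos (by norm_num) t)]
    have h1 := sin_sq_le_one t
    have h2 : 2 * sin t ^ 2 ≤ √(sin t ^ 2 + 3) :=
      le_sqrt_of_sq_le (by nlinarith [sq_nonneg (sin t)])
    linarith
  rw [intervalIntegral.integral_const, smul_eq_mul] at h
  linarith

theorem Lim2J_lo : 1 < Lim2J 0 1 := by
  have hp := pi_gt_three
  have h : ∫ t in (-π - 0)..0, 2 / 3 * sin t ^ 2 ≤ Lim2J 0 1 := by
    refine intervalIntegral.integral_mono_on (by linarith)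
      (Continuous.intervalIntegrable (by fun_prop) _ _)
      ((Lim2f_cont (by norm_num)).intervalIntegrable _ _) fun t _ => ?_
    rw [Lim2f, le_div_iff₀ (Lim2_sqrt_pos (by norm_num) t)]
    have h1 := sin_sq_le_one t
    have h2 : √(sin t ^ 2 + 1) ≤ 3 / 2 := sqrt_le_iff.2 ⟨by norm_num, by linarith⟩
    nlinarith [sq_nonneg (sin t)]
  rw [intervalIntegral.integral_const_mul, integral_sin_sq] at h
  simp only [sub_zero, sin_neg, sin_pi, sin_zero, neg_zero, zero_mul] at h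
  linarith

theorem Lim2_basic {ψ : ℝ} (h1 : π / 3 ≤ ψ) (h2 : ψ < π / 2) :
    0 < cos ψ ∧ cos ψ ≤ 1 / 2 ∧ 0 ≤ sin ψ ∧ 0 ≤ sin (arccos (2 * cos ψ)) ∧
      sin (arccos (2 * cos ψ)) ^ 2 = 1 - 4 * cos ψ ^ 2 := by
  have hp := pi_pos
  have a1 : 0 < cos ψ := cos_pos_of_mem_Ioo ⟨by linarith, h2⟩
  have a2 : cos ψ ≤ 1 / 2 := by
    rw [← cos_pi_div_three]
    exact cos_le_cos_of_nonneg_of_le_pi (by linarith) (by linarith) h1
  refine ⟨a1, a2, sin_nonneg_of_nonneg_of_le_pi (by linarith) (by linarith),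
    sin_nonneg_of_nonneg_of_le_pi (arccos_nonneg _) (arccos_le_pi _), ?_⟩
  rw [sin_sq, cos_arccos (by linarith) (by linarith)]
  ring

theorem Lim2k_pos {ψ : ℝ} (h1 : π / 3 ≤ ψ) (h2 : ψ < π / 2) : 0 < Lim2k ψ := by
  obtain ⟨a1, a2, a3, a4, a5⟩ := Lim2_basic h1 h2
  have a6 := sin_sq_add_cos_sq ψ
  have a7 : sin (arccos (2 * cos ψ)) < sin ψ :=
    lt_of_pow_lt_pow_left₀ 2 a3 (by nlinarith)
  have a8 : 0 < sin ψ := a4.trans_lt a7
  unfold Lim2k
  nlinarith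

theorem Lim2k_anti {ψ χ : ℝ} (h1 : π / 3 ≤ ψ) (h : ψ ≤ χ) (h2 : χ < π / 2) :
    Lim2k χ ≤ Lim2k ψ := by
  have hp := pi_pos
  obtain ⟨a1, a2, a3, a4, a5⟩ := Lim2_basic h1 (h.trans_lt h2)
  obtain ⟨b1, b2, b3, b4, b5⟩ := Lim2_basic (h1.trans h) h2
  have a6 := sin_sq_add_cos_sq ψ
  have b6 := sin_sq_add_cos_sq χ
  have c : cos χ ≤ cos ψ := cos_le_cos_of_nonneg_of_le_pi (by linarith) (by linarith) h
  unfold Lim2k
  have a7 := sin_le_one ψ
  have a8 := sin_le_one (arccos (2 * cos ψ))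
  generalize sin (arccos (2 * cos ψ)) = s at *
  generalize sin (arccos (2 * cos χ)) = s' at *
  generalize sin ψ = r at *
  generalize sin χ = r' at *
  have d1 : cos χ ^ 2 ≤ cos ψ ^ 2 := pow_le_pow_left₀ b1.le c 2
  have d2 : cos ψ ^ 2 ≤ 1 / 4 := by nlinarith
  have d3 : 0 ≤ cos χ ^ 2 := sq_nonneg _
  generalize cos ψ ^ 2 = v at *
  generalize cos χ ^ 2 = u at *
  have e1 : (r * s) ^ 2 = (1 - v) * (1 - 4 * v) := by rw [mul_pow, a5]; congr 1; linarith
  have e2 : (r' * s') ^ 2 = (1 - u) * (1 - 4 * u) := by rw [mul_pow, b5]; congr 1; linarith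
  have e3 : r * s ≤ 1 := mul_le_one₀ a7 a4 a8
  have e4 : r * s + (v - u) ≤ r' * s' := by
    refine le_of_pow_le_pow_left₀ two_ne_zero (mul_nonneg b3 b4) ?_
    rw [e2, add_sq, e1]
    nlinarith [mul_nonneg (sub_nonneg.2 d1) (sub_nonneg.2 e3),
      mul_nonneg (sub_nonneg.2 d1) (sub_nonneg.2 d2)]
  linarith

theorem Lim2_formula {ψ : ℝ} (h1 : π / 3 ≤ ψ) (h2 : ψ < π / 2) :
    E0 (ystar ψ) 0 = -cos ψ + Lim2J (arccos (2 * cos ψ)) (Lim2k ψ) / 4 := by
  obtain ⟨a1, a2, -, -, -⟩ := Lim2_basic h1 h2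
  have hk := Lim2k_pos h1 h2
  have e0 : E0 (ystar ψ) 0 = ∫ t in (-π - arccos (2 * cos ψ))..arccos (2 * cos ψ),
      rf (cc (ystar ψ)) t * sin t / DD (cc (ystar ψ)) t := rfl
  have e1 : ∀ t, DD (cc (ystar ψ)) t = √(sin t ^ 2 + Lim2k ψ) := fun t => by
    have : cc (ystar ψ) = sin ψ / 2 * sin (arccos (2 * cos ψ)) / 2 - (sin ψ / 2) ^ 2 := rfl
    rw [DD, this, Lim2k]
    congr 1
    ring
  have e2 : ∀ t, rf (cc (ystar ψ)) t * sin t / DD (cc (ystar ψ)) t =
      (sin t + Lim2f (Lim2k ψ) t) / 4 := fun t => by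
    rw [rf, e1, Lim2f]
    have := (Lim2_sqrt_pos hk t).ne'
    field_simp
    ring
  rw [e0]
  simp only [e2]
  rw [intervalIntegral.integral_div, intervalIntegral.integral_add
    (continuous_sin.intervalIntegrable _ _) ((Lim2f_cont hk).intervalIntegrable _ _), integral_sin,
    show -π - arccos (2 * cos ψ) = -(arccos (2 * cos ψ) + π) by ring, cos_neg, cos_add_pi,
    cos_arccos (by linarith) (by linarith), Lim2J,
    show -π - arccos (2 * cos ψ) = -(arccos (2 * cos ψ) + π) by ring]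
  ring

theorem Lim2_strict {ψ χ : ℝ} (h1 : π / 3 ≤ ψ) (h : ψ < χ) (h2 : χ < π / 2) :
    E0 (ystar ψ) 0 < E0 (ystar χ) 0 := by
  have hp := pi_pos
  rw [Lim2_formula h1 (h.trans h2), Lim2_formula (h1.trans h.le) h2]
  have c : cos χ < cos ψ := cos_lt_cos_of_nonneg_of_le_pi (by linarith) (by linarith) h
  have := Lim2J_mono (arccos_nonneg (2 * cos ψ))
    (arccos_le_arccos (x := 2 * cos χ) (y := 2 * cos ψ) (by linarith))
    (Lim2k_pos (h1.trans h.le) h2) (Lim2k_anti h1 h.le h2)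
  linarith

/-- the closing condition of the nodoid loop has a root with a change of sign -/
theorem exists_root : ∃ ψ, π / 3 < ψ ∧ ψ < π / 2 ∧ E0 (ystar ψ) 0 = 0 ∧
    ∃ δ > 0, ∀ χ, (ψ - δ < χ → χ < ψ → E0 (ystar χ) 0 < 0) ∧
      (ψ < χ → χ < ψ + δ → 0 < E0 (ystar χ) 0) := by
  have hp := pi_pos
  have b0 : cos (arccos (1 / 4)) = 1 / 4 := cos_arccos (by norm_num) (by norm_num)
  have b1 : π / 3 ≤ arccos (1 / 4) := by
    rw [← arccos_cos (x := π / 3) (by linarith) (by linarith), cos_pi_div_three]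
    exact arccos_le_arccos (by norm_num)
  have b2 : arccos (1 / 4) < π / 2 := arccos_lt_pi_div_two.2 (by norm_num)
  generalize arccos (1 / 4) = b at *
  have hc : ContinuousOn (fun ψ => E0 (ystar ψ) 0) (Icc (π / 3) b) := by
    refine ContinuousOn.congr (f := fun ψ => -cos ψ + Lim2J (arccos (2 * cos ψ)) (Lim2k ψ) / 4)
      ?_ fun ψ hψ => Lim2_formula hψ.1 (hψ.2.trans_lt b2)
    rw [continuousOn_iff_continuous_domRestrict]
    have ha : Continuous fun x : Icc (π / 3) b => arccos (2 * cos x) :=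
      continuous_arccos.comp (by fun_prop)
    have := Lim2J_cont (X := Icc (π / 3) b) (k := fun x => Lim2k x) ha
      (by unfold Lim2k; fun_prop) fun x => Lim2k_pos x.2.1 (x.2.2.trans_lt b2)
    exact Continuous.add (by fun_prop) (this.div_const 4)
  have lo : E0 (ystar (π / 3)) 0 < 0 := by
    rw [Lim2_formula le_rfl (by linarith), Lim2k, cos_pi_div_three, sq_sin_pi_div_three,
      show (2 : ℝ) * (1 / 2) = 1 by norm_num, arccos_one, sin_zero,
      show (4 : ℝ) * (3 / 4 - sin (π / 3) * 0) = 3 by ring]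
    have := Lim2J_hi
    have := pi_le_four
    have := pi_lt_four
    linarith
  have hi : 0 < E0 (ystar b) 0 := by
    obtain ⟨-, -, a3, a4, a5⟩ := Lim2_basic b1 b2
    have a6 := sin_sq_add_cos_sq b
    have hk : Lim2k b ≤ 1 := by
      unfold Lim2k
      rw [b0] at a5 a6
      rw [b0] at a4 ⊢
      have : 11 / 16 ≤ sin b * sin (arccos (2 * (1 / 4))) := by
        refine le_of_pow_le_pow_left₀ two_ne_zero (mul_nonneg a3 a4) ?_
        rw [mul_pow, a5, show sin b ^ 2 = 15 / 16 by linarith]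
        norm_num
      linarith
    have := Lim2J_mono le_rfl (arccos_nonneg (2 * cos b)) (Lim2k_pos b1 b2) hk
    rw [Lim2_formula b1 b2]
    have := Lim2J_lo
    linarith
  obtain ⟨ψ, ⟨c1, c2⟩, c3⟩ := intermediate_value_Ioo b1 hc ⟨lo, hi⟩
  have c4 : E0 (ystar ψ) 0 = 0 := c3
  refine ⟨ψ, c1, c2.trans b2, c4, min (ψ - π / 3) (π / 2 - ψ),
    lt_min (by linarith) (by linarith), fun χ => ⟨fun d1 d2 => ?_, fun d1 d2 => ?_⟩⟩
  · have := min_le_left (ψ - π / 3) (π / 2 - ψ)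
    exact c4 ▸ Lim2_strict (by linarith) d2 (c2.trans b2)
  · have := min_le_right (ψ - π / 3) (π / 2 - ψ)
    exact c4 ▸ Lim2_strict c1.le d1 (by linarith)

end Pool.Agent.MP_efb2da_gt

end
end

section

open Set Real
open scoped Topology

noncomputable section

namespace Pool.Agent.MP_efb2da_gt

/-- first coordinate and the seven algebraic equations -/
def F8 (y : Y8) : Y8 := Function.update (E0 y) 0 (y 0)

lemma Lim3_cd_rho (y : Y8) : ContDiffAt ℝ 1 rho y := by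
  unfold rho; fun_prop

lemma Lim3_cd_rhoE {y : Y8} (h : cc y < 0) : ContDiffAt ℝ 1 rhoE y := by
  have h1 : ContDiffAt ℝ 1 (fun z : Y8 => sin (z 4) ^ 2 - 16 * cc z) y := by
    unfold cc rho; fun_prop
  have h2 : sin (y 4) ^ 2 - 16 * cc y ≠ 0 := by nlinarith [sq_nonneg (sin (y 4))]
  have h3 := h1.sqrt h2
  have h4 : ContDiffAt ℝ 1 (fun z : Y8 => sin (z 4)) y := by fun_prop
  exact (h4.add h3).div_const 4

lemma Lim3_cd_nilv {κ x : Y8 → ℝ} {y : Y8} (hκ : ContDiffAt ℝ 1 κ y) (hx : ContDiffAt ℝ 1 x y) :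
    ContDiffAt ℝ 1 (fun z => nilv (κ z) (x z)) y := by
  refine contDiffAt_pi.2 fun k => ?_
  fin_cases k
  · exact (hκ.div_const 2).mul hx.sin
  · exact ((hκ.div_const 2).mul hx.cos).neg
  · exact hκ.div_const 2

lemma Lim3_cd_av {y : Y8} (h : cc y < 0) (j : Fin 5) : ContDiffAt ℝ 1 (fun z => av z j) y := by
  have e : ∀ i : Fin 8, ContDiffAt ℝ 1 (fun z : Y8 => z i) y := fun i => by fun_prop
  have a0 := Lim3_cd_nilv (Lim3_cd_rhoE h).neg (e 4)
  have a1 := Lim3_cd_nilv (Lim3_cd_rho y).neg (e 0)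
  have a2 := Lim3_cd_nilv (Lim3_cd_rho y) (e 1)
  have a3 := Lim3_cd_nilv (Lim3_cd_rho y).neg (e 2)
  have a4 := Lim3_cd_nilv (Lim3_cd_rho y) (e 3)
  fin_cases j
  · exact a0
  · exact a1
  · exact a2
  · exact a3
  · exact ((((a0.add a1).add a2).add a3).add a4).neg

lemma Lim3_cd_bil {u v : Y8 → Fin 3 → ℝ} {y : Y8} (hu : ContDiffAt ℝ 1 u y)
    (hv : ContDiffAt ℝ 1 v y) : ContDiffAt ℝ 1 (fun z => bil (u z) (v z)) y := by
  have h1 := contDiffAt_pi.1 hu
  have h2 := contDiffAt_pi.1 hv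
  exact contDiffAt_const.mul ((((h1 2).mul (h2 2)).sub ((h1 0).mul (h2 0))).sub ((h1 1).mul (h2 1)))

lemma Lim3_pos_ne {p : Fin 3 → ℝ} (h : AdmP p) {i j : Fin 5} (hij : i ≠ j) :
    pos p j - pos p i ≠ 0 := by
  obtain ⟨⟨h1, h2⟩, ⟨h3, h4⟩, h5, h6⟩ := h
  intro e
  fin_cases i <;> fin_cases j <;> simp [pos] at hij e <;> linarith

lemma Lim3_cd_pos (y : Y8) (j : Fin 5) : ContDiffAt ℝ 1 (fun z => pos (yp z) j) y := by
  have e : ∀ i : Fin 8, ContDiffAt ℝ 1 (fun z : Y8 => z i) y := fun i => by fun_prop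
  fin_cases j
  · exact contDiffAt_const
  · exact contDiffAt_const
  · exact e 5
  · exact e 6
  · exact e 7

lemma Lim3_cd_resv {y : Y8} (h : Yadm y) (j : Fin 5) : ContDiffAt ℝ 1 (fun z => resv z j) y := by
  refine ContDiffAt.sum fun i hi => ?_
  exact (Lim3_cd_bil (Lim3_cd_av h.2.2.1 j) (Lim3_cd_av h.2.2.1 i)).div
    ((Lim3_cd_pos y j).sub (Lim3_cd_pos y i))
    (Lim3_pos_ne h.2.2.2.2 (Finset.ne_of_mem_erase hi))

lemma Lim3_F8 (y : Y8) : F8 y = ![y 0, rho y ^ 2 - rho y * sin (y 1) / 2,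
    rho y ^ 2 - rho y * sin (y 2) / 2, rhoE y - rho y,
    bil (av y 4) (av y 4) / 2, resv y 2, resv y 3, resv y 4] := by
  funext i
  fin_cases i <;> rfl

lemma Lim3_cd_F8 {y : Y8} (h : Yadm y) : ContDiffAt ℝ 1 F8 y := by
  have e : ∀ i : Fin 8, ContDiffAt ℝ 1 (fun z : Y8 => z i) y := fun i => by fun_prop
  have hr := Lim3_cd_rho y
  refine contDiffAt_pi.2 fun i => ?_
  simp only [Lim3_F8]
  fin_cases i
  · exact e 0
  · exact (hr.pow 2).sub ((hr.mul (e 1).sin).div_const 2)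
  · exact (hr.pow 2).sub ((hr.mul (e 2).sin).div_const 2)
  · exact (Lim3_cd_rhoE h.2.2.1).sub hr
  · exact (Lim3_cd_bil (Lim3_cd_av h.2.2.1 4) (Lim3_cd_av h.2.2.1 4)).div_const 2
  · exact Lim3_cd_resv h 2
  · exact Lim3_cd_resv h 3
  · exact Lim3_cd_resv h 4

lemma Lim3_line (c d : ℝ) : HasDerivAt (fun τ : ℝ => c + τ * d) d 0 := by
  simpa using ((hasDerivAt_id (0:ℝ)).mul_const d).const_add c

lemma Lim3_sin (c d : ℝ) : HasDerivAt (fun τ : ℝ => sin (c + τ * d)) (cos c * d) 0 := by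
  simpa using (Lim3_line c d).sin

lemma Lim3_cos (c d : ℝ) : HasDerivAt (fun τ : ℝ => cos (c + τ * d)) (-sin c * d) 0 := by
  simpa using (Lim3_line c d).cos

lemma Lim3_div (b : ℝ) {c : ℝ} (d : ℝ) (hc : c ≠ 0) :
    HasDerivAt (fun τ : ℝ => b / (c + τ * d)) (-(b / c ^ 2) * d) 0 := by
  have := (hasDerivAt_const (0:ℝ) b).div (Lim3_line c d) (by simpa using hc)
  refine this.congr_deriv ?_
  simp only [zero_mul, add_zero, zero_sub]
  ring

lemma Lim3_solve {B P p u v w : ℝ} (hB : 0 < B) (hP : 0 < P) (h0 : 0 < p) (h1 : p < 1)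
    (hp : P * (1 - p ^ 2) = 2 * B)
    (e1 : P * u + B / (1 - p) ^ 2 * u + B / (1 + p) ^ 2 * (u - v) = 0)
    (e2 : -P * v + B / (1 + p) ^ 2 * (v - u) + B / (1 - p) ^ 2 * (v - w) = 0)
    (e3 : P * w + B / (1 + p) ^ 2 * w + B / (1 - p) ^ 2 * (w - v) = 0) :
    u = 0 ∧ v = 0 ∧ w = 0 := by
  have k1 : 0 < 1 - p := by linarith
  have k2 : 0 < 1 + p := by linarith
  have hal : 0 < B / (1 - p) ^ 2 := by positivity
  have hg : 0 < B / (1 + p) ^ 2 := by positivity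
  have hpr : 4 * (B / (1 - p) ^ 2 * (B / (1 + p) ^ 2)) = P ^ 2 := by
    have : B = P * ((1 - p) * (1 + p)) / 2 := by linarith
    rw [this]
    field_simp
    ring
  generalize B / (1 - p) ^ 2 = al at *
  generalize B / (1 + p) ^ 2 = g at *
  have hT : 0 < al + g + P := by linarith
  have hv : P ^ 2 * v = 0 := by
    linear_combination (-2) * (al + g + P) * e2 - 2 * g * e1 - 2 * al * e3 + v * hpr
  have hv0 : v = 0 := by
    rcases mul_eq_zero.1 hv with h | h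
    · exact absurd h (by positivity)
    · exact h
  subst hv0
  refine ⟨?_, rfl, ?_⟩
  · have : (al + g + P) * u = 0 := by linear_combination e1
    exact (mul_eq_zero.1 this).resolve_left hT.ne'
  · have : (al + g + P) * w = 0 := by linear_combination e3
    exact (mul_eq_zero.1 this).resolve_left hT.ne'

lemma Lim3_facts {ψ : ℝ} (h1 : π / 3 < ψ) (h2 : ψ < π / 2) :
    0 < cos ψ ∧ cos ψ < 1 / 2 ∧ 0 < sin ψ ∧ cos (arccos (2 * cos ψ)) = 2 * cos ψ ∧
      0 < sin (arccos (2 * cos ψ)) := by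
  have hp := pi_pos
  have k1 : 0 < cos ψ := cos_pos_of_mem_Ioo ⟨by linarith, h2⟩
  have k2 : cos ψ < 1 / 2 := by
    rw [← cos_pi_div_three]
    exact cos_lt_cos_of_nonneg_of_le_pi (by linarith) (by linarith) h1
  refine ⟨k1, k2, sin_pos_of_pos_of_lt_pi (by linarith) (by linarith),
    cos_arccos (by linarith) (by linarith), ?_⟩
  rw [sin_arccos]
  exact sqrt_pos.2 (by nlinarith)

lemma Lim3_ker {ψ : ℝ} (h1 : π / 3 < ψ) (h2 : ψ < π / 2) (w : Y8)
    (H : ∀ i, HasDerivAt (fun τ : ℝ => F8 (ystar ψ + τ • w) i) 0 0) : w = 0 := by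
  obtain ⟨f1, f2, f3, f4, f5⟩ := Lim3_facts h1 h2
  have hadm : Yadm (ystar ψ) := (yadm_near h1 h2).self_of_nhds
  have hE := rhoE_ystar h1 h2
  obtain ⟨p1, p2⟩ := pstar_bounds h1 h2
  have hsc := sin_sq_add_cos_sq ψ
  have hpd : pstar ψ = √((1 - 2 * cos ψ ^ 2 - sin ψ * sin (arccos (2 * cos ψ))) /
    (1 + 2 * cos ψ ^ 2 - sin ψ * sin (arccos (2 * cos ψ)))) := rfl
  have hcc := hadm.2.2.1
  have c0 : ∀ τ : ℝ, (ystar ψ + τ • w) 0 = ψ + τ * w 0 := fun _ => rfl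
  have c1 : ∀ τ : ℝ, (ystar ψ + τ • w) 1 = π - ψ + τ * w 1 := fun _ => rfl
  have c2 : ∀ τ : ℝ, (ystar ψ + τ • w) 2 = ψ + τ * w 2 := fun _ => rfl
  have c3 : ∀ τ : ℝ, (ystar ψ + τ • w) 3 = arccos (2 * cos ψ) + τ * w 3 := fun _ => rfl
  have c4 : ∀ τ : ℝ, (ystar ψ + τ • w) 4 = -π - arccos (2 * cos ψ) + τ * w 4 := fun _ => rfl
  have c5 : ∀ τ : ℝ, (ystar ψ + τ • w) 5 = pstar ψ + τ * w 5 := fun _ => rfl
  have c6 : ∀ τ : ℝ, (ystar ψ + τ • w) 6 = -1 + τ * w 6 := fun _ => rfl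
  have c7 : ∀ τ : ℝ, (ystar ψ + τ • w) 7 = -pstar ψ + τ * w 7 := fun _ => rfl
  have d0 : ystar ψ 0 = ψ := rfl
  have d3 : ystar ψ 3 = arccos (2 * cos ψ) := rfl
  have d4 : ystar ψ 4 = -π - arccos (2 * cos ψ) := rfl
  simp only [rhoE, rf, DD, cc, rho, d0, d3, d4] at hE hcc
  generalize arccos (2 * cos ψ) = a at *
  generalize pstar ψ = p at *
  generalize ystar ψ = y at *
  have s4 : sin (-π - a) = sin a := by
    rw [show -π - a = -(a + π) by ring, sin_neg, sin_add_pi, neg_neg]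
  have k4 : cos (-π - a) = -(2 * cos ψ) := by
    rw [show -π - a = -(a + π) by ring, cos_neg, cos_add_pi, f4]
  simp only [Lim3_F8] at H
  have w0 : w 0 = 0 := by
    have u : HasDerivAt (fun τ : ℝ => (y + τ • w) 0) 0 0 := H 0
    simp only [c0] at u
    exact (Lim3_line ψ (w 0)).unique u
  have hr : ∀ τ : ℝ, rho (y + τ • w) = sin ψ / 2 := fun τ => by
    simp only [rho, c0, w0, mul_zero, add_zero]
  have w1 : w 1 = 0 := by
    have t := (((Lim3_sin (π - ψ) (w 1)).const_mul (sin ψ / 2)).div_const 2).const_sub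
      ((sin ψ / 2) ^ 2)
    have u : HasDerivAt (fun τ : ℝ => rho (y + τ • w) ^ 2 -
      rho (y + τ • w) * sin ((y + τ • w) 1) / 2) 0 0 := H 1
    simp only [hr, c1] at u
    have e := t.unique u
    rw [cos_pi_sub] at e
    have : (sin ψ * cos ψ) * w 1 = 0 := by linear_combination 4 * e
    exact (mul_eq_zero.1 this).resolve_left (by positivity)
  have w2 : w 2 = 0 := by
    have t := (((Lim3_sin ψ (w 2)).const_mul (sin ψ / 2)).div_const 2).const_sub
      ((sin ψ / 2) ^ 2)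
    have u : HasDerivAt (fun τ : ℝ => rho (y + τ • w) ^ 2 -
      rho (y + τ • w) * sin ((y + τ • w) 2) / 2) 0 0 := H 2
    simp only [hr, c2] at u
    have e := t.unique u
    have : (sin ψ * cos ψ) * w 2 = 0 := by linear_combination (-4) * e
    exact (mul_eq_zero.1 this).resolve_left (by positivity)
  have hE' : HasDerivAt (fun τ : ℝ => rhoE (y + τ • w)) 0 0 := by
    have u : HasDerivAt (fun τ : ℝ => rhoE (y + τ • w) - rho (y + τ • w)) 0 0 := H 3
    simp only [hr] at u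
    simpa using u.add_const (sin ψ / 2)
  have w4 : w 4 = -w 3 := by
    have t1 := Lim3_sin (-π - a) (w 4)
    have t2 := ((((Lim3_sin a (w 3)).const_mul (sin ψ / 2)).div_const 2).sub_const
      ((sin ψ / 2) ^ 2)).const_mul 16
    have hpos : 0 < sin (-π - a) ^ 2 - 16 * (sin ψ / 2 * sin a / 2 - (sin ψ / 2) ^ 2) := by
      nlinarith [sq_nonneg (sin (-π - a))]
    have t3 := ((t1.pow 2).sub t2).sqrt (by simpa using hpos.ne')
    have t4 := (t1.add t3).div_const 4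
    have u := hE'
    simp only [rhoE, rf, DD, cc, hr, c3, c4] at u
    have e := t4.unique u
    have hD := sqrt_pos.2 hpos
    simp only [Pi.sub_apply, Pi.pow_apply, zero_mul, add_zero] at e
    generalize √(sin (-π - a) ^ 2 - 16 * (sin ψ / 2 * sin a / 2 - (sin ψ / 2) ^ 2)) = D at *
    rw [s4] at hE
    rw [s4, k4, f4] at e
    field_simp at e
    have : (sin ψ * cos ψ) * (w 4 + w 3) = 0 := by
      have hD2 : D = 2 * sin ψ - sin a := by linarith
      rw [hD2] at e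
      push_cast at e
      linear_combination (-1/16) * e
    have := (mul_eq_zero.1 this).resolve_left (by positivity)
    linarith
  have hE0 : rhoE (y + (0:ℝ) • w) = sin ψ / 2 := by
    simp only [rhoE, rf, DD, cc, hr, c3, c4, zero_mul, add_zero]
    exact hE
  have w3 : w 3 = 0 := by
    have u : HasDerivAt (fun τ : ℝ => bil (av (y + τ • w) 4) (av (y + τ • w) 4) / 2) 0 0 := H 4
    have q : ∀ τ : ℝ, bil (av (y + τ • w) 4) (av (y + τ • w) 4) / 2 =
        (rhoE (y + τ • w) / 2) ^ 2 - ((rhoE (y + τ • w) * sin (-π - a + τ * w 4) +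
          sin ψ / 2 * sin ψ - sin ψ / 2 * sin (a + τ * w 3)) / 2) ^ 2 -
          ((-(rhoE (y + τ • w) * cos (-π - a + τ * w 4)) - 3 * (sin ψ / 2) * cos ψ +
            sin ψ / 2 * cos (a + τ * w 3)) / 2) ^ 2 := fun τ => by
      simp only [bil, av, nilv, hr, c0, c1, c2, c3, c4, w0, w1, w2, mul_zero, add_zero,
        sin_pi_sub, cos_pi_sub]
      simp
      ring
    simp only [q] at u
    have t1 := (hE'.div_const 2).pow 2
    have t2 := ((((hE'.mul (Lim3_sin (-π - a) (w 4))).add_const (sin ψ / 2 * sin ψ)).sub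
      ((Lim3_sin a (w 3)).const_mul (sin ψ / 2))).div_const 2).pow 2
    have t3 := (((((hE'.mul (Lim3_cos (-π - a) (w 4))).neg).sub_const
      (3 * (sin ψ / 2) * cos ψ)).add ((Lim3_cos a (w 3)).const_mul (sin ψ / 2))).div_const 2).pow 2
    have e := ((t1.sub t2).sub t3).unique u
    simp only [Pi.sub_apply, Pi.add_apply, Pi.mul_apply, Pi.neg_apply, hE0, zero_mul, add_zero,
      s4, k4, f4, w4] at e
    have : (sin ψ ^ 2 * cos ψ * sin a) * w 3 = 0 := by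
      push_cast at e
      linear_combination 4 * e
    exact (mul_eq_zero.1 this).resolve_left (by positivity)
  have w4' : w 4 = 0 := by rw [w4, w3, neg_zero]
  have hE1 : ∀ τ : ℝ, rhoE (y + τ • w) = sin ψ / 2 := fun τ => by
    simp only [rhoE, rf, DD, cc, hr, c3, c4, w3, w4', mul_zero, add_zero]
    exact hE
  have hP : 0 < 1 + 2 * cos ψ ^ 2 - sin ψ * sin a := by
    nlinarith [sin_le_one a, sin_le_one ψ, mul_pos f1 f1]
  have hp2 : p ^ 2 * (1 + 2 * cos ψ ^ 2 - sin ψ * sin a) = 1 - 2 * cos ψ ^ 2 - sin ψ * sin a := by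
    have : 0 < √((1 - 2 * cos ψ ^ 2 - sin ψ * sin a) / (1 + 2 * cos ψ ^ 2 - sin ψ * sin a)) := by
      rw [← hpd]; linarith
    rw [hpd, sq_sqrt (sqrt_pos.1 this).le]
    field_simp
  obtain ⟨B, hB⟩ : ∃ B, B = (sin ψ / 2) ^ 2 * cos ψ ^ 2 := ⟨_, rfl⟩
  obtain ⟨P, hPd⟩ : ∃ P, P = (sin ψ / 2) ^ 2 * (1 + 2 * cos ψ ^ 2 - sin ψ * sin a) / 2 := ⟨_, rfl⟩
  have hB0 : 0 < B := by rw [hB]; positivity
  have hP0 : 0 < P := by rw [hPd]; positivity
  have hav : ∀ τ : ℝ, av (y + τ • w) = ![nilv (-(sin ψ / 2)) (-π - a), nilv (-(sin ψ / 2)) ψ,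
      nilv (sin ψ / 2) (π - ψ), nilv (-(sin ψ / 2)) ψ, nilv (sin ψ / 2) (π - ψ)] := fun τ => by
    simp only [av, hr, hE1, c0, c1, c2, c3, c4, w0, w1, w2, w3, w4', mul_zero, add_zero]
    congr 5
    funext k
    fin_cases k <;> simp [nilv, s4, k4, f4] <;> ring
  have b1 : bil (nilv (sin ψ / 2) (π - ψ)) (nilv (-(sin ψ / 2)) (-π - a)) = -(P * p ^ 2) := by
    simp [bil, nilv, s4, k4, hPd]
    linear_combination (sin ψ / 2) ^ 2 / 2 * hp2
  have b2 : bil (nilv (sin ψ / 2) (π - ψ)) (nilv (-(sin ψ / 2)) ψ) = -B := by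
    simp [bil, nilv, hB]
    linear_combination (sin ψ / 2) ^ 2 / 2 * hsc
  have b3 : bil (nilv (-(sin ψ / 2)) ψ) (nilv (sin ψ / 2) (π - ψ)) = -B := by
    simp [bil, nilv, hB]
    linear_combination (sin ψ / 2) ^ 2 / 2 * hsc
  have b4 : bil (nilv (-(sin ψ / 2)) ψ) (nilv (-(sin ψ / 2)) (-π - a)) = P := by
    simp [bil, nilv, s4, k4, hPd]
    ring
  have b5 : ∀ κ x : ℝ, bil (nilv κ x) (nilv κ x) = 0 := fun κ x => by
    simp [bil, nilv]
    linear_combination -(κ / 2) ^ 2 * sin_sq_add_cos_sq x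
  have n1 : p ≠ 0 := by linarith
  have n2 : p - 1 ≠ 0 := by linarith
  have n3 : p + 1 ≠ 0 := by linarith
  have e1 : P * w 5 + B / (1 - p) ^ 2 * w 5 + B / (1 + p) ^ 2 * (w 5 - w 6) = 0 := by
    have u : HasDerivAt (fun τ : ℝ => resv (y + τ • w) 2) 0 0 := H 5
    have q : ∀ τ : ℝ, resv (y + τ • w) 2 = -(P * p ^ 2) / (p + τ * w 5) +
        -B / (p - 1 + τ * w 5) + -B / (p + 1 + τ * (w 5 - w 6)) := fun τ => by
      rw [resv, show Finset.univ.erase (2 : Fin 5) = {0, 1, 3, 4} by decide, hav]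
      simp only [Finset.mem_insert, Finset.mem_singleton, Fin.reduceEq, or_self,
        not_false_eq_true, Finset.sum_insert, Finset.sum_singleton, pos, yp, c5, c6, c7]
      simp only [Matrix.cons_val, b1, b2, b5, zero_div, add_zero, sub_zero]
      ring
    simp only [q] at u
    have e := (((Lim3_div (-(P * p ^ 2)) (w 5) n1).add (Lim3_div (-B) (w 5) n2)).add
      (Lim3_div (-B) (w 5 - w 6) n3)).unique u
    rw [← e, show (1 - p) ^ 2 = (p - 1) ^ 2 by ring, add_comm 1 p]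
    field_simp
  have e2 : -P * w 6 + B / (1 + p) ^ 2 * (w 6 - w 5) + B / (1 - p) ^ 2 * (w 6 - w 7) = 0 := by
    have u : HasDerivAt (fun τ : ℝ => resv (y + τ • w) 3) 0 0 := H 6
    have q : ∀ τ : ℝ, resv (y + τ • w) 3 = P / (-1 + τ * w 6) +
        -B / (-(p + 1) + τ * (w 6 - w 5)) + -B / (p - 1 + τ * (w 6 - w 7)) := fun τ => by
      rw [resv, show Finset.univ.erase (3 : Fin 5) = {0, 1, 2, 4} by decide, hav]
      simp only [Finset.mem_insert, Finset.mem_singleton, Fin.reduceEq, or_self,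
        not_false_eq_true, Finset.sum_insert, Finset.sum_singleton, pos, yp, c5, c6, c7]
      simp only [Matrix.cons_val, b3, b4, b5, zero_div, add_zero, zero_add, sub_zero]
      ring
    simp only [q] at u
    have e := (((Lim3_div P (w 6) (by norm_num : (-1:ℝ) ≠ 0)).add
      (Lim3_div (-B) (w 6 - w 5) (neg_ne_zero.2 n3))).add
      (Lim3_div (-B) (w 6 - w 7) n2)).unique u
    rw [← e, show (1 - p) ^ 2 = (p - 1) ^ 2 by ring, add_comm 1 p]
    field_simp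
  have e3 : P * w 7 + B / (1 + p) ^ 2 * w 7 + B / (1 - p) ^ 2 * (w 7 - w 6) = 0 := by
    have u : HasDerivAt (fun τ : ℝ => resv (y + τ • w) 4) 0 0 := H 7
    have q : ∀ τ : ℝ, resv (y + τ • w) 4 = -(P * p ^ 2) / (-p + τ * w 7) +
        -B / (-(p + 1) + τ * w 7) + -B / (-(p - 1) + τ * (w 7 - w 6)) := fun τ => by
      rw [resv, show Finset.univ.erase (4 : Fin 5) = {0, 1, 2, 3} by decide, hav]
      simp only [Finset.mem_insert, Finset.mem_singleton, Fin.reduceEq, or_self,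
        not_false_eq_true, Finset.sum_insert, Finset.sum_singleton, pos, yp, c5, c6, c7]
      simp only [Matrix.cons_val, b1, b2, b5, zero_div, add_zero, zero_add, sub_zero]
      ring
    simp only [q] at u
    have e := (((Lim3_div (-(P * p ^ 2)) (w 7) (neg_ne_zero.2 n1)).add
      (Lim3_div (-B) (w 7) (neg_ne_zero.2 n3))).add
      (Lim3_div (-B) (w 7 - w 6) (neg_ne_zero.2 n2))).unique u
    rw [← e, show (1 - p) ^ 2 = (p - 1) ^ 2 by ring, add_comm 1 p]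
    field_simp
  obtain ⟨w5, w6, w7⟩ := Lim3_solve hB0 hP0 (by linarith) (by linarith)
    (by rw [hB, hPd]; linear_combination -(sin ψ / 2) ^ 2 / 2 * hp2) e1 e2 e3
  funext i
  fin_cases i
  exacts [w0, w1, w2, w3, w4', w5, w6, w7]

theorem exists_localInv {ψ : ℝ} (h1 : π / 3 < ψ) (h2 : ψ < π / 2) :
    ∃ e : OpenPartialHomeomorph Y8 Y8, ystar ψ ∈ e.source ∧ ∀ y ∈ e.source, e y = F8 y := by
  have hc := Lim3_cd_F8 (yadm_near h1 h2).self_of_nhds
  have hd := (hc.differentiableAt one_ne_zero).hasFDerivAt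
  have hinj : Function.Injective (fderiv ℝ F8 (ystar ψ)).toLinearMap := by
    refine (injective_iff_map_eq_zero _).2 fun w hw => Lim3_ker h1 h2 w ?_
    have hw' : fderiv ℝ F8 (ystar ψ) w = 0 := hw
    have g : HasDerivAt (fun τ : ℝ => ystar ψ + τ • w) w 0 := by
      simpa using ((hasDerivAt_id (0:ℝ)).smul_const w).const_add (ystar ψ)
    have := HasFDerivAt.comp_hasDerivAt_of_eq (0:ℝ) hd g (by simp)
    rw [hw'] at this
    exact hasDerivAt_pi.1 this
  let L : Y8 ≃L[ℝ] Y8 := (LinearEquiv.ofInjectiveEndo _ hinj).toContinuousLinearEquiv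
  have hL : HasFDerivAt F8 (L : Y8 →L[ℝ] Y8) (ystar ψ) := hd
  exact ⟨hc.toOpenPartialHomeomorph F8 hL one_ne_zero,
    hc.mem_toOpenPartialHomeomorph_source hL one_ne_zero, fun y _ => rfl⟩

end Pool.Agent.MP_efb2da_gt

end
end

section

open Set Real
open scoped Topology

noncomputable section

namespace Pool.Agent.MP_efb2da_gt

/-- the point `(χ, 0, …, 0)` -/
def Lim4w (χ : ℝ) : Y8 := fun i => if i = 0 then χ else 0

/-- the affine parametrisation of the small box -/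
def Lim4v (ψ d₁ d₂ : ℝ) (x : Y8) : Y8 := fun i => if i = 0 then ψ + d₁ * x 0 else d₂ * x i

theorem Lim4_F8_ystar {ψ : ℝ} (h1 : π / 3 < ψ) (h2 : ψ < π / 2) : F8 (ystar ψ) = Lim4w ψ := by
  funext i
  by_cases hi : i = 0
  · subst hi
    simp [F8, Lim4w, ystar]
  · simp only [F8, Lim4w, hi, if_false]
    rw [Function.update_of_ne hi]
    exact E0_ystar h1 h2 i hi

theorem Lim4_v_cont (ψ d₁ d₂ : ℝ) : Continuous (Lim4v ψ d₁ d₂) := by
  refine continuous_pi fun i => ?_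
  by_cases hi : i = 0
  · simp only [Lim4v, hi, if_true]
    fun_prop
  · simp only [Lim4v, hi, if_false]
    fun_prop

theorem Lim4_dist_box {ψ d₁ d₂ r : ℝ} (h₁ : 0 < d₁) (h₂ : 0 < d₂) (hr₁ : d₁ < r) (hr₂ : d₂ < r)
    {x : Y8} (hx : ∀ i, |x i| ≤ 1) : dist (Lim4v ψ d₁ d₂ x) (Lim4w ψ) < r := by
  rw [dist_pi_lt_iff (lt_trans h₁ hr₁)]
  intro i
  by_cases hi : i = 0
  · simp only [Lim4v, Lim4w, hi, if_true, Real.dist_eq, add_sub_cancel_left, abs_mul,
      abs_of_pos h₁]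
    have := hx 0
    nlinarith
  · simp only [Lim4v, Lim4w, hi, if_false, Real.dist_eq, sub_zero, abs_mul, abs_of_pos h₂]
    have := hx i
    nlinarith

theorem Lim4_dist_face {ψ d₁ d₂ r s : ℝ} (h₂ : 0 < d₂) (hr₂ : d₂ < r)
    {x : Y8} (hx : ∀ i, |x i| ≤ 1) (h0 : x 0 = s) :
    dist (Lim4v ψ d₁ d₂ x) (Lim4w (ψ + d₁ * s)) < r := by
  rw [dist_pi_lt_iff (lt_trans h₂ hr₂)]
  intro i
  by_cases hi : i = 0
  · simp only [Lim4v, Lim4w, hi, if_true, h0, dist_self]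
    exact lt_trans h₂ hr₂
  · simp only [Lim4v, Lim4w, hi, if_false, Real.dist_eq, sub_zero, abs_mul, abs_of_pos h₂]
    have := hx i
    nlinarith

theorem Lim4_dist_w (χ ψ r : ℝ) (h : |χ - ψ| < r) : dist (Lim4w χ) (Lim4w ψ) < r := by
  have hr : 0 < r := lt_of_le_of_lt (abs_nonneg _) h
  rw [dist_pi_lt_iff hr]
  intro i
  by_cases hi : i = 0
  · simpa only [Lim4w, hi, if_true, Real.dist_eq] using h
  · simpa only [Lim4w, hi, if_false, dist_self] using hr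

theorem limit_box : ∃ ψ, π / 3 < ψ ∧ ψ < π / 2 ∧ ∀ δ > 0, ∃ (Y : Y8 → Y8) (κ : ℝ), 0 < κ ∧
    ContinuousOn Y {x | ∀ i, |x i| ≤ 1} ∧ ∀ x : Y8, (∀ i, |x i| ≤ 1) →
      ‖Y x - ystar ψ‖ ≤ δ ∧ ∀ i, (x i = 1 → κ ≤ E0 (Y x) i) ∧ (x i = -1 → E0 (Y x) i ≤ -κ) := by
  obtain ⟨ψ, h1, h2, -, δ₀, hδ₀, hsign⟩ := exists_root
  refine ⟨ψ, h1, h2, fun δ hδ => ?_⟩
  obtain ⟨e, hsrc, he⟩ := exists_localInv h1 h2
  have hev : e (ystar ψ) = Lim4w ψ := by rw [he _ hsrc, Lim4_F8_ystar h1 h2]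
  have htar : Lim4w ψ ∈ e.target := hev ▸ e.map_source hsrc
  have hsymm : e.symm (Lim4w ψ) = ystar ψ := by rw [← hev, e.left_inv hsrc]
  -- a ball on which the inverse behaves well
  have hU : ∀ᶠ y in 𝓝 (ystar ψ), ‖y - ystar ψ‖ ≤ δ ∧ Yadm y := by
    refine Filter.Eventually.and ?_ (yadm_near h1 h2)
    filter_upwards [Metric.closedBall_mem_nhds (ystar ψ) hδ] with y hy
    rwa [Metric.mem_closedBall, dist_eq_norm] at hy
  have hcs : ContinuousAt e.symm (Lim4w ψ) := e.continuousAt_symm htar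
  have hG : ∀ᶠ v in 𝓝 (Lim4w ψ), v ∈ e.target ∧ ‖e.symm v - ystar ψ‖ ≤ δ ∧ Yadm (e.symm v) := by
    refine Filter.Eventually.and (e.open_target.mem_nhds htar) ?_
    have h := hcs.tendsto
    rw [hsymm] at h
    exact h.eventually hU
  obtain ⟨ε, hε, hball⟩ := Metric.eventually_nhds_iff.1 hG
  -- nearby points of the curve
  have hmem : Ioo (π / 3) (π / 2) ∈ 𝓝 ψ := Ioo_mem_nhds h1 h2
  have hcy : ContinuousAt ystar ψ := continuousOn_ystar.continuousAt hmem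
  have hχ : ∀ᶠ χ in 𝓝 ψ, χ ∈ Ioo (π / 3) (π / 2) ∧ ystar χ ∈ e.source :=
    Filter.Eventually.and hmem (hcy.tendsto.eventually (e.open_source.mem_nhds hsrc))
  obtain ⟨ε', hε', hball'⟩ := Metric.eventually_nhds_iff.1 hχ
  have hcurve : ∀ χ, |χ - ψ| < ε' → e.symm (Lim4w χ) = ystar χ := by
    intro χ h
    obtain ⟨hI, hS⟩ := hball' (y := χ) (by rwa [Real.dist_eq])
    rw [← Lim4_F8_ystar hI.1 hI.2, ← he _ hS, e.left_inv hS]
  -- continuity of the first equation along the inverse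
  have hcont : ContinuousOn (fun v => E0 (e.symm v) 0) (Metric.ball (Lim4w ψ) ε) := by
    have ha : ContinuousOn e.symm (Metric.ball (Lim4w ψ) ε) :=
      e.continuousOn_symm.mono fun v hv => (hball hv).1
    have hb : ContinuousOn (fun v => E0 (e.symm v)) (Metric.ball (Lim4w ψ) ε) :=
      continuousOn_E0.comp ha fun v hv => (hball hv).2.2
    exact (continuous_apply 0).comp_continuousOn hb
  obtain ⟨d₁, hd₁, hd₁ε, hd₁ε', hd₁δ⟩ : ∃ d₁ : ℝ, 0 < d₁ ∧ d₁ < ε ∧ d₁ < ε' ∧ d₁ < δ₀ := by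
    refine ⟨min ε (min ε' δ₀) / 2, by positivity, ?_, ?_, ?_⟩
    · have := min_le_left ε (min ε' δ₀)
      linarith
    · have := le_trans (min_le_right ε (min ε' δ₀)) (min_le_left ε' δ₀)
      linarith
    · have := le_trans (min_le_right ε (min ε' δ₀)) (min_le_right ε' δ₀)
      linarith
  have habs : ∀ s : ℝ, |s| = 1 → |ψ + d₁ * s - ψ| = d₁ := by
    intro s hs
    rw [add_sub_cancel_left, abs_mul, hs, abs_of_pos hd₁, mul_one]
  have hat : ∀ s : ℝ, |s| = 1 →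
      ContinuousAt (fun v => E0 (e.symm v) 0) (Lim4w (ψ + d₁ * s)) := by
    intro s hs
    refine hcont.continuousAt (Metric.isOpen_ball.mem_nhds ?_)
    exact Lim4_dist_w _ _ _ (by rw [habs s hs]; exact hd₁ε)
  have hpos : 0 < E0 (e.symm (Lim4w (ψ + d₁ * 1))) 0 := by
    rw [hcurve _ (by rw [habs 1 abs_one]; exact hd₁ε')]
    exact (hsign _).2 (by linarith) (by linarith)
  have hneg : E0 (e.symm (Lim4w (ψ + d₁ * (-1)))) 0 < 0 := by
    rw [hcurve _ (by rw [habs (-1) (by simp)]; exact hd₁ε')]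
    exact (hsign _).1 (by linarith) (by linarith)
  obtain ⟨a, ha⟩ : ∃ a, a = E0 (e.symm (Lim4w (ψ + d₁ * 1))) 0 := ⟨_, rfl⟩
  obtain ⟨b, hb⟩ : ∃ b, b = E0 (e.symm (Lim4w (ψ + d₁ * (-1)))) 0 := ⟨_, rfl⟩
  have hP : ∀ᶠ v in 𝓝 (Lim4w (ψ + d₁ * 1)), a / 2 < E0 (e.symm v) 0 :=
    (hat 1 abs_one).eventually (lt_mem_nhds (by rw [ha]; linarith))
  have hN : ∀ᶠ v in 𝓝 (Lim4w (ψ + d₁ * (-1))), E0 (e.symm v) 0 < b / 2 :=
    (hat (-1) (by simp)).eventually (gt_mem_nhds (by rw [hb]; linarith))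
  obtain ⟨η₁, hη₁, hP'⟩ := Metric.eventually_nhds_iff.1 hP
  obtain ⟨η₂, hη₂, hN'⟩ := Metric.eventually_nhds_iff.1 hN
  obtain ⟨d₂, hd₂, hd₂ε, hd₂η₁, hd₂η₂⟩ : ∃ d₂ : ℝ, 0 < d₂ ∧ d₂ < ε ∧ d₂ < η₁ ∧ d₂ < η₂ := by
    refine ⟨min ε (min η₁ η₂) / 2, by positivity, ?_, ?_, ?_⟩
    · have := min_le_left ε (min η₁ η₂)
      linarith
    · have := le_trans (min_le_right ε (min η₁ η₂)) (min_le_left η₁ η₂)
      linarith
    · have := le_trans (min_le_right ε (min η₁ η₂)) (min_le_right η₁ η₂)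
      linarith
  rw [← ha] at hpos
  rw [← hb] at hneg
  have hin : ∀ x : Y8, (∀ i, |x i| ≤ 1) → dist (Lim4v ψ d₁ d₂ x) (Lim4w ψ) < ε :=
    fun x hx => Lim4_dist_box hd₁ hd₂ hd₁ε hd₂ε hx
  refine ⟨fun x => e.symm (Lim4v ψ d₁ d₂ x), min d₂ (min (a / 2) (-b / 2)), ?_, ?_, ?_⟩
  · refine lt_min hd₂ (lt_min ?_ ?_) <;> linarith
  · exact e.continuousOn_symm.comp (Lim4_v_cont ψ d₁ d₂).continuousOn
      fun x hx => (hball (hin x hx)).1
  · intro x hx
    obtain ⟨hxt, hxδ, -⟩ := hball (hin x hx)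
    refine ⟨hxδ, fun i => ?_⟩
    have hk1 : min d₂ (min (a / 2) (-b / 2)) ≤ d₂ := min_le_left _ _
    have hk2 : min d₂ (min (a / 2) (-b / 2)) ≤ a / 2 :=
      le_trans (min_le_right _ _) (min_le_left _ _)
    have hk3 : min d₂ (min (a / 2) (-b / 2)) ≤ -b / 2 :=
      le_trans (min_le_right _ _) (min_le_right _ _)
    by_cases hi : i = 0
    · subst hi
      refine ⟨fun h => ?_, fun h => ?_⟩
      · have := hP' (Lim4_dist_face (ψ := ψ) (d₁ := d₁) hd₂ hd₂η₁ hx h)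
        linarith
      · have := hN' (Lim4_dist_face (ψ := ψ) (d₁ := d₁) hd₂ hd₂η₂ hx h)
        linarith
    · have hE : E0 (e.symm (Lim4v ψ d₁ d₂ x)) i = d₂ * x i := by
        have h3 : F8 (e.symm (Lim4v ψ d₁ d₂ x)) = Lim4v ψ d₁ d₂ x := by
          rw [← he _ (e.map_target hxt), e.right_inv hxt]
        have h4 := congrFun h3 i
        simp only [F8] at h4
        rw [Function.update_of_ne hi] at h4
        rw [h4]
        simp only [Lim4v, hi, if_false]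
      refine ⟨fun h => ?_, fun h => ?_⟩
      · show _ ≤ E0 (e.symm (Lim4v ψ d₁ d₂ x)) i
        rw [hE, h]
        linarith
      · show E0 (e.symm (Lim4v ψ d₁ d₂ x)) i ≤ _
        rw [hE, h]
        linarith

end Pool.Agent.MP_efb2da_gt

end
end
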