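import Pool.Agent.Mg.Fefb2da.G9d7479
import Pool.Agent.Mg.Fefb2da.G5bb93d
import Pool.Agent.Mg.Fefb2da.G37fbc2
import Pool.Agent.MP_efb2da_gt.Contract
import Pool.Agent.Mg.Fefb2da.G7ee8d7

section

open Set Complex
open scoped Topology ComplexConjugate Matrix ContDiff

noncomputable section

namespace Pool.Agent.MP_efb2da_gt

lemma So1_mul {A B : MW} {a b : ℝ} (hA : ‖A‖ ≤ a) (hB : ‖B‖ ≤ b) : ‖A * B‖ ≤ a * b :=
  (norm_mul_le _ _).trans
    (mul_le_mul hA hB (norm_nonneg _) ((norm_nonneg _).trans hA))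

lemma So1_adj {A : MW} {a : ℝ} (hA : ‖A‖ ≤ a) : ‖adj A‖ ≤ 2 * a :=
  (norm_adj_le A).trans (by linarith)

lemma So1_add {A B : MW} {a b : ℝ} (hA : ‖A‖ ≤ a) (hB : ‖B‖ ≤ b) : ‖A + B‖ ≤ a + b :=
  (norm_add_le _ _).trans (add_le_add hA hB)

lemma So1_A {H H' T : MW} {D e : ℝ} (h1 : ‖H‖ ≤ D) (h2 : ‖H - H'‖ ≤ e) (h3 : ‖T - 1‖ ≤ e) :
    ‖H * T - H'‖ ≤ (D + 1) * e := by
  have : H * T - H' = H * (T - 1) + (H - H') := by noncomm_ring
  rw [this]
  exact (So1_add (So1_mul h1 h3) h2).trans_eq (by ring)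

lemma So1_B {H H' T : MW} {D e : ℝ} (hd : H'.det = 1) (h1 : ‖H‖ ≤ D) (h1' : ‖H'‖ ≤ D)
    (h2 : ‖H - H'‖ ≤ e) (h3 : ‖T - 1‖ ≤ e) : ‖H * T * adj H - 1‖ ≤ (2 * D ^ 2 + 4 * D) * e := by
  have : H * T * adj H - 1 = H * (T - 1) * adj H + ((H - H') * adj H + H' * adj (H - H')) := by
    rw [map_sub, ← mul_adj_of_det hd]
    have e1 : H * (T - H' * adj H') * adj H = H * (T - 1) * adj H := by rw [mul_adj_of_det hd]
    rw [e1]
    noncomm_ring
  rw [this]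
  exact (So1_add (So1_mul (So1_mul h1 h3) (So1_adj h1))
    (So1_add (So1_mul h2 (So1_adj h1)) (So1_mul h1' (So1_adj h2)))).trans_eq (by ring)

lemma So1_C {R P H' : MW} {D e : ℝ} (h1 : ‖P‖ ≤ D) (h2 : ‖P - H'‖ ≤ e) (h3 : ‖R - 1‖ ≤ e) :
    ‖adj R * P - H'‖ ≤ (2 * D + 1) * e := by
  have : adj R * P - H' = adj (R - 1) * P + (P - H') := by
    rw [map_sub, adj_one]; noncomm_ring
  rw [this]
  exact (So1_add (So1_mul (So1_adj h3) h1) h2).trans_eq (by ring)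

lemma So1_D {H H' X X' : MW} {D e : ℝ} (h1 : ‖X‖ ≤ D) (h1' : ‖H'‖ ≤ D)
    (h2 : ‖H - H'‖ ≤ e) (h3 : ‖X - X'‖ ≤ e) : ‖H * X - H' * X'‖ ≤ 2 * D * e := by
  have : H * X - H' * X' = (H - H') * X + H' * (X - X') := by noncomm_ring
  rw [this]
  exact (So1_add (So1_mul h2 h1) (So1_mul h1' h3)).trans_eq (by ring)

lemma So1_conj {H' : MW} (hd : H'.det = 1) (a : MW) :
    adj (Uf H') * (H' * (Bi H' * a * Bm H') * adj H') * Uf H' = a := by
  have e1 : adj H' = Bi H' * adj (Uf H') := by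
    conv_lhs => rw [← Uf_mul_Bm hd]
    rw [adj_mul, adj_Bm]
  have e2 : adj (Uf H') * Uf H' = 1 := adj_mul_of_det (det_Uf hd)
  have e3 : adj (Uf H') * H' * Bi H' = 1 := by rw [mul_assoc]; exact e2
  have e4 : Bm H' * adj H' * Uf H' = 1 := by
    rw [e1, ← mul_assoc, Bm_mul_Bi hd, one_mul, e2]
  calc adj (Uf H') * (H' * (Bi H' * a * Bm H') * adj H') * Uf H'
      = (adj (Uf H') * H' * Bi H') * a * (Bm H' * adj H' * Uf H') := by noncomm_ring
    _ = a := by rw [e3, e4, one_mul, mul_one]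

lemma So1_E {H H' S a : MW} {D e : ℝ} (hd : H'.det = 1) (h1 : ‖H‖ ≤ D) (h1' : ‖H'‖ ≤ D)
    (hU : ‖Uf H'‖ ≤ D) (hS0 : ‖Bi H' * a * Bm H'‖ ≤ D) (he : e ≤ D)
    (h2 : ‖H - H'‖ ≤ e) (h3 : ‖S - Bi H' * a * Bm H'‖ ≤ e) :
    ‖adj (Uf H') * (H * S * adj H) * Uf H' - a‖ ≤ 16 * D ^ 4 * e := by
  set S0 := Bi H' * a * Bm H' with hS0d
  have hS : ‖S‖ ≤ 2 * D := by
    have : S = S0 + (S - S0) := by abel
    rw [this]
    exact (So1_add hS0 h3).trans (by linarith)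
  have : adj (Uf H') * (H * S * adj H) * Uf H' - a = adj (Uf H') *
      ((H - H') * S * adj H + (H' * (S - S0) * adj H + H' * S0 * adj (H - H'))) * Uf H' := by
    conv_lhs => rw [← So1_conj hd a, ← hS0d]
    rw [map_sub]
    noncomm_ring
  rw [this]
  exact (So1_mul (So1_mul (So1_adj hU) (So1_add (So1_mul (So1_mul h2 hS) (So1_adj h1))
    (So1_add (So1_mul (So1_mul h1' h3) (So1_adj h1))
      (So1_mul (So1_mul h1' hS0) (So1_adj h2))))) hU).trans_eq (by ring)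

lemma So1_norm_dat {s RG Rm : ℝ} (hG : 0 ≤ RG) (hm : 0 ≤ Rm) (p : Par) {x : EE} (hx : ‖x‖ ≤ 1)
    {B : ℝ} (hA : ‖AA (dat s RG Rm p x)‖ ≤ B) : ‖dat s RG Rm p x‖ ≤ B + RG + Rm := by
  have hB : 0 ≤ B := (norm_nonneg _).trans hA
  have h1 : ‖x.2.1‖ ≤ 1 := (norm_fst_le x.2).trans ((norm_snd_le x).trans hx)
  have h2 : ‖x.2.2‖ ≤ 1 := (norm_snd_le x.2).trans ((norm_snd_le x).trans hx)
  have h3 : ‖(RG : ℂ) • x.2.1‖ ≤ RG := by
    rw [norm_smul, Complex.norm_real, Real.norm_of_nonneg hG]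
    exact mul_le_of_le_one_right hG h1
  have h4 : ‖(fun i => (Rm : ℂ) • x.2.2 i : Fin 3 → CD)‖ ≤ Rm := by
    refine (pi_norm_le_iff_of_nonneg hm).2 fun i => ?_
    rw [norm_smul, Complex.norm_real, Real.norm_of_nonneg hm]
    exact mul_le_of_le_one_right hm ((norm_le_pi_norm _ i).trans h2)
  rw [Prod.norm_def]
  refine max_le (hA.trans (by linarith)) ?_
  rw [Prod.norm_def]
  exact max_le (h3.trans (by linarith)) (h4.trans (by linarith))

lemma So1_sum (d : Dat) (t : Finset (Fin 5)) : ‖∑ j ∈ t, AA d j‖ ≤ 5 * ‖d‖ := by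
  refine (norm_sum_le _ _).trans ?_
  have h1 : ∀ j ∈ t, ‖AA d j‖ ≤ ‖d‖ := fun j _ => (norm_le_pi_norm _ j).trans (norm_fst_le d)
  refine (Finset.sum_le_card_nsmul _ _ _ h1).trans ?_
  rw [nsmul_eq_mul]
  have h2 : (t.card : ℝ) ≤ 5 := by
    have := Finset.card_le_univ t
    rw [Fintype.card_fin] at this
    exact_mod_cast this
  gcongr

lemma So1_le {c a b D : ℝ} (ha : 0 ≤ a) (hab : a ≤ b) (hc : |c| ≤ D) : c * a ≤ D * b :=
  mul_le_mul ((le_abs_self c).trans hc) hab ha ((abs_nonneg c).trans hc)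

/-- the elementary estimates with one constant -/
lemma So1_base {K : Set Y8} (hK : IsCompact K) (hY : ∀ y ∈ K, Yadm y) {RG Rm : ℝ} (hG : 0 ≤ RG)
    (hm : 0 ≤ Rm) : ∃ D N : ℝ, 1 ≤ D ∧ ∃ s₀ > 0, s₀ ≤ 1/2 ∧ ∀ s ∈ Ioc 0 s₀, ∀ p ∈ Box K,
      ∀ x : EE, ‖x‖ ≤ 1 → ∀ g d, g = geo s p.1 → d = dat s RG Rm p x →
      ‖d‖ ≤ N ∧ ‖HH g d‖ ≤ D ∧ ‖HH g d - H0 p.1‖ ≤ D * s ^ 2 ∧
      (∀ i, ∀ r ∈ Icc (0:ℝ) 1, ‖TT g d i r - 1‖ ≤ D * s ^ 4) ∧
      (∀ i, ‖Sof (s ^ 4) (TT g d i 1) - Bi (H0 p.1) * alZ s p x i * Bm (H0 p.1)‖ ≤ D * s ^ 4) ∧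
      ‖Hol (aL g d) 1‖ ≤ D ∧
      ‖Hol (aL g d) 1 - Hol (fun _ => ((ell p.1 : ℝ) : ℂ) • Z40 p.1) 1‖ ≤ D * s ∧
      ‖R1 g d - 1‖ ≤ D * s ^ 4 ∧ ‖Sof (s ^ 4) (R1 g d) - A1p s p x‖ ≤ D * s ^ 4 ∧
      ‖H0 p.1‖ ≤ D ∧ ‖Uf (H0 p.1)‖ ≤ D ∧
      ∀ i, ‖Bi (H0 p.1) * alZ s p x i * Bm (H0 p.1)‖ ≤ D := by
  obtain ⟨s₀, hs₀, L, hgeo⟩ := geo_est hK hY
  obtain ⟨C, hC, hpar⟩ := par_est hK hY
  obtain ⟨N, hN⟩ : ∃ N : ℝ, N = C * (1 + RG ^ 2) + RG + Rm := ⟨_, rfl⟩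
  have hCN : C ≤ N := by
    have : 0 ≤ C * RG ^ 2 := by positivity
    rw [hN]; linarith
  have hN0 : 0 ≤ N := hC.trans hCN
  obtain ⟨C1, h1⟩ := est_H N L
  obtain ⟨C2, h2⟩ := est_T N
  obtain ⟨C3, h3⟩ := est_L N L
  obtain ⟨C4, h4⟩ := est_R1 N
  obtain ⟨E, hE⟩ : ∃ E : ℝ, E = |C1| + |C2| + |C3| + |C4| := ⟨_, rfl⟩
  have a1 := abs_nonneg C1
  have a2 := abs_nonneg C2
  have a3 := abs_nonneg C3
  have a4 := abs_nonneg C4
  have k1 : |C1| ≤ E := by linarith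
  have k2 : |C2| ≤ E := by linarith
  have k3 : |C3| ≤ E := by linarith
  have k4 : |C4| ≤ E := by linarith
  have hE0 : 0 ≤ E := a1.trans k1
  have hEC : 0 ≤ E * C := mul_nonneg hE0 hC
  obtain ⟨D, hD⟩ : ∃ D : ℝ, D = 1 + 5 * N + E * (3 + C) := ⟨_, rfl⟩
  have fin0 : E * (3 + C) ≤ D := by linarith
  have fin : ∀ {u : ℝ}, 0 ≤ u → E * (3 * u + C * u) ≤ D * u := fun {u} hu =>
    (by ring : E * (3 * u + C * u) = E * (3 + C) * u).trans_le
      (mul_le_mul_of_nonneg_right fin0 hu)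
  have fin1 : E ≤ D := by linarith
  have fin2 : 5 * N ≤ D := by linarith
  have fin3 : C ≤ D := by linarith
  have fin4 : 1 ≤ D := by linarith
  clear hE hD a1 a2 a3 a4 fin0 hEC
  refine ⟨D, N, fin4, min s₀ (1/2), lt_min hs₀ (by norm_num), min_le_right _ _, ?_⟩
  rintro s hs p hp x hx g d rfl rfl
  have hs0 : 0 < s := hs.1
  have hs1 : s ≤ 1/2 := hs.2.trans (min_le_right _ _)
  have s42 : s ^ 4 ≤ s ^ 2 := pow_le_pow_of_le_one hs0.le (by linarith) (by norm_num)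
  have s41 : s ^ 4 ≤ s := by
    simpa using pow_le_pow_of_le_one hs0.le (show s ≤ 1 by linarith) (show 1 ≤ 4 by norm_num)
  have s40 : 0 < s ^ 4 := by positivity
  have s20 : 0 < s ^ 2 := by positivity
  have hC4 : 0 ≤ C * s ^ 4 := by positivity
  obtain ⟨g1, g2, g3, g4, g5, g6, g7⟩ := hgeo s ⟨hs0, hs.2.trans (min_le_left _ _)⟩ p.1 hp.1
  obtain ⟨p1, -, -, p4, -, -, -, p8, p9, p10, p11, p12, -, -, -⟩ := hpar s ⟨hs0, hs1⟩ p hp x hx
  have hd : ‖dat s RG Rm p x‖ ≤ N := hN ▸ So1_norm_dat hG hm p hx (p8 RG Rm hG)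
  have e0 : 0 < ee (geo s p.1) := g1.2.1.1
  have q0 : 0 < qq (geo s p.1) := g1.2.2.1.1
  have ht : tt (geo s p.1) = s ^ 4 := rfl
  have hA1 : AA (dat s RG Rm p x) 1 = A1p s p x := rfl
  obtain ⟨b1, b2⟩ := h1 _ _ A10 g1 hd (p9.trans hCN) (g4.trans_le g6)
  obtain ⟨c1, c2⟩ := h3 _ _ (Z40 p.1) g1 hd (p10.trans hCN) (g5.trans_le g7)
  obtain ⟨d1, d2⟩ := h4 _ _ g1 hd (dat_tr s RG Rm p x 1)
  rw [g4, ht, hA1] at b2
  rw [g5, ht, dat_sum] at c2
  rw [ht] at d1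
  rw [ht, hA1] at d2
  refine ⟨hd, b1.trans ((le_abs_self _).trans (k1.trans fin1)), ?_, fun i r hr => ?_, fun i => ?_,
    c1.trans ((le_abs_self _).trans (k3.trans fin1)), ?_, ?_, ?_, p11.trans fin3,
    p12.trans fin3, fun i => ?_⟩
  · refine b2.trans ((So1_le (add_nonneg s40.le (norm_nonneg _)) ?_ k1).trans (fin s20.le))
    linarith only [p1, s42, s20]
  · have := (h2 _ _ i g1 hd (dat_tr s RG Rm p x)).1 r hr
    rw [ht] at this
    refine this.trans ((So1_le s40.le ?_ k2).trans (fin s40.le))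
    linarith only [hC4, s40]
  · have := (h2 _ _ i g1 hd (dat_tr s RG Rm p x)).2
    rw [ht, dat_ins] at this
    refine this.trans ((So1_le (add_pos (add_pos s40 e0) q0).le ?_ k2).trans (fin s40.le))
    linarith only [hC4, g2, g3]
  · refine c2.trans ((So1_le (add_nonneg s40.le (norm_nonneg _)) ?_ k3).trans (fin hs0.le))
    linarith only [p4, s41, hs0]
  · refine d1.trans ((So1_le s40.le ?_ k4).trans (fin s40.le))
    linarith only [hC4, s40]
  · refine d2.trans ((So1_le (add_pos s40 e0).le ?_ k4).trans (fin s40.le))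
    linarith only [hC4, s40, g2]
  · rw [← dat_ins s RG Rm]
    refine (So1_sum _ _).trans ?_
    linarith only [hd, fin2]

/-- the holonomies are close to their limits, uniformly on the complex ball -/
theorem hol_close {K : Set Y8} (hK : IsCompact K) (hY : ∀ y ∈ K, Yadm y) {RG Rm : ℝ} (hG : 0 ≤ RG)
    (hm : 0 ≤ Rm) : ∃ C N : ℝ, ∃ s₀ > 0, ∀ s ∈ Ioc 0 s₀, ∀ p ∈ Box K, ∀ x : EE, ‖x‖ ≤ 1 →
      let g := geo s p.1
      let d := dat s RG Rm p x
      ‖d‖ ≤ N ∧ ‖Php g d - H0 p.1‖ ≤ C * s ∧ ‖Phm g d - H0 p.1‖ ≤ C * s ∧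
      ‖Phi g d - Phi0 p.1‖ ≤ C * s ∧ ‖R1 g d - 1‖ ≤ C * s ∧ (∀ i, ‖RR g d i - 1‖ ≤ C * s) ∧
      ‖Sof (s ^ 4) (R1 g d) - A1p s p x‖ ≤ C * s ^ 4 ∧ ∀ i, ‖errZ s RG Rm p x i‖ ≤ C * s ^ 2 := by
  obtain ⟨D, N, hD, s₀, hs₀, hs₀', h⟩ := So1_base hK hY hG hm
  refine ⟨64 * D ^ 5, N, s₀, hs₀, fun s hs p hp x hx => ?_⟩
  intro g d
  obtain ⟨b0, b1, b2, b3, b4, b5, b6, b7, b8, b9, b10, b11⟩ := h s hs p hp x hx g d rfl rfl
  have hs0 : 0 < s := hs.1
  have hs1 : s ≤ 1 := by linarith [hs.2]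
  have hD0 : 0 ≤ D := by linarith
  have s42 : D * s ^ 4 ≤ D * s ^ 2 :=
    mul_le_mul_of_nonneg_left (pow_le_pow_of_le_one hs0.le hs1 (by norm_num)) hD0
  have s21 : D * s ^ 2 ≤ D * s := by
    refine mul_le_mul_of_nonneg_left ?_ hD0
    simpa using pow_le_pow_of_le_one hs0.le hs1 (show 1 ≤ 2 by norm_num)
  have s10 : D * s ≤ D := mul_le_of_le_one_right hD0 hs1
  have D2 : D ≤ D ^ 2 := by nlinarith
  have D3 : D ^ 2 ≤ D ^ 3 := pow_le_pow_right₀ hD (by norm_num)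
  have D4 : D ^ 3 ≤ D ^ 4 := pow_le_pow_right₀ hD (by norm_num)
  have D5 : D ^ 4 ≤ D ^ 5 := pow_le_pow_right₀ hD (by norm_num)
  have fin : ∀ {c u : ℝ}, 0 ≤ u → c ≤ 64 * D ^ 5 → c * u ≤ 64 * D ^ 5 * u :=
    fun hu hc => mul_le_mul_of_nonneg_right hc hu
  have hdet := det_H0 p.1
  have cT : ∀ i, ∀ r ∈ Icc (0:ℝ) 1, ‖TT g d i r - 1‖ ≤ D * s :=
    fun i r hr => (b3 i r hr).trans (s42.trans s21)
  have cH : ‖HH g d - H0 p.1‖ ≤ D * s := b2.trans s21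
  have cP : ‖Php g d - H0 p.1‖ ≤ 2 * D ^ 2 * s := by
    refine (So1_A b1 cH (cT 0 (1/2) ⟨by norm_num, by norm_num⟩)).trans ?_
    have : (D + 1) * D ≤ 2 * D ^ 2 := by nlinarith
    nlinarith
  have cR : ∀ i, ‖RR g d i - 1‖ ≤ 6 * D ^ 3 * s := by
    intro i
    refine (So1_B hdet b1 b9 cH (cT i 1 ⟨by norm_num, by norm_num⟩)).trans ?_
    have : (2 * D ^ 2 + 4 * D) * D ≤ 6 * D ^ 3 := by nlinarith
    nlinarith
  have cP' : ‖Php g d‖ ≤ 3 * D ^ 2 := by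
    have e : Php g d = H0 p.1 + (Php g d - H0 p.1) := by abel
    rw [e]
    refine (So1_add b9 cP).trans ?_
    have : 2 * D ^ 2 * s ≤ 2 * D ^ 2 := mul_le_of_le_one_right (by positivity) hs1
    linarith
  refine ⟨b0, cP.trans (fin hs0.le (by linarith)), ?_, ?_,
    b7.trans ((s42.trans s21).trans (fin hs0.le (by linarith))),
    fun i => (cR i).trans (fin hs0.le (by linarith)), b8.trans (fin (by positivity) (by linarith)),
    fun i => ?_⟩
  · have h2 : ‖Php g d - H0 p.1‖ ≤ 6 * D ^ 3 * s :=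
      cP.trans (mul_le_mul_of_nonneg_right (by linarith) hs0.le)
    refine (So1_C cP' h2 (cR 0)).trans ?_
    rw [← mul_assoc]
    refine fin hs0.le ?_
    nlinarith
  · refine (So1_D b5 b9 cH b6).trans ?_
    rw [← mul_assoc]
    refine fin hs0.le ?_
    nlinarith
  · have e : Sof (s ^ 4) (RR g d i) = HH g d * Sof (s ^ 4) (TT g d i 1) * adj (HH g d) :=
      Sof_RR g d i
    have e2 : errZ s RG Rm p x i =
        adj (Uf (H0 p.1)) * Sof (s ^ 4) (RR g d i) * Uf (H0 p.1) - alZ s p x i := rfl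
    rw [e2, e]
    refine (So1_E hdet b1 b9 b10 (b11 i) (s21.trans s10) b2 ((b4 i).trans s42)).trans ?_
    rw [← mul_assoc]
    refine fin (by positivity) ?_
    nlinarith

lemma So1_flat {M : MW} (h : sharp M = M) : flat M = st M := by rw [st_eq, h]

/-- the gauge formula near the limit -/
theorem gf_close {K : Set Y8} (hK : IsCompact K) (hY : ∀ y ∈ K, Yadm y) {η : ℝ} (hη : 0 < η) :
    ∃ δ > 0, ∀ y ∈ K, ∀ P M Q : MW, ‖P - H0 y‖ ≤ δ → ‖M - H0 y‖ ≤ δ → ‖Q - Phi0 y‖ ≤ δ →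
      ‖Binv (flat M) P * adj (Binv (flat Q) Q) - G0 y‖ ≤ η ∧
      DifferentiableAt ℂ (fun x : MW × MW => Binv x.1 x.2) (flat M, P) ∧
      DifferentiableAt ℂ (fun x : MW × MW => Binv x.1 x.2) (flat Q, Q) ∧
      ‖(symM Q - symM P) - (symM (Phi0 y) - symM (H0 y))‖ ≤ η := by
  let r : Y8 → MW × MW × MW := fun y => (H0 y, H0 y, Phi0 y)
  have hr : ContinuousOn r K :=
    (co_H0.mono hY).prodMk ((co_H0.mono hY).prodMk (co_Phi0.mono hY))
  have hK' : IsCompact (r '' K) := hK.image_of_continuousOn hr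
  let u : MW × MW × MW → MW × MW := fun z => (flat z.2.1, z.1)
  let v : MW × MW × MW → MW × MW := fun z => (flat z.2.2, z.2.2)
  have hu : Continuous u :=
    (flat.continuous.comp (continuous_fst.comp continuous_snd)).prodMk continuous_fst
  have hv : Continuous v :=
    (flat.continuous.comp (continuous_snd.comp continuous_snd)).prodMk
      (continuous_snd.comp continuous_snd)
  have eu : ∀ y, u (r y) = (st (H0 y), H0 y) := fun y => by
    simp only [u, r, So1_flat (sharp_H0 y)]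
  have ev : ∀ y, v (r y) = (st (Phi0 y), Phi0 y) := fun y => by
    simp only [v, r, So1_flat (sharp_Phi0 y)]
  let B : MW × MW → MW := fun x => Binv x.1 x.2
  obtain ⟨δ1, hδ1, h1⟩ := unif_near hK' (f := fun z => B (u z) * adj (B (v z))) (by
    rintro _ ⟨y, -, rfl⟩
    have c1 : ContinuousAt B (u (r y)) := by
      rw [eu]; exact (binv_contDiffAt (det_H0 y)).continuousAt
    have c2 : ContinuousAt B (v (r y)) := by
      rw [ev]; exact (binv_contDiffAt (det_Phi0 y)).continuousAt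
    exact (c1.comp hu.continuousAt).mul
      (adj.continuous.continuousAt.comp (c2.comp hv.continuousAt))) hη
  obtain ⟨δ2, hδ2, h2⟩ := unif_near hK' (f := fun z => symM z.2.2 - symM z.1) (by
    rintro _ ⟨y, -, rfl⟩
    have c1 : ContinuousAt symM (r y).2.2 := (contDiffAt_symM (det_Phi0 y)).continuousAt
    have c2 : ContinuousAt symM (r y).1 := (contDiffAt_symM (det_H0 y)).continuousAt
    exact (ContinuousAt.comp (f := fun z : MW × MW × MW => z.2.2) c1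
        (continuous_snd.comp continuous_snd).continuousAt).sub
      (ContinuousAt.comp (f := fun z : MW × MW × MW => z.1) c2 continuous_fst.continuousAt)) hη
  obtain ⟨δ3, hδ3, h3⟩ := prop_near hK'
    (p := fun z => DifferentiableAt ℂ B (u z) ∧ DifferentiableAt ℂ B (v z)) (by
    rintro _ ⟨y, -, rfl⟩
    have c1 : ∀ᶠ x in 𝓝 (u (r y)), DifferentiableAt ℂ B x := by
      rw [eu]; exact binv_near (det_H0 y)
    have c2 : ∀ᶠ x in 𝓝 (v (r y)), DifferentiableAt ℂ B x := by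
      rw [ev]; exact binv_near (det_Phi0 y)
    exact (hu.continuousAt.eventually c1).and (hv.continuousAt.eventually c2))
  refine ⟨min δ1 (min δ2 δ3), lt_min hδ1 (lt_min hδ2 hδ3), fun y hy P M Q hP hM hQ => ?_⟩
  have hd : dist (P, M, Q) (r y) ≤ min δ1 (min δ2 δ3) := by
    rw [Prod.dist_eq, Prod.dist_eq, dist_eq_norm, dist_eq_norm, dist_eq_norm]
    exact max_le hP (max_le hM hQ)
  have hm : r y ∈ r '' K := mem_image_of_mem r hy
  have k1 := h1 _ hm _ (hd.trans (min_le_left _ _))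
  have k2 := h2 _ hm _ (hd.trans ((min_le_right _ _).trans (min_le_left _ _)))
  have k3 := h3 _ hm _ (hd.trans ((min_le_right _ _).trans (min_le_right _ _)))
  rw [dist_eq_norm] at k1 k2
  rw [eu, ev] at k1
  exact ⟨k1, k3.1, k3.2, k2⟩

end Pool.Agent.MP_efb2da_gt

end
end

section

open Set Complex
open scoped Topology ComplexConjugate Matrix ContDiff

noncomputable section

namespace Pool.Agent.MP_efb2da_gt

lemma So2_sharp_Sof (t : ℝ) {R : MW} (h : sharp R = adj R) : sharp (Sof t R) = Sof t R := by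
  have e : conj ((4 * Real.pi * I * t : ℂ)⁻¹) = -(4 * Real.pi * I * t : ℂ)⁻¹ := by
    rw [map_inv₀, ← inv_neg]
    congr 1
    simp [map_ofNat]
  rw [Sof, sharp_smul, map_sub, sharp_adj, h, adj_adj, e, neg_smul, ← smul_neg, neg_sub]

lemma So2_tr_Sof (t : ℝ) (R : MW) : trW (Sof t R) = 0 := by
  rw [Sof, map_smul, map_sub, trW_adj, sub_self, smul_zero]

lemma So2_sw_Sof (t : ℝ) {R : MW} (h : sw R = adj R) : sw (Sof t R) = -Sof t R := by
  rw [Sof, map_smul, map_sub, sw_adj, h, adj_adj, ← smul_neg, neg_sub]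

theorem Fmap_inv {s RG Rm : ℝ} {p : Par} {x : EE} (hg : AdmG (geo s p.1)) (hx : x ∈ CC) :
    reG (Fmap s RG Rm p x) ∈ CC := by
  have hd := dat_str s RG Rm p x hx
  have hU : sharp (Uf (H0 p.1)) = Uf (H0 p.1) := by rw [← Uf_sharp (det_H0 _), sharp_H0]
  have hZ : ∀ i, sharp ((s⁻¹ : ℂ) • errZ s RG Rm p x i) = (s⁻¹ : ℂ) • errZ s RG Rm p x i ∧
      trW ((s⁻¹ : ℂ) • errZ s RG Rm p x i) = 0 := by
    intro i
    constructor
    · rw [sharp_smul, errZ, map_sub, sharp_mul, sharp_mul, sharp_adj, hU,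
        So2_sharp_Sof _ (sharp_RR hg hd i), alZ_real s p x hx, map_inv₀, conj_ofReal]
    · rw [map_smul, errZ, map_sub, trW_conj', So2_tr_Sof, alZ_tr, mul_zero, sub_zero, smul_zero]
  have hA : AA (dat s RG Rm p x) 1 = A1p s p x := rfl
  have h1 := hd.realA 1
  have h2 := hd.trA 1
  have h3 := hd.odd
  rw [hA] at h1 h2 h3
  rw [reG_apply]
  refine ⟨fun i => ?_, ?_, ?_, ?_, fun i => ?_⟩
  · fin_cases i
    · constructor
      · show sharp (((s ^ 3)⁻¹ : ℂ) • (Sof _ _ - _)) = ((s ^ 3)⁻¹ : ℂ) • (Sof _ _ - _)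
        rw [sharp_smul, map_sub, So2_sharp_Sof _ (sharp_R1 hg hd), h1, map_inv₀, map_pow,
          conj_ofReal]
      · show trW (((s ^ 3)⁻¹ : ℂ) • (Sof _ _ - _)) = 0
        rw [map_smul, map_sub, So2_tr_Sof, h2, sub_zero, smul_zero]
    · exact hZ 0
    · exact hZ 1
    · exact hZ 2
  · show sw (((s ^ 3)⁻¹ : ℂ) • (Sof _ _ - _)) = -(((s ^ 3)⁻¹ : ℂ) • (Sof _ _ - _))
    rw [map_smul, map_sub, So2_sw_Sof _ (sw_R1 hg hd), h3, ← smul_neg, neg_sub_neg, neg_sub]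
  · show sharp ((1/2 : ℝ) • (_ + sharp _)) = (1/2 : ℝ) • (_ + sharp _)
    rw [map_smul, map_add, sharp_sharp, add_comm]
  · have h4 : MGE 0 (Fmap s RG Rm p x).2.1 := by
      show MGE 0 ((RG⁻¹ : ℂ) • Gf _ _)
      rw [Gf_eq hg hd]
      exact MGE.smul _ (by simpa using (Bi_pos (det_Php hg hd)).mul (Bm_pos (det_Phi hg hd)))
    show MGE 0 ((1/2 : ℝ) • (_ + sharp _))
    rw [← Complex.coe_smul]
    exact (h4.add h4.sharp).smul _
  · have h4 := (StrM_MM hg hd i).smul Rm⁻¹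
    rw [ofReal_inv] at h4
    exact h4

lemma So2_diff_Sof {U : Set ℂ} {R : ℂ → MW} (t : ℝ) (h : DifferentiableOn ℂ R U) :
    DifferentiableOn ℂ (fun τ => Sof t (R τ)) U :=
  (h.sub (adj.differentiable.comp_differentiableOn h)).const_smul (4 * Real.pi * I * t : ℂ)⁻¹

lemma So2_cont_Sof {X : Type} [TopologicalSpace X] {U : Set X} {R : X → MW} (t : ℝ)
    (h : ContinuousOn R U) : ContinuousOn (fun τ => Sof t (R τ)) U :=
  (h.sub (adj.continuous.comp_continuousOn h)).const_smul (4 * Real.pi * I * t : ℂ)⁻¹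

lemma So2_norm_inv {c : ℝ} (hc : 0 < c) {E : Type} [NormedAddCommGroup E] [NormedSpace ℂ E]
    {X : E} {b : ℝ} (h : ‖X‖ ≤ b * c) : ‖((c : ℂ)⁻¹) • X‖ ≤ b := by
  rw [norm_smul, norm_inv, Complex.norm_real, Real.norm_of_nonneg hc.le, inv_mul_le_iff₀ hc,
    mul_comm]
  exact h

/-- holomorphy of the fixed point map along complex lines -/
lemma So2_diff {s RG Rm : ℝ} {p : Par} (hg : AdmG (geo s p.1))
    (hB : ∀ x : EE, ‖x‖ < 1 →
      DifferentiableAt ℂ (fun x : MW × MW => Binv x.1 x.2)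
        (flat (Phm (geo s p.1) (dat s RG Rm p x)), Php (geo s p.1) (dat s RG Rm p x)) ∧
      DifferentiableAt ℂ (fun x : MW × MW => Binv x.1 x.2)
        (flat (Phi (geo s p.1) (dat s RG Rm p x)), Phi (geo s p.1) (dat s RG Rm p x)))
    (x d : EE) : DifferentiableOn ℂ (fun τ : ℂ => Fmap s RG Rm p (x + τ • d))
      {τ | ‖x + τ • d‖ < 1} := by
  have hl : Differentiable ℂ fun τ : ℂ => x + τ • d :=
    (differentiable_id.smul_const d).const_add x
  have hU : IsOpen {τ : ℂ | ‖x + τ • d‖ < 1} := isOpen_lt hl.continuous.norm continuous_const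
  have hc : DifferentiableOn ℂ (fun τ : ℂ => dat s RG Rm p (x + τ • d)) {τ | ‖x + τ • d‖ < 1} :=
    ((differentiable_dat s RG Rm p).comp hl).differentiableOn
  have hZ : ∀ i, DifferentiableOn ℂ (fun τ : ℂ => (s⁻¹ : ℂ) • errZ s RG Rm p (x + τ • d) i)
      {τ | ‖x + τ • d‖ < 1} := fun i =>
    ((((So2_diff_Sof (s ^ 4) (ho_RR hg hU hc i)).const_mul (adj (Uf (H0 p.1)))).mul_const
      (Uf (H0 p.1))).sub
      ((differentiable_alZ s p i).comp hl).differentiableOn).const_smul (s⁻¹ : ℂ)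
  have hG : DifferentiableOn ℂ (fun τ : ℂ => Gf (geo s p.1) (dat s RG Rm p (x + τ • d)))
      {τ | ‖x + τ • d‖ < 1} := by
    intro τ hτ
    have a1 := (hB _ hτ).1.comp_differentiableWithinAt τ
      (((flat.differentiable.comp_differentiableOn (ho_Phm hg hU hc)).prodMk
        (ho_Php hg hU hc)) τ hτ)
    have a2 := (hB _ hτ).2.comp_differentiableWithinAt τ
      (((flat.differentiable.comp_differentiableOn (ho_Phi hg hU hc)).prodMk
        (ho_Phi hg hU hc)) τ hτ)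
    exact a1.mul (adj.differentiableAt.comp_differentiableWithinAt τ a2)
  refine DifferentiableOn.prodMk (differentiableOn_pi.2 fun i => ?_)
    (DifferentiableOn.prodMk ?_ (differentiableOn_pi.2 fun i => ?_))
  · fin_cases i
    · exact ((So2_diff_Sof (s ^ 4) (ho_R1 hg hU hc)).sub
        (differentiableOn_pi.1 hc.fst 1)).const_smul ((s ^ 3)⁻¹ : ℂ)
    · exact hZ 0
    · exact hZ 1
    · exact hZ 2
  · exact hG.const_smul (RG⁻¹ : ℂ)
  · exact (ho_MM hg hU hc i).const_smul (Rm⁻¹ : ℂ)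

lemma So2_comp {X Y Z : Type} [TopologicalSpace X] [TopologicalSpace Y] [TopologicalSpace Z]
    {F : Y → Z} {T : Set Y} (hF : ContinuousOn F T) {f : X → Y} {S : Set X}
    (hf : ContinuousOn f S) (h : ∀ x ∈ S, f x ∈ T) : ContinuousOn (fun x => F (f x)) S :=
  hF.comp hf h

/-- continuity of the fixed point map in the parameters -/
lemma So2_cont {s RG Rm : ℝ} {S : Set Par} {x : EE} (hY : ∀ p ∈ S, Yadm p.1)
    (hg : ∀ p ∈ S, AdmG (geo s p.1))
    (hB : ∀ p ∈ S,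
      DifferentiableAt ℂ (fun x : MW × MW => Binv x.1 x.2)
        (flat (Phm (geo s p.1) (dat s RG Rm p x)), Php (geo s p.1) (dat s RG Rm p x)) ∧
      DifferentiableAt ℂ (fun x : MW × MW => Binv x.1 x.2)
        (flat (Phi (geo s p.1) (dat s RG Rm p x)), Phi (geo s p.1) (dat s RG Rm p x))) :
    ContinuousOn (fun p => Fmap s RG Rm p x) S := by
  have hi : ContinuousOn (fun p : Par => (p, x)) S :=
    (continuous_id.prodMk continuous_const).continuousOn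
  have hd := So2_comp (co_dat s RG Rm) hi hY
  have hz : ContinuousOn (fun p : Par => (geo s p.1, dat s RG Rm p x)) S :=
    (So2_comp (co_geo s) continuous_fst.continuousOn hY).prodMk hd
  have hU := So2_comp co_U0 (continuous_fst.continuousOn (s := S)) hY
  have hZ : ∀ i, ContinuousOn (fun p => (s⁻¹ : ℂ) • errZ s RG Rm p x i) S := by
    intro i
    have b1 := So2_comp (co_RR i) hz hg
    have b2 := So2_comp (co_alZ s i) hi hY
    have b3 := adj.continuous.comp_continuousOn hU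
    exact (((b3.mul (So2_cont_Sof (s ^ 4) b1)).mul hU).sub b2).const_smul (s⁻¹ : ℂ)
  have hG : ContinuousOn (fun p : Par => Gf (geo s p.1) (dat s RG Rm p x)) S := by
    intro p hp
    have b1 := So2_comp co_Phm hz hg
    have b2 := So2_comp co_Php hz hg
    have b3 := So2_comp co_Phi hz hg
    have a1 := (hB p hp).1.continuousAt.comp_continuousWithinAt
      (f := fun p : Par => (flat (Phm (geo s p.1) (dat s RG Rm p x)),
        Php (geo s p.1) (dat s RG Rm p x)))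
      (((flat.continuous.comp_continuousOn b1).prodMk b2) p hp)
    have a2 := (hB p hp).2.continuousAt.comp_continuousWithinAt
      (f := fun p : Par => (flat (Phi (geo s p.1) (dat s RG Rm p x)),
        Phi (geo s p.1) (dat s RG Rm p x)))
      (((flat.continuous.comp_continuousOn b3).prodMk b3) p hp)
    exact a1.mul (adj.continuous.continuousAt.comp_continuousWithinAt a2)
  refine ContinuousOn.prodMk (continuousOn_pi.2 fun i => ?_)
    (ContinuousOn.prodMk ?_ (continuousOn_pi.2 fun i => ?_))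
  · fin_cases i
    · exact ((So2_cont_Sof (s ^ 4) (So2_comp co_R1 hz hg)).sub
        (continuousOn_pi.1 hd.fst 1)).const_smul ((s ^ 3)⁻¹ : ℂ)
    · exact hZ 0
    · exact hZ 1
    · exact hZ 2
  · exact hG.const_smul (RG⁻¹ : ℂ)
  · exact (So2_comp (co_MM i) hz hg).const_smul (Rm⁻¹ : ℂ)

lemma So2_GG {s RG Rm : ℝ} (hG : 0 ≤ RG) (p : Par) {x : EE} (hx : ‖x‖ ≤ 1) :
    ‖GG (dat s RG Rm p x)‖ ≤ RG := by
  have h1 : ‖x.2.1‖ ≤ 1 := (norm_fst_le x.2).trans ((norm_snd_le x).trans hx)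
  show ‖(RG : ℂ) • x.2.1‖ ≤ RG
  rw [norm_smul, Complex.norm_real, Real.norm_of_nonneg hG]
  exact mul_le_of_le_one_right hG h1

lemma So2_mm {s RG Rm : ℝ} (hm : 0 ≤ Rm) (p : Par) {x : EE} (hx : ‖x‖ ≤ 1) :
    ‖mm (dat s RG Rm p x)‖ ≤ Rm := by
  have h2 : ‖x.2.2‖ ≤ 1 := (norm_snd_le x.2).trans ((norm_snd_le x).trans hx)
  refine (pi_norm_le_iff_of_nonneg hm).2 fun i => ?_
  show ‖(Rm : ℂ) • x.2.2 i‖ ≤ Rm
  rw [norm_smul, Complex.norm_real, Real.norm_of_nonneg hm]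
  exact mul_le_of_le_one_right hm ((norm_le_pi_norm _ i).trans h2)

/-- existence of the fixed point, continuous in the parameters -/
theorem exists_fixed {K : Set Y8} (hK : IsCompact K) (hY : ∀ y ∈ K, Yadm y) :
    ∃ RG Rm : ℝ, 0 < RG ∧ 0 < Rm ∧ ∃ s₀ > 0, ∀ s ∈ Ioc 0 s₀, ∃ e : Par → EE,
      ContinuousOn e (Box K) ∧
      ∀ p ∈ Box K, ‖e p‖ ≤ 1 ∧ e p ∈ CC ∧ reG (Fmap s RG Rm p (e p)) = e p := by
  obtain ⟨C, hC, hpar⟩ := par_est hK hY
  obtain ⟨C1, hMM⟩ := est_MM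
  obtain ⟨RG, hRG⟩ : ∃ RG : ℝ, RG = 8 * (C + 1) := ⟨_, rfl⟩
  obtain ⟨Q, hQ⟩ : ∃ Q : ℝ, Q = |C1| * (1 + RG ^ 2) := ⟨_, rfl⟩
  obtain ⟨Rm, hRm⟩ : ∃ Rm : ℝ, Rm = 16 * (Q * C) + 1 := ⟨_, rfl⟩
  have hG : 0 < RG := by rw [hRG]; positivity
  have hQ0 : 0 ≤ Q := by rw [hQ]; positivity
  have hm : 0 < Rm := by rw [hRm]; positivity
  obtain ⟨C2, N, s₁, hs₁, hhol⟩ := hol_close hK hY hG.le hm.le
  obtain ⟨s₂, hs₂, L, hgeo⟩ := geo_est hK hY
  obtain ⟨δ, hδ, hgf⟩ := gf_close hK hY one_pos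
  have hδ' : 0 < min δ (1/8) := lt_min hδ (by norm_num)
  refine ⟨RG, Rm, hG, hm, min (min s₁ s₂) (min (1/2) (min (min δ (1/8) / (|C2| + 1))
    (1 / (32 * (Q + 1))))), by positivity, fun s hs => ?_⟩
  obtain ⟨hs0, hs⟩ := hs
  simp only [le_min_iff] at hs
  obtain ⟨⟨k1, k2⟩, k3, k4, k5⟩ := hs
  have k6 : C2 * s ≤ min δ (1/8) := by
    rw [le_div_iff₀ (by positivity)] at k4
    nlinarith [le_abs_self C2]
  have k7 : C2 * s ≤ δ := k6.trans (min_le_left _ _)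
  have k8 : C2 * s ≤ 1/8 := k6.trans (min_le_right _ _)
  have k9 : Q * s ^ 4 ≤ 1/32 := by
    rw [le_div_iff₀ (by positivity)] at k5
    have s41 : s ^ 4 ≤ s := by
      simpa using pow_le_pow_of_le_one hs0.le (show s ≤ 1 by linarith) (show 1 ≤ 4 by norm_num)
    nlinarith [mul_le_mul_of_nonneg_left s41 hQ0]
  have hg : ∀ p ∈ Box K, AdmG (geo s p.1) := fun p hp => (hgeo s ⟨hs0, k2⟩ p.1 hp.1).1
  have hB : ∀ p ∈ Box K, ∀ x : EE, ‖x‖ ≤ 1 →
      ‖Gf (geo s p.1) (dat s RG Rm p x) - G0 p.1‖ ≤ 1 ∧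
      DifferentiableAt ℂ (fun x : MW × MW => Binv x.1 x.2)
        (flat (Phm (geo s p.1) (dat s RG Rm p x)), Php (geo s p.1) (dat s RG Rm p x)) ∧
      DifferentiableAt ℂ (fun x : MW × MW => Binv x.1 x.2)
        (flat (Phi (geo s p.1) (dat s RG Rm p x)), Phi (geo s p.1) (dat s RG Rm p x)) := by
    intro p hp x hx
    obtain ⟨-, a1, a2, a3, -⟩ := hhol s ⟨hs0, k1⟩ p hp x hx
    obtain ⟨b1, b2, b3, -⟩ := hgf p.1 hp.1 _ _ _ (a1.trans k7) (a2.trans k7) (a3.trans k7)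
    exact ⟨b1, b2, b3⟩
  obtain ⟨e, he, he'⟩ := contract (K := Box K) (F := Fmap s RG Rm) (C := CC) reG norm_reG_le
    (by
      intro p hp x hx
      obtain ⟨-, -, -, -, -, -, a1, a2⟩ := hhol s ⟨hs0, k1⟩ p hp x hx.le
      obtain ⟨-, g2, g3, -⟩ := hgeo s ⟨hs0, k2⟩ p.1 hp.1
      obtain ⟨-, -, -, -, -, -, -, p8, -, -, -, -, -, -, p15⟩ := hpar s ⟨hs0, k3⟩ p hp x hx.le
      have hZ : ∀ i, ‖(s⁻¹ : ℂ) • errZ s RG Rm p x i‖ ≤ 1/8 := fun i =>
        So2_norm_inv hs0 ((a2 i).trans (by nlinarith))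
      rw [Prod.norm_def]
      refine max_le ((pi_norm_le_iff_of_nonneg (by norm_num)).2 fun i => ?_) ?_
      · fin_cases i
        · have h3 : 0 < s ^ 3 := by positivity
          have := So2_norm_inv (b := 1/8) h3 (a1.trans (by nlinarith))
          rw [ofReal_pow] at this
          exact this
        · exact hZ 0
        · exact hZ 1
        · exact hZ 2
      rw [Prod.norm_def]
      refine max_le ?_ ((pi_norm_le_iff_of_nonneg (by norm_num)).2 fun i => ?_)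
      · refine So2_norm_inv hG ?_
        have h1 := (hB p hp x hx.le).1
        have h2 := norm_sub_norm_le (Gf (geo s p.1) (dat s RG Rm p x)) (G0 p.1)
        rw [hRG] at h1 h2 ⊢
        linarith
      · refine So2_norm_inv hm ((hMM _ _ i (hg p hp)).trans ?_)
        have e0 : 0 < ee (geo s p.1) := (hg p hp).2.1.1
        have q0 : 0 < qq (geo s p.1) := (hg p hp).2.2.1.1
        have b1 := p8 RG Rm hG.le
        have b2 := So2_GG (s := s) (Rm := Rm) hG.le p hx.le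
        have b3 := So2_mm (s := s) (RG := RG) hm.le p hx.le
        have b4 : (ee (geo s p.1) + qq (geo s p.1)) * (1 + ‖GG (dat s RG Rm p x)‖ ^ 2) *
            ‖mm (dat s RG Rm p x)‖ ≤ (2 * s ^ 4) * (1 + RG ^ 2) * Rm := by
          gcongr
          linarith
        refine (So1_le (b := C * (1 + RG ^ 2) + (2 * s ^ 4) * (1 + RG ^ 2) * Rm) (by positivity)
          (add_le_add b1 b4) le_rfl).trans ?_
        have e1 : |C1| * (C * (1 + RG ^ 2) + 2 * s ^ 4 * (1 + RG ^ 2) * Rm) =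
            Q * C + 2 * (Q * s ^ 4) * Rm := by rw [hQ]; ring
        rw [e1]
        nlinarith)
    (fun p hp => So2_diff (hg p hp) fun x hx => (hB p hp x hx.le).2)
    (fun x hx => So2_cont (fun p hp => hY _ hp.1) hg fun p hp => (hB p hp x (by linarith)).2)
    isClosed_CC zero_mem_CC (fun p hp x hx _ => Fmap_inv (hg p hp) hx)
  exact ⟨e, he, fun p hp => ⟨(he' p hp).1.trans (by norm_num), (he' p hp).2⟩⟩

end Pool.Agent.MP_efb2da_gt

end
end
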