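import Pool.Agent.Mg.Fefb2da.G9d7479
import Pool.Agent.Mg.Fefb2da.G624063
import Pool.Agent.Mg.Fefb2da.G7ee8d7
import Pool.Agent.Mg.Fefb2da.G5286db
import Pool.Agent.Mg.Fefb2da.G2c108b

section

open Set Complex
open scoped Topology ComplexConjugate Matrix ContDiff

noncomputable section

namespace Pool.Agent.MP_efb2da_gt

variable {y : Y8}

theorem cf_Al (y : Y8) (j : Fin 5) :
    cf (-1) (Al y j) = cf 0 (Bi (H0 y)) * mat (av y j) * cf 0 (Bm (H0 y)) := by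
  rw [Al, MGE.cf_conj (Bi_pos (det_H0 y)) (zeta_ge _ _) (Bm_pos (det_H0 y)), cf_zeta]

lemma Ref2_det_Al (y : Y8) (j : Fin 5) : (Al y j).det = (zeta (sg5 j) (mat (av y j))).det := by
  rw [Al, Matrix.det_mul, Matrix.det_mul, det_Bi (det_H0 y), det_Bm (det_H0 y), one_mul, mul_one]

theorem coef_det_Al2 (y : Y8) : W.coef (-1) (Al y 2).det = (E0 y 1 : ℝ) := by
  have h := coef_det_zeta (e := 1) (Or.inl rfl) (rho y) (y 1)
  rw [one_mul] at h
  rw [Ref2_det_Al, show av y 2 = nilv (rho y) (y 1) from rfl, mat_nilv]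
  exact h

theorem coef_det_Al3 (y : Y8) : W.coef (-1) (Al y 3).det = (E0 y 2 : ℝ) := by
  have h := coef_det_zeta (e := -1) (Or.inr rfl) (rho y) (y 2)
  rw [neg_one_mul] at h
  rw [Ref2_det_Al, show av y 3 = nilv (-rho y) (y 2) from rfl, mat_nilv]
  exact h

theorem coef_det_Al4 (y : Y8) : W.coef (-2) (Al y 4).det = (E0 y 4 : ℝ) := by
  have h := (zeta_ge (sg5 4) (mat (av y 4))).coef_det
  rw [cf_zeta, det_mat] at h
  rw [Ref2_det_Al]
  exact h

lemma Ref2_det_cf {M : MW} (h : MGE 0 M) (hd : M.det = 1) : (cf 0 M).det = 1 := by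
  rw [← h.coef_det, hd, W.coef_one]
  simp

lemma Ref2_tr_conj {B C : MC} (hB : B.det = 1) (hC : C.det = 1) (a b : MC) :
    trC (adjC (C * a * B) * (C * b * B)) = trC (adjC a * b) := by
  have e : adjC (C * a * B) * (C * b * B) = adjC B * (adjC a * (adjC C * C) * b * B) := by
    simp only [adjC_mul, mul_assoc]
  rw [e, adjC_mul_of_det hC, mul_one, trC_mul_comm, mul_assoc, mul_adjC_of_det hB, mul_one]

theorem res_Al (y : Y8) (j : Fin 5) :
    trC (adjC (cf (-1) (Al y j)) * cf (-1) (∑ i ∈ Finset.univ.erase j,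
      ((pos (yp y) j : ℂ) - pos (yp y) i)⁻¹ • Al y i)) = (resv y j : ℝ) := by
  have hC := Ref2_det_cf (Bi_pos (det_H0 y)) (det_Bi (det_H0 y))
  have hB := Ref2_det_cf (Bm_pos (det_H0 y)) (det_Bm (det_H0 y))
  rw [map_sum, Finset.mul_sum, map_sum, resv, Complex.ofReal_sum]
  refine Finset.sum_congr rfl fun i _ => ?_
  rw [map_smul, mul_smul_comm, map_smul, cf_Al, cf_Al, Ref2_tr_conj hB hC, tr_adj_mat, smul_eq_mul]
  push_cast
  rw [div_eq_inv_mul]

lemma Ref2_tr3 (u v w : Fin 3 → ℝ) : trC (mat u * (mat v * mat w - mat w * mat v)) =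
    (4 * (u 0 * (v 1 * w 2 - v 2 * w 1) - u 1 * (v 0 * w 2 - v 2 * w 0) +
      u 2 * (v 0 * w 1 - v 1 * w 0)) : ℝ) := by
  simp only [trC_apply, matApi2_mulC, Matrix.sub_apply]
  simp [mat, s1, s3, sJ]
  ring

lemma Ref2_tr3_conj {B C : MC} (h : B * C = 1) (a b c : MC) :
    trC (C * a * B * (C * b * B * (C * c * B) - C * c * B * (C * b * B))) =
      trC (a * (b * c - c * b)) := by
  have e : C * a * B * (C * b * B * (C * c * B) - C * c * B * (C * b * B)) =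
      C * (a * (B * C) * (b * (B * C) * c - c * (B * C) * b) * B) := by
    simp only [mul_sub, sub_mul, mul_assoc]
  rw [e, h, mul_one, mul_one, mul_one, trC_mul_comm, mul_assoc, h, mul_one]

/-- the quadratic form of a constant matrix on a constant vector -/
def Ref2_om (v : Fin 2 → ℂ) (a : MC) : ℂ :=
  (a 0 0 * v 0 + a 0 1 * v 1) * v 1 - (a 1 0 * v 0 + a 1 1 * v 1) * v 0

lemma Ref2_cap_zeta (e : ℝ) (a : MC) (v : Fin 2 → ℂ) :
    capDet (zeta e a) (fun i => algebraMap ℂ W (v i)) = algebraMap ℂ W (Ref2_om v a) +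
      W.mon 1 * algebraMap ℂ W (Ref2_om v ((e / 2 : ℂ) • s3 - (a + trpC a))) +
      W.mon 1 * W.mon 1 * algebraMap ℂ W (Ref2_om v (trpC a)) := by
  have h : W.mon 1 * W.mon (-1) = 1 := by rw [W.mon_mul_mon]; exact W.mon_zero
  simp only [capDet, Ref2_om, zeta, Matrix.mulVec, dotProduct, Fin.sum_univ_two, Matrix.add_apply,
    Matrix.sub_apply, Matrix.smul_apply, cst_apply, mono_apply, trpC_apply, Matrix.one_apply_eq,
    Matrix.one_apply_ne (show (0 : Fin 2) ≠ 1 by decide),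
    Matrix.one_apply_ne (show (1 : Fin 2) ≠ 0 by decide), smul_zero]
  simp only [Algebra.smul_def, map_add, map_sub, map_mul]
  linear_combination ((algebraMap ℂ W (a 0 0) * algebraMap ℂ W (v 0) +
    algebraMap ℂ W (a 0 1) * algebraMap ℂ W (v 1)) * algebraMap ℂ W (v 1) -
    (algebraMap ℂ W (a 1 0) * algebraMap ℂ W (v 0) +
    algebraMap ℂ W (a 1 1) * algebraMap ℂ W (v 1)) * algebraMap ℂ W (v 0)) * h

lemma Ref2_cap_conj {B C : MW} (h : B * C = 1) (hC : C.det = 1) (Z : MW) (Y : Fin 2 → W) :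
    capDet (C * Z * B) (C *ᵥ Y) = capDet Z Y := by
  have e : ((1/2 : ℂ) • (1 : MW) + C * Z * B) *ᵥ (C *ᵥ Y) =
      C *ᵥ (((1/2 : ℂ) • (1 : MW) + Z) *ᵥ Y) := by
    rw [Matrix.mulVec_mulVec, Matrix.mulVec_mulVec, add_mul, mul_add, mul_assoc, h, mul_one,
      smul_mul_assoc, mul_smul_comm, one_mul, mul_one]
  rw [Matrix.det_fin_two] at hC
  unfold capDet
  rw [e]
  generalize ((1/2 : ℂ) • (1 : MW) + Z) *ᵥ Y = U
  simp only [Matrix.mulVec, dotProduct, Fin.sum_univ_two]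
  linear_combination W.mon 1 * (U 0 * Y 1 - U 1 * Y 0) * hC

lemma Ref2_cap {Φ : MW} (hd : Φ.det = 1) (hs : sharp Φ = Φ) {e ρ χ : ℝ} (he : e ≠ 0) (hρ : ρ ≠ 0)
    (hsin : Real.sin χ = 2 * ρ) (hcos : Real.cos χ ≠ 1) :
    ∃ (Y : Fin 2 → W) (c : ℂ), c ≠ 0 ∧ (∀ i, W.GE 0 (Y i)) ∧ (∀ i, W.cj (Y i) = Y i) ∧
      capDet (Bi Φ * zeta e (nilM (e * ρ : ℝ) χ) * Bm Φ) Y = algebraMap ℂ W c := by
  set v : Fin 2 → ℂ := ![((1 - Real.cos χ : ℝ) : ℂ), ((-Real.sin χ : ℝ) : ℂ)] with hv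
  have hB : ∀ i j, W.cj (Bi Φ i j) = Bi Φ i j := fun i j => by
    rw [← sharp_apply, ← Bi_sharp hd, hs]
  have hvr : ∀ i, conj (v i) = v i := fun i => by
    fin_cases i <;> exact Complex.conj_ofReal _
  refine ⟨Bi Φ *ᵥ fun i => algebraMap ℂ W (v i), ((-(e * ρ * (2 - 2 * Real.cos χ)) : ℝ) : ℂ),
    ?_, fun i => ?_, fun i => ?_, ?_⟩
  · have : 2 - 2 * Real.cos χ ≠ 0 := fun h => hcos (by linarith)
    exact Complex.ofReal_ne_zero.2 (neg_ne_zero.2 (mul_ne_zero (mul_ne_zero he hρ) this))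
  · simp only [Matrix.mulVec, dotProduct, Fin.sum_univ_two]
    exact ((Bi_pos hd i 0).mul (W.GE_algebraMap _)).add ((Bi_pos hd i 1).mul (W.GE_algebraMap _))
  · simp only [Matrix.mulVec, dotProduct, Fin.sum_univ_two, map_add, W.cj_mul, hB,
      W.cj_algebraMap, hvr]
  have h1 : ((Real.sin χ : ℝ) : ℂ) ^ 2 + ((Real.cos χ : ℝ) : ℂ) ^ 2 = 1 := by
    exact_mod_cast Real.sin_sq_add_cos_sq χ
  have h2 : ((Real.sin χ : ℝ) : ℂ) = 2 * ρ := by exact_mod_cast hsin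
  rw [Ref2_cap_conj (Bm_mul_Bi hd) (det_Bi hd), Ref2_cap_zeta]
  have v0 : v 0 = 1 - (Real.cos χ : ℝ) := by rw [hv]; simp
  have v1 : v 1 = -(Real.sin χ : ℝ) := by rw [hv]; simp
  have n00 : nilM (e * ρ : ℝ) χ 0 0 = e * ρ / 2 * (Real.sin χ : ℝ) := by simp [nilM, s1, s3, sJ]
  have n01 : nilM (e * ρ : ℝ) χ 0 1 = e * ρ / 2 * (-1 - (Real.cos χ : ℝ)) := by
    simp [nilM, s1, s3, sJ]
  have n10 : nilM (e * ρ : ℝ) χ 1 0 = e * ρ / 2 * (1 - (Real.cos χ : ℝ)) := by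
    simp [nilM, s1, s3, sJ]
  have n11 : nilM (e * ρ : ℝ) χ 1 1 = e * ρ / 2 * (-(Real.sin χ : ℝ)) := by
    simp [nilM, s1, s3, sJ]
  have e1 : Ref2_om v (nilM (e * ρ : ℝ) χ) = ((-(e * ρ * (2 - 2 * Real.cos χ)) : ℝ) : ℂ) := by
    rw [Ref2_om, n00, n01, n10, n11, v0, v1]
    simp only [Complex.ofReal_neg, Complex.ofReal_mul, Complex.ofReal_sub, Complex.ofReal_ofNat]
    generalize ((Real.sin χ : ℝ) : ℂ) = r at h1 ⊢
    generalize ((Real.cos χ : ℝ) : ℂ) = c at h1 ⊢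
    linear_combination (-(e * ρ / 2 : ℂ) * (3 - c)) * h1
  have e2 : Ref2_om v ((e / 2 : ℂ) • s3 - (nilM (e * ρ : ℝ) χ + trpC (nilM (e * ρ : ℝ) χ))) = 0 := by
    simp only [Ref2_om, Matrix.sub_apply, Matrix.add_apply, Matrix.smul_apply, trpC_apply, n00,
      n01, n10, n11, v0, v1, smul_eq_mul]
    simp only [s3, Matrix.of_apply, Matrix.cons_val', Matrix.cons_val_zero, Matrix.cons_val_one,
      Matrix.cons_val_fin_one]
    generalize ((Real.sin χ : ℝ) : ℂ) = r at h1 h2 ⊢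
    generalize ((Real.cos χ : ℝ) : ℂ) = c at h1 ⊢
    linear_combination ((e * ρ : ℂ) * (2 - c)) * h1 - (e : ℂ) * (1 - c) * h2
  have e3 : Ref2_om v (trpC (nilM (e * ρ : ℝ) χ)) = 0 := by
    simp only [Ref2_om, trpC_apply, n00, n01, n10, n11, v0, v1]
    generalize ((Real.sin χ : ℝ) : ℂ) = r at h1 ⊢
    generalize ((Real.cos χ : ℝ) : ℂ) = c at h1 ⊢
    linear_combination (-(e * ρ / 2 : ℂ) * (1 - c)) * h1
  rw [e1, e2, e3, map_zero, mul_zero, mul_zero, add_zero, add_zero]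

theorem limProp_Al {ψ : ℝ} (h1 : Real.pi / 3 < ψ) (h2 : ψ < Real.pi / 2) :
    LimProp (Al (ystar ψ)) := by
  have hπ := Real.pi_pos
  have hh : 0 < Real.cos ψ := Real.cos_pos_of_mem_Ioo ⟨by linarith, h2⟩
  have hh' : Real.cos ψ < 1 / 2 := by
    rw [← Real.cos_pi_div_three]
    exact Real.cos_lt_cos_of_nonneg_of_le_pi (by linarith) (by linarith) h1
  have hr : 0 < Real.sin ψ := Real.sin_pos_of_pos_of_lt_pi (by linarith) (by linarith)
  have a0 : av (ystar ψ) 0 =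
      nilv (-(Real.sin ψ / 2)) (-Real.pi - Real.arccos (2 * Real.cos ψ)) := by
    rw [← rhoE_ystar h1 h2]; rfl
  have a1 : av (ystar ψ) 1 = nilv (-(Real.sin ψ / 2)) ψ := rfl
  have a2 : av (ystar ψ) 2 = nilv (Real.sin ψ / 2) (Real.pi - ψ) := rfl
  have a3 : av (ystar ψ) 3 = nilv (-(Real.sin ψ / 2)) ψ := rfl
  have a4 := av_ystar h1 h2
  have hd := det_H0 (ystar ψ)
  have hBC : cf 0 (Bm (H0 (ystar ψ))) * cf 0 (Bi (H0 (ystar ψ))) = 1 := by
    have := (Bm_pos hd).cf_mul (Bi_pos hd)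
    rw [Bm_mul_Bi hd, Iw2_cf_one] at this
    simpa using this.symm
  have c2 : ∃ (Y : Fin 2 → W) (c : ℂ), c ≠ 0 ∧ (∀ i, W.GE 0 (Y i)) ∧ (∀ i, W.cj (Y i) = Y i) ∧
      capDet (Bi (H0 (ystar ψ)) * zeta 1 (mat (nilv (Real.sin ψ / 2) (Real.pi - ψ))) *
        Bm (H0 (ystar ψ))) Y = algebraMap ℂ W c := by
    have := Ref2_cap hd (sharp_H0 _) (e := 1) (ρ := Real.sin ψ / 2) (χ := Real.pi - ψ)
      one_ne_zero (by positivity) (by rw [Real.sin_pi_sub]; ring)
      (by rw [Real.cos_pi_sub]; linarith)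
    rwa [one_mul, ← mat_nilv] at this
  refine ⟨Al_one (yadm_near h1 h2).self_of_nhds, by rw [cf_Al, cf_Al, a1, a3],
    by rw [cf_Al, cf_Al, a2, a4], ?_, fun j => ?_⟩
  · rw [cf_Al, cf_Al, cf_Al, Ref2_tr3_conj hBC, Ref2_tr3, a0, a1, a2, Complex.ofReal_ne_zero]
    have s4 : Real.sin (-Real.pi - Real.arccos (2 * Real.cos ψ)) =
        Real.sin (Real.arccos (2 * Real.cos ψ)) := by
      rw [show -Real.pi - Real.arccos (2 * Real.cos ψ) =
        -(Real.arccos (2 * Real.cos ψ) + Real.pi) by ring, Real.sin_neg, Real.sin_add_pi, neg_neg]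
    have c4 : Real.cos (-Real.pi - Real.arccos (2 * Real.cos ψ)) = -(2 * Real.cos ψ) := by
      rw [show -Real.pi - Real.arccos (2 * Real.cos ψ) =
        -(Real.arccos (2 * Real.cos ψ) + Real.pi) by ring, Real.cos_neg, Real.cos_add_pi,
        Real.cos_arccos (by linarith) (by linarith)]
    have hs : Real.sin (Real.arccos (2 * Real.cos ψ)) < Real.sin ψ := by
      rw [Real.sin_arccos, Real.sqrt_lt' hr]
      nlinarith [Real.sin_sq_add_cos_sq ψ]
    simp only [nilv, Matrix.cons_val_zero, Matrix.cons_val_one, Matrix.cons_val_two,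
      Matrix.head_cons, Matrix.tail_cons, s4, c4, Real.sin_pi_sub, Real.cos_pi_sub]
    generalize Real.sin (Real.arccos (2 * Real.cos ψ)) = s at hs
    have : 0 < Real.sin ψ ^ 3 * Real.cos ψ * (Real.sin ψ - s) := by
      have := sub_pos.2 hs
      positivity
    intro h0
    nlinarith
  · fin_cases j
    · exact c2
    · have := Ref2_cap hd (sharp_H0 _) (e := -1) (ρ := Real.sin ψ / 2) (χ := ψ)
        (by norm_num) (by positivity) (by ring) (by linarith)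
      rw [neg_one_mul, ← mat_nilv] at this
      exact this
    · rw [← a4] at c2
      exact c2

end Pool.Agent.MP_efb2da_gt

end
end

section

open Set Complex
open scoped Topology ComplexConjugate Matrix ContDiff

noncomputable section

namespace Pool.Agent.MP_efb2da_gt

open Filter

lemma So3_iff {P : ℝ → Prop} :
    (∃ s₀ > 0, ∀ s ∈ Ioc 0 s₀, P s) ↔ ∀ᶠ s in 𝓝[>] (0:ℝ), P s :=
  (mem_nhdsGT_iff_exists_Ioc_subset (s := {s | P s})).symm

lemma So3_lin (C : ℝ) {η : ℝ} (hη : 0 < η) : ∀ᶠ s in 𝓝[>] (0:ℝ), C * s ≤ η := by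
  have h : Tendsto (fun s : ℝ => C * s) (𝓝[>] 0) (𝓝 (C * 0)) :=
    ((continuous_const.mul continuous_id).tendsto 0).mono_left nhdsWithin_le_nhds
  rw [mul_zero] at h
  exact h.eventually (ge_mem_nhds hη)

lemma So3_unit {c : ℝ} (hc : 0 < c) : ∀ᶠ s in 𝓝[>] (0:ℝ), s ∈ Ioc 0 c :=
  So3_iff.1 ⟨c, hc, fun _ h => h⟩

/-- uniform closeness along a filter -/
def So3C {Z X : Type} [PseudoMetricSpace X] (l : Filter Z) (f g : Z → X) : Prop :=
  ∀ η > 0, ∀ᶠ z in l, dist (f z) (g z) ≤ η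

section
variable {Z X Y : Type} [PseudoMetricSpace X] [PseudoMetricSpace Y] {l : Filter Z}

lemma So3C.refl (f : Z → X) : So3C l f f := fun η hη =>
  Eventually.of_forall fun z => by rw [dist_self]; exact hη.le

lemma So3C.prod {f g : Z → X} {f' g' : Z → Y} (h : So3C l f g) (h' : So3C l f' g') :
    So3C l (fun z => (f z, f' z)) (fun z => (g z, g' z)) := fun η hη => by
  filter_upwards [h η hη, h' η hη] with z h1 h2
  rw [Prod.dist_eq]
  exact max_le h1 h2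

lemma So3C.comp {P : Type} [TopologicalSpace P] {K : Set P} (hK : IsCompact K) {c : P → X}
    (hc : ContinuousOn c K) (Φ : X → Y) (hΦ : ∀ y ∈ K, ContinuousAt Φ (c y)) {f : Z → X}
    {y : Z → P} (hy : ∀ᶠ z in l, y z ∈ K) (h : So3C l f fun z => c (y z)) :
    So3C l (fun z => Φ (f z)) fun z => Φ (c (y z)) := fun η hη => by
  obtain ⟨δ, hδ, H⟩ := unif_near (hK.image_of_continuousOn hc) (f := Φ)
    (by rintro _ ⟨y, hy, rfl⟩; exact hΦ y hy) hη
  filter_upwards [h δ hδ, hy] with z h1 h2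
  exact H _ (mem_image_of_mem c h2) _ h1

lemma So3C.congr {f g f' g' : Z → X} (h : So3C l f g) (e : ∀ᶠ z in l, f z = f' z ∧ g z = g' z) :
    So3C l f' g' := fun η hη => by
  filter_upwards [h η hη, e] with z h1 h2
  rwa [← h2.1, ← h2.2]

lemma So3C.of_lin {s : Z → ℝ} (hs : Tendsto s l (𝓝[>] 0)) {f g : Z → MW} {C : ℝ}
    (h : ∀ᶠ z in l, ‖f z - g z‖ ≤ C * s z) : So3C l f g := fun η hη => by
  filter_upwards [h, hs.eventually (So3_lin C hη)] with z h1 h2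
  rw [dist_eq_norm]
  exact h1.trans h2

end

/-- the residues as a function of the gauge and of the free residues -/
def So3A (v : MW × MW × MW × MW × MW) : Fin 5 → MW :=
  ![v.1 * v.2.1 * adj v.1, v.2.2.1, v.2.2.2.1, v.2.2.2.2,
    v.2.1 - v.1 * v.2.1 * adj v.1 - v.2.2.1 - v.2.2.2.1 - v.2.2.2.2]

lemma So3A_cont : Continuous So3A := by
  refine continuous_pi fun j => ?_
  fin_cases j <;> simp only [So3A] <;> simp <;> fun_prop

lemma So3A_lim {y : Y8} (h : Yadm y) : So3A (G0 y, Z40 y, Al y 1, Al y 2, Al y 3) = Al y := by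
  have h1 := sum_Al y
  rw [Fin.sum_univ_five] at h1
  funext j
  fin_cases j <;> simp only [So3A, G0_conj h] <;> simp
  rw [← h1]
  abel

/-- the residue equations as a function of the data -/
def So3R (j : Fin 5) (v : Y8 × (Fin 5 → MW) × MW) : ℝ :=
  (trC (adjC (cf (-1) (v.2.1 j)) * cf (-1) (∑ i ∈ Finset.univ.erase j,
    ((pos (yp v.1) j : ℂ) - pos (yp v.1) i)⁻¹ • v.2.1 i + v.2.2))).re

lemma So3_pos_cont (j : Fin 5) : Continuous fun y : Y8 => pos (yp y) j := by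
  fin_cases j <;> simp [pos, yp] <;> fun_prop

lemma So3R_cont (j : Fin 5) {v : Y8 × (Fin 5 → MW) × MW} (h : Yadm v.1) :
    ContinuousAt (So3R j) v := by
  have h1 : ContinuousAt (fun v : Y8 × (Fin 5 → MW) × MW => ∑ i ∈ Finset.univ.erase j,
      ((pos (yp v.1) j : ℂ) - pos (yp v.1) i)⁻¹ • v.2.1 i) v := by
    refine tendsto_finsetSum _ fun i hi => ContinuousAt.tendsto
      (f := fun v : Y8 × (Fin 5 → MW) × MW =>
        ((pos (yp v.1) j : ℂ) - pos (yp v.1) i)⁻¹ • v.2.1 i)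
      (ContinuousAt.fun_smul (ContinuousAt.fun_inv₀ ?_ ?_) ?_)
    · exact (((continuous_ofReal.comp (So3_pos_cont j)).sub
        (continuous_ofReal.comp (So3_pos_cont i))).comp continuous_fst).continuousAt
    · have := pos_sep h.2.2.2.2 (Finset.ne_of_mem_erase hi).symm
      rw [← ofReal_sub, ofReal_ne_zero]
      intro e
      rw [e] at this
      norm_num at this
    · exact ((continuous_apply i).comp (continuous_fst.comp continuous_snd)).continuousAt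
  have h2 : Continuous fun v : Y8 × (Fin 5 → MW) × MW => adjC (cf (-1) (v.2.1 j)) :=
    adjC.continuous.comp ((cf (-1)).continuous.comp
      ((continuous_apply j).comp (continuous_fst.comp continuous_snd)))
  exact continuous_re.continuousAt.comp (trC.continuous.continuousAt.comp
    (h2.continuousAt.mul ((cf (-1)).continuous.continuousAt.comp
      (h1.add (continuous_snd.comp continuous_snd).continuousAt))))

lemma So3_det_cont (n : ℤ) (j : Fin 5) :
    Continuous fun A : Fin 5 → MW => (W.coef n (A j).det).re :=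
  continuous_re.comp ((W.coef n).continuous.comp
    ((contDiff_detW (n := 0)).continuous.comp (continuous_apply j)))

lemma So3_gauge {RG : ℝ} (hG : 0 < RG) {F x : EE} {G G' : MW} (hF : F.2.1 = (RG⁻¹ : ℂ) • G)
    (h : reG F = x) (hs : sharp G' = G') : ‖(RG : ℂ) • x.2.1 - G'‖ ≤ ‖G - G'‖ := by
  have hG' : (RG : ℂ) ≠ 0 := ofReal_ne_zero.2 hG.ne'
  have e : (RG : ℂ) • x.2.1 - G' = (1/2 : ℝ) • ((G - G') + sharp (G - G')) := by
    rw [← h, reG_apply, hF, map_sub, hs, sharp_smul, map_inv₀, conj_ofReal, ← smul_add]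
    simp only []
    rw [smul_comm, smul_smul, mul_inv_cancel₀ hG', one_smul]
    module
  rw [e, norm_smul]
  have := norm_add_le (G - G') (sharp (G - G'))
  rw [norm_sharp] at this
  rw [Real.norm_of_nonneg (by norm_num)]
  linarith

theorem hard_close {K : Set Y8} (hK : IsCompact K) (hY : ∀ y ∈ K, Yadm y) {RG Rm : ℝ} (hG : 0 < RG)
    (hm : 0 ≤ Rm) {η : ℝ} (hη : 0 < η) : ∃ s₀ > 0, ∀ s ∈ Ioc 0 s₀, ∀ p ∈ Box K, ∀ x : EE,
      ‖x‖ ≤ 1 → reG (Fmap s RG Rm p x) = x →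
      (∀ j, ‖AA (dat s RG Rm p x) j - Al p.1 j‖ ≤ η) ∧
      ∀ i, |Et (geo s p.1) (dat s RG Rm p x) i - E0 p.1 i| ≤ η := by
  obtain ⟨l, hl⟩ : ∃ l : Filter (ℝ × Par × EE), l = comap Prod.fst (𝓝[>] 0) ⊓
    𝓟 {z | z.2.1 ∈ Box K ∧ ‖z.2.2‖ ≤ 1 ∧ reG (Fmap z.1 RG Rm z.2.1 z.2.2) = z.2.2} := ⟨_, rfl⟩
  have hs : Tendsto Prod.fst l (𝓝[>] 0) := hl ▸ tendsto_comap.mono_left inf_le_left
  have hT : ∀ᶠ z in l, z.2.1 ∈ Box K ∧ ‖z.2.2‖ ≤ 1 ∧
      reG (Fmap z.1 RG Rm z.2.1 z.2.2) = z.2.2 := hl ▸ mem_inf_of_right (mem_principal_self _)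
  have hy : ∀ᶠ z in l, z.2.1.1 ∈ K := hT.mono fun z h => h.1.1
  have hin : ∀ {P : ℝ → Par → EE → Prop},
      (∃ s₀ > 0, ∀ s ∈ Ioc 0 s₀, ∀ p ∈ Box K, ∀ x, ‖x‖ ≤ 1 → P s p x) →
      ∀ᶠ z in l, P z.1 z.2.1 z.2.2 := fun h => by
    filter_upwards [hs.eventually (So3_iff.1 h), hT] with z h1 h2 using h1 _ h2.1 _ h2.2.1
  have hsub : K ⊆ {y | Yadm y} := hY
  obtain ⟨C, N, hhol⟩ := hol_close hK hY hG.le hm
  have hhol := hin hhol
  obtain ⟨C', hC', hpar⟩ := par_est hK hY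
  have hpar := hin ⟨1/2, by norm_num, hpar⟩
  obtain ⟨s₁, hs₁, L, hgeo⟩ := geo_est hK hY
  have hgeo : ∀ᶠ z in l, AdmG (geo z.1 z.2.1.1) ∧ ee (geo z.1 z.2.1.1) ≤ z.1 ^ 4 ∧
      qq (geo z.1 z.2.1.1) ≤ z.1 ^ 4 := by
    filter_upwards [hs.eventually (So3_unit hs₁), hy] with z h1 h2
    exact ⟨(hgeo _ h1 _ h2).1, (hgeo _ h1 _ h2).2.1, (hgeo _ h1 _ h2).2.2.1⟩
  have h01 := hs.eventually (So3_unit one_pos)
  have hgf : ∀ η > 0, ∀ᶠ z in l,
      ‖Gf (geo z.1 z.2.1.1) (dat z.1 RG Rm z.2.1 z.2.2) - G0 z.2.1.1‖ ≤ η ∧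
      ‖(symM (Phi (geo z.1 z.2.1.1) (dat z.1 RG Rm z.2.1 z.2.2)) -
        symM (Php (geo z.1 z.2.1.1) (dat z.1 RG Rm z.2.1 z.2.2))) -
        (symM (Phi0 z.2.1.1) - symM (H0 z.2.1.1))‖ ≤ η := fun η hη => by
    obtain ⟨δ, hδ, H⟩ := gf_close hK hY hη
    filter_upwards [hhol, hy, hs.eventually (So3_lin C hδ)] with z h1 h2 h3
    have := H _ h2 _ _ _ (h1.2.1.trans h3) (h1.2.2.1.trans h3) (h1.2.2.2.1.trans h3)
    exact ⟨this.1, this.2.2.2⟩
  have cG : So3C l (fun z => GG (dat z.1 RG Rm z.2.1 z.2.2)) fun z => G0 z.2.1.1 := fun η hη => by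
    filter_upwards [hgf η hη, hT] with z h1 h2
    rw [dist_eq_norm]
    exact (So3_gauge hG rfl h2.2.2 (sharp_G0 _)).trans h1.1
  have cZ : So3C l (fun z => Z4 z.1 z.2.1 z.2.2) fun z => Z40 z.2.1.1 :=
    So3C.of_lin hs (hpar.mono fun z h => h.2.2.2.1)
  have c1 : So3C l (fun z => A1p z.1 z.2.1 z.2.2) fun z => Al z.2.1.1 1 := by
    refine So3C.of_lin hs (C := C') ?_
    filter_upwards [hpar, hy, h01] with z h1 h2 h3
    rw [Al_one (hY _ h2)]
    exact h1.1.trans (mul_le_mul_of_nonneg_left (by nlinarith [h3.1, h3.2]) hC')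
  have c2 : So3C l (fun z => A2p z.1 z.2.1 z.2.2) fun z => Al z.2.1.1 2 :=
    So3C.of_lin hs (hpar.mono fun z h => h.2.1)
  have c3 : So3C l (fun z => A3p z.1 z.2.1 z.2.2) fun z => Al z.2.1.1 3 :=
    So3C.of_lin hs (hpar.mono fun z h => h.2.2.1)
  have cA : So3C l (fun z => AA (dat z.1 RG Rm z.2.1 z.2.2)) fun z => Al z.2.1.1 := by
    refine (So3C.comp hK (c := fun y => (G0 y, Z40 y, Al y 1, Al y 2, Al y 3))
      ((co_G0.mono hsub).prodMk ((co_Z40.mono hsub).prodMk (((co_Al 1).mono hsub).prodMk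
        (((co_Al 2).mono hsub).prodMk ((co_Al 3).mono hsub))))) So3A
      (fun _ _ => So3A_cont.continuousAt) hy
      (cG.prod (cZ.prod (c1.prod (c2.prod c3))))).congr ?_
    exact hy.mono fun z h => ⟨rfl, So3A_lim (hY _ h)⟩
  have hAl : ContinuousOn Al K := continuousOn_pi.2 fun j => (co_Al j).mono hsub
  have cD := fun n j => So3C.comp hK hAl (fun A => (W.coef n (A j).det).re)
    (fun _ _ => (So3_det_cont n j).continuousAt) hy cA
  obtain ⟨Cr, hreg⟩ := est_reg N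
  have cR : ∀ j : Fin 3, So3C l
      (fun z => (resj (geo z.1 z.2.1.1) (dat z.1 RG Rm z.2.1 z.2.2) j).re)
      fun z => resv z.2.1.1 (cj5 j) := fun j => by
    have cE : So3C l (fun z =>
        reg (geo z.1 z.2.1.1) (dat z.1 RG Rm z.2.1 z.2.2) (cj5 j) (pp (geo z.1 z.2.1.1) j) -
        rat (geo z.1 z.2.1.1) (dat z.1 RG Rm z.2.1 z.2.2) (Finset.univ.erase (cj5 j))
          (pp (geo z.1 z.2.1.1) j)) fun _ => 0 := by
      refine So3C.of_lin hs (C := 2 * |Cr|) ?_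
      filter_upwards [hhol, hgeo, h01] with z h1 h2 h3
      rw [sub_zero]
      refine (hreg _ _ j _ h2.1 h1.1 (by simp)).2.trans ?_
      have h4 : z.1 ^ 4 ≤ z.1 := pow_le_of_le_one h3.1.le h3.2 (by norm_num)
      have h5 := h2.1.2.1.1
      have h6 := h2.1.2.2.1.1
      calc _ ≤ |Cr| * (z.1 + z.1) :=
            mul_le_mul (le_abs_self _) (by linarith [h2.2.1, h2.2.2]) (by linarith) (abs_nonneg _)
        _ = _ := by ring
    refine (So3C.comp hK (c := fun y => (y, Al y, (0 : MW)))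
      (continuousOn_id.prodMk (hAl.prodMk continuousOn_const)) (So3R (cj5 j))
      (fun y h => So3R_cont _ (hY y h)) hy ((So3C.refl _).prod (cA.prod cE))).congr
      (Eventually.of_forall fun z => ⟨?_, ?_⟩)
    · simp only [So3R, resj, rat, pos_cj5]
      rw [show pp (geo z.1 z.2.1.1) = yp z.2.1.1 from rfl, add_sub_cancel]
    · simp only [So3R]
      rw [add_zero, res_Al, ofReal_re]
  have fin : ∀ᶠ z in l, (∀ j, ‖AA (dat z.1 RG Rm z.2.1 z.2.2) j - Al z.2.1.1 j‖ ≤ η) ∧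
      ∀ i, |Et (geo z.1 z.2.1.1) (dat z.1 RG Rm z.2.1 z.2.2) i - E0 z.2.1.1 i| ≤ η := by
    filter_upwards [cA η hη, hgf η hη, hy, cD (-1) 2 η hη, cD (-1) 3 η hη, cD (-2) 4 η hη,
      cR 0 η hη, cR 1 η hη, cR 2 η hη] with z h1 h2 h3 d1 d2 d4 r0 r1 r2
    refine ⟨fun j => ?_, fun i => ?_⟩
    · rw [← dist_eq_norm]
      exact (dist_le_pi_dist _ _ j).trans h1
    have h4 := fun i j => (abs_re_le_norm _).trans ((norm_entryC_le _ i j).trans h2.2)
    rw [symM_Phi0 (hY _ h3)] at h4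
    rw [coef_det_Al2, ofReal_re, Real.dist_eq] at d1
    rw [coef_det_Al3, ofReal_re, Real.dist_eq] at d2
    rw [coef_det_Al4, ofReal_re, Real.dist_eq] at d4
    rw [Real.dist_eq] at r0 r1 r2
    fin_cases i
    · simpa [Et, s1, s3] using h4 0 0
    · exact d1
    · exact d2
    · simpa [Et, E0, s1, s3] using h4 0 1
    · exact d4
    · exact r0
    · exact r1
    · exact r2
  rw [hl, eventually_inf_principal, eventually_comap] at fin
  refine So3_iff.2 (fin.mono fun s h p hp x hx hf => ?_)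
  exact h (s, p, x) rfl ⟨hp, hx, hf⟩

lemma So3_detC (M N : MC) : ‖M.det - N.det‖ ≤ 2 * ‖M - N‖ * (‖M‖ + ‖N‖) := by
  have e : M.det - N.det = (M - N) 0 0 * M 1 1 + (M - N) 1 1 * N 0 0 -
      ((M - N) 0 1 * M 1 0 + (M - N) 1 0 * N 0 1) := by
    simp only [Matrix.det_fin_two, Matrix.sub_apply]
    ring
  have h : ∀ (A : MC) i j k l, ‖(M - N) i j * A k l‖ ≤ ‖M - N‖ * ‖A‖ := fun A i j k l => by
    rw [norm_mul]
    exact mul_le_mul (norm_entryC_le _ _ _) (norm_entryC_le _ _ _) (norm_nonneg _) (norm_nonneg _)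
  rw [e]
  refine ((norm_sub_le _ _).trans (add_le_add (norm_add_le _ _) (norm_add_le _ _))).trans ?_
  linarith [h M 0 0 1 1, h N 1 1 0 0, h M 0 1 1 0, h N 1 0 0 1]

lemma So3_det {M N : MW} {a B : ℝ} (h : ‖M - N‖ ≤ a) (ha : a ≤ B) (hN : ‖N‖ ≤ B) :
    ‖(cf (-1) M).det - (cf (-1) N).det‖ ≤ 6 * a * B := by
  have h0 := (norm_nonneg _).trans h
  have h1 : ‖cf (-1) M - cf (-1) N‖ ≤ a := by
    rw [← map_sub]
    exact (norm_cf_le _ _).trans h
  have h2 := (norm_cf_le (-1) N).trans hN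
  have h3 : ‖cf (-1) M‖ ≤ 2 * B := by
    linarith [norm_le_insert' (cf (-1) M) (cf (-1) N)]
  calc _ ≤ 2 * ‖cf (-1) M - cf (-1) N‖ * (‖cf (-1) M‖ + ‖cf (-1) N‖) := So3_detC _ _
    _ ≤ 2 * a * (2 * B + B) := by gcongr
    _ = _ := by ring

lemma So3_pm {σ : ℝ} (h : σ ^ 2 = 1) : σ = 1 ∨ σ = -1 :=
  sq_eq_sq_iff_eq_or_eq_neg.1 (h.trans (one_pow 2).symm)

lemma So3_sgn1 {t σ k : ℝ} {j J D : ℂ} (ht : 0 < t) (ht' : t ≤ 1/1000) (hσ : σ ^ 2 = 1)
    (hk : |k - 1| ≤ 4 * t ^ 2) (hk' : 1/2 ≤ k) (hj : ‖j‖ ≤ t / 100) (hJ : ‖J‖ ≤ t / 100)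
    (hD : ‖D - (((j - (1/2 + t * σ : ℝ)) / 2) ^ 2 -
      (-(((1/2 + t * σ : ℝ) : ℂ) ^ 2 / k) - J / 2) ^ 2)‖ ≤ t / 100) : 0 < σ * -D.re := by
  obtain ⟨b, hb⟩ : ∃ b : ℝ, b = 1/2 + t * σ := ⟨_, rfl⟩
  rw [← hb] at hD
  have hσ1 : |σ| = 1 := by
    rw [← sq_eq_sq₀ (abs_nonneg _) zero_le_one, sq_abs, hσ, one_pow]
  have hσ2 := abs_le.1 hσ1.le
  have hb1 : 49/100 ≤ b := by nlinarith
  have hb2 : b ≤ 51/100 := by nlinarith
  have hk0 : 0 < k := by linarith
  obtain ⟨a, ha⟩ : ∃ a : ℂ, a = ((b ^ 2 * ((1 - k) / k) : ℝ) : ℂ) + J / 2 := ⟨_, rfl⟩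
  have hk1 : |(1 - k) / k| ≤ t / 100 := by
    rw [abs_div, abs_sub_comm, abs_of_pos hk0, div_le_iff₀ hk0]
    nlinarith
  have ha1 : ‖a‖ ≤ t / 50 := by
    rw [ha]
    refine (norm_add_le _ _).trans ?_
    rw [norm_real, norm_div, Real.norm_eq_abs, abs_mul, abs_of_nonneg (sq_nonneg b)]
    have : b ^ 2 * |(1 - k) / k| ≤ 1 * (t / 100) :=
      mul_le_mul (by nlinarith) hk1 (abs_nonneg _) zero_le_one
    norm_num
    linarith
  have e : ((j - b) / 2) ^ 2 - (-((b : ℂ) ^ 2 / k) - J / 2) ^ 2 =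
      -((b ^ 2 * (b + 1/2) * (t * σ) : ℝ) : ℂ) -
        (2 * b ^ 2 * a + a * a + b / 2 * j - j * j / 4) := by
    have hk2 : (k : ℂ) ≠ 0 := ofReal_ne_zero.2 hk0.ne'
    have h1 : ((t * σ : ℝ) : ℂ) = b - 1/2 := by rw [hb]; push_cast; ring
    rw [ofReal_mul, h1, ha]
    push_cast
    field_simp
    ring
  have hX : ‖2 * b ^ 2 * a + a * a + b / 2 * j - j * j / 4‖ ≤ t / 10 := by
    have h1 : ‖2 * (b : ℂ) ^ 2 * a‖ ≤ 1 * (t / 50) := by
      rw [norm_mul]
      refine mul_le_mul ?_ ha1 (norm_nonneg _) zero_le_one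
      simp only [norm_mul, norm_pow, norm_real, Real.norm_eq_abs, sq_abs, Complex.norm_ofNat]
      nlinarith
    have h2 : ‖a * a‖ ≤ 1 * (t / 50) := by
      rw [norm_mul]
      exact mul_le_mul (by linarith) ha1 (norm_nonneg _) zero_le_one
    have h3 : ‖(b : ℂ) / 2 * j‖ ≤ 1 * (t / 100) := by
      rw [norm_mul]
      refine mul_le_mul ?_ hj (norm_nonneg _) zero_le_one
      simp only [norm_div, norm_real, Real.norm_eq_abs, Complex.norm_ofNat]
      rw [abs_of_pos (by linarith)]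
      linarith
    have h4 : ‖j * j / 4‖ ≤ t / 100 := by
      have : ‖j‖ * ‖j‖ ≤ 1 * (t / 100) :=
        mul_le_mul (by linarith) hj (norm_nonneg _) zero_le_one
      simp only [norm_div, norm_mul, Complex.norm_ofNat]
      linarith
    refine ((norm_sub_le _ _).trans (add_le_add ((norm_add_le _ _).trans
      (add_le_add (norm_add_le _ _) le_rfl)) le_rfl)).trans ?_
    linarith
  rw [e] at hD
  generalize 2 * (b : ℂ) ^ 2 * a + a * a + b / 2 * j - j * j / 4 = X at hD hX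
  have h1 := abs_le.1 ((abs_re_le_norm _).trans hD)
  have h2 := abs_le.1 ((abs_re_le_norm _).trans hX)
  simp only [sub_re, neg_re, ofReal_re] at h1
  have h3 : 1/5 ≤ b ^ 2 * (b + 1/2) := by nlinarith
  generalize b ^ 2 * (b + 1/2) = m at h1 h3
  have h4 : 1/5 * t ≤ m * t := mul_le_mul_of_nonneg_right h3 ht.le
  rcases So3_pm hσ with h | h <;> rw [h] at h1 ⊢ <;> nlinarith [h1.1, h1.2]

lemma So3_sgn2 {s σ ρ r : ℝ} {k D : ℂ} (hs : 0 < s) (hs' : s ≤ r / 4) (hσ : σ ^ 2 = 1)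
    (hρ : r ≤ ρ) (hk : ‖k - ρ‖ ≤ r / 4)
    (hD : ‖D - -(((s * σ : ℝ) : ℂ) * (k + ((s * σ : ℝ) : ℂ)))‖ ≤ s * (r / 4)) :
    0 < σ * -D.re := by
  have h1 := abs_le.1 ((abs_re_le_norm _).trans hD)
  have h2 := abs_le.1 ((abs_re_le_norm _).trans hk)
  simp only [sub_re, neg_re, ofReal_re, re_ofReal_mul, add_re] at h1 h2
  rcases So3_pm hσ with h | h <;> rw [h] at h1 ⊢ <;> nlinarith [h1.1, h1.2]

theorem hard_sign {K : Set Y8} (hK : IsCompact K) (hY : ∀ y ∈ K, Yadm y) {RG Rm : ℝ} (hG : 0 ≤ RG)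
    (hm : 0 ≤ Rm) : ∃ s₀ > 0, ∀ s ∈ Ioc 0 s₀, ∀ p ∈ Box K, ∀ x : EE, ‖x‖ ≤ 1 →
      (p.2.1 = 1 → 0 < Eb (geo s p.1) (dat s RG Rm p x)) ∧
      (p.2.1 = -1 → Eb (geo s p.1) (dat s RG Rm p x) < 0) ∧
      (p.2.2 = 1 → 0 < Em (geo s p.1) (dat s RG Rm p x)) ∧
      (p.2.2 = -1 → Em (geo s p.1) (dat s RG Rm p x) < 0) := by
  obtain ⟨C, N, hhol⟩ := hol_close hK hY hG hm
  obtain ⟨C', hC', hpar⟩ := par_est hK hY
  obtain ⟨s₁, hs₁, L, hgeo⟩ := geo_est hK hY
  obtain ⟨Cf, hfar⟩ := est_far N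
  obtain ⟨r, hr, hρ⟩ := hK.exists_forall_le' (f := rho) (a := 0)
    (by unfold rho; fun_prop) fun y hy => half_pos (Real.sin_pos_of_pos_of_lt_pi (hY y hy).1
      (by linarith [(hY y hy).2.1, Real.pi_pos]))
  refine So3_iff.2 ?_
  filter_upwards [So3_iff.1 hhol, So3_unit hs₁, So3_unit (c := 1/100) (by norm_num),
    So3_lin C' (η := 1/100) (by norm_num), So3_lin C' (η := r / 4) (by positivity),
    So3_lin 1 (η := r / 4) (by positivity),
    So3_lin (6 * (2 * N) * (2 * N)) (η := 1/100) (by norm_num),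
    So3_lin (6 * (2 * |Cf|) * (5 * N + 2 * |Cf|)) (η := r / 4) (by positivity)]
    with s h1 h2 h3 h4 h5 h6 h7 h8 p hp x hx
  have hN := (h1 p hp x hx).1
  have hN0 := (norm_nonneg _).trans hN
  obtain ⟨hg, hε, hq, -⟩ := hgeo s h2 _ hp.1
  obtain ⟨-, -, -, -, hk4, hj, hJ, -⟩ := hpar s ⟨h3.1, by linarith [h3.2]⟩ p hp x hx
  obtain ⟨hs, hs'⟩ := h3
  have hs2 : s ^ 2 ≤ 1/1000 := by nlinarith
  have hs2' : 0 < s ^ 2 := by positivity
  have hb : p.2.1 ^ 2 = 1 → 0 < p.2.1 * Eb (geo s p.1) (dat s RG Rm p x) := fun hσ => by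
    have hk := kap_est (t := s ^ 4) (by positivity) (by nlinarith)
    have hε0 := hg.2.1.1
    have hT : ‖Th (geo s p.1) (dat s RG Rm p x) (ee (geo s p.1)) - A1p s p x‖ ≤
        2 * N * s ^ 4 := by
      refine (est_Th _ _ _).trans ?_
      rw [norm_real, Real.norm_of_nonneg hε0.le, sq, mul_div_cancel_right₀ _ hε0.ne']
      calc _ ≤ (s ^ 4 + s ^ 4) * N := by gcongr
        _ = _ := by ring
    have hs4 : s ^ 4 ≤ 1 := pow_le_one₀ hs.le (by linarith)
    have hD := So3_det hT (B := 2 * N) (mul_le_of_le_one_right (by positivity) hs4)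
      (((Est1_A (dat s RG Rm p x) 1).trans hN).trans (by linarith))
    rw [det_cf_A1p] at hD
    have h9 : C' * s ^ 3 ≤ s ^ 2 / 100 := by nlinarith
    refine So3_sgn1 hs2' hs2 hσ (k := kap (s ^ 4)) (hk.1.trans_eq (by ring)) hk.2 (hj.trans h9)
      (hJ.trans h9) (hD.trans ?_)
    calc _ = 6 * (2 * N) * (2 * N) * s * s ^ 2 * s := by ring
      _ ≤ 1/100 * s ^ 2 * 1 := by gcongr; linarith
      _ = _ := by ring
  have hm' : p.2.2 ^ 2 = 1 → 0 < p.2.2 * Em (geo s p.1) (dat s RG Rm p x) := fun hσ => by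
    have hq0 := hg.2.2.1.1
    have hw := Real.sqrt_pos.2 hq0
    have hw1 : √(qq (geo s p.1)) ≤ s ^ 2 := Real.sqrt_le_iff.2 ⟨hs2'.le, by nlinarith⟩
    have hF := hfar _ _ ((1 / √(qq (geo s p.1)) : ℝ) : ℂ) hg hN (by
      rw [ofReal_re, le_div_iff₀ hw]; linarith)
    rw [dat_sum, norm_real, Real.norm_of_nonneg (by positivity), one_div_one_div, mul_one_div,
      Real.div_sqrt] at hF
    have hF' := hF.trans (mul_le_mul (le_abs_self Cf) (add_le_add hw1 hw1) (by positivity)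
      (abs_nonneg _))
    have hC := abs_nonneg Cf
    have hZ : ‖Z4 s p x‖ ≤ 5 * N := by
      rw [← dat_sum s RG Rm]
      exact (Est1_sum _).trans (by linarith)
    have hD := So3_det hF' (B := 5 * N + 2 * |Cf|) (by nlinarith) (by linarith)
    rw [det_cf_Z4] at hD
    refine So3_sgn2 hs (by linarith) hσ (hρ _ hp.1) (hk4.trans h5) (hD.trans ?_)
    calc _ = s * (6 * (2 * |Cf|) * (5 * N + 2 * |Cf|) * s) := by ring
      _ ≤ _ := by gcongr
  refine ⟨fun h => ?_, fun h => ?_, fun h => ?_, fun h => ?_⟩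
  · simpa [h] using hb (by rw [h]; norm_num)
  · simpa [h] using hb (by rw [h]; norm_num)
  · simpa [h] using hm' (by rw [h]; norm_num)
  · simpa [h] using hm' (by rw [h]; norm_num)

lemma So3_sym {F : Geo × Dat → MW} {S : Set (Geo × Dat)} (hF : ContinuousOn F S)
    (hd : ∀ x ∈ S, (F x).det = 1) : ContinuousOn (fun x => symM (F x)) S := fun x hx =>
  ContinuousAt.comp_continuousWithinAt (f := F) (contDiffAt_symM (hd x hx)).continuousAt (hF x hx)

lemma So3_cont :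
    ContinuousOn (fun x : Geo × Dat => Et x.1 x.2) {x | AdmG x.1 ∧ Str x.2} ∧
    ContinuousOn (fun x : Geo × Dat => Eb x.1 x.2) {x | AdmG x.1 ∧ Str x.2} ∧
    ContinuousOn (fun x : Geo × Dat => Em x.1 x.2) {x | AdmG x.1 ∧ Str x.2} := by
  have hM : {x : Geo × Dat | AdmG x.1 ∧ Str x.2} ⊆ {x | AdmG x.1} := fun x h => h.1
  have hA : Continuous fun x : Geo × Dat => AA x.2 := continuous_fst.comp continuous_snd
  have hdet : Continuous fun M : MW => -((cf (-1) M).det).re :=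
    (continuous_re.comp ((contDiff_detC (n := 0)).continuous.comp (cf (-1)).continuous)).neg
  have hS := (So3_sym (co_Phi.mono hM) fun x h => det_Phi h.1 h.2).sub
    (So3_sym (co_Php.mono hM) fun x h => det_Php h.1 h.2)
  have hE := fun i j => (continuous_re.comp (entC i j).continuous).comp_continuousOn hS
  have hD := fun n j => ((So3_det_cont n j).comp hA).continuousOn
    (s := {x | AdmG x.1 ∧ Str x.2})
  have hR : ∀ j : Fin 3, ContinuousOn (fun x : Geo × Dat => (resj x.1 x.2 j).re)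
      {x | AdmG x.1 ∧ Str x.2} := fun j =>
    (continuous_re.comp trC.continuous).comp_continuousOn
      ((adjC.continuous.comp ((cf (-1)).continuous.comp
        ((continuous_apply (cj5 j)).comp hA))).continuousOn.mul
        ((cf (-1)).continuous.comp_continuousOn ((co_reg j).mono hM)))
  refine ⟨continuousOn_pi.2 fun i => ?_, hdet.comp_continuousOn (co_Th.mono hM),
    hdet.comp_continuousOn (ContinuousOn.fun_smul ?_ (co_Xi.mono hM))⟩
  · fin_cases i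
    exacts [hE 0 0, hD (-1) 2, hD (-1) 3, hE 0 1, hD (-2) 4, hR 0, hR 1, hR 2]
  · have h1 : Continuous fun x : Geo × Dat => qq x.1 :=
      continuous_fst.comp (continuous_snd.comp (continuous_snd.comp continuous_fst))
    exact continuous_ofReal.comp_continuousOn (continuousOn_const.div h1.sqrt.continuousOn
      fun x hx => (Real.sqrt_pos.2 hx.1.2.2.1.1).ne')

lemma So3_cont' {S : Set Par} {g : Par → Geo} {d : Par → Dat} (hg : ContinuousOn g S)
    (hd : ContinuousOn d S) (h : ∀ p ∈ S, AdmG (g p) ∧ Str (d p)) :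
    ContinuousOn (fun p => Et (g p) (d p)) S ∧ ContinuousOn (fun p => Eb (g p) (d p)) S ∧
      ContinuousOn (fun p => Em (g p) (d p)) S := by
  have hM : MapsTo (fun p => (g p, d p)) S {x : Geo × Dat | AdmG x.1 ∧ Str x.2} := h
  have h1 := So3_cont.1.comp (hg.prodMk hd) hM
  have h2 := So3_cont.2.1.comp (hg.prodMk hd) hM
  have h3 := So3_cont.2.2.comp (hg.prodMk hd) hM
  simp only [Function.comp_def] at h1 h2 h3
  exact ⟨h1, h2, h3⟩

theorem hard_cont {K : Set Y8} (hY : ∀ y ∈ K, Yadm y) {s RG Rm : ℝ}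
    (hg : ∀ y ∈ K, AdmG (geo s y)) {e : Par → EE} (he : ContinuousOn e (Box K))
    (hC : ∀ p ∈ Box K, e p ∈ CC) :
    ContinuousOn (fun p => Et (geo s p.1) (dat s RG Rm p (e p))) (Box K) ∧
    ContinuousOn (fun p => Eb (geo s p.1) (dat s RG Rm p (e p))) (Box K) ∧
    ContinuousOn (fun p => Em (geo s p.1) (dat s RG Rm p (e p))) (Box K) := by
  have hd : ContinuousOn (fun p : Par => dat s RG Rm p (e p)) (Box K) :=
    ContinuousOn.comp (g := fun z : Par × EE => dat s RG Rm z.1 z.2) (f := fun p => (p, e p))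
      (co_dat s RG Rm) (continuousOn_id.prodMk he) fun p hp => hY _ hp.1
  have hF : ContinuousOn (fun p : Par => geo s p.1) (Box K) :=
    (co_geo s).comp continuous_fst.continuousOn fun p hp => hY _ hp.1
  exact So3_cont' hF hd fun p hp => ⟨hg _ hp.1, dat_str s RG Rm p _ (hC p hp)⟩

end Pool.Agent.MP_efb2da_gt

end
end

section

open Set Complex
open scoped Topology ComplexConjugate Matrix ContDiff

noncomputable section

namespace Pool.Agent.MP_efb2da_gt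

lemma So4_zero {z : ℂ} (h : conj z = z) (h0 : z.re = 0) : z = 0 := by
  rw [← conj_eq_iff_re.1 h, h0, ofReal_zero]

lemma So4_ent {M : MC} (h : cjC M = M) (i j : Fin 2) : conj (M i j) = M i j := by
  rw [← cjC_apply, h]

lemma So4_detC {M : MC} (h : cjC M = M) : conj M.det = M.det := by
  rw [Matrix.det_fin_two, map_sub, map_mul, map_mul, So4_ent h, So4_ent h, So4_ent h, So4_ent h]

lemma So4_cf {M : MW} (h : sharp M = M) (n : ℤ) : cjC (cf n M) = cf n M := by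
  rw [← cf_sharp, h]

lemma So4_coef_det {M : MW} (h : sharp M = M) (n : ℤ) :
    conj (W.coef n M.det) = W.coef n M.det := by
  rw [← W.coef_cj, ← det_sharp, h]

lemma So4_tr_adj {M N : MC} (hM : cjC M = M) (hN : cjC N = N) :
    conj (trC (adjC M * N)) = trC (adjC M * N) := by
  rw [trC_apply, matApi2_mulC, matApi2_mulC, adjC_apply]
  simp only [Matrix.of_apply, Matrix.cons_val', Matrix.cons_val_zero, Matrix.cons_val_one,
    Matrix.cons_val_fin_one, map_add, map_mul, map_neg, So4_ent hM, So4_ent hN]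

lemma So4_adjC_of_tr {M : MC} (h : trC M = 0) : adjC M = -M := by
  rw [trC_apply] at h
  rw [adjC_apply]
  ext i j
  fin_cases i <;> fin_cases j <;> simp
  · linear_combination h
  · linear_combination h

lemma So4_tr_Sof (t : ℝ) (R : MW) : trW (Sof t R) = 0 := by
  rw [Sof, map_smul, map_sub, trW_adj, sub_self, smul_zero]

lemma So4_jc_add (a b : MC) : jc (a + b) = jc a + jc b := by
  simp only [jc, Matrix.add_apply]; ring

lemma So4_jc_neg (a : MC) : jc (-a) = -jc a := by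
  simp only [jc, Matrix.neg_apply]; ring

lemma So4_jc_sub (a b : MC) : jc (a - b) = jc a - jc b := by
  simp only [jc, Matrix.sub_apply]; ring

lemma So4_jc_nilM (κ : ℂ) (ψ : ℝ) : jc (nilM κ ψ) = κ / 2 := by
  simp [jc, nilM, sJ, s3, s1]; ring

lemma So4_jc_nilmu (κ μ : ℂ) (ψ : ℝ) : jc (nilmu κ μ ψ) = κ / 2 := by
  simp [jc, nilmu, sJ, s3, s1]

lemma So4_jc_s3J (u v : ℂ) : jc (u • s3 + v • sJ) = v := by
  simp [jc, sJ, s3]

lemma So4_trp_S10 (s : ℝ) : trpC (S10 s) = S10 s := by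
  rw [S10, map_smul, Lax_trp_s3]

lemma So4_S10 (s : ℝ) :
    S10 s = (-(Real.sin (Real.pi * s ^ 4) / (2 * Real.pi * s ^ 4)) : ℝ) • s3 := by
  have : -(kap (s ^ 4) / 2) = -(Real.sin (Real.pi * s ^ 4) / (2 * Real.pi * s ^ 4)) := by
    rw [kap, div_div]; ring
  rw [S10, this]
  exact Complex.coe_smul _ _

lemma So4_kap_pos {t : ℝ} (h0 : 0 < t) (h1 : t < 1/2) : 0 < Real.sin (Real.pi * t) :=
  Real.sin_pos_of_pos_of_lt_pi (mul_pos Real.pi_pos h0) (by nlinarith [Real.pi_pos])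

lemma So4_x0 {t β : ℝ} (h0 : 0 < t) (h1 : t < 1/2) :
    -(β / kap t) * Real.sin (Real.pi * t) = -(Real.pi * t * β) := by
  have := (So4_kap_pos h0 h1).ne'
  have := Real.pi_pos.ne'
  rw [kap]; field_simp

lemma So4_kap_ne {t : ℝ} (h0 : 0 < t) (h1 : t < 1/2) : (kap t : ℂ) ≠ 0 :=
  ofReal_ne_zero.2 (div_pos (So4_kap_pos h0 h1) (mul_pos Real.pi_pos h0)).ne'

/-- second jet of the determinant of a traceless loop -/
lemma So4_j2_det {S : MW} {κ β : ℂ} (hκ : κ ≠ 0) (ht : trW S = 0) (h0 : J0 S = (-(κ / 2)) • s3)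
    (h1 : J1 S = β • sJ) (h2 : J2 S 0 0 = -(2 * β ^ 2 / κ)) : W.j2 S.det = 0 := by
  have e : W.j2 (S 1 1) = -W.j2 (S 0 0) := by
    rw [trW_apply] at ht
    rw [← map_neg, eq_neg_of_add_eq_zero_right ht]
  rw [Matrix.det_fin_two, map_sub, W.j2_mul, W.j2_mul, e]
  simp only [← J0_apply, ← J1_apply, h0, h1]
  rw [← J2_apply, h2]
  simp [s3, sJ]
  field_simp
  ring

/-- jets of a loop conjugated by a real based unitary loop -/
lemma So4_conj {H M : MW} (hd : H.det = 1) (hr : sharp H = H) :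
    flat (Uf H * M * adj (Uf H)) = Uf H * flat M * adj (Uf H) ∧
    J0 (Uf H * M * adj (Uf H)) = J0 M ∧
    J1 (Uf H * M * adj (Uf H)) = J1 M + (symM H * J0 M - J0 M * symM H) := by
  have h1 : flat (Uf H) = adj (Uf H) := by
    rw [← st_Uf hd, st_eq, ← Uf_sharp hd, hr]
  refine ⟨?_, ?_, ?_⟩
  · rw [flat_mul, flat_mul, flat_adj, h1, adj_adj, mul_assoc]
  · rw [J0_mul, J0_mul, J0_adj, J0_Uf hd, adjC_one, one_mul, mul_one]
  · rw [J1_mul, J1_mul, J0_mul, J0_adj, J1_adj, J0_Uf hd, adjC_one, one_mul, mul_one, one_mul,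
      show J1 (Uf H) = symM H from rfl, So4_adjC_of_tr (symM_tr hd), mul_neg]
    abel

lemma So4_Cl0 {x t : ℝ} {R : MW} (h : Cl x t 0 R) : J0 R = 1 ∧ J1 R = 0 := by
  have h0 : J0 R = 1 := by
    rw [h.j0, Int.cast_zero, mul_zero, Jet_Dm_zero]
  exact ⟨h0, by rw [h.j1, h0, mul_one, one_mul, sub_self, smul_zero]⟩

lemma So4_Php {g : Geo} {d : Dat} (hg : AdmG g) (hd : Str d) :
    Php g d = RR g d 0 * sharp (Php g d) * 1 := by
  rw [sharp_Php hg hd, Phm, mul_one, ← mul_assoc, mul_adj_of_det (det_RR hg hd 0), one_mul]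

lemma So4_det_sharp {M : MW} (h : M.det = 1) : (sharp M).det = 1 := by
  rw [det_sharp, h, W.cj_one]

section
variable {s RG Rm : ℝ} {p : Par} {x : EE}

lemma So4_er (hx : x ∈ CC) (i : Fin 4) : er s x i = (sc s i : ℂ) • x.1 i :=
  tl_of_tr (by rw [map_smul, (hx.1 i).2, smul_zero])

lemma So4_S1 (hs : 0 < s) (hx : x ∈ CC) (hfix : reG (Fmap s RG Rm p x) = x) :
    Sof (s ^ 4) (R1 (geo s p.1) (dat s RG Rm p x)) = A1p s p x + er s x 0 := by
  rw [reG_apply] at hfix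
  have h : ((s ^ 3)⁻¹ : ℂ) • (Sof (s ^ 4) (R1 (geo s p.1) (dat s RG Rm p x)) - A1p s p x) =
      x.1 0 := congrFun (congrArg Prod.fst hfix) 0
  have hs3 : (s : ℂ) ^ 3 ≠ 0 := pow_ne_zero _ (ofReal_ne_zero.2 hs.ne')
  rw [So4_er hx, ← h, show sc s 0 = s ^ 3 from rfl, ofReal_pow, smul_smul, mul_inv_cancel₀ hs3,
    one_smul, add_sub_cancel]

lemma So4_errZ (hs : 0 < s) (hx : x ∈ CC) (hfix : reG (Fmap s RG Rm p x) = x) (i : Fin 3) :
    errZ s RG Rm p x i = er s x i.succ := by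
  rw [reG_apply] at hfix
  have h : (s⁻¹ : ℂ) • errZ s RG Rm p x i = x.1 i.succ := by
    rw [← congrFun (congrArg Prod.fst hfix) i.succ]
    fin_cases i <;> rfl
  have hs1 : (s : ℂ) ≠ 0 := ofReal_ne_zero.2 hs.ne'
  have e : sc s i.succ = s := by fin_cases i <;> rfl
  rw [So4_er hx, ← h, e, smul_smul, mul_inv_cancel₀ hs1, one_smul]

lemma So4_SR (hs : 0 < s) (hx : x ∈ CC) (hfix : reG (Fmap s RG Rm p x) = x) (i : Fin 3) :
    Sof (s ^ 4) (RR (geo s p.1) (dat s RG Rm p x) i) =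
      Uf (H0 p.1) * (alZ s p x i + er s x i.succ) * adj (Uf (H0 p.1)) := by
  have hU := mul_adj_of_det (det_Uf (det_H0 p.1))
  rw [← So4_errZ hs hx hfix, errZ, add_sub_cancel, ← mul_assoc, ← mul_assoc, hU, one_mul,
    mul_assoc, hU, mul_one]

end

section
variable {s RG Rm : ℝ} {p : Par} {x : EE} (hs : 0 < s) (hs' : s ^ 4 < 1/2) (hG : 0 < RG)
  (hm : 0 < Rm) (hy : Yadm p.1) (hg : AdmG (geo s p.1)) (hx : x ∈ CC)
  (hfix : reG (Fmap s RG Rm p x) = x)
  (h1 : ‖R1 (geo s p.1) (dat s RG Rm p x) - 1‖ ≤ 1/4)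
  (h2 : ∀ i, ‖RR (geo s p.1) (dat s RG Rm p x) i - 1‖ ≤ 1/4)
include hs hs' hG hm hy hg hx hfix h1 h2

/-- the monodromies at a fixed point -/
theorem fixed_cl :
    let g := geo s p.1
    let d := dat s RG Rm p x
    let x₀ := -(be s p / kap (s ^ 4))
    Cl x₀ (s ^ 4) 1 (R1 g d) ∧ phi x₀ (R1 g d) = 0 ∧ Cl x₀ (s ^ 4) 0 (RR g d 0) ∧
      Cl x₀ (s ^ 4) 0 (RR g d 1) ∧ Cl x₀ (s ^ 4) 1 (RR g d 2) := by
  intro g d x₀
  have ht : 0 < s ^ 4 := pow_pos hs 4
  have hd : Str d := dat_str s RG Rm p x hx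
  have hκ := So4_kap_ne ht hs'
  have hx₀ : x₀ * Real.sin (Real.pi * s ^ 4) = -(Real.pi * s ^ 4 * be s p) := So4_x0 ht hs'
  have hS := So4_S1 hs hx hfix
  have hJ0 : J0 (Sof (s ^ 4) (R1 g d)) = S10 s := by rw [hS, A1p, J0_build]
  have hJ1 : J1 (Sof (s ^ 4) (R1 g d)) = (be s p : ℂ) • sJ := by
    rw [hS, A1p, J1_build, So4_jc_s3J]
    congr 1
    rw [jj]; ring
  have hA := Cl_one_of_S (x := x₀) ht hs' (det_R1 hg hd) (sharp_R1 hg hd) h1
    (by rw [hS, A1p, flat_build (So4_trp_S10 s)]) (hJ0.trans (So4_S10 s)) hJ1 hx₀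
  have hc := fun i => So4_conj (M := alZ s p x i + er s x i.succ) (det_H0 p.1) (sharp_H0 p.1)
  have hR := So4_SR hs hx hfix
  have h0 : trpC (0 : MC) = 0 := map_zero _
  refine ⟨hA.1, hA.2 ?_, ?_, ?_, ?_⟩
  · refine So4_j2_det (β := be s p) hκ (So4_tr_Sof _ _) ?_ hJ1 ?_
    · rw [hJ0, S10]; push_cast; rfl
    · rw [hS, A1p, J2_build]
      simp [trpC_apply, s3, sJ]
      ring
  · have e : alZ s p x 0 + er s x (0 : Fin 3).succ =
        build (er s x 1) (cf (-1) (al1 s p x) + a2 s p x) 0 + er s x 1 := rfl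
    refine Cl_zero_of_S ht.ne' (det_RR hg hd 0) (sharp_RR hg hd 0) (h2 0) ?_ ?_ ?_
    · rw [hR, (hc 0).1, e, flat_build h0]
    · rw [hR, (hc 0).2.1, e, J0_build]
    · rw [hR, (hc 0).2.2, e, J0_build, J1_build, So4_jc_add, a2, So4_jc_nilM, mul_zero, zero_mul,
        sub_self, add_zero, jj]
      rw [show ∀ u v : ℂ, u - 2 * (v + (u - 2 * v) / 2) = 0 from fun u v => by ring, zero_smul]
  · have e : alZ s p x 1 + er s x (1 : Fin 3).succ =
        build (er s x 2) (-a4 s p x - a3 s p x) 0 + er s x 2 := rfl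
    refine Cl_zero_of_S ht.ne' (det_RR hg hd 1) (sharp_RR hg hd 1) (h2 1) ?_ ?_ ?_
    · rw [hR, (hc 1).1, e, flat_build h0]
    · rw [hR, (hc 1).2.1, e, J0_build]
    · rw [hR, (hc 1).2.2, e, J0_build, J1_build, So4_jc_sub, So4_jc_neg, a3, a4, So4_jc_nilM,
        So4_jc_nilmu, mul_zero, zero_mul, sub_self, add_zero, jj]
      rw [show ∀ u v : ℂ, u - 2 * (-(v / 2) - (-v - u) / 2) = 0 from fun u v => by ring, zero_smul]
  · have e : alZ s p x 2 + er s x (2 : Fin 3).succ =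
        build (er s x 3) (-a4 s p x) (S10 s) + er s x 3 := rfl
    refine (Cl_one_of_S (β := be s p) ht hs' (det_RR hg hd 2) (sharp_RR hg hd 2) (h2 2) ?_ ?_ ?_
      hx₀).1
    · rw [hR, (hc 2).1, e, flat_build (So4_trp_S10 s)]
    · rw [hR, (hc 2).2.1, e, J0_build, So4_S10]
    · obtain ⟨z, hz⟩ := symM_H0 hy
      rw [hR, (hc 2).2.2, e, J0_build, J1_build, So4_jc_neg, a4, So4_jc_nilmu, k4, jj, hz, S10]
      generalize jc (J1 (SymE (er s x 3))) = u
      ext i j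
      fin_cases i <;> fin_cases j <;> simp [s1, s3, sJ] <;> ring

theorem fixed_fix : GG (dat s RG Rm p x) = Gf (geo s p.1) (dat s RG Rm p x) ∧
    Fix (geo s p.1) (dat s RG Rm p x) := by
  have hd : Str (dat s RG Rm p x) := dat_str s RG Rm p x hx
  have hc := (fixed_cl hs hs' hG hm hy hg hx hfix h1 h2).2.2.1
  have hP := det_Php hg hd
  have hQ := det_Phi hg hd
  have hB : sharp (Bm (Php (geo s p.1) (dat s RG Rm p x))) =
      Bm (Php (geo s p.1) (dat s RG Rm p x)) := by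
    have := (iw_gauge (So4_det_sharp hP) hc.unit hc.det MGE_one Matrix.det_one).2
    rw [← So4_Php hg hd, (So4_Cl0 hc).1, cst_one, one_mul, mul_one, Bm_sharp hP] at this
    exact this.symm
  have hGr : sharp (Gf (geo s p.1) (dat s RG Rm p x)) = Gf (geo s p.1) (dat s RG Rm p x) := by
    rw [Gf_eq hg hd, sharp_mul, ← adj_Bm, sharp_adj, hB, ← Bm_sharp hQ, sharp_Phi hg hd]
  rw [reG_apply] at hfix
  have e1 : (1/2 : ℝ) • ((RG⁻¹ : ℂ) • Gf (geo s p.1) (dat s RG Rm p x) +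
      sharp ((RG⁻¹ : ℂ) • Gf (geo s p.1) (dat s RG Rm p x))) = x.2.1 :=
    congrArg (fun y : EE => y.2.1) hfix
  have e2 : ∀ i, (Rm⁻¹ : ℂ) • MM (geo s p.1) (dat s RG Rm p x) i = x.2.2 i := fun i =>
    congrFun (congrArg (fun y : EE => y.2.2) hfix) i
  rw [sharp_smul, hGr, map_inv₀, conj_ofReal, ← two_smul ℝ, smul_smul] at e1
  norm_num at e1
  have hGG : GG (dat s RG Rm p x) = Gf (geo s p.1) (dat s RG Rm p x) := by
    change (RG : ℂ) • x.2.1 = _
    rw [← e1, smul_smul, mul_inv_cancel₀ (ofReal_ne_zero.2 hG.ne'), one_smul]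
  refine ⟨hGG, ?_, dat_A0 s RG Rm p x, fun i => ?_⟩
  · rw [hGG, Gf_eq hg hd, Matrix.det_mul, det_Bi hP, det_Bm hQ, one_mul]
  · change (Rm : ℂ) • x.2.2 i = _
    rw [← e2, smul_smul, mul_inv_cancel₀ (ofReal_ne_zero.2 hm.ne'), one_smul]

/-- the remaining equations -/
theorem fixed_hard (hE : Et (geo s p.1) (dat s RG Rm p x) = 0)
    (hb : Eb (geo s p.1) (dat s RG Rm p x) = 0) (hm' : Em (geo s p.1) (dat s RG Rm p x) = 0) :
    let g := geo s p.1
    let d := dat s RG Rm p x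
    (∃ L, Cl (-(be s p / kap (s ^ 4))) (s ^ 4) 0 L ∧ Php g d * GG d = L * Phi g d) ∧
      (∀ j : Fin 3, W.coef (-2) (AA d (cj5 j)).det = 0) ∧ W.coef (-1) (AA d 2).det = 0 ∧
      W.coef (-1) (AA d 3).det = 0 ∧ (∀ j, resj g d j = 0) ∧
      (cf (-1) (Th g d (ee g))).det = 0 ∧ (cf (-1) (Xi g d ((1 / √(qq g) : ℝ) : ℂ))).det = 0 := by
  intro g d
  have hd : Str d := dat_str s RG Rm p x hx
  have hc := (fixed_cl hs hs' hG hm hy hg hx hfix h1 h2).2.2.1
  have hGG := (fixed_fix hs hs' hG hm hy hg hx hfix h1 h2).1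
  have hP : (Php g d).det = 1 := det_Php hg hd
  have hQ : (Phi g d).det = 1 := det_Phi hg hd
  have E : ∀ i, Et g d i = 0 := congrFun hE
  have hres : ∀ j, conj (resj g d j) = resj g d j := fun j => by
    have := reg_real (g := g) hd (cj5 j) (pp g j : ℂ)
    rw [conj_ofReal] at this
    exact So4_tr_adj (So4_cf (hd.realA _) _) (So4_cf this _)
  refine ⟨⟨Uf (Php g d) * adj (Uf (Phi g d)), ?_, ?_⟩, fun j => ?_,
    So4_zero (So4_coef_det (hd.realA 2) _) (E 1), So4_zero (So4_coef_det (hd.realA 3) _) (E 2),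
    fun j => ?_, ?_, ?_⟩
  · have r1 : cjC (symM (Php g d)) = symM (Php g d) := by
      have := hc.Jet_sym (So4_det_sharp hP) MGE_one Matrix.det_one
      rw [← So4_Php hg hd, (So4_Cl0 hc).1, (So4_Cl0 hc).2, adjC_one, one_mul, mul_one, zero_add,
        symM_sharp hP] at this
      exact this.symm
    have r2 : cjC (symM (Phi g d)) = symM (Phi g d) := by
      rw [← symM_sharp hQ, sharp_Phi hg hd]
    have r : cjC (symM (Phi g d) - symM (Php g d)) = symM (Phi g d) - symM (Php g d) := by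
      rw [map_sub, r1, r2]
    have hh : ct (symM (Phi g d) - symM (Php g d)) = symM (Phi g d) - symM (Php g d) := by
      rw [map_sub, symM_herm hP, symM_herm hQ]
    have ht : trC (symM (Phi g d) - symM (Php g d)) = 0 := by
      rw [map_sub, symM_tr hP, symM_tr hQ, sub_self]
    have z0 := So4_zero (So4_ent r 0 0) (E 0)
    have z1 := So4_zero (So4_ent r 0 1) (E 3)
    have hD : symM (Phi g d) - symM (Php g d) = 0 := by
      rw [trC_apply, z0, zero_add] at ht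
      have z2 : (symM (Phi g d) - symM (Php g d)) 1 0 = 0 := by
        rw [← hh, ct_apply, z1, map_zero]
      ext i j
      fin_cases i <;> fin_cases j
      exacts [z0, z1, z2, ht]
    have j0 : J0 (Uf (Php g d) * adj (Uf (Phi g d))) = 1 := by
      rw [J0_mul, J0_adj, J0_Uf hP, J0_Uf hQ, adjC_one, one_mul]
    refine ⟨?_, ?_, ?_, ?_⟩
    · rw [st_mul, mul_assoc, ← mul_assoc (st (Uf (Php g d))), Uf_unitary hP, one_mul, ← st_Uf hQ,
        st_st, st_Uf hQ, mul_adj_of_det (det_Uf hQ)]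
    · rw [Matrix.det_mul, det_adj, det_Uf hP, det_Uf hQ, one_mul]
    · rw [j0, Int.cast_zero, mul_zero, Jet_Dm_zero]
    · rw [j0, mul_one, one_mul, sub_self, smul_zero, J1_mul, J0_adj, J1_adj, J0_Uf hP, J0_Uf hQ,
        adjC_one, one_mul, mul_one, show J1 (Uf (Phi g d)) = symM (Phi g d) from rfl,
        show J1 (Uf (Php g d)) = symM (Php g d) from rfl, So4_adjC_of_tr (symM_tr hQ),
        sub_eq_zero.1 hD, add_neg_cancel]
  · rw [hGG, Gf_eq hg hd, ← mul_assoc]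
    change Uf (Php g d) * Bm (Phi g d) = _
    rw [mul_assoc]
    congr 1
    conv_rhs => rw [← Uf_mul_Bm hQ, ← mul_assoc]
    rw [Uf_mul_Bm hQ, adj_mul_of_det (det_Uf hQ), one_mul]
  · fin_cases j
    exacts [dat_nil2 s RG Rm p x, dat_nil3 s RG Rm p x,
      So4_zero (So4_coef_det (hd.realA 4) _) (E 4)]
  · fin_cases j
    exacts [So4_zero (hres 0) (E 5), So4_zero (hres 1) (E 6), So4_zero (hres 2) (E 7)]
  · exact So4_zero (So4_detC (So4_cf (Pot3_Th_real hd _) _)) (neg_eq_zero.1 hb)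
  · have hq : (1 / √(qq g) : ℝ) ≠ 0 := (one_div_pos.2 (Real.sqrt_pos.2 hg.2.2.1.1)).ne'
    refine So4_zero (So4_detC (So4_cf (Pot3_Xi_real hd _) _)) ?_
    have := neg_eq_zero.1 hm'
    rw [map_smul, Matrix.det_smul, Fintype.card_fin, ← ofReal_pow, re_ofReal_mul] at this
    exact (mul_eq_zero.1 this).resolve_left (pow_ne_zero _ hq)
end

end Pool.Agent.MP_efb2da_gt

end
end

section

open Set Complex
open scoped Topology ComplexConjugate Matrix ContDiff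

noncomputable section

namespace Pool.Agent.MP_efb2da_gt

theorem Solve_root {s₀ : ℝ} (h : 0 < s₀) :
    ∃ (k : ℕ) (s : ℝ), 3 ≤ k ∧ 0 < s ∧ s ≤ s₀ ∧ s ^ 4 = 1 / k := by
  obtain ⟨k, hk⟩ := exists_nat_ge (max 3 (1 / s₀ ^ 4))
  have h3 : (3 : ℝ) ≤ k := (le_max_left _ _).trans hk
  have h4 : 1 / s₀ ^ 4 ≤ k := (le_max_right _ _).trans hk
  have hk0 : (0 : ℝ) < k := by linarith
  have he : √(√(1 / (k : ℝ))) ^ 4 = 1 / k := by
    rw [show (4 : ℕ) = 2 * 2 from rfl, pow_mul, Real.sq_sqrt (Real.sqrt_nonneg _),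
      Real.sq_sqrt (by positivity)]
  refine ⟨k, √(√(1 / (k : ℝ))), by exact_mod_cast h3, by positivity, ?_, he⟩
  refine le_of_pow_le_pow_left₀ (n := 4) (by norm_num) h.le ?_
  rw [he, div_le_iff₀ hk0]
  rw [div_le_iff₀ (by positivity)] at h4
  linarith

theorem Solve_x {s b η : ℝ} (hs : 0 < s) (hs1 : s ≤ 1/2) (hb : |b| ≤ 1) (hη : 6 * s ≤ η) :
    |-((1/2 + s ^ 2 * b) / kap (s ^ 4)) + 1/2| ≤ η := by
  have h2 : s ^ 2 ≤ s := by nlinarith
  have h4 : s ^ 4 ≤ s := by nlinarith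
  have h4' : s ^ 4 ≤ 1/4 := by nlinarith
  obtain ⟨h5, h6⟩ := kap_est (t := s ^ 4) (by positivity) h4'
  have h7 : 0 < kap (s ^ 4) := by linarith
  rw [show -((1/2 + s ^ 2 * b) / kap (s ^ 4)) + 1/2 =
    ((kap (s ^ 4) - 1) / 2 - s ^ 2 * b) / kap (s ^ 4) by field_simp; ring, abs_div, abs_of_pos h7,
    div_le_iff₀ h7]
  have h8 : |s ^ 2 * b| ≤ s := by
    rw [abs_mul, abs_of_pos (by positivity : 0 < s ^ 2)]
    nlinarith [abs_nonneg b]
  have h9 : |(kap (s ^ 4) - 1) / 2| ≤ 2 * s := by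
    rw [abs_div, abs_two]
    linarith
  have h10 := abs_sub ((kap (s ^ 4) - 1) / 2) (s ^ 2 * b)
  nlinarith

theorem solve : ∃ (As : Fin 5 → MW) (N : ℝ), LimProp As ∧ ∀ η > 0, Nonempty (Sol η N As) := by
  obtain ⟨ψ, h1, h2, hbox⟩ := limit_box
  obtain ⟨d₀, hd₀, hadm⟩ := Metric.eventually_nhds_iff_ball.1 (yadm_near h1 h2)
  obtain ⟨K, hKdef⟩ : ∃ K : Set Y8, K = Metric.closedBall (ystar ψ) (d₀ / 2) := ⟨_, rfl⟩
  have hK : IsCompact K := hKdef ▸ isCompact_closedBall _ _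
  have hY : ∀ y ∈ K, Yadm y := fun y hy =>
    hadm y (Metric.closedBall_subset_ball (by linarith) (hKdef ▸ hy))
  obtain ⟨RG, Rm, hG, hm, s₁, hs₁, hfixed⟩ := exists_fixed hK hY
  obtain ⟨C, N, s₂, hs₂, hhol⟩ := hol_close hK hY hG.le hm.le
  obtain ⟨s₃, hs₃, hsign⟩ := hard_sign hK hY hG.le hm.le
  obtain ⟨s₄, hs₄, L, hgeo⟩ := geo_est hK hY
  refine ⟨Al (ystar ψ), N, limProp_Al h1 h2, fun η hη => ?_⟩
  have hnear : ∀ᶠ y in 𝓝 (ystar ψ), ∀ j, ‖Al y j - Al (ystar ψ) j‖ ≤ η / 2 := by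
    refine Filter.eventually_all.2 fun j => ?_
    have hc : ContinuousAt (fun y => Al y j) (ystar ψ) := (co_Al j).continuousAt (yadm_near h1 h2)
    filter_upwards [hc.tendsto.eventually
      (Metric.closedBall_mem_nhds (Al (ystar ψ) j) (half_pos hη))] with y hy
    rwa [dist_eq_norm] at hy
  obtain ⟨d₁, hd₁, hclose⟩ := Metric.eventually_nhds_iff_ball.1 hnear
  obtain ⟨Y, κ, hκ, hYc, hYb⟩ := hbox (min d₀ d₁ / 2) (by positivity)
  have hYK : ∀ v : Y8, (∀ i, |v i| ≤ 1) → Y v ∈ K := by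
    intro v hv
    rw [hKdef, Metric.mem_closedBall, dist_eq_norm]
    have := min_le_left d₀ d₁
    linarith [(hYb v hv).1]
  have hYA : ∀ v : Y8, (∀ i, |v i| ≤ 1) → ∀ j, ‖Al (Y v) j - Al (ystar ψ) j‖ ≤ η / 2 := by
    intro v hv
    refine hclose _ ?_
    rw [Metric.mem_ball, dist_eq_norm]
    have := min_le_right d₀ d₁
    linarith [(hYb v hv).1]
  obtain ⟨s₅, hs₅, hhard⟩ := hard_close hK hY hG hm.le (η := min (η / 2) (κ / 2)) (by positivity)
  have hC1 : 0 < |C| + 1 := by positivity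
  obtain ⟨k, s, hk, hs, hsle, hs4⟩ := Solve_root (s₀ := min (min (min s₁ s₂) (min s₃ s₄))
    (min (min s₅ (1 / 2)) (min (η / 6) (1 / (4 * (|C| + 1)))))) (by positivity)
  simp only [le_min_iff] at hsle
  obtain ⟨⟨⟨e1, e2⟩, e3, e4⟩, ⟨e5, e6⟩, e7, e8⟩ := hsle
  have hCs : C * s ≤ 1 / 4 := by
    rw [le_div_iff₀ (by positivity)] at e8
    nlinarith [le_abs_self C]
  have hs4η : s ^ 4 ≤ η := by
    have : s ^ 2 ≤ s := by nlinarith
    have : s ^ 4 ≤ s := by nlinarith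
    linarith
  have hs4' : s ^ 4 < 1 / 2 := by
    have : s ^ 2 ≤ 1 / 4 := by nlinarith
    nlinarith
  obtain ⟨e, hec, he⟩ := hfixed s ⟨hs, e1⟩
  obtain ⟨par, hpar⟩ : ∃ par : (Fin 8 ⊕ Bool → ℝ) → Par, par = fun v =>
    (Y fun i => v (Sum.inl i), v (Sum.inr false), v (Sum.inr true)) := ⟨_, rfl⟩
  have hparB : ∀ v : Fin 8 ⊕ Bool → ℝ, (∀ i, |v i| ≤ 1) → par v ∈ Box K := by
    intro v hv
    rw [hpar]
    exact ⟨hYK _ fun i => hv _, hv _, hv _⟩
  have hparc : ContinuousOn par {v | ∀ i, |v i| ≤ 1} := by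
    rw [hpar]
    refine ContinuousOn.prodMk ?_ (Continuous.continuousOn (by fun_prop))
    exact hYc.comp (Continuous.continuousOn (by fun_prop)) fun v hv i => hv _
  obtain ⟨c1, c2, c3⟩ := hard_cont (RG := RG) (Rm := Rm) hY
    (fun y hy => (hgeo s ⟨hs, e4⟩ y hy).1) hec fun p hp => (he p hp).2.1
  obtain ⟨v, hv, hz⟩ := miranda (ι := Fin 8 ⊕ Bool)
    (fun v => Sum.elim (Et (geo s (par v).1) (dat s RG Rm (par v) (e (par v)))) fun b =>
      if b then Em (geo s (par v).1) (dat s RG Rm (par v) (e (par v)))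
      else Eb (geo s (par v).1) (dat s RG Rm (par v) (e (par v))))
    (by
      refine continuousOn_pi.2 fun i => ?_
      rcases i with i | b
      · exact (continuous_apply i).comp_continuousOn (c1.comp hparc hparB)
      · cases b
        · exact c2.comp hparc hparB
        · exact c3.comp hparc hparB)
    (by
      intro v hv i
      have hp := hparB v hv
      obtain ⟨n1, -, f1⟩ := he _ hp
      rcases i with i | b
      · have hE := abs_le.1 (((hhard s ⟨hs, e5⟩ _ hp _ n1 f1).2 i).trans (min_le_right _ _))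
        have hB := (hYb (fun i => v (Sum.inl i)) fun i => hv _).2 i
        have hY1 : (par v).1 = Y fun i => v (Sum.inl i) := by rw [hpar]
        rw [← hY1] at hB
        simp only [Sum.elim_inl]
        exact ⟨fun h => by linarith [hB.1 h, hE.1], fun h => by linarith [hB.2 h, hE.2]⟩
      · obtain ⟨g1, g2, g3, g4⟩ := hsign s ⟨hs, e3⟩ _ hp _ n1
        have hb1 : (par v).2.1 = v (Sum.inr false) := by rw [hpar]
        have hb2 : (par v).2.2 = v (Sum.inr true) := by rw [hpar]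
        rw [hb1] at g1 g2
        rw [hb2] at g3 g4
        cases b
        · exact ⟨g1, g2⟩
        · exact ⟨g3, g4⟩)
  have hp := hparB v hv
  have hAl : ∀ j, ‖Al (par v).1 j - Al (ystar ψ) j‖ ≤ η / 2 := by
    rw [hpar]
    exact hYA _ fun i => hv _
  have zE : Et (geo s (par v).1) (dat s RG Rm (par v) (e (par v))) = 0 :=
    funext fun i => congrFun hz (Sum.inl i)
  have zb : Eb (geo s (par v).1) (dat s RG Rm (par v) (e (par v))) = 0 :=
    congrFun hz (Sum.inr false)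
  have zm : Em (geo s (par v).1) (dat s RG Rm (par v) (e (par v))) = 0 :=
    congrFun hz (Sum.inr true)
  generalize par v = p at hp hAl zE zb zm
  obtain ⟨n1, hC, f1⟩ := he p hp
  generalize e p = x at n1 hC f1 zE zb zm
  obtain ⟨hg, hee, hqq, -⟩ := hgeo s ⟨hs, e4⟩ _ hp.1
  obtain ⟨hN, -, -, -, hR1, hRR, -⟩ := hhol s ⟨hs, e2⟩ p hp x n1
  have hR1' := hR1.trans hCs
  have hRR' := fun i => (hRR i).trans hCs
  obtain ⟨k1, k2, k3, k4, k5⟩ := fixed_cl hs hs4' hG hm (hY _ hp.1) hg hC f1 hR1' hRR'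
  obtain ⟨-, hfix⟩ := fixed_fix hs hs4' hG hm (hY _ hp.1) hg hC f1 hR1' hRR'
  obtain ⟨m1, m2, m3, m4, m5, m6, m7⟩ :=
    fixed_hard hs hs4' hG hm (hY _ hp.1) hg hC f1 hR1' hRR' zE zb zm
  have hA := (hhard s ⟨hs, e5⟩ p hp x n1 f1).1
  exact ⟨{
    k := k
    g := geo s p.1
    d := dat s RG Rm p x
    x := -(be s p / kap (s ^ 4))
    hk := hk
    ht := hs4
    adm := hg
    str := dat_str s RG Rm p x hC
    fix := hfix
    bd := hN
    t_le := hs4η
    e_le := hee.trans hs4η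
    q_le := hqq.trans hs4η
    close := fun j => by
      have := norm_sub_le_norm_sub_add_norm_sub (AA (dat s RG Rm p x) j) (Al p.1 j)
        (Al (ystar ψ) j)
      linarith [(hA j).trans (min_le_left _ _), hAl j]
    x_close := Solve_x hs e6 hp.2.1 (by linarith)
    c1 := k1
    phi1 := k2
    c2 := k3
    c3 := k4
    c4 := k5
    cL := m1
    nil := m2
    fl0 := m3
    fl1 := m4
    res := m5
    n1 := m6
    n4 := m7 }⟩

end Pool.Agent.MP_efb2da_gt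

end
end

section

open Set Complex
open scoped Topology ComplexConjugate Matrix ContDiff

noncomputable section

namespace Pool.Agent.MP_efb2da_gt

theorem final : Final := by
  obtain ⟨As, N, hL, h⟩ := solve
  obtain ⟨η, hη, hg⟩ := geometry hL N
  exact hg (h η hη)

end Pool.Agent.MP_efb2da_gt

end
end
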