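import Pool.Agent.Mg.Fefb2da.G7ee8d7
import Pool.Agent.Mg.Fefb2da.G534027
import Pool.Agent.Mg.Fefb2da.G0699f1

section

/-! Parametrisation of the residues by the errors; the fixed point map; the remaining finite
dimensional equations. -/

open Set Complex
open scoped Topology ComplexConjugate Matrix ContDiff

noncomputable section

namespace Pool.Agent.MP_efb2da_gt

/-- positive loop making `e + Pos e` symmetric -/
def Pos (e : MW) : MW := prj (Ioi 0) (flat e - e) + (1/2 : ℂ) • prj {0} (flat e - e)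
def SymE (e : MW) : MW := e + Pos e
/-- traceless part -/
def tl (e : MW) : MW := (1/2 : ℂ) • (e - adj e)
/-- coefficient of `J` -/
def jc (x : MC) : ℂ := (x 1 0 - x 0 1) / 2
def build (e : MW) (a S0 : MC) : MW :=
  Pos e + mono (-1) a + mono 1 (trpC a) + cst (S0 - J0 (SymE e) - a - trpC a)
def kap (t : ℝ) : ℝ := Real.sin (Real.pi * t) / (Real.pi * t)
def nilmu (κ μ : ℂ) (ψ : ℝ) : MC :=
  (κ / 2) • sJ + (κ / 2 + μ) • ((Real.sin ψ : ℂ) • s3 - (Real.cos ψ : ℂ) • s1)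

/-- reference frame at the junction -/
def H0 (y : Y8) : MW := Hol (fun _ => ((ell1 y : ℝ) : ℂ) • A10) 1
def sg5 : Fin 5 → ℝ := ![-1, -1, 1, -1, 1]
/-- limit residues -/
def Al (y : Y8) (j : Fin 5) : MW := Bi (H0 y) * zeta (sg5 j) (mat (av y j)) * Bm (H0 y)
def Z40 (y : Y8) : MW := -(Bi (H0 y) * zeta 1 (nilM (rho y) (y 3)) * Bm (H0 y))
def Phi0 (y : Y8) : MW := H0 y * Hol (fun _ => ((ell y : ℝ) : ℂ) • Z40 y) 1
def G0 (y : Y8) : MW := Bi (H0 y) * Bm (Phi0 y)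

abbrev Par := Y8 × ℝ × ℝ
abbrev EE := (Fin 4 → MW) × MW × (Fin 3 → CD)

def geo (s : ℝ) (y : Y8) : Geo :=
  (s ^ 4, 1/16 * Real.exp (-(ell1 y / s ^ 4)), 1/17 * Real.exp (-(ell y / s ^ 4)), yp y)
def sc (s : ℝ) : Fin 4 → ℝ := ![s ^ 3, s, s, s]

variable (s RG Rm : ℝ) (p : Par) (x : EE)

def be : ℝ := 1/2 + s ^ 2 * p.2.1
def er (i : Fin 4) : MW := tl ((sc s i : ℂ) • x.1 i)
def jj (i : Fin 4) : ℂ := jc (J1 (SymE (er s x i)))
def S10 : MC := ((-(kap (s ^ 4) / 2) : ℝ) : ℂ) • s3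
def A1p : MW :=
  build (er s x 0)
    ((-((be s p : ℂ) ^ 2 / kap (s ^ 4)) - J2 (SymE (er s x 0)) 0 0 / 2) • s3 +
      ((jj s x 0 - be s p) / 2) • sJ) (S10 s)
def k4 : ℂ := be s p + kap (s ^ 4) * symM (H0 p.1) 0 1 - jj s x 3
def a4 : MC := nilmu (k4 s p x) ((s * p.2.2 : ℝ) : ℂ) (p.1 3)
def a3 : MC := nilM (-k4 s p x - jj s x 2) (p.1 2)
def al1 : MW := Bm (H0 p.1) * A1p s p x * Bi (H0 p.1)
def a2 : MC := nilM (jj s x 1 - 2 * jc (cf (-1) (al1 s p x))) (p.1 1)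
def alZ : Fin 3 → MW :=
  ![build (er s x 1) (cf (-1) (al1 s p x) + a2 s p x) 0,
    build (er s x 2) (-a4 s p x - a3 s p x) 0,
    build (er s x 3) (-a4 s p x) (S10 s)]
def Z4 : MW := Bi (H0 p.1) * alZ s p x 2 * Bm (H0 p.1)
def A2p : MW := Bi (H0 p.1) * (alZ s p x 0 - al1 s p x) * Bm (H0 p.1)
def A3p : MW := Bi (H0 p.1) * (alZ s p x 2 - alZ s p x 1) * Bm (H0 p.1)
def A0p : MW := ((RG : ℂ) • x.2.1) * Z4 s p x * adj ((RG : ℂ) • x.2.1)
def dat : Dat :=
  (![A0p s RG p x, A1p s p x, A2p s p x, A3p s p x,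
      Z4 s p x - A0p s RG p x - A1p s p x - A2p s p x - A3p s p x],
    (RG : ℂ) • x.2.1, fun i => (Rm : ℂ) • x.2.2 i)
def errZ (i : Fin 3) : MW :=
  adj (Uf (H0 p.1)) * Sof (s ^ 4) (RR (geo s p.1) (dat s RG Rm p x) i) * Uf (H0 p.1) - alZ s p x i
/-- the fixed point map -/
def Fmap : EE :=
  (![((s ^ 3)⁻¹ : ℂ) • (Sof (s ^ 4) (R1 (geo s p.1) (dat s RG Rm p x)) - A1p s p x),
      (s⁻¹ : ℂ) • errZ s RG Rm p x 0, (s⁻¹ : ℂ) • errZ s RG Rm p x 1,
      (s⁻¹ : ℂ) • errZ s RG Rm p x 2],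
    (RG⁻¹ : ℂ) • Gf (geo s p.1) (dat s RG Rm p x),
    fun i => (Rm⁻¹ : ℂ) • MM (geo s p.1) (dat s RG Rm p x) i)

/-- the closed set of structured unknowns -/
def CC : Set EE :=
  {x | (∀ i, sharp (x.1 i) = x.1 i ∧ trW (x.1 i) = 0) ∧ sw (x.1 0) = -x.1 0 ∧
    sharp x.2.1 = x.2.1 ∧ MGE 0 x.2.1 ∧ ∀ i, StrM (x.2.2 i)}

/-- real part of the gauge component -/
def reG : EE →L[ℝ] EE :=
  (ContinuousLinearMap.id ℝ _).prodMap
    ((((1/2 : ℝ) • (ContinuousLinearMap.id ℝ MW + sharp))).prodMap (ContinuousLinearMap.id ℝ _))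

def resj (g : Geo) (d : Dat) (j : Fin 3) : ℂ :=
  trC (adjC (cf (-1) (AA d (cj5 j))) * cf (-1) (reg g d (cj5 j) (pp g j)))
/-- the eight equations whose limit is `E0` -/
def Et (g : Geo) (d : Dat) : Fin 8 → ℝ :=
  ![((symM (Phi g d) - symM (Php g d)) 0 0).re, (W.coef (-1) (AA d 2).det).re,
    (W.coef (-1) (AA d 3).det).re, ((symM (Phi g d) - symM (Php g d)) 0 1).re,
    (W.coef (-2) (AA d 4).det).re, (resj g d 0).re, (resj g d 1).re, (resj g d 2).re]
def Eb (g : Geo) (d : Dat) : ℝ := -((cf (-1) (Th g d (ee g))).det).re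
def Em (g : Geo) (d : Dat) : ℝ :=
  -((cf (-1) (((1 / √(qq g) : ℝ) : ℂ) • Xi g d ((1 / √(qq g) : ℝ) : ℂ))).det).re

/-- parameter box -/
def Box (K : Set Y8) : Set Par := {p | p.1 ∈ K ∧ |p.2.1| ≤ 1 ∧ |p.2.2| ≤ 1}

end Pool.Agent.MP_efb2da_gt

end
end

section

open Set Complex
open scoped Topology ComplexConjugate Matrix ContDiff

noncomputable section

namespace Pool.Agent.MP_efb2da_gt

variable {y : Y8}

lemma Ref1_one_mem : (1:ℝ) ∈ Icc (0:ℝ) 1 := right_mem_Icc.2 zero_le_one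

lemma Ref1_cj_nilM (κ ψ : ℝ) : cjC (nilM κ ψ) = nilM κ ψ := by
  ext i j
  fin_cases i <;> fin_cases j <;>
    simp [nilM, s1, s3, sJ, -Complex.ofReal_sin, -Complex.ofReal_cos, map_ofNat]

lemma Ref1_sharp_zeta (e : ℝ) {a : MC} (h : cjC a = a) : sharp (zeta e a) = zeta e a := by
  have h1 : cjC (trpC a) = trpC a := by
    ext i j
    have := congrFun (congrFun h j) i
    simpa using this
  have h2 : cjC ((e / 2 : ℂ) • s3) = (e / 2 : ℂ) • s3 := by
    ext i j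
    fin_cases i <;> fin_cases j <;> simp [s3, map_ofNat]
  rw [zeta]
  simp only [map_add, map_sub, sharp_cst, sharp_mono, h, h1, h2]

lemma Ref1_A10 : A10 = zeta (-1) (nilM ((-1 * (1/2) : ℝ) : ℂ) (Real.pi / 2)) := by
  rw [A10]; congr 2; push_cast; ring

lemma Ref1_nilM_neg (κ ψ : ℝ) : nilM ((-κ : ℝ) : ℂ) ψ = -nilM κ ψ := by
  rw [nilM, nilM, ← neg_smul]; congr 1; push_cast; ring

lemma Ref1_sharp_smul (c : ℝ) {M : MW} (h : sharp M = M) : sharp ((c : ℂ) • M) = (c : ℂ) • M := by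
  rw [sharp_smul, h, Complex.conj_ofReal]

theorem A10_tr : trW A10 = 0 := Lax_tr_zeta _ _ _
theorem A10_real : sharp A10 = A10 := by
  rw [Ref1_A10]; exact Ref1_sharp_zeta _ (Ref1_cj_nilM _ _)
theorem A10_eq : A10 = mono (-1) ((-1/4 : ℂ) • s3 + (-1/4 : ℂ) • sJ) +
    mono 1 (trpC ((-1/4 : ℂ) • s3 + (-1/4 : ℂ) • sJ)) := by
  have h : nilM (-1/2) (Real.pi / 2) = (-1/4 : ℂ) • s3 + (-1/4 : ℂ) • sJ := by
    rw [nilM, Real.sin_pi_div_two, Real.cos_pi_div_two]
    ext i j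
    fin_cases i <;> fin_cases j <;> simp [s1, s3, sJ] <;> norm_num
  have h2 : ((-1/4 : ℂ) • s3 + (-1/4 : ℂ) • sJ) + trpC ((-1/4 : ℂ) • s3 + (-1/4 : ℂ) • sJ) =
      (((-1 : ℝ) : ℂ) / 2) • s3 := by
    ext i j
    fin_cases i <;> fin_cases j <;> simp [s3, sJ] <;> norm_num
  rw [A10, h, zeta, h2]
  abel
theorem zeta_add (e e' : ℝ) (a a' : MC) : zeta (e + e') (a + a') = zeta e a + zeta e' a' := by
  simp only [Lax_zeta_eq, map_add, Complex.ofReal_add, add_div, add_smul]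
  abel
theorem zeta_neg (e : ℝ) (a : MC) : zeta (-e) (-a) = -zeta e a := by
  simp only [Lax_zeta_eq, map_neg, Complex.ofReal_neg, neg_div, neg_smul]
  abel
theorem det_H0 (y : Y8) : (H0 y).det = 1 :=
  det_Hol continuousOn_const (fun _ _ => by rw [map_smul, A10_tr, smul_zero]) 1 Ref1_one_mem
theorem sharp_H0 (y : Y8) : sharp (H0 y) = H0 y :=
  sharp_Hol continuousOn_const (fun _ _ => Ref1_sharp_smul _ A10_real) 1 Ref1_one_mem

lemma Ref1_rho_pos (h : Yadm y) : 0 < rho y := by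
  have := Real.sin_pos_of_pos_of_lt_pi h.1 (h.2.1.trans (by linarith [Real.pi_pos]))
  unfold rho; linarith

lemma Ref1_lax0 (h : Yadm y) :
    Bm (H0 y) * A10 * Bi (H0 y) = zeta (-1) (nilM (-rho y : ℝ) (y 0)) ∧
    ∃ z : ℝ, symM (H0 y) = ((rho y - 1/2 : ℝ) : ℂ) • s1 + (z : ℂ) • s3 := by
  have hp := Real.pi_pos
  have key := lax (Φ₀ := 1) (A := A10) (e := -1) (ρ₀ := 1/2) (ψ₀ := Real.pi / 2) (ψ₁ := y 0)
    (c := 0) Matrix.det_one (Or.inr rfl) (by rw [Bm_one, Bi_one, one_mul, mul_one]; exact Ref1_A10)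
    (by rw [Real.sin_pi_div_two]; norm_num)
    (fun ψ hψ => by
      rw [uIcc_of_ge h.2.1.le] at hψ
      have := Real.sin_pos_of_pos_of_lt_pi (h.1.trans_le hψ.1) (by linarith [hψ.2])
      nlinarith)
    (by rw [Real.sin_pi_div_two]; norm_num)
  have e1 : (-1 * ∫ ψ in Real.pi / 2..y 0, 1 / DD 0 ψ : ℝ) = ell1 y := by
    rw [ell1, intervalIntegral.integral_symm (Real.pi / 2) (y 0)]; ring
  have e2 : rf 0 (y 0) = rho y := by
    have h0 := Ref1_rho_pos h
    unfold rho at h0 ⊢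
    rw [rf, DD, mul_zero, sub_zero, Real.sqrt_sq (by linarith)]; ring
  have e3 : symM 1 = 0 := by rw [symM, Uf_one, J1_one]
  simp only [e1, e2, e3, one_mul, zero_add, neg_mul] at key
  refine ⟨key.2.1, -∫ ψ in Real.pi / 2..y 0, rf 0 ψ * Real.sin ψ / DD 0 ψ, ?_⟩
  rw [Complex.ofReal_neg, neg_smul, ← sub_eq_add_neg]
  exact key.2.2

theorem H0_conj (h : Yadm y) :
    Bm (H0 y) * A10 * Bi (H0 y) = zeta (-1) (nilM (-rho y : ℝ) (y 0)) := (Ref1_lax0 h).1
theorem symM_H0 (h : Yadm y) :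
    ∃ z : ℝ, symM (H0 y) = ((rho y - 1/2 : ℝ) : ℂ) • s1 + (z : ℂ) • s3 := (Ref1_lax0 h).2

lemma Ref1_cancel {P Q X : MW} (h : P * Q = 1) : P * (Q * X * P) * Q = X := by
  calc P * (Q * X * P) * Q = (P * Q) * X * (P * Q) := by simp only [mul_assoc]
    _ = X := by rw [h, one_mul, mul_one]

theorem Al_one (h : Yadm y) : Al y 1 = A10 := by
  have e : zeta (sg5 1) (mat (av y 1)) = zeta (-1) (nilM (-rho y : ℝ) (y 0)) := by
    rw [← mat_nilv]; rfl
  rw [Al, e, ← H0_conj h]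
  exact Ref1_cancel (Bi_mul_Bm (det_H0 y))
theorem sum_Al (y : Y8) : ∑ j, Al y j = Z40 y := by
  have e : ∑ j, zeta (sg5 j) (mat (av y j)) = -zeta 1 (nilM (rho y) (y 3)) := by
    rw [Fin.sum_univ_five]
    simp only [← zeta_add, ← mat_add]
    rw [← zeta_neg, ← mat_nilv, ← mat_neg]
    congr 2
    · simp [sg5]
    · show nilv (-rhoE y) (y 4) + nilv (-rho y) (y 0) + nilv (rho y) (y 1) + nilv (-rho y) (y 2) +
        -(nilv (-rhoE y) (y 4) + nilv (-rho y) (y 0) + nilv (rho y) (y 1) + nilv (-rho y) (y 2) +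
          nilv (rho y) (y 3)) = _
      abel
  simp only [Al]
  rw [← Finset.sum_mul, ← Finset.mul_sum, e, Z40, mul_neg, neg_mul]
theorem Z40_tr (y : Y8) : trW (Z40 y) = 0 := by
  rw [Z40, map_neg, Bm, trW_conj, Lax_tr_zeta, mul_zero, neg_zero]
theorem det_Phi0 (y : Y8) : (Phi0 y).det = 1 := by
  rw [Phi0, Matrix.det_mul, det_H0, one_mul]
  exact det_Hol continuousOn_const (fun _ _ => by rw [map_smul, Z40_tr, smul_zero]) 1 Ref1_one_mem

lemma Ref1_sharp_Bi (y : Y8) : sharp (Bi (H0 y)) = Bi (H0 y) := by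
  rw [← Bi_sharp (det_H0 y), sharp_H0]
lemma Ref1_sharp_Bm (y : Y8) : sharp (Bm (H0 y)) = Bm (H0 y) := by
  rw [← Bm_sharp (det_H0 y), sharp_H0]
lemma Ref1_sharp_Z40 (y : Y8) : sharp (Z40 y) = Z40 y := by
  rw [Z40, map_neg, sharp_mul, sharp_mul, Ref1_sharp_Bi, Ref1_sharp_Bm,
    Ref1_sharp_zeta _ (Ref1_cj_nilM _ _)]

theorem sharp_Phi0 (y : Y8) : sharp (Phi0 y) = Phi0 y := by
  rw [Phi0, sharp_mul, sharp_H0, sharp_Hol continuousOn_const
    (fun _ _ => Ref1_sharp_smul _ (Ref1_sharp_Z40 y)) 1 Ref1_one_mem]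
theorem sharp_G0 (y : Y8) : sharp (G0 y) = G0 y := by
  rw [G0, sharp_mul, Ref1_sharp_Bi, ← Bm_sharp (det_Phi0 y), sharp_Phi0]

lemma Ref1_lax1 (h : Yadm y) :
    Bm (Phi0 y) * -Z40 y * Bi (Phi0 y) = zeta 1 (nilM (rhoE y) (y 4)) ∧
    symM (Phi0 y) - symM (H0 y) =
      ((rhoE y - rho y : ℝ) : ℂ) • s1 + ((E0 y 0 : ℝ) : ℂ) • s3 := by
  have h0 := Ref1_rho_pos h
  have hc : cc y < 0 := h.2.2.1
  have key := lax (Φ₀ := H0 y) (A := -Z40 y) (e := 1) (ρ₀ := rho y) (ψ₀ := y 3) (ψ₁ := y 4)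
    (c := cc y) (det_H0 y) (Or.inl rfl)
    (by rw [Z40, neg_neg, one_mul]; exact Ref1_cancel (Bm_mul_Bi (det_H0 y))) rfl
    (fun ψ _ => by nlinarith [sq_nonneg (Real.sin ψ)])
    (by unfold cc at hc; nlinarith)
  have e1 : (((1 * ∫ ψ in y 3..y 4, 1 / DD (cc y) ψ : ℝ) : ℂ)) • -Z40 y =
      ((ell y : ℝ) : ℂ) • Z40 y := by
    rw [ell, intervalIntegral.integral_symm (y 3) (y 4), one_mul, Complex.ofReal_neg, neg_smul,
      smul_neg]
  have e2 : E0 y 0 = -∫ ψ in y 3..y 4, rf (cc y) ψ * Real.sin ψ / DD (cc y) ψ := by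
    rw [← intervalIntegral.integral_symm]; rfl
  simp only [e1] at key
  obtain ⟨-, k1, k2⟩ := key
  rw [one_mul] at k1
  refine ⟨k1, ?_⟩
  rw [e2, Complex.ofReal_neg, neg_smul, Phi0, k2, rhoE]
  abel

theorem symM_Phi0 (h : Yadm y) : symM (Phi0 y) - symM (H0 y) =
    ((rhoE y - rho y : ℝ) : ℂ) • s1 + ((E0 y 0 : ℝ) : ℂ) • s3 := (Ref1_lax1 h).2
theorem G0_conj (h : Yadm y) : G0 y * Z40 y * adj (G0 y) = Al y 0 := by
  have e : zeta (sg5 0) (mat (av y 0)) = -zeta 1 (nilM (rhoE y) (y 4)) := by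
    rw [← zeta_neg, ← Ref1_nilM_neg, ← mat_nilv]; rfl
  have e2 : adj (G0 y) = Bi (Phi0 y) * Bm (H0 y) := by rw [G0, adj_mul, adj_Bm]; rfl
  rw [Al, e, ← (Ref1_lax1 h).1, e2, G0]
  simp only [mul_neg, neg_mul, neg_neg, mul_assoc]

lemma Ref1_co_ofReal {f : Y8 → ℝ} {F : Y8 → MW} {S : Set Y8} (hf : ContinuousOn f S)
    (hF : ContinuousOn F S) :
    ContinuousOn (fun y => Hol (fun _ => ((f y : ℝ) : ℂ) • F y) 1) S :=
  continuous_Hol_const.comp_continuousOn
    ((Complex.continuous_ofReal.comp_continuousOn hf).smul hF)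

lemma Ref1_co_comp {E : Type} [NormedAddCommGroup E] [NormedSpace ℝ E] {T : MW → E} {F : Y8 → MW}
    {S : Set Y8} (hT : ∀ Φ : MW, Φ.det = 1 → ContDiffAt ℝ ∞ T Φ) (hF : ContinuousOn F S)
    (hd : ∀ y, (F y).det = 1) : ContinuousOn (fun y => T (F y)) S :=
  fun y hy => (hT _ (hd y)).continuousAt.comp_continuousWithinAt (hF y hy)

lemma Ref1_cont_zeta (e : ℝ) : Continuous (zeta e) := by
  have : zeta e = fun a => cst ((e / 2 : ℂ) • s3) + LaxZ a := funext (Lax_zeta_eq e)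
  rw [this]
  exact continuous_const.add LaxZ.continuous

lemma Ref1_cont_mat : Continuous mat := by
  have h : ∀ i : Fin 3, Continuous fun v : Fin 3 → ℝ => ((v i : ℝ) : ℂ) := fun i =>
    Complex.continuous_ofReal.comp (continuous_apply i)
  exact (((h 0).smul continuous_const).add ((h 1).smul continuous_const)).add
    ((h 2).smul continuous_const)

theorem co_H0 : ContinuousOn H0 {y | Yadm y} := Ref1_co_ofReal continuousOn_ell1 continuousOn_const
theorem co_U0 : ContinuousOn (fun y => Uf (H0 y)) {y | Yadm y} :=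
  Ref1_co_comp (fun _ h => contDiffAt_Uf h) co_H0 det_H0
theorem co_Bm0 : ContinuousOn (fun y => Bm (H0 y)) {y | Yadm y} :=
  Ref1_co_comp (fun _ h => contDiffAt_Bm h) co_H0 det_H0
theorem co_Bi0 : ContinuousOn (fun y => Bi (H0 y)) {y | Yadm y} :=
  Ref1_co_comp (fun _ h => contDiffAt_Bi h) co_H0 det_H0
theorem co_sym0 : ContinuousOn (fun y => symM (H0 y)) {y | Yadm y} :=
  Ref1_co_comp (fun _ h => contDiffAt_symM h) co_H0 det_H0
theorem co_Z40 : ContinuousOn Z40 {y | Yadm y} := by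
  have h : Continuous fun y : Y8 => zeta 1 (nilM (rho y) (y 3)) := by
    simp only [← mat_nilv]
    exact (Ref1_cont_zeta 1).comp (Ref1_cont_mat.comp
      (Lim1_cont_nilv Lim1_cont_rho (continuous_apply 3)))
  exact ((co_Bi0.mul h.continuousOn).mul co_Bm0).neg
theorem co_Al (j : Fin 5) : ContinuousOn (fun y => Al y j) {y | Yadm y} := by
  have h : Continuous fun y : Y8 => zeta (sg5 j) (mat (av y j)) :=
    (Ref1_cont_zeta _).comp (Ref1_cont_mat.comp (Lim1_cont_av j))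
  exact (co_Bi0.mul h.continuousOn).mul co_Bm0
theorem co_Phi0 : ContinuousOn Phi0 {y | Yadm y} :=
  co_H0.mul (Ref1_co_ofReal continuousOn_ell co_Z40)
theorem co_G0 : ContinuousOn G0 {y | Yadm y} :=
  co_Bi0.mul (Ref1_co_comp (fun _ h => contDiffAt_Bm h) co_Phi0 det_Phi0)

end Pool.Agent.MP_efb2da_gt

end
end

section

open Set Complex
open scoped Topology ComplexConjugate Matrix ContDiff

noncomputable section

namespace Pool.Agent.MP_efb2da_gt

open Classical in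
lemma ParA_cf_prj (S : Set ℤ) (n : ℤ) (M : MW) :
    cf n (prj S M) = if n ∈ S then cf n M else 0 := by
  ext i j
  rw [cf_apply, prj_apply, W.coef_proj]
  split_ifs <;> rfl

lemma ParA_trp_trp (M : MC) : trpC (trpC M) = M := by
  ext i j; simp

lemma ParA_cf_pos (e : MW) {n : ℤ} (hn : 0 < n) :
    cf n (Pos e) = trpC (cf (-n) e) - cf n e := by
  rw [Pos, map_add, map_smul, ParA_cf_prj, ParA_cf_prj, if_pos (mem_Ioi.2 hn),
    if_neg (fun h => hn.ne' (mem_singleton_iff.1 h)), smul_zero, add_zero, map_sub, cf_flat]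

lemma ParA_cf_zero (e : MW) : cf 0 (Pos e) = (1/2 : ℂ) • (trpC (cf 0 e) - cf 0 e) := by
  rw [Pos, map_add, map_smul, ParA_cf_prj, ParA_cf_prj, if_neg (fun h => lt_irrefl _ (mem_Ioi.1 h)),
    if_pos (mem_singleton _), zero_add, map_sub, cf_flat, neg_zero]

lemma ParA_cf_neg (e : MW) {n : ℤ} (hn : n < 0) : cf n (Pos e) = 0 := by
  rw [Pos, map_add, map_smul, ParA_cf_prj, ParA_cf_prj, if_neg (fun h => hn.not_gt (mem_Ioi.1 h)),
    if_neg (fun h => hn.ne (mem_singleton_iff.1 h)), smul_zero, add_zero]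

theorem Pos_ge (e : MW) : MGE 0 (Pos e) := MGE_iff.2 fun _ hn => ParA_cf_neg e hn

theorem flat_SymE (e : MW) : flat (SymE e) = SymE e := by
  refine MW_ext fun n => ?_
  rw [cf_flat, SymE, map_add (cf (-n)), map_add (cf n)]
  rcases lt_trichotomy n 0 with h | rfl | h
  · rw [ParA_cf_neg e h, ParA_cf_pos e (neg_pos.2 h), neg_neg, add_sub_cancel, ParA_trp_trp,
      add_zero]
  · rw [neg_zero, ParA_cf_zero, map_add, map_smul, map_sub, ParA_trp_trp]
    module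
  · rw [ParA_cf_pos e h, ParA_cf_neg e (neg_neg_of_pos h), add_zero, add_sub_cancel]

lemma ParA_anti (x : MC) : x - trpC x = (2 * jc x) • sJ := by
  ext i j
  fin_cases i <;> fin_cases j <;> simp [jc, sJ] <;> ring

theorem J1_SymE (e : MW) : J1 (SymE e) = jc (J1 (SymE e)) • sJ := by
  have h := J1_flat (SymE e)
  rw [flat_SymE] at h
  have h2 := ParA_anti (J1 (SymE e))
  rw [sub_eq_add_neg, ← h, ← two_smul ℂ, mul_smul] at h2
  exact smul_right_injective MC (two_ne_zero (α := ℂ)) h2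

theorem tl_tr (e : MW) : trW (tl e) = 0 := by
  rw [tl, map_smul, map_sub, trW_adj, sub_self, smul_zero]

theorem tl_of_tr {e : MW} (h : trW e = 0) : tl e = e := by
  rw [tl, adj_of_tr h]
  module

theorem build_ge (e : MW) (a S0 : MC) : MGE (-1) (build e a S0) :=
  ((((Pos_ge e).weaken (by norm_num)).add (MGE_mono _ _)).add
    ((MGE_mono _ _).weaken (by norm_num))).add ((MGE_cst _).weaken (by norm_num))

theorem cf_build (e : MW) (a S0 : MC) : cf (-1) (build e a S0) = a := by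
  rw [build, map_add, map_add, map_add, ParA_cf_neg e (by norm_num), cf_mono, cf_mono, cf_cst,
    if_pos rfl, if_neg (by norm_num), if_neg (by norm_num), zero_add, add_zero, add_zero]

lemma ParA_tr_prj (S : Set ℤ) (M : MW) : trW (prj S M) = W.proj S (trW M) := by
  simp [trW_apply]

lemma ParA_tr_mono (n : ℤ) (M : MC) : trW (mono n M) = trC M • W.mon n := by
  simp [trW_apply, trC_apply, add_smul]

lemma ParA_tr_cst (M : MC) : trW (cst M) = algebraMap ℂ W (trC M) := by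
  simp [trW_apply, trC_apply]

lemma ParA_tr_trp (M : MC) : trC (trpC M) = trC M := by
  simp [trC_apply]

lemma ParA_tr_J0 (M : MW) : trC (J0 M) = W.j0 (trW M) := by
  simp [trW_apply, trC_apply]

lemma ParA_tr_Pos {e : MW} (he : trW e = 0) : trW (Pos e) = 0 := by
  rw [Pos, map_add, map_smul, ParA_tr_prj, ParA_tr_prj, map_sub, trW_flat, he]
  simp

theorem build_tr {e : MW} {a S0 : MC} (he : trW e = 0) (ha : trC a = 0) (hS : trC S0 = 0) :
    trW (build e a S0) = 0 := by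
  rw [build, map_add, map_add, map_add, ParA_tr_Pos he, ParA_tr_mono, ParA_tr_mono, ParA_tr_cst,
    map_sub trC, map_sub trC, map_sub trC, ParA_tr_trp, ParA_tr_J0, SymE, map_add, ParA_tr_Pos he, he, ha, hS]
  simp

lemma ParA_cj_trp (M : MC) : cjC (trpC M) = trpC (cjC M) := by
  ext i j; simp

lemma ParA_sharp_Pos {e : MW} (he : sharp e = e) : sharp (Pos e) = Pos e := by
  rw [Pos, map_add, sharp_smul, sharp_prj, sharp_prj, map_sub, sharp_flat, he]
  rw [show conj (1/2 : ℂ) = 1/2 by rw [map_div₀, map_one, map_ofNat]]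

theorem build_real {e : MW} {a S0 : MC} (he : sharp e = e) (ha : cjC a = a) (hS : cjC S0 = S0) :
    sharp (build e a S0) = build e a S0 := by
  have h : sharp (SymE e) = SymE e := by rw [SymE, map_add, he, ParA_sharp_Pos he]
  rw [build, map_add, map_add, map_add, ParA_sharp_Pos he, sharp_mono, sharp_mono, sharp_cst,
    map_sub cjC, map_sub cjC, map_sub cjC, ParA_cj_trp, ← J0_sharp, h, ha, hS]

lemma ParA_build_add (e : MW) (a S0 : MC) : build e a S0 + e =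
    SymE e + mono (-1) a + mono 1 (trpC a) + cst (S0 - J0 (SymE e) - a - trpC a) := by
  rw [build]
  generalize cst (S0 - J0 (SymE e) - a - trpC a) = z
  rw [SymE]
  abel

theorem flat_build {e : MW} {a S0 : MC} (hS : trpC S0 = S0) :
    flat (build e a S0 + e) = build e a S0 + e := by
  rw [ParA_build_add, map_add, map_add, map_add, flat_SymE, flat_mono, flat_mono, flat_cst,
    map_sub trpC, map_sub trpC, map_sub trpC, ParA_trp_trp, ← J0_flat, flat_SymE, hS, neg_neg,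
    sub_right_comm _ (trpC a) a]
  abel

theorem J0_build (e : MW) (a S0 : MC) : J0 (build e a S0 + e) = S0 := by
  rw [ParA_build_add, map_add, map_add, map_add, J0_mono, J0_mono, J0_cst]
  abel

theorem J1_build (e : MW) (a S0 : MC) :
    J1 (build e a S0 + e) = (jc (J1 (SymE e)) - 2 * jc a) • sJ := by
  rw [ParA_build_add, map_add, map_add, map_add, J1_mono, J1_mono, J1_cst, sub_smul, ← J1_SymE,
    ← ParA_anti]
  push_cast
  module

theorem J2_build (e : MW) (a S0 : MC) : J2 (build e a S0 + e) = J2 (SymE e) + a + trpC a := by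
  rw [ParA_build_add, map_add, map_add, map_add, J2_mono, J2_mono, J2_cst]
  push_cast
  module

lemma ParA_Pos_zero : Pos 0 = 0 := by simp [Pos]

lemma ParA_SymE_zero : SymE 0 = 0 := by rw [SymE, ParA_Pos_zero, add_zero]

lemma ParA_mono_sub (n : ℤ) (M N : MC) : mono n (M - N) = mono n M - mono n N := by
  rw [sub_eq_add_neg, mono_add, mono_neg, sub_eq_add_neg]

lemma ParA_norm_trp (M : MC) : ‖trpC M‖ ≤ 2 * ‖M‖ :=
  norm_le_of_entriesC fun i j => by rw [trpC_apply]; exact norm_entryC_le M j i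

lemma ParA_norm_Pos (e : MW) : ‖Pos e‖ ≤ 6 * ‖e‖ := by
  have h1 : ‖flat e - e‖ ≤ 3 * ‖e‖ := (norm_sub_le _ _).trans (by linarith [norm_flat_le e])
  have h2 := norm_prj_le (Ioi 0) (flat e - e)
  have h3 := norm_prj_le {0} (flat e - e)
  have h4 : ‖(1/2 : ℂ)‖ = 1/2 := by simp
  refine (norm_add_le _ _).trans ?_
  rw [norm_smul, h4]
  linarith [norm_nonneg e]

theorem norm_build_sub : ∃ C, ∀ (e : MW) (a a' S0 S0' : MC),
    ‖build e a S0 - build 0 a' S0'‖ ≤ C * (‖e‖ + ‖a - a'‖ + ‖S0 - S0'‖) := by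
  refine ⟨13, fun e a a' S0 S0' => ?_⟩
  have h : build e a S0 - build 0 a' S0' = Pos e + mono (-1) (a - a') + mono 1 (trpC (a - a')) +
      cst (S0 - S0' - J0 (SymE e) - (a - a') - trpC (a - a')) := by
    simp only [build, ParA_Pos_zero, ParA_SymE_zero, map_sub, map_zero, ParA_mono_sub]
    abel
  have w1 : wt 1 = 2 := by simp [wt]
  have w2 : wt (-1) = 2 := by rw [wt_neg, w1]
  have h1 := ParA_norm_Pos e
  have h2 := norm_mono_le (-1) (a - a')
  have h3 := norm_mono_le 1 (trpC (a - a'))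
  have h4 := ParA_norm_trp (a - a')
  have h5 := norm_J0_le (SymE e)
  have h6 : ‖SymE e‖ ≤ ‖e‖ + ‖Pos e‖ := norm_add_le _ _
  have h7 := norm_sub_le (S0 - S0' - J0 (SymE e) - (a - a')) (trpC (a - a'))
  have h8 := norm_sub_le (S0 - S0' - J0 (SymE e)) (a - a')
  have h9 := norm_sub_le (S0 - S0') (J0 (SymE e))
  rw [w1] at h3
  rw [w2] at h2
  rw [h]
  refine (norm_add_le _ _).trans ?_
  rw [norm_cst]
  have h10 := norm_add₃_le (a := Pos e) (b := mono (-1) (a - a')) (c := mono 1 (trpC (a - a')))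
  linarith [norm_nonneg e, norm_nonneg (a - a'), norm_nonneg (S0 - S0')]

theorem build_zero (e : ℝ) (a : MC) : build 0 a ((e / 2 : ℂ) • s3) = zeta e a := by
  simp only [build, zeta, ParA_Pos_zero, ParA_SymE_zero, map_sub, map_add, map_zero]
  abel

end Pool.Agent.MP_efb2da_gt

end
end

section

open Set Complex
open scoped Topology ComplexConjugate Matrix ContDiff

noncomputable section

namespace Pool.Agent.MP_efb2da_gt

variable (s RG Rm : ℝ) (p : Par) (x : EE)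

/-! ### traces -/

lemma ParB_tr_s3 : trC s3 = 0 := by simp [trC_apply, s3]
lemma ParB_tr_s1 : trC s1 = 0 := by simp [trC_apply, s1]
lemma ParB_tr_sJ : trC sJ = 0 := by simp [trC_apply, sJ]

lemma ParB_trC_cf (n : ℤ) (M : MW) : trC (cf n M) = W.coef n (trW M) := by
  rw [trC_apply, trW_apply, map_add, cf_apply, cf_apply]

lemma ParB_tr_nilM (κ : ℂ) (ψ : ℝ) : trC (nilM κ ψ) = 0 := by
  simp only [nilM, map_smul, map_sub, map_add, ParB_tr_s3, ParB_tr_s1, ParB_tr_sJ, smul_zero,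
    add_zero, sub_zero]

lemma ParB_tr_nilmu (κ μ : ℂ) (ψ : ℝ) : trC (nilmu κ μ ψ) = 0 := by
  simp only [nilmu, map_smul, map_sub, map_add, ParB_tr_s3, ParB_tr_s1, ParB_tr_sJ, smul_zero,
    add_zero, sub_zero]

lemma ParB_tr_S10 : trC (S10 s) = 0 := by
  rw [S10, map_smul, ParB_tr_s3, smul_zero]

lemma ParB_tr_conj (Φ : MW) {M : MW} (h : trW M = 0) : trW (Bi Φ * M * Bm Φ) = 0 := by
  rw [Bm, trW_conj, h, mul_zero]

lemma ParB_tr_conj' (Φ : MW) {M : MW} (h : trW M = 0) : trW (Bm Φ * M * Bi Φ) = 0 := by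
  rw [Bm, trW_conj', h, mul_zero]

lemma ParB_er_tr (i : Fin 4) : trW (er s x i) = 0 := tl_tr _

lemma ParB_A1p_tr : trW (A1p s p x) = 0 := by
  refine build_tr (ParB_er_tr s x 0) ?_ (ParB_tr_S10 s)
  rw [map_add, map_smul, map_smul, ParB_tr_s3, ParB_tr_sJ, smul_zero, smul_zero, add_zero]

lemma ParB_al1_tr : trW (al1 s p x) = 0 := ParB_tr_conj' _ (ParB_A1p_tr s p x)

lemma ParB_alZ0 :
    alZ s p x 0 = build (er s x 1) (cf (-1) (al1 s p x) + a2 s p x) 0 := rfl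
lemma ParB_alZ1 : alZ s p x 1 = build (er s x 2) (-a4 s p x - a3 s p x) 0 := rfl
lemma ParB_alZ2 : alZ s p x 2 = build (er s x 3) (-a4 s p x) (S10 s) := rfl

lemma ParB_alZ_tr (i : Fin 3) : trW (alZ s p x i) = 0 := by
  have h4 : trC (a4 s p x) = 0 := ParB_tr_nilmu _ _ _
  have h3 : trC (a3 s p x) = 0 := ParB_tr_nilM _ _
  have h2 : trC (a2 s p x) = 0 := ParB_tr_nilM _ _
  have e0 : trW (alZ s p x 0) = 0 := by
    refine build_tr (ParB_er_tr s x 1) ?_ (map_zero _)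
    rw [map_add, ParB_trC_cf, ParB_al1_tr, map_zero, h2, add_zero]
  have e1 : trW (alZ s p x 1) = 0 := by
    refine build_tr (ParB_er_tr s x 2) ?_ (map_zero _)
    rw [map_sub, map_neg, h4, h3, neg_zero, sub_zero]
  have e2 : trW (alZ s p x 2) = 0 := by
    refine build_tr (ParB_er_tr s x 3) ?_ (ParB_tr_S10 s)
    rw [map_neg, h4, neg_zero]
  fin_cases i
  exacts [e0, e1, e2]

lemma ParB_AA0 : AA (dat s RG Rm p x) 0 = A0p s RG p x := rfl
lemma ParB_AA1 : AA (dat s RG Rm p x) 1 = A1p s p x := rfl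
lemma ParB_AA2 : AA (dat s RG Rm p x) 2 = A2p s p x := rfl
lemma ParB_AA3 : AA (dat s RG Rm p x) 3 = A3p s p x := rfl
lemma ParB_AA4 : AA (dat s RG Rm p x) 4 =
    Z4 s p x - A0p s RG p x - A1p s p x - A2p s p x - A3p s p x := rfl

/-- a property closed under differences holds for all residues -/
lemma ParB_all {P : MW → Prop} (hsub : ∀ M N, P M → P N → P (M - N)) (hZ : P (Z4 s p x))
    (h0 : P (A0p s RG p x)) (h1 : P (A1p s p x)) (h2 : P (A2p s p x)) (h3 : P (A3p s p x))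
    (j : Fin 5) : P (AA (dat s RG Rm p x) j) := by
  have h4 : P (AA (dat s RG Rm p x) 4) := hsub _ _ (hsub _ _ (hsub _ _ (hsub _ _ hZ h0) h1) h2) h3
  fin_cases j
  exacts [h0, h1, h2, h3, h4]

theorem dat_tr (j : Fin 5) : trW (AA (dat s RG Rm p x) j) = 0 := by
  have hsub : ∀ M N : MW, trW M = 0 → trW N = 0 → trW (M - N) = 0 := fun M N hM hN => by
    rw [map_sub, hM, hN, sub_zero]
  have hZ : trW (Z4 s p x) = 0 := ParB_tr_conj _ (ParB_alZ_tr s p x 2)
  refine ParB_all s RG Rm p x (P := fun M => trW M = 0) hsub hZ ?_ (ParB_A1p_tr s p x)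
    (ParB_tr_conj _ (hsub _ _ (ParB_alZ_tr s p x 0) (ParB_al1_tr s p x)))
    (ParB_tr_conj _ (hsub _ _ (ParB_alZ_tr s p x 2) (ParB_alZ_tr s p x 1))) j
  rw [A0p, trW_conj, hZ, mul_zero]

theorem dat_sum : ∑ j, AA (dat s RG Rm p x) j = Z4 s p x := by
  rw [Fin.sum_univ_five, ParB_AA0, ParB_AA1, ParB_AA2, ParB_AA3, ParB_AA4]
  abel

lemma ParB_al1_back : Bi (H0 p.1) * al1 s p x * Bm (H0 p.1) = A1p s p x := by
  have h := Bi_mul_Bm (det_H0 p.1)
  calc Bi (H0 p.1) * al1 s p x * Bm (H0 p.1)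
      = (Bi (H0 p.1) * Bm (H0 p.1)) * A1p s p x * (Bi (H0 p.1) * Bm (H0 p.1)) := by
        rw [al1]; simp only [mul_assoc]
    _ = A1p s p x := by rw [h, one_mul, mul_one]

theorem dat_ins (i : Fin 3) :
    ∑ j ∈ ins i, AA (dat s RG Rm p x) j = Bi (H0 p.1) * alZ s p x i * Bm (H0 p.1) := by
  have e0 : ∑ j ∈ ins 0, AA (dat s RG Rm p x) j =
      Bi (H0 p.1) * alZ s p x 0 * Bm (H0 p.1) := by
    have : ins 0 = {1, 2} := rfl
    rw [this, Finset.sum_pair (by decide), ParB_AA1, ParB_AA2, A2p, mul_sub, sub_mul,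
      ParB_al1_back]
    abel
  have e1 : ∑ j ∈ ins 1, AA (dat s RG Rm p x) j =
      Bi (H0 p.1) * alZ s p x 1 * Bm (H0 p.1) := by
    have : ins 1 = {0, 1, 2, 4} := rfl
    rw [this, Finset.sum_insert (by decide), Finset.sum_insert (by decide),
      Finset.sum_pair (by decide), ParB_AA0, ParB_AA1, ParB_AA2, ParB_AA4, A3p, Z4, mul_sub,
      sub_mul]
    abel
  have e2 : ∑ j ∈ ins 2, AA (dat s RG Rm p x) j =
      Bi (H0 p.1) * alZ s p x 2 * Bm (H0 p.1) := dat_sum s RG Rm p x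
  fin_cases i
  exacts [e0, e1, e2]

theorem dat_A0 : AA (dat s RG Rm p x) 0 =
    GG (dat s RG Rm p x) * (∑ j, AA (dat s RG Rm p x) j) * adj (GG (dat s RG Rm p x)) := by
  rw [dat_sum]
  rfl

/-! ### lowest coefficients -/

lemma ParB_al1_ge : MGE (-1) (al1 s p x) :=
  MGE.conj (Bm_pos (det_H0 _)) (build_ge _ _ _) (Bi_pos (det_H0 _))

lemma ParB_alZ_ge (i : Fin 3) : MGE (-1) (alZ s p x i) := by
  fin_cases i <;> exact build_ge _ _ _

lemma ParB_conj_ge (y : Y8) {M : MW} (h : MGE (-1) M) :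
    MGE (-1) (Bi (H0 y) * M * Bm (H0 y)) :=
  MGE.conj (Bi_pos (det_H0 _)) h (Bm_pos (det_H0 _))

lemma ParB_det_cf_conj (y : Y8) {M : MW} (h : MGE (-1) M) :
    (cf (-1) (Bi (H0 y) * M * Bm (H0 y))).det = (cf (-1) M).det := by
  have hi := Bi_pos (det_H0 y)
  have hm := Bm_pos (det_H0 y)
  have h1 : (cf 0 (Bi (H0 y))).det = 1 := by
    rw [← hi.coef_det, det_Bi (det_H0 y), W.coef_one, if_pos (add_zero _)]
  have h2 : (cf 0 (Bm (H0 y))).det = 1 := by
    rw [← hm.coef_det, det_Bm (det_H0 y), W.coef_one, if_pos (add_zero _)]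
  rw [MGE.cf_conj hi h hm, Matrix.det_mul, Matrix.det_mul, h1, h2, one_mul, mul_one]

lemma ParB_coef_det {M : MW} (h : MGE (-1) M) : W.coef (-2) M.det = (cf (-1) M).det :=
  h.coef_det

theorem dat_nil2 : W.coef (-2) (AA (dat s RG Rm p x) 2).det = 0 := by
  have h := (ParB_alZ_ge s p x 0).sub (ParB_al1_ge s p x)
  rw [ParB_AA2, A2p, ParB_coef_det (ParB_conj_ge _ h), ParB_det_cf_conj _ h, map_sub, ParB_alZ0,
    cf_build, add_sub_cancel_left]
  exact det_nilM _ _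

theorem dat_nil3 : W.coef (-2) (AA (dat s RG Rm p x) 3).det = 0 := by
  have h := (ParB_alZ_ge s p x 2).sub (ParB_alZ_ge s p x 1)
  rw [ParB_AA3, A3p, ParB_coef_det (ParB_conj_ge _ h), ParB_det_cf_conj _ h, map_sub, ParB_alZ1,
    ParB_alZ2, cf_build, cf_build, sub_sub_cancel]
  exact det_nilM _ _

lemma ParB_det_nilmu (κ μ : ℂ) (ψ : ℝ) : (-nilmu κ μ ψ).det = -(μ * (κ + μ)) := by
  have h : (Real.sin ψ : ℂ) ^ 2 + (Real.cos ψ : ℂ) ^ 2 = 1 := by
    exact_mod_cast Real.sin_sq_add_cos_sq ψ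
  generalize hS : (Real.sin ψ : ℂ) = S at h
  generalize hC : (Real.cos ψ : ℂ) = C at h
  rw [Matrix.det_fin_two, nilmu, hS, hC]
  simp [s1, s3, sJ]
  linear_combination (-(κ / 2 + μ) ^ 2) * h

theorem det_cf_Z4 : (cf (-1) (Z4 s p x)).det =
    -(((s * p.2.2 : ℝ) : ℂ) * (k4 s p x + ((s * p.2.2 : ℝ) : ℂ))) := by
  rw [Z4, ParB_det_cf_conj _ (ParB_alZ_ge s p x 2), ParB_alZ2, cf_build, a4, ParB_det_nilmu]

lemma ParB_det_s3J (a b : ℂ) : (a • s3 + b • sJ).det = b ^ 2 - a ^ 2 := by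
  rw [Matrix.det_fin_two]
  simp [s3, sJ]
  ring

theorem det_cf_A1p : (cf (-1) (A1p s p x)).det = ((jj s x 0 - be s p) / 2) ^ 2 -
    (-((be s p : ℂ) ^ 2 / kap (s ^ 4)) - J2 (SymE (er s x 0)) 0 0 / 2) ^ 2 := by
  rw [A1p, cf_build, ParB_det_s3J]

/-! ### reality -/

lemma ParB_cjC_smul (c : ℂ) (M : MC) : cjC (c • M) = conj c • cjC M := by
  ext i j
  simp

lemma ParB_cj_s3 : cjC s3 = s3 := by
  ext i j
  fin_cases i <;> fin_cases j <;> simp [s3]
lemma ParB_cj_s1 : cjC s1 = s1 := by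
  ext i j
  fin_cases i <;> fin_cases j <;> simp [s1]
lemma ParB_cj_sJ : cjC sJ = sJ := by
  ext i j
  fin_cases i <;> fin_cases j <;> simp [sJ]

lemma ParB_conj_half {κ : ℂ} (h : conj κ = κ) : conj (κ / 2) = κ / 2 := by
  rw [map_div₀, h, map_ofNat]

lemma ParB_cj_nilM {κ : ℂ} (h : conj κ = κ) (ψ : ℝ) : cjC (nilM κ ψ) = nilM κ ψ := by
  rw [nilM, ParB_cjC_smul, map_sub, map_add, ParB_cjC_smul, ParB_cjC_smul, ParB_conj_half h,
    conj_ofReal, conj_ofReal, ParB_cj_s3, ParB_cj_s1, ParB_cj_sJ]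

lemma ParB_cj_nilmu {κ μ : ℂ} (h : conj κ = κ) (h' : conj μ = μ) (ψ : ℝ) :
    cjC (nilmu κ μ ψ) = nilmu κ μ ψ := by
  rw [nilmu, map_add, ParB_cjC_smul, ParB_cjC_smul, map_sub, ParB_cjC_smul, ParB_cjC_smul,
    map_add, ParB_conj_half h, h', conj_ofReal, conj_ofReal, ParB_cj_s3, ParB_cj_s1, ParB_cj_sJ]

lemma ParB_cj_S10 : cjC (S10 s) = S10 s := by
  rw [S10, ParB_cjC_smul, conj_ofReal, ParB_cj_s3]

lemma ParB_entry_real {M : MC} (h : cjC M = M) (i j : Fin 2) : conj (M i j) = M i j := by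
  rw [← cjC_apply, h]

lemma ParB_jc_real {M : MC} (h : cjC M = M) : conj (jc M) = jc M := by
  refine ParB_conj_half ?_
  rw [map_sub, ParB_entry_real h, ParB_entry_real h]

lemma ParB_conj_one_half : conj (1 / 2 : ℂ) = 1 / 2 := ParB_conj_half (map_one _)

lemma ParB_tl_real {e : MW} (h : sharp e = e) : sharp (tl e) = tl e := by
  rw [tl, sharp_smul, map_sub, sharp_adj, h, ParB_conj_one_half]

lemma ParB_SymE_real {e : MW} (h : sharp e = e) : sharp (SymE e) = SymE e := by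
  have h1 : sharp (flat e - e) = flat e - e := by rw [map_sub, sharp_flat, h]
  rw [SymE, Pos, map_add, map_add, sharp_smul, sharp_prj, sharp_prj, h1, h, ParB_conj_one_half]

lemma ParB_smul_real (c : ℝ) {e : MW} (h : sharp e = e) : sharp ((c : ℂ) • e) = (c : ℂ) • e := by
  rw [sharp_smul, conj_ofReal, h]

lemma ParB_Bi_real (y : Y8) : sharp (Bi (H0 y)) = Bi (H0 y) := by
  rw [← Bi_sharp (det_H0 y), sharp_H0]

lemma ParB_Bm_real (y : Y8) : sharp (Bm (H0 y)) = Bm (H0 y) := by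
  rw [← Bm_sharp (det_H0 y), sharp_H0]

lemma ParB_conj_real (y : Y8) {M : MW} (h : sharp M = M) :
    sharp (Bi (H0 y) * M * Bm (H0 y)) = Bi (H0 y) * M * Bm (H0 y) := by
  rw [sharp_mul, sharp_mul, h, ParB_Bi_real, ParB_Bm_real]

section real
variable {x} (hx : x ∈ CC)
include hx

lemma ParB_er_real (i : Fin 4) : sharp (er s x i) = er s x i :=
  ParB_tl_real (ParB_smul_real _ (hx.1 i).1)

lemma ParB_jj_real (i : Fin 4) : conj (jj s x i) = jj s x i := by
  refine ParB_jc_real ?_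
  rw [← J1_sharp, ParB_SymE_real (ParB_er_real s hx i)]

lemma ParB_A1p_real : sharp (A1p s p x) = A1p s p x := by
  refine build_real (ParB_er_real s hx 0) ?_ (ParB_cj_S10 s)
  have h2 : conj (J2 (SymE (er s x 0)) 0 0) = J2 (SymE (er s x 0)) 0 0 := by
    refine ParB_entry_real ?_ 0 0
    rw [← J2_sharp, ParB_SymE_real (ParB_er_real s hx 0)]
  have h3 : conj (jj s x 0 - be s p) = jj s x 0 - be s p := by
    rw [map_sub, ParB_jj_real s hx, conj_ofReal]
  rw [map_add, ParB_cjC_smul, ParB_cjC_smul, ParB_cj_s3, ParB_cj_sJ, ParB_conj_half h3, map_sub,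
    ParB_conj_half h2, map_neg, map_div₀, map_pow, conj_ofReal, conj_ofReal]

lemma ParB_al1_real : sharp (al1 s p x) = al1 s p x := by
  rw [al1, sharp_mul, sharp_mul, ParB_A1p_real s p hx, ParB_Bi_real, ParB_Bm_real]

lemma ParB_k4_real : conj (k4 s p x) = k4 s p x := by
  have h : conj (symM (H0 p.1) 0 1) = symM (H0 p.1) 0 1 := by
    refine ParB_entry_real ?_ 0 1
    rw [← symM_sharp (det_H0 _), sharp_H0]
  rw [k4, map_sub, map_add, map_mul, h, conj_ofReal, conj_ofReal, ParB_jj_real s hx]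

lemma ParB_alZ_real (i : Fin 3) : sharp (alZ s p x i) = alZ s p x i := by
  have h1 : cjC (cf (-1) (al1 s p x)) = cf (-1) (al1 s p x) := by
    rw [← cf_sharp, ParB_al1_real s p hx]
  have h4 : cjC (a4 s p x) = a4 s p x := ParB_cj_nilmu (ParB_k4_real s p hx) (conj_ofReal _) _
  have h3 : cjC (a3 s p x) = a3 s p x := by
    refine ParB_cj_nilM ?_ _
    rw [map_sub, map_neg, ParB_k4_real s p hx, ParB_jj_real s hx]
  have h2 : cjC (a2 s p x) = a2 s p x := by
    refine ParB_cj_nilM ?_ _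
    rw [map_sub, map_mul, ParB_jc_real h1, ParB_jj_real s hx, map_ofNat]
  have e0 : sharp (alZ s p x 0) = alZ s p x 0 := by
    refine build_real (ParB_er_real s hx 1) ?_ (map_zero _)
    rw [map_add, h1, h2]
  have e1 : sharp (alZ s p x 1) = alZ s p x 1 := by
    refine build_real (ParB_er_real s hx 2) ?_ (map_zero _)
    rw [map_sub, map_neg, h4, h3]
  have e2 : sharp (alZ s p x 2) = alZ s p x 2 := by
    refine build_real (ParB_er_real s hx 3) ?_ (ParB_cj_S10 s)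
    rw [map_neg, h4]
  fin_cases i
  exacts [e0, e1, e2]

end real

/-! ### oddness -/

lemma ParB_sw_iff {M : MW} : sw M = -M ↔ M 1 1 = -M 0 0 ∧ M 1 0 = -M 0 1 := by
  rw [sw_apply]
  constructor
  · intro h
    exact ⟨congrFun (congrFun h 0) 0, congrFun (congrFun h 0) 1⟩
  · rintro ⟨h1, h2⟩
    ext i j
    fin_cases i <;> fin_cases j <;> simp [h1, h2]

lemma ParB_sw_flat (M : MW) : sw (flat M) = flat (sw M) := by
  ext i j
  fin_cases i <;> fin_cases j <;> simp [sw_apply]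

lemma ParB_sw_prj (S : Set ℤ) (M : MW) : sw (prj S M) = prj S (sw M) := by
  ext i j
  fin_cases i <;> fin_cases j <;> simp [sw_apply]

lemma ParB_Pos_odd {e : MW} (h : sw e = -e) : sw (Pos e) = -Pos e := by
  have h1 : sw (flat e - e) = -(flat e - e) := by
    rw [map_sub, ParB_sw_flat, h, map_neg]
    abel
  rw [Pos, map_add, map_smul, ParB_sw_prj, ParB_sw_prj, h1, map_neg, map_neg, smul_neg, neg_add]

lemma ParB_mono_odd (n : ℤ) {a : MC} (h1 : a 1 1 = -a 0 0) (h2 : a 1 0 = -a 0 1) :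
    sw (mono n a) = -mono n a := by
  rw [ParB_sw_iff, mono_apply, mono_apply, mono_apply, mono_apply, h1, h2, neg_smul, neg_smul]
  exact ⟨rfl, rfl⟩

lemma ParB_build_odd {e : MW} {a S0 : MC} (h : sw e = -e) (h1 : a 1 1 = -a 0 0)
    (h2 : a 1 0 = -a 0 1) (h3 : S0 1 1 = -S0 0 0) (h4 : S0 1 0 = -S0 0 1) :
    sw (build e a S0) = -build e a S0 := by
  have hP := ParB_Pos_odd h
  have hS : sw (SymE e) = -SymE e := by rw [SymE, map_add, h, hP, neg_add]
  obtain ⟨k1, k2⟩ := ParB_sw_iff.1 hS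
  have m1 := ParB_mono_odd (-1) h1 h2
  have m2 : sw (mono 1 (trpC a)) = -mono 1 (trpC a) :=
    ParB_mono_odd 1 (by simp [h1]) (by simp [h2])
  have m3 : sw (cst (S0 - J0 (SymE e) - a - trpC a)) = -cst (S0 - J0 (SymE e) - a - trpC a) := by
    rw [← mono_zero]
    refine ParB_mono_odd 0 ?_ ?_
    · simp only [Matrix.sub_apply, J0_apply, trpC_apply, h1, h3, k1, map_neg]
      ring
    · simp only [Matrix.sub_apply, J0_apply, trpC_apply, h2, h4, k2, map_neg]
      ring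
  rw [build, map_add, map_add, map_add, hP, m1, m2, m3]
  abel

lemma ParB_A1p_odd (hx : x ∈ CC) : sw (A1p s p x) = -A1p s p x := by
  refine ParB_build_odd ?_ (by simp [s3, sJ]) (by simp [s3, sJ]) (by simp [S10, s3])
    (by simp [S10, s3])
  rw [er, tl, map_smul, map_sub, sw_adj, map_smul, hx.2.1, smul_neg, map_neg, neg_sub_neg,
    ← smul_neg, neg_sub]

theorem dat_str (hx : x ∈ CC) : Str (dat s RG Rm p x) := by
  have hG : sharp ((RG : ℂ) • x.2.1) = (RG : ℂ) • x.2.1 := ParB_smul_real _ hx.2.2.1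
  have hG' : MGE 0 ((RG : ℂ) • x.2.1) := hx.2.2.2.1.smul _
  have hsub : ∀ M N : MW, sharp M = M → sharp N = N → sharp (M - N) = M - N :=
    fun M N hM hN => by rw [map_sub, hM, hN]
  have hZ : sharp (Z4 s p x) = Z4 s p x := ParB_conj_real _ (ParB_alZ_real s p hx 2)
  have hZ' : MGE (-1) (Z4 s p x) := ParB_conj_ge _ (ParB_alZ_ge s p x 2)
  refine ⟨fun j => ?_, dat_tr s RG Rm p x, fun j => ?_, ParB_A1p_odd s p x hx, hG, hG',
    fun i => (hx.2.2.2.2 i).smul Rm⟩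
  · refine ParB_all s RG Rm p x (P := fun M => sharp M = M) hsub hZ ?_ (ParB_A1p_real s p hx)
      (ParB_conj_real _ (hsub _ _ (ParB_alZ_real s p hx 0) (ParB_al1_real s p hx)))
      (ParB_conj_real _ (hsub _ _ (ParB_alZ_real s p hx 2) (ParB_alZ_real s p hx 1))) j
    rw [A0p, sharp_mul, sharp_mul, sharp_adj, hG, hZ]
  · exact ParB_all s RG Rm p x (P := MGE (-1)) (fun _ _ => MGE.sub) hZ'
      (MGE.conj hG' hZ' hG'.adj) (build_ge _ _ _)
      (ParB_conj_ge _ ((ParB_alZ_ge s p x 0).sub (ParB_al1_ge s p x)))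
      (ParB_conj_ge _ ((ParB_alZ_ge s p x 2).sub (ParB_alZ_ge s p x 1))) j

theorem alZ_real (hx : x ∈ CC) (i : Fin 3) : sharp (alZ s p x i) = alZ s p x i :=
  ParB_alZ_real s p hx i

theorem alZ_tr (i : Fin 3) : trW (alZ s p x i) = 0 := ParB_alZ_tr s p x i

theorem isClosed_CC : IsClosed CC := by
  have c1 : ∀ i, Continuous fun x : EE => x.1 i := fun i => (continuous_apply i).comp continuous_fst
  have c2 : Continuous fun x : EE => x.2.1 := continuous_fst.comp continuous_snd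
  have c3 : ∀ i, Continuous fun x : EE => x.2.2 i := fun i =>
    (continuous_apply i).comp (continuous_snd.comp continuous_snd)
  refine IsClosed.and ?_ (IsClosed.and ?_ (IsClosed.and ?_ (IsClosed.and ?_ ?_)))
  · rw [ofPred_forall]
    exact isClosed_iInter fun i => IsClosed.and
      (isClosed_eq (sharp.continuous.comp (c1 i)) (c1 i))
      (isClosed_eq (trW.continuous.comp (c1 i)) continuous_const)
  · exact isClosed_eq (sw.continuous.comp (c1 0)) (c1 0).neg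
  · exact isClosed_eq (sharp.continuous.comp c2) c2
  · exact (isClosed_MGE 0).preimage c2
  · rw [ofPred_forall]
    exact isClosed_iInter fun i => isClosed_StrM.preimage (c3 i)

theorem zero_mem_CC : (0 : EE) ∈ CC :=
  ⟨fun _ => ⟨map_zero sharp, map_zero trW⟩, (map_zero sw).trans neg_zero.symm, map_zero sharp,
    MGE.zero 0, fun _ => StrM.zero⟩

theorem reG_apply : reG x = (x.1, (1/2 : ℝ) • (x.2.1 + sharp x.2.1), x.2.2) := rfl

theorem norm_reG_le : ‖reG x‖ ≤ ‖x‖ := by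
  have h : ‖(1/2 : ℝ) • (x.2.1 + sharp x.2.1)‖ ≤ ‖x.2.1‖ := by
    have h1 := norm_add_le x.2.1 (sharp x.2.1)
    rw [norm_sharp] at h1
    rw [norm_smul, Real.norm_of_nonneg (by norm_num)]
    linarith
  rw [reG_apply, Prod.norm_def, Prod.norm_def, Prod.norm_def x, Prod.norm_def x.2]
  exact max_le_max le_rfl (max_le_max h le_rfl)

end Pool.Agent.MP_efb2da_gt

end
end

section

open Set Complex
open scoped Topology ComplexConjugate Matrix ContDiff

noncomputable section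

namespace Pool.Agent.MP_efb2da_gt

theorem Par1_dPos : Differentiable ℂ Pos := by
  have h : Differentiable ℂ fun e : MW => flat e - e := flat.differentiable.sub differentiable_id
  exact ((prj (Ioi 0)).differentiable.comp h).add
    (((prj {0}).differentiable.comp h).const_smul (1/2 : ℂ))

theorem Par1_dSymE : Differentiable ℂ SymE := differentiable_id.add Par1_dPos

theorem Par1_dtl : Differentiable ℂ tl :=
  (differentiable_id.sub adj.differentiable).const_smul (1/2 : ℂ)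

theorem Par1_half {T : Type} [NormedAddCommGroup T] [NormedSpace ℂ T] {k : T → ℂ}
    (h : Differentiable ℂ k) : Differentiable ℂ fun x => k x / 2 := by
  simp only [div_eq_mul_inv]
  exact h.mul_const _

theorem Par1_djc : Differentiable ℂ jc :=
  Par1_half ((entC 1 0).differentiable.sub (entC 0 1).differentiable)

theorem Par1_dbuild : Differentiable ℂ fun q : MW × MC × MC => build q.1 q.2.1 q.2.2 := by
  have h1 : Differentiable ℂ fun q : MW × MC × MC => q.1 := differentiable_fst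
  have h2 : Differentiable ℂ fun q : MW × MC × MC => q.2.1 :=
    differentiable_fst.comp differentiable_snd
  have h3 : Differentiable ℂ fun q : MW × MC × MC => q.2.2 :=
    differentiable_snd.comp differentiable_snd
  have h4 : Differentiable ℂ fun q : MW × MC × MC => trpC q.2.1 := trpC.differentiable.comp h2
  exact (((Par1_dPos.comp h1).add ((differentiable_mono (-1)).comp h2)).add
    ((differentiable_mono 1).comp h4)).add (cst.differentiable.comp
      (((h3.sub (J0.differentiable.comp (Par1_dSymE.comp h1))).sub h2).sub h4))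

theorem Par1_der (s : ℝ) (i : Fin 4) : Differentiable ℂ fun x : EE => er s x i := by
  have h : Differentiable ℂ fun x : EE => (sc s i : ℂ) • x.1 i := by fun_prop
  exact Par1_dtl.comp h

theorem Par1_djj (s : ℝ) (i : Fin 4) : Differentiable ℂ fun x : EE => jj s x i :=
  Par1_djc.comp (J1.differentiable.comp (Par1_dSymE.comp (Par1_der s i)))

theorem Par1_dJ2 (s : ℝ) : Differentiable ℂ fun x : EE => J2 (SymE (er s x 0)) 0 0 :=
  (entC 0 0).differentiable.comp (J2.differentiable.comp (Par1_dSymE.comp (Par1_der s 0)))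

section diff
variable {f : EE → MW} {a b : EE → MC} {k : EE → ℂ}

theorem Par1_db (hf : Differentiable ℂ f) (ha : Differentiable ℂ a) (hb : Differentiable ℂ b) :
    Differentiable ℂ fun x => build (f x) (a x) (b x) := by
  have h := Par1_dbuild.comp (hf.prodMk (ha.prodMk hb))
  simpa only [Function.comp_def] using h

theorem Par1_dnilM (hk : Differentiable ℂ k) (ψ : ℝ) : Differentiable ℂ fun x => nilM (k x) ψ :=
  (Par1_half hk).smul_const _

theorem Par1_dnilmu (hk : Differentiable ℂ k) (μ : ℂ) (ψ : ℝ) :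
    Differentiable ℂ fun x => nilmu (k x) μ ψ :=
  ((Par1_half hk).smul_const _).add (((Par1_half hk).add_const μ).smul_const _)

theorem Par1_dconj (hf : Differentiable ℂ f) (A B : MW) :
    Differentiable ℂ fun x => A * f x * B := (hf.const_mul A).mul_const B

end diff

section cont
variable {S : Set (Par × EE)} {f : Par × EE → MW} {a b : Par × EE → MC} {k m : Par × EE → ℂ}
  {ψ : Par × EE → ℝ}

theorem Par1_cb (hf : ContinuousOn f S) (ha : ContinuousOn a S) (hb : ContinuousOn b S) :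
    ContinuousOn (fun x => build (f x) (a x) (b x)) S := by
  have h := Par1_dbuild.continuous.comp_continuousOn (hf.prodMk (ha.prodMk hb))
  simpa only [Function.comp_def] using h

theorem Par1_csin (h : ContinuousOn ψ S) : ContinuousOn (fun x => (Real.sin (ψ x) : ℂ)) S :=
  (continuous_ofReal.comp Real.continuous_sin).comp_continuousOn h

theorem Par1_ccos (h : ContinuousOn ψ S) : ContinuousOn (fun x => (Real.cos (ψ x) : ℂ)) S :=
  (continuous_ofReal.comp Real.continuous_cos).comp_continuousOn h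

theorem Par1_cnilM (hk : ContinuousOn k S) (h : ContinuousOn ψ S) :
    ContinuousOn (fun x => nilM (k x) (ψ x)) S :=
  (hk.div_const 2).smul ((continuousOn_const.add ((Par1_csin h).smul continuousOn_const)).sub
    ((Par1_ccos h).smul continuousOn_const))

theorem Par1_cnilmu (hk : ContinuousOn k S) (hm : ContinuousOn m S) (h : ContinuousOn ψ S) :
    ContinuousOn (fun x => nilmu (k x) (m x) (ψ x)) S :=
  ((hk.div_const 2).smul continuousOn_const).add (((hk.div_const 2).add hm).smul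
    (((Par1_csin h).smul continuousOn_const).sub ((Par1_ccos h).smul continuousOn_const)))

end cont

variable (s RG Rm : ℝ) (p : Par) (x : EE)

theorem Par1_dA1p : Differentiable ℂ (A1p s p) :=
  Par1_db (Par1_der s 0)
    ((((Par1_half (Par1_dJ2 s)).const_sub _).smul_const _).add
      ((Par1_half ((Par1_djj s 0).sub_const _)).smul_const _)) (differentiable_const _)

theorem Par1_dk4 : Differentiable ℂ (k4 s p) := (Par1_djj s 3).const_sub _
theorem Par1_da4 : Differentiable ℂ (a4 s p) := Par1_dnilmu (Par1_dk4 s p) _ _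
theorem Par1_da3 : Differentiable ℂ (a3 s p) :=
  Par1_dnilM ((Par1_dk4 s p).neg.sub (Par1_djj s 2)) _
theorem Par1_dal1 : Differentiable ℂ (al1 s p) := Par1_dconj (Par1_dA1p s p) _ _
theorem Par1_dcf : Differentiable ℂ fun x => cf (-1) (al1 s p x) :=
  (cf (-1)).differentiable.comp (Par1_dal1 s p)
theorem Par1_da2 : Differentiable ℂ (a2 s p) :=
  Par1_dnilM ((Par1_djj s 1).sub ((Par1_djc.comp (Par1_dcf s p)).const_mul 2)) _

theorem differentiable_alZ (i : Fin 3) : Differentiable ℂ fun x => alZ s p x i := by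
  fin_cases i
  · exact Par1_db (Par1_der s 1) ((Par1_dcf s p).add (Par1_da2 s p)) (differentiable_const _)
  · exact Par1_db (Par1_der s 2) ((Par1_da4 s p).neg.sub (Par1_da3 s p)) (differentiable_const _)
  · exact Par1_db (Par1_der s 3) (Par1_da4 s p).neg (differentiable_const _)

theorem Par1_dZ4 : Differentiable ℂ (Z4 s p) := Par1_dconj (differentiable_alZ s p 2) _ _
theorem Par1_dA2p : Differentiable ℂ (A2p s p) :=
  Par1_dconj ((differentiable_alZ s p 0).sub (Par1_dal1 s p)) _ _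
theorem Par1_dA3p : Differentiable ℂ (A3p s p) :=
  Par1_dconj ((differentiable_alZ s p 2).sub (differentiable_alZ s p 1)) _ _
theorem Par1_dG : Differentiable ℂ fun x : EE => (RG : ℂ) • x.2.1 := by fun_prop
theorem Par1_dM : Differentiable ℂ fun (x : EE) (i : Fin 3) => (Rm : ℂ) • x.2.2 i := by fun_prop
theorem Par1_dA0p : Differentiable ℂ (A0p s RG p) :=
  ((Par1_dG RG).mul (Par1_dZ4 s p)).mul (adj.differentiable.comp (Par1_dG RG))

theorem differentiable_dat : Differentiable ℂ (dat s RG Rm p) := by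
  refine Differentiable.prodMk (differentiable_pi.2 fun j => ?_)
    ((Par1_dG RG).prodMk (Par1_dM Rm))
  fin_cases j
  · exact Par1_dA0p s RG p
  · exact Par1_dA1p s p
  · exact Par1_dA2p s p
  · exact Par1_dA3p s p
  · exact ((((Par1_dZ4 s p).sub (Par1_dA0p s RG p)).sub (Par1_dA1p s p)).sub
      (Par1_dA2p s p)).sub (Par1_dA3p s p)

theorem Par1_cy : Continuous fun z : Par × EE => z.1.1 := continuous_fst.comp continuous_fst

theorem Par1_cc {T : Type} [TopologicalSpace T] {g : Y8 → T} (h : ContinuousOn g {y | Yadm y}) :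
    ContinuousOn (fun z : Par × EE => g z.1.1) {z | Yadm z.1.1} :=
  h.comp Par1_cy.continuousOn fun _ hz => hz

theorem Par1_cx {T : Type} [NormedAddCommGroup T] [NormedSpace ℂ T] {g : EE → T}
    (h : Differentiable ℂ g) : ContinuousOn (fun z : Par × EE => g z.2) {z | Yadm z.1.1} :=
  (h.continuous.comp continuous_snd).continuousOn

theorem Par1_cyi (i : Fin 8) : ContinuousOn (fun z : Par × EE => z.1.1 i) {z | Yadm z.1.1} :=
  ((continuous_apply i).comp Par1_cy).continuousOn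

theorem Par1_cbe : ContinuousOn (fun z : Par × EE => (be s z.1 : ℂ)) {z | Yadm z.1.1} := by
  refine (continuous_ofReal.comp ?_).continuousOn
  unfold be
  fun_prop

theorem Par1_cmu : ContinuousOn (fun z : Par × EE => ((s * z.1.2.2 : ℝ) : ℂ)) {z | Yadm z.1.1} := by
  refine (continuous_ofReal.comp ?_).continuousOn
  fun_prop

theorem Par1_cA1p : ContinuousOn (fun z : Par × EE => A1p s z.1 z.2) {z | Yadm z.1.1} :=
  Par1_cb (Par1_cx (Par1_der s 0))
    ((((((Par1_cbe s).pow 2).div_const _).neg.sub ((Par1_cx (Par1_dJ2 s)).div_const 2)).smul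
      continuousOn_const).add
      ((((Par1_cx (Par1_djj s 0)).sub (Par1_cbe s)).div_const 2).smul continuousOn_const))
    continuousOn_const

theorem Par1_ck4 : ContinuousOn (fun z : Par × EE => k4 s z.1 z.2) {z | Yadm z.1.1} :=
  ((Par1_cbe s).add (continuousOn_const.mul
    ((entC 0 1).continuous.comp_continuousOn (Par1_cc co_sym0)))).sub (Par1_cx (Par1_djj s 3))
theorem Par1_ca4 : ContinuousOn (fun z : Par × EE => a4 s z.1 z.2) {z | Yadm z.1.1} :=
  Par1_cnilmu (Par1_ck4 s) (Par1_cmu s) (Par1_cyi 3)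
theorem Par1_ca3 : ContinuousOn (fun z : Par × EE => a3 s z.1 z.2) {z | Yadm z.1.1} :=
  Par1_cnilM ((Par1_ck4 s).neg.sub (Par1_cx (Par1_djj s 2))) (Par1_cyi 2)
theorem Par1_cal1 : ContinuousOn (fun z : Par × EE => al1 s z.1 z.2) {z | Yadm z.1.1} :=
  ((Par1_cc co_Bm0).mul (Par1_cA1p s)).mul (Par1_cc co_Bi0)
theorem Par1_ccf : ContinuousOn (fun z : Par × EE => cf (-1) (al1 s z.1 z.2)) {z | Yadm z.1.1} :=
  (cf (-1)).continuous.comp_continuousOn (Par1_cal1 s)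
theorem Par1_ca2 : ContinuousOn (fun z : Par × EE => a2 s z.1 z.2) {z | Yadm z.1.1} :=
  Par1_cnilM ((Par1_cx (Par1_djj s 1)).sub (continuousOn_const.mul
    (Par1_djc.continuous.comp_continuousOn (Par1_ccf s)))) (Par1_cyi 1)

theorem co_alZ (i : Fin 3) :
    ContinuousOn (fun z : Par × EE => alZ s z.1 z.2 i) {z | Yadm z.1.1} := by
  fin_cases i
  · exact Par1_cb (Par1_cx (Par1_der s 1)) ((Par1_ccf s).add (Par1_ca2 s)) continuousOn_const
  · exact Par1_cb (Par1_cx (Par1_der s 2)) ((Par1_ca4 s).neg.sub (Par1_ca3 s)) continuousOn_const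
  · exact Par1_cb (Par1_cx (Par1_der s 3)) (Par1_ca4 s).neg continuousOn_const

theorem Par1_cZ4 : ContinuousOn (fun z : Par × EE => Z4 s z.1 z.2) {z | Yadm z.1.1} :=
  ((Par1_cc co_Bi0).mul (co_alZ s 2)).mul (Par1_cc co_Bm0)
theorem Par1_cA2p : ContinuousOn (fun z : Par × EE => A2p s z.1 z.2) {z | Yadm z.1.1} :=
  ((Par1_cc co_Bi0).mul ((co_alZ s 0).sub (Par1_cal1 s))).mul (Par1_cc co_Bm0)
theorem Par1_cA3p : ContinuousOn (fun z : Par × EE => A3p s z.1 z.2) {z | Yadm z.1.1} :=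
  ((Par1_cc co_Bi0).mul ((co_alZ s 2).sub (co_alZ s 1))).mul (Par1_cc co_Bm0)
theorem Par1_cA0p : ContinuousOn (fun z : Par × EE => A0p s RG z.1 z.2) {z | Yadm z.1.1} :=
  ((Par1_cx (Par1_dG RG)).mul (Par1_cZ4 s)).mul
    (Par1_cx (adj.differentiable.comp (Par1_dG RG)))

theorem co_dat : ContinuousOn (fun z : Par × EE => dat s RG Rm z.1 z.2) {z | Yadm z.1.1} := by
  refine ContinuousOn.prodMk (continuousOn_pi.2 fun j => ?_)
    ((Par1_cx (Par1_dG RG)).prodMk (Par1_cx (Par1_dM Rm)))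
  fin_cases j
  · exact Par1_cA0p s RG
  · exact Par1_cA1p s
  · exact Par1_cA2p s
  · exact Par1_cA3p s
  · exact ((((Par1_cZ4 s).sub (Par1_cA0p s RG)).sub (Par1_cA1p s)).sub
      (Par1_cA2p s)).sub (Par1_cA3p s)

theorem co_geo : ContinuousOn (geo s) {y | Yadm y} := by
  refine continuousOn_const.prodMk (ContinuousOn.prodMk ?_ (ContinuousOn.prodMk ?_ ?_))
  · exact continuousOn_const.mul
      (Real.continuous_exp.comp_continuousOn (continuousOn_ell1.div_const _).neg)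
  · exact continuousOn_const.mul
      (Real.continuous_exp.comp_continuousOn (continuousOn_ell.div_const _).neg)
  · refine (continuous_pi fun i => ?_).continuousOn
    fin_cases i
    · exact continuous_apply 5
    · exact continuous_apply 6
    · exact continuous_apply 7

end Pool.Agent.MP_efb2da_gt

end
end

section

open Set Complex
open scoped Topology ComplexConjugate Matrix ContDiff

noncomputable section

set_option maxHeartbeats 400000

namespace Pool.Agent.MP_efb2da_gt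

lemma Par2_exp {m t l : ℝ} (hm : 0 < m) (ht : 0 < t) (hl : m ≤ l) (h : t ≤ m ^ 2) :
    Real.exp (-(l / t)) ≤ 2 * t := by
  have h1 : 0 < l / t := div_pos (hm.trans_le hl) ht
  have h2 := Real.quadratic_le_exp_of_nonneg h1.le
  have h3 : (m / t) ^ 2 ≤ (l / t) ^ 2 := by gcongr
  have h4 : 1 / t ≤ (m / t) ^ 2 := by
    rw [div_pow, div_le_div_iff₀ ht (by positivity)]; nlinarith
  rw [Real.exp_neg, inv_le_comm₀ (Real.exp_pos _) (by positivity)]
  have h5 : (2 * t)⁻¹ = 1 / t / 2 := by field_simp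
  rw [h5]; linarith

theorem geo_est {K : Set Y8} (hK : IsCompact K) (hY : ∀ y ∈ K, Yadm y) : ∃ s₀ > 0, ∃ L : ℝ,
    ∀ s ∈ Ioc 0 s₀, ∀ y ∈ K, AdmG (geo s y) ∧ ee (geo s y) ≤ s ^ 4 ∧ qq (geo s y) ≤ s ^ 4 ∧
      tt (geo s y) * La1 (geo s y) = ell1 y ∧ tt (geo s y) * La (geo s y) = ell y ∧
      ell1 y ≤ L ∧ ell y ≤ L := by
  have c1 : ContinuousOn ell1 K := continuousOn_ell1.mono hY
  have c2 : ContinuousOn ell K := continuousOn_ell.mono hY
  obtain ⟨m, hm, hmin⟩ : ∃ m > 0, ∀ y ∈ K, m ≤ min (ell1 y) (ell y) :=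
    hK.exists_forall_le' (c1.inf c2) fun y hy => lt_min (ell1_pos (hY y hy)) (ell_pos (hY y hy))
  obtain ⟨L, hL⟩ := hK.bddAbove_image (c1.sup c2)
  refine ⟨min (1/8) (m ^ 2), lt_min (by norm_num) (by positivity), L, fun s hs y hy => ?_⟩
  have h0 : 0 < s := hs.1
  have h8 : s ≤ 1/8 := hs.2.trans (min_le_left _ _)
  have hm2 : s ≤ m ^ 2 := hs.2.trans (min_le_right _ _)
  have h4 : 0 < s ^ 4 := by positivity
  have h41 : s ^ 4 ≤ 1/4096 := by
    calc s ^ 4 ≤ (1/8) ^ 4 := by gcongr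
      _ = _ := by norm_num
  have h42 : s ^ 4 ≤ m ^ 2 :=
    (pow_le_of_le_one h0.le (by linarith) (by norm_num)).trans hm2
  have e1 := Par2_exp hm h4 ((hmin y hy).trans (min_le_left _ _)) h42
  have e2 := Par2_exp hm h4 ((hmin y hy).trans (min_le_right _ _)) h42
  have p1 := Real.exp_pos (-(ell1 y / s ^ 4))
  have p2 := Real.exp_pos (-(ell y / s ^ 4))
  have hL' : max (ell1 y) (ell y) ≤ L := hL ⟨y, hy, rfl⟩
  have b1 : ee (geo s y) ≤ s ^ 4 := by
    change 1/16 * Real.exp (-(ell1 y / s ^ 4)) ≤ _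
    linarith
  have b2 : qq (geo s y) ≤ s ^ 4 := by
    change 1/17 * Real.exp (-(ell y / s ^ 4)) ≤ _
    linarith
  refine ⟨⟨⟨h4, h41.trans (by norm_num)⟩, ⟨?_, b1.trans (h41.trans (by norm_num))⟩,
    ⟨?_, b2.trans h41⟩, (hY y hy).2.2.2.2⟩, b1, b2, ?_, ?_, (le_max_left _ _).trans hL',
    (le_max_right _ _).trans hL'⟩
  · change 0 < 1/16 * Real.exp (-(ell1 y / s ^ 4))
    positivity
  · change 0 < 1/17 * Real.exp (-(ell y / s ^ 4))
    positivity
  · change s ^ 4 * Real.log (1 / (16 * (1/16 * Real.exp (-(ell1 y / s ^ 4))))) = _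
    rw [← mul_assoc, show (16:ℝ) * (1/16) = 1 by norm_num, one_mul, one_div, ← Real.exp_neg,
      Real.log_exp]
    field_simp
  · change s ^ 4 * Real.log (1 / (17 * (1/17 * Real.exp (-(ell y / s ^ 4))))) = _
    rw [← mul_assoc, show (17:ℝ) * (1/17) = 1 by norm_num, one_mul, one_div, ← Real.exp_neg,
      Real.log_exp]
    field_simp

theorem kap_est {t : ℝ} (h0 : 0 < t) (h1 : t ≤ 1/4) : |kap t - 1| ≤ 4 * t ∧ 1/2 ≤ kap t := by
  have hp := Real.pi_pos
  have hp4 := Real.pi_le_four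
  have hx : 0 < Real.pi * t := by positivity
  have hx1 : Real.pi * t ≤ 4 * t := by gcongr
  have hx2 : Real.pi * t ≤ 1 := by linarith
  have a1 := Real.sin_le hx.le
  have a2 := Real.sin_gt_sub_cube hx
  unfold kap
  generalize Real.pi * t = u at *
  have b1 : Real.sin u / u ≤ 1 := (div_le_one hx).2 a1
  have b2 : 1 - u / 4 ≤ Real.sin u / u := by
    rw [le_div_iff₀ hx]
    have : u ^ 3 ≤ u ^ 2 := pow_le_pow_of_le_one hx.le hx2 (by norm_num)
    nlinarith [sq_nonneg u]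
  exact ⟨abs_le.2 ⟨by linarith, by linarith⟩, by linarith⟩

section BigO

open Asymptotics Filter

def Par2_SymL : MW →L[ℂ] MW :=
  ContinuousLinearMap.id ℂ MW + ((prj (Ioi 0)).comp (flat - ContinuousLinearMap.id ℂ MW) +
    (1/2 : ℂ) • (prj {0}).comp (flat - ContinuousLinearMap.id ℂ MW))
def Par2_tlL : MW →L[ℂ] MW := (1/2 : ℂ) • (ContinuousLinearMap.id ℂ MW - adj)
def Par2_jcL : MC →L[ℂ] ℂ := (1/2 : ℂ) • (entC 1 0 - entC 0 1)

lemma Par2_SymL_apply (e : MW) : Par2_SymL e = SymE e := rfl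
lemma Par2_tlL_apply (e : MW) : Par2_tlL e = tl e := rfl
lemma Par2_jcL_apply (a : MC) : Par2_jcL a = jc a := by
  simp only [Par2_jcL, jc, ContinuousLinearMap.smul_apply, ContinuousLinearMap.sub_apply,
    entC_apply, smul_eq_mul]
  ring

lemma Par2_jc_nilM (κ : ℂ) (ψ : ℝ) : jc (nilM κ ψ) = κ / 2 := by
  simp [jc, nilM, sJ, s3, s1]; ring
lemma Par2_jc_sub (a b : MC) : jc (a - b) = jc a - jc b := by
  simp only [jc, Matrix.sub_apply]; ring
lemma Par2_nilM_sub (κ κ' : ℂ) (ψ : ℝ) : nilM κ ψ - nilM κ' ψ = nilM (κ - κ') ψ := by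
  rw [nilM, nilM, nilM, ← sub_smul, sub_div]
lemma Par2_nilmu (κ μ : ℂ) (ψ : ℝ) :
    nilmu κ μ ψ = nilM κ ψ + μ • ((Real.sin ψ : ℂ) • s3 - (Real.cos ψ : ℂ) • s1) := by
  rw [nilmu, nilM, add_smul, add_sub_assoc sJ, smul_add, add_assoc]

variable {ι : Type} {l : Filter ι} {g : ι → ℝ}

lemma Par2_one {E : Type} [NormedAddCommGroup E] (c : E) :
    (fun _ : ι => c) =O[l] (fun _ => (1:ℝ)) := isBigO_const_const c one_ne_zero l

lemma Par2_smul_r {E : Type} [NormedAddCommGroup E] [NormedSpace ℂ E] {c : ι → ℂ} {f : ι → E}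
    (hc : c =O[l] g) (hf : f =O[l] (fun _ => (1:ℝ))) : (fun z => c z • f z) =O[l] g := by
  have := hc.norm_left.mul hf.norm_left
  simp only [mul_one, ← norm_smul] at this
  exact this.of_norm_left

lemma Par2_mul_r {E : Type} [NormedRing E] {c f : ι → E}
    (hc : c =O[l] g) (hf : f =O[l] (fun _ => (1:ℝ))) : (fun z => c z * f z) =O[l] g := by
  simpa only [mul_one] using hc.mul hf

lemma Par2_mul_l {E : Type} [NormedRing E] {c f : ι → E}
    (hc : c =O[l] (fun _ => (1:ℝ))) (hf : f =O[l] g) : (fun z => c z * f z) =O[l] g := by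
  simpa only [one_mul] using hc.mul hf

lemma Par2_real {c : ι → ℝ} (hc : c =O[l] g) : (fun z => (c z : ℂ)) =O[l] g := by
  refine IsBigO.of_norm_left ?_
  simpa only [norm_real] using hc.norm_left

lemma Par2_trig (ψ : ι → ℝ) :
    (fun z => (Real.sin (ψ z) : ℂ) • s3 - (Real.cos (ψ z) : ℂ) • s1) =O[l] (fun _ => (1:ℝ)) := by
  refine IsBigO.sub (Par2_smul_r (Par2_real ?_) (Par2_one _))
    (Par2_smul_r (Par2_real ?_) (Par2_one _))
  · exact IsBigO.of_norm_le fun z => by simpa using Real.abs_sin_le_one _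
  · exact IsBigO.of_norm_le fun z => by simpa using Real.abs_cos_le_one _

lemma Par2_nilM {κ κ' : ι → ℂ} (ψ : ι → ℝ) (h : (fun z => κ z - κ' z) =O[l] g) :
    (fun z => nilM (κ z) (ψ z) - nilM (κ' z) (ψ z)) =O[l] g := by
  simp only [Par2_nilM_sub]
  simp only [nilM, add_sub_assoc]
  refine Par2_smul_r ?_ ((Par2_one _).add (Par2_trig ψ))
  simpa only [div_eq_mul_inv] using Par2_mul_r h (Par2_one (2⁻¹ : ℂ))

lemma Par2_build {e : ι → MW} {a a' S S' : ι → MC} (he : e =O[l] g)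
    (ha : (fun z => a z - a' z) =O[l] g) (hS : (fun z => S z - S' z) =O[l] g) :
    (fun z => build (e z) (a z) (S z) - build 0 (a' z) (S' z)) =O[l] g := by
  obtain ⟨C, hC⟩ := norm_build_sub
  exact (IsBigO.of_norm_le fun z => hC (e z) (a z) (a' z) (S z) (S' z)).trans
    (((he.norm_left.add ha.norm_left).add hS.norm_left).const_mul_left C)

/-- the parameter domain -/
def Par2_T (K : Set Y8) : Set (ℝ × Par × EE) :=
  {z | z.1 ∈ Ioc (0:ℝ) (1/2) ∧ z.2.1 ∈ Box K ∧ ‖z.2.2‖ ≤ 1}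

lemma Par2_pow (K : Set Y8) {n m : ℕ} (h : m ≤ n) :
    (fun z : ℝ × Par × EE => z.1 ^ n) =O[𝓟 (Par2_T K)] fun z => z.1 ^ m := by
  refine IsBigO.of_bound 1 (eventually_principal.2 fun z hz => ?_)
  have h0 := hz.1.1
  rw [one_mul, Real.norm_of_nonneg (by positivity), Real.norm_of_nonneg (by positivity)]
  exact pow_le_pow_of_le_one h0.le (hz.1.2.trans (by norm_num)) h

lemma Par2_bd {K : Set Y8} (hK : IsCompact K) {E : Type} [NormedAddCommGroup E] {f : Y8 → E}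
    (hf : ContinuousOn f K) :
    (fun z : ℝ × Par × EE => f z.2.1.1) =O[𝓟 (Par2_T K)] fun _ => (1:ℝ) := by
  obtain ⟨C, hC⟩ := hK.exists_bound_of_continuousOn hf
  exact IsBigO.of_bound C (eventually_principal.2 fun z hz => by simpa using hC _ hz.2.1.1)

lemma Par2_congr {ι E : Type} [NormedAddCommGroup E] {T : Set ι} {f f' : ι → E} {g : ι → ℝ}
    (h : f =O[𝓟 T] g) (e : ∀ z ∈ T, f' z = f z) : f' =O[𝓟 T] g :=
  h.congr' (eventually_principal.2 fun z hz => (e z hz).symm) EventuallyEq.rfl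

lemma Par2_ev {K : Set Y8} {E : Type} [NormedAddCommGroup E] {f : ℝ × Par × EE → E} {n : ℕ}
    (h : f =O[𝓟 (Par2_T K)] fun z => z.1 ^ n) :
    ∀ᶠ C : ℝ in atTop, ∀ z ∈ Par2_T K, ‖f z‖ ≤ C * z.1 ^ n := by
  filter_upwards [isBigO_iff_eventually.1 h] with C hC z hz
  have := eventually_principal.1 hC z hz
  have h0 := hz.1.1
  rwa [Real.norm_of_nonneg (by positivity : 0 ≤ z.1 ^ n)] at this

lemma Par2_er (K : Set Y8) (i : Fin 4) :
    (fun z : ℝ × Par × EE => er z.1 z.2.2 i) =O[𝓟 (Par2_T K)] fun z => sc z.1 i := by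
  refine (Par2_tlL.isBigO_comp (fun z : ℝ × Par × EE => (sc z.1 i : ℂ) • z.2.2.1 i) _).trans
    (Par2_smul_r (Par2_real (isBigO_refl _ _)) ?_)
  refine IsBigO.of_bound 1 (eventually_principal.2 fun z hz => ?_)
  have := ((norm_le_pi_norm z.2.2.1 i).trans (norm_fst_le z.2.2)).trans hz.2.2
  simpa using this

lemma Par2_jj {ι : Type} {l : Filter ι} {g : ι → ℝ} {e : ι → MW} (h : e =O[l] g) :
    (fun z => jc (J1 (SymE (e z)))) =O[l] g := by
  simpa only [ContinuousLinearMap.comp_apply, Par2_jcL_apply, Par2_SymL_apply] using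
    ((Par2_jcL.comp (J1.comp Par2_SymL)).isBigO_comp e l).trans h

lemma Par2_J2 {ι : Type} {l : Filter ι} {g : ι → ℝ} {e : ι → MW} (h : e =O[l] g) :
    (fun z => J2 (SymE (e z)) 0 0) =O[l] g :=
  (((entC 0 0).comp (J2.comp Par2_SymL)).isBigO_comp e l).trans h

lemma Par2_be (K : Set Y8) :
    (fun z : ℝ × Par × EE => be z.1 z.2.1 - 1/2) =O[𝓟 (Par2_T K)] fun z => z.1 ^ 2 := by
  refine IsBigO.of_bound 1 (eventually_principal.2 fun z hz => ?_)
  rw [be, add_sub_cancel_left, norm_mul, one_mul]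
  exact mul_le_of_le_one_right (norm_nonneg _) hz.2.1.2.1

lemma Par2_s4 {K : Set Y8} {z : ℝ × Par × EE} (hz : z ∈ Par2_T K) :
    0 < z.1 ^ 4 ∧ z.1 ^ 4 ≤ 1/4 := by
  have h0 := hz.1.1
  have h1 := hz.1.2
  refine ⟨by positivity, ?_⟩
  calc z.1 ^ 4 ≤ (1/2) ^ 4 := by gcongr
    _ ≤ _ := by norm_num

lemma Par2_kap (K : Set Y8) :
    (fun z : ℝ × Par × EE => kap (z.1 ^ 4) - 1) =O[𝓟 (Par2_T K)] fun z => z.1 ^ 4 := by
  refine IsBigO.of_bound 4 (eventually_principal.2 fun z hz => ?_)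
  rw [Real.norm_of_nonneg (Par2_s4 hz).1.le]
  exact (kap_est (Par2_s4 hz).1 (Par2_s4 hz).2).1

lemma Par2_kap_inv (K : Set Y8) :
    (fun z : ℝ × Par × EE => (kap (z.1 ^ 4))⁻¹) =O[𝓟 (Par2_T K)] fun _ => (1:ℝ) := by
  refine IsBigO.of_bound 2 (eventually_principal.2 fun z hz => ?_)
  have := (kap_est (Par2_s4 hz).1 (Par2_s4 hz).2).2
  rw [norm_one, mul_one, Real.norm_of_nonneg (by positivity), inv_le_comm₀ (by linarith) two_pos]
  linarith

lemma Par2_S10 (K : Set Y8) :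
    (fun z : ℝ × Par × EE => S10 z.1 - (((-1 : ℝ) : ℂ) / 2) • s3) =O[𝓟 (Par2_T K)]
      fun z => z.1 ^ 4 := by
  refine (Par2_smul_r (Par2_real ((Par2_kap K).const_mul_left (-1/2))) (Par2_one s3)).congr_left
    fun z => ?_
  rw [S10, ← sub_smul]
  congr 1
  push_cast; ring

lemma Par2_A10 : A10 = build 0 ((-1/4 : ℂ) • s3 + (-1/4 : ℂ) • sJ) ((((-1 : ℝ) : ℂ) / 2) • s3) := by
  rw [build_zero, A10]
  congr 1
  simp only [nilM, Real.sin_pi_div_two, Real.cos_pi_div_two, ofReal_one, ofReal_zero, one_smul,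
    zero_smul, sub_zero, smul_add]
  rw [add_comm]
  norm_num

lemma Par2_A1p (K : Set Y8) :
    (fun z : ℝ × Par × EE => A1p z.1 z.2.1 z.2.2 - A10) =O[𝓟 (Par2_T K)] fun z => z.1 ^ 2 := by
  have e0 : (fun z : ℝ × Par × EE => er z.1 z.2.2 0) =O[𝓟 (Par2_T K)] fun z => z.1 ^ 2 :=
    (Par2_er K 0).trans (Par2_pow K (show 2 ≤ 3 by norm_num))
  have hb := Par2_be K
  have hb1 : (fun z : ℝ × Par × EE => be z.1 z.2.1 + 1/2) =O[𝓟 (Par2_T K)] fun _ => (1:ℝ) := by
    have := (hb.trans (Par2_pow K (Nat.zero_le 2))).add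
      ((Par2_one (1:ℝ)).congr_right fun z => (pow_zero z.1).symm)
    simp only [pow_zero] at this
    exact this.congr_left fun z => by ring
  have hk := (Par2_kap K).trans (Par2_pow K (show 2 ≤ 4 by norm_num))
  have h1 := Par2_real (Par2_mul_r ((hk.const_mul_left (1/4)).sub (Par2_mul_r hb hb1))
    (Par2_kap_inv K))
  have h2 := h1.sub ((Par2_J2 e0).const_mul_left (1/2))
  have h3 := ((Par2_jj e0).sub (Par2_real hb)).const_mul_left (1/2)
  have h4 := (Par2_smul_r h2 (Par2_one s3)).add (Par2_smul_r h3 (Par2_one sJ))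
  rw [Par2_A10]
  refine Par2_build e0 (Par2_congr h4 fun z hz => ?_)
    ((Par2_S10 K).trans (Par2_pow K (show 2 ≤ 4 by norm_num)))
  have hk0 : ((kap (z.1 ^ 4) : ℝ) : ℂ) ≠ 0 :=
    ofReal_ne_zero.2 (by linarith [(kap_est (Par2_s4 hz).1 (Par2_s4 hz).2).2])
  rw [add_sub_add_comm, ← sub_smul, ← sub_smul, jj]
  congr 2
  · push_cast; field_simp; ring
  · push_cast; ring

lemma Par2_Al2 (y : Y8) : Al y 2 = Bi (H0 y) * zeta 1 (nilM (rho y) (y 1)) * Bm (H0 y) := by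
  have e1 : sg5 2 = 1 := rfl
  have e2 : av y 2 = nilv (rho y) (y 1) := rfl
  rw [Al, e1, e2, mat_nilv]

lemma Par2_Al3 (y : Y8) :
    Al y 3 = Bi (H0 y) * zeta (-1) (nilM (-rho y : ℝ) (y 2)) * Bm (H0 y) := by
  have e1 : sg5 3 = -1 := rfl
  have e2 : av y 3 = nilv (-rho y) (y 2) := rfl
  rw [Al, e1, e2, mat_nilv]

lemma Par2_zeta0 (a : MC) : zeta 0 a = build 0 a 0 := by
  rw [← build_zero, ofReal_zero, zero_div, zero_smul]

lemma Par2_alZ0 (s : ℝ) (p : Par) (x : EE) :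
    alZ s p x 0 = build (er s x 1) (cf (-1) (al1 s p x) + a2 s p x) 0 := rfl
lemma Par2_alZ1 (s : ℝ) (p : Par) (x : EE) :
    alZ s p x 1 = build (er s x 2) (-a4 s p x - a3 s p x) 0 := rfl

lemma Par2_alg (B C u v a b : MW) :
    B * (u - (a + b) - (v - a)) * C = B * (u - v) * C - B * b * C := by
  rw [← sub_mul, ← mul_sub, show u - (a + b) - (v - a) = u - v - b by abel]

lemma Par2_alg' (B C u v a b : MW) :
    B * (u - (a + b) - (v - b)) * C = B * (u - v) * C - B * a * C := by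
  rw [← sub_mul, ← mul_sub, show u - (a + b) - (v - b) = u - v - a by abel]

section main
variable {K : Set Y8} (hK : IsCompact K) (hY : ∀ y ∈ K, Yadm y)
include hK hY

lemma Par2_conj {g : ℝ × Par × EE → ℝ} {f : ℝ × Par × EE → MW} (h : f =O[𝓟 (Par2_T K)] g) :
    (fun z => Bi (H0 z.2.1.1) * f z * Bm (H0 z.2.1.1)) =O[𝓟 (Par2_T K)] g :=
  Par2_mul_r (Par2_mul_l (Par2_bd hK (co_Bi0.mono hY)) h) (Par2_bd hK (co_Bm0.mono hY))

lemma Par2_k4 : (fun z : ℝ × Par × EE => k4 z.1 z.2.1 z.2.2 - rho z.2.1.1) =O[𝓟 (Par2_T K)]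
    fun z => z.1 ^ 1 := by
  have h1 := Par2_real ((Par2_be K).trans (Par2_pow K (show 1 ≤ 2 by norm_num)))
  have h2 := Par2_mul_r (Par2_real ((Par2_kap K).trans (Par2_pow K (show 1 ≤ 4 by norm_num))))
    (((entC 0 1).isBigO_comp _ _).trans (Par2_bd hK (co_sym0.mono hY)))
  have h3 := (Par2_jj (Par2_er K 3)).congr_right fun z => (pow_one z.1).symm
  refine Par2_congr ((h1.add h2).sub h3) fun z hz => ?_
  obtain ⟨c, hc⟩ := symM_H0 (hY _ hz.2.1.1)
  have e : symM (H0 z.2.1.1) 0 1 = rho z.2.1.1 - 1/2 := by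
    rw [hc]; simp [s1, s3]
  rw [k4, jj, entC_apply, e]
  push_cast; ring

lemma Par2_al1 : (fun z : ℝ × Par × EE => al1 z.1 z.2.1 z.2.2 -
    zeta (-1) (nilM (-rho z.2.1.1 : ℝ) (z.2.1.1 0))) =O[𝓟 (Par2_T K)] fun z => z.1 ^ 1 := by
  have h := Par2_mul_r (Par2_mul_l (Par2_bd hK (co_Bm0.mono hY))
    ((Par2_A1p K).trans (Par2_pow K (show 1 ≤ 2 by norm_num)))) (Par2_bd hK (co_Bi0.mono hY))
  refine Par2_congr h fun z hz => ?_
  rw [← H0_conj (hY _ hz.2.1.1), al1, mul_sub, sub_mul]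

lemma Par2_a4 : (fun z : ℝ × Par × EE => a4 z.1 z.2.1 z.2.2 - nilM (rho z.2.1.1) (z.2.1.1 3))
    =O[𝓟 (Par2_T K)] fun z => z.1 ^ 1 := by
  have h1 : (fun z : ℝ × Par × EE => z.1 * z.2.1.2.2) =O[𝓟 (Par2_T K)] fun z => z.1 ^ 1 := by
    refine IsBigO.of_bound 1 (eventually_principal.2 fun z hz => ?_)
    rw [pow_one, one_mul, norm_mul]
    exact mul_le_of_le_one_right (norm_nonneg _) hz.2.1.2.2
  refine ((Par2_nilM (fun z => z.2.1.1 3) (Par2_k4 hK hY)).add
    (Par2_smul_r (Par2_real h1) (Par2_trig fun z => z.2.1.1 3))).congr_left fun z => ?_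
  rw [a4, Par2_nilmu]; abel

lemma Par2_alZ2 : (fun z : ℝ × Par × EE => alZ z.1 z.2.1 z.2.2 2 -
    zeta (-1) (-nilM (rho z.2.1.1) (z.2.1.1 3))) =O[𝓟 (Par2_T K)] fun z => z.1 ^ 1 := by
  simp only [← build_zero]
  refine Par2_build ((Par2_er K 3).congr_right fun z => (pow_one z.1).symm)
    ((Par2_a4 hK hY).neg_left.congr_left fun z => by abel)
    ((Par2_S10 K).trans (Par2_pow K (show 1 ≤ 4 by norm_num)))

lemma Par2_Z4 : (fun z : ℝ × Par × EE => Z4 z.1 z.2.1 z.2.2 - Z40 z.2.1.1) =O[𝓟 (Par2_T K)]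
    fun z => z.1 ^ 1 := by
  refine (Par2_conj hK hY (Par2_alZ2 hK hY)).congr_left fun z => ?_
  rw [zeta_neg, Z4, Z40, mul_sub, sub_mul, mul_neg, neg_mul]

lemma Par2_A2p : (fun z : ℝ × Par × EE => A2p z.1 z.2.1 z.2.2 - Al z.2.1.1 2) =O[𝓟 (Par2_T K)]
    fun z => z.1 ^ 1 := by
  have h1 : (fun z : ℝ × Par × EE => cf (-1) (al1 z.1 z.2.1 z.2.2) -
      nilM (-rho z.2.1.1 : ℝ) (z.2.1.1 0)) =O[𝓟 (Par2_T K)] fun z => z.1 ^ 1 :=
    (((cf (-1)).isBigO_comp _ _).trans (Par2_al1 hK hY)).congr_left fun z => by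
      rw [map_sub, cf_zeta]
  have h2 := ((Par2_jj (Par2_er K 1)).congr_right fun z => (pow_one z.1).symm).sub
    (((Par2_jcL.isBigO_comp _ _).trans h1).const_mul_left 2)
  have h3 : (fun z : ℝ × Par × EE => a2 z.1 z.2.1 z.2.2 - nilM (rho z.2.1.1) (z.2.1.1 1))
      =O[𝓟 (Par2_T K)] fun z => z.1 ^ 1 := by
    simp only [a2]
    refine Par2_nilM _ (h2.congr_left fun z => ?_)
    rw [Par2_jcL_apply, Par2_jc_sub, Par2_jc_nilM, jj]; push_cast; ring
  have h4 : (fun z : ℝ × Par × EE => alZ z.1 z.2.1 z.2.2 0 - zeta 0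
      (nilM (-rho z.2.1.1 : ℝ) (z.2.1.1 0) + nilM (rho z.2.1.1) (z.2.1.1 1)))
      =O[𝓟 (Par2_T K)] fun z => z.1 ^ 1 := by
    simp only [Par2_zeta0, Par2_alZ0]
    refine Par2_build ((Par2_er K 1).congr_right fun z => (pow_one z.1).symm)
      ((h1.add h3).congr_left fun z => (add_sub_add_comm _ _ _ _).symm) ?_
    simp only [sub_zero]
    exact isBigO_zero _ _
  refine (Par2_conj hK hY (h4.sub (Par2_al1 hK hY))).congr_left fun z => ?_
  have e := zeta_add (-1) 1 (nilM (-rho z.2.1.1 : ℝ) (z.2.1.1 0)) (nilM (rho z.2.1.1) (z.2.1.1 1))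
  rw [neg_add_cancel] at e
  rw [e, Par2_Al2, A2p, Par2_alg]

lemma Par2_A3p : (fun z : ℝ × Par × EE => A3p z.1 z.2.1 z.2.2 - Al z.2.1.1 3) =O[𝓟 (Par2_T K)]
    fun z => z.1 ^ 1 := by
  have h2 := (Par2_k4 hK hY).neg_left.sub
    ((Par2_jj (Par2_er K 2)).congr_right fun z => (pow_one z.1).symm)
  have h3 : (fun z : ℝ × Par × EE => a3 z.1 z.2.1 z.2.2 - nilM (-rho z.2.1.1 : ℝ) (z.2.1.1 2))
      =O[𝓟 (Par2_T K)] fun z => z.1 ^ 1 := by
    simp only [a3]
    refine Par2_nilM _ (h2.congr_left fun z => ?_)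
    rw [jj]; push_cast; ring
  have h4 : (fun z : ℝ × Par × EE => alZ z.1 z.2.1 z.2.2 1 - zeta 0
      (-nilM (rho z.2.1.1) (z.2.1.1 3) - nilM (-rho z.2.1.1 : ℝ) (z.2.1.1 2)))
      =O[𝓟 (Par2_T K)] fun z => z.1 ^ 1 := by
    simp only [Par2_zeta0, Par2_alZ1]
    refine Par2_build ((Par2_er K 2).congr_right fun z => (pow_one z.1).symm)
      (((Par2_a4 hK hY).neg_left.sub h3).congr_left fun z => by abel) ?_
    simp only [sub_zero]
    exact isBigO_zero _ _
  refine (Par2_conj hK hY ((Par2_alZ2 hK hY).sub h4)).congr_left fun z => ?_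
  have e := zeta_add (-1) 0 (nilM (-rho z.2.1.1 : ℝ) (z.2.1.1 2))
    (-nilM (rho z.2.1.1) (z.2.1.1 3) - nilM (-rho z.2.1.1 : ℝ) (z.2.1.1 2))
  rw [add_zero, add_sub_cancel] at e
  rw [e, Par2_Al3, A3p, Par2_alg']

omit hK hY in
lemma Par2_zero {E : Type} [NormedAddCommGroup E] {f : ℝ × Par × EE → E}
    (h : f =O[𝓟 (Par2_T K)] fun _ => (1:ℝ)) : f =O[𝓟 (Par2_T K)] fun z => z.1 ^ 0 :=
  h.congr_right fun z => (pow_zero z.1).symm

omit hK hY in
lemma Par2_near {f f' : ℝ × Par × EE → MW} {n : ℕ}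
    (h : (fun z => f z - f' z) =O[𝓟 (Par2_T K)] fun z => z.1 ^ n)
    (h' : f' =O[𝓟 (Par2_T K)] fun _ => (1:ℝ)) : f =O[𝓟 (Par2_T K)] fun z => z.1 ^ 0 :=
  ((h.trans (Par2_pow K (Nat.zero_le n))).add (Par2_zero h')).congr_left fun z => by abel

lemma Par2_AA : ∀ᶠ C : ℝ in atTop, ∀ z ∈ Par2_T K, ∀ RG Rm : ℝ, 0 ≤ RG →
    ‖AA (dat z.1 RG Rm z.2.1 z.2.2)‖ ≤ C * (1 + RG ^ 2) := by
  obtain ⟨D, hD0, h1, h2, h3, h4⟩ := ((eventually_ge_atTop 0).and
    ((Par2_ev (Par2_near (Par2_A1p K) (Par2_one A10))).and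
    ((Par2_ev (Par2_near (Par2_A2p hK hY) (Par2_bd hK ((co_Al 2).mono hY)))).and
    ((Par2_ev (Par2_near (Par2_A3p hK hY) (Par2_bd hK ((co_Al 3).mono hY)))).and
    (Par2_ev (Par2_near (Par2_Z4 hK hY) (Par2_bd hK (co_Z40.mono hY)))))))).exists
  filter_upwards [eventually_ge_atTop (4 * D)] with C hC z hz RG Rm hRG
  have b1 := h1 z hz
  have b2 := h2 z hz
  have b3 := h3 z hz
  have b4 := h4 z hz
  simp only [pow_zero, mul_one] at b1 b2 b3 b4
  have hg : ‖(RG : ℂ) • z.2.2.2.1‖ ≤ RG := by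
    rw [norm_smul, norm_real, Real.norm_of_nonneg hRG]
    exact mul_le_of_le_one_right hRG
      (((norm_fst_le z.2.2.2).trans (norm_snd_le z.2.2)).trans hz.2.2)
  have b0 : ‖A0p z.1 RG z.2.1 z.2.2‖ ≤ 2 * D * RG ^ 2 := by
    have hg2 := (norm_adj_le ((RG : ℂ) • z.2.2.2.1)).trans
      (mul_le_mul_of_nonneg_left hg zero_le_two)
    calc _ ≤ ‖(RG : ℂ) • z.2.2.2.1‖ * ‖Z4 z.1 z.2.1 z.2.2‖ * ‖adj ((RG : ℂ) • z.2.2.2.1)‖ :=
          (norm_mul_le _ _).trans (mul_le_mul_of_nonneg_right (norm_mul_le _ _) (norm_nonneg _))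
      _ ≤ RG * D * (2 * RG) := by gcongr
      _ = _ := by ring
  have hR : 0 ≤ D * RG ^ 2 := by positivity
  have hC' : 4 * D * (1 + RG ^ 2) ≤ C * (1 + RG ^ 2) := by gcongr
  refine le_trans ((pi_norm_le_iff_of_nonneg (by positivity)).2 fun j => ?_) hC'
  fin_cases j
  · exact b0.trans (by nlinarith)
  · exact b1.trans (by nlinarith)
  · exact b2.trans (by nlinarith)
  · exact b3.trans (by nlinarith)
  · change ‖Z4 z.1 z.2.1 z.2.2 - A0p z.1 RG z.2.1 z.2.2 - A1p z.1 z.2.1 z.2.2 -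
      A2p z.1 z.2.1 z.2.2 - A3p z.1 z.2.1 z.2.2‖ ≤ _
    have := (norm_sub_le _ _).trans (add_le_add ((norm_sub_le _ _).trans (add_le_add
      ((norm_sub_le _ _).trans (add_le_add ((norm_sub_le _ _).trans (add_le_add b4 b0)) b1)) b2)) b3)
    exact this.trans (by nlinarith)

end main

end BigO

theorem par_est {K : Set Y8} (hK : IsCompact K) (hY : ∀ y ∈ K, Yadm y) : ∃ C : ℝ, 0 ≤ C ∧
    ∀ s ∈ Ioc (0:ℝ) (1/2), ∀ p ∈ Box K, ∀ x : EE, ‖x‖ ≤ 1 →
      ‖A1p s p x - A10‖ ≤ C * s ^ 2 ∧ ‖A2p s p x - Al p.1 2‖ ≤ C * s ∧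
      ‖A3p s p x - Al p.1 3‖ ≤ C * s ∧ ‖Z4 s p x - Z40 p.1‖ ≤ C * s ∧
      ‖k4 s p x - rho p.1‖ ≤ C * s ∧ ‖jj s x 0‖ ≤ C * s ^ 3 ∧
      ‖J2 (SymE (er s x 0)) 0 0‖ ≤ C * s ^ 3 ∧
      (∀ RG Rm : ℝ, 0 ≤ RG → ‖AA (dat s RG Rm p x)‖ ≤ C * (1 + RG ^ 2)) ∧
      ‖A10‖ ≤ C ∧ ‖Z40 p.1‖ ≤ C ∧ ‖H0 p.1‖ ≤ C ∧ ‖Uf (H0 p.1)‖ ≤ C ∧ ‖Bm (H0 p.1)‖ ≤ C ∧
      ‖Bi (H0 p.1)‖ ≤ C ∧ ‖G0 p.1‖ ≤ C := by
  have e0 : (fun z : ℝ × Par × EE => er z.1 z.2.2 0) =O[Filter.principal (Par2_T K)]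
      fun z => z.1 ^ 3 := Par2_er K 0
  obtain ⟨C, h⟩ := Filter.Eventually.exists <|
      (Filter.eventually_ge_atTop 0).and <| (Par2_ev (Par2_A1p K)).and <|
      (Par2_ev (Par2_A2p hK hY)).and <| (Par2_ev (Par2_A3p hK hY)).and <|
      (Par2_ev (Par2_Z4 hK hY)).and <| (Par2_ev (Par2_k4 hK hY)).and <|
      (Par2_ev (Par2_jj e0)).and <| (Par2_ev (Par2_J2 e0)).and <| (Par2_AA hK hY).and <|
      (Filter.eventually_ge_atTop ‖A10‖).and <|
      (Par2_ev (Par2_zero (Par2_bd hK (co_Z40.mono hY)))).and <|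
      (Par2_ev (Par2_zero (Par2_bd hK (co_H0.mono hY)))).and <|
      (Par2_ev (Par2_zero (Par2_bd hK (co_U0.mono hY)))).and <|
      (Par2_ev (Par2_zero (Par2_bd hK (co_Bm0.mono hY)))).and <|
      (Par2_ev (Par2_zero (Par2_bd hK (co_Bi0.mono hY)))).and
      (Par2_ev (Par2_zero (Par2_bd hK (co_G0.mono hY))))
  obtain ⟨h0, h1, h2, h3, h4, h5, h6, h7, h8, h9, h10, h11, h12, h13, h14, h15⟩ := h
  refine ⟨C, h0, fun s hs p hp x hx => ?_⟩
  have hz : (s, p, x) ∈ Par2_T K := ⟨hs, hp, hx⟩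
  specialize h1 _ hz
  specialize h2 _ hz
  specialize h3 _ hz
  specialize h4 _ hz
  specialize h5 _ hz
  specialize h6 _ hz
  specialize h7 _ hz
  specialize h8 _ hz
  specialize h10 _ hz
  specialize h11 _ hz
  specialize h12 _ hz
  specialize h13 _ hz
  specialize h14 _ hz
  specialize h15 _ hz
  dsimp only at h1 h2 h3 h4 h5 h6 h7 h8 h10 h11 h12 h13 h14 h15
  rw [pow_one] at h2 h3 h4 h5
  rw [pow_zero, mul_one] at h10 h11 h12 h13 h14 h15
  unfold jj
  exact ⟨h1, h2, h3, h4, h5, h6, h7, h8, h9, h10, h11, h12, h13, h14, h15⟩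

end Pool.Agent.MP_efb2da_gt

end
end
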